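import Pool.Agent.FlipB_h28.HDef

/-! # The Cech differential -/

namespace Flip28

variable {ι E : Type*} [LinearOrder ι] [AddCommGroup E]

theorem sg_sq (j : ι) (J : Finset ι) : sg j J * sg j J = 1 := by
  unfold sg
  rw [← pow_add, ← two_mul, pow_mul]
  norm_num

theorem HA_erase_lt {i j : ι} {J : Finset ι} (hi : i ∈ J) (h : i < j) :
    sg j J = -sg j (J.erase i) := by
  unfold sg
  have h1 : (J.erase i).filter (· < j) = (J.filter (· < j)).erase i := by
    rw [Finset.filter_erase]
  have h2 : i ∈ J.filter (· < j) := Finset.mem_filter.2 ⟨hi, h⟩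
  have h3 : (J.filter (· < j)).card = ((J.erase i).filter (· < j)).card + 1 := by
    rw [h1, Finset.card_erase_add_one h2]
  rw [h3, pow_succ]
  ring

theorem HA_erase_gt {i j : ι} {J : Finset ι} (h : ¬ i < j) : sg j (J.erase i) = sg j J := by
  unfold sg
  have h1 : (J.erase i).filter (· < j) = J.filter (· < j) := by
    rw [Finset.filter_erase]
    refine Finset.erase_eq_of_notMem ?_
    rw [Finset.mem_filter]
    exact fun hh => h hh.2
  rw [h1]

/-- Proof: assume `i < j`; then `#{< j}` in `J \ {i}` is one less, and `#{< i}` is the same in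
`J` and in `J \ {j}`. -/
theorem sg_swap {i j : ι} {J : Finset ι} (hi : i ∈ J) (hj : j ∈ J) (hij : i ≠ j) :
    sg j J * sg i (J.erase j) = -(sg i J * sg j (J.erase i)) := by
  rcases lt_or_gt_of_ne hij with h | h
  · rw [HA_erase_lt hi h, HA_erase_gt (not_lt.2 h.le)]
    ring
  · rw [HA_erase_lt hj h, HA_erase_gt (not_lt.2 h.le)]
    ring

/-- Proof: distinguish `i < j` and `j < i`. -/
theorem sg_insert {i j : ι} {J : Finset ι} (hj : j ∈ J) (hi : i ∉ J) :
    sg j J * sg i (insert i (J.erase j)) = -(sg i (insert i J) * sg j (insert i J)) := by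
  have hij : i ≠ j := by
    rintro rfl
    exact hi hj
  have h := sg_swap (i := i) (j := j) (J := insert i J) (Finset.mem_insert_self _ _)
    (Finset.mem_insert_of_mem hj) hij
  rw [Finset.erase_insert hi, Finset.erase_insert_of_ne hij] at h
  have h1 := sg_sq j J
  have h2 := sg_sq j (insert i J)
  linear_combination (sg j J * sg j (insert i J)) * h -
    (sg j J * sg i (insert i (J.erase j))) * h2 - (sg j (insert i J) * sg i (insert i J)) * h1

theorem cd_congr {c c' : Finset ι → E} {J : Finset ι}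
    (h : ∀ j ∈ J, c (J.erase j) = c' (J.erase j)) : cd c J = cd c' J :=
  Finset.sum_congr rfl fun j hj => by rw [h j hj]

theorem cd_add (c c' : Finset ι → E) (J : Finset ι) : cd (c + c') J = cd c J + cd c' J := by
  unfold cd
  rw [← Finset.sum_add_distrib]
  exact Finset.sum_congr rfl fun j _ => by rw [Pi.add_apply, smul_add]

theorem cd_sub (c c' : Finset ι → E) (J : Finset ι) : cd (c - c') J = cd c J - cd c' J := by
  unfold cd
  rw [← Finset.sum_sub_distrib]
  exact Finset.sum_congr rfl fun j _ => by rw [Pi.sub_apply, smul_sub]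

theorem cd_zero (J : Finset ι) : cd (0 : Finset ι → E) J = 0 :=
  Finset.sum_eq_zero fun j _ => by rw [Pi.zero_apply, smul_zero]

theorem cd_smul {k : Type*} [Semiring k] [Module k E] (a : k) (c : Finset ι → E)
    (J : Finset ι) : cd (a • c) J = a • cd c J := by
  unfold cd
  rw [Finset.smul_sum]
  exact Finset.sum_congr rfl fun j _ => by rw [Pi.smul_apply, smul_comm]

theorem cd_sum {σ : Type*} (s : Finset σ) (c : σ → Finset ι → E) (J : Finset ι) :
    cd (∑ i ∈ s, c i) J = ∑ i ∈ s, cd (c i) J := by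
  unfold cd
  rw [Finset.sum_comm]
  exact Finset.sum_congr rfl fun j _ => by rw [Finset.sum_apply, Finset.smul_sum]

theorem cd_map {E' : Type*} [AddCommGroup E'] (f : E →+ E') (c : Finset ι → E) (J : Finset ι) :
    cd (fun J => f (c J)) J = f (cd c J) := by
  unfold cd
  rw [map_sum]
  exact Finset.sum_congr rfl fun j _ => by rw [map_zsmul]

/-- Proof: `cd (cd c) J = ∑_{j ≠ i in J} sg j J * sg i (J \ j) • c (J \ {i, j})` and the terms
`(i, j)` and `(j, i)` cancel by `sg_swap`. -/
theorem cd_cd (c : Finset ι → E) (J : Finset ι) : cd (cd c) J = 0 := by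
  unfold cd
  have h1 : ∀ j ∈ J, sg j J • ∑ i ∈ J.erase j, sg i (J.erase j) • c ((J.erase j).erase i) =
      ∑ i ∈ J.erase j, (sg j J * sg i (J.erase j)) • c ((J.erase j).erase i) := by
    intro j _
    rw [Finset.smul_sum]
    exact Finset.sum_congr rfl fun i _ => by rw [mul_smul]
  rw [Finset.sum_congr rfl h1]
  have h2 := Finset.sum_finset_product (r := J.offDiag) (s := J) (t := fun j => J.erase j)
    (fun p => by
      rw [Finset.mem_offDiag, Finset.mem_erase]
      tauto)
    (f := fun p : ι × ι => (sg p.1 J * sg p.2 (J.erase p.1)) • c ((J.erase p.1).erase p.2))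
  rw [← h2]
  refine Finset.sum_involution (fun p _ => (p.2, p.1)) ?_ ?_ ?_ ?_
  · rintro ⟨j, i⟩ hp
    rw [Finset.mem_offDiag] at hp
    obtain ⟨hj, hi, hji⟩ := hp
    simp only at hj hi hji ⊢
    rw [sg_swap hi hj hji.symm, neg_smul, Finset.erase_right_comm, neg_add_cancel]
  · rintro ⟨j, i⟩ hp _ heq
    rw [Finset.mem_offDiag] at hp
    have h3 : i = j := congrArg Prod.fst heq
    exact hp.2.2 h3.symm
  · rintro ⟨j, i⟩ hp
    rw [Finset.mem_offDiag] at hp ⊢
    exact ⟨hp.2.1, hp.1, hp.2.2.symm⟩
  · rintro ⟨j, i⟩ _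
    rfl

theorem cd_insert (c : Finset ι → E) {z : ι} {J : Finset ι} (hz : z ∉ J) :
    cd c (insert z J) = sg z (insert z J) • c J +
      ∑ j ∈ J, sg j (insert z J) • c (insert z (J.erase j)) := by
  unfold cd
  rw [Finset.sum_insert hz, Finset.erase_insert hz]
  congr 1
  refine Finset.sum_congr rfl fun j hj => ?_
  rw [Finset.erase_insert_of_ne]
  rintro rfl
  exact hz hj

theorem sg_map {ι' : Type*} [LinearOrder ι'] (e : ι ↪o ι') (j : ι) (J : Finset ι) :
    sg (e j) (J.map e.toEmbedding) = sg j J := by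
  unfold sg
  rw [Finset.filter_map, Finset.card_map]
  congr 2
  refine Finset.filter_congr fun i _ => ?_
  show e i < e j ↔ i < j
  exact e.lt_iff_lt

theorem cd_map_emb {ι' : Type*} [LinearOrder ι'] (e : ι ↪o ι') (c : Finset ι' → E)
    (J : Finset ι) :
    cd c (J.map e.toEmbedding) = cd (fun J => c (J.map e.toEmbedding)) J := by
  unfold cd
  rw [Finset.sum_map]
  refine Finset.sum_congr rfl fun j _ => ?_
  show sg (e j) (J.map e.toEmbedding) • c ((J.map e.toEmbedding).erase (e j)) =
    sg j J • c ((J.erase j).map e.toEmbedding)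
  rw [sg_map, Finset.map_erase]
  rfl

end Flip28
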