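import Pool.Agent.FlipB_h28.HA

/-! # Acyclicity for a cover of an affine variety -/

namespace Flip28

variable {ι : Type*} [LinearOrder ι] {k K E : Type*} [Field k] [Field K] [Algebra k K]
  [AddCommGroup E] [Module k E] [Module K E] [IsScalarTower k K E]

/-- Proof (all subsets `J` below are subsets of `I`).  Choose `t` with `g i ^ t • c (insert i J) ∈
N J` for all `i ∈ I`, `J ⊆ I` with `(insert i J).card = q` (a maximum of finitely many numbers;
larger exponents are allowed since `g i ∈ C` and `N J` is `C`-stable), `a` as in `hone t` and put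
`b J = ∑_{i ∈ I \ J} (a i * g i ^ t) • sg i (insert i J) • c (insert i J)`.  For `J ⊆ I` with
`q` elements
`cd b J = ∑_{j ∈ J} sg j J • ∑_{i ∈ I \ (J \ j)} (a i * g i ^ t) • sg i (J \ j ∪ i) • c (J \ j ∪ i)`;
the terms `i = j` give `∑_{j ∈ J} (a j * g j ^ t) • c J` (`sg_sq`), the terms `i ∉ J` give, by
`sg_insert` and the cocycle condition at `insert i J` (`cd_insert`),
`∑_{i ∈ I \ J} (a i * g i ^ t) • c J`.  The sum is `(∑_{i ∈ I} a i * g i ^ t) • c J = c J`.
For `q = 0`: `J = ∅`, and `c ∅ = 0` by the cocycle condition at `{i}` (`I` is not empty because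
of `hone 0`). -/
theorem acy_of_cover (C : Subalgebra k K) (N : Finset ι → Submodule k E) (I : Finset ι)
    (g : ι → K) (hg : ∀ i ∈ I, g i ∈ C) (hC : ∀ J ⊆ I, ∀ a ∈ C, ∀ v ∈ N J, a • v ∈ N J)
    (hloc : ∀ i ∈ I, ∀ J ⊆ I, ∀ v ∈ N (insert i J), ∃ t : ℕ, (g i) ^ t • v ∈ N J)
    (hone : ∀ t : ℕ, ∃ a : ι → K, (∀ i ∈ I, a i ∈ C) ∧ ∑ i ∈ I, a i * (g i) ^ t = 1) :
    Acy N I := by
  intro q c hv hc
  have ht : ∀ (i : ι) (J : Finset ι), ∃ t : ℕ, i ∈ I → J ⊆ I → (insert i J).card = q →
      (g i) ^ t • c (insert i J) ∈ N J := by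
    intro i J
    by_cases h : i ∈ I ∧ J ⊆ I ∧ (insert i J).card = q
    · obtain ⟨t, ht⟩ := hloc i h.1 J h.2.1 _
        (hv (insert i J) (Finset.insert_subset h.1 h.2.1) h.2.2)
      exact ⟨t, fun _ _ _ => ht⟩
    · exact ⟨0, fun h1 h2 h3 => absurd ⟨h1, h2, h3⟩ h⟩
  choose τ hτ using ht
  have hT : ∀ i ∈ I, ∀ J ⊆ I, (insert i J).card = q →
      (g i) ^ ((I ×ˢ I.powerset).sup (fun p => τ p.1 p.2)) • c (insert i J) ∈ N J := by
    intro i hi J hJ hcard
    have h1 : τ i J ≤ (I ×ˢ I.powerset).sup (fun p => τ p.1 p.2) :=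
      Finset.le_sup (f := fun p : ι × Finset ι => τ p.1 p.2) (b := (i, J))
        (Finset.mem_product.2 ⟨hi, Finset.mem_powerset.2 hJ⟩)
    obtain ⟨d, hd⟩ := Nat.exists_eq_add_of_le h1
    rw [hd, pow_add, mul_comm, mul_smul]
    exact hC J hJ _ (C.pow_mem (hg i hi) d) _ (hτ i J hi hJ hcard)
  generalize (I ×ˢ I.powerset).sup (fun p => τ p.1 p.2) = T at hT
  obtain ⟨a, ha, hone'⟩ := hone T
  refine ⟨fun J => ∑ i ∈ I \ J, (a i * g i ^ T) • (sg i (insert i J) • c (insert i J)), ?_, ?_⟩
  · intro J hJ hcard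
    refine Submodule.sum_mem _ fun i hi => ?_
    rw [Finset.mem_sdiff] at hi
    rw [smul_comm, mul_smul]
    refine zsmul_mem (hC J hJ _ (ha i hi.1) _ (hT i hi.1 J hJ ?_)) _
    rw [Finset.card_insert_of_notMem hi.2]
    exact hcard
  · intro J hJ hcard
    have h1 : ∀ j ∈ J, sg j J • (∑ i ∈ I \ (J.erase j), (a i * g i ^ T) •
        (sg i (insert i (J.erase j)) • c (insert i (J.erase j)))) =
        (a j * g j ^ T) • c J + ∑ i ∈ I \ J, (a i * g i ^ T) •
          ((-sg i (insert i J)) • (sg j (insert i J) • c (insert i (J.erase j)))) := by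
      intro j hj
      have h2 : I \ (J.erase j) = insert j (I \ J) := by
        ext x
        rw [Finset.mem_sdiff, Finset.mem_erase, Finset.mem_insert, Finset.mem_sdiff]
        have := hJ hj
        constructor
        · rintro ⟨h3, h4⟩
          by_cases hx : x = j
          · exact Or.inl hx
          · exact Or.inr ⟨h3, fun h5 => h4 ⟨hx, h5⟩⟩
        · rintro (rfl | ⟨h3, h4⟩)
          · exact ⟨this, fun h5 => h5.1 rfl⟩
          · exact ⟨h3, fun h5 => h4 h5.2⟩
      rw [h2, Finset.sum_insert (by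
        rw [Finset.mem_sdiff]
        exact fun h3 => h3.2 hj), smul_add]
      congr 1
      · rw [Finset.insert_erase hj, smul_comm, ← mul_smul (sg j J), sg_sq, one_smul]
      · rw [Finset.smul_sum]
        refine Finset.sum_congr rfl fun i hi => ?_
        rw [Finset.mem_sdiff] at hi
        rw [smul_comm, ← mul_smul (sg j J), sg_insert hj hi.2, ← mul_smul (-sg i (insert i J)),
          neg_mul]
    have h3 : cd (fun J => ∑ i ∈ I \ J, (a i * g i ^ T) • (sg i (insert i J) •
        c (insert i J))) J = ∑ j ∈ J, ((a j * g j ^ T) • c J + ∑ i ∈ I \ J, (a i * g i ^ T) •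
          ((-sg i (insert i J)) • (sg j (insert i J) • c (insert i (J.erase j))))) :=
      Finset.sum_congr rfl h1
    rw [h3, Finset.sum_add_distrib, Finset.sum_comm]
    have h4 : ∀ i ∈ I \ J, ∑ j ∈ J, (a i * g i ^ T) •
          ((-sg i (insert i J)) • (sg j (insert i J) • c (insert i (J.erase j)))) =
          (a i * g i ^ T) • c J := by
      intro i hi
      rw [Finset.mem_sdiff] at hi
      rw [← Finset.smul_sum, ← Finset.smul_sum]
      have h5 := hc (insert i J) (Finset.insert_subset hi.1 hJ) (by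
        rw [Finset.card_insert_of_notMem hi.2, hcard])
      rw [cd_insert c hi.2] at h5
      have h6 : (-sg i (insert i J)) • (-(sg i (insert i J) • c J)) = c J := by
        rw [neg_smul, smul_neg, neg_neg, ← mul_smul, sg_sq, one_smul]
      rw [← neg_eq_of_add_eq_zero_right h5, h6]
    rw [Finset.sum_congr rfl h4, ← Finset.sum_smul, ← Finset.sum_smul, ← add_smul,
      add_comm, Finset.sum_sdiff hJ, hone', one_smul]

end Flip28
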