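import Pool.Agent.FlipB_h28.HA

/-! # Comparison of covers -/

namespace Flip28

variable {ι : Type*} [LinearOrder ι] {k E : Type*} [Ring k] [AddCommGroup E] [Module k E]

/-- Adding one index.  Proof: let `c = cd b` on the subsets of `I` with `q` elements; put
`b' J = b J` if `J ⊆ I` and `0` otherwise and `c' = c - cd b'`; `c'` is a cocycle on `insert z I`
with values in `F`, zero on the subsets of `I` with `q` elements.  If `q = 0` we are done.
Otherwise let `e J = sg z (insert z J) • c' (insert z J)` for `J ⊆ I` with `q - 1` elements: by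
`sg_insert` and the cocycle condition for `c'` at `insert z J` (`cd_insert`) `e` is a cocycle (on
the subsets of `I` with `q - 1` elements) of the family `J ↦ F (insert z J)`, so `e = cd f` by
hypothesis.  Put `b'' J = - sg z J • f (J.erase z)` for `z ∈ J` and `0` for `z ∉ J`; then
`cd b'' = c'` on the subsets of `insert z I` with `q` elements (use `sg_swap`). -/
theorem cob_insert {F : Finset ι → Submodule k E} (hF : ∀ J J', J ⊆ J' → F J ≤ F J')
    {I : Finset ι} {z : ι} (hz : z ∉ I) (hacy : Acy (fun J => F (insert z J)) I) {q : ℕ}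
    {c : Finset ι → E} (hv : Val F (insert z I) q c) (hc : Coc (insert z I) q c)
    (h : Cob F I q c) : Cob F (insert z I) q c := by
  obtain ⟨b, hb, hcb⟩ := h
  -- the cochain `b` extended by zero
  obtain ⟨b', hb'⟩ : ∃ b' : Finset ι → E, ∀ J, b' J = if J ⊆ I then b J else 0 :=
    ⟨_, fun _ => rfl⟩
  have hb'I : ∀ J ⊆ I, b' J = b J := fun J hJ => by rw [hb', if_pos hJ]
  have hb'F : ∀ J : Finset ι, J.card + 1 = q → b' J ∈ F J := by
    intro J hcard
    rw [hb']
    by_cases hJ : J ⊆ I
    · rw [if_pos hJ]
      exact hb J hJ hcard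
    · rw [if_neg hJ]
      exact Submodule.zero_mem _
  have hcdb' : ∀ J ⊆ I, cd b' J = cd b J := fun J hJ =>
    cd_congr fun j _ => hb'I _ ((Finset.erase_subset _ _).trans hJ)
  have hcdb'F : ∀ J : Finset ι, J.card = q → cd b' J ∈ F J := by
    intro J hcard
    refine Submodule.sum_mem _ fun j hj => zsmul_mem ?_ _
    refine hF _ _ (Finset.erase_subset j J) (hb'F _ ?_)
    rw [Finset.card_erase_add_one hj, hcard]
  rcases Nat.eq_zero_or_pos q with rfl | hq
  · refine ⟨b', fun J _ hcard => absurd hcard (by omega), fun J _ hcard => ?_⟩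
    have hJ0 : J = ∅ := Finset.card_eq_zero.1 hcard
    subst hJ0
    rw [hcb ∅ (Finset.empty_subset _) hcard, hcdb' ∅ (Finset.empty_subset _)]
  · obtain ⟨q', rfl⟩ : ∃ q', q = q' + 1 := ⟨q - 1, by omega⟩
    -- the cocycle `c' = c - cd b'`
    obtain ⟨c', hc'⟩ : ∃ c' : Finset ι → E, c' = c - cd b' := ⟨_, rfl⟩
    have hc'F : ∀ J ⊆ insert z I, J.card = q' + 1 → c' J ∈ F J := by
      intro J hJ hcard
      rw [hc', Pi.sub_apply]
      exact Submodule.sub_mem _ (hv J hJ hcard) (hcdb'F J hcard)
    have hc'I : ∀ J ⊆ I, J.card = q' + 1 → c' J = 0 := by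
      intro J hJ hcard
      rw [hc', Pi.sub_apply, hcb J hJ hcard, hcdb' J hJ, sub_self]
    have hc'c : ∀ J ⊆ insert z I, J.card = q' + 1 + 1 → cd c' J = 0 := by
      intro J hJ hcard
      rw [hc', cd_sub, hc J hJ hcard, cd_cd, sub_zero]
    have hcard_insert : ∀ J ⊆ I, (insert z J).card = J.card + 1 := fun J hJ =>
      Finset.card_insert_of_notMem fun h => hz (hJ h)
    have hsub_insert : ∀ J ⊆ I, insert z J ⊆ insert z I := fun J hJ =>
      Finset.insert_subset_insert z hJ
    obtain ⟨f, hf1, hf2⟩ := hacy q' (fun J => sg z (insert z J) • c' (insert z J))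
      (by
        intro J hJ hcard
        refine zsmul_mem (hc'F _ (hsub_insert J hJ) ?_) _
        rw [hcard_insert J hJ, hcard])
      (by
        intro J hJ hcard
        have hzJ : z ∉ J := fun h => hz (hJ h)
        have h1 := hc'c (insert z J) (hsub_insert J hJ) (by rw [hcard_insert J hJ, hcard])
        rw [cd_insert c' hzJ, hc'I J hJ hcard, smul_zero, zero_add] at h1
        have h2 : cd (fun J => sg z (insert z J) • c' (insert z J)) J =
            -sg z (insert z J) • ∑ j ∈ J, sg j (insert z J) • c' (insert z (J.erase j)) := by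
          rw [Finset.smul_sum]
          refine Finset.sum_congr rfl fun j hj => ?_
          show sg j J • (sg z (insert z (J.erase j)) • c' (insert z (J.erase j))) = _
          rw [← mul_smul, sg_insert hj hzJ, ← mul_smul, neg_mul]
        rw [h2, h1, smul_zero])
    obtain ⟨b'', hb''⟩ : ∃ b'' : Finset ι → E,
        ∀ J, b'' J = if z ∈ J then -(sg z J • f (J.erase z)) else 0 := ⟨_, fun _ => rfl⟩
    have hcd'' : ∀ J ⊆ insert z I, J.card = q' + 1 → cd b'' J = c' J := by
      intro J hJ hcard
      by_cases hzJ : z ∈ J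
      · have hJ0 : J.erase z ⊆ I := by
          intro x hx
          rw [Finset.mem_erase] at hx
          exact (Finset.mem_insert.1 (hJ hx.2)).resolve_left hx.1
        have hcard0 : (J.erase z).card = q' := by
          rw [Finset.card_erase_of_mem hzJ, hcard, Nat.add_sub_cancel]
        have h1 := hf2 (J.erase z) hJ0 hcard0
        have h1' : sg z (insert z (J.erase z)) • c' (insert z (J.erase z)) =
            cd f (J.erase z) := h1
        rw [Finset.insert_erase hzJ] at h1'
        have h2 : c' J = sg z J • cd f (J.erase z) := by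
          rw [← h1', ← mul_smul, sg_sq, one_smul]
        rw [h2]
        unfold cd
        rw [← Finset.add_sum_erase J _ hzJ, hb'' (J.erase z),
          if_neg (Finset.notMem_erase z J), smul_zero, zero_add, Finset.smul_sum]
        refine Finset.sum_congr rfl fun j hj => ?_
        rw [Finset.mem_erase] at hj
        have hzj : z ∈ J.erase j := Finset.mem_erase.2 ⟨fun h => hj.1 h.symm, hzJ⟩
        rw [hb'', if_pos hzj, smul_neg, ← mul_smul, ← mul_smul,
          sg_swap hzJ hj.2 (fun h => hj.1 h.symm), neg_smul, neg_neg,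
          Finset.erase_right_comm]
      · have hJI : J ⊆ I := by
          intro x hx
          refine (Finset.mem_insert.1 (hJ hx)).resolve_left ?_
          rintro rfl
          exact hzJ hx
        rw [hc'I J hJI hcard]
        refine Finset.sum_eq_zero fun j _ => ?_
        rw [hb'', if_neg (fun h => hzJ (Finset.mem_of_mem_erase h)), smul_zero]
    refine ⟨b' + b'', fun J hJ hcard => ?_, fun J hJ hcard => ?_⟩
    · rw [Pi.add_apply]
      refine Submodule.add_mem _ (hb'F J hcard) ?_
      rw [hb'']
      by_cases hzJ : z ∈ J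
      · rw [if_pos hzJ]
        refine Submodule.neg_mem _ (zsmul_mem ?_ _)
        have h1 := hf1 (J.erase z) (by
          intro x hx
          rw [Finset.mem_erase] at hx
          exact (Finset.mem_insert.1 (hJ hx.2)).resolve_left hx.1) (by
          rw [Finset.card_erase_add_one hzJ]
          omega)
        have h1' : f (J.erase z) ∈ F (insert z (J.erase z)) := h1
        rwa [Finset.insert_erase hzJ] at h1'
      · rw [if_neg hzJ]
        exact Submodule.zero_mem _
    · rw [cd_add, hcd'' J hJ hcard, hc', Pi.sub_apply]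
      abel

/-- Proof: add the elements of `I \ I0` one by one (`cob_insert`). -/
theorem cob_of_sub {F : Finset ι → Submodule k E} (hF : ∀ J J', J ⊆ J' → F J ≤ F J')
    {I0 I : Finset ι} (h0 : I0 ⊆ I)
    (hacy : ∀ z ∈ I, ∀ I1, I0 ⊆ I1 → I1 ⊆ I → z ∉ I1 → Acy (fun J => F (insert z J)) I1)
    {q : ℕ} {c : Finset ι → E} (hv : Val F I q c) (hc : Coc I q c) (h : Cob F I0 q c) :
    Cob F I q c := by
  have key : ∀ S : Finset ι, S ⊆ I → Cob F (I0 ∪ S) q c := by
    intro S
    induction S using Finset.induction_on with
    | empty =>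
      intro _
      rw [Finset.union_empty]
      exact h
    | insert z S hzS ih =>
      intro hS
      have hzI : z ∈ I := hS (Finset.mem_insert_self z S)
      have hSI : S ⊆ I := (Finset.subset_insert z S).trans hS
      have h1 := ih hSI
      have hun : I0 ∪ insert z S = insert z (I0 ∪ S) := Finset.union_insert z I0 S
      rw [hun]
      by_cases hz : z ∈ I0 ∪ S
      · rw [Finset.insert_eq_of_mem hz]
        exact h1
      · have hsub : I0 ∪ S ⊆ I := Finset.union_subset h0 hSI
        have hsub' : insert z (I0 ∪ S) ⊆ I := Finset.insert_subset hzI hsub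
        exact cob_insert hF hz (hacy z hzI (I0 ∪ S) Finset.subset_union_left hsub hz)
          (fun J hJ => hv J (hJ.trans hsub')) (fun J hJ => hc J (hJ.trans hsub')) h1
  have h2 := key I (Finset.Subset.refl I)
  rwa [Finset.union_eq_right.2 h0] at h2

end Flip28
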