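import Pool.Agent.FlipB_h28.HA

/-! # The zigzag -/

namespace Flip28

variable {ι : Type*} [LinearOrder ι] {k E : Type*} [Ring k] [AddCommGroup E] [Module k E]
  {p : ℕ} {G U T : ℕ → Finset ι → Submodule k E} {I : Finset ι} {ε ε' : Finset ι → E}

theorem HC1_cd_mem (F : Submodule k E) (c : Finset ι → E) (J : Finset ι)
    (h : ∀ j ∈ J, c (J.erase j) ∈ F) : cd c J ∈ F := by
  unfold cd
  exact Submodule.sum_mem _ (fun j hj => zsmul_mem (h j hj) _)

theorem HC1_card {J : Finset ι} {n : ℕ} (h : J.card = n + 1) {j : ι} (hj : j ∈ J) :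
    (J.erase j).card = n := by
  rw [Finset.card_erase_of_mem hj, h]
  rfl

theorem HC1_cd_mem_mono {q : ℕ} (F : Finset ι → Submodule k E) (c : Finset ι → E)
    (hF : ∀ J J', J ⊆ J' → J' ⊆ I → J.Nonempty → F J ≤ F J')
    (hc : ∀ J ⊆ I, J.card = q + 1 → c J ∈ F J) (J : Finset ι) (hJ : J ⊆ I)
    (hq : J.card = q + 2) : cd c J ∈ F J := by
  apply HC1_cd_mem
  intro j hj
  have h1 : (J.erase j).card = q + 1 := HC1_card hq hj
  have h2 : J.erase j ⊆ J := Finset.erase_subset j J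
  exact hF _ _ h2 hJ (Finset.card_pos.1 (by omega)) (hc _ (h2.trans hJ) h1)

theorem Zig.le {l : ℕ} {c : Finset ι → E} (h : Zig p G U I ε l c) : l ≤ p := by
  cases h with
  | base => exact le_rfl
  | step hl _ _ _ _ => exact hl.le

/-- Induction.  Step: `cd b J = - cd w J` for `J ⊆ I` with `p - l + 2` elements, by `cd_cd`;
this element is in `G l J` and in `U l J` (monotonicity; the subsets `J.erase j` are not empty),
hence in `T l J`. -/
theorem Zig.props (hZ : ZigData p G U T I) (h1 : Val (G p) I 1 ε)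
    (h2 : ∀ J ⊆ I, J.card = 2 → cd ε J ∈ T p J) {l : ℕ} {c : Finset ι → E}
    (h : Zig p G U I ε l c) : Val (G l) I (p - l + 1) c ∧
      ∀ J ⊆ I, J.card = p - l + 2 → cd c J ∈ T l J := by
  induction h with
  | base => rw [Nat.sub_self]; exact ⟨h1, h2⟩
  | @step l c b w hl hc hb hw h _ =>
    refine ⟨hb, fun J hJ hq => ?_⟩
    have e1 : cd (cd c) J = cd (b + w) J := by
      apply cd_congr
      intro j hj
      exact h _ ((Finset.erase_subset j J).trans hJ) (HC1_card hq hj)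
    rw [cd_cd, cd_add] at e1
    have e2 : cd b J = -cd w J := eq_neg_of_add_eq_zero_left e1.symm
    have hne : J.Nonempty := Finset.card_pos.1 (by omega)
    have hG : cd b J ∈ G l J := HC1_cd_mem_mono (G l) b (hZ.monoG l hl.le) hb J hJ hq
    have hU : cd b J ∈ U l J := by
      rw [e2]
      exact Submodule.neg_mem _ (HC1_cd_mem_mono (U l) w (hZ.monoU l hl) hw J hJ hq)
    exact hZ.inter l hl J hJ hne ⟨hG, hU⟩

theorem HC1_split (hZ : ZigData p G U T I) {l q : ℕ} (hl : l < p) {c : Finset ι → E}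
    (h : ∀ J ⊆ I, J.card = q + 1 → c J ∈ T (l + 1) J) :
    ∃ b w : Finset ι → E, (∀ J ⊆ I, J.card = q + 1 → b J ∈ G l J) ∧
      (∀ J ⊆ I, J.card = q + 1 → w J ∈ U l J) ∧
      ∀ J ⊆ I, J.card = q + 1 → c J = b J + w J := by
  classical
  have key : ∀ J : Finset ι, ∃ y z : E, J ⊆ I → J.card = q + 1 →
      y ∈ G l J ∧ z ∈ U l J ∧ c J = y + z := by
    intro J
    by_cases hJ : J ⊆ I ∧ J.card = q + 1
    · have h3 := h J hJ.1 hJ.2
      rw [hZ.succ l hl J hJ.1 (Finset.card_pos.1 (by omega)), Submodule.mem_sup] at h3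
      obtain ⟨y, hy, z, hz, hyz⟩ := h3
      exact ⟨y, z, fun _ _ => ⟨hy, hz, hyz.symm⟩⟩
    · exact ⟨0, 0, fun h1 h2 => absurd ⟨h1, h2⟩ hJ⟩
  choose b w hbw using key
  exact ⟨b, w, fun J h1 h2 => (hbw J h1 h2).1, fun J h1 h2 => (hbw J h1 h2).2.1,
    fun J h1 h2 => (hbw J h1 h2).2.2⟩

/-- Downward induction on `l` with `Zig.props`: `cd c J ∈ T (l + 1) J = G l J ⊔ U l J`. -/
theorem Zig.exists_zero (hZ : ZigData p G U T I) (h1 : Val (G p) I 1 ε)
    (h2 : ∀ J ⊆ I, J.card = 2 → cd ε J ∈ T p J) : ∃ c, Zig p G U I ε 0 c := by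
  have key : ∀ d : ℕ, d ≤ p → ∃ c, Zig p G U I ε (p - d) c := by
    intro d
    induction d with
    | zero => exact fun _ => ⟨ε, Zig.base⟩
    | succ d ih =>
      intro hd
      obtain ⟨c, hc⟩ := ih (by omega)
      obtain ⟨l, hl⟩ : ∃ l, l = p - (d + 1) := ⟨_, rfl⟩
      have e : p - d = l + 1 := by omega
      rw [e] at hc
      rw [← hl]
      have h3 := (Zig.props hZ h1 h2 hc).2
      have e2 : p - (l + 1) + 2 = (p - l) + 1 := by omega
      rw [e2] at h3
      obtain ⟨b, w, hb, hw, hbw⟩ := HC1_split hZ (show l < p by omega) h3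
      exact ⟨b, Zig.step (by omega) hc hb hw hbw⟩
  obtain ⟨c, hc⟩ := key p le_rfl
  rw [Nat.sub_self] at hc
  exact ⟨c, hc⟩

theorem Zig.coc (hZ : ZigData p G U T I) (h1 : Val (G p) I 1 ε)
    (h2 : ∀ J ⊆ I, J.card = 2 → cd ε J ∈ T p J) {c : Finset ι → E}
    (h : Zig p G U I ε 0 c) : Val (G 0) I (p + 1) c ∧ Coc I (p + 1) c := by
  have h3 := Zig.props hZ h1 h2 h
  rw [Nat.sub_zero] at h3
  refine ⟨h3.1, fun J hJ hq => ?_⟩
  have h4 := h3.2 J hJ hq
  rw [hZ.zero J hJ (Finset.card_pos.1 (by omega)), Submodule.mem_bot] at h4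
  exact h4

theorem Zig.mono {I' : Finset ι} (hI : I' ⊆ I) {l : ℕ} {c : Finset ι → E}
    (h : Zig p G U I ε l c) : Zig p G U I' ε l c := by
  induction h with
  | base => exact Zig.base
  | step hl _ hb hw h ih =>
    exact Zig.step hl ih (fun J hJ => hb J (hJ.trans hI)) (fun J hJ => hw J (hJ.trans hI))
      (fun J hJ => h J (hJ.trans hI))

theorem Zig.sub {l : ℕ} {c c' : Finset ι → E} (h : Zig p G U I ε l c)
    (h' : Zig p G U I ε' l c') : Zig p G U I (ε - ε') l (c - c') := by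
  induction h generalizing c' with
  | base =>
    cases h' with
    | base => exact Zig.base
    | step hl _ _ _ _ => exact absurd hl (lt_irrefl _)
  | @step l c b w hl hc hb hw h ih =>
    cases h' with
    | base => exact absurd hl (lt_irrefl _)
    | @step _ c₂ b₂ w₂ hl₂ hc₂ hb₂ hw₂ h₂ =>
      refine Zig.step hl (ih hc₂) (w := w - w₂)
        (fun J hJ hq => Submodule.sub_mem _ (hb J hJ hq) (hb₂ J hJ hq))
        (fun J hJ hq => Submodule.sub_mem _ (hw J hJ hq) (hw₂ J hJ hq)) ?_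
      intro J hJ hq
      rw [cd_sub, h J hJ hq, h₂ J hJ hq, Pi.sub_apply, Pi.sub_apply]
      abel

theorem HC1_cob (hZ : ZigData p G U T I) (h1 : ∀ J ⊆ I, J.card = 1 → ε J ∈ T p J)
    {l : ℕ} {c : Finset ι → E} (h : Zig p G U I ε l c) :
    ∃ e τ : Finset ι → E, (∀ J ⊆ I, J.card = p - l → e J ∈ G l J) ∧
      (∀ J ⊆ I, J.card = p - l + 1 → τ J ∈ T l J) ∧
      ∀ J ⊆ I, J.card = p - l + 1 → c J = cd e J + τ J := by
  induction h with
  | base =>
    refine ⟨0, ε, fun J _ _ => Submodule.zero_mem _, ?_, ?_⟩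
    · rw [Nat.sub_self]; exact h1
    · intro J _ _
      rw [cd_zero, zero_add]
  | @step l c b w hl hc hb hw h ih =>
    obtain ⟨e₁, τ₁, he₁, hτ₁, hc₁⟩ := ih
    obtain ⟨q, hq⟩ : ∃ q, p - l = q + 1 := ⟨p - l - 1, by omega⟩
    have e2 : p - (l + 1) + 1 = q + 1 := by omega
    rw [e2] at hτ₁ hc₁
    obtain ⟨g, u, hg, hu, hgu⟩ := HC1_split hZ hl hτ₁
    have key : ∀ J ⊆ I, J.card = q + 2 → b J - cd g J = cd u J - w J := by
      intro J hJ hJq
      have h3 : cd c J = cd (cd e₁ + (g + u)) J := by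
        apply cd_congr
        intro j hj
        have h4 := HC1_card hJq hj
        have h5 : J.erase j ⊆ I := (Finset.erase_subset j J).trans hJ
        rw [hc₁ _ h5 h4, hgu _ h5 h4]
        rfl
      rw [cd_add, cd_cd, zero_add, cd_add] at h3
      have h6 := h J hJ (by omega)
      rw [h3] at h6
      rw [sub_eq_sub_iff_add_eq_add, ← h6, add_comm]
    refine ⟨g, b - cd g, ?_, ?_, ?_⟩
    · rw [hq]; exact hg
    · intro J hJ hJq
      have hJq' : J.card = q + 2 := by omega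
      have hne : J.Nonempty := Finset.card_pos.1 (by omega)
      have h7 : b J - cd g J ∈ G l J :=
        Submodule.sub_mem _ (hb J hJ hJq) (HC1_cd_mem_mono (G l) g (hZ.monoG l hl.le) hg J hJ hJq')
      have h8 : b J - cd g J ∈ U l J := by
        rw [key J hJ hJq']
        exact Submodule.sub_mem _ (HC1_cd_mem_mono (U l) u (hZ.monoU l hl) hu J hJ hJq')
          (hw J hJ hJq)
      exact hZ.inter l hl J hJ hne ⟨h7, h8⟩
    · intro J _ _
      rw [Pi.sub_apply]
      abel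

/-- Proof: by induction, if `Zig p G U I ε l c` then `c = cd e + τ` on the subsets of `I` with
`p - l + 1` elements, `e` with values in `G l` on the (nonempty) subsets with `p - l` elements
(`e = 0` for `l = p`), `τ` with values in `T l`: if `c = cd e + τ` at the level `l + 1`, write
`τ = g + u` with values in `G l`, `U l` (`hZ.succ`); for the next term `b` of the zigzag
(`cd c = b + w`) we have `cd c = cd τ = cd g + cd u`, so
`b - cd g = cd u - w ∈ G l J ⊓ U l J ≤ T l J`.  At the level `0` the family `T 0` is zero. -/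
theorem Zig.cob (hZ : ZigData p G U T I) (h1 : ∀ J ⊆ I, J.card = 1 → ε J ∈ T p J)
    {c : Finset ι → E} (h : Zig p G U I ε 0 c) : Cob (G 0) I (p + 1) c := by
  obtain ⟨e, τ, he, hτ, hc⟩ := HC1_cob hZ h1 h
  rw [Nat.sub_zero] at he hτ hc
  refine ⟨e, fun J hJ hq => he J hJ (by omega), fun J hJ hq => ?_⟩
  have h2 := hτ J hJ hq
  rw [hZ.zero J hJ (Finset.card_pos.1 (by omega)), Submodule.mem_bot] at h2
  rw [hc J hJ hq, h2, add_zero]

end Flip28
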