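import Pool.Agent.FlipB_h28.HC1

/-! # A special zigzag -/

namespace Flip28

variable {ι : Type*} [LinearOrder ι] {k E : Type*} [Ring k] [AddCommGroup E] [Module k E]

/-- the sets `J_l` -/
def HC2_J {p : ℕ} (e : Fin (p + 1) → ι) (l : ℕ) : Finset ι :=
  (Finset.univ.filter (fun a : Fin (p + 1) => a = 0 ∨ l < (a : ℕ))).image e

theorem HC2_mem {p : ℕ} {e : Fin (p + 1) → ι} (he : Function.Injective e) (l : ℕ)
    (a : Fin (p + 1)) : e a ∈ HC2_J e l ↔ (a = 0 ∨ l < (a : ℕ)) := by
  unfold HC2_J
  rw [Finset.mem_image]
  constructor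
  · rintro ⟨b, hb, hba⟩
    rw [← he hba]
    exact (Finset.mem_filter.1 hb).2
  · intro h
    exact ⟨a, Finset.mem_filter.2 ⟨Finset.mem_univ a, h⟩, rfl⟩

theorem HC2_sub {p : ℕ} (e : Fin (p + 1) → ι) (l : ℕ) : HC2_J e l ⊆ Finset.univ.image e := by
  unfold HC2_J
  exact Finset.image_subset_image (Finset.filter_subset _ _)

theorem HC2_zero {p : ℕ} (e : Fin (p + 1) → ι) : HC2_J e 0 = Finset.univ.image e := by
  unfold HC2_J
  congr 1
  ext a
  simp only [Finset.mem_filter, Finset.mem_univ, true_and, iff_true]
  by_cases h : a = 0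
  · exact Or.inl h
  · right
    exact Nat.pos_of_ne_zero (fun h0 => h (Fin.ext h0))

theorem HC2_last {p : ℕ} (e : Fin (p + 1) → ι) : HC2_J e p = {e 0} := by
  unfold HC2_J
  have : Finset.univ.filter (fun a : Fin (p + 1) => a = 0 ∨ p < (a : ℕ)) = {0} := by
    ext a
    simp only [Finset.mem_filter, Finset.mem_univ, true_and, Finset.mem_singleton]
    have := a.2
    constructor
    · rintro (h | h)
      · exact h
      · omega
    · exact fun h => Or.inl h
  rw [this, Finset.image_singleton]

theorem HC2_erase {p : ℕ} {e : Fin (p + 1) → ι} (he : Function.Injective e) (l : Fin p) :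
    (HC2_J e l).erase (e l.succ) = HC2_J e (l + 1) := by
  ext i
  rw [Finset.mem_erase]
  constructor
  · rintro ⟨h1, h2⟩
    obtain ⟨a, -, rfl⟩ := Finset.mem_image.1 (HC2_sub e l h2)
    rw [HC2_mem he] at h2 ⊢
    rcases h2 with h2 | h2
    · exact Or.inl h2
    · right
      have h3 : (a : ℕ) ≠ (l : ℕ) + 1 := by
        intro h4
        apply h1
        congr 1
        apply Fin.ext
        rw [Fin.val_succ, h4]
      omega
  · intro h2
    obtain ⟨a, -, rfl⟩ := Finset.mem_image.1 (HC2_sub e _ h2)
    rw [HC2_mem he] at h2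
    refine ⟨?_, ?_⟩
    · intro h3
      have h4 := he h3
      subst h4
      rcases h2 with h2 | h2
      · exact Fin.succ_ne_zero l h2
      · rw [Fin.val_succ] at h2
        exact lt_irrefl _ h2
    · rw [HC2_mem he]
      rcases h2 with h2 | h2
      · exact Or.inl h2
      · exact Or.inr (by omega)

theorem HC2_eps {p : ℕ} {G U T : ℕ → Finset ι → Submodule k E} {e : Fin (p + 1) → ι}
    (he : Function.Injective e) (hZ : ZigData p G U T (Finset.univ.image e))
    (hG : ∀ l : Fin p, ∀ J ⊆ Finset.univ.image e, e l.succ ∈ J → G (l + 1) J ≤ G l J)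
    {x : E} (hx : x ∈ G p {e 0}) (d : ℕ) (hd : d ≤ p) : x ∈ G (p - d) (HC2_J e (p - d)) := by
  induction d with
  | zero => rw [Nat.sub_zero, HC2_last]; exact hx
  | succ d ih =>
    have h1 := ih (by omega)
    obtain ⟨l, hl⟩ : ∃ l : Fin p, (l : ℕ) = p - (d + 1) := ⟨⟨p - (d + 1), by omega⟩, rfl⟩
    have e1 : p - d = (l : ℕ) + 1 := by omega
    rw [e1] at h1
    rw [← hl]
    have h2 := HC2_erase he l
    have h3 : HC2_J e ((l : ℕ) + 1) ⊆ HC2_J e l := by
      rw [← h2]; exact Finset.erase_subset _ _
    have h4 : (HC2_J e ((l : ℕ) + 1)).Nonempty := ⟨e 0, (HC2_mem he _ _).2 (Or.inl rfl)⟩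
    have h5 := hZ.monoG ((l : ℕ) + 1) (by have := l.2; omega) _ _ h3 (HC2_sub e _) h4 h1
    exact hG l _ (HC2_sub e _) ((HC2_mem he _ _).2 (Or.inr (by rw [Fin.val_succ]; omega))) h5

theorem HC2_sg (j : ι) (J : Finset ι) : sg j J = 1 ∨ sg j J = -1 := by
  unfold sg
  exact neg_one_pow_eq_or ℤ _

theorem HC2_zig {p : ℕ} {G U T : ℕ → Finset ι → Submodule k E} {e : Fin (p + 1) → ι}
    (he : Function.Injective e) (hZ : ZigData p G U T (Finset.univ.image e))
    (hG : ∀ l : Fin p, ∀ J ⊆ Finset.univ.image e, e l.succ ∈ J → G (l + 1) J ≤ G l J)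
    (hU : ∀ l a : Fin p, a < l → ∀ J ⊆ Finset.univ.image e, e a.succ ∈ J →
      G (l + 1) J ≤ U l J)
    {x : E} (hx : x ∈ G p {e 0}) (d : ℕ) (hd : d ≤ p) :
    ∃ s : ℤ, (s = 1 ∨ s = -1) ∧
      Zig p G U (Finset.univ.image e) (fun J => if J = HC2_J e p then x else 0) (p - d)
        (fun J => if J = HC2_J e (p - d) then s • x else 0) := by
  induction d with
  | zero =>
    refine ⟨1, Or.inl rfl, ?_⟩
    rw [Nat.sub_zero]
    simp only [one_smul]
    exact Zig.base
  | succ d ih =>
    obtain ⟨s, hs, hz⟩ := ih (by omega)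
    obtain ⟨l, hl⟩ : ∃ l : Fin p, (l : ℕ) = p - (d + 1) := ⟨⟨p - (d + 1), by omega⟩, rfl⟩
    have e1 : p - d = (l : ℕ) + 1 := by omega
    have hx1 := HC2_eps he hZ hG hx d (by omega)
    have hx0 := HC2_eps he hZ hG hx (d + 1) hd
    rw [e1] at hz hx1
    rw [← hl] at hx0 ⊢
    set s' : ℤ := s * sg (e l.succ) (HC2_J e l) with hs'
    have hmem : e l.succ ∈ HC2_J e l := (HC2_mem he _ _).2 (Or.inr (by rw [Fin.val_succ]; omega))
    have her := HC2_erase he l
    refine ⟨s', ?_, ?_⟩
    · rcases hs with hs | hs <;> rcases HC2_sg (e l.succ) (HC2_J e l) with h | h <;>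
        rw [hs', hs, h] <;> norm_num
    · set c₁ : Finset ι → E := fun J => if J = HC2_J e ((l : ℕ) + 1) then s • x else 0 with hc₁
      set c₀ : Finset ι → E := fun J => if J = HC2_J e l then s' • x else 0 with hc₀
      refine Zig.step (w := fun J => cd c₁ J - c₀ J) l.2 hz ?_ ?_ ?_
      · intro J _ _
        show (if J = HC2_J e l then s' • x else 0) ∈ G l J
        split_ifs with h
        · rw [h]; exact zsmul_mem hx0 _
        · exact Submodule.zero_mem _
      · intro J hJ _
        show cd c₁ J - c₀ J ∈ U l J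
        by_cases hex : ∃ j ∈ J, J.erase j = HC2_J e ((l : ℕ) + 1)
        · obtain ⟨j, hj, hjJ⟩ := hex
          have hcd : cd c₁ J = sg j J • (s • x) := by
            unfold cd
            rw [Finset.sum_eq_single_of_mem j hj]
            · rw [hc₁]
              simp only [hjJ, if_true]
            · intro i hi hij
              have : J.erase i ≠ HC2_J e ((l : ℕ) + 1) := by
                rw [← hjJ]
                intro h
                have h2 : j ∈ J.erase i := Finset.mem_erase.2 ⟨fun h3 => hij h3.symm, hj⟩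
                rw [h] at h2
                exact (Finset.notMem_erase j J) h2
              rw [hc₁]
              simp only [if_neg this, smul_zero]
          obtain ⟨a, -, rfl⟩ := Finset.mem_image.1 (hJ hj)
          have ha : ¬ (a = 0 ∨ (l : ℕ) + 1 < (a : ℕ)) := by
            rw [← HC2_mem he, ← hjJ]
            exact Finset.notMem_erase _ _
          push Not at ha
          obtain ⟨a', rfl⟩ := Fin.exists_succ_eq.2 ha.1
          have ha' : (a' : ℕ) ≤ l := by
            have := ha.2
            rw [Fin.val_succ] at this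
            omega
          have hJeq : J = insert (e a'.succ) (HC2_J e ((l : ℕ) + 1)) := by
            rw [← hjJ, Finset.insert_erase hj]
          by_cases hal : a' = l
          · subst hal
            have hJl : J = HC2_J e a' := by
              rw [hJeq, ← her, Finset.insert_erase hmem]
            rw [hcd, hc₀]
            simp only [hJl, if_true]
            have : sg (e a'.succ) (HC2_J e a') • s • x - s' • x = 0 := by
              rw [hs', smul_smul, mul_comm, sub_self]
            rw [this]
            exact Submodule.zero_mem _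
          · have hlt : a' < l := lt_of_le_of_ne (Fin.le_def.2 ha') hal
            have hJl : J ≠ HC2_J e l := by
              intro h
              rw [← h, hJeq, Finset.mem_insert] at hmem
              rcases hmem with h2 | h2
              · exact hal (Fin.succ_injective _ (he h2)).symm
              · rw [HC2_mem he] at h2
                rcases h2 with h2 | h2
                · exact Fin.succ_ne_zero l h2
                · rw [Fin.val_succ] at h2; exact lt_irrefl _ h2
            have hc0 : c₀ J = 0 := by rw [hc₀]; simp only [if_neg hJl]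
            rw [hcd, hc0, sub_zero]
            apply zsmul_mem
            apply zsmul_mem
            apply hU l a' hlt J hJ hj
            have h4 : (HC2_J e ((l : ℕ) + 1)).Nonempty := ⟨e 0, (HC2_mem he _ _).2 (Or.inl rfl)⟩
            have h5 : HC2_J e ((l : ℕ) + 1) ⊆ J := by
              rw [hJeq]; exact Finset.subset_insert _ _
            exact hZ.monoG ((l : ℕ) + 1) (by have := l.2; omega) _ _ h5 hJ h4 hx1
        · push Not at hex
          have hcd : cd c₁ J = 0 := by
            unfold cd
            apply Finset.sum_eq_zero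
            intro i hi
            rw [hc₁]
            simp only [if_neg (hex i hi), smul_zero]
          have hJl : J ≠ HC2_J e l := by
            intro h
            rw [← h] at hmem her
            exact hex _ hmem her
          have hc0 : c₀ J = 0 := by rw [hc₀]; simp only [if_neg hJl]
          rw [hcd, hc0, sub_zero]
          exact Submodule.zero_mem _
      · intro J _ _
        show cd c₁ J = c₀ J + (cd c₁ J - c₀ J)
        abel

/-- Let `I = {e 0, ..., e p}`.  Proof: let `J_l = {e 0} ∪ {e (j + 1) | l ≤ j < p}` (it has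
`p - l + 1` elements, `J_p = {e 0}`, `J_0 = I`).  There are signs `s_l` (`s_p = 1`,
`s_l = s_{l+1} * sg (e (l + 1)) J_l`) such that the cochains `c_l` equal to `s_l • ε {e 0}` at
`J_l` and zero elsewhere form a zigzag starting from `ε' = c_p`:  `cd c_{l+1}` is zero except at
the sets `J = insert (e (a + 1)) J_{l+1}`, `a ≤ l`; for `a = l` (`J = J_l`) the value belongs to
`G (l + 1) J ≤ G l J` (`hG`), for `a < l` to `G (l + 1) J ≤ U l J` (`hU`).  (`ε {e 0}` is in
`G l J_l` for all `l`, by `hG` and monotonicity.)  The difference `ε - ε'` has its values in `T p`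
on the singletons: at `{e (a + 1)}` the value is in `G p ≤ G (p-1) ⊔ U (p - 1) = T p` by `hG` or
`hU` with `l = p - 1`.  By `Zig.sub` and `Zig.cob`, `c - c_0 = cd b` on `I`, `b` with values in
`G 0`. -/
theorem Zig.special {p : ℕ} {G U T : ℕ → Finset ι → Submodule k E} {e : Fin (p + 1) → ι}
    (he : Function.Injective e) (hZ : ZigData p G U T (Finset.univ.image e))
    (hG : ∀ l : Fin p, ∀ J ⊆ Finset.univ.image e, e l.succ ∈ J → G (l + 1) J ≤ G l J)
    (hU : ∀ l a : Fin p, a < l → ∀ J ⊆ Finset.univ.image e, e a.succ ∈ J →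
      G (l + 1) J ≤ U l J)
    {ε c : Finset ι → E} (h1 : Val (G p) (Finset.univ.image e) 1 ε)
    (h : Zig p G U (Finset.univ.image e) ε 0 c) :
    ∃ (s : ℤ) (φ : Fin (p + 1) → E), (s = 1 ∨ s = -1) ∧
      (∀ a, φ a ∈ G 0 ((Finset.univ.image e).erase (e a))) ∧
      c (Finset.univ.image e) = s • ε {e 0} + ∑ a, φ a := by
  set I := Finset.univ.image e with hI
  have hx : ε {e 0} ∈ G p {e 0} :=
    h1 _ (Finset.singleton_subset_iff.2 (Finset.mem_image_of_mem e (Finset.mem_univ _)))
      (Finset.card_singleton _)
  obtain ⟨s, hs, hz⟩ := HC2_zig he hZ hG hU hx p le_rfl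
  rw [Nat.sub_self] at hz
  have hsub := Zig.sub h hz
  have hcob := Zig.cob hZ ?_ hsub
  · obtain ⟨b, hb, hbc⟩ := hcob
    have hcard : I.card = p + 1 := by
      rw [hI, Finset.card_image_of_injective _ he, Finset.card_univ, Fintype.card_fin]
    have h2 := hbc I (Finset.Subset.refl I) hcard
    refine ⟨s, fun a => sg (e a) I • b (I.erase (e a)), hs, ?_, ?_⟩
    · intro a
      have haI : e a ∈ I := Finset.mem_image_of_mem e (Finset.mem_univ _)
      apply zsmul_mem
      apply hb _ (Finset.erase_subset _ _)
      rw [Finset.card_erase_add_one haI, hcard]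
    · have h3 : cd b I = ∑ a, sg (e a) I • b (I.erase (e a)) := by
        unfold cd
        conv_lhs => rw [hI]
        rw [Finset.sum_image (fun x _ y _ hxy => he hxy)]
      rw [← h3, ← h2, Pi.sub_apply, HC2_zero, ← hI]
      simp only [if_true]
      abel
  · intro J hJ hJ1
    obtain ⟨i, rfl⟩ := Finset.card_eq_one.1 hJ1
    obtain ⟨a, -, rfl⟩ := Finset.mem_image.1 (hJ (Finset.mem_singleton_self i))
    rw [Pi.sub_apply, HC2_last]
    by_cases ha : a = 0
    · subst ha
      simp only [if_true, sub_self]
      exact Submodule.zero_mem _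
    · obtain ⟨a', rfl⟩ := Fin.exists_succ_eq.2 ha
      have hne : ({e a'.succ} : Finset ι) ≠ {e 0} := by
        intro h3
        exact Fin.succ_ne_zero a' (he (Finset.singleton_injective h3))
      simp only [if_neg hne, sub_zero]
      have hp : 0 < p := lt_of_le_of_lt (Nat.zero_le _) a'.2
      obtain ⟨l, hl⟩ : ∃ l : Fin p, (l : ℕ) + 1 = p := ⟨⟨p - 1, by omega⟩, by
        show p - 1 + 1 = p
        omega⟩
      have h4 := h1 _ hJ hJ1
      have h5 := hZ.succ l l.2 _ hJ (Finset.singleton_nonempty _)
      rw [hl] at h5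
      rw [h5]
      by_cases hal : a' = l
      · subst hal
        have h6 := hG a' _ hJ (Finset.mem_singleton_self _)
        rw [hl] at h6
        exact Submodule.mem_sup_left (h6 h4)
      · have hlt : a' < l := by
          refine lt_of_le_of_ne ?_ hal
          rw [Fin.le_def]
          have := a'.2
          omega
        have h6 := hU l a' hlt _ hJ (Finset.mem_singleton_self _)
        rw [hl] at h6
        exact Submodule.mem_sup_right (h6 h4)

end Flip28
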