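import Pool.Agent.FlipB_h28.HA

/-! # Serre's finiteness theorem: linear algebra -/

namespace Flip28

variable {ι : Type*} [LinearOrder ι] {k E E' : Type*} [Field k] [AddCommGroup E] [Module k E]
  [AddCommGroup E'] [Module k E']

theorem HD1_cob_add {F : Finset ι → Submodule k E} {I : Finset ι} {q : ℕ}
    {c c' : Finset ι → E} (h : Cob F I q c) (h' : Cob F I q c') : Cob F I q (c + c') := by
  obtain ⟨b, h1, h2⟩ := h
  obtain ⟨b', h1', h2'⟩ := h'
  refine ⟨b + b', fun J hJ hq => (F J).add_mem (h1 J hJ hq) (h1' J hJ hq), fun J hJ hq => ?_⟩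
  rw [cd_add, Pi.add_apply, h2 J hJ hq, h2' J hJ hq]

theorem HD1_cob_smul {F : Finset ι → Submodule k E} {I : Finset ι} {q : ℕ}
    {c : Finset ι → E} (a : k) (h : Cob F I q c) : Cob F I q (a • c) := by
  obtain ⟨b, h1, h2⟩ := h
  refine ⟨a • b, fun J hJ hq => (F J).smul_mem a (h1 J hJ hq), fun J hJ hq => ?_⟩
  rw [cd_smul, Pi.smul_apply, h2 J hJ hq]

theorem HD1_cob_zero {F : Finset ι → Submodule k E} {I : Finset ι} {q : ℕ} :
    Cob F I q (0 : Finset ι → E) :=
  ⟨0, fun J _ _ => (F J).zero_mem, fun J _ _ => by rw [cd_zero]; rfl⟩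

/-- the differential as a linear map -/
def HD1_cdL (k E : Type*) {ι : Type*} [LinearOrder ι] [Field k] [AddCommGroup E] [Module k E] :
    (Finset ι → E) →ₗ[k] (Finset ι → E) where
  toFun := cd
  map_add' c c' := funext fun J => cd_add c c' J
  map_smul' a c := funext fun J => cd_smul a c J

/-- the pairs `(c', w)` of the proof of `finH_of_exact` -/
def HD1_P (F N : Finset ι → Submodule k E) (I : Finset ι) (q : ℕ)
    (W : Submodule k (Finset ι → E)) : Submodule k ((Finset ι → E) × (Finset ι → E)) where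
  carrier := {x | x.2 ∈ W ∧ Val F I q x.1 ∧ Cob N I (q + 1) (cd x.1 - x.2)}
  add_mem' := by
    rintro x y ⟨h1, h2, h3⟩ ⟨h1', h2', h3'⟩
    refine ⟨W.add_mem h1 h1', fun J hJ hq => (F J).add_mem (h2 J hJ hq) (h2' J hJ hq), ?_⟩
    have h4 : cd (x + y).1 - (x + y).2 = (cd x.1 - x.2) + (cd y.1 - y.2) := by
      have h5 : cd (x + y).1 = cd x.1 + cd y.1 := funext fun J => cd_add x.1 y.1 J
      rw [h5, Prod.snd_add]
      abel
    rw [h4]
    exact HD1_cob_add h3 h3'
  zero_mem' := by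
    refine ⟨W.zero_mem, fun J _ _ => (F J).zero_mem, ?_⟩
    have h4 : cd (0 : (Finset ι → E) × (Finset ι → E)).1 -
        (0 : (Finset ι → E) × (Finset ι → E)).2 = 0 := by
      funext J
      show cd (0 : Finset ι → E) J - 0 = 0
      rw [cd_zero, sub_zero]
    rw [h4]
    exact HD1_cob_zero
  smul_mem' := by
    rintro a x ⟨h1, h2, h3⟩
    refine ⟨W.smul_mem a h1, fun J hJ hq => (F J).smul_mem a (h2 J hJ hq), ?_⟩
    have h4 : cd (a • x).1 - (a • x).2 = a • (cd x.1 - x.2) := by
      have h5 : cd (a • x).1 = a • cd x.1 := funext fun J => cd_smul a x.1 J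
      rw [h5, Prod.smul_snd, smul_sub]
    rw [h4]
    exact HD1_cob_smul a h3

/-- Let `0 → N → F → M → 0` be exact.  Proof: let `W1`, `W2` be the finite dimensional spaces for
`F` (degree `q`) and `N` (degree `q + 1`).  A cocycle `c` of `M` lifts to a cochain `c'` of `F`
(values on the subsets of `I` with `q` elements), `cd c'` is a cocycle of `N`.  Let `Z` be the
space of the cochains `c'` with values in `F` such that `cd c' = w + cd n` for some `w ∈ W2` and
some `n` with values in `N`; the set of the pairs `(c', w)` is a vector space `P`; its image in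
`W2` is finite dimensional, so `P` is the sum of a finite dimensional space `P0` and of the kernel;
for `(c', 0)` in the kernel, `c' - n` is a cocycle of `F`, so it is `w1 + cd b`, `w1 ∈ W1`.  So
`W = ψ (W1) + ψ (P0)` works (`ψ` applied to the values). -/
theorem finH_of_exact {F : Finset ι → Submodule k E} {M : Finset ι → Submodule k E'}
    {N : Finset ι → Submodule k E} (ψ : E →ₗ[k] E') {I : Finset ι}
    (hF : ∀ J J', J ⊆ J' → F J ≤ F J') (hM : ∀ J, M J = (F J).map ψ)
    (hN : ∀ J, N J = F J ⊓ LinearMap.ker ψ) {q : ℕ} (h1 : FinH F I q)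
    (h2 : FinH N I (q + 1)) : FinH M I q := by
  obtain ⟨W1, hW1, hw1⟩ := h1
  obtain ⟨W2, hW2, hw2⟩ := h2
  have hFW1 := hW1
  have hFW2 := hW2
  -- the projection to `W2` and a section
  obtain ⟨π, hπ⟩ : ∃ π : HD1_P F N I q W2 →ₗ[k] (Finset ι → E), ∀ x : HD1_P F N I q W2,
      π x = (x : (Finset ι → E) × (Finset ι → E)).2 :=
    ⟨(LinearMap.snd k (Finset ι → E) (Finset ι → E)).domRestrict (HD1_P F N I q W2),
      fun _ => rfl⟩
  have hπW : LinearMap.range π ≤ W2 := by
    rintro _ ⟨x, rfl⟩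
    rw [hπ]
    exact x.2.1
  have hπfin : FiniteDimensional k (LinearMap.range π) := Submodule.finiteDimensional_of_le hπW
  obtain ⟨σ, hσ⟩ := LinearMap.exists_rightInverse_of_surjective π.rangeRestrict
    π.range_rangeRestrict
  let fs : HD1_P F N I q W2 →ₗ[k] (Finset ι → E) :=
    (LinearMap.fst k (Finset ι → E) (Finset ι → E)).domRestrict (HD1_P F N I q W2)
  let Ψ : (Finset ι → E) →ₗ[k] (Finset ι → E') := ψ.compLeft (Finset ι)
  have hΨ : ∀ (c : Finset ι → E) (J : Finset ι), Ψ c J = ψ (c J) := fun _ _ => rfl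
  refine ⟨W1.map Ψ ⊔ LinearMap.range (Ψ.comp (fs.comp σ)), inferInstance, ?_⟩
  intro c hv hc
  -- a lift of `c`
  have hlift : ∀ J : Finset ι, ∃ x : E, J ⊆ I → J.card = q → x ∈ F J ∧ ψ x = c J := by
    intro J
    by_cases hJ : J ⊆ I ∧ J.card = q
    · have h3 := hv J hJ.1 hJ.2
      rw [hM] at h3
      obtain ⟨x, hx1, hx2⟩ := h3
      exact ⟨x, fun _ _ => ⟨hx1, hx2⟩⟩
    · exact ⟨0, fun h3 h4 => absurd ⟨h3, h4⟩ hJ⟩
  choose c' hc' using hlift
  have hcd' : ∀ J ⊆ I, J.card = q + 1 → cd c' J ∈ N J := by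
    intro J hJ hq
    have herase : ∀ j ∈ J, J.erase j ⊆ I ∧ (J.erase j).card = q := by
      intro j hj
      refine ⟨(Finset.erase_subset _ _).trans hJ, ?_⟩
      rw [Finset.card_erase_of_mem hj, hq, Nat.add_sub_cancel]
    rw [hN]
    refine ⟨?_, ?_⟩
    · refine Submodule.sum_mem _ fun j hj => zsmul_mem ?_ _
      exact hF _ _ (Finset.erase_subset j J) (hc' _ (herase j hj).1 (herase j hj).2).1
    · have h3 : ψ (cd c' J) = cd (fun J => ψ (c' J)) J := (cd_map ψ.toAddMonoidHom c' J).symm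
      show ψ (cd c' J) = 0
      rw [h3, ← hc J hJ hq]
      exact cd_congr fun j hj => (hc' _ (herase j hj).1 (herase j hj).2).2
  obtain ⟨w2, hw2m, hw2c⟩ := hw2 (cd c') hcd' (fun J _ _ => cd_cd c' J)
  have hxP : (c', w2) ∈ HD1_P F N I q W2 :=
    ⟨hw2m, fun J hJ hq => (hc' J hJ hq).1, hw2c⟩
  let x : HD1_P F N I q W2 := ⟨(c', w2), hxP⟩
  let y : HD1_P F N I q W2 := σ (π.rangeRestrict x)
  have hy : π y = π x := by
    have h3 := LinearMap.congr_fun hσ (π.rangeRestrict x)
    exact congrArg Subtype.val h3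
  have hy2 : (y : (Finset ι → E) × (Finset ι → E)).2 = w2 := by
    rw [← hπ y, hy, hπ x]
  obtain ⟨hd1, hd2, hd3⟩ := (x - y).2
  have hd3' : Cob N I (q + 1) (cd (c' - (y : (Finset ι → E) × (Finset ι → E)).1)) := by
    have h3 : cd ((x - y : HD1_P F N I q W2) : (Finset ι → E) × (Finset ι → E)).1 -
        ((x - y : HD1_P F N I q W2) : (Finset ι → E) × (Finset ι → E)).2 =
        cd (c' - (y : (Finset ι → E) × (Finset ι → E)).1) := by
      have h4 : ((x - y : HD1_P F N I q W2) : (Finset ι → E) × (Finset ι → E)).2 = 0 := by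
        show w2 - (y : (Finset ι → E) × (Finset ι → E)).2 = 0
        rw [hy2, sub_self]
      rw [h4, sub_zero]
      rfl
    rwa [h3] at hd3
  have hd2' : Val F I q (c' - (y : (Finset ι → E) × (Finset ι → E)).1) := hd2
  have hyfs : fs y = (y : (Finset ι → E) × (Finset ι → E)).1 := rfl
  generalize hc0 : (y : (Finset ι → E) × (Finset ι → E)).1 = c0 at hd3' hd2' hyfs
  obtain ⟨n, hn1, hn2⟩ := hd3'
  have hn1' : ∀ J ⊆ I, J.card = q → n J ∈ N J := fun J hJ hq => hn1 J hJ (by rw [hq])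
  obtain ⟨w1, hw1m, b, hb1, hb2⟩ := hw1 (c' - c0 - n)
    (fun J hJ hq => (F J).sub_mem (hd2' J hJ hq) (by
      have h3 := hn1' J hJ hq
      rw [hN] at h3
      exact h3.1))
    (fun J hJ hq => by rw [cd_sub, hn2 J hJ hq, sub_self])
  refine ⟨Ψ w1 + Ψ c0, Submodule.add_mem_sup ⟨w1, hw1m, rfl⟩ ⟨π.rangeRestrict x, ?_⟩, ?_⟩
  · show Ψ (fs y) = Ψ c0
    rw [hyfs]
  · refine ⟨Ψ b, fun J hJ hq => ?_, fun J hJ hq => ?_⟩
    · rw [hM]
      exact ⟨b J, hb1 J hJ hq, rfl⟩
    · have h3 := hb2 J hJ hq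
      have h4 : ψ (n J) = 0 := by
        have h5 := hn1' J hJ hq
        rw [hN] at h5
        exact h5.2
      have h6 : cd (Ψ b) J = ψ (cd b J) := cd_map ψ.toAddMonoidHom b J
      rw [h6, ← h3]
      simp only [Pi.sub_apply, Pi.add_apply, hΨ, map_sub, h4, (hc' J hJ hq).2]
      abel

/-- finite products -/
theorem finH_pi {s : ℕ} {F : Fin s → Finset ι → Submodule k E} {I : Finset ι} {q : ℕ}
    (h : ∀ i, FinH (F i) I q) :
    FinH (fun J => Submodule.pi Set.univ (fun i => F i J)) I q := by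
  choose W hW hw using h
  let L : Fin s → ((Finset ι → Fin s → E) →ₗ[k] (Finset ι → E)) := fun i =>
    (LinearMap.proj i : (Fin s → E) →ₗ[k] E).compLeft (Finset ι)
  have hL : ∀ i c J, L i c J = c J i := fun _ _ _ => rfl
  let W' : Submodule k (Finset ι → Fin s → E) := ⨅ i, (W i).comap (L i)
  have hW' : ∀ c, c ∈ W' ↔ ∀ i, L i c ∈ W i := by
    intro c
    simp only [W', Submodule.mem_iInf, Submodule.mem_comap]
  refine ⟨W', ?_, ?_⟩
  · have hfin : ∀ i, Module.Finite k (W i) := hW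
    let Θ : W' →ₗ[k] (∀ i, W i) := LinearMap.pi fun i =>
      ((L i).domRestrict W').codRestrict (W i) fun c => (hW' c).1 c.2 i
    refine Module.Finite.of_injective Θ ?_
    intro a b hab
    refine Subtype.ext (funext fun J => funext fun i => ?_)
    have h1 : Θ a i = Θ b i := by rw [hab]
    have h2 := congrArg (fun w : W i => (w : Finset ι → E) J) h1
    exact h2
  · intro c hv hc
    have h1 : ∀ i, ∃ w ∈ W i, Cob (F i) I q (L i c - w) := by
      intro i
      refine hw i (L i c) (fun J hJ hq => ?_) (fun J hJ hq => ?_)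
      · exact (Submodule.mem_pi.1 (hv J hJ hq)) i trivial
      · have h2 := cd_map (Pi.evalAddMonoidHom (fun _ : Fin s => E) i) c J
        have h3 : cd (L i c) J = (cd c J) i := h2
        rw [h3, hc J hJ hq]
        rfl
    choose w hwm b hb1 hb2 using h1
    refine ⟨fun J i => w i J, (hW' _).2 fun i => hwm i, fun J i => b i J, ?_, ?_⟩
    · intro J hJ hq
      exact Submodule.mem_pi.2 fun i _ => hb1 i J hJ hq
    · intro J hJ hq
      funext i
      have h2 := cd_map (Pi.evalAddMonoidHom (fun _ : Fin s => E) i)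
        (fun (J : Finset ι) (i : Fin s) => b i J) J
      have h3 : cd (b i) J = (cd (fun (J : Finset ι) (i : Fin s) => b i J) J) i := h2
      rw [← h3]
      exact hb2 i J hJ hq

theorem finH_of_card_lt {F : Finset ι → Submodule k E} {I : Finset ι} {q : ℕ}
    (h : I.card < q) : FinH F I q := by
  refine ⟨⊥, inferInstance, fun c _ _ => ⟨0, Submodule.zero_mem _, 0, ?_, ?_⟩⟩
  · intro J _ _
    exact Submodule.zero_mem _
  · intro J hJ hq
    have := Finset.card_le_card hJ
    omega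

/-- changing the family on the subsets with fewer than two elements does not matter for
`q ≥ 2`, except that coboundaries are computed with nonempty subsets; transfer along an order
embedding -/
theorem finH_congr {F F' : Finset ι → Submodule k E} {I : Finset ι} {q : ℕ} (hq : 2 ≤ q)
    (h : ∀ J ⊆ I, J.Nonempty → F J = F' J) (hF : FinH F I q) : FinH F' I q := by
  obtain ⟨W, hW, hw⟩ := hF
  refine ⟨W, hW, fun c hv hc => ?_⟩
  obtain ⟨w, hwm, b, hb1, hb2⟩ := hw c (fun J hJ hJq => by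
    rw [h J hJ (Finset.card_pos.1 (by omega))]
    exact hv J hJ hJq) hc
  refine ⟨w, hwm, b, fun J hJ hJq => ?_, hb2⟩
  rw [← h J hJ (Finset.card_pos.1 (by omega))]
  exact hb1 J hJ hJq

end Flip28
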