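import Pool.Agent.FlipB_h28.HA

/-! # Serre's finiteness theorem: free modules -/

universe u

namespace Flip28

variable {k : Type u} [Field k]

open Classical in
/-- an index with a nonnegative exponent -/
noncomputable def HD2_ix {r : ℕ} (α : Fin r → ℤ) : Option (Fin r) :=
  if h : ∃ i, 0 ≤ α i then some h.choose else none

theorem HD2_ix_some {r : ℕ} {α : Fin r → ℤ} {i : Fin r} (h : HD2_ix α = some i) : 0 ≤ α i := by
  unfold HD2_ix at h
  split_ifs at h with h1
  · have h2 := h1.choose_spec
    rw [Option.some.injEq] at h
    rwa [h] at h2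

theorem HD2_ix_none {r : ℕ} {α : Fin r → ℤ} (h : HD2_ix α = none) (i : Fin r) : α i < 0 := by
  unfold HD2_ix at h
  split_ifs at h with h1
  · push Not at h1
    exact h1 i

open Classical in
/-- the projection on a set of exponents -/
noncomputable def HD2_pr {r : ℕ} (p : (Fin r → ℤ) → Prop) : Lau k r →+ Lau k r where
  toFun f := AddMonoidAlgebra.ofCoeff (f.coeff.filter p)
  map_zero' := by
    apply AddMonoidAlgebra.coeff_injective
    simp [Finsupp.filter_zero]
  map_add' f g := by
    apply AddMonoidAlgebra.coeff_injective
    simp [Finsupp.filter_add]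

open Classical in
theorem HD2_pr_coeff {r : ℕ} (p : (Fin r → ℤ) → Prop) (f : Lau k r) (α : Fin r → ℤ) :
    (HD2_pr p f).coeff α = if p α then f.coeff α else 0 := by
  show (f.coeff.filter p) α = _
  rw [Finsupp.filter_apply]

theorem HD2_sum {r : ℕ} (f : Lau k r) :
    ∑ i, HD2_pr (fun α => HD2_ix α = some i) f + HD2_pr (fun α => HD2_ix α = none) f = f := by
  classical
  apply AddMonoidAlgebra.coeff_injective
  ext α
  rw [AddMonoidAlgebra.coeff_add, AddMonoidAlgebra.coeff_sum, Finsupp.add_apply,
    Finsupp.finsetSum_apply, HD2_pr_coeff]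
  simp only [HD2_pr_coeff]
  cases h : HD2_ix α with
  | none => simp
  | some i => simp

theorem HD2_fin {r : ℕ} (l : ℤ) :
    Set.Finite {α : Fin r → ℤ | ∑ i, α i = l ∧ ∀ i, α i < 0} := by
  refine Set.Finite.subset (Set.finite_Icc (fun _ : Fin r => l) (fun _ => 0)) ?_
  rintro α ⟨h1, h2⟩
  refine ⟨fun i => ?_, fun i => (h2 i).le⟩
  show l ≤ α i
  rw [← h1, ← Finset.add_sum_erase Finset.univ α (Finset.mem_univ i)]
  have : ∑ j ∈ Finset.univ.erase i, α j ≤ 0 := Finset.sum_nonpos fun j _ => (h2 j).le
  omega

/-- the covering computation -/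
theorem HD2_cov {r : ℕ} {E : Type*} [AddCommGroup E] (i : Fin r) (q : ℕ)
    (c : Finset (Fin r) → E) (hc : ∀ J, J.card = q + 1 → cd c J = 0) (J : Finset (Fin r))
    (hJ : J.card = q) :
    cd (fun J => if i ∈ J then 0 else sg i (insert i J) • c (insert i J)) J = c J := by
  classical
  by_cases hi : i ∈ J
  · unfold cd
    rw [Finset.sum_eq_single i]
    · beta_reduce
      rw [if_neg (Finset.notMem_erase i J), Finset.insert_erase hi, smul_smul, sg_sq, one_smul]
    · intro j _ hji
      beta_reduce
      rw [if_pos, smul_zero]
      exact Finset.mem_erase.2 ⟨fun h => hji h.symm, hi⟩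
    · intro h
      exact absurd hi h
  · have h1 := hc (insert i J) (by rw [Finset.card_insert_of_notMem hi, hJ])
    rw [cd_insert c hi] at h1
    have h2 : cd (fun J => if i ∈ J then 0 else sg i (insert i J) • c (insert i J)) J =
        -(sg i (insert i J) • ∑ j ∈ J, sg j (insert i J) • c (insert i (J.erase j))) := by
      unfold cd
      rw [Finset.smul_sum, ← Finset.sum_neg_distrib]
      apply Finset.sum_congr rfl
      intro j hj
      beta_reduce
      rw [if_neg (fun h => hi (Finset.mem_of_mem_erase h)), smul_smul, sg_insert hj hi, neg_smul,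
        smul_smul]
    rw [h2, eq_neg_of_add_eq_zero_right h1, smul_neg, neg_neg, smul_smul, sg_sq, one_smul]

/-- Proof: for an exponent `α : Fin r → ℤ` with `∑ α = l` which is not negative everywhere let
`i α` be an index with `0 ≤ α (i α)`.  For a cocycle `c` put `(b J)_α = sg i (insert i J) • (c (insert i
J))_α` if `i = i α ∉ J` (`∑ α = l`, not everywhere negative), `0` otherwise (coefficients
are functions with finite support: `J` ranges over a finite set).  `b J` is in `LJ k J l`: if
`(c (insert i J))_α ≠ 0` then `α` is nonnegative outside `insert i J`, and at `i`.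
The computation of `acy_of_cover` gives `(cd b J)_α = (c J)_α` (for `i ∈ J`: only the term
`j = i`; for `i ∉ J`: the cocycle condition at `insert i J`).
So `c - cd b` has only the exponents `α` with `α < 0` everywhere, `∑ α = l`, which are finitely
many: take for `W` the space of all functions of `J` with values in the span of these
monomials (`Finset (Fin r)` is finite). -/
theorem finH_LJ {r : ℕ} (l : ℤ) (q : ℕ) :
    FinH (fun J : Finset (Fin r) => LJ k J l) Finset.univ q := by
  classical
  set S : Set (Fin r → ℤ) := {α : Fin r → ℤ | ∑ i, α i = l ∧ ∀ i, α i < 0} with hS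
  have hSf : S.Finite := HD2_fin l
  set N : Submodule k (Lau k r) :=
    Submodule.span k ((fun α => AddMonoidAlgebra.single α (1 : k)) '' S) with hN
  have hNf : FiniteDimensional k N := FiniteDimensional.span_of_finite k (hSf.image _)
  refine ⟨LinearMap.range (LinearMap.compLeft N.subtype (Finset (Fin r))), inferInstance, ?_⟩
  intro c hv hc
  have hc' : ∀ J : Finset (Fin r), J.card = q + 1 → cd c J = 0 := fun J hJ =>
    hc J (Finset.subset_univ _) hJ
  have hmem : ∀ J : Finset (Fin r), J.card = q → HD2_pr (fun α => HD2_ix α = none) (c J) ∈ N := by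
    intro J hJ
    have h1 := hv J (Finset.subset_univ _) hJ
    set g := HD2_pr (fun α => HD2_ix α = none) (c J) with hg
    have h2 : g = ∑ α ∈ g.coeff.support, g.coeff α • AddMonoidAlgebra.single α (1 : k) := by
      apply AddMonoidAlgebra.coeff_injective
      rw [AddMonoidAlgebra.coeff_sum]
      simp only [AddMonoidAlgebra.coeff_smul, AddMonoidAlgebra.coeff_single,
        Finsupp.smul_single, smul_eq_mul, mul_one]
      exact (Finsupp.sum_single g.coeff).symm
    rw [h2]
    refine Submodule.sum_mem _ fun α hα => Submodule.smul_mem _ _ (Submodule.subset_span ?_)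
    refine ⟨α, ?_, rfl⟩
    rw [Finsupp.mem_support_iff, hg, HD2_pr_coeff] at hα
    split_ifs at hα with h3
    · exact ⟨(h1 α hα).1, fun i => HD2_ix_none h3 i⟩
    · exact absurd rfl hα
  refine ⟨fun J => if J.card = q then HD2_pr (fun α => HD2_ix α = none) (c J) else 0, ?_, ?_⟩
  · refine ⟨fun J => ⟨if J.card = q then HD2_pr (fun α => HD2_ix α = none) (c J) else 0, ?_⟩, ?_⟩
    · split_ifs with h
      · exact hmem J h
      · exact Submodule.zero_mem _
    · funext J
      rfl
  · refine ⟨∑ i : Fin r, fun J => if i ∈ J then 0 else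
      sg i (insert i J) • HD2_pr (fun α => HD2_ix α = some i) (c (insert i J)), ?_, ?_⟩
    · intro J _ hJ
      rw [Finset.sum_apply]
      refine Submodule.sum_mem _ fun i _ => ?_
      beta_reduce
      by_cases h : i ∈ J
      · rw [if_pos h]
        exact Submodule.zero_mem _
      · rw [if_neg h, ← Int.cast_smul_eq_zsmul k]
        refine Submodule.smul_mem _ _ ?_
        intro α hα
        rw [HD2_pr_coeff] at hα
        split_ifs at hα with h1
        · have h2 := hv (insert i J) (Finset.subset_univ _)
            (by rw [Finset.card_insert_of_notMem h, hJ]) α hα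
          refine ⟨h2.1, fun i' hi' => ?_⟩
          by_cases hii : i' = i
          · rw [hii]
            exact HD2_ix_some h1
          · refine h2.2 i' fun h3 => ?_
            rcases Finset.mem_insert.1 h3 with h4 | h4
            · exact hii h4
            · exact hi' h4
        · exact absurd rfl hα
    · intro J _ hJ
      rw [cd_sum, Pi.sub_apply, if_pos hJ, sub_eq_iff_eq_add]
      have h1 : ∀ i : Fin r, cd (fun J => if i ∈ J then 0 else
          sg i (insert i J) • HD2_pr (fun α => HD2_ix α = some i) (c (insert i J))) J =
          HD2_pr (fun α => HD2_ix α = some i) (c J) := by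
        intro i
        refine HD2_cov i q (fun J => HD2_pr (fun α => HD2_ix α = some i) (c J)) ?_ J hJ
        intro J' hJ'
        rw [cd_map, hc' J' hJ', map_zero]
      simp only [h1]
      exact (HD2_sum (c J)).symm

end Flip28
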