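import Pool.Agent.FlipB_h28.HA

/-! # Serre's finiteness theorem: the kernel is of the same kind -/

universe u

namespace Flip28

variable {k : Type u} [Field k]

theorem HD3_mul_mem {r : ℕ} {J J' : Finset (Fin r)} (h : J' ⊆ J) {l l' : ℤ} {f g : Lau k r}
    (hf : f ∈ LJ k J l) (hg : g ∈ LJ k J' l') : f * g ∈ LJ k J (l + l') := by
  classical
  intro α hα
  have := AddMonoidAlgebra.support_coeff_mul_subset f g (Finsupp.mem_support_iff.mpr hα)
  rw [Finset.mem_add] at this
  obtain ⟨β, hβ, γ, hγ, rfl⟩ := this
  rw [Finsupp.mem_support_iff] at hβ hγ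
  obtain ⟨h1, h2⟩ := hf β hβ
  obtain ⟨h3, h4⟩ := hg γ hγ
  refine ⟨?_, fun i hi => ?_⟩
  · simp only [Pi.add_apply, Finset.sum_add_distrib, h1, h3]
  · exact add_nonneg (h2 i hi) (h4 i fun h' => hi (h h'))

/-- the polynomials -/
def HD3_P (k : Type u) [Field k] (r : ℕ) : Subalgebra k (Lau k r) where
  carrier := {f | ∀ α, f.coeff α ≠ 0 → ∀ i, 0 ≤ α i}
  mul_mem' := by
    classical
    intro f g hf hg α hα i
    have := AddMonoidAlgebra.support_coeff_mul_subset f g (Finsupp.mem_support_iff.mpr hα)
    rw [Finset.mem_add] at this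
    obtain ⟨β, hβ, γ, hγ, rfl⟩ := this
    rw [Finsupp.mem_support_iff] at hβ hγ
    exact add_nonneg (hf β hβ i) (hg γ hγ i)
  add_mem' := by
    intro f g hf hg α hα
    by_cases h : f.coeff α = 0
    · refine hg α fun h' => hα ?_
      simp [h, h']
    · exact hf α h
  algebraMap_mem' := by
    classical
    intro c α hα i
    rw [AddMonoidAlgebra.coe_algebraMap, Function.comp_apply, AddMonoidAlgebra.coeff_single,
      Finsupp.single_apply] at hα
    by_cases h : (0 : Fin r → ℤ) = α
    · rw [← h]
      exact le_rfl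
    · rw [if_neg h] at hα
      exact absurd rfl hα

theorem HD3_P_eq (r : ℕ) : HD3_P k r = Algebra.adjoin k
    (Set.range fun i : Fin r => (AddMonoidAlgebra.single (Pi.single i 1) 1 : Lau k r)) := by
  classical
  apply le_antisymm
  · intro f hf
    rw [← AddMonoidAlgebra.sum_coeff_single f]
    refine Subalgebra.sum_mem _ fun α hα => ?_
    rw [Finsupp.mem_support_iff] at hα
    have h0 := hf α hα
    have h1 : (AddMonoidAlgebra.single α (f.coeff α) : Lau k r) =
        f.coeff α • ∏ i, (AddMonoidAlgebra.single (Pi.single i 1) 1 : Lau k r) ^ (α i).toNat := by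
      simp only [AddMonoidAlgebra.single_pow, AddMonoidAlgebra.prod_single, one_pow,
        Finset.prod_const_one, AddMonoidAlgebra.smul_single, smul_eq_mul, mul_one]
      congr 1
      funext j
      rw [Finset.sum_apply, Finset.sum_eq_single j]
      · simp only [Pi.smul_apply, Pi.single_eq_same, nsmul_eq_mul, mul_one]
        exact (Int.toNat_of_nonneg (h0 j)).symm
      · intro i _ hi
        simp [Pi.single_eq_of_ne (Ne.symm hi)]
      · simp
    rw [h1]
    refine Subalgebra.smul_mem _ (Subalgebra.prod_mem _ fun i _ => Subalgebra.pow_mem _ ?_ _) _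
    exact Algebra.subset_adjoin ⟨i, rfl⟩
  · rw [Algebra.adjoin_le_iff]
    rintro _ ⟨i, rfl⟩
    intro α hα j
    simp only [AddMonoidAlgebra.coeff_single, Finsupp.single_apply] at hα
    by_cases h : (Pi.single i 1 : Fin r → ℤ) = α
    · rw [← h]
      by_cases hj : j = i
      · subst hj
        simp
      · simp [Pi.single_eq_of_ne hj]
    · rw [if_neg h] at hα
      exact absurd rfl hα

theorem HD3_P_noeth (r : ℕ) : IsNoetherianRing (HD3_P k r) := by
  have h : (HD3_P k r).FG := by
    rw [HD3_P_eq]
    have h2 := Subalgebra.fg_adjoin_finset (R := k)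
      (Set.finite_range fun i : Fin r => (AddMonoidAlgebra.single (Pi.single i 1) 1 : Lau k r)).toFinset
    rwa [Set.Finite.coe_toFinset] at h2
  have : Algebra.FiniteType k (HD3_P k r) := (Subalgebra.fg_iff_finiteType _).mp h
  exact Algebra.FiniteType.isNoetherianRing k _

/-- the homogeneous relations -/
def HD3_S {r : ℕ} {A M : Type u} [CommRing A] [Algebra k A] [AddCommGroup M] [Module A M]
    (φ : Lau k r →ₐ[k] A) {s : ℕ} (a : Fin s → ℤ)
    (m : Fin s → M) : Set (Fin s → Lau k r) :=
  {v | ∃ l : ℤ, (∀ i, v i ∈ LJ k ∅ (l - a i)) ∧ ∑ i, φ (v i) • m i = 0}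

theorem HD3_fg {r : ℕ} {A M : Type u} [CommRing A] [Algebra k A] [AddCommGroup M] [Module A M]
    (φ : Lau k r →ₐ[k] A) {s : ℕ} (a : Fin s → ℤ) (m : Fin s → M) :
    (Submodule.span (HD3_P k r) (HD3_S φ a m)).FG := by
  classical
  have := HD3_P_noeth (k := k) r
  have h := isNoetherian_of_fg_of_noetherian
    (Submodule.span (HD3_P k r) (Set.range fun i : Fin s => (Pi.single i 1 : Fin s → Lau k r)))
    (Submodule.fg_span (Set.finite_range _))
  rw [isNoetherian_submodule] at h
  apply h
  rw [Submodule.span_le]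
  rintro v ⟨l, hv, -⟩
  have h2 : ∀ i, v i ∈ HD3_P k r := fun i α hα j => (hv i α hα).2 j (Finset.notMem_empty j)
  have h3 : v = ∑ i, (⟨v i, h2 i⟩ : HD3_P k r) • (Pi.single i 1 : Fin s → Lau k r) := by
    funext j
    rw [Finset.sum_apply, Finset.sum_eq_single j]
    · rw [Pi.smul_apply, Pi.single_eq_same, Subalgebra.smul_def, smul_eq_mul, mul_one]
    · intro i _ hi
      rw [Pi.smul_apply, Pi.single_eq_of_ne (Ne.symm hi), smul_zero]
    · simp
  rw [h3]
  exact Submodule.sum_mem _ fun i _ => Submodule.smul_mem _ _ (Submodule.subset_span ⟨i, rfl⟩)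

/-- the homogeneous component of degree `l` -/
noncomputable def HD3_hc {r : ℕ} (l : ℤ) : Lau k r →+ Lau k r where
  toFun f := AddMonoidAlgebra.ofCoeff (f.coeff.filter fun α => ∑ i, α i = l)
  map_zero' := by
    ext α
    simp [Finsupp.filter_apply]
  map_add' f g := by
    simp [Finsupp.filter_add]

theorem HD3_hc_coeff {r : ℕ} (l : ℤ) (f : Lau k r) (α : Fin r → ℤ) :
    (HD3_hc l f).coeff α = if ∑ i, α i = l then f.coeff α else 0 := by
  classical
  exact Finsupp.filter_apply _ _ _

theorem HD3_hc_self {r : ℕ} {J : Finset (Fin r)} {l : ℤ} {f : Lau k r} (hf : f ∈ LJ k J l) :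
    HD3_hc l f = f := by
  ext α
  rw [HD3_hc_coeff]
  split_ifs with h
  · rfl
  · by_contra h'
    exact h (hf α (Ne.symm h')).1

theorem HD3_hc_mul {r : ℕ} {J : Finset (Fin r)} {l d : ℤ} {n : Lau k r} (hn : n ∈ LJ k J d)
    (g : Lau k r) : HD3_hc (l + d) (g * n) = HD3_hc l g * n := by
  classical
  induction g using AddMonoidAlgebra.induction_linear with
  | zero => simp
  | add f g hf hg => rw [add_mul, map_add, hf, hg, map_add, add_mul]
  | single β b =>
    have key : ∀ α : Fin r → ℤ, n.coeff (-β + α) ≠ 0 → ∑ i, α i = ∑ i, β i + d := by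
      intro α hα
      have := (hn _ hα).1
      simp only [Pi.add_apply, Pi.neg_apply, Finset.sum_add_distrib, Finset.sum_neg_distrib] at this
      omega
    by_cases hβ : ∑ i, β i = l
    · have h1 : HD3_hc l (AddMonoidAlgebra.single β b : Lau k r) = AddMonoidAlgebra.single β b := by
        ext α
        rw [HD3_hc_coeff, AddMonoidAlgebra.coeff_single, Finsupp.single_apply]
        split_ifs with h2 h3 h3
        · rfl
        · rfl
        · exact absurd (h3 ▸ hβ) h2
        · rfl
      rw [h1]
      ext α
      rw [HD3_hc_coeff, AddMonoidAlgebra.coeff_single_mul_apply]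
      split_ifs with h
      · rfl
      · by_cases h0 : n.coeff (-β + α) = 0
        · rw [h0, mul_zero]
        · exact absurd ((key α h0).trans (by rw [hβ])) h
    · have h1 : HD3_hc l (AddMonoidAlgebra.single β b : Lau k r) = 0 := by
        ext α
        rw [HD3_hc_coeff, AddMonoidAlgebra.coeff_single, Finsupp.single_apply]
        split_ifs with h2 h3
        · exact absurd (h3 ▸ h2) hβ
        · rfl
        · rfl
      rw [h1, zero_mul]
      ext α
      rw [HD3_hc_coeff, AddMonoidAlgebra.coeff_single_mul_apply]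
      split_ifs with h
      · by_cases h0 : n.coeff (-β + α) = 0
        · rw [h0, mul_zero]
          rfl
        · exact absurd (by have := key α h0; omega) hβ
      · rfl

/-- Proof.  Let `P = MvPolynomial (Fin r) k`, mapped to `Lau k r` in the obvious way (injective;
the image consists of the elements supported in nonnegative exponents).  Let `Q ⊆ (Fin s → P)` be
the `P`-submodule generated by the union over `l : ℤ` of the sets of all `(f i)` with
`f i` homogeneous of degree `l - a i` (zero if `l < a i`) and `∑ φ (f i) • m i = 0`.  As `P` is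
noetherian, `Q` is generated by a finite subset of this union, `n 1, ..., n s'` of degrees
`c 1, ..., c s'`.  Let `f i ∈ LJ k J (-(a i))` with `∑ φ (f i) • m i = 0`.  For a large `t` the
products of the `f i` with the monomial `∏_{j ∈ J} T_j ^ t` are polynomials, homogeneous of degree
`t * J.card - a i`; they form an element of `Q`, hence equal `∑ g b • n b` with `g b ∈ P`, and we
may replace `g b` by its homogeneous component of degree `t * J.card - c b`.  Divide by the
monomial: `∏_{j ∈ J} T_j ^ (-t) * g b ∈ LJ k J (-(c b))`. -/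
theorem kernel_fg {r : ℕ} {A M : Type u} [CommRing A] [Algebra k A] [AddCommGroup M] [Module A M]
    [Module k M] [IsScalarTower k A M] (φ : Lau k r →ₐ[k] A) {s : ℕ} (a : Fin s → ℤ)
    (m : Fin s → M) : ∃ (s' : ℕ) (c : Fin s' → ℤ) (n : Fin s' → (Fin s → Lau k r)),
      ∀ (J : Finset (Fin r)) (f : Fin s → Lau k r),
        ((∀ i, f i ∈ LJ k J (-(a i))) ∧ ∑ i, φ (f i) • m i = 0) ↔
          f ∈ MJ (AlgHom.id k (Lau k r)) c n J := by
  classical
  obtain ⟨S', hS', hspan⟩ := (Submodule.fg_span_iff_fg_span_finset_subset (R := HD3_P k r)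
    (HD3_S φ a m)).mp (HD3_fg φ a m)
  have hex : ∀ v : Fin s → Lau k r, v ∈ S' →
      ∃ l : ℤ, (∀ i, v i ∈ LJ k ∅ (l - a i)) ∧ ∑ i, φ (v i) • m i = 0 := fun v hv => hS' hv
  choose! d hd1 hd2 using hex
  let e := S'.equivFin.symm
  refine ⟨S'.card, fun b => d (e b), fun b => (e b : Fin s → Lau k r), fun J f => ⟨?_, ?_⟩⟩
  · rintro ⟨h1, h2⟩
    obtain ⟨t, ht⟩ : ∃ t : ℕ, ∀ i, ∀ α, (f i).coeff α ≠ 0 → ∀ j, -(t : ℤ) ≤ α j := by
      refine ⟨∑ i, ∑ α ∈ (f i).coeff.support, ∑ j, (α j).natAbs, fun i α hα j => ?_⟩
      have e1 : (α j).natAbs ≤ ∑ j, (α j).natAbs :=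
        Finset.single_le_sum (f := fun j => (α j).natAbs) (fun _ _ => Nat.zero_le _)
          (Finset.mem_univ j)
      have e2 : ∑ j, (α j).natAbs ≤ ∑ α ∈ (f i).coeff.support, ∑ j, (α j).natAbs :=
        Finset.single_le_sum (f := fun α : Fin r → ℤ => ∑ j, (α j).natAbs)
          (fun _ _ => Nat.zero_le _) (Finsupp.mem_support_iff.mpr hα)
      have e3 : ∑ α ∈ (f i).coeff.support, ∑ j, (α j).natAbs ≤
          ∑ i, ∑ α ∈ (f i).coeff.support, ∑ j, (α j).natAbs :=
        Finset.single_le_sum (f := fun i => ∑ α ∈ (f i).coeff.support, ∑ j, (α j).natAbs)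
          (fun _ _ => Nat.zero_le _) (Finset.mem_univ i)
      omega
    set w : Fin r → ℤ := fun j => if j ∈ J then (t : ℤ) else 0 with hw
    have hwsum : ∑ j, w j = t * J.card := by
      rw [hw]
      simp [Finset.sum_ite_mem, mul_comm]
    set T : Lau k r := AddMonoidAlgebra.single w 1 with hT
    set T' : Lau k r := AddMonoidAlgebra.single (-w) 1 with hT'
    have hTT : T' * T = 1 := by
      rw [hT, hT', AddMonoidAlgebra.single_mul_single, neg_add_cancel, mul_one]
      rfl
    have hTf : ∀ i, T * f i ∈ LJ k ∅ (t * J.card - a i) := by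
      intro i α hα
      rw [hT, AddMonoidAlgebra.coeff_single_mul_apply, one_mul] at hα
      have h3 := h1 i _ hα
      have h4 := ht i _ hα
      constructor
      · have h5 := h3.1
        simp only [Pi.add_apply, Pi.neg_apply, Finset.sum_add_distrib, Finset.sum_neg_distrib,
          hwsum] at h5
        omega
      · intro j _
        have h5 := h3.2 j
        have h6 := h4 j
        simp only [Pi.add_apply, Pi.neg_apply, hw] at h5 h6
        by_cases hj : j ∈ J
        · rw [if_pos hj] at h6
          omega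
        · rw [if_neg hj] at h5
          have := h5 hj
          omega
    have hv : (fun i => T * f i) ∈ Submodule.span (HD3_P k r)
        (Set.range fun b => (e b : Fin s → Lau k r)) := by
      have h3 : (fun i => T * f i) ∈ Submodule.span (HD3_P k r) (HD3_S φ a m) := by
        apply Submodule.subset_span
        refine ⟨t * J.card, hTf, ?_⟩
        have : ∀ i, φ (T * f i) • m i = φ T • (φ (f i) • m i) := fun i => by
          rw [map_mul, mul_smul]
        simp only [this]
        rw [← Finset.smul_sum, h2, smul_zero]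
      rw [hspan] at h3
      refine Submodule.span_mono ?_ h3
      intro x hx
      exact ⟨S'.equivFin ⟨x, hx⟩, by simp [e]⟩
    rw [Submodule.mem_span_range_iff_exists_fun] at hv
    obtain ⟨g, hg⟩ := hv
    refine ⟨fun b => T' * HD3_hc (t * J.card - d (e b)) (g b : Lau k r), fun b => ?_, ?_⟩
    · intro α hα
      rw [hT', AddMonoidAlgebra.coeff_single_mul_apply, one_mul, HD3_hc_coeff, neg_neg] at hα
      by_cases h3 : ∑ i, (w + α) i = t * J.card - d (e b)
      · rw [if_pos h3] at hα
        have h4 := (g b).2 _ hα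
        constructor
        · simp only [Pi.add_apply, Finset.sum_add_distrib, hwsum] at h3
          change ∑ i, α i = -(d (e b))
          omega
        · intro j hj
          have h5 := h4 j
          simp only [Pi.add_apply, hw, if_neg hj, zero_add] at h5
          exact h5
      · rw [if_neg h3] at hα
        exact absurd rfl hα
    · funext i
      have h3 : T * f i = ∑ b, (g b : Lau k r) * (e b : Fin s → Lau k r) i := by
        have := congrFun hg i
        simp only [Finset.sum_apply, Pi.smul_apply, Subalgebra.smul_def, smul_eq_mul] at this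
        exact this.symm
      have h4 : T * f i = ∑ b, HD3_hc (t * J.card - d (e b)) (g b : Lau k r) *
          (e b : Fin s → Lau k r) i := by
        rw [← HD3_hc_self (hTf i), h3, map_sum]
        refine Finset.sum_congr rfl fun b _ => ?_
        rw [← HD3_hc_mul (hd1 _ (e b).2 i)]
        congr 2
        ring
      have h5 : f i = T' * (T * f i) := by
        rw [← mul_assoc, hTT, one_mul]
      rw [h5, h4, Finset.mul_sum, Finset.sum_apply]
      refine Finset.sum_congr rfl fun b _ => ?_
      rw [Pi.smul_apply, AlgHom.id_apply, smul_eq_mul, mul_assoc]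
  · rintro ⟨g, hg, rfl⟩
    constructor
    · intro i
      rw [Finset.sum_apply]
      refine Submodule.sum_mem _ fun b _ => ?_
      rw [Pi.smul_apply, AlgHom.id_apply, smul_eq_mul]
      have h3 := HD3_mul_mem (Finset.empty_subset J) (hg b) (hd1 _ (e b).2 i)
      have h4 : -(d (e b)) + (d (e b) - a i) = -(a i) := by ring
      rw [h4] at h3
      exact h3
    · have h3 : ∀ i, φ ((∑ b, (AlgHom.id k (Lau k r)) (g b) • (e b : Fin s → Lau k r)) i) • m i =
          ∑ b, φ (g b) • (φ ((e b : Fin s → Lau k r) i) • m i) := by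
        intro i
        rw [Finset.sum_apply, map_sum, Finset.sum_smul]
        refine Finset.sum_congr rfl fun b _ => ?_
        rw [Pi.smul_apply, AlgHom.id_apply, smul_eq_mul, map_mul, mul_smul]
      simp only [h3]
      rw [Finset.sum_comm]
      refine Finset.sum_eq_zero fun b _ => ?_
      rw [← Finset.smul_sum, hd2 _ (e b).2, smul_zero]

end Flip28
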