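import Pool.Agent.FlipB_h28.HD1
import Pool.Agent.FlipB_h28.HD2
import Pool.Agent.FlipB_h28.HD3

/-! # Serre's finiteness theorem -/

universe u

namespace Flip28

variable {k : Type u} [Field k]

theorem HD4_LJ_mono {r : ℕ} {J J' : Finset (Fin r)} (h : J ⊆ J') (l : ℤ) :
    LJ k J l ≤ LJ k J' l := fun _ hf α hα =>
  ⟨(hf α hα).1, fun i hi => (hf α hα).2 i fun hi' => hi (h hi')⟩

/-- the map `f ↦ ∑ φ (f i) • m i` -/
noncomputable def HD4_psi {r : ℕ} {A M : Type u} [CommRing A] [Algebra k A] [AddCommGroup M]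
    [Module A M] [Module k M] [IsScalarTower k A M] (φ : Lau k r →ₐ[k] A) {s : ℕ}
    (m : Fin s → M) : (Fin s → Lau k r) →ₗ[k] M where
  toFun f := ∑ i, φ (f i) • m i
  map_add' f g := by simp [add_smul, Finset.sum_add_distrib]
  map_smul' c f := by simp [Finset.smul_sum, smul_assoc]

theorem HD4_step {r : ℕ} {A M : Type u} [CommRing A] [Algebra k A] [AddCommGroup M]
    [Module A M] [Module k M] [IsScalarTower k A M] (φ : Lau k r →ₐ[k] A) {s : ℕ}
    (a : Fin s → ℤ) (m : Fin s → M) (q : ℕ)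
    (h : ∀ (s0 s1 : ℕ) (a : Fin s1 → ℤ) (m : Fin s1 → (Fin s0 → Lau k r)),
      FinH (MJ (AlgHom.id k (Lau k r)) a m) Finset.univ (q + 1)) :
    FinH (MJ φ a m) Finset.univ q := by
  obtain ⟨s', c, n, hk⟩ := kernel_fg φ a m
  refine finH_of_exact (E := Fin s → Lau k r) (E' := M)
    (F := fun J => Submodule.pi Set.univ (fun i => LJ k J (-(a i))))
    (M := MJ φ a m)
    (N := fun J => Submodule.pi Set.univ (fun i => LJ k J (-(a i))) ⊓
      LinearMap.ker (HD4_psi φ m)) (HD4_psi φ m) ?_ ?_ (fun _ => rfl) ?_ ?_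
  · intro J J' hJ f hf i hi
    exact HD4_LJ_mono hJ _ (hf i hi)
  · intro J
    ext v
    constructor
    · rintro ⟨f, hf, rfl⟩
      exact ⟨f, fun i _ => hf i, rfl⟩
    · rintro ⟨f, hf, rfl⟩
      exact ⟨f, fun i => hf i (Set.mem_univ i), rfl⟩
  · exact finH_pi fun i => finH_LJ (-(a i)) q
  · have he : (fun J : Finset (Fin r) =>
        (Submodule.pi Set.univ (fun i => LJ k J (-(a i))) ⊓ LinearMap.ker (HD4_psi φ m) :
          Submodule k (Fin s → Lau k r))) = MJ (AlgHom.id k (Lau k r)) c n := by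
      funext J
      ext f
      rw [← hk J f, Submodule.mem_inf]
      constructor
      · rintro ⟨h1, h2⟩
        exact ⟨fun i => h1 i (Set.mem_univ i), h2⟩
      · rintro ⟨h1, h2⟩
        exact ⟨fun i _ => h1 i, h2⟩
    rw [he]
    exact h s s' c n

theorem HD4_free {r : ℕ} (N : ℕ) : ∀ q : ℕ, r + 1 ≤ q + N →
    ∀ (s0 s1 : ℕ) (a : Fin s1 → ℤ) (m : Fin s1 → (Fin s0 → Lau k r)),
      FinH (MJ (AlgHom.id k (Lau k r)) a m) Finset.univ q := by
  induction N with
  | zero =>
    intro q hq s0 s1 a m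
    apply finH_of_card_lt
    rw [Finset.card_univ, Fintype.card_fin]
    omega
  | succ N ih =>
    intro q hq s0 s1 a m
    exact HD4_step (AlgHom.id k (Lau k r)) a m q (ih (q + 1) (by omega))

/-- Serre's theorem.  Proof: for a number `N` prove by induction on `N` the statement for all `q`
with `r + 1 ≤ q + N`, first for `A = Lau k r`, `φ = id`, `M = (Fin s0 → Lau k r)`, then for all
`M`.  If `r < q` use `finH_of_card_lt`.  Otherwise let `F J` be the set of the `f : Fin s → Lau k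
r` with `f i ∈ LJ k J (-(a i))` (a product, `finH_pi`, `finH_LJ`), `ψ f = ∑ φ (f i) • m i`; the
kernel is of the form `MJ id c n` (`kernel_fg`), for which the statement is known in degree
`q + 1`; use `finH_of_exact`. -/
theorem serre_finite {r : ℕ} {A M : Type u} [CommRing A] [Algebra k A] [AddCommGroup M]
    [Module A M] [Module k M] [IsScalarTower k A M] (φ : Lau k r →ₐ[k] A) {s : ℕ}
    (a : Fin s → ℤ) (m : Fin s → M) (q : ℕ) : FinH (MJ φ a m) Finset.univ q :=
  HD4_step φ a m q (HD4_free (r + 1) (q + 1) (by omega))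

end Flip28
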