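import Pool.Agent.Flip_h28.AlgDefs
import Pool.Agent.Flip_h28.CoordDef

/-!
# Cech cohomology of families of submodules, forms on models: definitions

Paper proof: table proofs, row 277 (MP_a06248_ag, Theorem Bd).
-/

open scoped KaehlerDifferential

universe u

namespace Flip28

/-! ## Ordered Cech cochains

A cochain is a function `c` on the finite subsets `J` of a linearly ordered index set; the
(reduced, ordered) Cech differential is `cd`. -/

section Cech

variable {ι E : Type*} [LinearOrder ι] [AddCommGroup E]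

/-- the sign `(-1)^{#{i ∈ J : i < j}}` -/
def sg (j : ι) (J : Finset ι) : ℤ := (-1) ^ (J.filter (· < j)).card

/-- the Cech differential -/
def cd (c : Finset ι → E) (J : Finset ι) : E := ∑ j ∈ J, sg j J • c (J.erase j)

variable {k : Type*} [Semiring k] [Module k E]

/-- `c` has its values in the family `F` on the subsets of `I` with `q` elements -/
def Val (F : Finset ι → Submodule k E) (I : Finset ι) (q : ℕ) (c : Finset ι → E) : Prop :=
  ∀ J ⊆ I, J.card = q → c J ∈ F J

/-- `c` is a cocycle on the subsets of `I` with `q` elements -/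
def Coc (I : Finset ι) (q : ℕ) (c : Finset ι → E) : Prop :=
  ∀ J ⊆ I, J.card = q + 1 → cd c J = 0

/-- `c` is, on the subsets of `I` with `q` elements, the coboundary of a cochain with values in
`F` -/
def Cob (F : Finset ι → Submodule k E) (I : Finset ι) (q : ℕ) (c : Finset ι → E) : Prop :=
  ∃ b : Finset ι → E, (∀ J ⊆ I, J.card + 1 = q → b J ∈ F J) ∧ ∀ J ⊆ I, J.card = q → c J = cd b J

/-- all cocycles of `F` on `I` (including the empty set in the index) are coboundaries -/
def Acy (F : Finset ι → Submodule k E) (I : Finset ι) : Prop :=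
  ∀ (q : ℕ) (c : Finset ι → E), Val F I q c → Coc I q c → Cob F I q c

/-- the cohomology of `F` on `I` in degree `q` (subsets with `q` elements) is finite
dimensional: up to coboundaries all cocycles belong to a finite dimensional space `W` -/
def FinH {k : Type*} [Field k] [Module k E] (F : Finset ι → Submodule k E) (I : Finset ι)
    (q : ℕ) : Prop :=
  ∃ W : Submodule k (Finset ι → E), FiniteDimensional k W ∧
    ∀ c : Finset ι → E, Val F I q c → Coc I q c → ∃ w ∈ W, Cob F I q (c - w)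

/-- The zigzag: `c` (defined on subsets with `p - l + 1` elements) is obtained from `ε` by
descending from the level `p` to the level `l`. -/
inductive Zig (p : ℕ) (G U : ℕ → Finset ι → Submodule k E) (I : Finset ι) (ε : Finset ι → E) :
    ℕ → (Finset ι → E) → Prop
  | base : Zig p G U I ε p ε
  | step {l : ℕ} {c b w : Finset ι → E} (hl : l < p) (hc : Zig p G U I ε (l + 1) c)
      (hb : ∀ J ⊆ I, J.card = p - l + 1 → b J ∈ G l J)
      (hw : ∀ J ⊆ I, J.card = p - l + 1 → w J ∈ U l J)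
      (h : ∀ J ⊆ I, J.card = p - l + 1 → cd c J = b J + w J) : Zig p G U I ε l b

/-- the conditions on the families of submodules needed for the zigzag -/
structure ZigData (p : ℕ) (G U T : ℕ → Finset ι → Submodule k E) (I : Finset ι) : Prop where
  zero : ∀ J ⊆ I, J.Nonempty → T 0 J = ⊥
  succ : ∀ l < p, ∀ J ⊆ I, J.Nonempty → T (l + 1) J = G l J ⊔ U l J
  inter : ∀ l < p, ∀ J ⊆ I, J.Nonempty → G l J ⊓ U l J ≤ T l J
  monoG : ∀ l ≤ p, ∀ J J', J ⊆ J' → J' ⊆ I → J.Nonempty → G l J ≤ G l J'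
  monoU : ∀ l < p, ∀ J J', J ⊆ J' → J' ⊆ I → J.Nonempty → U l J ≤ U l J'

end Cech

/-! ## Laurent polynomials and Serre's theorem -/

section Serre

variable (k : Type*) [Field k]

/-- Laurent polynomials in `r` variables -/
abbrev Lau (r : ℕ) := AddMonoidAlgebra k (Fin r → ℤ)

/-- the Laurent polynomials of degree `l` with nonnegative exponents outside `J` -/
def LJ {r : ℕ} (J : Finset (Fin r)) (l : ℤ) : Submodule k (Lau k r) where
  carrier := {f | ∀ α, f.coeff α ≠ 0 → ∑ i, α i = l ∧ ∀ i ∉ J, 0 ≤ α i}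
  add_mem' := by
    intro f g hf hg α hα
    by_cases h : f.coeff α = 0
    · refine hg α fun h' => hα ?_
      simp [h, h']
    · exact hf α h
  zero_mem' := by
    intro α hα
    simp at hα
  smul_mem' := by
    intro a f hf α hα
    refine hf α fun h => hα ?_
    simp [h]

variable {k}

/-- the submodules `∑ L(J, - a i) m i` -/
def MJ {r : ℕ} {A M : Type*} [CommRing A] [Algebra k A] [AddCommGroup M] [Module A M]
    [Module k M] [IsScalarTower k A M] (φ : Lau k r →ₐ[k] A) {s : ℕ} (a : Fin s → ℤ)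
    (m : Fin s → M) (J : Finset (Fin r)) : Submodule k M where
  carrier := {v | ∃ f : Fin s → Lau k r, (∀ i, f i ∈ LJ k J (-(a i))) ∧ v = ∑ i, φ (f i) • m i}
  add_mem' := by
    rintro _ _ ⟨f, hf, rfl⟩ ⟨g, hg, rfl⟩
    exact ⟨fun i => f i + g i, fun i => Submodule.add_mem _ (hf i) (hg i), by
      simp [add_smul, Finset.sum_add_distrib]⟩
  zero_mem' := ⟨fun _ => 0, fun i => Submodule.zero_mem _, by simp⟩
  smul_mem' := by
    rintro c _ ⟨f, hf, rfl⟩
    exact ⟨fun i => c • f i, fun i => Submodule.smul_mem _ _ (hf i), by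
      simp [Finset.smul_sum, smul_assoc]⟩

end Serre

/-! ## Forms -/

section Forms

variable (k K : Type u) [Field k] [Field K] [Algebra k K]

/-- the `p`-forms of `K/k` -/
def EE (p : ℕ) : Type u := ⋀[K]^p Ω[K⁄k]

noncomputable instance (p : ℕ) : AddCommGroup (EE k K p) :=
  inferInstanceAs (AddCommGroup (⋀[K]^p Ω[K⁄k]))

noncomputable instance (p : ℕ) : Module K (EE k K p) :=
  inferInstanceAs (Module K (⋀[K]^p Ω[K⁄k]))

noncomputable instance (p : ℕ) : Module k (EE k K p) :=
  Module.compHom (EE k K p) (algebraMap k K)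

instance (p : ℕ) : IsScalarTower k K (EE k K p) :=
  ⟨fun a b v => by
    change (a • b) • v = algebraMap k K a • (b • v)
    rw [Algebra.smul_def, mul_smul]⟩

variable {k K}

/-- the alternating map `v₁, ..., v_p ↦ v₁ ∧ ... ∧ v_p` -/
noncomputable def wedge (p : ℕ) : Ω[K⁄k] [⋀^Fin p]→ₗ[K] EE k K p :=
  exteriorPower.ιMulti K p

/-- the form `da₁ ∧ ... ∧ da_p` -/
noncomputable def wf {p : ℕ} (a : Fin p → K) : EE k K p :=
  wedge p (fun i => KaehlerDifferential.D k K (a i))

/-- the forms `∑ c₀ dc₁ ∧ ... ∧ dc_p` with `cᵢ ∈ C` -/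
noncomputable def FC (p : ℕ) (C : Subalgebra k K) : Submodule k (EE k K p) :=
  Submodule.span k {v | ∃ c ∈ C, ∃ a : Fin p → K, (∀ i, a i ∈ C) ∧ v = c • wf a}

/-- on a field `κ` with a basis of the differentials: the elements `∑ c₀ jac (c₁, ..., c_p)`
with `cᵢ ∈ C` -/
noncomputable def WC {κ : Type u} [Field κ] [Algebra k κ] {p : ℕ}
    (bk : Module.Basis (Fin p) κ Ω[κ⁄k]) (C : Subalgebra k κ) : Submodule k κ :=
  Submodule.span k {v | ∃ c ∈ C, ∃ a : Fin p → κ, (∀ i, a i ∈ C) ∧ v = c * jac bk a}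

end Forms

/-! ## Submodules `∑_{a < l} y_a F` -/

section NS

variable {k K E : Type*} [Field k] [Field K] [Algebra k K] [AddCommGroup E] [Module k E]
  [Module K E] [IsScalarTower k K E]

/-- `∑_{a < l} y_a F` -/
def NS (F : Submodule k E) {p : ℕ} (y : Fin p → K) (l : ℕ) : Submodule k E where
  carrier := {v | ∃ w : Fin p → E, (∀ a, w a ∈ F) ∧
    v = ∑ a ∈ Finset.univ.filter (fun a : Fin p => (a : ℕ) < l), y a • w a}
  add_mem' := by
    rintro _ _ ⟨w, hw, rfl⟩ ⟨w', hw', rfl⟩
    exact ⟨fun a => w a + w' a, fun a => F.add_mem (hw a) (hw' a), by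
      simp [Finset.sum_add_distrib]⟩
  zero_mem' := ⟨fun _ => 0, fun _ => F.zero_mem, by simp⟩
  smul_mem' := by
    rintro c _ ⟨w, hw, rfl⟩
    refine ⟨fun a => c • w a, fun a => F.smul_mem _ (hw a), ?_⟩
    rw [Finset.smul_sum]
    refine Finset.sum_congr rfl fun a _ => ?_
    rw [smul_comm]

/-- the first `l` elements of `y` are a (weakly) `F`-regular sequence -/
def FReg (F : Submodule k E) {p : ℕ} (y : Fin p → K) (l : ℕ) : Prop :=
  ∀ i : Fin p, (i : ℕ) < l → ∀ v ∈ F, y i • v ∈ NS F y i → v ∈ NS F y i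

end NS

/-! ## Projective models -/

section Proj

variable {k K : Type u} [Field k] [Field K] [Algebra k K]

/-- `z` generates `V` at the point `A` -/
def Un (V : Submodule k K) (A : Subalgebra k K) (z : K) : Prop :=
  z ∈ V ∧ z ≠ 0 ∧ ∀ v ∈ V, v * z⁻¹ ∈ A

/-- the algebra `k[V / z : z ∈ Z]` -/
def CJ (V : Submodule k K) (Z : Set K) : Subalgebra k K :=
  Algebra.adjoin k {x | ∃ v ∈ V, ∃ z ∈ Z, x = v * z⁻¹}

/-- `X` is the projective model defined by the finite dimensional space `V` -/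
structure IsPr (V : Submodule k K) (X : Set (Subalgebra k K)) : Prop where
  fg : V.FG
  mem : ∀ A, A ∈ X ↔ ∃ z ∈ V, z ≠ 0 ∧ IsLoc (CJ V {z}) A

/-- `U` is open in `X` -/
def Opn (X U : Set (Subalgebra k K)) : Prop :=
  ∀ R : Subalgebra k K, R.FG → IsFractionRing R K → (∀ B, IsLoc R B → B ∈ X) →
    ∀ A, IsLoc R A → A ∈ U → ∃ r ∈ R, r ≠ 0 ∧ r⁻¹ ∈ A ∧ ∀ B, IsLoc R B → r⁻¹ ∈ B → B ∈ U

/-- the common zeros on `X'` of the sections `s₁, ..., s_p` of `V'` -/
def SS (V' : Submodule k K) (X' : Set (Subalgebra k K)) {p : ℕ} (s : Fin p → K) :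
    Set (Subalgebra k K) := {A | A ∈ X' ∧ ∀ l, ¬ Un V' A (s l)}

/-- a coherent family of submodules of `E` -/
structure QC {E : Type*} [AddCommGroup E] [Module k E] [Module K E] [IsScalarTower k K E]
    (F : Subalgebra k K → Submodule k E) : Prop where
  stable : ∀ C, ∀ a ∈ C, ∀ v ∈ F C, a • v ∈ F C
  mono : ∀ C C', C ≤ C' → F C ≤ F C'
  loc : ∀ C C' : Subalgebra k K, C ≤ C' → ∀ S : Submonoid K,
    (∀ s ∈ S, s ∈ C ∧ s ≠ 0) → (∀ x ∈ C', ∃ s ∈ S, s * x ∈ C) → ∀ v ∈ F C',
    ∃ s ∈ S, s • v ∈ F C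
  fin : ∀ C : Subalgebra k K, C.FG → ∃ (m : ℕ) (e : Fin m → E), (∀ i, e i ∈ F C) ∧
    ∀ v ∈ F C, ∃ c : Fin m → K, (∀ i, c i ∈ C) ∧ v = ∑ i, c i • e i

variable (V : Submodule k K) {p : ℕ} (h : Fin p → K)

/-- `(∏_{a < l} h_a / z)` -/
noncomputable def prl (z : K) (l : ℕ) : K :=
  ∏ a ∈ Finset.univ.filter (fun a : Fin p => (a : ℕ) < l), h a * z⁻¹

/-- the forms on `D(Z)` with poles along `h_a = 0`, `a < l` -/
noncomputable def GG (l : ℕ) (Z : Set K) : Submodule k (EE k K p) where
  carrier := {v | ∀ z ∈ Z, prl h z l • v ∈ FC p (CJ V Z)}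
  add_mem' := fun hv hw z hz => by
    rw [smul_add]
    exact Submodule.add_mem _ (hv z hz) (hw z hz)
  zero_mem' := fun z _ => by
    rw [smul_zero]
    exact Submodule.zero_mem _
  smul_mem' := fun c v hv z hz => by
    rw [smul_comm]
    exact Submodule.smul_mem _ _ (hv z hz)

/-- the sums of forms on `D(Z)` with poles along `h_a = 0`, `a < l`, `a ≠ a'` -/
noncomputable def TT (l : ℕ) (Z : Set K) : Submodule k (EE k K p) where
  carrier := {v | ∀ z ∈ Z, prl h z l • v ∈ NS (FC p (CJ V Z)) (fun a => h a * z⁻¹) l}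
  add_mem' := fun hv hw z hz => by
    rw [smul_add]
    exact Submodule.add_mem _ (hv z hz) (hw z hz)
  zero_mem' := fun z _ => by
    rw [smul_zero]
    exact Submodule.zero_mem _
  smul_mem' := fun c v hv z hz => by
    rw [smul_comm]
    exact Submodule.smul_mem _ _ (hv z hz)

/-- the sums of forms on `D(Z)` with poles along `h_a = 0`, `a ≤ l`, `a ≠ a'`, `a' < l` -/
noncomputable def UU (l : ℕ) (Z : Set K) : Submodule k (EE k K p) where
  carrier := {v | ∀ z ∈ Z, prl h z (l + 1) • v ∈ NS (FC p (CJ V Z)) (fun a => h a * z⁻¹) l}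
  add_mem' := fun hv hw z hz => by
    rw [smul_add]
    exact Submodule.add_mem _ (hv z hz) (hw z hz)
  zero_mem' := fun z _ => by
    rw [smul_zero]
    exact Submodule.zero_mem _
  smul_mem' := fun c v hv z hz => by
    rw [smul_comm]
    exact Submodule.smul_mem _ _ (hv z hz)

variable {h}

/-- `ε` is, at the point `A`, a representative of the class of the complete intersection
`S = {s₁ = ... = s_p = 0}` -/
def GoodAt (V V' : Submodule k K) (X' : Set (Subalgebra k K)) (s h : Fin p → K)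
    (A : Subalgebra k K) (ε : EE k K p) : Prop :=
  (A ∈ SS V' X' s → ∃ (x g : K) (M : Matrix (Fin p) (Fin p) K), Un V A x ∧ Un V' A g ∧
    (∀ i j, M i j ∈ A) ∧ (∀ a, h a * x⁻¹ = ∑ l, M a l * (s l * g⁻¹)) ∧
    prl h x p • ε - M.det • wf (fun l => s l * g⁻¹) ∈
      NS (FC p A) (fun a => h a * x⁻¹) p) ∧
  (A ∉ SS V' X' s → ∃ x, Un V A x ∧ prl h x p • ε ∈ NS (FC p A) (fun a => h a * x⁻¹) p)

end Proj

/-! ## Traces -/

section Trace

variable {k κ : Type u} [Field k] [Field κ] [Algebra k κ]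

/-- the trace of `κ` over `k(u)`, as an element of `κ` -/
noncomputable def trK {p : ℕ} (v : Fin p → κ) (x : κ) : κ :=
  ((Algebra.trace (IntermediateField.adjoin k (Set.range v)) κ x :
    IntermediateField.adjoin k (Set.range v)) : κ)

/-- the value of a Laurent polynomial -/
noncomputable def laurSum {p : ℕ} (v : Fin p → κ) (f : (Fin p → ℤ) →₀ k) : κ :=
  f.sum fun α c => algebraMap k κ c * ∏ i, v i ^ α i

end Trace

end Flip28
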