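import Pool.Agent.FlipB_h28.HDef

/-! # The data attached to one model `X'` and a point `P` of it -/

open scoped KaehlerDifferential

universe u

namespace Flip28

variable {k K : Type u} [Field k] [Field K] [Algebra k K]

/-- `s₁, ..., s_p` are sections of `V'` whose common zeros on `X'` are smooth points of `X`, where
they are a regular sequence; `S` meets the closure of `P`, in closed points. -/
structure SData (X X' : Set (Subalgebra k K)) (V' : Submodule k K) (n : ℕ) {p : ℕ}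
    (s : Fin p → K) (P : Subalgebra k K) : Prop where
  sV : ∀ l, s l ∈ V'
  mem : ∀ A ∈ SS V' X' s, A ∈ X
  smooth : ∀ A ∈ SS V' X' s, Algebra.FormallySmooth k A
  reg : ∀ A ∈ SS V' X' s, ∀ g, Un V' A g →
    FReg (Subalgebra.toSubmodule A) (fun l => s l * g⁻¹) p
  ex : ∃ A ∈ SS V' X' s, A ≤ P
  dim : ∀ A ∈ SS V' X' s, A ≤ P → ringKrullDim A = n

/-- `J` is the space of the sections in `V` of the ideal of `S` -/
structure JData (X X' : Set (Subalgebra k K)) (V V' : Submodule k K) {p : ℕ} (s : Fin p → K)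
    (J : Submodule k K) : Prop where
  le : J ≤ V
  gen : ∀ A ∈ X, A ∉ SS V' X' s → ∃ z ∈ J, Un V A z
  sub : ∀ A ∈ SS V' X' s, ∀ x g, Un V A x → Un V' A g → ∀ z ∈ J,
    z * x⁻¹ ∈ NS (Subalgebra.toSubmodule A) (fun l => s l * g⁻¹) p
  gen' : ∀ A ∈ SS V' X' s, ∀ x g, Un V A x → Un V' A g → ∀ l, ∃ z ∈ J, ∃ a ∈ A,
    s l * g⁻¹ = a * (z * x⁻¹)

/-- a finite covering of `X` by charts which do not meet `S` or are contained in a chart
`D(g)` of `X'` -/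
structure CData (X X' : Set (Subalgebra k K)) (V V' : Submodule k K) {p : ℕ} (s : Fin p → K)
    (𝒲 : Set K) : Prop where
  fin : 𝒲.Finite
  mem : ∀ w ∈ 𝒲, w ∈ V
  cov : ∀ A ∈ X, ∃ w ∈ 𝒲, Un V A w
  typ : ∀ w ∈ 𝒲, (∃ g, ∀ A ∈ X, Un V A w → A ∈ X' ∧ Un V' A g) ∨
    (∀ A ∈ X, Un V A w → A ∉ SS V' X' s)

/-- the sections `h₁, ..., h_p, h₀` -/
structure HData (X X' : Set (Subalgebra k K)) (V V' : Submodule k K) {p : ℕ} (s : Fin p → K)
    (P : Subalgebra k K) (hh : Fin p → K) (h0 : K) : Prop where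
  hV : ∀ a, hh a ∈ V
  ne : ∀ a, hh a ≠ 0
  h0V : h0 ∈ V
  mem : ∀ A ∈ SS V' X' s, ∀ x g, Un V A x → Un V' A g → ∀ a,
    hh a * x⁻¹ ∈ NS (Subalgebra.toSubmodule A) (fun l => s l * g⁻¹) p
  reg : ∀ A ∈ X, ∀ x, Un V A x → FReg (FC p A) (fun a => hh a * x⁻¹) p
  gen : ∀ A ∈ SS V' X' s, A ≤ P → ∀ x g, Un V A x → Un V' A g → ∀ l,
    s l * g⁻¹ ∈ NS (Subalgebra.toSubmodule A) (fun a => hh a * x⁻¹) p
  cov : ∀ A ∈ X, A ≤ P → Un V A h0 ∨ ∃ a, Un V A (hh a)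
  un0 : Un V P h0
  unP : ∀ a, Un V P (hh a)

end Flip28
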