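import Pool.Agent.FlipB_h28.HDef
import Pool.Agent.Flip_h28.LocAlg

/-! # Forms on models, localization -/

open scoped KaehlerDifferential

universe u

namespace Flip28

section Forms

variable {k K : Type u} [Field k] [Field K] [Algebra k K] {p : ℕ}

theorem wf_mem {C : Subalgebra k K} {a : Fin p → K} (ha : ∀ i, a i ∈ C) :
    wf a ∈ FC p C := by
  refine Submodule.subset_span ⟨1, C.one_mem, a, ha, ?_⟩
  rw [one_smul]

theorem wf_smul_mem {C : Subalgebra k K} {c : K} (hc : c ∈ C) {a : Fin p → K}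
    (ha : ∀ i, a i ∈ C) : c • wf a ∈ FC p C :=
  Submodule.subset_span ⟨c, hc, a, ha, rfl⟩

/-- `wf` is multilinear in the differentials: if `D (a j) = ∑ m, c j m • D (x m)` then
`wf a = ∑ τ, (∏ j, c j (τ j)) • wf (x ∘ τ)`. -/
theorem wf_expand_sum {σ : Type*} [Fintype σ] [DecidableEq σ] (a : Fin p → K) (x : σ → K)
    (c : Fin p → σ → K)
    (h : ∀ j, KaehlerDifferential.D k K (a j) = ∑ m, c j m • KaehlerDifferential.D k K (x m)) :
    wf (k := k) a = ∑ τ : Fin p → σ, (∏ j, c j (τ j)) • wf (fun j => x (τ j)) := by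
  have h1 : (fun i => KaehlerDifferential.D k K (a i)) =
      fun i => ∑ m, c i m • KaehlerDifferential.D k K (x m) := funext h
  have h2 : wf (k := k) a = (wedge (k := k) (K := K) p).toMultilinearMap
      (fun i => ∑ m, c i m • KaehlerDifferential.D k K (x m)) := by
    unfold wf
    rw [h1]
    rfl
  rw [h2, MultilinearMap.map_sum]
  refine Finset.sum_congr rfl fun τ _ => ?_
  rw [MultilinearMap.map_smul_univ]
  rfl

theorem HE_stable (C : Subalgebra k K) : ∀ a ∈ C, ∀ v ∈ FC p C, a • v ∈ FC p C := by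
  intro a ha v hv
  refine Submodule.span_induction (p := fun v _ => a • v ∈ FC p C) ?_ ?_ ?_ ?_ hv
  · rintro _ ⟨c, hc, b, hb, rfl⟩
    rw [smul_smul]
    exact wf_smul_mem (C.mul_mem ha hc) hb
  · rw [smul_zero]
    exact Submodule.zero_mem _
  · intro x y _ _ hx hy
    rw [smul_add]
    exact Submodule.add_mem _ hx hy
  · intro r x _ hx
    rw [smul_comm]
    exact Submodule.smul_mem _ _ hx

theorem HE_pow_wf {C : Subalgebra k K} {σ : Type*} [Fintype σ] [DecidableEq σ] (a : Fin p → K)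
    (x : σ → K) (hx : ∀ m, x m ∈ C) (c : Fin p → σ → K) (d : K) (hd : ∀ j m, d * c j m ∈ C)
    (h : ∀ j, KaehlerDifferential.D k K (a j) = ∑ m, c j m • KaehlerDifferential.D k K (x m)) :
    d ^ p • wf (k := k) a ∈ FC p C := by
  rw [wf_expand_sum a x c h, Finset.smul_sum]
  refine Submodule.sum_mem _ fun τ _ => ?_
  rw [smul_smul]
  refine wf_smul_mem ?_ fun j => hx _
  have h1 : d ^ p * ∏ j, c j (τ j) = ∏ j, (d * c j (τ j)) := by
    rw [Finset.prod_mul_distrib, Finset.prod_const, Finset.card_univ, Fintype.card_fin]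
  rw [h1]
  exact C.prod_mem fun j _ => hd j (τ j)

theorem HE_common {C : Subalgebra k K} (S : Submonoid K) (hS : ∀ s ∈ S, s ∈ C ∧ s ≠ 0)
    {E : Type*} [AddCommGroup E] [Module K E] (P : E → Prop)
    (hP : ∀ a ∈ C, ∀ v, P v → P (a • v)) {ι : Type*} (T : Finset ι) (w : ι → E)
    (hw : ∀ i ∈ T, ∃ s ∈ S, P (s • w i)) : ∃ s ∈ S, ∀ i ∈ T, P (s • w i) := by
  classical
  induction T using Finset.induction_on with
  | empty => exact ⟨1, S.one_mem, fun i hi => absurd hi (Finset.notMem_empty i)⟩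
  | insert i T hi ih =>
    obtain ⟨s, hs, h1⟩ := ih fun j hj => hw j (Finset.mem_insert_of_mem hj)
    obtain ⟨t, ht, h2⟩ := hw i (Finset.mem_insert_self i T)
    refine ⟨s * t, S.mul_mem hs ht, fun j hj => ?_⟩
    rcases Finset.mem_insert.1 hj with rfl | hj
    · rw [mul_smul]
      exact hP s (hS s hs).1 _ h2
    · rw [mul_comm, mul_smul]
      exact hP t (hS t ht).1 _ (h1 j hj)

theorem HE_D_smul (s x : K) (hs : s ≠ 0) : KaehlerDifferential.D k K x =
    s⁻¹ • KaehlerDifferential.D k K (s * x) + (-(s * x) * (s⁻¹ * s⁻¹)) •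
      KaehlerDifferential.D k K s := by
  rw [Derivation.leibniz, smul_add, smul_smul, smul_smul, inv_mul_cancel₀ hs, one_smul,
    add_assoc, ← add_smul]
  have : s⁻¹ * x + -(s * x) * (s⁻¹ * s⁻¹) = 0 := by
    field_simp
    ring
  rw [this, zero_smul, add_zero]

theorem HE_loc {C C' : Subalgebra k K} (S : Submonoid K) (hS : ∀ s ∈ S, s ∈ C ∧ s ≠ 0)
    (hx : ∀ x ∈ C', ∃ s ∈ S, s * x ∈ C) : ∀ v ∈ FC p C', ∃ s ∈ S, s • v ∈ FC p C := by
  classical
  intro v hv
  refine Submodule.span_induction (p := fun v _ => ∃ s ∈ S, s • v ∈ FC p C) ?_ ?_ ?_ ?_ hv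
  · rintro _ ⟨c, hc, a, ha, rfl⟩
    obtain ⟨s, hs, h1⟩ := HE_common (C := C) S hS (E := K) (fun v => v ∈ C)
      (fun a ha v hv => C.mul_mem ha hv) (Finset.univ : Finset (Option (Fin p)))
      (fun o => o.elim c a) (by
        intro o _
        cases o with
        | none => exact hx c hc
        | some j => exact hx (a j) (ha j))
    have hs0 := (hS s hs).2
    have hsC := (hS s hs).1
    have h2 : s * c ∈ C := h1 none (Finset.mem_univ _)
    have h3 : ∀ j, s * a j ∈ C := fun j => h1 (some j) (Finset.mem_univ _)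
    have h4 : (s ^ 2) ^ p • wf (k := k) a ∈ FC p C := by
      refine HE_pow_wf a (fun o : Option (Fin p) => o.elim s fun j => s * a j) ?_
        (fun j o => o.elim (-(s * a j) * (s⁻¹ * s⁻¹)) fun m => if m = j then s⁻¹ else 0)
        (s ^ 2) ?_ ?_
      · intro o
        cases o with
        | none => exact hsC
        | some j => exact h3 j
      · intro j o
        cases o with
        | none =>
          have : s ^ 2 * (-(s * a j) * (s⁻¹ * s⁻¹)) = -(s * a j) := by
            field_simp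
          show s ^ 2 * (-(s * a j) * (s⁻¹ * s⁻¹)) ∈ C
          rw [this]
          exact C.neg_mem (h3 j)
        | some m =>
          show s ^ 2 * (if m = j then s⁻¹ else 0) ∈ C
          split_ifs
          · have : s ^ 2 * s⁻¹ = s := by
              field_simp
            rw [this]
            exact hsC
          · rw [mul_zero]
            exact C.zero_mem
      · intro j
        rw [Fintype.sum_option]
        show _ = (-(s * a j) * (s⁻¹ * s⁻¹)) • KaehlerDifferential.D k K s +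
          ∑ m, (if m = j then s⁻¹ else 0) • KaehlerDifferential.D k K (s * a m)
        rw [Finset.sum_eq_single j]
        · rw [if_pos rfl, add_comm]
          exact HE_D_smul s (a j) hs0
        · intro m _ hm
          rw [if_neg hm, zero_smul]
        · intro h
          exact absurd (Finset.mem_univ _) h
    refine ⟨s * (s ^ 2) ^ p, S.mul_mem hs (S.pow_mem (S.pow_mem hs 2) p), ?_⟩
    have h5 : (s * (s ^ 2) ^ p) • (c • wf (k := k) a) = (s * c) • ((s ^ 2) ^ p • wf (k := k) a) := by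
      rw [smul_smul, smul_smul]
      congr 1
      ring
    rw [h5]
    exact HE_stable C _ h2 _ h4
  · exact ⟨1, S.one_mem, by rw [smul_zero]; exact Submodule.zero_mem _⟩
  · rintro x y _ _ ⟨s, hs, h1⟩ ⟨t, ht, h2⟩
    refine ⟨s * t, S.mul_mem hs ht, ?_⟩
    rw [smul_add]
    refine Submodule.add_mem _ ?_ ?_
    · rw [mul_comm, mul_smul]
      exact HE_stable C _ (hS t ht).1 _ h1
    · rw [mul_smul]
      exact HE_stable C _ (hS s hs).1 _ h2
  · rintro r x _ ⟨s, hs, h1⟩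
    refine ⟨s, hs, ?_⟩
    rw [smul_comm]
    exact Submodule.smul_mem _ _ h1

theorem HE_D_adjoin (T : Finset K) (x : K) (hx : x ∈ Algebra.adjoin k (T : Set K)) :
    ∃ c : T → K, (∀ m, c m ∈ Algebra.adjoin k (T : Set K)) ∧
      KaehlerDifferential.D k K x = ∑ m, c m • KaehlerDifferential.D k K (m : K) := by
  classical
  induction hx using Algebra.adjoin_induction with
  | mem x hx =>
    refine ⟨fun m => if m = ⟨x, hx⟩ then 1 else 0, fun m => ?_, ?_⟩
    · beta_reduce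
      split_ifs
      · exact Subalgebra.one_mem _
      · exact Subalgebra.zero_mem _
    · rw [Finset.sum_eq_single ⟨x, hx⟩]
      · beta_reduce
        rw [if_pos rfl, one_smul]
      · intro m _ hm
        beta_reduce
        rw [if_neg hm, zero_smul]
      · intro h
        exact absurd (Finset.mem_univ _) h
  | algebraMap r =>
    refine ⟨fun _ => 0, fun _ => Subalgebra.zero_mem _, ?_⟩
    simp
  | add x y hx hy ihx ihy =>
    obtain ⟨c, hc, h1⟩ := ihx
    obtain ⟨d, hd, h2⟩ := ihy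
    refine ⟨fun m => c m + d m, fun m => Subalgebra.add_mem _ (hc m) (hd m), ?_⟩
    rw [map_add, h1, h2, ← Finset.sum_add_distrib]
    refine Finset.sum_congr rfl fun m _ => ?_
    rw [add_smul]
  | mul x y hx hy ihx ihy =>
    obtain ⟨c, hc, h1⟩ := ihx
    obtain ⟨d, hd, h2⟩ := ihy
    refine ⟨fun m => x * d m + y * c m, fun m => Subalgebra.add_mem _
      (Subalgebra.mul_mem _ hx (hd m)) (Subalgebra.mul_mem _ hy (hc m)), ?_⟩
    rw [Derivation.leibniz, h1, h2, Finset.smul_sum, Finset.smul_sum, ← Finset.sum_add_distrib]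
    refine Finset.sum_congr rfl fun m _ => ?_
    rw [add_smul, smul_smul, smul_smul]

theorem HE_fin (C : Subalgebra k K) (hC : C.FG) : ∃ (m : ℕ) (e : Fin m → EE k K p),
    (∀ i, e i ∈ FC p C) ∧ ∀ v ∈ FC p C, ∃ c : Fin m → K, (∀ i, c i ∈ C) ∧ v = ∑ i, c i • e i := by
  classical
  obtain ⟨T, rfl⟩ := hC
  set C := Algebra.adjoin k (T : Set K) with hC
  have hT : ∀ m : T, (m : K) ∈ C := fun m => Algebra.subset_adjoin m.2
  let q : Fin (Fintype.card (Fin p → T)) ≃ (Fin p → T) := (Fintype.equivFin _).symm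
  refine ⟨Fintype.card (Fin p → T), fun i => wf fun j => ((q i j : T) : K), fun i =>
    wf_mem fun j => hT _, ?_⟩
  intro v hv
  refine Submodule.span_induction (p := fun v _ => ∃ c : Fin (Fintype.card (Fin p → T)) → K,
    (∀ i, c i ∈ C) ∧ v = ∑ i, c i • wf (k := k) fun j => ((q i j : T) : K)) ?_ ?_ ?_ ?_ hv
  · rintro _ ⟨c, hc, a, ha, rfl⟩
    choose d hd1 hd2 using fun j => HE_D_adjoin (k := k) T (a j) (ha j)
    refine ⟨fun i => c * ∏ j, d j (q i j), fun i => C.mul_mem hc (C.prod_mem fun j _ => hd1 _ _),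
      ?_⟩
    rw [wf_expand_sum a (fun m : T => (m : K)) d hd2, Finset.smul_sum,
      ← Equiv.sum_comp q]
    refine Finset.sum_congr rfl fun i _ => ?_
    rw [smul_smul]
  · exact ⟨fun _ => 0, fun _ => C.zero_mem, by simp⟩
  · rintro x y _ _ ⟨c, hc, rfl⟩ ⟨d, hd, rfl⟩
    refine ⟨fun i => c i + d i, fun i => C.add_mem (hc i) (hd i), ?_⟩
    rw [← Finset.sum_add_distrib]
    refine Finset.sum_congr rfl fun i _ => ?_
    rw [add_smul]
  · rintro r x _ ⟨c, hc, rfl⟩
    refine ⟨fun i => algebraMap k K r * c i, fun i => C.mul_mem (C.algebraMap_mem r) (hc i), ?_⟩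
    rw [Finset.smul_sum]
    refine Finset.sum_congr rfl fun i _ => ?_
    rw [mul_smul]
    rfl

/-- Proof: `FC p C` is clearly `C`-stable and monotone.  Localization: for `x ∈ C'`, `s ∈ S`,
`s x ∈ C` we have `s² dx = s d(s x) - (s x) ds`.  Finiteness: if `C` is generated by
`c₁, ..., c_m` then `dx` is for each `x ∈ C` a `C`-linear combination of the `dc_i`, so
(`wf_expand_sum`) `FC p C` is generated over `C` by the forms `wf (c ∘ τ)`, `τ : Fin p → Fin m`. -/
theorem QC_FC : QC (E := EE k K p) (fun C => FC p C) where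
  stable C := HE_stable C
  mono C C' h := by
    refine Submodule.span_mono ?_
    rintro _ ⟨c, hc, a, ha, rfl⟩
    exact ⟨c, h hc, a, fun i => h (ha i), rfl⟩
  loc C C' _ S hS hx := HE_loc S hS hx
  fin C hC := HE_fin C hC

theorem FC_bot (hp : 1 ≤ p) : FC p (⊥ : Subalgebra k K) = ⊥ := by
  unfold FC
  rw [Submodule.span_eq_bot]
  rintro _ ⟨c, _, a, ha, rfl⟩
  have h1 : wf (k := k) a = 0 := by
    unfold wf
    refine (wedge (k := k) (K := K) p).map_coord_zero (⟨0, hp⟩ : Fin p) ?_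
    obtain ⟨r, hr⟩ := Algebra.mem_bot.1 (ha ⟨0, hp⟩)
    rw [← hr]
    exact Derivation.map_algebraMap _ r
  rw [h1, smul_zero]

theorem QC_self : QC (E := K) (fun C : Subalgebra k K => Subalgebra.toSubmodule C) where
  stable C a ha v hv := C.mul_mem ha hv
  mono C C' h := h
  loc C C' _ S _ hx v hv := hx v hv
  fin C _ := by
    refine ⟨1, fun _ => 1, fun _ => C.one_mem, fun v hv => ⟨fun _ => v, fun _ => hv, ?_⟩⟩
    simp

end Forms

section General

variable {k K : Type u} [Field k] [Field K] [Algebra k K] {E : Type*} [AddCommGroup E]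
  [Module k E] [Module K E] [IsScalarTower k K E] {F : Subalgebra k K → Submodule k E}

/-- Proof: otherwise the ideal of the `s ∈ C` with `s • v ∈ N` is contained in a maximal ideal;
take the localization `A` there (`exists_isLoc_of_prime`). -/
theorem mem_of_forall_loc {C : Subalgebra k K} {N : Submodule k E}
    (hN : ∀ a ∈ C, ∀ v ∈ N, a • v ∈ N) {v : E}
    (h : ∀ A, IsLoc C A → ∃ s ∈ C, s ≠ 0 ∧ s⁻¹ ∈ A ∧ s • v ∈ N) : v ∈ N := by
  let I : Ideal C :=
    { carrier := {s | (s : K) • v ∈ N}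
      add_mem' := by
        intro a b ha hb
        show ((a + b : C) : K) • v ∈ N
        rw [Subalgebra.coe_add, add_smul]
        exact N.add_mem ha hb
      zero_mem' := by
        show ((0 : C) : K) • v ∈ N
        rw [Subalgebra.coe_zero, zero_smul]
        exact N.zero_mem
      smul_mem' := by
        intro a b hb
        show ((a * b : C) : K) • v ∈ N
        rw [Subalgebra.coe_mul, mul_smul]
        exact hN a a.2 _ hb }
  by_contra hv
  have hI : I ≠ ⊤ := by
    intro hI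
    have h1 : (1 : C) ∈ I := by
      rw [hI]
      exact Submodule.mem_top
    have h2 : ((1 : C) : K) • v ∈ N := h1
    rw [Subalgebra.coe_one, one_smul] at h2
    exact hv h2
  obtain ⟨M, hM, hIM⟩ := Ideal.exists_le_maximal I hI
  obtain ⟨A, hA, h1, -⟩ := exists_isLoc_of_prime C M
  obtain ⟨s, hs, hs0, hsA, hsv⟩ := h A hA
  refine h1 ⟨s, hs⟩ hsA (fun h0 => hs0 (congrArg Subtype.val h0)) (hIM ?_)
  exact hsv

theorem HE_submonoid (C A : Subalgebra k K) : ∃ S : Submonoid K,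
    ∀ s, s ∈ S ↔ s ∈ C ∧ s ≠ 0 ∧ s⁻¹ ∈ A :=
  ⟨{ carrier := {s | s ∈ C ∧ s ≠ 0 ∧ s⁻¹ ∈ A}
     mul_mem' := by
       rintro a b ⟨ha, ha0, haA⟩ ⟨hb, hb0, hbA⟩
       exact ⟨C.mul_mem ha hb, mul_ne_zero ha0 hb0, by rw [mul_inv]; exact A.mul_mem haA hbA⟩
     one_mem' := ⟨C.one_mem, one_ne_zero, by rw [inv_one]; exact A.one_mem⟩ }, fun _ => Iff.rfl⟩

/-- the elements of `C` invertible in `A` form a submonoid -/
theorem QC.loc_pt (hF : QC F) {C A : Subalgebra k K} (h : IsLoc C A) {v : E} (hv : v ∈ F A) :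
    ∃ s ∈ C, s ≠ 0 ∧ s⁻¹ ∈ A ∧ s • v ∈ F C := by
  obtain ⟨S, hS⟩ := HE_submonoid C A
  obtain ⟨s, hs, h1⟩ := hF.loc C A h.1 S (fun s hs => ⟨((hS s).1 hs).1, ((hS s).1 hs).2.1⟩) (by
    intro x hx
    obtain ⟨r, hr, s, hs, hsA, rfl⟩ := h.2.2 x hx
    by_cases hs0 : s = 0
    · refine ⟨1, S.one_mem, ?_⟩
      rw [hs0, inv_zero, mul_zero, mul_zero]
      exact C.zero_mem
    · refine ⟨s, (hS s).2 ⟨hs, hs0, hsA⟩, ?_⟩
      have : s * (r * s⁻¹) = r := by
        field_simp
      rw [this]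
      exact hr) v hv
  obtain ⟨h2, h3, h4⟩ := (hS s).1 hs
  exact ⟨s, h2, h3, h4, h1⟩

theorem NS_stable {C : Subalgebra k K} {N : Submodule k E} (hN : ∀ a ∈ C, ∀ v ∈ N, a • v ∈ N)
    {p : ℕ} (y : Fin p → K) (l : ℕ) : ∀ a ∈ C, ∀ v ∈ NS N y l, a • v ∈ NS N y l := by
  rintro a ha _ ⟨w, hw, rfl⟩
  refine ⟨fun b => a • w b, fun b => hN a ha _ (hw b), ?_⟩
  rw [Finset.smul_sum]
  refine Finset.sum_congr rfl fun b _ => ?_
  rw [smul_comm]

theorem NS_mono {N N' : Submodule k E} (h : N ≤ N') {p : ℕ} (y : Fin p → K) (l : ℕ) :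
    NS N y l ≤ NS N' y l := by
  rintro _ ⟨w, hw, rfl⟩
  exact ⟨w, fun a => h (hw a), rfl⟩

theorem NS_le_of_le {N : Submodule k E} {p : ℕ} (y : Fin p → K) {l l' : ℕ} (h : l ≤ l') :
    NS N y l ≤ NS N y l' := by
  rintro _ ⟨w, hw, rfl⟩
  refine ⟨fun a => if (a : ℕ) < l then w a else 0, fun a => ?_, ?_⟩
  · beta_reduce
    split_ifs
    · exact hw a
    · exact N.zero_mem
  · rw [Finset.sum_filter, Finset.sum_filter]
    refine Finset.sum_congr rfl fun a _ => ?_
    beta_reduce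
    by_cases h1 : (a : ℕ) < l
    · rw [if_pos h1, if_pos (lt_of_lt_of_le h1 h), if_pos h1]
    · rw [if_neg h1, if_neg h1, smul_zero, ite_self]

theorem NS_zero {N : Submodule k E} {p : ℕ} (y : Fin p → K) : NS N y 0 = ⊥ := by
  rw [eq_bot_iff]
  rintro _ ⟨w, hw, rfl⟩
  rw [Finset.filter_false_of_mem (fun a _ => Nat.not_lt_zero _), Finset.sum_empty]
  exact Submodule.zero_mem _

theorem NS_le {C : Subalgebra k K} {N : Submodule k E} (hN : ∀ a ∈ C, ∀ v ∈ N, a • v ∈ N)
    {p : ℕ} {y : Fin p → K} (hy : ∀ a, y a ∈ C) (l : ℕ) : NS N y l ≤ N := by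
  rintro _ ⟨w, hw, rfl⟩
  exact Submodule.sum_mem _ fun a _ => hN _ (hy a) _ (hw a)

/-- multiplying `y` by a unit -/
theorem NS_unit {C : Subalgebra k K} {N : Submodule k E} (hN : ∀ a ∈ C, ∀ v ∈ N, a • v ∈ N)
    {p : ℕ} {y y' : Fin p → K} {θ : K} (h0 : θ ≠ 0) (h1 : θ ∈ C) (h2 : θ⁻¹ ∈ C)
    (h : ∀ a, y' a = θ * y a) (l : ℕ) : NS N y' l = NS N y l := by
  apply le_antisymm
  · rintro _ ⟨w, hw, rfl⟩
    refine ⟨fun b => θ • w b, fun b => hN θ h1 _ (hw b), ?_⟩
    refine Finset.sum_congr rfl fun b _ => ?_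
    rw [h, smul_smul, mul_comm]
  · rintro _ ⟨w, hw, rfl⟩
    refine ⟨fun b => θ⁻¹ • w b, fun b => hN _ h2 _ (hw b), ?_⟩
    refine Finset.sum_congr rfl fun b _ => ?_
    rw [h, smul_smul]
    congr 1
    field_simp

/-- the element `y a`, `a < l`, is a unit -/
theorem NS_of_unit {C : Subalgebra k K} {N : Submodule k E} (hN : ∀ a ∈ C, ∀ v ∈ N, a • v ∈ N)
    {p : ℕ} {y : Fin p → K} {a : Fin p} {l : ℕ} (hl : (a : ℕ) < l) (h0 : y a ≠ 0)
    (h2 : (y a)⁻¹ ∈ C) {v : E} (hv : v ∈ N) : v ∈ NS N y l := by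
  classical
  refine ⟨fun b => if b = a then (y a)⁻¹ • v else 0, fun b => ?_, ?_⟩
  · beta_reduce
    split_ifs
    · exact hN _ h2 _ hv
    · exact N.zero_mem
  · rw [Finset.sum_eq_single a]
    · beta_reduce
      rw [if_pos rfl, smul_smul, mul_inv_cancel₀ h0, one_smul]
    · intro b _ hb
      beta_reduce
      rw [if_neg hb, smul_zero]
    · intro h
      exact absurd (Finset.mem_filter.2 ⟨Finset.mem_univ a, hl⟩) h

/-- `NS N y (l + 1) = NS N y l + y_l N` -/
theorem NS_succ {N : Submodule k E} {p : ℕ} (y : Fin p → K) (l : Fin p) {v : E} :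
    v ∈ NS N y (l + 1) ↔ ∃ w ∈ N, ∃ w' ∈ NS N y l, v = y l • w + w' := by
  classical
  have hf : Finset.univ.filter (fun a : Fin p => (a : ℕ) < (l : ℕ) + 1) =
      insert l (Finset.univ.filter (fun a : Fin p => (a : ℕ) < l)) := by
    ext a
    simp only [Finset.mem_filter, Finset.mem_univ, true_and, Finset.mem_insert, Fin.ext_iff]
    omega
  have hn : l ∉ Finset.univ.filter (fun a : Fin p => (a : ℕ) < l) := by
    simp
  constructor
  · rintro ⟨w, hw, rfl⟩
    refine ⟨w l, hw l, _, ⟨w, hw, rfl⟩, ?_⟩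
    rw [hf, Finset.sum_insert hn]
  · rintro ⟨w, hw, _, ⟨w', hw', rfl⟩, rfl⟩
    refine ⟨fun a => if a = l then w else w' a, fun a => ?_, ?_⟩
    · beta_reduce
      split_ifs
      · exact hw
      · exact hw' a
    · rw [hf, Finset.sum_insert hn]
      beta_reduce
      rw [if_pos rfl]
      congr 1
      refine Finset.sum_congr rfl fun a ha => ?_
      rw [if_neg]
      rintro rfl
      exact hn ha

theorem QC.loc_NS (hF : QC F) {C A : Subalgebra k K} (h : IsLoc C A) {p : ℕ} {y : Fin p → K}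
    {l : ℕ} {v : E} (hv : v ∈ NS (F A) y l) :
    ∃ s ∈ C, s ≠ 0 ∧ s⁻¹ ∈ A ∧ s • v ∈ NS (F C) y l := by
  obtain ⟨w, hw, rfl⟩ := hv
  obtain ⟨S, hS⟩ := HE_submonoid C A
  obtain ⟨s, hs, h1⟩ := HE_common (C := C) S
    (fun s hs => ⟨((hS s).1 hs).1, ((hS s).1 hs).2.1⟩) (fun v => v ∈ F C)
    (fun a ha v hv => hF.stable C a ha v hv) Finset.univ w (by
      intro i _
      obtain ⟨s, h2, h3, h4, h5⟩ := hF.loc_pt h (hw i)
      exact ⟨s, (hS s).2 ⟨h2, h3, h4⟩, h5⟩)
  obtain ⟨h2, h3, h4⟩ := (hS s).1 hs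
  refine ⟨s, h2, h3, h4, fun b => s • w b, fun b => h1 b (Finset.mem_univ _), ?_⟩
  rw [Finset.smul_sum]
  refine Finset.sum_congr rfl fun b _ => ?_
  rw [smul_comm]

/-- local-global principle for `NS` -/
theorem QC.mem_NS_iff (hF : QC F) {C : Subalgebra k K} {p : ℕ} {y : Fin p → K} {l : ℕ} {v : E} :
    v ∈ NS (F C) y l ↔ ∀ A, IsLoc C A → v ∈ NS (F A) y l :=
  ⟨fun hv A hA => NS_mono (hF.mono C A hA.1) y l hv, fun h =>
    mem_of_forall_loc (NS_stable (hF.stable C) y l) fun A hA => hF.loc_NS hA (h A hA)⟩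

/-- local-global principle -/
theorem QC.mem_iff (hF : QC F) {C : Subalgebra k K} {v : E} :
    v ∈ F C ↔ ∀ A, IsLoc C A → v ∈ F A :=
  ⟨fun hv A hA => hF.mono C A hA.1 hv, fun h =>
    mem_of_forall_loc (hF.stable C) fun A hA => hF.loc_pt hA (h A hA)⟩

theorem FReg_unit {C : Subalgebra k K} {N : Submodule k E} (hN : ∀ a ∈ C, ∀ v ∈ N, a • v ∈ N)
    {p : ℕ} {y y' : Fin p → K} {θ : K} (h0 : θ ≠ 0) (h1 : θ ∈ C) (h2 : θ⁻¹ ∈ C)
    (h : ∀ a, y' a = θ * y a) (l : ℕ) (hreg : FReg N y l) : FReg N y' l := by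
  intro i hi v hv hyv
  rw [NS_unit hN h0 h1 h2 h i] at hyv ⊢
  refine hreg i hi v hv ?_
  have h3 := NS_stable hN y i θ⁻¹ h2 _ hyv
  rw [h, smul_smul, ← mul_assoc, inv_mul_cancel₀ h0, one_mul] at h3
  exact h3

end General

end Flip28
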