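import Pool.Agent.FlipB_h28.HE
import Pool.Agent.Flip_h28.Coord

/-! # Forms at smooth points -/

open scoped KaehlerDifferential

universe u

namespace Flip28

variable {k K : Type u} [Field k] [Field K] [Algebra k K] [CharZero k] {n : ℕ}
  (b : Module.Basis (Fin n) K Ω[K⁄k]) {p : ℕ}

section HF_aux

omit [CharZero k] in
theorem HF_ext {N : Type*} [AddCommGroup N] [Module K N] {f g : EE k K p →ₗ[K] N}
    (h : ∀ v, f (wedge p v) = g (wedge p v)) : f = g := by
  apply exteriorPower.linearMap_ext (R := K) (M := Ω[K⁄k])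
  ext v
  exact h v

/-- the linear map given by an alternating map -/
noncomputable def HF_lift {N : Type*} [AddCommGroup N] [Module K N]
    (g : Ω[K⁄k] [⋀^Fin p]→ₗ[K] N) : EE k K p →ₗ[K] N :=
  exteriorPower.alternatingMapLinearEquiv g

omit [CharZero k] in
theorem HF_lift_wedge {N : Type*} [AddCommGroup N] [Module K N]
    (g : Ω[K⁄k] [⋀^Fin p]→ₗ[K] N) (v : Fin p → Ω[K⁄k]) : HF_lift g (wedge p v) = g v :=
  exteriorPower.alternatingMapLinearEquiv_apply_ιMulti g v

omit [CharZero k] in
theorem HF_det_mem {A : Subalgebra k K} {M : Matrix (Fin p) (Fin p) K}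
    (h : ∀ i j, M i j ∈ A) : M.det ∈ A := by
  rw [Matrix.det_apply]
  refine A.sum_mem fun σ _ => ?_
  rw [Units.smul_def]
  exact zsmul_mem (A.prod_mem fun i _ => h _ _) _

omit [CharZero k] in
theorem HF_map_NS {E E' : Type*} [AddCommGroup E] [Module k E] [Module K E]
    [IsScalarTower k K E] [AddCommGroup E'] [Module k E'] [Module K E'] [IsScalarTower k K E']
    {N : Submodule k E} {N' : Submodule k E'} (Λ : E →ₗ[K] E') (h : ∀ v ∈ N, Λ v ∈ N')
    {m : ℕ} {y : Fin m → K} {l : ℕ} {v : E} (hv : v ∈ NS N y l) : Λ v ∈ NS N' y l := by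
  obtain ⟨w, hw, rfl⟩ := hv
  refine ⟨fun a => Λ (w a), fun a => h _ (hw a), ?_⟩
  rw [map_sum]
  exact Finset.sum_congr rfl fun a _ => map_smul _ _ _

end HF_aux

/-- For each `σ : Fin p → Fin n` there is a linear functional `λ_σ` on the `p`-forms with
`λ_σ (da₁ ∧ ... ∧ da_p) = det (D_{σ i} a_j)`, where `D₁, ..., D_n` are the derivations dual to
the coordinates `x`; it maps `FC p A` to `A`, and each form is recovered from these values.
Proof: the differentials `dx_i` are a basis of `Ω[K/k]` (`hx.ne`), the map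
`v ↦ det (coord_{σ i} v_j)` is alternating, so it factors through the exterior power
(`exteriorPower.alternatingMapLinearEquiv`).  It maps `c • wf a` to `c * det (D_{σ i} a_j) ∈ A`
because `D_i` maps `A` to `A` (`hx.span`).  Last formula: for `v = c • wf a`, by `wf_expand_sum`
`v = c • ∑_τ (∏_j D_{τ j} a_j) • wf (x ∘ τ)`, and
`∑_σ det (D_{σ i} a_j) • wf (x ∘ σ) = ∑_π ∑_σ sign π (∏_j D_{σ (π j)} a_j) wf (x ∘ σ) =
p! ∑_τ (∏_j D_{τ j} a_j) • wf (x ∘ τ)`, since `wf (x ∘ τ ∘ π⁻¹) = sign π wf (x ∘ τ)`; here every
element of `EE k K p` is a sum of such `v`. -/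
theorem IsCoord.exists_functionals {A : Subalgebra k K} {d : ℕ} {x : Fin n → K}
    (hx : IsCoord b A d x) : ∃ (D : Fin n → Derivation k K K)
      (Λ : (Fin p → Fin n) → EE k K p →ₗ[K] K),
      (∀ i, ∀ f ∈ A, D i f ∈ A) ∧ (∀ i j, D i (x j) = if i = j then 1 else 0) ∧
      (∀ σ (a : Fin p → K), Λ σ (wf a) = Matrix.det (Matrix.of fun i j => D (σ i) (a j))) ∧
      (∀ σ, ∀ v ∈ FC p A, Λ σ v ∈ A) ∧
      (∀ v : EE k K p, (Nat.factorial p : K) • v = ∑ σ, Λ σ v • wf (fun i => x (σ i))) := by
  classical
  have hu : IsUnit (b.det (fun i => KaehlerDifferential.D k K (x i))) := IsUnit.mk0 _ hx.ne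
  have hb := (Module.Basis.is_basis_iff_det b).2 hu
  let B : Module.Basis (Fin n) K Ω[K⁄k] := Module.Basis.mk hb.1 hb.2.ge
  have hB : ∀ j, B j = KaehlerDifferential.D k K (x j) := fun j => by
    simp [B]
  have key : ∀ i j, B.coord i (KaehlerDifferential.D k K (x j)) = if i = j then 1 else 0 := by
    intro i j
    rw [← hB j, Module.Basis.coord_apply, Module.Basis.repr_self, Finsupp.single_apply]
    simp [eq_comm]
  let g : (Fin p → Fin n) → Ω[K⁄k] [⋀^Fin p]→ₗ[K] K := fun σ =>
    Matrix.detRowAlternating.compLinearMap (LinearMap.pi fun i => B.coord (σ i))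
  have hg : ∀ σ v, g σ v = Matrix.det (Matrix.of fun i j => B.coord (σ i) (v j)) := by
    intro σ v
    rw [← Matrix.det_transpose]
    rfl
  have hDA : ∀ i, ∀ f ∈ A, ((B.coord i).compDer (KaehlerDifferential.D k K)) f ∈ A := by
    intro i f hf
    obtain ⟨a, ha, e⟩ := hx.span f hf
    have : ((B.coord i).compDer (KaehlerDifferential.D k K)) f = a i := by
      change B.coord i (KaehlerDifferential.D k K f) = a i
      rw [e, map_sum]
      simp only [map_smul, key, smul_eq_mul, mul_ite, mul_one, mul_zero]
      simp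
    rw [this]
    exact ha i
  have hΛ : ∀ σ (a : Fin p → K), HF_lift (g σ) (wf a) = Matrix.det (Matrix.of fun i j =>
      ((B.coord (σ i)).compDer (KaehlerDifferential.D k K)) (a j)) := by
    intro σ a
    unfold wf
    rw [HF_lift_wedge, hg]
    rfl
  refine ⟨fun i => (B.coord i).compDer (KaehlerDifferential.D k K), fun σ => HF_lift (g σ),
    hDA, fun i j => key i j, hΛ, ?_, ?_⟩
  · intro σ v hv
    induction hv using Submodule.span_induction with
    | mem v hv =>
      obtain ⟨c, hc, a, ha, rfl⟩ := hv
      rw [map_smul, hΛ, smul_eq_mul]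
      exact A.mul_mem hc (HF_det_mem fun i j => hDA _ _ (ha _))
    | zero =>
      rw [map_zero]
      exact A.zero_mem
    | add v w _ _ h1 h2 =>
      rw [map_add]
      exact A.add_mem h1 h2
    | smul c v _ h1 =>
      rw [LinearMap.map_smul_of_tower]
      exact A.smul_mem h1 c
  · let T : EE k K p →ₗ[K] EE k K p :=
      ∑ σ : Fin p → Fin n, (HF_lift (g σ)).smulRight (wf (k := k) (fun i => x (σ i)))
    have hT : T = (Nat.factorial p : K) • LinearMap.id := by
      apply HF_ext
      have h2 : T.compAlternatingMap (wedge p) =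
          ((Nat.factorial p : K) • (LinearMap.id : EE k K p →ₗ[K] EE k K p)).compAlternatingMap
            (wedge p) := by
        refine Module.Basis.ext_alternating B fun τ _ => ?_
        have e1 : ∀ ρ : Fin p → Fin n, wf (k := k) (fun i => x (ρ i)) =
            wedge p (fun i => B (ρ i)) := by
          intro ρ
          unfold wf
          congr 1
          funext i
          exact (hB _).symm
        change T (wedge p fun i => B (τ i)) = (Nat.factorial p : K) • wedge p fun i => B (τ i)
        have e2 : T (wedge p fun i => B (τ i)) = ∑ σ : Fin p → Fin n,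
            (g σ (fun i => B (τ i))) • wedge p (fun i => B (σ i)) := by
          simp only [T, LinearMap.sum_apply, LinearMap.smulRight_apply, HF_lift_wedge, e1]
        rw [e2]
        have e3 : ∀ σ : Fin p → Fin n, g σ (fun i => B (τ i)) =
            ∑ π : Equiv.Perm (Fin p), ((Equiv.Perm.sign π : ℤ) : K) *
              (if σ ∘ π = τ then 1 else 0) := by
          intro σ
          rw [hg, Matrix.det_apply']
          refine Finset.sum_congr rfl fun π _ => ?_
          congr 1
          have e4 : ∀ i, (Matrix.of fun i j => B.coord (σ i) (B (τ j))) (π i) i =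
              if σ (π i) = τ i then (1 : K) else 0 := by
            intro i
            rw [Matrix.of_apply, hB, key]
          simp only [e4]
          by_cases h : σ ∘ π = τ
          · rw [if_pos h]
            refine Finset.prod_eq_one fun i _ => ?_
            rw [if_pos]
            exact congrFun h i
          · rw [if_neg h]
            obtain ⟨i, hi⟩ := Function.ne_iff.1 h
            exact Finset.prod_eq_zero (Finset.mem_univ i) (if_neg hi)
        simp only [e3, Finset.sum_smul]
        rw [Finset.sum_comm]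
        have e5 : ∀ π : Equiv.Perm (Fin p), ∑ σ : Fin p → Fin n,
            (((Equiv.Perm.sign π : ℤ) : K) * (if σ ∘ π = τ then 1 else 0)) •
              wedge (k := k) p (fun i => B (σ i)) = wedge p (fun i => B (τ i)) := by
          intro π
          rw [Finset.sum_eq_single (τ ∘ π.symm)]
          · rw [if_pos (by
              funext i
              simp), mul_one]
            have e6 := (wedge (k := k) (K := K) p).map_perm (fun i => B (τ i)) π.symm
            have e7 : (fun i => B ((τ ∘ ⇑(Equiv.symm π)) i)) =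
              (fun i => B (τ i)) ∘ ⇑(Equiv.symm π) := rfl
            rw [e7, e6, Equiv.Perm.sign_symm, Units.smul_def, ← Int.cast_smul_eq_zsmul K,
              smul_smul, ← Int.cast_mul, Int.units_coe_mul_self, Int.cast_one, one_smul]
          · intro σ _ hσ
            rw [if_neg, mul_zero, zero_smul]
            intro h
            apply hσ
            rw [← h]
            funext i
            simp
          · intro h
            exact absurd (Finset.mem_univ _) h
        rw [Finset.sum_congr rfl fun π _ => e5 π, Finset.sum_const, Finset.card_univ,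
          Fintype.card_perm, Fintype.card_fin, Nat.cast_smul_eq_nsmul]
      intro v
      exact congrArg (fun f => f v) h2
    intro v
    have := congrArg (fun f => f v) hT
    simp only [T, LinearMap.sum_apply, LinearMap.smulRight_apply, LinearMap.smul_apply,
      LinearMap.id_apply] at this
    exact this.symm

theorem HF_mem_NS_of {A : Subalgebra k K} {d : ℕ} {x : Fin n → K} (hx : IsCoord b A d x)
    {m : ℕ} {y : Fin m → K} (l : ℕ) {v : EE k K p}
    (h : ∀ Λ : EE k K p →ₗ[K] K, (∀ w ∈ FC p A, Λ w ∈ A) →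
      Λ v ∈ NS (Subalgebra.toSubmodule A) y l) : v ∈ NS (FC p A) y l := by
  obtain ⟨D, Λ, -, -, -, h4, h5⟩ := hx.exists_functionals (p := p) b
  have h6 : (Nat.factorial p : K) • v ∈ NS (FC p A) y l := by
    rw [h5 v]
    refine Submodule.sum_mem _ fun σ _ => ?_
    obtain ⟨w, hw, e⟩ := h (Λ σ) (h4 σ)
    rw [e]
    refine ⟨fun a => w a • wf (fun i => x (σ i)), fun a =>
      wf_smul_mem (hw a) (fun i => hx.mem _), ?_⟩
    rw [Finset.sum_smul]
    exact Finset.sum_congr rfl fun a _ => smul_assoc _ _ _
  have h7 : v = ((Nat.factorial p : k)⁻¹) • ((Nat.factorial p : K) • v) := by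
    have h8 : (Nat.factorial p : K) • v = (Nat.factorial p : k) • v := by
      rw [Nat.cast_smul_eq_nsmul, Nat.cast_smul_eq_nsmul]
    have h9 : (Nat.factorial p : k) ≠ 0 := Nat.cast_ne_zero.2 (Nat.factorial_ne_zero p)
    rw [h8, smul_smul, inv_mul_cancel₀ h9, one_smul]
  rw [h7]
  exact Submodule.smul_mem _ _ h6

/-- At a smooth point `p`-forms are a free module: a sequence is regular for `FC p A` if and only
if it is regular for `A` (`p ≤ n`).  Proof: `exists_functionals`.  If `y l • v ∈ NS (FC p A) y l`,
apply `Λ σ`, use the regularity in `A`, and sum up (`p!` is invertible in `k`).  Conversely for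
`a ∈ A` with `y l * a ∈ NS A y l` take `v = a • wf (x ∘ σ₀)`, `σ₀` the inclusion
`Fin p → Fin n`, and `Λ σ₀ v = a`. -/
theorem IsCoord.freg_iff {A : Subalgebra k K} {d : ℕ} {x : Fin n → K} (hx : IsCoord b A d x)
    (hp : p ≤ n) {m : ℕ} {y : Fin m → K} (hy : ∀ a, y a ∈ A) (l : ℕ) :
    FReg (FC p A) y l ↔ FReg (Subalgebra.toSubmodule A) y l := by
  constructor
  · intro h i hi a ha hya
    obtain ⟨D, Λ, -, h2, h3, h4, -⟩ := hx.exists_functionals (p := p) b
    set w : EE k K p := wf (fun i => x (Fin.castLE hp i)) with hw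
    have h5 := h i hi (a • w) (wf_smul_mem ha fun i => hx.mem _) (by
      rw [smul_smul]
      obtain ⟨u, hu, e⟩ := hya
      rw [smul_eq_mul] at e
      rw [e]
      refine ⟨fun a => u a • w, fun a => wf_smul_mem (hu a) (fun i => hx.mem _), ?_⟩
      rw [Finset.sum_smul]
      exact Finset.sum_congr rfl fun a _ => smul_assoc _ _ _)
    have h6 := HF_map_NS (N' := Subalgebra.toSubmodule A) (Λ (Fin.castLE hp)) (h4 _) h5
    have h7 : Λ (Fin.castLE hp) w = 1 := by
      rw [hw, h3]
      have : (Matrix.of fun i j => D (Fin.castLE hp i) (x (Fin.castLE hp j))) =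
          (1 : Matrix (Fin p) (Fin p) K) := by
        ext i j
        rw [Matrix.of_apply, h2, Matrix.one_apply]
        simp only [Fin.castLE_inj]
      rw [this, Matrix.det_one]
    rw [map_smul, h7, smul_eq_mul, mul_one] at h6
    exact h6
  · intro h i hi v hv hyv
    refine HF_mem_NS_of b hx _ fun Λ hΛ => ?_
    have h6 := HF_map_NS (N' := Subalgebra.toSubmodule A) Λ hΛ hyv
    rw [map_smul] at h6
    exact h i hi _ (hΛ v hv) h6

/-- Proof: apply the functionals `Λ σ` to `v`. -/
theorem IsCoord.mem_NS_of {A : Subalgebra k K} {d : ℕ} {x : Fin n → K} (hx : IsCoord b A d x)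
    {m : ℕ} {y : Fin m → K} (l : ℕ) {v : EE k K p} (hv : v ∈ FC p A)
    (h : ∀ Λ : EE k K p →ₗ[K] K, (∀ w ∈ FC p A, Λ w ∈ A) →
      Λ v ∈ NS (Subalgebra.toSubmodule A) y l) : v ∈ NS (FC p A) y l :=
  HF_mem_NS_of b hx l h

end Flip28
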