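import Mathlib

/-! # Depth is well defined -/

namespace Flip28

open RingTheory.Sequence IsLocalRing

/-- Let `a`, `b` be `M`-regular elements of the ideal `I`, and let `I v ⊆ a M`, `v ∉ a M`.  Then
there is `v'` with `I v' ⊆ b M`, `v' ∉ b M`.  Proof: `b v = a v'`; if `v' = b w` then
`b v = a b w`, `v = a w`; for `i ∈ I`, `i v = a w`, `a (i v') = i b v = b a w`, so
`i v' = b w`. -/
theorem HG1_exchange {A M : Type*} [CommRing A] [AddCommGroup M] [Module A M] (I : Ideal A)
    {a b : A} (hb' : b ∈ I) (ha : IsSMulRegular M a) (hb : IsSMulRegular M b) {v : M}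
    (h1 : ∀ i ∈ I, ∃ w : M, i • v = a • w) (h2 : ¬ ∃ w : M, v = a • w) :
    ∃ v' : M, (∀ i ∈ I, ∃ w : M, i • v' = b • w) ∧ ¬ ∃ w : M, v' = b • w := by
  obtain ⟨v', hv'⟩ := h1 b hb'
  refine ⟨v', fun i hi => ?_, ?_⟩
  · obtain ⟨w, hw⟩ := h1 i hi
    refine ⟨w, ha ?_⟩
    show a • i • v' = a • b • w
    rw [smul_comm a i v', ← hv', smul_comm i b v, hw, smul_comm b a w]
  · rintro ⟨w, hw⟩
    apply h2
    refine ⟨w, hb ?_⟩
    show b • v = b • a • w
    rw [hv', hw, smul_comm a b w]

/-- Simultaneous prime avoidance for two modules. -/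
theorem HG1_avoid {A M N : Type*} [CommRing A] [IsNoetherianRing A] [AddCommGroup M] [Module A M]
    [Module.Finite A M] [AddCommGroup N] [Module A N] [Module.Finite A N] (I : Ideal A)
    (h1 : ∀ v : M, (∀ i ∈ I, i • v = 0) → v = 0) (h2 : ∀ v : N, (∀ i ∈ I, i • v = 0) → v = 0) :
    ∃ z ∈ I, IsSMulRegular M z ∧ IsSMulRegular N z := by
  have hs : Subsingleton ((A ⧸ I) →ₗ[A] (M × N)) := by
    refine subsingleton_of_forall_eq 0 fun f => ?_
    have h3 : ∀ i ∈ I, i • f 1 = 0 := by
      intro i hi
      rw [← map_smul]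
      have h4 : i • (1 : A ⧸ I) = 0 := by
        rw [Algebra.smul_def, mul_one]
        exact Ideal.Quotient.eq_zero_iff_mem.2 hi
      rw [h4, map_zero]
    have h5 : (f 1).1 = 0 := h1 _ fun i hi => by
      have := congrArg Prod.fst (h3 i hi)
      exact this
    have h6 : (f 1).2 = 0 := h2 _ fun i hi => by
      have := congrArg Prod.snd (h3 i hi)
      exact this
    have h7 : f 1 = 0 := Prod.ext h5 h6
    refine LinearMap.ext fun x => ?_
    obtain ⟨r, rfl⟩ := Ideal.Quotient.mk_surjective x
    have h8 : (Ideal.Quotient.mk I r) = r • (1 : A ⧸ I) := by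
      rw [Algebra.smul_def, mul_one]
      rfl
    rw [h8, map_smul, h7, smul_zero, LinearMap.zero_apply]
  obtain ⟨z, hz, hr⟩ := IsSMulRegular.subsingleton_linearMap_iff.1 hs
  rw [Ideal.annihilator_quotient] at hz
  refine ⟨z, hz, fun x y hxy => ?_, fun x y hxy => ?_⟩
  · have h9 : z • ((x, 0) : M × N) = z • (y, 0) := Prod.ext hxy rfl
    exact congrArg Prod.fst (hr h9)
  · have h9 : z • ((0, x) : M × N) = z • (0, y) := Prod.ext rfl hxy
    exact congrArg Prod.snd (hr h9)

theorem HG1_mk_zero {A M : Type*} [CommRing A] [AddCommGroup M] [Module A M] (a : A) (v : M) :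
    (Submodule.Quotient.mk v : QuotSMulTop a M) = 0 ↔ ∃ w : M, v = a • w := by
  rw [Submodule.Quotient.mk_eq_zero, Submodule.mem_smul_pointwise_iff_exists]
  constructor
  · rintro ⟨w, -, h⟩
    exact ⟨w, h.symm⟩
  · rintro ⟨w, h⟩
    exact ⟨w, Submodule.mem_top, h.symm⟩

/-- The exchange property of the depth. -/
theorem HG1_E {A : Type*} [CommRing A] [IsLocalRing A] [IsNoetherianRing A]
    (I : Ideal A) (hI : I ≤ maximalIdeal A) (p : ℕ) :
    ∀ (M : Type*) [AddCommGroup M] [Module A M] [Module.Finite A M] (f : List A),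
      f.length = p + 1 → (∀ x ∈ f, x ∈ I) → IsWeaklyRegular M f → ∀ a : A, a ∈ I →
        IsSMulRegular M a → ∃ f' : List A, f'.length = p ∧ (∀ x ∈ f', x ∈ I) ∧
          IsWeaklyRegular (QuotSMulTop a M) f' := by
  induction p with
  | zero =>
    intro M _ _ _ f _ _ _ a _ _
    exact ⟨[], rfl, fun x hx => absurd hx List.not_mem_nil, IsWeaklyRegular.nil A _⟩
  | succ p ih =>
    intro M _ _ _ f hlen hf rf a ha ra
    match f, hlen, hf, rf with
    | f₁ :: f₂ :: f₃, hlen, hf, rf =>
    have hf₁ : f₁ ∈ I := hf f₁ List.mem_cons_self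
    have hf₂ : f₂ ∈ I := hf f₂ (List.mem_cons_of_mem _ List.mem_cons_self)
    obtain ⟨r₁, r₂⟩ := (isWeaklyRegular_cons_iff M f₁ _).1 rf
    obtain ⟨r₃, -⟩ := (isWeaklyRegular_cons_iff _ f₂ _).1 r₂
    have hN : ∀ v : QuotSMulTop f₁ M, (∀ i ∈ I, i • v = 0) → v = 0 := by
      intro v hv
      apply r₃
      show f₂ • v = f₂ • 0
      rw [hv f₂ hf₂, smul_zero]
    have hM : ∀ v : QuotSMulTop a M, (∀ i ∈ I, i • v = 0) → v = 0 := by
      intro v hv
      obtain ⟨v, rfl⟩ := Submodule.Quotient.mk_surjective _ v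
      by_contra hne
      rw [HG1_mk_zero] at hne
      obtain ⟨v', h1, h2⟩ := HG1_exchange I hf₁ ra r₁ (v := v) (fun i hi => by
        have h3 := hv i hi
        rw [← Submodule.Quotient.mk_smul, HG1_mk_zero] at h3
        exact h3) hne
      apply h2
      rw [← HG1_mk_zero]
      refine hN _ fun i hi => ?_
      rw [← Submodule.Quotient.mk_smul, HG1_mk_zero]
      exact h1 i hi
    obtain ⟨z, hz, z1, z2⟩ := HG1_avoid I hM hN
    obtain ⟨g, g1, g2, g3⟩ := ih (QuotSMulTop f₁ M) (f₂ :: f₃) (by
      simp only [List.length_cons] at hlen ⊢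
      omega) (fun x hx => hf x (List.mem_cons_of_mem _ hx)) r₂ z hz z2
    have w1 : IsWeaklyRegular M (f₁ :: z :: g) :=
      IsWeaklyRegular.cons r₁ (IsWeaklyRegular.cons z2 g3)
    have w2 : IsWeaklyRegular M (z :: f₁ :: g) := by
      refine IsLocalRing.isWeaklyRegular_of_perm_of_subset_maximalIdeal w1
        (List.Perm.swap _ _ _) fun r hr => hI ?_
      rcases List.mem_cons.1 hr with rfl | hr
      · exact hf₁
      rcases List.mem_cons.1 hr with rfl | hr
      · exact hz
      · exact g2 r hr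
    obtain ⟨w3, w4⟩ := (isWeaklyRegular_cons_iff M z _).1 w2
    have w5 : IsWeaklyRegular M [a, z] :=
      IsWeaklyRegular.cons ra (IsWeaklyRegular.cons z1 (IsWeaklyRegular.nil A _))
    have w6 : IsWeaklyRegular M [z, a] := by
      refine IsLocalRing.isWeaklyRegular_of_perm_of_subset_maximalIdeal w5
        (List.Perm.swap _ _ _) fun r hr => hI ?_
      rcases List.mem_cons.1 hr with rfl | hr
      · exact ha
      rcases List.mem_cons.1 hr with rfl | hr
      · exact hz
      · exact absurd hr List.not_mem_nil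
    obtain ⟨-, w7⟩ := (isWeaklyRegular_cons_iff M z _).1 w6
    obtain ⟨w8, -⟩ := (isWeaklyRegular_cons_iff _ a _).1 w7
    obtain ⟨g', g1', g2', g3'⟩ := ih (QuotSMulTop z M) (f₁ :: g) (by
      simp only [List.length_cons]
      omega) (fun x hx => by
        rcases List.mem_cons.1 hx with rfl | hx
        · exact hf₁
        · exact g2 x hx) w4 a ha w8
    have w9 : IsWeaklyRegular M (z :: a :: g') :=
      IsWeaklyRegular.cons w3 (IsWeaklyRegular.cons w8 g3')
    have w10 : IsWeaklyRegular M (a :: z :: g') := by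
      refine IsLocalRing.isWeaklyRegular_of_perm_of_subset_maximalIdeal w9
        (List.Perm.swap _ _ _) fun r hr => hI ?_
      rcases List.mem_cons.1 hr with rfl | hr
      · exact hz
      rcases List.mem_cons.1 hr with rfl | hr
      · exact ha
      · exact g2' r hr
    obtain ⟨-, w11⟩ := (isWeaklyRegular_cons_iff M a _).1 w10
    refine ⟨z :: g', by rw [List.length_cons, g1'], fun x hx => ?_, w11⟩
    rcases List.mem_cons.1 hx with rfl | hx
    · exact hz
    · exact g2' x hx

open scoped Pointwise in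
/-- Membership in the submodule of a sequence, modulo the first element. -/
theorem HG1_mem_cons {A M : Type*} [CommRing A] [AddCommGroup M] [Module A M] (r : A)
    (rs : List A) (v : M) : v ∈ Ideal.ofList (r :: rs) • (⊤ : Submodule A M) ↔
      (Submodule.Quotient.mk v : QuotSMulTop r M) ∈
        Ideal.ofList rs • (⊤ : Submodule A (QuotSMulTop r M)) := by
  have h1 : Ideal.ofList rs • (⊤ : Submodule A (QuotSMulTop r M)) =
      Submodule.map (Submodule.mkQ (r • (⊤ : Submodule A M)))
        (Ideal.ofList rs • (⊤ : Submodule A M)) := by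
    rw [Submodule.map_smul'', Submodule.map_top, Submodule.range_mkQ]
  have h2 : (Submodule.Quotient.mk v : QuotSMulTop r M) =
      Submodule.mkQ (r • (⊤ : Submodule A M)) v := rfl
  rw [h1, h2, ← Submodule.mem_comap, Submodule.comap_map_mkQ, Ideal.ofList_cons_smul]

/-- The module version.  Kaplansky, Commutative Rings, Theorem 121.  Proof by induction on the
length `q` of `h`.  For `q = 0` the first element of `f` is regular on `M` and in `I`.  For
`q > 0` choose by prime avoidance (associated primes of finite modules over a noetherian ring are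
finitely many, and `I` is not contained in them because it contains a regular element) `z ∈ I`
regular on `M`, on `M / (h₁, ..., h_{q-1}) M` and on `M / (f₁, ..., f_{p-1}) M`.  By
`HG1_exchange` (for the module `M / (h₁, ..., h_{q-1}) M`, `a = h_q`, `b = z`) the statement for
`h` follows from the one for `h₁, ..., h_{q-1}, z`; permute (regular sequences in the maximal ideal
of a noetherian local ring may be permuted: `IsWeaklyRegular.of_perm_of_subset_jacobson_annihilator`
or `IsLocalRing.isRegular_of_perm`) and pass to the module `M / z M`, for which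
`h₁, ..., h_{q-1}` and `f₁, ..., f_{p-1}` are regular sequences. -/
theorem depth_module {A M : Type*} [CommRing A] [IsLocalRing A] [IsNoetherianRing A]
    [AddCommGroup M] [Module A M] [Module.Finite A M] (I : Ideal A) (hI : I ≤ maximalIdeal A)
    (f h : List A) (hf : ∀ x ∈ f, x ∈ I) (hh : ∀ x ∈ h, x ∈ I) (rf : IsWeaklyRegular M f)
    (rh : IsWeaklyRegular M h) (hlt : h.length < f.length) (v : M)
    (hv : ∀ x ∈ I, x • v ∈ Ideal.ofList h • (⊤ : Submodule A M)) :
    v ∈ Ideal.ofList h • (⊤ : Submodule A M) := by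
  induction h generalizing M f with
  | nil =>
    match f, hlt, hf, rf with
    | f₁ :: f₂, _, hf, rf =>
    have hf₁ : f₁ ∈ I := hf f₁ List.mem_cons_self
    obtain ⟨r₁, -⟩ := (isWeaklyRegular_cons_iff M f₁ _).1 rf
    have h1 := hv f₁ hf₁
    rw [Ideal.ofList_nil, Submodule.bot_smul, Submodule.mem_bot] at h1 ⊢
    apply r₁
    show f₁ • v = f₁ • 0
    rw [h1, smul_zero]
  | cons a h ih =>
    obtain ⟨ra, rh'⟩ := (isWeaklyRegular_cons_iff M a _).1 rh
    have haI : a ∈ I := hh a List.mem_cons_self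
    rw [List.length_cons] at hlt
    obtain ⟨p, hp⟩ : ∃ p, f.length = p + 1 := ⟨f.length - 1, by omega⟩
    obtain ⟨f', h1, h2, h3⟩ := HG1_E I hI p M f hp hf rf a haI ra
    rw [HG1_mem_cons]
    refine ih f' h2 (fun x hx => hh x (List.mem_cons_of_mem _ hx)) h3 rh' (by omega) _
      fun x hx => ?_
    rw [← Submodule.Quotient.mk_smul, ← HG1_mem_cons]
    exact hv x hx

/-- the case `M = A` -/
theorem depth_lemma {A : Type*} [CommRing A] [IsLocalRing A] [IsNoetherianRing A]
    (I : Ideal A) (hI : I ≤ maximalIdeal A) (f h : List A) (hf : ∀ x ∈ f, x ∈ I)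
    (hh : ∀ x ∈ h, x ∈ I) (rf : IsWeaklyRegular A f) (rh : IsWeaklyRegular A h)
    (hlt : h.length < f.length) (v : A) (hv : ∀ x ∈ I, x * v ∈ Ideal.ofList h) :
    v ∈ Ideal.ofList h := by
  have h1 : Ideal.ofList h • (⊤ : Submodule A A) = Ideal.ofList h := by
    rw [smul_eq_mul]
    exact Ideal.mul_top _
  have h2 := depth_module I hI f h hf hh rf rh hlt v fun x hx => by
    rw [h1]
    exact hv x hx
  rwa [h1] at h2

end Flip28
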