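import Mathlib

/-! # Determinants and regular sequences -/

namespace Flip28

open RingTheory.Sequence

/-- Cramer's rule: `det M * f l` is a combination of the entries of `M f`. -/
theorem det_mul_mem {A : Type*} [CommRing A] {p : ℕ} (M : Matrix (Fin p) (Fin p) A)
    (f : Fin p → A) (l : Fin p) : M.det * f l ∈ Ideal.span (Set.range (M.mulVec f)) := by
  have h : M.adjugate.mulVec (M.mulVec f) = M.det • f := by
    rw [Matrix.mulVec_mulVec, Matrix.adjugate_mul, Matrix.smul_mulVec, Matrix.one_mulVec]
  have h1 : M.det * f l = ∑ j, M.adjugate l j * (M.mulVec f) j := by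
    have h2 := congrFun h l
    rw [Pi.smul_apply, smul_eq_mul] at h2
    rw [← h2]
    rfl
  rw [h1]
  exact Ideal.sum_mem _ fun j _ => Ideal.mul_mem_left _ _ (Ideal.subset_span ⟨j, rfl⟩)

lemma HG2_ofList {A : Type*} [CommRing A] {p : ℕ} (f : Fin p → A) {x : A}
    (hx : x ∈ (Ideal.ofList (List.ofFn f) • (⊤ : Submodule A A))) :
    ∃ c : Fin p → A, x = ∑ i, c i * f i := by
  rw [smul_eq_mul, Ideal.mul_top, Ideal.ofList] at hx
  have h : {x | x ∈ List.ofFn f} = Set.range f := by
    ext y
    simp [List.mem_ofFn]
  rw [h] at hx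
  obtain ⟨c, hc⟩ := (Ideal.mem_span_range_iff_exists_fun).1 hx
  exact ⟨c, hc.symm⟩

/-- The relations of a weakly regular sequence are generated by the Koszul relations.
Induction on the length, for the last element. -/
theorem HG2_koszul {A : Type*} [CommRing A] {p : ℕ} (f : Fin p → A)
    (hf : IsWeaklyRegular A (List.ofFn f)) (w : Fin p → A) (hw : ∑ i, w i * f i = 0) :
    ∃ z : Fin p → Fin p → A, (∀ i j, z i j = - z j i) ∧ (∀ i, z i i = 0) ∧
      ∀ i, w i = ∑ j, z i j * f j := by
  induction p with
  | zero => exact ⟨fun _ _ => 0, fun i => i.elim0, fun i => i.elim0, fun i => i.elim0⟩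
  | succ p ih =>
    have htake : (List.ofFn f).take p = List.ofFn (fun i : Fin p => f i.castSucc) := by
      apply List.ext_getElem
      · simp
      · intro n h1 h2
        rw [List.getElem_take, List.getElem_ofFn, List.getElem_ofFn]
        rfl
    -- the initial part is weakly regular
    have hf' : IsWeaklyRegular A (List.ofFn (fun i : Fin p => f i.castSucc)) := by
      rw [isWeaklyRegular_iff] at hf ⊢
      intro i hi
      have hi' : i < p := by simpa using hi
      have h1 := hf i (by simp; omega)
      have h2 : (List.ofFn (fun i : Fin p => f i.castSucc)).take i = (List.ofFn f).take i := by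
        rw [← htake, List.take_take, min_eq_left hi'.le]
      have h3 : (List.ofFn (fun i : Fin p => f i.castSucc))[i] =
          (List.ofFn f)[i]'(by simp; omega) := by
        rw [List.getElem_ofFn, List.getElem_ofFn]
        rfl
      rw [h2, h3]
      exact h1
    have hlast := (isWeaklyRegular_iff A _).1 hf p (by simp)
    rw [Fin.sum_univ_castSucc] at hw
    have hget : (List.ofFn f)[p]'(by simp) = f (Fin.last p) := by
      rw [List.getElem_ofFn]
      rfl
    rw [hget, htake] at hlast
    -- the last coefficient is in the ideal of the others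
    have hmem : w (Fin.last p) ∈
        (Ideal.ofList (List.ofFn (fun i : Fin p => f i.castSucc)) • (⊤ : Submodule A A)) := by
      have h1 := (isSMulRegular_quotient_iff_mem_of_smul_mem _ _).1 hlast (w (Fin.last p))
      apply h1
      rw [smul_eq_mul, smul_eq_mul, Ideal.mul_top, mul_comm,
        eq_neg_of_add_eq_zero_right hw]
      refine neg_mem (Ideal.sum_mem _ fun i _ => Ideal.mul_mem_left _ _ ?_)
      refine Ideal.subset_span ?_
      show f i.castSucc ∈ List.ofFn (fun i : Fin p => f i.castSucc)
      rw [List.mem_ofFn]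
      exact ⟨i, rfl⟩
    obtain ⟨c, hc⟩ := HG2_ofList _ hmem
    obtain ⟨z, hz1, hz2, hz3⟩ := ih (fun i => f i.castSucc) hf'
      (fun i => w i.castSucc + c i * f (Fin.last p)) (by
        have h1 : ∑ i, (w (Fin.castSucc i) + c i * f (Fin.last p)) * f (Fin.castSucc i) =
            ∑ i, w (Fin.castSucc i) * f (Fin.castSucc i) +
              (∑ i, c i * f (Fin.castSucc i)) * f (Fin.last p) := by
          rw [Finset.sum_mul, ← Finset.sum_add_distrib]
          exact Finset.sum_congr rfl fun i _ => by ring
        rw [h1, ← hc]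
        exact hw)
    refine ⟨Fin.snoc (fun i => Fin.snoc (z i) (-(c i))) (Fin.snoc c 0), ?_, ?_, ?_⟩
    · intro i j
      refine Fin.lastCases ?_ (fun i' => ?_) i <;> refine Fin.lastCases ?_ (fun j' => ?_) j
      · simp
      · simp
      · simp
      · simp only [Fin.snoc_castSucc]
        exact hz1 i' j'
    · intro i
      refine Fin.lastCases ?_ (fun i' => ?_) i
      · simp
      · simp only [Fin.snoc_castSucc]
        exact hz2 i'
    · intro i
      refine Fin.lastCases ?_ (fun i' => ?_) i
      · rw [Fin.sum_univ_castSucc]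
        simp only [Fin.snoc_castSucc, Fin.snoc_last]
        rw [hc]
        ring
      · rw [Fin.sum_univ_castSucc]
        simp only [Fin.snoc_castSucc, Fin.snoc_last]
        have h1 := hz3 i'
        linear_combination h1

/-- the determinant with the row `i` replaced -/
lemma HG2_row {A : Type*} [CommRing A] {p : ℕ} (M : Matrix (Fin p) (Fin p) A) (i : Fin p)
    (w : Fin p → A) : (M.updateRow i w).det = ∑ j, M.adjugate j i * w j := by
  rw [← Matrix.cramer_transpose_apply, Matrix.cramer_eq_adjugate_mulVec,
    ← Matrix.adjugate_transpose]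
  rfl

lemma HG2_cramer {A : Type*} [CommRing A] {p : ℕ} (N : Matrix (Fin p) (Fin p) A)
    (f u : Fin p → A) :
    N.det * (∑ j, u j * f j) = ∑ k, (N.updateRow k u).det * (N.mulVec f) k := by
  have h : N.adjugate.mulVec (N.mulVec f) = N.det • f := by
    rw [Matrix.mulVec_mulVec, Matrix.adjugate_mul, Matrix.smul_mulVec, Matrix.one_mulVec]
  have h1 : ∀ j, N.det * f j = ∑ k, N.adjugate j k * (N.mulVec f) k := by
    intro j
    have h2 := congrFun h j
    rw [Pi.smul_apply, smul_eq_mul] at h2
    rw [← h2]
    rfl
  calc N.det * (∑ j, u j * f j) = ∑ j, u j * (N.det * f j) := by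
        rw [Finset.mul_sum]
        exact Finset.sum_congr rfl fun j _ => by ring
    _ = ∑ j, ∑ k, u j * (N.adjugate j k * (N.mulVec f) k) := by
        refine Finset.sum_congr rfl fun j _ => ?_
        rw [h1 j, Finset.mul_sum]
    _ = ∑ k, ∑ j, u j * (N.adjugate j k * (N.mulVec f) k) := Finset.sum_comm
    _ = _ := by
        refine Finset.sum_congr rfl fun k _ => ?_
        rw [HG2_row, Finset.sum_mul]
        exact Finset.sum_congr rfl fun j _ => by ring

/-- the basic identity for two vectors in the row `i` -/
lemma HG2_two {A : Type*} [CommRing A] {p : ℕ} (M : Matrix (Fin p) (Fin p) A) (i : Fin p)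
    (f u v : Fin p → A) :
    (M.updateRow i v).det * (∑ j, u j * f j) - (M.updateRow i u).det * (∑ j, v j * f j) ∈
      Ideal.span (Set.range (M.mulVec f)) := by
  classical
  rw [HG2_cramer, ← Finset.add_sum_erase _ _ (Finset.mem_univ i)]
  have h1 : ((M.updateRow i v).updateRow i u).det * ((M.updateRow i v).mulVec f) i =
      (M.updateRow i u).det * (∑ j, v j * f j) := by
    rw [Matrix.updateRow_idem]
    congr 1
    simp [Matrix.mulVec, dotProduct]
  rw [h1, add_sub_cancel_left]
  refine Ideal.sum_mem _ fun k hk => Ideal.mul_mem_left _ _ ?_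
  have h2 : ((M.updateRow i v).mulVec f) k = (M.mulVec f) k := by
    simp [Matrix.mulVec, dotProduct, Matrix.updateRow_ne (Finset.ne_of_mem_erase hk)]
  rw [h2]
  exact Ideal.subset_span ⟨k, rfl⟩

/-- one row -/
lemma HG2_one {A : Type*} [CommRing A] {p : ℕ} (f : Fin p → A)
    (hf : IsWeaklyRegular A (List.ofFn f)) (M : Matrix (Fin p) (Fin p) A) (i : Fin p)
    (w : Fin p → A) (hw : ∑ j, w j * f j = 0) :
    (M.updateRow i w).det ∈ Ideal.span (Set.range (M.mulVec f)) := by
  classical
  obtain ⟨z, hz1, hz2, hz3⟩ := HG2_koszul f hf w hw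
  have key : ∀ j l, f l * M.adjugate j i - f j * M.adjugate l i ∈
      Ideal.span (Set.range (M.mulVec f)) := by
    intro j l
    have h := HG2_two M i f (Pi.single l 1) (Pi.single j 1)
    rw [HG2_row, HG2_row] at h
    simp only [Pi.single_apply, ite_mul, one_mul, zero_mul, mul_ite, mul_one, mul_zero,
      Finset.sum_ite_eq', Finset.mem_univ, if_true] at h
    rw [mul_comm (f l), mul_comm (f j)]
    exact h
  rw [← Ideal.Quotient.eq_zero_iff_mem, HG2_row]
  obtain ⟨π, hπ⟩ : ∃ π : A →+* A ⧸ Ideal.span (Set.range (M.mulVec f)),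
      π = Ideal.Quotient.mk _ := ⟨_, rfl⟩
  have hsym : ∀ j l, π (f l) * π (M.adjugate j i) = π (f j) * π (M.adjugate l i) := by
    intro j l
    have h := key j l
    rw [← Ideal.Quotient.eq_zero_iff_mem, ← hπ, map_sub, map_mul, map_mul, sub_eq_zero] at h
    exact h
  rw [← hπ, map_sum]
  have h2 : ∑ j, π (M.adjugate j i * w j) =
      ∑ q ∈ (Finset.univ : Finset (Fin p × Fin p)),
        π (z q.1 q.2) * (π (f q.2) * π (M.adjugate q.1 i)) := by
    rw [← Finset.univ_product_univ, Finset.sum_product]
    refine Finset.sum_congr rfl fun j _ => ?_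
    rw [hz3 j, map_mul, map_sum, Finset.mul_sum]
    refine Finset.sum_congr rfl fun l _ => ?_
    rw [map_mul]
    ring
  rw [h2]
  refine Finset.sum_involution (fun q _ => (q.2, q.1)) ?_ ?_ ?_ ?_
  · intro q _
    rw [hz1 q.2 q.1, hsym q.1 q.2, map_neg]
    ring
  · intro q _ hq heq
    apply hq
    have : q.1 = q.2 := (congrArg Prod.snd heq)
    rw [this, hz2, map_zero, zero_mul]
  · intro q _
    exact Finset.mem_univ _
  · intro q _
    rfl

/-- Proof: change one row at a time.  Let `M`, `M'` differ only in the row `i` and let `w` be the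
difference of these rows; `∑ w j * f j = 0`, so by `HG2_koszul` `w` is a combination of the
vectors `f a e_c - f c e_a`, `a ≠ c`; let `D` be the determinant of `M` with the row `i` replaced by
such a vector.  Then `D` is in the ideal generated by the other entries of `M f` (an identity
between polynomials: expanding, `D = f a C_c - f c C_a` with cofactors `C` of the row `i`, and
`f a C_c - f c C_a` is up to sign the determinant of the matrix obtained from `M` by deleting the row
`i` and the column `c` and replacing the column `a` by `M f`). -/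
theorem det_sub_mem {A : Type*} [CommRing A] {p : ℕ} (f : Fin p → A)
    (hf : IsWeaklyRegular A (List.ofFn f)) (M M' : Matrix (Fin p) (Fin p) A)
    (h : M.mulVec f = M'.mulVec f) : M.det - M'.det ∈ Ideal.span (Set.range (M.mulVec f)) := by
  classical
  let N : ℕ → Matrix (Fin p) (Fin p) A := fun s => Matrix.of fun k => if (k : ℕ) < s then M' k else M k
  have hN : ∀ s, (N s).mulVec f = M.mulVec f := by
    intro s
    funext k
    by_cases hk : (k : ℕ) < s
    · have h1 : N s k = M' k := by
        show (if (k : ℕ) < s then M' k else M k) = M' k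
        rw [if_pos hk]
      have h2 : ((N s).mulVec f) k = (M'.mulVec f) k := by
        show N s k ⬝ᵥ f = M' k ⬝ᵥ f
        rw [h1]
      rw [h2, h]
    · have h1 : N s k = M k := by
        show (if (k : ℕ) < s then M' k else M k) = M k
        rw [if_neg hk]
      show N s k ⬝ᵥ f = M k ⬝ᵥ f
      rw [h1]
  have h0 : N 0 = M := by
    ext k j
    show (if (k : ℕ) < 0 then M' k else M k) j = M k j
    rw [if_neg (Nat.not_lt_zero _)]
  have hp : N p = M' := by
    ext k j
    show (if (k : ℕ) < p then M' k else M k) j = M' k j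
    rw [if_pos k.2]
  have hstep : ∀ s, s ≤ p → (N 0).det - (N s).det ∈ Ideal.span (Set.range (M.mulVec f)) := by
    intro s
    induction s with
    | zero => intro _; rw [sub_self]; exact Ideal.zero_mem _
    | succ s ih =>
      intro hs
      have h1 := ih (by omega)
      have hupd : N (s + 1) = (N s).updateRow ⟨s, hs⟩ (M' ⟨s, hs⟩) := by
        ext k j
        by_cases hk : k = ⟨s, hs⟩
        · rw [hk, Matrix.updateRow_self]
          show (if ((⟨s, hs⟩ : Fin p) : ℕ) < s + 1 then M' ⟨s, hs⟩ else M ⟨s, hs⟩) j = _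
          rw [if_pos (Nat.lt_succ_self s)]
        · rw [Matrix.updateRow_ne hk]
          have hk' : (k : ℕ) ≠ s := fun h => hk (Fin.ext h)
          show (if (k : ℕ) < s + 1 then M' k else M k) j = (if (k : ℕ) < s then M' k else M k) j
          by_cases hlt : (k : ℕ) < s
          · rw [if_pos hlt, if_pos (by omega)]
          · rw [if_neg hlt, if_neg (by omega)]
      have hNs : (N s).det = ((N s).updateRow ⟨s, hs⟩ ((N s) ⟨s, hs⟩)).det := by
        rw [Matrix.updateRow_eq_self]
      have hd : (N s).det - (N (s + 1)).det =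
          ((N s).updateRow ⟨s, hs⟩ ((N s) ⟨s, hs⟩ - M' ⟨s, hs⟩)).det := by
        rw [hupd, HG2_row (N s) ⟨s, hs⟩ ((N s) ⟨s, hs⟩ - M' ⟨s, hs⟩), HG2_row]
        conv_lhs => rw [hNs, HG2_row]
        rw [← Finset.sum_sub_distrib]
        exact Finset.sum_congr rfl fun j _ => by rw [Pi.sub_apply]; ring
      have h2 : (N s).det - (N (s + 1)).det ∈ Ideal.span (Set.range (M.mulVec f)) := by
        rw [hd, ← hN s]
        refine HG2_one f hf _ _ _ ?_
        have e1 : ∑ j, ((N s) ⟨s, hs⟩ - M' ⟨s, hs⟩) j * f j =
            ((N s).mulVec f) ⟨s, hs⟩ - (M'.mulVec f) ⟨s, hs⟩ := by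
          simp only [Matrix.mulVec, dotProduct, Pi.sub_apply]
          rw [← Finset.sum_sub_distrib]
          exact Finset.sum_congr rfl fun j _ => by ring
        rw [e1, hN s, h, sub_self]
      have h3 := Ideal.add_mem _ h1 h2
      rwa [sub_add_sub_cancel] at h3
  have hfin := hstep p le_rfl
  rwa [h0, hp] at hfin

end Flip28
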