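import Pool.Agent.FlipB_h28.HF
import Pool.Agent.FlipB_h28.HG1
import Pool.Agent.FlipB_h28.HG2

/-! # Local algebra in terms of subalgebras of `K` -/

open scoped KaehlerDifferential

universe u

namespace Flip28

variable {k K : Type u} [Field k] [Field K] [Algebra k K] {p : ℕ}

section HG3_aux

open RingTheory.Sequence

theorem HG3_smul_mem {E : Type*} [AddCommGroup E] [Module k E] [Module K E]
    [IsScalarTower k K E] {N : Submodule k E} {m : ℕ} {y : Fin m → K} {l : ℕ} {w : E}
    (hw : w ∈ N) (a : Fin m) (h : (a : ℕ) < l) : y a • w ∈ NS N y l := by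
  classical
  refine ⟨Pi.single a w, fun i => ?_, ?_⟩
  · by_cases hi : i = a
    · subst hi
      rw [Pi.single_eq_same]
      exact hw
    · rw [Pi.single_eq_of_ne hi]
      exact N.zero_mem
  · rw [Finset.sum_eq_single a]
    · rw [Pi.single_eq_same]
    · intro i _ hi
      rw [Pi.single_eq_of_ne hi, smul_zero]
    · intro h'
      exact (h' (Finset.mem_filter.2 ⟨Finset.mem_univ _, h⟩)).elim

theorem HG3_smul_NS {A : Subalgebra k K} {m : ℕ} {y : Fin m → K} {l : ℕ} {a : K}
    (ha : a ∈ NS (Subalgebra.toSubmodule A) y l) {v : EE k K p} (hv : v ∈ FC p A) :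
    a • v ∈ NS (FC p A) y l := by
  obtain ⟨w, hw, rfl⟩ := ha
  refine ⟨fun i => w i • v, fun i => QC_FC.stable A _ (hw i) v hv, ?_⟩
  rw [Finset.sum_smul]
  exact Finset.sum_congr rfl fun a _ => smul_assoc _ _ _

/-- the ideal of the elements of `∑ y a A` -/
def HG3_J (A : Subalgebra k K) {m : ℕ} (y : Fin m → K) (l : ℕ) : Ideal A where
  carrier := {a | (a : K) ∈ NS (Subalgebra.toSubmodule A) y l}
  add_mem' ha hb := Submodule.add_mem (NS (Subalgebra.toSubmodule A) y l) ha hb
  zero_mem' := Submodule.zero_mem (NS (Subalgebra.toSubmodule A) y l)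
  smul_mem' c _ ha := NS_stable (C := A) (fun _ h _ h' => A.mul_mem h h') _ _ _ c.2 _ ha

theorem HG3_mem {A : Subalgebra k K} {m : ℕ} (y : Fin m → A) (l : ℕ) (a : A) :
    (a : K) ∈ NS (Subalgebra.toSubmodule A) (fun i => (y i : K)) l ↔
      a ∈ Ideal.ofList ((List.ofFn y).take l) := by
  constructor
  · rintro ⟨w, hw, e⟩
    have e2 : a = ∑ i ∈ Finset.univ.filter (fun i : Fin m => (i : ℕ) < l),
        (⟨w i, hw i⟩ : A) * y i := by
      apply Subtype.ext
      rw [e, AddSubmonoidClass.coe_finsetSum]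
      exact Finset.sum_congr rfl fun i _ => mul_comm _ _
    rw [e2]
    refine Ideal.sum_mem _ fun i hi => Ideal.mul_mem_left _ _ (Ideal.subset_span ?_)
    change y i ∈ (List.ofFn y).take l
    rw [List.mem_take_iff_getElem]
    refine ⟨i, ?_, ?_⟩
    · rw [List.length_ofFn]
      exact lt_min (Finset.mem_filter.1 hi).2 i.2
    · rw [List.getElem_ofFn]
  · intro h
    have h2 : Ideal.ofList ((List.ofFn y).take l) ≤ HG3_J A (fun i => (y i : K)) l := by
      refine Ideal.span_le.2 ?_
      intro r hr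
      change r ∈ (List.ofFn y).take l at hr
      rw [List.mem_take_iff_getElem] at hr
      obtain ⟨i, hi, e⟩ := hr
      have hil : i < l := lt_of_lt_of_le hi (min_le_left _ _)
      have him : i < m := by
        have := lt_of_lt_of_le hi (min_le_right _ _)
        rwa [List.length_ofFn] at this
      rw [List.getElem_ofFn] at e
      change (r : K) ∈ NS (Subalgebra.toSubmodule A) (fun i => (y i : K)) l
      have := HG3_smul_mem (y := fun i => (y i : K)) (l := l)
        (N := Subalgebra.toSubmodule A) (w := (1 : K)) A.one_mem ⟨i, him⟩ hil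
      rw [smul_eq_mul, mul_one] at this
      rw [← e]
      exact this
    exact h2 h

theorem HG3_freg {A : Subalgebra k K} {m : ℕ} (y : Fin m → A) (l : ℕ) :
    FReg (Subalgebra.toSubmodule A) (fun i => (y i : K)) l ↔
      IsWeaklyRegular A ((List.ofFn y).take l) := by
  have key : ∀ i : Fin m, (∀ v ∈ Subalgebra.toSubmodule A, (y i : K) • v ∈
      NS (Subalgebra.toSubmodule A) (fun i => (y i : K)) i →
        v ∈ NS (Subalgebra.toSubmodule A) (fun i => (y i : K)) i) ↔
      IsSMulRegular (A ⧸ (Ideal.ofList ((List.ofFn y).take i) • ⊤ : Submodule A A)) (y i) := by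
    intro i
    rw [isSMulRegular_quotient_iff_mem_of_smul_mem, smul_eq_mul, Ideal.mul_top]
    constructor
    · intro h v hv
      rw [← HG3_mem] at hv ⊢
      exact h v v.2 hv
    · intro h v hv hyv
      have := h ⟨v, hv⟩
      rw [← HG3_mem, ← HG3_mem] at this
      exact this hyv
  constructor
  · intro h
    refine ⟨fun i hi => ?_⟩
    rw [List.length_take, List.length_ofFn] at hi
    have hil : i < l := lt_of_lt_of_le hi (min_le_left _ _)
    have him : i < m := lt_of_lt_of_le hi (min_le_right _ _)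
    rw [List.take_take, min_eq_left hil.le, List.getElem_take, List.getElem_ofFn]
    exact (key ⟨i, him⟩).1 (h ⟨i, him⟩ hil)
  · intro h i hi
    refine (key i).2 ?_
    have hlen : (i : ℕ) < ((List.ofFn y).take l).length := by
      rw [List.length_take, List.length_ofFn]
      exact lt_min hi i.2
    have := h.regular_mod_prev i hlen
    rw [List.take_take, min_eq_left hi.le, List.getElem_take, List.getElem_ofFn] at this
    exact this

theorem HG3_take_all {A : Type*} {m : ℕ} (y : Fin m → A) :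
    (List.ofFn y).take m = List.ofFn y :=
  List.take_of_length_le (by rw [List.length_ofFn])

theorem HG3_ofList {A : Type*} [CommRing A] {m : ℕ} (y : Fin m → A) :
    Ideal.ofList (List.ofFn y) = Ideal.span (Set.range y) := by
  have : {r | r ∈ List.ofFn y} = Set.range y := by
    ext r
    exact List.mem_ofFn
  rw [Ideal.ofList, this]

theorem HG3_det_smul (f : Fin p → K) (M : Matrix (Fin p) (Fin p) K) :
    ∑ ρ : Fin p → Fin p, (∏ j, M j (ρ j)) • wf (k := k) (fun j => f (ρ j)) =
      M.det • wf f := by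
  classical
  rw [← Matrix.det_transpose, Matrix.det_apply', Finset.sum_smul]
  symm
  refine Finset.sum_of_injOn (fun π : Equiv.Perm (Fin p) => (π : Fin p → Fin p)) ?_ ?_ ?_ ?_
  · intro π _ π' _ h
    exact DFunLike.coe_injective h
  · intro π _
    exact Finset.mem_coe.2 (Finset.mem_univ _)
  · intro ρ _ hρ
    have hni : ¬ Function.Injective ρ := by
      intro hi
      apply hρ
      refine ⟨Equiv.ofBijective ρ (Finite.injective_iff_bijective.1 hi), ?_, rfl⟩
      exact Finset.mem_coe.2 (Finset.mem_univ _)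
    rw [Function.Injective] at hni
    push Not at hni
    obtain ⟨i, j, hij, hne⟩ := hni
    have : wf (k := k) (fun j => f (ρ j)) = 0 := by
      unfold wf
      refine AlternatingMap.map_eq_zero_of_eq _ _ (i := i) (j := j) ?_ hne
      simp only [hij]
    rw [this, smul_zero]
  · intro π _
    have e1 : wf (k := k) (fun j => f (π j)) = ((Equiv.Perm.sign π : ℤ) : K) • wf f := by
      have := (wedge (k := k) (K := K) p).map_perm
        (fun i => KaehlerDifferential.D k K (f i)) π
      unfold wf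
      rw [Int.cast_smul_eq_zsmul, ← Units.smul_def, ← this]
      rfl
    rw [e1, smul_smul, mul_comm]
    rfl

theorem HG3_coe_det {A : Subalgebra k K} (N : Matrix (Fin p) (Fin p) A) :
    ((N.det : A) : K) = (Matrix.of fun i j => (N i j : K)).det :=
  AlgHom.map_det A.val N

end HG3_aux

/-- translation -/
theorem freg_iff_isWeaklyRegular {A : Subalgebra k K} {m : ℕ} (y : Fin m → A) :
    FReg (Subalgebra.toSubmodule A) (fun i => (y i : K)) m ↔
      RingTheory.Sequence.IsWeaklyRegular A (List.ofFn y) := by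
  have := HG3_freg y m
  rwa [HG3_take_all] at this

/-- translation -/
theorem mem_NS_iff_span {A : Subalgebra k K} {m : ℕ} (y : Fin m → A) (a : A) :
    (a : K) ∈ NS (Subalgebra.toSubmodule A) (fun i => (y i : K)) m ↔
      a ∈ Ideal.span (Set.range y) := by
  have := HG3_mem y m a
  rwa [HG3_take_all, HG3_ofList] at this

/-- `det_sub_mem` -/
theorem det_sub_NS {A : Subalgebra k K} {f : Fin p → K} (hfA : ∀ i, f i ∈ A)
    (hf : FReg (Subalgebra.toSubmodule A) f p) {M M' : Matrix (Fin p) (Fin p) K}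
    (hM : ∀ i j, M i j ∈ A) (hM' : ∀ i j, M' i j ∈ A)
    (h : ∀ i, ∑ l, M i l * f l = ∑ l, M' i l * f l) {y : Fin p → K}
    (hy : ∀ i, y i = ∑ l, M i l * f l) :
    M.det - M'.det ∈ NS (Subalgebra.toSubmodule A) y p := by
  have h1 := det_sub_mem (A := A) (fun i => ⟨f i, hfA i⟩)
    ((freg_iff_isWeaklyRegular (A := A) (fun i => ⟨f i, hfA i⟩)).1 hf)
    (Matrix.of fun i j => ⟨M i j, hM i j⟩) (Matrix.of fun i j => ⟨M' i j, hM' i j⟩) (by
      funext i
      apply Subtype.ext
      change A.val _ = A.val _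
      simp only [Matrix.mulVec, dotProduct, map_sum, map_mul]
      exact h i)
  rw [← mem_NS_iff_span] at h1
  have h2 : (fun i => ((Matrix.mulVec (Matrix.of fun i j => (⟨M i j, hM i j⟩ : A))
      (fun i => (⟨f i, hfA i⟩ : A)) i : A) : K)) = y := by
    funext i
    rw [hy i]
    change A.val _ = _
    simp only [Matrix.mulVec, dotProduct, map_sum, map_mul]
    rfl
  rw [h2] at h1
  have h3 : (((Matrix.of fun i j => (⟨M i j, hM i j⟩ : A)).det -
      (Matrix.of fun i j => (⟨M' i j, hM' i j⟩ : A)).det : A) : K) = M.det - M'.det := by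
    rw [AddSubgroupClass.coe_sub, HG3_coe_det, HG3_coe_det]
    rfl
  rw [h3] at h1
  exact h1

/-- Cramer's rule -/
theorem det_mul_NS {A : Subalgebra k K} {f : Fin p → K} (hfA : ∀ i, f i ∈ A)
    {M : Matrix (Fin p) (Fin p) K} (hM : ∀ i j, M i j ∈ A) {y : Fin p → K}
    (hy : ∀ i, y i = ∑ l, M i l * f l) (l : Fin p) :
    M.det * f l ∈ NS (Subalgebra.toSubmodule A) y p := by
  have h1 := det_mul_mem (A := A) (Matrix.of fun i j => ⟨M i j, hM i j⟩)
    (fun i => ⟨f i, hfA i⟩) l
  rw [← mem_NS_iff_span] at h1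
  have h2 : (fun i => ((Matrix.mulVec (Matrix.of fun i j => (⟨M i j, hM i j⟩ : A))
      (fun i => (⟨f i, hfA i⟩ : A)) i : A) : K)) = y := by
    funext i
    rw [hy i]
    change A.val _ = _
    simp only [Matrix.mulVec, dotProduct, map_sum, map_mul]
    rfl
  rw [h2] at h1
  have h3 : (((Matrix.of fun i j => (⟨M i j, hM i j⟩ : A)).det * ⟨f l, hfA l⟩ : A) : K) =
      M.det * f l := by
    rw [MulMemClass.coe_mul, HG3_coe_det]
    rfl
  rw [h3] at h1
  exact h1

/-- Expansion.  Proof: `d(y_a) = ∑ M_{al} df_l + ∑ f_l dM_{al}`; expand the wedge product; the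
terms without the second summands give `det M • wf f`, the others are divisible by some `f_l`. -/
theorem wf_expand {A : Subalgebra k K} {f : Fin p → K} (hfA : ∀ i, f i ∈ A)
    {M : Matrix (Fin p) (Fin p) K} (hM : ∀ i j, M i j ∈ A) {y : Fin p → K}
    (hy : ∀ i, y i = ∑ l, M i l * f l) : wf y - M.det • wf f ∈ NS (FC p A) f p := by
  classical
  let x : Fin p ⊕ Fin p × Fin p → K := Sum.elim f (fun q => M q.1 q.2)
  let c : Fin p → Fin p ⊕ Fin p × Fin p → K := fun j =>
    Sum.elim (fun l => M j l) (fun q => if q.1 = j then f q.2 else 0)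
  have hxA : ∀ q, x q ∈ A := by
    rintro (l | q)
    · exact hfA l
    · exact hM _ _
  have hcA : ∀ j q, c j q ∈ A := by
    rintro j (l | q)
    · exact hM _ _
    · change (if q.1 = j then f q.2 else 0) ∈ A
      split_ifs
      · exact hfA _
      · exact A.zero_mem
  have hD : ∀ j, KaehlerDifferential.D k K (y j) =
      ∑ m, c j m • KaehlerDifferential.D k K (x m) := by
    intro j
    rw [hy j, map_sum, Fintype.sum_sum_type, Fintype.sum_prod_type]
    have e1 : ∀ i l, c j (Sum.inr (i, l)) • KaehlerDifferential.D k K (x (Sum.inr (i, l))) =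
        if i = j then f l • KaehlerDifferential.D k K (M i l) else 0 := by
      intro i l
      change (if i = j then f l else 0) • KaehlerDifferential.D k K (M i l) = _
      split_ifs
      · rfl
      · rw [zero_smul]
    have e2 : ∑ i, ∑ l, c j (Sum.inr (i, l)) •
        KaehlerDifferential.D k K (x (Sum.inr (i, l))) =
        ∑ l, f l • KaehlerDifferential.D k K (M j l) := by
      rw [Finset.sum_eq_single j]
      · refine Finset.sum_congr rfl fun l _ => ?_
        rw [e1, if_pos rfl]
      · intro i _ hi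
        refine Finset.sum_eq_zero fun l _ => ?_
        rw [e1, if_neg hi]
      · intro h
        exact absurd (Finset.mem_univ _) h
    rw [e2, ← Finset.sum_add_distrib]
    refine Finset.sum_congr rfl fun l _ => ?_
    rw [Derivation.leibniz]
    rfl
  let e : (Fin p → Fin p) → (Fin p → Fin p ⊕ Fin p × Fin p) := fun ρ j => Sum.inl (ρ j)
  have he : Function.Injective e := fun ρ ρ' h => funext fun j =>
    Sum.inl_injective (congrFun h j)
  rw [wf_expand_sum y x c hD, ← Finset.sum_add_sum_compl (Finset.univ.image e),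
    Finset.sum_image fun a _ b _ h => he h]
  have h1 : ∑ ρ : Fin p → Fin p, (∏ j, c j (e ρ j)) • wf (k := k) (fun j => x (e ρ j)) =
      M.det • wf f := HG3_det_smul f M
  rw [h1, add_sub_cancel_left]
  refine Submodule.sum_mem _ fun τ hτ => ?_
  obtain ⟨j, q, hq⟩ : ∃ j q, τ j = Sum.inr q := by
    by_contra hcon
    push Not at hcon
    apply Finset.mem_compl.1 hτ
    have h2 : ∀ j, ∃ l, τ j = Sum.inl l := by
      intro j
      rcases hτj : τ j with l | q
      · exact ⟨l, rfl⟩
      · exact absurd hτj (hcon j q)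
    choose ρ hρ using h2
    exact Finset.mem_image.2 ⟨ρ, Finset.mem_univ _, funext fun j => (hρ j).symm⟩
  rw [← Finset.mul_prod_erase _ _ (Finset.mem_univ j)]
  have h3 : c j (τ j) = if q.1 = j then f q.2 else 0 := by
    rw [hq]
    rfl
  rw [h3]
  by_cases h : q.1 = j
  · rw [if_pos h, mul_smul]
    exact HG3_smul_mem (wf_smul_mem (A.prod_mem fun i _ => hcA _ _) fun i => hxA _) q.2 q.2.2
  · rw [if_neg h, zero_mul, zero_smul]
    exact Submodule.zero_mem _

/-- if `f l` is a unit -/
theorem fund_unit {A : Subalgebra k K} {f : Fin p → K} (hfA : ∀ i, f i ∈ A) {l : Fin p}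
    (h0 : f l ≠ 0) (hu : (f l)⁻¹ ∈ A) {M : Matrix (Fin p) (Fin p) K} (hM : ∀ i j, M i j ∈ A)
    {y : Fin p → K} (hy : ∀ i, y i = ∑ l, M i l * f l) {v : EE k K p} (hv : v ∈ FC p A) :
    M.det • v ∈ NS (FC p A) y p := by
  refine HG3_smul_NS ?_ hv
  have h1 := NS_stable (C := A) (N := Subalgebra.toSubmodule A)
    (fun _ h _ h' => A.mul_mem h h') y p _ hu _ (det_mul_NS hfA hM hy l)
  rw [smul_eq_mul] at h1
  have h2 : (f l)⁻¹ * (M.det * f l) = M.det := by
    field_simp
  rwa [h2] at h1

/-- The class `det M • wf f` modulo `y` does not depend on the choices.  Proof: by `wf_expand`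
with the matrix `θ`, `wf f - θ ^ p • wf f' ∈ ∑ f' l FC`, and `det M f' l = θ⁻¹ det M f l` is in
`∑ y a A` by `det_mul_NS`; so `det M • wf f` is congruent to `(θ ^ p * det M) • wf f' =
det (θ M) • wf f'`, and `(θ M) f' = y = M' f'`, so `det_sub_NS` applies. -/
theorem fund {A : Subalgebra k K} {f f' y : Fin p → K} {θ : K} (h0 : θ ≠ 0) (h1 : θ ∈ A)
    (h2 : θ⁻¹ ∈ A) (hf' : ∀ i, f' i ∈ A) (hff : ∀ i, f i = θ * f' i)
    {M M' : Matrix (Fin p) (Fin p) K} (hM : ∀ i j, M i j ∈ A) (hM' : ∀ i j, M' i j ∈ A)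
    (hy : ∀ i, y i = ∑ l, M i l * f l) (hy' : ∀ i, y i = ∑ l, M' i l * f' l)
    (hreg : FReg (Subalgebra.toSubmodule A) f' p) :
    M.det • wf f - M'.det • wf f' ∈ NS (FC p A) y p := by
  classical
  have hfA : ∀ i, f i ∈ A := fun i => by
    rw [hff i]
    exact A.mul_mem h1 (hf' i)
  have hdA : M.det ∈ A := HF_det_mem hM
  -- the change of `f`
  have e1 := wf_expand (k := k) (A := A) (f := f') hf' (M := θ • (1 : Matrix (Fin p) (Fin p) K))
    (fun i j => by
      rw [Matrix.smul_apply, Matrix.one_apply, smul_eq_mul]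
      split_ifs
      · rw [mul_one]
        exact h1
      · rw [mul_zero]
        exact A.zero_mem) (y := f) (fun i => by
      rw [hff i, Finset.sum_eq_single i]
      · rw [Matrix.smul_apply, Matrix.one_apply_eq, smul_eq_mul, mul_one]
      · intro j _ hj
        rw [Matrix.smul_apply, Matrix.one_apply_ne hj.symm, smul_zero, zero_mul]
      · intro h
        exact absurd (Finset.mem_univ _) h)
  rw [Matrix.det_smul, Matrix.det_one, mul_one, Fintype.card_fin] at e1
  have e2 : ∀ l, M.det * f' l ∈ NS (Subalgebra.toSubmodule A) y p := by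
    intro l
    have h3 := NS_stable (C := A) (N := Subalgebra.toSubmodule A)
      (fun _ h _ h' => A.mul_mem h h') y p _ h2 _ (det_mul_NS hfA hM hy l)
    rw [smul_eq_mul, hff l] at h3
    have h4 : θ⁻¹ * (M.det * (θ * f' l)) = M.det * f' l := by
      field_simp
    rwa [h4] at h3
  have e3 : M.det • (wf f - θ ^ p • wf f') ∈ NS (FC p A) y p := by
    obtain ⟨w, hw, e⟩ := e1
    rw [e, Finset.smul_sum]
    refine Submodule.sum_mem _ fun l _ => ?_
    rw [smul_smul]
    exact HG3_smul_NS (e2 l) (hw l)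
  have e4 : (θ • M).det - M'.det ∈ NS (Subalgebra.toSubmodule A) y p := by
    refine det_sub_NS hf' hreg (fun i j => ?_) hM' (fun i => ?_) (fun i => ?_)
    · rw [Matrix.smul_apply, smul_eq_mul]
      exact A.mul_mem h1 (hM i j)
    · rw [← hy' i, hy i]
      refine Finset.sum_congr rfl fun l _ => ?_
      rw [Matrix.smul_apply, smul_eq_mul, hff l]
      ring
    · rw [hy i]
      refine Finset.sum_congr rfl fun l _ => ?_
      rw [Matrix.smul_apply, smul_eq_mul, hff l]
      ring
  have e5 := HG3_smul_NS e4 (wf_mem (k := k) hf')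
  have e6 : M.det • wf (k := k) f - M'.det • wf f' =
      M.det • (wf f - θ ^ p • wf f') + ((θ • M).det - M'.det) • wf f' := by
    rw [Matrix.det_smul, Fintype.card_fin, smul_sub, sub_smul, smul_smul, mul_comm (θ ^ p)]
    abel
  rw [e6]
  exact Submodule.add_mem _ e3 e5

/-- Depth: for a smooth point `A` with a regular sequence `f` of length `p`, the maximal ideal is
not associated to `FC p A / (h₁, ..., h_l)`, `l < p`.  Proof: `mem_NS_of` and `depth_lemma` with
the maximal ideal `I`, for `Λ v ∈ A`. -/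
theorem not_assoc [CharZero k] {n : ℕ} {b : Module.Basis (Fin n) K Ω[K⁄k]} {R A : Subalgebra k K}
    (hR : R.FG) (hRA : IsLoc R A) {d : ℕ} {x : Fin n → K} (hx : IsCoord b A d x) (hpn : p ≤ n)
    {f h : Fin p → K} (hf : ∀ i, f i ∈ A) (hf' : ∀ i, (f i)⁻¹ ∉ A)
    (rf : FReg (Subalgebra.toSubmodule A) f p) (hh : ∀ i, h i ∈ A) {l : ℕ} (hl : l < p)
    (hh' : ∀ i : Fin p, (i : ℕ) < l → h i = 0 ∨ (h i)⁻¹ ∉ A) (rh : FReg (FC p A) h l)
    {v : EE k K p} (hv : v ∈ FC p A) (hm : ∀ a ∈ A, a⁻¹ ∉ A → a • v ∈ NS (FC p A) h l) :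
    v ∈ NS (FC p A) h l := by
  have hloc : IsLocalRing A := hRA.2.1
  have hnoe : IsNoetherianRing A := hRA.isNoetherianRing hR
  have hmax : ∀ a : A, a ∈ IsLocalRing.maximalIdeal A ↔ (a : K) = 0 ∨ (a : K)⁻¹ ∉ A := by
    intro a
    rw [IsLocalRing.mem_maximalIdeal, mem_nonunits_iff, LocAlg_unit, not_and_or, not_not]
  refine hx.mem_NS_of b l hv fun Λ hΛ => ?_
  have rh' := (hx.freg_iff b hpn hh l).1 rh
  have e1 := depth_lemma (A := A) (IsLocalRing.maximalIdeal A) le_rfl
    (List.ofFn fun i => ⟨f i, hf i⟩) ((List.ofFn fun i => ⟨h i, hh i⟩).take l) ?_ ?_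
    ((freg_iff_isWeaklyRegular (A := A) (fun i => ⟨f i, hf i⟩)).1 rf)
    ((HG3_freg (A := A) (fun i => ⟨h i, hh i⟩) l).1 rh') ?_ ⟨Λ v, hΛ v hv⟩ ?_
  · rw [← HG3_mem] at e1
    exact e1
  · intro a ha
    obtain ⟨i, rfl⟩ := List.mem_ofFn.1 ha
    exact (hmax _).2 (Or.inr (hf' i))
  · intro a ha
    rw [List.mem_take_iff_getElem] at ha
    obtain ⟨i, hi, e⟩ := ha
    have hil : i < l := lt_of_lt_of_le hi (min_le_left _ _)
    have him : i < p := lt_trans hil hl
    rw [List.getElem_ofFn] at e
    rw [← e]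
    exact (hmax _).2 (hh' ⟨i, him⟩ hil)
  · rw [List.length_take, List.length_ofFn, List.length_ofFn, min_eq_left hl.le]
    exact hl
  · intro a ha
    rcases (hmax a).1 ha with h0 | h0
    · have : a = 0 := Subtype.ext h0
      rw [this, zero_mul]
      exact Ideal.zero_mem _
    · rw [← HG3_mem]
      have e2 := HF_map_NS (N' := Subalgebra.toSubmodule A) Λ hΛ (hm a a.2 h0)
      rw [map_smul, smul_eq_mul] at e2
      exact e2

/-- An ideal generated by a regular sequence of length `p` is not generated by `l < p` elements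
forming a regular sequence.  Proof: `depth_lemma` with `I` the ideal generated by `f` and
`v = 1`. -/
theorem not_gen {R A : Subalgebra k K} (hR : R.FG) (hRA : IsLoc R A) {f h : Fin p → K}
    (hf : ∀ i, f i ∈ A) (hf' : ∀ i, (f i)⁻¹ ∉ A) (rf : FReg (Subalgebra.toSubmodule A) f p)
    (hh : ∀ i, h i ∈ NS (Subalgebra.toSubmodule A) f p) {l : ℕ} (hl : l < p)
    (rh : FReg (Subalgebra.toSubmodule A) h l) :
    ¬ ∀ i, f i ∈ NS (Subalgebra.toSubmodule A) h l := by
  intro hall
  have hloc : IsLocalRing A := hRA.2.1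
  have hnoe : IsNoetherianRing A := hRA.isNoetherianRing hR
  have hmax : ∀ a : A, a ∈ IsLocalRing.maximalIdeal A ↔ (a : K) = 0 ∨ (a : K)⁻¹ ∉ A := by
    intro a
    rw [IsLocalRing.mem_maximalIdeal, mem_nonunits_iff, LocAlg_unit, not_and_or, not_not]
  have hhA : ∀ i, h i ∈ A := fun i =>
    NS_le (C := A) (N := Subalgebra.toSubmodule A) (fun _ h _ h' => A.mul_mem h h') hf p (hh i)
  have hI : Ideal.span (Set.range fun i => (⟨f i, hf i⟩ : A)) ≤ IsLocalRing.maximalIdeal A := by
    rw [Ideal.span_le]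
    rintro _ ⟨i, rfl⟩
    exact (hmax _).2 (Or.inr (hf' i))
  have hhI : ∀ i, (⟨h i, hhA i⟩ : A) ∈ Ideal.span (Set.range fun i => (⟨f i, hf i⟩ : A)) := by
    intro i
    rw [← mem_NS_iff_span]
    exact hh i
  have hhI2 : ∀ a ∈ (List.ofFn fun i => (⟨h i, hhA i⟩ : A)).take l,
      a ∈ Ideal.span (Set.range fun i => (⟨f i, hf i⟩ : A)) := by
    intro a ha
    obtain ⟨i, rfl⟩ := List.mem_ofFn.1 (List.mem_of_mem_take ha)
    exact hhI i
  have e1 := depth_lemma (A := A) (Ideal.span (Set.range fun i => (⟨f i, hf i⟩ : A))) hI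
    (List.ofFn fun i => ⟨f i, hf i⟩) ((List.ofFn fun i => ⟨h i, hhA i⟩).take l) ?_ hhI2
    ((freg_iff_isWeaklyRegular (A := A) (fun i => ⟨f i, hf i⟩)).1 rf)
    ((HG3_freg (A := A) (fun i => ⟨h i, hhA i⟩) l).1 rh) ?_ 1 ?_
  · have e2 : Ideal.ofList ((List.ofFn fun i => (⟨h i, hhA i⟩ : A)).take l) ≤
        IsLocalRing.maximalIdeal A := by
      refine le_trans (Ideal.span_le.2 fun a ha => ?_) hI
      exact hhI2 a ha
    have e3 := e2 e1
    exact (Ideal.ne_top_iff_one _).1 (IsLocalRing.maximalIdeal.isMaximal A).ne_top e3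
  · intro a ha
    obtain ⟨i, rfl⟩ := List.mem_ofFn.1 ha
    exact Ideal.subset_span ⟨i, rfl⟩
  · rw [List.length_take, List.length_ofFn, List.length_ofFn, min_eq_left hl.le]
    exact hl
  · intro a ha
    rw [mul_one]
    have e2 : Ideal.span (Set.range fun i => (⟨f i, hf i⟩ : A)) ≤
        Ideal.ofList ((List.ofFn fun i => (⟨h i, hhA i⟩ : A)).take l) := by
      rw [Ideal.span_le]
      rintro _ ⟨i, rfl⟩
      have := hall i
      exact (HG3_mem (A := A) (fun i => ⟨h i, hhA i⟩) l ⟨f i, hf i⟩).1 this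
    exact e2 ha

end Flip28
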