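import Pool.Agent.FlipB_h28.HF

/-! # Residues of forms at a smooth point -/

open scoped KaehlerDifferential

universe u

namespace Flip28

variable {k K : Type u} [Field k] [Field K] [Algebra k K] [CharZero k]
  [Algebra.EssFiniteType k K] {n : ℕ} {b : Module.Basis (Fin n) K Ω[K⁄k]} {p : ℕ}

/-- the image in `κ` of the elements of `C ∩ P` -/
def IM {κ : Type u} [Field κ] [Algebra k κ] {P : Subalgebra k K} (π : P →ₐ[k] κ)
    (C : Subalgebra k K) : Subalgebra k κ := (C.comap P.val).map π

theorem HH_mem_IM {κ : Type u} [Field κ] [Algebra k κ] {P : Subalgebra k K} (π : P →ₐ[k] κ)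
    {C : Subalgebra k K} {a : P} (ha : (a : K) ∈ C) : π a ∈ IM π C :=
  ⟨a, ha, rfl⟩

theorem HH_FC_mono {C P : Subalgebra k K} (hC : C ≤ P) : FC p C ≤ FC p P := by
  refine Submodule.span_mono ?_
  rintro _ ⟨c, hc, a, ha, rfl⟩
  exact ⟨c, hC hc, a, fun i => hC (ha i), rfl⟩

/-- the restriction of a derivation -/
noncomputable def HH_restr (P : Subalgebra k K) (D : Derivation k K K)
    (hD : ∀ f ∈ P, D f ∈ P) : Derivation k P P :=
  Derivation.mk' { toFun := fun f => ⟨D (f : K), hD f f.2⟩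
                   map_add' := fun f g => Subtype.ext (D.map_add _ _)
                   map_smul' := fun c f => Subtype.ext (D.map_smul _ _) }
    (fun f g => Subtype.ext (D.leibniz _ _))

theorem HH_restr_apply (P : Subalgebra k K) (D : Derivation k K K)
    (hD : ∀ f ∈ P, D f ∈ P) (f : P) : ((HH_restr P D hD f : P) : K) = D f := rfl

theorem HH_jac {κ : Type u} [Field κ] [Algebra k κ] (bk : Module.Basis (Fin p) κ Ω[κ⁄k])
    (δ : Fin p → Derivation k κ κ) (z : Fin p → κ)
    (hz : ∀ i, bk i = KaehlerDifferential.D k κ (z i))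
    (hδ : ∀ i j, δ i (z j) = if i = j then 1 else 0) (c : Fin p → κ) :
    jac bk c = Matrix.det (Matrix.of fun i j => δ i (c j)) := by
  have h1 : ∀ i, bk.coord i = (δ i).liftKaehlerDifferential := by
    intro i
    refine bk.ext fun j => ?_
    rw [Module.Basis.coord_apply, Module.Basis.repr_self, Finsupp.single_apply, hz,
      Derivation.liftKaehlerDifferential_comp_D, hδ]
    simp [eq_comm]
  unfold jac
  rw [Module.Basis.det_apply]
  congr 1
  ext i j
  rw [Module.Basis.toMatrix_apply, Matrix.of_apply, ← Module.Basis.coord_apply, h1,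
    Derivation.liftKaehlerDifferential_comp_D]

/-- Proof: `FC p C` is spanned by the `c • wf a`; use the two formulas for `ρ`. -/
theorem residue_mem {κ : Type u} [Field κ] [Algebra k κ] {P : Subalgebra k K} {π : P →ₐ[k] κ}
    {bk : Module.Basis (Fin p) κ Ω[κ⁄k]} {ρ : EE k K p →ₗ[k] κ}
    (h1 : ∀ (a : P), ∀ v ∈ FC p P, ρ ((a : K) • v) = π a * ρ v)
    (h2 : ∀ a : Fin p → P, ρ (wf (fun i => (a i : K))) = jac bk (fun i => π (a i)))
    {C : Subalgebra k K} (hC : C ≤ P) {v : EE k K p} (hv : v ∈ FC p C) :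
    ρ v ∈ WC bk (IM π C) := by
  induction hv using Submodule.span_induction with
  | mem v hv =>
    obtain ⟨c, hc, a, ha, rfl⟩ := hv
    refine Submodule.subset_span ⟨π ⟨c, hC hc⟩, HH_mem_IM π hc, fun i => π ⟨a i, hC (ha i)⟩,
      fun i => HH_mem_IM π (ha i), ?_⟩
    rw [h1 ⟨c, hC hc⟩ (wf a) (wf_mem fun i => hC (ha i)), h2 fun i => ⟨a i, hC (ha i)⟩]
  | zero =>
    rw [map_zero]
    exact Submodule.zero_mem _
  | add v w _ _ h3 h4 =>
    rw [map_add]
    exact Submodule.add_mem _ h3 h4
  | smul c v _ h3 =>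
    rw [map_smul]
    exact Submodule.smul_mem _ _ h3

/-- Proof: `NS (FC p P)`-combinations. -/
theorem residue_NS {κ : Type u} [Field κ] [Algebra k κ] {P : Subalgebra k K} {π : P →ₐ[k] κ}
    {bk : Module.Basis (Fin p) κ Ω[κ⁄k]} {ρ : EE k K p →ₗ[k] κ}
    (h1 : ∀ (a : P), ∀ v ∈ FC p P, ρ ((a : K) • v) = π a * ρ v)
    (h2 : ∀ a : Fin p → P, ρ (wf (fun i => (a i : K))) = jac bk (fun i => π (a i)))
    {C : Subalgebra k K} (hC : C ≤ P) {m : ℕ} (y : Fin m → P) {l : ℕ} {v : EE k K p}
    (hv : v ∈ NS (FC p C) (fun i => (y i : K)) l) :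
    ρ v ∈ NS (WC bk (IM π C)) (fun i => π (y i)) l := by
  obtain ⟨w, hw, rfl⟩ := hv
  refine ⟨fun a => ρ (w a), fun a => residue_mem h1 h2 hC (hw a), ?_⟩
  rw [map_sum]
  exact Finset.sum_congr rfl fun a _ => h1 (y a) (w a) (HH_FC_mono hC (hw a))

/-- Proof: let `κ` be the residue field of `P`, `π` the residue map, `D_i`, `Λ_σ` as in
`IsCoord.exists_functionals`, `σ₀ : Fin p → Fin n`, `i ↦ d + i`.  `D_{d+i}` maps the maximal ideal
(generated by `x_0, ..., x_{d-1}`, `hx.gen`) into itself, so it induces a derivation `δ_i` of `κ`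
with `δ_i (π x_{d+j}) = δ_ij`.  By the dimension formula `trdeg κ = n - d = p`
(`trdeg_eq_finrank`), so the differentials of the `π x_{d+j}` (linearly independent because of the
`δ_i`) are a basis `bk` of `Ω[κ/k]`, and `jac bk c = det (δ_i c_j)`.  Define `ρ` on the `k`-space
of the `v` with `Λ_σ₀ v ∈ P` as the residue of `Λ_σ₀ v` and extend it `k`-linearly
(`LinearMap.exists_extend`). -/
theorem exists_residue {R P : Subalgebra k K} (hR : R.FG) (hK : IsFractionRing R K)
    (hP : IsLoc R P) {d : ℕ} {x : Fin n → K} (hx : IsCoord b P d x) (hpd : p + d = n) :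
    ∃ (κ : Type u) (_ : Field κ) (_ : Algebra k κ) (π : P →ₐ[k] κ)
      (bk : Module.Basis (Fin p) κ Ω[κ⁄k]) (ρ : EE k K p →ₗ[k] κ),
      Algebra.EssFiniteType k κ ∧ Function.Surjective π ∧
      (∀ a : P, π a = 0 ↔ (a : K) = 0 ∨ (a : K)⁻¹ ∉ P) ∧
      (∀ (a : P), ∀ v ∈ FC p P, ρ ((a : K) • v) = π a * ρ v) ∧
      ∀ a : Fin p → P, ρ (wf (fun i => (a i : K))) = jac bk (fun i => π (a i)) := by
  classical
  have hloc : IsLocalRing P := hP.2.1
  have hess : Algebra.EssFiniteType k P := hP.essFiniteType hR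
  have hkf : Algebra.EssFiniteType k (IsLocalRing.ResidueField P) :=
    inferInstanceAs (Algebra.EssFiniteType k (P ⧸ IsLocalRing.maximalIdeal P))
  obtain ⟨D, Λ, hDP, hDx, hΛw, hΛF, -⟩ := hx.exists_functionals (p := p) b
  have hlt : ∀ i : Fin p, d + (i : ℕ) < n := fun i => by
    have := i.2
    omega
  let σ₀ : Fin p → Fin n := fun i => ⟨d + i, hlt i⟩
  have hσ₀ : ∀ i j : Fin p, σ₀ i = σ₀ j ↔ i = j := by
    intro i j
    constructor
    · intro h
      have := congrArg Fin.val h
      simp only [σ₀] at this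
      exact Fin.ext (by omega)
    · rintro rfl
      rfl
  let π : P →ₐ[k] IsLocalRing.ResidueField P :=
    IsScalarTower.toAlgHom k P (IsLocalRing.ResidueField P)
  have hπr : ∀ a : P, π a = IsLocalRing.residue P a := fun a => rfl
  have hπs : Function.Surjective π := IsLocalRing.residue_surjective
  have hπ0 : ∀ a : P, π a = 0 ↔ (a : K) = 0 ∨ (a : K)⁻¹ ∉ P := by
    intro a
    rw [hπr, IsLocalRing.residue_eq_zero_iff, IsLocalRing.mem_maximalIdeal, mem_nonunits_iff,
      LocAlg_unit, not_and_or, not_not]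
  have hd0 : ∀ (i : Fin p) (f : P), π f = 0 → π (HH_restr P (D (σ₀ i)) (hDP _) f) = 0 := by
    intro i f hf
    rw [hπ0] at hf
    obtain ⟨a, ha, e⟩ : ∃ a : Fin n → K, (∀ i, a i ∈ P) ∧
        (f : K) = ∑ i ∈ low n d, a i * x i := by
      rcases hf with hf | hf
      · exact ⟨0, fun _ => P.zero_mem, by simp [hf]⟩
      · exact hx.gen f f.2 hf
    have e1 : HH_restr P (D (σ₀ i)) (hDP _) f =
        ∑ j ∈ low n d, (⟨x j, hx.mem j⟩ : P) * ⟨D (σ₀ i) (a j), hDP _ _ (ha j)⟩ := by
      apply Subtype.ext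
      rw [HH_restr_apply, e, map_sum, AddSubmonoidClass.coe_finsetSum]
      refine Finset.sum_congr rfl fun j hj => ?_
      rw [Derivation.leibniz, hDx, if_neg, smul_zero, zero_add, smul_eq_mul]
      · rfl
      · intro h
        have := congrArg Fin.val h
        rw [mem_low] at hj
        simp only [σ₀] at this
        omega
    rw [e1, map_sum]
    refine Finset.sum_eq_zero fun j hj => ?_
    rw [map_mul, (hπ0 _).2 (Or.inr (hx.nonunit j (mem_low.1 hj))), zero_mul]
  let δ : Fin p → Derivation k (IsLocalRing.ResidueField P) (IsLocalRing.ResidueField P) :=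
    fun i => Derivation.liftOfSurjective (f := π) hπs (hd0 i)
  have hδ : ∀ (i : Fin p) (a : P), δ i (π a) = π (HH_restr P (D (σ₀ i)) (hDP _) a) :=
    fun i a => Derivation.liftOfSurjective_apply hπs (hd0 i) a
  let z : Fin p → IsLocalRing.ResidueField P := fun j => π ⟨x (σ₀ j), hx.mem _⟩
  have hδz : ∀ i j, δ i (z j) = if i = j then 1 else 0 := by
    intro i j
    change δ i (π ⟨x (σ₀ j), hx.mem _⟩) = _
    rw [hδ]
    have : HH_restr P (D (σ₀ i)) (hDP _) ⟨x (σ₀ j), hx.mem _⟩ = if i = j then 1 else 0 := by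
      apply Subtype.ext
      rw [HH_restr_apply]
      change D (σ₀ i) (x (σ₀ j)) = _
      rw [hDx]
      by_cases h : i = j
      · rw [if_pos h, if_pos ((hσ₀ i j).2 h)]
        rfl
      · rw [if_neg h, if_neg (fun h' => h ((hσ₀ i j).1 h'))]
        rfl
    rw [this]
    by_cases h : i = j
    · rw [if_pos h, if_pos h, map_one]
    · rw [if_neg h, if_neg h, map_zero]
  have hli : LinearIndependent (IsLocalRing.ResidueField P)
      (fun j => KaehlerDifferential.D k (IsLocalRing.ResidueField P) (z j)) := by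
    rw [Fintype.linearIndependent_iff]
    intro g hg i
    have h3 := congrArg (δ i).liftKaehlerDifferential hg
    rw [map_sum, map_zero] at h3
    simp only [map_smul, Derivation.liftKaehlerDifferential_comp_D, hδz, smul_eq_mul, mul_ite,
      mul_one, mul_zero, Finset.sum_ite_eq, Finset.mem_univ, if_true] at h3
    exact h3
  have hcard : Fintype.card (Fin p) =
      Module.finrank (IsLocalRing.ResidueField P) Ω[IsLocalRing.ResidueField P⁄k] := by
    obtain ⟨d', e', hd', he', hde⟩ := dim_formula hR hK hP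
    have h3 : Algebra.trdeg k (IsLocalRing.ResidueField P) =
      Module.finrank (IsLocalRing.ResidueField P) Ω[IsLocalRing.ResidueField P⁄k] :=
      trdeg_eq_finrank
    have h4 : Algebra.trdeg k K = Module.finrank K Ω[K⁄k] := trdeg_eq_finrank
    have h5 : Module.finrank K Ω[K⁄k] = n := by
      rw [Module.finrank_eq_card_basis b, Fintype.card_fin]
    have h6 : d' = d := by
      have := hd'.symm.trans hx.dim
      exact_mod_cast this
    have h7 : d' + e' = n := by
      have := hde.symm.trans h4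
      rw [h5] at this
      exact_mod_cast this
    have h8 : e' = Module.finrank (IsLocalRing.ResidueField P)
        Ω[IsLocalRing.ResidueField P⁄k] := by
      have := he'.symm.trans h3
      exact_mod_cast this
    rw [Fintype.card_fin, ← h8]
    omega
  have hne : Nonempty (Fin p) ∨ p = 0 := by
    rcases Nat.eq_zero_or_pos p with h | h
    · exact Or.inr h
    · exact Or.inl ⟨⟨0, h⟩⟩
  let bk : Module.Basis (Fin p) (IsLocalRing.ResidueField P) Ω[IsLocalRing.ResidueField P⁄k] :=
    Module.Basis.mk hli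
      (top_le_iff.2 (hli.span_eq_top_of_card_eq_finrank' hcard))
  have hbk : ∀ i, bk i = KaehlerDifferential.D k (IsLocalRing.ResidueField P) (z i) := fun i => by
    simp [bk]
  let Q : Submodule k (EE k K p) :=
    (Subalgebra.toSubmodule P).comap ((Λ σ₀).restrictScalars k)
  let ρ₀ : Q →ₗ[k] IsLocalRing.ResidueField P :=
    { toFun := fun v => π ⟨Λ σ₀ v, v.2⟩
      map_add' := fun v w => by
        rw [← map_add]
        congr 1
        apply Subtype.ext
        exact map_add (Λ σ₀) _ _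
      map_smul' := fun c v => by
        rw [RingHom.id_apply, ← map_smul]
        congr 1
        apply Subtype.ext
        exact LinearMap.map_smul_of_tower (Λ σ₀) c (v : EE k K p) }
  obtain ⟨ρ, hρ⟩ := LinearMap.exists_extend ρ₀
  have hρ' : ∀ (v : EE k K p) (hv : Λ σ₀ v ∈ P), ρ v = π ⟨Λ σ₀ v, hv⟩ := fun v hv =>
    congrArg (fun f => f ⟨v, hv⟩) hρ
  refine ⟨IsLocalRing.ResidueField P, inferInstance, inferInstance, π, bk, ρ, hkf, hπs, hπ0,
    ?_, ?_⟩
  · intro a v hv
    have h3 : Λ σ₀ ((a : K) • v) = a * Λ σ₀ v := map_smul _ _ _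
    have h4 : Λ σ₀ ((a : K) • v) ∈ P := by
      rw [h3]
      exact P.mul_mem a.2 (hΛF _ v hv)
    rw [hρ' _ h4, hρ' v (hΛF _ v hv), ← map_mul]
    congr 1
    exact Subtype.ext h3
  · intro a
    have h4 : Λ σ₀ (wf (fun i => (a i : K))) ∈ P := hΛF _ _ (wf_mem fun i => (a i).2)
    rw [hρ' _ h4, HH_jac bk δ z hbk hδz]
    have h5 : (⟨Λ σ₀ (wf (fun i => (a i : K))), h4⟩ : P) =
        Matrix.det (Matrix.of fun i j => HH_restr P (D (σ₀ i)) (hDP _) (a j)) := by
      apply Subtype.ext
      change Λ σ₀ (wf (fun i => (a i : K))) = P.val _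
      rw [hΛw, AlgHom.map_det]
      rfl
    rw [h5, AlgHom.map_det]
    congr 1
    ext i j
    rw [Matrix.of_apply, hδ]
    rfl

end Flip28
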