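import Pool.Agent.FlipB_h28.HI0

/-! # Laurent monomials -/

namespace Flip28

variable {k T : Type*} [Field k] [Field T] [Algebra k T] {p : ℕ}

theorem HI8_add {u : Fin p → T} (hu : ∀ i, u i ≠ 0) (α β : Fin p → ℤ) :
    mono u (α + β) = mono u α * mono u β := by
  unfold mono
  rw [← Finset.prod_mul_distrib]
  exact Finset.prod_congr rfl fun i _ => zpow_add₀ (hu i) _ _

theorem HI8_single (u : Fin p → T) (i : Fin p) (n : ℤ) : mono u (Pi.single i n) = u i ^ n := by
  unfold mono
  rw [Finset.prod_eq_single i]
  · rw [Pi.single_eq_same]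
  · intro j _ hj
    rw [Pi.single_eq_of_ne hj, zpow_zero]
  · intro h
    exact absurd (Finset.mem_univ i) h

theorem HI8_zero (u : Fin p → T) : mono u 0 = 1 := by
  unfold mono
  exact Finset.prod_eq_one fun i _ => zpow_zero _

/-- `k[u, u_j⁻¹ (j ∈ J)]` is contained in the span of the monomials `u^α` with `α i ≥ 0` for
`i ∉ J` (`Algebra.adjoin_induction`; `mono u α * mono u β = mono u (α + β)` since `u i ≠ 0`). -/
theorem AJ_le_span {u : Fin p → T} (hu : ∀ i, u i ≠ 0) (J : Set (Fin p)) {x : T}
    (hx : x ∈ AJ k u J) :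
    x ∈ Submodule.span k (mono u '' {α | ∀ i, i ∉ J → 0 ≤ α i}) := by
  unfold AJ at hx
  have hmul : Submodule.span k (mono u '' {α : Fin p → ℤ | ∀ i, i ∉ J → 0 ≤ α i}) *
      Submodule.span k (mono u '' {α : Fin p → ℤ | ∀ i, i ∉ J → 0 ≤ α i}) ≤
      Submodule.span k (mono u '' {α : Fin p → ℤ | ∀ i, i ∉ J → 0 ≤ α i}) := by
    rw [Submodule.span_mul_span]
    apply Submodule.span_mono
    rintro _ ⟨_, ⟨α, hα, rfl⟩, _, ⟨β, hβ, rfl⟩, rfl⟩
    refine ⟨α + β, fun i hi => ?_, HI8_add hu α β⟩
    exact add_nonneg (hα i hi) (hβ i hi)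
  induction hx using Algebra.adjoin_induction with
  | mem x hx =>
    apply Submodule.subset_span
    rcases hx with ⟨i, rfl⟩ | ⟨j, hj, rfl⟩
    · refine ⟨Pi.single i 1, fun l _ => ?_, by rw [HI8_single, zpow_one]⟩
      by_cases h : l = i
      · subst h
        rw [Pi.single_eq_same]
        exact zero_le_one
      · rw [Pi.single_eq_of_ne h]
    · refine ⟨Pi.single j (-1), fun l hl => ?_, by rw [HI8_single, zpow_neg_one]⟩
      have h : l ≠ j := by
        rintro rfl
        exact hl hj
      rw [Pi.single_eq_of_ne h]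
  | algebraMap c =>
    rw [Algebra.algebraMap_eq_smul_one, ← HI8_zero u]
    exact Submodule.smul_mem _ _ (Submodule.subset_span ⟨0, fun i _ => le_refl _, rfl⟩)
  | add x y _ _ h1 h2 => exact Submodule.add_mem _ h1 h2
  | mul x y _ _ h1 h2 => exact hmul (Submodule.mul_mem_mul h1 h2)

theorem HI8_ne {u : Fin p → T} (hu : AlgebraicIndependent k u) (i : Fin p) : u i ≠ 0 :=
  hu.ne_zero i

/-- The Laurent monomials of algebraically independent elements are linearly independent.

Proof: `linearIndependent_iff'`: let `∑ α ∈ s, g α • u^α = 0`; choose `N` with `0 ≤ α i + N` for all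
`α ∈ s` and all `i`, multiply by `∏ u_i^N`: the polynomial
`∑ α ∈ s, monomial (fun i => (α i + N).toNat) (g α)` vanishes at `u`, so it is `0`; compare the
coefficients (the exponents are different for different `α`). -/
theorem linInd_mono {u : Fin p → T} (hu : AlgebraicIndependent k u) :
    LinearIndependent k (mono u : (Fin p → ℤ) → T) := by
  classical
  have hu0 := HI8_ne hu
  rw [linearIndependent_iff']
  intro s g hg α₀ hα₀
  set N : ℕ := s.sup fun α => Finset.univ.sup fun i => (α i).natAbs with hN
  have hN1 : ∀ α ∈ s, ∀ i, 0 ≤ α i + N := by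
    intro α hα i
    have h1 : (α i).natAbs ≤ Finset.univ.sup fun i => (α i).natAbs :=
      Finset.le_sup (f := fun i => (α i).natAbs) (Finset.mem_univ i)
    have h2 : (Finset.univ.sup fun i => (α i).natAbs) ≤ N :=
      Finset.le_sup (f := fun α : Fin p → ℤ => Finset.univ.sup fun i => (α i).natAbs) hα
    omega
  set m : (Fin p → ℤ) → (Fin p →₀ ℕ) := fun α =>
    Finsupp.equivFunOnFinite.symm fun i => (α i + N).toNat with hm
  have hmap : ∀ α i, m α i = (α i + N).toNat := fun α i => rfl
  have h1 : MvPolynomial.aeval u (∑ α ∈ s, MvPolynomial.monomial (m α) (g α)) = 0 := by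
    rw [map_sum]
    have h2 : ∀ α ∈ s, MvPolynomial.aeval u (MvPolynomial.monomial (m α) (g α)) =
        mono u (fun _ => (N : ℤ)) * (g α • mono u α) := by
      intro α hα
      rw [MvPolynomial.aeval_monomial, mul_smul_comm, ← HI8_add hu0, Algebra.smul_def]
      congr 1
      rw [Finsupp.prod_fintype _ _ fun i => pow_zero _]
      unfold mono
      refine Finset.prod_congr rfl fun i _ => ?_
      rw [hmap, Pi.add_apply, add_comm (N : ℤ), ← zpow_natCast, Int.toNat_of_nonneg (hN1 α hα i)]
    rw [Finset.sum_congr rfl h2, ← Finset.mul_sum, hg, mul_zero]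
  have h3 : (∑ α ∈ s, MvPolynomial.monomial (m α) (g α)) = 0 := by
    apply hu
    rw [h1, map_zero]
  have h4 := congrArg (MvPolynomial.coeff (m α₀)) h3
  rw [MvPolynomial.coeff_sum, MvPolynomial.coeff_zero, Finset.sum_eq_single α₀] at h4
  · rwa [MvPolynomial.coeff_monomial, if_pos rfl] at h4
  · intro α hα hne
    rw [MvPolynomial.coeff_monomial, if_neg]
    intro h
    apply hne
    funext i
    have h5 := DFunLike.congr_fun h i
    rw [hmap, hmap] at h5
    have h6 := hN1 α hα i
    have h7 := hN1 α₀ hα₀ i
    omega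
  · intro h
    exact absurd hα₀ h

/-- A linear combination of monomials different from `u^α` is not a nonzero multiple of `u^α`
(`LinearIndependent.notMem_span_image` for `linInd_mono`). -/
theorem smul_mono_mem {u : Fin p → T} (hu : AlgebraicIndependent k u) {α : Fin p → ℤ}
    {S : Set (Fin p → ℤ)} (hS : α ∉ S) {c : k} (hc : c • mono u α ∈ Submodule.span k (mono u '' S)) :
    c = 0 := by
  by_contra hne
  have h1 : mono u α ∈ Submodule.span k (mono u '' S) := by
    have h2 := Submodule.smul_mem _ c⁻¹ hc
    rwa [smul_smul, inv_mul_cancel₀ hne, one_smul] at h2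
  exact (linInd_mono hu).notMem_span_image hS h1

/-- `P(u) / ∏ u_i` is the constant term of `P` times `∏ u_i⁻¹` plus a combination of other
monomials.

Proof: `P = ∑ m ∈ P.support, monomial m (coeff m P)`, `aeval u (monomial m c) =
c • mono u (fun i => (m i : ℤ))`, and the term `m = 0` gives `constantCoeff P`. -/
theorem aeval_div_prod {u : Fin p → T} (hu : ∀ i, u i ≠ 0) (P : MvPolynomial (Fin p) k) :
    MvPolynomial.aeval u P * (∏ i, u i)⁻¹ -
      MvPolynomial.constantCoeff P • mono u (fun _ => -1) ∈
      Submodule.span k (mono u '' {α | α ≠ fun _ => -1}) := by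
  have hinv : (∏ i, u i)⁻¹ = mono u (fun _ => -1) := by
    unfold mono
    rw [← Finset.prod_inv_distrib]
    exact Finset.prod_congr rfl fun i _ => (zpow_neg_one _).symm
  rw [hinv]
  induction P using MvPolynomial.induction_on' with
  | monomial m c =>
    rw [MvPolynomial.aeval_monomial, Finsupp.prod_fintype _ _ fun i => pow_zero _]
    by_cases hm : m = 0
    · subst hm
      rw [MvPolynomial.constantCoeff_monomial, if_pos rfl]
      simp only [Finsupp.coe_zero, Pi.zero_apply, pow_zero, Finset.prod_const_one, mul_one]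
      rw [← Algebra.smul_def, sub_self]
      exact Submodule.zero_mem _
    · rw [MvPolynomial.constantCoeff_monomial, if_neg hm, zero_smul, sub_zero, mul_assoc,
        ← Algebra.smul_def]
      apply Submodule.smul_mem
      apply Submodule.subset_span
      refine ⟨(fun i => (m i : ℤ)) + fun _ => -1, ?_, ?_⟩
      · intro h
        apply hm
        ext i
        have h1 := congrFun h i
        rw [Pi.add_apply] at h1
        rw [Finsupp.coe_zero, Pi.zero_apply]
        omega
      · rw [HI8_add hu]
        congr 1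
        unfold mono
        exact Finset.prod_congr rfl fun i _ => zpow_natCast _ _
  | add P Q hP hQ =>
    have h := Submodule.add_mem _ hP hQ
    rw [map_add, map_add, add_smul]
    convert h using 1
    ring

end Flip28
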