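import Pool.Agent.FlipB_h28.HI7
import Pool.Agent.FlipB_h28.HI8

/-! # (III.2): forms regular on the intersections of `p` charts -/

open scoped KaehlerDifferential

universe u

namespace Flip28

variable {k κ : Type u} [Field k] [Field κ] [Algebra k κ] [CharZero k]
  [Algebra.EssFiniteType k κ] {p : ℕ}

/-- A subalgebra generated by subalgebras integral over `A` is integral over `A` (the elements of
`κ` integral over `A` form a subalgebra: `integralClosure A κ`, restrict scalars to `k`). -/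
theorem integral_iSup {ι : Type*} (S : Set ι) (C : ι → Subalgebra k κ) (A : Subalgebra k κ)
    (h : ∀ b ∈ S, ∀ x ∈ C b, IsIntegral A x) :
    ∀ x ∈ (⨆ b ∈ S, C b : Subalgebra k κ), IsIntegral A x := by
  intro x hx
  have h1 : (⨆ b ∈ S, C b : Subalgebra k κ) ≤ (integralClosure A κ).restrictScalars k :=
    iSup₂_le fun b hb y hy => h b hb y hy
  exact h1 hx

omit [CharZero k] [Algebra.EssFiniteType k κ] in
/-- integrality over a larger subalgebra -/
theorem HI10_mono {A B : Subalgebra k κ} (h : A ≤ B) {x : κ} (hx : IsIntegral A x) :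
    IsIntegral B x :=
  IsIntegral.map_of_comp_eq (Subalgebra.inclusion h).toRingHom (RingHom.id κ) rfl hx

/-- (III.2), `a ≥ 1`: no poles along `v a`.

Proof: `J = {j | j ≠ a}`.  For `b ≠ a.succ` the elements of `C b` are integral over
`k[y_c / y_b : c] ⊆ AJ k v J`: `y_c / y_b = (y_c / y_0) (y_b / y_0)⁻¹` where `y_c / y_0` is `1` or
some `v c'`, and `(y_b / y_0)⁻¹` is `1` or `(v b')⁻¹` with `b' ≠ a` (use `Fin.cases`).  So the
elements of the algebra generated by them are integral over `AJ k v J` (`integral_iSup`), apply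
`trK_mem` and `AJ_le_span`. -/
theorem kill_succ (bk : Module.Basis (Fin p) κ Ω[κ⁄k]) (y : Fin (p + 1) → κ)
    (hy : ∀ a, y a ≠ 0) (C : Fin (p + 1) → Subalgebra k κ)
    (hint : ∀ b, ∀ x ∈ C b,
      IsIntegral (Algebra.adjoin k (Set.range fun a => y a * (y b)⁻¹)) x)
    (v : Fin p → κ) (hv : ∀ a : Fin p, v a = y a.succ * (y 0)⁻¹) (hj : jac bk v ≠ 0)
    (a : Fin p) {η : κ} (hη : η ∈ WC bk (⨆ b ∈ {b | b ≠ a.succ}, C b)) :
    trK (k := k) v (η * (jac bk v)⁻¹) ∈ Submodule.span k (mono v '' {α | 0 ≤ α a}) := by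
  let J : Set (Fin p) := {j | j ≠ a}
  have hv0 : ∀ i, v i ≠ 0 := fun i => by
    rw [hv]
    exact mul_ne_zero (hy _) (inv_ne_zero (hy _))
  have h1 : ∀ c : Fin (p + 1), y c * (y 0)⁻¹ ∈ AJ k v J := by
    intro c
    refine Fin.cases ?_ (fun c' => ?_) c
    · rw [mul_inv_cancel₀ (hy 0)]
      exact one_mem _
    · rw [← hv]
      exact mem_AJ_self v J c'
  have h2 : ∀ b : Fin (p + 1), b ≠ a.succ → (y b * (y 0)⁻¹)⁻¹ ∈ AJ k v J := by
    intro b
    refine Fin.cases (fun _ => ?_) (fun b' hb => ?_) b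
    · rw [mul_inv_cancel₀ (hy 0), inv_one]
      exact one_mem _
    · rw [← hv]
      refine inv_mem_AJ v J ?_
      intro hba
      exact hb (by rw [hba])
  have h3 : ∀ b ∈ {b : Fin (p + 1) | b ≠ a.succ}, ∀ x ∈ C b, IsIntegral (AJ k v J) x := by
    intro b hb x hx
    refine HI10_mono ?_ (hint b x hx)
    refine Algebra.adjoin_le ?_
    rintro _ ⟨c, rfl⟩
    have h4 : y c * (y b)⁻¹ = (y c * (y 0)⁻¹) * (y b * (y 0)⁻¹)⁻¹ := by
      have h5 := hy 0
      have h6 := hy b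
      field_simp
    change y c * (y b)⁻¹ ∈ AJ k v J
    rw [h4]
    exact mul_mem (h1 c) (h2 b hb)
  have h7 := trK_mem bk hj J (integral_iSup _ C (AJ k v J) h3) hη
  refine Submodule.span_mono (Set.image_mono ?_) (AJ_le_span hv0 J h7)
  intro α hα
  exact hα a (fun h => h rfl)

theorem HI10b_det {F : Type*} [Field F] {q : ℕ} (a : Matrix (Fin (q + 1)) (Fin (q + 1)) F)
    (c d : F) (h00 : a 0 0 = c) (h0 : ∀ i : Fin q, a 0 i.succ = 0)
    (hs : ∀ j i : Fin q, a j.succ i.succ = if i = j then d else 0) : a.det = c * d ^ q := by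
  rw [Matrix.det_succ_row_zero, Fin.sum_univ_succ, Finset.sum_eq_zero, add_zero]
  · have h1 : a.submatrix Fin.succ (Fin.succAbove 0) = Matrix.diagonal fun _ => d := by
      ext j i
      rw [Matrix.submatrix_apply, Fin.succAbove_zero, hs, Matrix.diagonal_apply]
      by_cases h : i = j
      · rw [if_pos h, if_pos h.symm]
      · rw [if_neg h, if_neg (fun h' => h h'.symm)]
    rw [h1, Matrix.det_diagonal, Finset.prod_const, Finset.card_univ, Fintype.card_fin, h00,
      Fin.val_zero, pow_zero, one_mul]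
  · intro i _
    rw [h0, mul_zero, zero_mul]

theorem HI10b_int {A B : Subalgebra k κ} (h : A ≤ B) {x : κ} (hx : IsIntegral A x) :
    IsIntegral B x := by
  obtain ⟨P, hP, h1⟩ := hx
  refine ⟨P.map (Subalgebra.inclusion h).toRingHom, hP.map _, ?_⟩
  rw [Polynomial.eval₂_map]
  exact h1

theorem HI10b_trK {v t : Fin p → κ} (h : IntermediateField.adjoin k (Set.range v) =
    IntermediateField.adjoin k (Set.range t)) (x : κ) : trK (k := k) v x = trK (k := k) t x := by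
  have key : ∀ L L' : IntermediateField k κ, L = L' →
      ((Algebra.trace L κ x : L) : κ) = ((Algebra.trace L' κ x : L') : κ) := by
    rintro L _ rfl
    rfl
  exact key _ _ h

theorem HI10b_lin {v : Fin p → κ} {c : κ} (hc : c ∈ IntermediateField.adjoin k (Set.range v))
    (x : κ) : trK (k := k) v (c * x) = c * trK (k := k) v x := by
  unfold trK
  have h1 : c * x = (⟨c, hc⟩ : IntermediateField.adjoin k (Set.range v)) • x := rfl
  rw [h1, map_smul, smul_eq_mul]
  rfl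

/-- the change of coordinates -/
theorem HI10b_jac {q : ℕ} (bk : Module.Basis (Fin (q + 1)) κ Ω[κ⁄k]) (v t : Fin (q + 1) → κ)
    (ht0 : t 0 = (v 0)⁻¹) (hts : ∀ j : Fin q, t j.succ = v j.succ * (v 0)⁻¹) :
    jac bk t = -((v 0)⁻¹ ^ 2 * (v 0)⁻¹ ^ q) * jac bk v := by
  rw [jac_eq_det bk v t (Matrix.of fun j i =>
    Fin.cases (motive := fun _ => κ) (Fin.cases (motive := fun _ => κ) (-(v 0)⁻¹ ^ 2) (fun _ => 0) i)
      (fun j' => Fin.cases (motive := fun _ => κ) (-(v j'.succ * (v 0)⁻¹ ^ 2))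
        (fun i' => if i' = j' then (v 0)⁻¹ else 0) i) j)]
  · rw [HI10b_det _ (-(v 0)⁻¹ ^ 2) (v 0)⁻¹ rfl (fun _ => rfl) (fun _ _ => rfl), neg_mul]
  · intro j
    refine Fin.cases ?_ (fun j' => ?_) j
    · rw [Fin.sum_univ_succ, Finset.sum_eq_zero, add_zero, ht0, Derivation.leibniz_inv]
      · rfl
      · intro i _
        show (0 : κ) • _ = _
        rw [zero_smul]
    · rw [Fin.sum_univ_succ, Finset.sum_eq_single j']
      · show _ = (-(v j'.succ * (v 0)⁻¹ ^ 2)) • KaehlerDifferential.D k κ (v 0) +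
          (if j' = j' then (v 0)⁻¹ else 0) • KaehlerDifferential.D k κ (v j'.succ)
        rw [if_pos rfl, hts, Derivation.leibniz, Derivation.leibniz_inv, smul_smul]
        congr 2
        ring
      · intro i _ hi
        show (if i = j' then (v 0)⁻¹ else 0) • _ = _
        rw [if_neg hi, zero_smul]
      · intro h
        exact absurd (Finset.mem_univ _) h

/-- the monomials in the two systems of coordinates -/
theorem HI10b_mono {q : ℕ} (v t : Fin (q + 1) → κ) (hv0 : v 0 ≠ 0)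
    (ht0 : t 0 = (v 0)⁻¹) (hts : ∀ j : Fin q, t j.succ = v j.succ * (v 0)⁻¹)
    (α : Fin (q + 1) → ℤ) :
    ((v 0)⁻¹ ^ 2 * (v 0)⁻¹ ^ q) * mono t α = mono v (Fin.cases (motive := fun _ => ℤ)
      (-(∑ i, α i) - ((q : ℤ) + 2)) (fun j => α j.succ)) := by
  unfold mono
  rw [Fin.prod_univ_succ, Fin.prod_univ_succ, Fin.sum_univ_succ]
  show _ = v 0 ^ (-(α 0 + ∑ i : Fin q, α i.succ) - ((q : ℤ) + 2)) * ∏ i : Fin q, v i.succ ^ α i.succ
  have h1 : ∏ i : Fin q, t i.succ ^ α i.succ =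
      (∏ i : Fin q, v i.succ ^ α i.succ) * v 0 ^ (-(∑ i : Fin q, α i.succ)) := by
    have h2 : ∀ i : Fin q, t i.succ ^ α i.succ = v i.succ ^ α i.succ * v 0 ^ (-(α i.succ)) := by
      intro i
      rw [hts, mul_zpow, inv_zpow, zpow_neg]
    simp only [h2]
    rw [Finset.prod_mul_distrib]
    congr 1
    rw [← Finset.sum_neg_distrib]
    generalize (Finset.univ : Finset (Fin q)) = s
    induction s using Finset.cons_induction with
    | empty => rw [Finset.prod_empty, Finset.sum_empty, zpow_zero]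
    | cons a s ha ih => rw [Finset.prod_cons, Finset.sum_cons, zpow_add₀ hv0, ih]
  rw [h1, ht0, inv_zpow, ← zpow_neg, inv_pow, inv_pow, ← zpow_natCast, ← zpow_natCast,
    ← zpow_neg, ← zpow_neg]
  have h3 : v 0 ^ (-(α 0 + ∑ i : Fin q, α i.succ) - ((q : ℤ) + 2)) =
      v 0 ^ (-((2 : ℕ) : ℤ)) * v 0 ^ (-(q : ℤ)) * v 0 ^ (-(α 0)) *
        v 0 ^ (-(∑ i : Fin q, α i.succ)) := by
    rw [← zpow_add₀ hv0, ← zpow_add₀ hv0, ← zpow_add₀ hv0]
    congr 1
    push_cast
    ring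
  rw [h3]
  ring

/-- (III.2), `a = 0`: only monomials of degree `≤ - (p + 1)`.

Proof: `p = q + 1`.  Let `t 0 = (v 0)⁻¹` and `t j = v j * (v 0)⁻¹` for `j ≠ 0`.
`dt_0 = - (v 0)⁻² dv_0`, `dt_j = (v 0)⁻¹ dv_j - v j (v 0)⁻² dv_0`, so `jac t = - (v 0)^(-(p+1)) jac v`
(`jac_eq_det` with a triangular matrix, `Matrix.det_of_lowerTriangular`), in particular
`jac t ≠ 0`.  Let `J = {j | j ≠ 0}`.  For `b ≠ 0` the elements of `C b` are integral over
`k[y_c / y_b : c] ⊆ AJ k t J`: `y_c / y_b = (y_c / y_1) (y_b / y_1)⁻¹`, where `y_0 / y_1 = t 0`,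
`y_1 / y_1 = 1`, `y_{j+1} / y_1 = t j` for `j ≠ 0`.  So `trK t (η / jac t) ∈ AJ k t J` (`integral_iSup`,
`trK_mem`), a combination of the monomials `t^α` with `α 0 ≥ 0` (`AJ_le_span`), and
`t^α = v^β` with `β 0 = - ∑ α i`, `β j = α j` for `j ≠ 0`, `∑ β i = - α 0 ≤ 0`.  The fields `k(t)` and
`k(v)` are equal, so `trK t = trK v` (rewrite with the equality of intermediate fields), and
`η / jac v = - (v 0)^(-(p+1)) η / jac t`, `trK v` is linear over `k(v)`. -/
theorem kill_zero (hp : 1 ≤ p) (bk : Module.Basis (Fin p) κ Ω[κ⁄k]) (y : Fin (p + 1) → κ)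
    (hy : ∀ a, y a ≠ 0) (C : Fin (p + 1) → Subalgebra k κ)
    (hint : ∀ b, ∀ x ∈ C b,
      IsIntegral (Algebra.adjoin k (Set.range fun a => y a * (y b)⁻¹)) x)
    (v : Fin p → κ) (hv : ∀ a : Fin p, v a = y a.succ * (y 0)⁻¹) (hj : jac bk v ≠ 0)
    {η : κ} (hη : η ∈ WC bk (⨆ b ∈ {b | b ≠ 0}, C b)) :
    trK (k := k) v (η * (jac bk v)⁻¹) ∈
      Submodule.span k (mono v '' {α | ∑ i, α i ≤ -((p : ℤ) + 1)}) := by
  obtain ⟨q, rfl⟩ : ∃ q, p = q + 1 := ⟨p - 1, by omega⟩
  have hv0 : v 0 ≠ 0 := by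
    rw [hv]
    exact mul_ne_zero (hy _) (inv_ne_zero (hy _))
  have hvs : ∀ j, v j ≠ 0 := by
    intro j
    rw [hv]
    exact mul_ne_zero (hy _) (inv_ne_zero (hy _))
  set t : Fin (q + 1) → κ := fun i => Fin.cases (motive := fun _ => κ) (v 0)⁻¹
    (fun j => v j.succ * (v 0)⁻¹) i with ht
  have ht0 : t 0 = (v 0)⁻¹ := rfl
  have hts : ∀ j : Fin q, t j.succ = v j.succ * (v 0)⁻¹ := fun _ => rfl
  have htne : ∀ i, t i ≠ 0 := by
    intro i
    refine Fin.cases ?_ (fun j => ?_) i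
    · rw [ht0]
      exact inv_ne_zero hv0
    · rw [hts]
      exact mul_ne_zero (hvs _) (inv_ne_zero hv0)
  have hjt := HI10b_jac bk v t ht0 hts
  set w : κ := (v 0)⁻¹ ^ 2 * (v 0)⁻¹ ^ q with hw
  have hw0 : w ≠ 0 := mul_ne_zero (pow_ne_zero _ (inv_ne_zero hv0))
    (pow_ne_zero _ (inv_ne_zero hv0))
  have hjt0 : jac bk t ≠ 0 := by
    rw [hjt]
    exact mul_ne_zero (neg_ne_zero.2 hw0) hj
  -- the ratios
  have hy1 : y 1 ≠ 0 := hy 1
  have hy0 : y 0 ≠ 0 := hy 0
  have hv01 : v 0 = y 1 * (y 0)⁻¹ := hv 0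
  have hr0 : y 0 * (y 1)⁻¹ = t 0 := by
    rw [ht0, hv01, mul_inv, inv_inv, mul_comm]
  have hrs : ∀ j : Fin q, y j.succ.succ * (y 1)⁻¹ = t j.succ := by
    intro j
    rw [hts, hv, hv01]
    field_simp
  have hmem : ∀ c, y c * (y 1)⁻¹ ∈ AJ k t {j | j ≠ 0} := by
    intro c
    refine Fin.cases ?_ (fun c' => ?_) c
    · rw [hr0]
      exact mem_AJ_self _ _ _
    · refine Fin.cases ?_ (fun j => ?_) c'
      · show y 1 * (y 1)⁻¹ ∈ _
        rw [mul_inv_cancel₀ hy1]
        exact Subalgebra.one_mem _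
      · rw [hrs]
        exact mem_AJ_self _ _ _
  have hinv : ∀ b : Fin (q + 2), b ≠ 0 → (y b * (y 1)⁻¹)⁻¹ ∈ AJ k t {j | j ≠ 0} := by
    intro b
    refine Fin.cases ?_ (fun c' => ?_) b
    · intro h
      exact absurd rfl h
    · intro _
      refine Fin.cases ?_ (fun j => ?_) c'
      · show (y 1 * (y 1)⁻¹)⁻¹ ∈ _
        rw [mul_inv_cancel₀ hy1, inv_one]
        exact Subalgebra.one_mem _
      · rw [hrs]
        exact inv_mem_AJ _ _ (Fin.succ_ne_zero j)
  have hCint : ∀ x ∈ (⨆ b ∈ {b : Fin (q + 1 + 1) | b ≠ 0}, C b : Subalgebra k κ),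
      IsIntegral (AJ k t {j | j ≠ 0}) x := by
    refine integral_iSup {b : Fin (q + 1 + 1) | b ≠ 0} C _ ?_
    intro b hb x hx
    refine HI10b_int ?_ (hint b x hx)
    refine Algebra.adjoin_le ?_
    rintro _ ⟨c, rfl⟩
    have h1 : y c * (y b)⁻¹ = (y c * (y 1)⁻¹) * (y b * (y 1)⁻¹)⁻¹ := by
      have := hy b
      field_simp
    show y c * (y b)⁻¹ ∈ AJ k t {j | j ≠ 0}
    rw [h1]
    exact Subalgebra.mul_mem _ (hmem c) (hinv b hb)
  have h1 := trK_mem bk hjt0 {j | j ≠ 0} hCint hη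
  have h2 := AJ_le_span htne {j | j ≠ 0} h1
  -- equality of the fields
  have hL : IntermediateField.adjoin k (Set.range v) = IntermediateField.adjoin k (Set.range t) := by
    apply le_antisymm
    · rw [IntermediateField.adjoin_le_iff]
      rintro _ ⟨i, rfl⟩
      have ht0m : (v 0)⁻¹ ∈ IntermediateField.adjoin k (Set.range t) :=
        IntermediateField.subset_adjoin _ _ ⟨0, rfl⟩
      have hv0m : v 0 ∈ IntermediateField.adjoin k (Set.range t) := by
        have := inv_mem ht0m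
        rwa [inv_inv] at this
      refine Fin.cases ?_ (fun j => ?_) i
      · exact hv0m
      · have h3 : v j.succ = t j.succ * v 0 := by
          rw [hts]
          field_simp
        show v j.succ ∈ IntermediateField.adjoin k (Set.range t)
        rw [h3]
        exact mul_mem (IntermediateField.subset_adjoin _ _ ⟨j.succ, rfl⟩) hv0m
    · rw [IntermediateField.adjoin_le_iff]
      rintro _ ⟨i, rfl⟩
      have hv0m : (v 0)⁻¹ ∈ IntermediateField.adjoin k (Set.range v) :=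
        inv_mem (IntermediateField.subset_adjoin _ _ ⟨0, rfl⟩)
      refine Fin.cases ?_ (fun j => ?_) i
      · exact hv0m
      · exact mul_mem (IntermediateField.subset_adjoin _ _ ⟨j.succ, rfl⟩) hv0m
  have hwm : -w ∈ IntermediateField.adjoin k (Set.range v) := by
    have hv0m : (v 0)⁻¹ ∈ IntermediateField.adjoin k (Set.range v) :=
      inv_mem (IntermediateField.subset_adjoin _ _ ⟨0, rfl⟩)
    exact neg_mem (mul_mem (pow_mem hv0m 2) (pow_mem hv0m q))
  have h3 : η * (jac bk v)⁻¹ = -w * (η * (jac bk t)⁻¹) := by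
    rw [hjt, mul_inv]
    have : (-w) * (-w)⁻¹ = 1 := mul_inv_cancel₀ (neg_ne_zero.2 hw0)
    calc η * (jac bk v)⁻¹ = ((-w) * (-w)⁻¹) * (η * (jac bk v)⁻¹) := by rw [this, one_mul]
      _ = -w * (η * ((-w)⁻¹ * (jac bk v)⁻¹)) := by ring
  rw [h3, HI10b_lin hwm, HI10b_trK hL]
  refine Submodule.span_induction (p := fun x _ => -w * x ∈ Submodule.span k
    (mono v '' {α | ∑ i, α i ≤ -(((q + 1 : ℕ) : ℤ) + 1)})) ?_ ?_ ?_ ?_ h2
  · rintro _ ⟨α, hα, rfl⟩
    rw [neg_mul, HI10b_mono v t hv0 ht0 hts α]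
    refine Submodule.neg_mem _ (Submodule.subset_span ⟨_, ?_, rfl⟩)
    have hα0 : 0 ≤ α 0 := hα 0 (fun h => h rfl)
    rw [Set.mem_ofPred_eq]
    rw [Fin.sum_univ_succ]
    show (-(∑ i, α i) - ((q : ℤ) + 2)) + ∑ i : Fin q, α i.succ ≤ _
    rw [Fin.sum_univ_succ]
    push_cast
    linarith
  · rw [mul_zero]
    exact Submodule.zero_mem _
  · intro x x' _ _ hx hx'
    rw [mul_add]
    exact Submodule.add_mem _ hx hx'
  · intro r x _ hx
    rw [mul_smul_comm]
    exact Submodule.smul_mem _ _ hx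

end Flip28
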