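import Pool.Agent.FlipB_h28.HI9
import Pool.Agent.FlipB_h28.HI10

/-! # The residue argument (block III of the paper proof) -/

open scoped KaehlerDifferential

universe u

namespace Flip28

section

variable {k κ : Type u} [Field k] [Field κ] [Algebra k κ] {p : ℕ}

theorem HI_trK_add (v : Fin p → κ) (x y : κ) :
    trK (k := k) v (x + y) = trK (k := k) v x + trK (k := k) v y := by
  unfold trK
  rw [map_add]
  rfl

theorem HI_trK_smul (v : Fin p → κ) (c : k) (x : κ) :
    trK (k := k) v (c • x) = c • trK (k := k) v x := by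
  unfold trK
  rw [← IsScalarTower.algebraMap_smul (IntermediateField.adjoin k (Set.range v)) c x, map_smul]
  rw [Algebra.smul_def, Algebra.smul_def]
  rfl

theorem HI_trK_sum (v : Fin p → κ) {ι : Type*} (s : Finset ι) (f : ι → κ) :
    trK (k := k) v (∑ i ∈ s, f i) = ∑ i ∈ s, trK (k := k) v (f i) := by
  classical
  induction s using Finset.induction_on with
  | empty =>
    simp [trK]
  | insert a s ha ih =>
    rw [Finset.sum_insert ha, Finset.sum_insert ha, HI_trK_add, ih]

/-- `trK v` is linear over `k(v)` -/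
theorem HI_trK_mul (v : Fin p → κ) {c : κ}
    (hc : c ∈ IntermediateField.adjoin k (Set.range v)) (x : κ) :
    trK (k := k) v (c * x) = c * trK (k := k) v x := by
  unfold trK
  have h : c * x = (⟨c, hc⟩ : IntermediateField.adjoin k (Set.range v)) • x := rfl
  rw [h, map_smul]
  rfl

theorem HI_WC_mul (bk : Module.Basis (Fin p) κ Ω[κ⁄k]) (C : Subalgebra k κ) {c w : κ}
    (hc : c ∈ C) (hw : w ∈ WC bk C) : c * w ∈ WC bk C := by
  unfold WC at hw ⊢
  induction hw using Submodule.span_induction with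
  | mem x hx =>
    obtain ⟨d, hd, a, ha, rfl⟩ := hx
    exact Submodule.subset_span ⟨c * d, C.mul_mem hc hd, a, ha, by rw [mul_assoc]⟩
  | zero =>
    rw [mul_zero]
    exact Submodule.zero_mem _
  | add x y _ _ hx hy =>
    rw [mul_add]
    exact Submodule.add_mem _ hx hy
  | smul r x _ hx =>
    rw [mul_smul_comm]
    exact Submodule.smul_mem _ _ hx

end

variable {k κ : Type u} [Field k] [Field κ] [Algebra k κ] [CharZero k]
  [Algebra.EssFiniteType k κ] {p : ℕ}

/-- Block III of the paper proof (proofs row 277).  `κ` is the residue field of the point `P` (of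
transcendence degree `p`), `C b` the image of the coordinate ring of the chart `h_b ≠ 0`,
`y a / y b` the image of `h_a / h_b`, `u a = y (a + 1) / y 0`, `η0` the image of `ε`.  If
`(∏ u) η0` is, locally at every maximal ideal of `C 0` containing the `u a`, congruent to `0` or to
`jac u = du₁ ∧ ... ∧ du_p` modulo `(u)`, the second case occurring at least once, then no nonzero
multiple of `η0` is a sum of forms which are regular on the intersections of `p` of the charts.

Proof: (III.1) `Tr (c₀ jac c / jac u) ∈ A` for `c` in a subalgebra `C` integral over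
`A = k[u_i, u_j⁻¹ (j ∈ T)]`, by discrete valuation rings; (III.2) for `η` in
`WC bk (⨆ b ≠ a, C b)` the Laurent polynomial `Tr (η / jac u)` has coefficient `0` at
`u₁⁻¹ ... u_p⁻¹`; (III.3) `Tr ((∏ u) η0 / jac u)` is a polynomial with nonzero constant term. -/
theorem residue_contra (hp : 1 ≤ p) (bk : Module.Basis (Fin p) κ Ω[κ⁄k]) (y : Fin (p + 1) → κ)
    (hy : ∀ a, y a ≠ 0) (C : Fin (p + 1) → Subalgebra k κ) (hfg : ∀ b, (C b).FG)
    (hfr : IsFractionRing (C 0) κ) (hyC : ∀ a b, y a * (y b)⁻¹ ∈ C b)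
    (hint : ∀ b, ∀ x ∈ C b,
      IsIntegral (Algebra.adjoin k (Set.range fun a => y a * (y b)⁻¹)) x)
    (v : Fin p → κ) (hv : ∀ a : Fin p, v a = y a.succ * (y 0)⁻¹)
    (η0 : κ) (h0 : (∏ a, v a) * η0 ∈ WC bk (C 0))
    (hloc : ∀ 𝔫 : Ideal (C 0), 𝔫.IsMaximal → (∀ (a : Fin p) (w : C 0), (w : κ) = v a → w ∈ 𝔫) →
      (∃ s : C 0, s ∉ 𝔫 ∧ (s : κ) * ((∏ a, v a) * η0) ∈ NS (WC bk (C 0)) v p) ∨
      (∃ s : C 0, s ∉ 𝔫 ∧ (s : κ) * ((∏ a, v a) * η0 - jac bk v) ∈ NS (WC bk (C 0)) v p))
    (hex : ∃ 𝔫 : Ideal (C 0), 𝔫.IsMaximal ∧ (∀ (a : Fin p) (w : C 0), (w : κ) = v a → w ∈ 𝔫) ∧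
      ∃ s : C 0, s ∉ 𝔫 ∧ (s : κ) * ((∏ a, v a) * η0 - jac bk v) ∈ NS (WC bk (C 0)) v p)
    (a0 : k) (η : Fin (p + 1) → κ) (hη : ∀ a, η a ∈ WC bk (⨆ b ∈ {b | b ≠ a}, C b))
    (hsum : a0 • η0 = ∑ a, η a) : a0 = 0 := by
  classical
  have hv0 : ∀ a, v a ≠ 0 := fun a => by
    rw [hv a]
    exact mul_ne_zero (hy _) (inv_ne_zero (hy _))
  have hvC : ∀ a, v a ∈ C 0 := fun a => by
    rw [hv a]
    exact hyC _ _
  -- the elements of `C 0` are integral over `k[v]`
  have hadj : Algebra.adjoin k (Set.range fun a => y a * (y 0)⁻¹) ≤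
      Algebra.adjoin k (Set.range v) := by
    refine Algebra.adjoin_le ?_
    rintro _ ⟨a, rfl⟩
    refine Fin.cases ?_ (fun a => ?_) a
    · simp only [mul_inv_cancel₀ (hy 0)]
      exact Subalgebra.one_mem _
    · simp only [← hv a]
      exact Algebra.subset_adjoin ⟨a, rfl⟩
  have hintv : ∀ x ∈ C 0, IsIntegral (Algebra.adjoin k (Set.range v)) x := fun x hx => by
    obtain ⟨q, hq, hq'⟩ := hint 0 x hx
    refine ⟨q.map (Subalgebra.inclusion hadj).toRingHom, hq.map _, ?_⟩
    rw [Polynomial.eval₂_map]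
    exact hq'
  have hj : jac bk v ≠ 0 := jac_ne_zero_of_int bk v (C 0) hfr hintv
  have hfin := finite_of_jac bk hj
  have hind := algInd_of_jac bk hj
  have hAJ : AJ k v ∅ = Algebra.adjoin k (Set.range v) := by
    unfold AJ
    simp
  -- the module `W`
  let W : Submodule k κ :=
    { carrier := {x | x * jac bk v ∈ WC bk (C 0)}
      add_mem' := fun {x y} hx hy => by
        change (x + y) * jac bk v ∈ WC bk (C 0)
        rw [add_mul]
        exact Submodule.add_mem _ hx hy
      zero_mem' := by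
        change 0 * jac bk v ∈ WC bk (C 0)
        rw [zero_mul]
        exact Submodule.zero_mem _
      smul_mem' := fun c x hx => by
        change c • x * jac bk v ∈ WC bk (C 0)
        rw [smul_mul_assoc]
        exact Submodule.smul_mem _ _ hx }
  have hWmem : ∀ x, x ∈ W ↔ x * jac bk v ∈ WC bk (C 0) := fun x => Iff.rfl
  have hNS : ∀ x, x * jac bk v ∈ NS (WC bk (C 0)) v p → x ∈ NS W v p := by
    rintro x ⟨w, hw, hx⟩
    refine ⟨fun a => w a * (jac bk v)⁻¹, fun a => ?_, ?_⟩
    · rw [hWmem, inv_mul_cancel_right₀ hj]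
      exact hw a
    · have h1 : x = (x * jac bk v) * (jac bk v)⁻¹ := by rw [mul_inv_cancel_right₀ hj]
      rw [h1, hx, Finset.sum_mul]
      refine Finset.sum_congr rfl fun a _ => ?_
      simp only [smul_eq_mul]
      ring
  have hφj : (∏ a, v a) * η0 * (jac bk v)⁻¹ * jac bk v = (∏ a, v a) * η0 :=
    inv_mul_cancel_right₀ hj _
  obtain ⟨P, hP0, hP⟩ := nonkill v (C 0) hvC W
    (fun c hc w hw => by
      rw [hWmem, mul_assoc]
      exact HI_WC_mul bk (C 0) hc hw)
    (by
      rw [hWmem, one_mul]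
      exact Submodule.subset_span ⟨1, Subalgebra.one_mem _, v, hvC, (one_mul _).symm⟩)
    (fun w hw => by
      have h1 := trK_mem bk hj ∅ (C := C 0) (fun x hx => by
        rw [hAJ]
        exact hintv x hx) ((hWmem w).1 hw)
      rw [mul_inv_cancel_right₀ hj, hAJ, Algebra.adjoin_range_eq_range_aeval] at h1
      obtain ⟨P, hP⟩ := h1
      exact ⟨P, hP.symm⟩)
    ((∏ a, v a) * η0 * (jac bk v)⁻¹)
    (by
      rw [hWmem, hφj]
      exact h0)
    (fun 𝔫 h𝔫 hv𝔫 => by
      rcases hloc 𝔫 h𝔫 hv𝔫 with ⟨s, hs, h⟩ | ⟨s, hs, h⟩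
      · refine Or.inl ⟨s, hs, hNS _ ?_⟩
        rw [mul_assoc, hφj]
        exact h
      · refine Or.inr ⟨s, hs, hNS _ ?_⟩
        rw [mul_assoc, sub_mul, hφj, one_mul]
        exact h)
    (by
      obtain ⟨𝔫, h𝔫, hv𝔫, s, hs, h⟩ := hex
      refine ⟨𝔫, h𝔫, hv𝔫, s, hs, hNS _ ?_⟩
      rw [mul_assoc, sub_mul, hφj, one_mul]
      exact h)
  -- the trace of `η0 / jac v`
  have hprod : ∏ a, v a ≠ 0 := Finset.prod_ne_zero_iff.2 fun a _ => hv0 a
  have hpmem : (∏ a, v a)⁻¹ ∈ IntermediateField.adjoin k (Set.range v) := by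
    refine inv_mem (prod_mem fun a _ => ?_)
    exact IntermediateField.subset_adjoin _ _ ⟨a, rfl⟩
  have h1 : trK (k := k) v (η0 * (jac bk v)⁻¹) =
      MvPolynomial.aeval v P * (∏ a, v a)⁻¹ := by
    have h2 : η0 * (jac bk v)⁻¹ = (∏ a, v a)⁻¹ * ((∏ a, v a) * η0 * (jac bk v)⁻¹) := by
      field_simp
    rw [h2, HI_trK_mul v hpmem, hP, mul_comm]
  -- the other side
  have hα : ∀ a, trK (k := k) v (η a * (jac bk v)⁻¹) ∈
      Submodule.span k (mono v '' {α | α ≠ fun _ => -1}) := by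
    intro a
    refine Fin.cases ?_ (fun a => ?_) a
    · have h3 := kill_zero hp bk y hy C hint v hv hj (hη 0)
      refine Submodule.span_mono (Set.image_mono ?_) h3
      intro α hα h4
      rw [Set.mem_ofPred_eq, h4] at hα
      simp at hα
    · have h3 := kill_succ bk y hy C hint v hv hj a (hη a.succ)
      refine Submodule.span_mono (Set.image_mono ?_) h3
      intro α hα h4
      rw [Set.mem_ofPred_eq, h4] at hα
      simp at hα
  have h5 : a0 • trK (k := k) v (η0 * (jac bk v)⁻¹) ∈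
      Submodule.span k (mono v '' {α | α ≠ fun _ => -1}) := by
    rw [← HI_trK_smul, ← smul_mul_assoc, hsum, Finset.sum_mul, HI_trK_sum]
    exact Submodule.sum_mem _ fun a _ => hα a
  have h6 := aeval_div_prod hv0 P
  have h7 : (a0 * MvPolynomial.constantCoeff P) • mono v (fun _ => -1) ∈
      Submodule.span k (mono v '' {α | α ≠ fun _ => -1}) := by
    have h8 : (a0 * MvPolynomial.constantCoeff P) • mono v (fun _ => -1) =
        a0 • trK (k := k) v (η0 * (jac bk v)⁻¹) -
        a0 • (MvPolynomial.aeval v P * (∏ i, v i)⁻¹ -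
          MvPolynomial.constantCoeff P • mono v (fun _ => -1)) := by
      rw [h1, smul_sub, sub_sub_cancel, mul_smul]
    rw [h8]
    exact Submodule.sub_mem _ h5 (Submodule.smul_mem _ _ h6)
  have h9 := smul_mono_mem hind (α := fun _ => -1) (S := {α | α ≠ fun _ => -1})
    (by simp) h7
  exact (mul_eq_zero.1 h9).resolve_right hP0

end Flip28
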