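import Pool.Agent.FlipB_h28.HDef
import Pool.Agent.Flip_h28.DegA
import Pool.Agent.Flip_h28.Cord

/-!
# The residue argument: definitions

Paper proof: table proofs, row 277 (MP_a06248_ag), Part III.

`T` is the field `k(u₁, ..., u_p)` with `u` algebraically independent, `F` a finite extension
of `T`.
-/

open scoped KaehlerDifferential

universe u

namespace Flip28

section

variable (k : Type*) {T : Type*} [Field k] [Field T] [Algebra k T] {p : ℕ}

/-- the algebra `k[u₁, ..., u_p, u_j⁻¹ (j ∈ J)]` -/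
def AJ (u : Fin p → T) (J : Set (Fin p)) : Subalgebra k T :=
  Algebra.adjoin k (Set.range u ∪ (fun j => (u j)⁻¹) '' J)

/-- `T` is the field of fractions of `k[u]` -/
def IsFr (u : Fin p → T) : Prop :=
  ∀ x : T, ∃ a b : MvPolynomial (Fin p) k, b ≠ 0 ∧
    x * MvPolynomial.aeval u b = MvPolynomial.aeval u a

variable {k}

theorem mem_AJ_self (u : Fin p → T) (J : Set (Fin p)) (i : Fin p) : u i ∈ AJ k u J :=
  Algebra.subset_adjoin (Or.inl ⟨i, rfl⟩)

theorem inv_mem_AJ (u : Fin p → T) (J : Set (Fin p)) {j : Fin p} (hj : j ∈ J) :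
    (u j)⁻¹ ∈ AJ k u J :=
  Algebra.subset_adjoin (Or.inr ⟨j, hj, rfl⟩)

/-- the localization of `k[u]` at the prime polynomial `P` -/
def RP (u : Fin p → T) (P : MvPolynomial (Fin p) k) (hP : Prime P) : Subalgebra k T where
  carrier := {x | ∃ a b : MvPolynomial (Fin p) k, ¬ P ∣ b ∧
    x * MvPolynomial.aeval u b = MvPolynomial.aeval u a}
  mul_mem' := by
    rintro x y ⟨a, b, hb, h⟩ ⟨a', b', hb', h'⟩
    refine ⟨a * a', b * b', fun hd => ?_, ?_⟩
    · rcases hP.dvd_or_dvd hd with h1 | h1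
      · exact hb h1
      · exact hb' h1
    · rw [map_mul, map_mul, ← h, ← h']
      ring
  add_mem' := by
    rintro x y ⟨a, b, hb, h⟩ ⟨a', b', hb', h'⟩
    refine ⟨a * b' + a' * b, b * b', fun hd => ?_, ?_⟩
    · rcases hP.dvd_or_dvd hd with h1 | h1
      · exact hb h1
      · exact hb' h1
    · rw [map_mul, map_add, map_mul, map_mul, ← h, ← h']
      ring
  algebraMap_mem' := by
    intro c
    refine ⟨MvPolynomial.C c, 1, fun hd => hP.not_isUnit (isUnit_of_dvd_one hd), ?_⟩
    rw [map_one, mul_one, MvPolynomial.aeval_C]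

theorem mem_RP {u : Fin p → T} {P : MvPolynomial (Fin p) k} {hP : Prime P} {x : T} :
    x ∈ RP u P hP ↔ ∃ a b : MvPolynomial (Fin p) k, ¬ P ∣ b ∧
      x * MvPolynomial.aeval u b = MvPolynomial.aeval u a := Iff.rfl

theorem aeval_mem_RP (u : Fin p → T) (P : MvPolynomial (Fin p) k) (hP : Prime P)
    (Q : MvPolynomial (Fin p) k) : MvPolynomial.aeval u Q ∈ RP u P hP :=
  ⟨Q, 1, fun hd => hP.not_isUnit (isUnit_of_dvd_one hd), by rw [map_one, mul_one]⟩

/-- the monomial `u^α` -/
noncomputable def mono (u : Fin p → T) (α : Fin p → ℤ) : T := ∏ i, u i ^ α i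

end

/-- `D₁, ..., D_p` are derivations of `F` dual to `u₁, ..., u_p` -/
def DualD {k T F : Type*} [Field k] [Field T] [Field F] [Algebra k F] [Algebra T F] {p : ℕ}
    (u : Fin p → T) (D : Fin p → Derivation k F F) : Prop :=
  ∀ i j, D i (algebraMap T F (u j)) = if i = j then 1 else 0

end Flip28
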