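import Pool.Agent.FlipB_h28.HI0

/-! # Elements of `k(u)` without poles: `k[u]` is factorial -/

namespace Flip28

variable {k T : Type*} [Field k] [Field T] [Algebra k T] {p : ℕ}

/-- Generators: `u i` is in `RP` and `(u j)⁻¹ * u j = 1` (if `u j = 0` then `(u j)⁻¹ = 0`);
`aeval u (X j) = u j`. -/
theorem AJ_le_RP (u : Fin p → T) {P : MvPolynomial (Fin p) k} (hP : Prime P) {J : Set (Fin p)}
    (hJ : ∀ j ∈ J, ¬ P ∣ MvPolynomial.X j) : AJ k u J ≤ RP u P hP := by
  refine Algebra.adjoin_le ?_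
  rintro x (⟨i, rfl⟩ | ⟨j, hj, rfl⟩)
  · have h := aeval_mem_RP u P hP (MvPolynomial.X i)
    rwa [MvPolynomial.aeval_X] at h
  · by_cases h0 : u j = 0
    · change (u j)⁻¹ ∈ RP u P hP
      rw [h0, inv_zero]
      exact Subalgebra.zero_mem _
    · exact mem_RP.2 ⟨1, MvPolynomial.X j, hJ j hj, by
        rw [MvPolynomial.aeval_X, map_one]
        exact inv_mul_cancel₀ h0⟩

theorem HI1_aeval_mem (u : Fin p → T) (J : Set (Fin p)) (Q : MvPolynomial (Fin p) k) :
    MvPolynomial.aeval u Q ∈ AJ k u J := by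
  induction Q using MvPolynomial.induction_on with
  | C c =>
    rw [MvPolynomial.aeval_C]
    exact Subalgebra.algebraMap_mem _ c
  | add a b ha hb =>
    rw [map_add]
    exact Subalgebra.add_mem _ ha hb
  | mul_X a i ha =>
    rw [map_mul, MvPolynomial.aeval_X]
    exact Subalgebra.mul_mem _ ha (mem_AJ_self u J i)

theorem HI1_ne_zero (u : Fin p → T) (hu : AlgebraicIndependent k u)
    {Q : MvPolynomial (Fin p) k} (hQ : Q ≠ 0) : MvPolynomial.aeval u Q ≠ 0 := by
  intro h
  rw [← map_zero (MvPolynomial.aeval u (R := k))] at h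
  exact hQ (hu h)

theorem HI1_inv_mem (u : Fin p → T) (hu : AlgebraicIndependent k u) (J : Set (Fin p))
    (b : MvPolynomial (Fin p) k)
    (h : ∀ P : MvPolynomial (Fin p) k, Prime P → P ∣ b → ∃ j ∈ J, P ∣ MvPolynomial.X j) :
    (MvPolynomial.aeval u b)⁻¹ ∈ AJ k u J := by
  induction b using UniqueFactorizationMonoid.induction_on_prime with
  | h₁ =>
    rw [map_zero, inv_zero]
    exact Subalgebra.zero_mem _
  | h₂ b hb =>
    obtain ⟨c, rfl⟩ := hb
    have h1 : MvPolynomial.aeval u (c : MvPolynomial (Fin p) k) *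
        MvPolynomial.aeval u ((c⁻¹ : (MvPolynomial (Fin p) k)ˣ) : MvPolynomial (Fin p) k) = 1 := by
      rw [← map_mul, Units.mul_inv, map_one]
    rw [inv_eq_of_mul_eq_one_right h1]
    exact HI1_aeval_mem u J _
  | h₃ b P _ hP ih =>
    have h1 := ih fun P' hP' hd => h P' hP' (Dvd.dvd.mul_left hd P)
    obtain ⟨j, hj, Q, hQ⟩ := h P hP (dvd_mul_right P b)
    have h2 : MvPolynomial.aeval u P * MvPolynomial.aeval u Q = u j := by
      rw [← map_mul, ← hQ, MvPolynomial.aeval_X]
    have h3 : u j ≠ 0 := by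
      have h4 := HI1_ne_zero u hu (MvPolynomial.X_ne_zero (R := k) j)
      rwa [MvPolynomial.aeval_X] at h4
    have h5 : (MvPolynomial.aeval u P)⁻¹ = MvPolynomial.aeval u Q * (u j)⁻¹ := by
      apply inv_eq_of_mul_eq_one_right
      rw [← mul_assoc, h2, mul_inv_cancel₀ h3]
    rw [map_mul, mul_inv, h5]
    exact Subalgebra.mul_mem _ (Subalgebra.mul_mem _ (HI1_aeval_mem u J Q) (inv_mem_AJ u J hj)) h1

/-- An element `x = a(u) / b(u)` of `k(u)` which belongs to the localizations of `k[u]` at all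
prime polynomials `P` not dividing any `X j`, `j ∈ J`, belongs to `k[u, u_j⁻¹ (j ∈ J)]`.

Proof: by `exists_reduced_factors` (unique factorization in `MvPolynomial (Fin p) k`) one can
take `a, b` relatively prime.  If a prime `P` divides `b` and divides no `X j`, `j ∈ J`, then
`x ∈ RP u P`: `x b''(u) = a''(u)` with `P ∤ b''`, and `a(u) b''(u) = a''(u) b(u)`, so
`a b'' = a'' b` (`hu`), `P ∣ a b''`, `P ∣ a`, contradiction.  So every prime divisor of `b`
divides some `X j`, `j ∈ J`.  Show by induction on the prime factorization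
(`UniqueFactorizationMonoid.induction_on_prime`) that then `(aeval u b)⁻¹ ∈ AJ k u J`: for a
unit `b` it is the inverse of a constant (`MvPolynomial.isUnit_iff_eq_C_of_isReduced` or the
inverse polynomial); for `P * b'`: `X j = P * Q`, so `P(u)⁻¹ = Q(u) * (u j)⁻¹`. -/
theorem mem_AJ_of_RP (u : Fin p → T) (hu : AlgebraicIndependent k u) (J : Set (Fin p)) {x : T}
    (hx : ∃ a b : MvPolynomial (Fin p) k, b ≠ 0 ∧
      x * MvPolynomial.aeval u b = MvPolynomial.aeval u a)
    (h : ∀ (P : MvPolynomial (Fin p) k) (hP : Prime P),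
      (∀ j ∈ J, ¬ P ∣ MvPolynomial.X j) → x ∈ RP u P hP) : x ∈ AJ k u J := by
  obtain ⟨a₀, b₀, hb₀, hx₀⟩ := hx
  obtain ⟨b, a, c, hrel, hb, ha⟩ := UniqueFactorizationMonoid.exists_reduced_factors b₀ hb₀ a₀
  have hc : c ≠ 0 := by
    rintro rfl
    exact hb₀ (by rw [← hb, zero_mul])
  have hb1 : b ≠ 0 := by
    rintro rfl
    exact hb₀ (by rw [← hb, mul_zero])
  have hcu := HI1_ne_zero u hu hc
  have hbu := HI1_ne_zero u hu hb1
  have hx1 : x * MvPolynomial.aeval u b = MvPolynomial.aeval u a := by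
    apply mul_left_cancel₀ hcu
    rw [← map_mul, ha, ← hx₀, ← hb, map_mul]
    ring
  have hinv : (MvPolynomial.aeval u b)⁻¹ ∈ AJ k u J := by
    refine HI1_inv_mem u hu J b fun P hP hd => ?_
    by_contra hcon
    push Not at hcon
    obtain ⟨a', b', hb', hx'⟩ := mem_RP.1 (h P hP hcon)
    have h1 : MvPolynomial.aeval u (a * b') = MvPolynomial.aeval u (a' * b) := by
      rw [map_mul, map_mul, ← hx1, ← hx']
      ring
    have h2 : a * b' = a' * b := hu h1
    have h3 : P ∣ a * b' := by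
      rw [h2]
      exact Dvd.dvd.mul_left hd a'
    rcases hP.dvd_or_dvd h3 with h4 | h4
    · exact hP.not_isUnit (hrel hd h4)
    · exact hb' h4
  have hx2 : x = MvPolynomial.aeval u a * (MvPolynomial.aeval u b)⁻¹ := by
    rw [← hx1, mul_assoc, mul_inv_cancel₀ hbu, mul_one]
  rw [hx2]
  exact Subalgebra.mul_mem _ (HI1_aeval_mem u J a) hinv

end Flip28
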