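import Pool.Agent.FlipB_h28.HI0

/-! # The local rings of `k[u]` at the prime polynomials -/

namespace Flip28

variable {k T : Type*} [Field k] [Field T] [Algebra k T] {p : ℕ}

theorem HI2_ne {u : Fin p → T} (hu : AlgebraicIndependent k u) {Q : MvPolynomial (Fin p) k}
    (hQ : Q ≠ 0) : MvPolynomial.aeval u Q ≠ 0 := by
  intro h
  refine hQ (hu ?_)
  rw [h, map_zero]

theorem HI2_inv {u : Fin p → T} (hu : AlgebraicIndependent k u)
    {P Q : MvPolynomial (Fin p) k} (hP : Prime P) (hQ : ¬ P ∣ Q) :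
    (MvPolynomial.aeval u Q)⁻¹ ∈ RP u P hP := by
  have hQ0 : Q ≠ 0 := by
    rintro rfl
    exact hQ (dvd_zero P)
  exact ⟨1, Q, hQ, by rw [inv_mul_cancel₀ (HI2_ne hu hQ0), map_one]⟩

/-- `P(u)` is a uniformizer of `RP u P`.

Proof: `P(u) ∈ RP`; if `P(u)⁻¹ b(u) = a(u)`, `P ∤ b`, then `b(u) = a(u) P(u)`, so `b = a P` by
`hu`, contradiction.  For `x ≠ 0`, `x b(u) = a(u)` with `b ≠ 0`, so `a ≠ 0`; write `a = P ^ m * a'`,
`b = P ^ l * b'` with `P ∤ a'`, `P ∤ b'` (finite multiplicity); take `n = m - l`: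
`x * P(u) ^ (-n) * b'(u) = a'(u)` and conversely. -/
theorem isUnif_RP {u : Fin p → T} (hu : AlgebraicIndependent k u) (hT : IsFr k u)
    {P : MvPolynomial (Fin p) k} (hP : Prime P) :
    IsUnif (RP u P hP) (MvPolynomial.aeval u P) := by
  have hP0 : MvPolynomial.aeval u P ≠ 0 := HI2_ne hu hP.ne_zero
  refine ⟨aeval_mem_RP u P hP P, ?_, ?_⟩
  · rintro ⟨a, b, hb, h⟩
    rw [inv_mul_eq_iff_eq_mul₀ hP0, ← map_mul] at h
    exact hb ⟨a, hu h⟩
  · intro x hx
    obtain ⟨a, b, hb, h⟩ := hT x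
    have ha : a ≠ 0 := by
      rintro rfl
      rw [map_zero] at h
      exact mul_ne_zero hx (HI2_ne hu hb) h
    obtain ⟨m, a', ha', rfl⟩ := WfDvdMonoid.max_power_factor ha hP.irreducible
    obtain ⟨l, b', hb', rfl⟩ := WfDvdMonoid.max_power_factor hb hP.irreducible
    rw [map_mul, map_mul, map_pow, map_pow] at h
    have hy : x * MvPolynomial.aeval u P ^ (-((m : ℤ) - l)) * MvPolynomial.aeval u b' =
        MvPolynomial.aeval u a' := by
      have h1 : MvPolynomial.aeval u P ^ (-((m : ℤ) - l)) =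
          (MvPolynomial.aeval u P ^ m)⁻¹ * MvPolynomial.aeval u P ^ l := by
        rw [neg_sub, zpow_sub₀ hP0, zpow_natCast, zpow_natCast, div_eq_mul_inv, mul_comm]
      rw [h1]
      have h2 : MvPolynomial.aeval u P ^ m ≠ 0 := pow_ne_zero _ hP0
      calc x * ((MvPolynomial.aeval u P ^ m)⁻¹ * MvPolynomial.aeval u P ^ l) *
          MvPolynomial.aeval u b' = (MvPolynomial.aeval u P ^ m)⁻¹ *
            (x * (MvPolynomial.aeval u P ^ l * MvPolynomial.aeval u b')) := by ring
        _ = MvPolynomial.aeval u a' := by rw [h, ← mul_assoc, inv_mul_cancel₀ h2, one_mul]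
    have hy0 : x * MvPolynomial.aeval u P ^ (-((m : ℤ) - l)) ≠ 0 :=
      mul_ne_zero hx (zpow_ne_zero _ hP0)
    refine ⟨(m : ℤ) - l, ⟨a', b', hb', hy⟩, ⟨b', a', ha', ?_⟩⟩
    rw [← hy, ← mul_assoc, inv_mul_cancel₀ hy0, one_mul]

/-- `RP u P` is a prime divisor: it is a discrete valuation ring by `isUnif_RP` and a localization
(`IsLoc`) of `R = Algebra.adjoin k (Set.range u)`: for `x ∈ RP`, `x b(u) = a(u)`, `P ∤ b`, take
`r = a(u)`, `s = b(u)`; `s⁻¹ ∈ RP` because `b(u)⁻¹ b(u) = 1`; `RP` is a local ring by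
`IsDVR.isVal` and `IsVal.isLocalRing`. -/
theorem isPrimeDiv_RP {u : Fin p → T} (hu : AlgebraicIndependent k u) (hT : IsFr k u)
    {P : MvPolynomial (Fin p) k} (hP : Prime P) : IsPrimeDiv (RP u P hP) := by
  have hdvr : IsDVR (RP u P hP) := ⟨_, isUnif_RP hu hT hP⟩
  have hmem : ∀ Q : MvPolynomial (Fin p) k,
      MvPolynomial.aeval u Q ∈ Algebra.adjoin k (Set.range u) := by
    intro Q
    rw [Algebra.adjoin_range_eq_range_aeval]
    exact ⟨Q, rfl⟩
  refine ⟨hdvr, Algebra.adjoin k (Set.range u),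
    Subalgebra.fg_def.2 ⟨Set.range u, Set.finite_range u, rfl⟩, ?_, hdvr.isVal.isLocalRing, ?_⟩
  · refine Algebra.adjoin_le ?_
    rintro _ ⟨i, rfl⟩
    have h1 := aeval_mem_RP u P hP (MvPolynomial.X i)
    rwa [MvPolynomial.aeval_X] at h1
  · rintro x ⟨a, b, hb, h⟩
    have hb0 : b ≠ 0 := by
      rintro rfl
      exact hb (dvd_zero P)
    refine ⟨_, hmem a, _, hmem b, HI2_inv hu hP hb, ?_⟩
    rw [← h, mul_assoc, mul_inv_cancel₀ (HI2_ne hu hb0), mul_one]

/-- the inverse of `Q(u)` is in `RP` if `P ∤ Q` -/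
theorem inv_mem_RP {u : Fin p → T} (hu : AlgebraicIndependent k u)
    {P Q : MvPolynomial (Fin p) k} (hP : Prime P) (hQ : ¬ P ∣ Q) :
    (MvPolynomial.aeval u Q)⁻¹ ∈ RP u P hP :=
  HI2_inv hu hP hQ

/-- the total degree drops under differentiation -/
theorem HI2_aux_deg (i : Fin p) {P : MvPolynomial (Fin p) k}
    (h : MvPolynomial.pderiv i P ≠ 0) :
    (MvPolynomial.pderiv i P).totalDegree < P.totalDegree := by
  classical
  have key : ∀ m ∈ (MvPolynomial.pderiv i P).support,
      (m.sum fun _ e => e) + 1 ≤ P.totalDegree := by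
    intro m hm
    rw [MvPolynomial.mem_support_iff, MvPolynomial.coeff_pderiv] at hm
    have h1 : m + Finsupp.single i 1 ∈ P.support := by
      rw [MvPolynomial.mem_support_iff]
      exact left_ne_zero_of_mul hm
    have h2 := MvPolynomial.le_totalDegree h1
    rw [Finsupp.sum_add_index' (fun _ => rfl) (fun _ _ _ => rfl),
      Finsupp.sum_single_index rfl] at h2
    exact h2
  obtain ⟨m, hm⟩ := MvPolynomial.support_nonempty.mpr h
  have hpos : 0 < P.totalDegree := by
    have := key m hm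
    omega
  refine (Finset.sup_lt_iff (by simpa using hpos)).mpr fun m hm => ?_
  have := key m hm
  omega

/-- Not all partial derivatives of a prime polynomial `P` are divisible by `P`
(characteristic 0).

Proof: otherwise `pderiv i P = 0` for all `i`, because the degree of `pderiv i P` in the variable
`X i` is smaller than the one of `P` if `P` involves `X i` (a nonzero multiple of `P` has at
least the `degreeOf i` of `P`; `MvPolynomial.degreeOf_mul_eq`), and `pderiv i P = 0` otherwise.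
So `P` is constant (characteristic 0: a monomial of `P` with exponent `m > 0` at `i` gives the
coefficient `m * c ≠ 0` of `pderiv i P`), hence `0` or a unit. -/
theorem exists_pderiv_not_dvd [CharZero k] {P : MvPolynomial (Fin p) k} (hP : Prime P) :
    ∃ i, ¬ P ∣ MvPolynomial.pderiv i P := by
  classical
  by_contra hcon
  push Not at hcon
  have hP0 : P ≠ 0 := hP.ne_zero
  have h0 : ∀ i, MvPolynomial.pderiv i P = 0 := by
    intro i
    by_contra hne
    obtain ⟨Q, hQ⟩ := hcon i
    have hQ0 : Q ≠ 0 := by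
      rintro rfl
      rw [mul_zero] at hQ
      exact hne hQ
    have h1 := HI2_aux_deg i hne
    rw [hQ, MvPolynomial.totalDegree_mul_of_isDomain hP0 hQ0] at h1
    omega
  have hC : P = MvPolynomial.C (MvPolynomial.coeff 0 P) := by
    ext m
    rw [MvPolynomial.coeff_C]
    by_cases hm : 0 = m
    · rw [if_pos hm, ← hm]
    · rw [if_neg hm]
      obtain ⟨i, hi⟩ : ∃ i, m i ≠ 0 := by
        by_contra hc
        push Not at hc
        exact hm (Finsupp.ext fun i => (hc i).symm)
      have h1 := MvPolynomial.coeff_pderiv (i := i) P (m - Finsupp.single i 1)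
      rw [h0 i, MvPolynomial.coeff_zero, tsub_add_cancel_of_le
        (Finsupp.single_le_iff.mpr (Nat.one_le_iff_ne_zero.mpr hi))] at h1
      have h2 : (((m - Finsupp.single i 1 : Fin p →₀ ℕ) i : ℕ) : k) + 1 ≠ 0 := by
        exact Nat.cast_add_one_ne_zero _
      exact (mul_eq_zero.mp h1.symm).resolve_right h2
  have hc0 : MvPolynomial.coeff 0 P ≠ 0 := by
    intro h
    rw [h, map_zero] at hC
    exact hP0 hC
  apply hP.not_isUnit
  rw [hC]
  exact (IsUnit.mk0 _ hc0).map MvPolynomial.C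

variable {F : Type*} [Field F] [Algebra k F] [Algebra T F] [IsScalarTower k T F]

/-- chain rule (`MvPolynomial.induction_on`) -/
theorem dualD_aeval {u : Fin p → T} {D : Fin p → Derivation k F F} (hD : DualD u D)
    (i : Fin p) (Q : MvPolynomial (Fin p) k) :
    D i (algebraMap T F (MvPolynomial.aeval u Q)) =
      algebraMap T F (MvPolynomial.aeval u (MvPolynomial.pderiv i Q)) := by
  classical
  induction Q using MvPolynomial.induction_on with
  | C a =>
    rw [MvPolynomial.aeval_C, MvPolynomial.pderiv_C, map_zero, map_zero,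
      ← IsScalarTower.algebraMap_apply, Derivation.map_algebraMap]
  | add a b ha hb => simp only [map_add, ha, hb]
  | mul_X a j ha =>
    rw [map_mul, map_mul, MvPolynomial.aeval_X, Derivation.leibniz, ha, hD i j,
      MvPolynomial.pderiv_mul, MvPolynomial.pderiv_X, map_add, map_mul, map_mul, map_add,
      map_mul, map_mul, MvPolynomial.aeval_X, smul_eq_mul, smul_eq_mul]
    by_cases hij : i = j
    · subst hij
      simp only [if_true, Pi.single_eq_same, map_one]
      ring
    · simp only [if_neg hij, Pi.single_eq_of_ne' hij, map_zero]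
      ring

/-- The derivations `D i` map `RP` to itself.

Proof: `x b(u) = a(u)`, `P ∤ b` (so `b(u) ≠ 0` by `hu`); `D i x * b(u) + x * (∂ᵢ b)(u) = (∂ᵢ a)(u)`,
so `D i x = ((∂ᵢ a)(u) - x (∂ᵢ b)(u)) * b(u)⁻¹`, in `RP` by `inv_mem_RP`. -/
theorem dualD_RP {u : Fin p → T} (hu : AlgebraicIndependent k u) {D : Fin p → Derivation k F F}
    (hD : DualD u D) {P : MvPolynomial (Fin p) k} (hP : Prime P) (i : Fin p) {x : T}
    (hx : x ∈ RP u P hP) : ∃ y ∈ RP u P hP, D i (algebraMap T F x) = algebraMap T F y := by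
  obtain ⟨a, b, hb, hab⟩ := mem_RP.mp hx
  have hb0 : b ≠ 0 := fun h => hb (h ▸ dvd_zero P)
  have hbu : MvPolynomial.aeval u b ≠ 0 := by
    intro h
    exact hb0 ((map_eq_zero_iff _ hu).mp h)
  refine ⟨(MvPolynomial.aeval u (MvPolynomial.pderiv i a) -
    x * MvPolynomial.aeval u (MvPolynomial.pderiv i b)) * (MvPolynomial.aeval u b)⁻¹,
    Subalgebra.mul_mem _ (Subalgebra.sub_mem _ (aeval_mem_RP u P hP _)
      (Subalgebra.mul_mem _ hx (aeval_mem_RP u P hP _))) (inv_mem_RP hu hP hb), ?_⟩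
  have h1 : D i (algebraMap T F (x * MvPolynomial.aeval u b)) =
      D i (algebraMap T F (MvPolynomial.aeval u a)) := by rw [hab]
  rw [map_mul, Derivation.leibniz, dualD_aeval hD, dualD_aeval hD, smul_eq_mul,
    smul_eq_mul] at h1
  have hbF : algebraMap T F (MvPolynomial.aeval u b) ≠ 0 := by
    rwa [Ne, map_eq_zero]
  rw [map_mul, map_inv₀, map_sub, map_mul, ← h1]
  field_simp
  ring

end Flip28
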