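import Pool.Agent.FlipB_h28.HI0

/-! # Logarithmic derivations extend to finite extensions of a discrete valuation ring -/

open scoped KaehlerDifferential

namespace Flip28

variable {k T F : Type*} [Field k] [CharZero k] [Field T] [Field F] [Algebra k T] [Algebra k F]
  [Algebra T F] [IsScalarTower k T F]

/-- `x` is in the maximal ideal of `v` -/
def HI3_N (v : Subalgebra k F) (x : F) : Prop := x = 0 ∨ 0 < ord v x

omit [CharZero k] in
theorem HI3_N_add {v : Subalgebra k F} (hv : IsDVR v) {x y : F} (hx : HI3_N v x)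
    (hy : HI3_N v y) : HI3_N v (x + y) := by
  rcases hx with hx | hx
  · rw [hx, zero_add]
    exact hy
  rcases hy with hy | hy
  · rw [hy, add_zero]
    exact Or.inr hx
  by_cases hx0 : x = 0
  · rw [hx0, zero_add]
    exact Or.inr hy
  by_cases hy0 : y = 0
  · rw [hy0, add_zero]
    exact Or.inr hx
  by_cases hxy : x + y = 0
  · exact Or.inl hxy
  · have := ord_add hv hx0 hy0 hxy
    right
    omega

omit [CharZero k] in
theorem HI3_N_mul {v : Subalgebra k F} (hv : IsDVR v) {x y : F} (hx : x ∈ v)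
    (hy : HI3_N v y) : HI3_N v (x * y) := by
  by_cases hx0 : x = 0
  · left
    rw [hx0, zero_mul]
  by_cases hy0 : y = 0
  · left
    rw [hy0, mul_zero]
  rcases hy with hy | hy
  · exact absurd hy hy0
  · right
    rw [ord_mul hv hx0 hy0]
    have := (mem_iff hv hx0).1 hx
    omega

omit [CharZero k] in
theorem HI3_N_sub {v : Subalgebra k F} (hv : IsDVR v) {x y : F} (hx : HI3_N v x)
    (hy : HI3_N v y) : HI3_N v (x - y) := by
  rw [sub_eq_add_neg, ← neg_one_mul]
  exact HI3_N_add hv hx (HI3_N_mul hv (v.neg_mem v.one_mem) hy)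

omit [CharZero k] in
theorem HI3_N_unit {v : Subalgebra k F} (hv : IsDVR v) {x : F} (hx0 : x ≠ 0) (hx : x⁻¹ ∈ v) :
    ¬ HI3_N v x := by
  rintro (h | h)
  · exact hx0 h
  · exact (ord_pos_iff hv hx0).1 h hx

omit [CharZero k] [Algebra k T] [IsScalarTower k T F] in
theorem HI3_aeval_sum (g : F) (Q : Polynomial T) :
    Polynomial.aeval g Q = ∑ n ∈ Q.support, algebraMap T F (Q.coeff n) * g ^ n := by
  rw [Polynomial.aeval_def, Polynomial.eval₂_eq_sum, Polynomial.sum_def]

omit [CharZero k] [IsScalarTower k T F] in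
theorem HI3_aeval_mem {t : Subalgebra k T} {v : Subalgebra k F} (hv : v ∈ Ext (F := F) t) {g : F}
    (hg : g ∈ v) {Q : Polynomial T} (hQ : ∀ n, Q.coeff n ∈ t) : Polynomial.aeval g Q ∈ v := by
  rw [HI3_aeval_sum]
  refine v.sum_mem fun n _ => v.mul_mem ((hv.2 _).1 (hQ n)) (v.pow_mem hg n)

/-- coefficients in `t`, one of them a unit, the value at `g` in the maximal ideal -/
def HI3_Good (t : Subalgebra k T) (v : Subalgebra k F) (g : F) (Q : Polynomial T) : Prop :=
  (∀ n, Q.coeff n ∈ t) ∧ (∃ n, Q.coeff n ≠ 0 ∧ (Q.coeff n)⁻¹ ∈ t) ∧ HI3_N v (Polynomial.aeval g Q)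

omit [CharZero k] [IsScalarTower k T F] in
theorem HI3_exists_good [FiniteDimensional T F] {t : Subalgebra k T} (ht : IsDVR t)
    (v : Subalgebra k F) (g : F) : ∃ Q : Polynomial T, HI3_Good t v g Q := by
  obtain ⟨P, hP0, hP⟩ : ∃ P : Polynomial T, P ≠ 0 ∧ Polynomial.aeval g P = 0 :=
    Algebra.IsAlgebraic.isAlgebraic (R := T) g
  obtain ⟨m, hm, hmin⟩ := Finset.exists_min_image P.support (fun n => ord t (P.coeff n))
    (Polynomial.support_nonempty.2 hP0)
  have hm0 : P.coeff m ≠ 0 := Polynomial.mem_support_iff.1 hm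
  refine ⟨Polynomial.C (P.coeff m)⁻¹ * P, fun n => ?_, ⟨m, ?_, ?_⟩, ?_⟩
  · rw [Polynomial.coeff_C_mul]
    by_cases hn : P.coeff n = 0
    · rw [hn, mul_zero]
      exact t.zero_mem
    · rw [mem_iff ht (mul_ne_zero (inv_ne_zero hm0) hn), ord_mul ht (inv_ne_zero hm0) hn,
        ord_inv ht]
      have := hmin n (Polynomial.mem_support_iff.2 hn)
      omega
  · rw [Polynomial.coeff_C_mul, inv_mul_cancel₀ hm0]
    exact one_ne_zero
  · rw [Polynomial.coeff_C_mul, inv_mul_cancel₀ hm0, inv_one]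
    exact t.one_mem
  · left
    rw [map_mul, hP, mul_zero]

theorem HI3_exists_min [FiniteDimensional T F] {t : Subalgebra k T} (ht : IsDVR t)
    (v : Subalgebra k F) (g : F) : ∃ Q : Polynomial T, HI3_Good t v g Q ∧
      ∀ Q', HI3_Good t v g Q' → Q.natDegree ≤ Q'.natDegree := by
  classical
  have hex : ∃ d : ℕ, ∃ Q : Polynomial T, HI3_Good t v g Q ∧ Q.natDegree = d := by
    obtain ⟨Q, hQ⟩ := HI3_exists_good ht v g
    exact ⟨_, Q, hQ, rfl⟩
  obtain ⟨Q, hQ, hd⟩ := Nat.find_spec hex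
  refine ⟨Q, hQ, fun Q' hQ' => ?_⟩
  rw [hd]
  exact Nat.find_min' hex ⟨Q', hQ', rfl⟩

/-- The residue field extension is algebraic and separable: for `g ∈ v` there is a polynomial
`Q` over `t` with `Q(g)` in the maximal ideal of `v` and `Q'(g)` a unit.

Proof: consider the polynomials `Q` over `T` with all coefficients in `t`, at least one of them a
unit of `t` (`c ≠ 0 ∧ c⁻¹ ∈ t`), and `aeval g Q = 0 ∨ 0 < ord v (aeval g Q)`.  There is one:
`g` is algebraic over `T`; multiply a polynomial with the root `g` by a suitable power of `τ`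
(divide by the coefficient with the smallest order).  Take `Q` with the smallest `natDegree`.
The leading coefficient is a unit of `t`: otherwise it is in the maximal ideal and
`Q.eraseLead` is a smaller one.  The degree is positive (a unit of `t` is a unit of `v`).  Then
`Q'` has the leading coefficient `natDegree * leadingCoeff`, a unit of `t` (`CharZero k`), its
coefficients are in `t` and its degree is smaller, so `Q'(g)` is not in the maximal ideal, and it
belongs to `v`: it is a unit of `v`.  Tools: `mem_iff`, `ord_pos_iff`, `ord_eq_zero_iff`,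
`hv.2 : x ∈ t ↔ algebraMap T F x ∈ v`. -/
theorem exists_sep_poly [FiniteDimensional T F] {t : Subalgebra k T} {τ : T} (hτ : IsUnif t τ)
    {v : Subalgebra k F} (hv : v ∈ Ext (F := F) t) {g : F} (hg : g ∈ v) :
    ∃ Q : Polynomial T, (∀ n, Q.coeff n ∈ t) ∧
      (Polynomial.aeval g Q = 0 ∨ 0 < ord v (Polynomial.aeval g Q)) ∧
      Polynomial.aeval g (Polynomial.derivative Q) ≠ 0 ∧
      ord v (Polynomial.aeval g (Polynomial.derivative Q)) = 0 := by
  have ht : IsDVR t := ⟨τ, hτ⟩
  have hvd : IsDVR v := hv.1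
  obtain ⟨Q, ⟨hQ1, ⟨m, hm0, hm⟩, hQ3⟩, hmin⟩ := HI3_exists_min ht v g
  have hQ0 : Q ≠ 0 := by
    rintro rfl
    exact hm0 (Polynomial.coeff_zero m)
  have hl0 : Q.leadingCoeff ≠ 0 := Polynomial.leadingCoeff_ne_zero.2 hQ0
  have hinj : Function.Injective (algebraMap T F) := (algebraMap T F).injective
  have hal0 : algebraMap T F Q.leadingCoeff ≠ 0 := fun h => hl0 (hinj (by rw [h, map_zero]))
  -- the leading coefficient is a unit
  have hlead : Q.leadingCoeff⁻¹ ∈ t := by
    by_contra hcon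
    have hN : HI3_N v (algebraMap T F Q.leadingCoeff) := by
      right
      rw [ord_pos_iff hvd hal0, ← map_inv₀, ← hv.2]
      exact hcon
    have hmn : m ≠ Q.natDegree := by
      rintro rfl
      exact hcon hm
    have hgood : HI3_Good t v g Q.eraseLead := by
      refine ⟨fun n => ?_, ⟨m, ?_, ?_⟩, ?_⟩
      · rw [Polynomial.eraseLead_coeff]
        split_ifs
        · exact t.zero_mem
        · exact hQ1 n
      · rw [Polynomial.eraseLead_coeff_of_ne m hmn]
        exact hm0
      · rw [Polynomial.eraseLead_coeff_of_ne m hmn]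
        exact hm
      · have h1 : Polynomial.aeval g Q.eraseLead = Polynomial.aeval g Q -
            g ^ Q.natDegree * algebraMap T F Q.leadingCoeff := by
          have h2 := congrArg (Polynomial.aeval g) Q.eraseLead_add_C_mul_X_pow
          rw [map_add, map_mul, map_pow, Polynomial.aeval_C, Polynomial.aeval_X] at h2
          rw [← h2]
          ring
        rw [h1]
        exact HI3_N_sub hvd hQ3 (HI3_N_mul hvd (v.pow_mem hg _) hN)
    have h2 := hmin _ hgood
    have h3 := Polynomial.eraseLead_natDegree_le Q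
    have h4 : Q.natDegree = 0 := by omega
    have h5 : m ≤ Q.natDegree := Polynomial.le_natDegree_of_ne_zero hm0
    omega
  -- the degree is positive
  have hdeg : Q.natDegree ≠ 0 := by
    intro h0
    have h1 : Q = Polynomial.C Q.leadingCoeff := by
      have := Polynomial.eq_C_of_natDegree_eq_zero h0
      rw [Polynomial.leadingCoeff, h0]
      exact this
    rw [h1, Polynomial.aeval_C] at hQ3
    refine HI3_N_unit hvd hal0 ?_ hQ3
    rw [← map_inv₀, ← hv.2]
    exact hlead
  have hk : ∀ d : ℕ, (d : T) ∈ t := fun d => natCast_mem t d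
  have hkinv : ∀ d : ℕ, ((d : T))⁻¹ ∈ t := by
    intro d
    have h1 : ((d : T))⁻¹ = algebraMap k T ((d : k)⁻¹) := by rw [map_inv₀, map_natCast]
    rw [h1]
    exact t.algebraMap_mem _
  have hd0 : ∀ d : ℕ, d ≠ 0 → (d : T) ≠ 0 := by
    intro d hd h
    have h1 : algebraMap k T (d : k) = 0 := by rw [map_natCast, h]
    rw [map_eq_zero, Nat.cast_eq_zero] at h1
    exact hd h1
  have hder : ∀ n, (Polynomial.derivative Q).coeff n ∈ t := by
    intro n
    rw [Polynomial.coeff_derivative]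
    refine t.mul_mem (hQ1 _) ?_
    have := hk (n + 1)
    rwa [Nat.cast_add, Nat.cast_one] at this
  have hbad : ¬ HI3_N v (Polynomial.aeval g (Polynomial.derivative Q)) := by
    intro hN
    obtain ⟨d, hd⟩ := Nat.exists_eq_succ_of_ne_zero hdeg
    have hc : (Polynomial.derivative Q).coeff d = Q.leadingCoeff * ((d + 1 : ℕ) : T) := by
      rw [Polynomial.coeff_derivative, Polynomial.leadingCoeff, hd, Nat.cast_add, Nat.cast_one]
    have hgood : HI3_Good t v g (Polynomial.derivative Q) := by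
      refine ⟨hder, ⟨d, ?_, ?_⟩, hN⟩
      · rw [hc]
        exact mul_ne_zero hl0 (hd0 _ (Nat.succ_ne_zero d))
      · rw [hc, mul_inv]
        exact t.mul_mem hlead (hkinv _)
    have h2 := hmin _ hgood
    have h3 := Polynomial.natDegree_derivative_lt hdeg
    omega
  have hne : Polynomial.aeval g (Polynomial.derivative Q) ≠ 0 := fun h => hbad (Or.inl h)
  refine ⟨Q, hQ1, hQ3, hne, ?_⟩
  have h1 := (mem_iff hvd hne).1 (HI3_aeval_mem hv hg hder)
  have h2 : ¬ 0 < ord v (Polynomial.aeval g (Polynomial.derivative Q)) := fun h => hbad (Or.inr h)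
  omega

omit [CharZero k] [Algebra k T] [IsScalarTower k T F] in
theorem HI3_deriv_aeval (D : Derivation k F F) (g : F) (Q : Polynomial T) :
    D (Polynomial.aeval g Q) = Q.sum (fun n a => D (algebraMap T F a) * g ^ n) +
      Polynomial.aeval g (Polynomial.derivative Q) * D g := by
  induction Q using Polynomial.induction_on' with
  | add P Q hP hQ =>
    rw [map_add, map_add, hP, hQ, Polynomial.derivative_add, map_add,
      Polynomial.sum_add_index P Q _ (fun n => by rw [map_zero, map_zero, zero_mul])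
        (fun n a b => by rw [map_add, map_add, add_mul])]
    ring
  | monomial n a =>
    rw [Polynomial.sum_monomial_index a _ (by rw [map_zero, map_zero, zero_mul]),
      Polynomial.derivative_monomial, Polynomial.aeval_monomial, Polynomial.aeval_monomial,
      D.leibniz, D.leibniz_pow, map_mul, map_natCast]
    simp only [smul_eq_mul, nsmul_eq_mul]
    ring

/-- Leibniz rule for `Q(g)`, where the derivation maps the coefficients of `Q` to `v` (or into
`c v`, for example with `c = 1` or a uniformizer): `D (Q(g)) = (∑ D(q_n) g^n) + Q'(g) D g`. -/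
theorem deriv_aeval (D : Derivation k F F) {v : Subalgebra k F} {c : F} {Q : Polynomial T}
    (hQ : ∀ n, ∃ y ∈ v, D (algebraMap T F (Q.coeff n)) = c * y) {g : F} (hg : g ∈ v) :
    ∃ y ∈ v, D (Polynomial.aeval g Q) = c * y +
      Polynomial.aeval g (Polynomial.derivative Q) * D g := by
  choose y hy hD using hQ
  refine ⟨∑ n ∈ Q.support, y n * g ^ n, v.sum_mem fun n _ => v.mul_mem (hy n) (v.pow_mem hg n), ?_⟩
  rw [HI3_deriv_aeval, Polynomial.sum_def, Finset.mul_sum]
  congr 1
  refine Finset.sum_congr rfl fun n _ => ?_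
  rw [hD n]
  ring

omit [CharZero k] in
/-- A derivation has bounded poles along a prime divisor.

Proof: `Cord_gen` gives finitely many `g_i ∈ v` such that `dg = ∑ a_i dg_i`, `a_i ∈ v`, for all
`g ∈ v`; apply the linear map `D.liftKaehlerDifferential`: `D g = ∑ a_i D g_i`; so there is `s`
with `s ≤ ord v (D g)` for `g ∈ v`, `D g ≠ 0` (`le_ord_sum`).  For `f ≠ 0` write `f = π^m ε`, `π` a
uniformizer, `ε` a unit: `D f = m π^(m-1) ε D π + π^m D ε` (`Derivation.leibniz_zpow` or treat
`f` and `f⁻¹` separately), so the order is at least `m + min (s, s - 1, 0)`-ish: take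
`s' = min s 0 - 1`. -/
theorem deriv_bdd {v : Subalgebra k F} (hv : IsPrimeDiv v) (D : Derivation k F F) :
    ∃ s : ℤ, ∀ f : F, f ≠ 0 → D f ≠ 0 → s ≤ ord v (D f) - ord v f := by
  have hd : IsDVR v := hv.1
  obtain ⟨G, hGE, hG⟩ := Cord_gen hv
  obtain ⟨M, hM⟩ : ∃ M : ℤ, ∀ i : G, M ≤ ord v (D (i : F)) := by
    obtain ⟨M, hM⟩ := (Set.finite_range (fun i : G => ord v (D (i : F)))).bddBelow
    exact ⟨M, fun s => hM ⟨s, rfl⟩⟩
  have hin : ∀ g ∈ v, D g ≠ 0 → M ≤ ord v (D g) := by
    intro g hg hg0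
    obtain ⟨a, ha, h1⟩ := hG g hg
    have h2 : D g = ∑ i, a i * D (i : F) := by
      have h3 := congrArg D.liftKaehlerDifferential h1
      rw [map_sum, Derivation.liftKaehlerDifferential_comp_D] at h3
      rw [h3]
      refine Finset.sum_congr rfl fun i _ => ?_
      rw [map_smul, Derivation.liftKaehlerDifferential_comp_D, smul_eq_mul]
    rw [h2]
    refine le_ord_sum hd _ _ _ (fun i _ hi => ?_) (h2 ▸ hg0)
    have h4 : a i ≠ 0 := left_ne_zero_of_mul hi
    have h5 : D (i : F) ≠ 0 := right_ne_zero_of_mul hi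
    rw [ord_mul hd h4 h5]
    have h6 := (mem_iff hd h4).1 (ha i)
    have h7 := hM i
    omega
  obtain ⟨π, hπ0, hπ⟩ := Ord_exists_one hd
  have hπv : π ∈ v := (mem_iff hd hπ0).2 (by omega)
  refine ⟨M - 1, fun f hf hDf => ?_⟩
  obtain ⟨m, hm⟩ : ∃ m, m = ord v f := ⟨_, rfl⟩
  obtain ⟨ε, hε⟩ : ∃ ε, ε = f * π ^ (-m) := ⟨_, rfl⟩
  have hε0 : ε ≠ 0 := by
    rw [hε]
    exact mul_ne_zero hf (zpow_ne_zero _ hπ0)
  have hεo : ord v ε = 0 := by
    rw [hε, ord_mul hd hf (zpow_ne_zero _ hπ0), ord_zpow hd hπ0, hπ]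
    omega
  have hεv : ε ∈ v := (mem_iff hd hε0).2 hεo.ge
  have hf1 : f = π ^ m * ε := by
    rw [hε, mul_comm, mul_assoc, ← zpow_add₀ hπ0, neg_add_cancel, zpow_zero, mul_one]
  have hDf1 : D f = π ^ m * D ε + ε * ((m : F) * π ^ m * (D π * π⁻¹)) := by
    rw [hf1, D.leibniz, D.leibniz_zpow, zsmul_eq_mul, smul_eq_mul, smul_eq_mul, smul_eq_mul,
      zpow_sub_one₀ hπ0]
    ring
  have hA : π ^ m * D ε ≠ 0 → m + (M - 1) ≤ ord v (π ^ m * D ε) := by
    intro h
    have h1 : D ε ≠ 0 := right_ne_zero_of_mul h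
    rw [ord_mul hd (zpow_ne_zero _ hπ0) h1, ord_zpow hd hπ0, hπ]
    have := hin ε hεv h1
    omega
  have hB : ε * ((m : F) * π ^ m * (D π * π⁻¹)) ≠ 0 →
      m + (M - 1) ≤ ord v (ε * ((m : F) * π ^ m * (D π * π⁻¹))) := by
    intro h
    have h1 := right_ne_zero_of_mul h
    have h2 := left_ne_zero_of_mul h1
    have h3 := right_ne_zero_of_mul h1
    have h4 : (m : F) ≠ 0 := left_ne_zero_of_mul h2
    have h5 : D π ≠ 0 := left_ne_zero_of_mul h3
    rw [ord_mul hd hε0 h1, ord_mul hd h2 h3, ord_mul hd h4 (zpow_ne_zero _ hπ0),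
      ord_mul hd h5 (inv_ne_zero hπ0), ord_zpow hd hπ0, ord_inv hd, hπ, hεo]
    have h6 := (mem_iff hd h4).1 (intCast_mem v m)
    have h7 := hin π hπv h5
    omega
  have hC : m + (M - 1) ≤ ord v (D f) := by
    by_cases h1 : π ^ m * D ε = 0
    · rw [hDf1, h1, zero_add]
      refine hB ?_
      rw [hDf1, h1, zero_add] at hDf
      exact hDf
    · by_cases h2 : ε * ((m : F) * π ^ m * (D π * π⁻¹)) = 0
      · rw [hDf1, h2, add_zero]
        exact hA h1
      · rw [hDf1] at hDf
        have h3 := ord_add hd h1 h2 hDf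
        rw [← hDf1] at h3
        have h4 := hA h1
        have h5 := hB h2
        omega
  omega

omit [CharZero k] in
theorem HI3_add {v : Subalgebra k F} (hP : IsDVR v) {a b : F} {N : ℤ}
    (ha : a ≠ 0 → N ≤ ord v a) (hb : b ≠ 0 → N ≤ ord v b) (hab : a + b ≠ 0) :
    N ≤ ord v (a + b) := by
  by_cases h1 : a = 0
  · subst h1
    rw [zero_add] at hab ⊢
    exact hb hab
  · by_cases h2 : b = 0
    · subst h2
      rw [add_zero] at hab ⊢
      exact ha hab
    · have := ord_add hP h1 h2 hab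
      have h3 := ha h1
      have h4 := hb h2
      omega

omit [CharZero k] in
theorem HI3_int_mem (v : Subalgebra k F) (n : ℤ) : (n : F) ∈ v := intCast_mem v n

theorem HI3_int {v : Subalgebra k F} (hP : IsDVR v) {n : ℤ} (hn : n ≠ 0) :
    ord v (n : F) = 0 := by
  have hF : CharZero F := charZero_of_injective_algebraMap (algebraMap k F).injective
  have h0 : (n : F) ≠ 0 := by exact_mod_cast hn
  rw [ord_eq_zero_iff hP h0]
  refine ⟨HI3_int_mem v n, ?_⟩
  have h1 : (n : F)⁻¹ = algebraMap k F ((n : k)⁻¹) := by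
    rw [map_inv₀, map_intCast]
  rw [h1]
  exact v.algebraMap_mem _

omit [CharZero k] in
theorem HI3_zpow (D : Derivation k F F) {x : F} (hx : x ≠ 0) (n : ℤ) :
    D (x ^ n) = (n : F) * x ^ n * (D x * x⁻¹) := by
  rw [D.leibniz_zpow, zsmul_eq_mul, smul_eq_mul, zpow_sub_one₀ hx]
  ring

omit [CharZero k] [IsScalarTower k T F] in
theorem HI3_unif_pos {t : Subalgebra k T} {τ : T} (hτ : IsUnif t τ)
    {v : Subalgebra k F} (hv : v ∈ Ext (F := F) t) :
    algebraMap T F τ ≠ 0 ∧ 0 < ord v (algebraMap T F τ) := by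
  have h0 : algebraMap T F τ ≠ 0 := by
    rw [Ne, map_eq_zero]
    exact hτ.ne_zero
  refine ⟨h0, ?_⟩
  rw [ord_pos_iff hv.1 h0, ← map_inv₀]
  exact fun h => hτ.2.1 ((hv.2 _).2 h)

/-- A derivation `D` of `F` which maps `t` to itself and is logarithmic (`D τ ∈ τ t`) satisfies
`ord (D f) ≥ ord f` for the extensions of `t`.

Proof: by `deriv_bdd` there is a smallest value `z = ord (D f) - ord f` (`f ≠ 0`, `D f ≠ 0`);
suppose `z < 0`, attained by `f`.  Let `e = ord v τ > 0`, `m = ord v f`,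
`g = f ^ e * τ ^ (-m)`, `ord g = 0`.  `D g / g = e D f / f - m y`, where `D τ = τ y`, `y ∈ v`.
As `ord (D f / f) = z < 0` and `e` is a unit, `D g ≠ 0` and `ord (D g) = z` (otherwise, by the
minimality of `z`, `D g = 0` or `ord (D g) > z`, then `ord (e D f / f) > z`).  Take `Q` from
`exists_sep_poly` for `g`; `D (Q(g)) = y' + Q'(g) D g` with `y' ∈ v` (`deriv_aeval`, `c = 1`), of
order `z` because `z < 0`; in particular it is nonzero, so `Q(g) ≠ 0` and `ord (Q(g)) > 0`, and
`ord (D (Q(g))) - ord (Q(g)) < z` contradicts the minimality. -/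
theorem log_deriv [FiniteDimensional T F] {t : Subalgebra k T} {τ : T} (hτ : IsUnif t τ)
    {v : Subalgebra k F} (hv : v ∈ Ext (F := F) t) (hpd : IsPrimeDiv v) (D : Derivation k F F)
    (hD : ∀ x ∈ t, ∃ y ∈ t, D (algebraMap T F x) = algebraMap T F y)
    (hDτ : ∃ y ∈ t, D (algebraMap T F τ) = algebraMap T F (τ * y)) {f : F} (hf : f ≠ 0)
    (hDf : D f ≠ 0) : ord v f ≤ ord v (D f) := by
  obtain ⟨hvD, hvm⟩ := hv
  have hv' : v ∈ Ext (F := F) t := ⟨hvD, hvm⟩
  by_contra hcon
  push Not at hcon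
  obtain ⟨s, hs⟩ := deriv_bdd hpd D
  obtain ⟨z, ⟨f0, hf0, hDf0, hz⟩, hmin⟩ := Int.exists_least_of_bdd
    (P := fun z : ℤ => ∃ f : F, f ≠ 0 ∧ D f ≠ 0 ∧ ord v (D f) - ord v f = z)
    ⟨s, by
      rintro z ⟨f, h1, h2, rfl⟩
      exact hs f h1 h2⟩ ⟨_, f, hf, hDf, rfl⟩
  have hz0 : z < 0 := lt_of_le_of_lt (hmin _ ⟨f, hf, hDf, rfl⟩) (by omega)
  obtain ⟨y, hy, hDτ⟩ := hDτ
  obtain ⟨hτ0, he⟩ := HI3_unif_pos hτ hv'
  have hg0 : f0 ^ ord v (algebraMap T F τ) * algebraMap T F τ ^ (-ord v f0) ≠ 0 :=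
    mul_ne_zero (zpow_ne_zero _ hf0) (zpow_ne_zero _ hτ0)
  obtain ⟨g, hg⟩ : ∃ g, g = f0 ^ ord v (algebraMap T F τ) * algebraMap T F τ ^ (-ord v f0) :=
    ⟨_, rfl⟩
  rw [← hg] at hg0
  have hgo : ord v g = 0 := by
    rw [hg, ord_mul hvD (zpow_ne_zero _ hf0) (zpow_ne_zero _ hτ0), ord_zpow hvD hf0,
      ord_zpow hvD hτ0]
    ring
  have hgv : g ∈ v := (mem_iff hvD hg0).2 hgo.ge
  have hyv : algebraMap T F y ∈ v := (hvm y).1 hy
  have hlog : (ord v (algebraMap T F τ) : F) * (D f0 * f0⁻¹) =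
      D g * g⁻¹ + (ord v f0 : F) * algebraMap T F y := by
    have h1 : D g = g * ((ord v (algebraMap T F τ) : F) * (D f0 * f0⁻¹) -
        (ord v f0 : F) * algebraMap T F y) := by
      rw [hg, D.leibniz, HI3_zpow D hf0, HI3_zpow D hτ0, hDτ, map_mul, smul_eq_mul, smul_eq_mul]
      push_cast
      field_simp
      ring
    rw [h1]
    field_simp
    ring
  have hq0 : (ord v (algebraMap T F τ) : F) * (D f0 * f0⁻¹) ≠ 0 := by
    have : CharZero F := charZero_of_injective_algebraMap (algebraMap k F).injective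
    exact mul_ne_zero (by exact_mod_cast he.ne') (mul_ne_zero hDf0 (inv_ne_zero hf0))
  have hqo : ord v ((ord v (algebraMap T F τ) : F) * (D f0 * f0⁻¹)) = z := by
    have : CharZero F := charZero_of_injective_algebraMap (algebraMap k F).injective
    rw [ord_mul hvD (by exact_mod_cast he.ne') (mul_ne_zero hDf0 (inv_ne_zero hf0)),
      ord_mul hvD hDf0 (inv_ne_zero hf0), ord_inv hvD, HI3_int hvD he.ne', ← hz]
    ring
  have hmy : (ord v f0 : F) * algebraMap T F y ∈ v :=
    v.mul_mem (HI3_int_mem v _) hyv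
  have hDg0 : D g ≠ 0 := by
    intro h
    rw [h, zero_mul, zero_add] at hlog
    rw [hlog] at hqo hq0
    have := (mem_iff hvD hq0).1 hmy
    omega
  have hDgle : ord v (D g) ≤ z := by
    by_contra h
    push Not at h
    have h1 : z + 1 ≤ ord v (D g * g⁻¹ + (ord v f0 : F) * algebraMap T F y) := by
      refine HI3_add hvD (fun _ => ?_) (fun h2 => ?_) (by rw [← hlog]; exact hq0)
      · rw [ord_mul hvD hDg0 (inv_ne_zero hg0), ord_inv hvD, hgo]
        omega
      · have := (mem_iff hvD h2).1 hmy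
        omega
    rw [← hlog, hqo] at h1
    omega
  obtain ⟨Q, hQt, hQg, hQ'0, hQ'o⟩ := exists_sep_poly hτ hv' hgv
  obtain ⟨w, hw, hDQ⟩ := deriv_aeval (v := v) (c := 1) D (Q := Q) (fun n => by
    obtain ⟨y', hy', h1⟩ := hD _ (hQt n)
    exact ⟨algebraMap T F y', (hvm y').1 hy', by rw [h1, one_mul]⟩) hgv
  rw [one_mul] at hDQ
  have hP0 : Polynomial.aeval g (Polynomial.derivative Q) * D g ≠ 0 := mul_ne_zero hQ'0 hDg0
  have hPo : ord v (Polynomial.aeval g (Polynomial.derivative Q) * D g) ≤ z := by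
    rw [ord_mul hvD hQ'0 hDg0, hQ'o]
    omega
  have hDQ0 : D (Polynomial.aeval g Q) ≠ 0 := by
    intro h
    rw [h] at hDQ
    have h1 : Polynomial.aeval g (Polynomial.derivative Q) * D g ∈ v := by
      have h2 : Polynomial.aeval g (Polynomial.derivative Q) * D g = -w := by
        linear_combination -hDQ
      rw [h2]
      exact v.neg_mem hw
    have := (mem_iff hvD hP0).1 h1
    omega
  have hQ0 : Polynomial.aeval g Q ≠ 0 := by
    intro h
    rw [h, map_zero] at hDQ0
    exact hDQ0 rfl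
  have hQpos : 0 < ord v (Polynomial.aeval g Q) := hQg.resolve_left hQ0
  have h1 := hmin _ ⟨_, hQ0, hDQ0, rfl⟩
  have h2 : z + 1 ≤ ord v (D (Polynomial.aeval g Q) + -w) := by
    refine HI3_add hvD (fun _ => by omega) (fun h3 => ?_) ?_
    · have := (mem_iff hvD h3).1 (v.neg_mem hw)
      omega
    · have h3 : D (Polynomial.aeval g Q) + -w =
          Polynomial.aeval g (Polynomial.derivative Q) * D g := by
        rw [hDQ]
        ring
      rw [h3]
      exact hP0
  have h3 : D (Polynomial.aeval g Q) + -w =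
      Polynomial.aeval g (Polynomial.derivative Q) * D g := by
    rw [hDQ]
    ring
  rw [h3] at h2
  omega

/-- If moreover `D t ⊆ τ t` then `D` maps `v` to its maximal ideal.

Proof: `Q` from `exists_sep_poly` for `f`; `D (Q(f)) = τ y + Q'(f) D f` with `y ∈ v`
(`deriv_aeval`, `c = τ`); `D (Q(f))` is zero or of positive order by `log_deriv`, `τ y` is zero or
of positive order, so `Q'(f) D f` is of positive order and `Q'(f)` is a unit. -/
theorem log_deriv_pos [FiniteDimensional T F] {t : Subalgebra k T} {τ : T} (hτ : IsUnif t τ)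
    {v : Subalgebra k F} (hv : v ∈ Ext (F := F) t) (hpd : IsPrimeDiv v) (D : Derivation k F F)
    (hD : ∀ x ∈ t, ∃ y ∈ t, D (algebraMap T F x) = algebraMap T F (τ * y)) {f : F} (hf : f ∈ v)
    (hDf : D f ≠ 0) : 0 < ord v (D f) := by
  obtain ⟨hvD, hvm⟩ := hv
  have hv' : v ∈ Ext (F := F) t := ⟨hvD, hvm⟩
  obtain ⟨hτ0, he⟩ := HI3_unif_pos hτ hv'
  obtain ⟨Q, hQt, hQg, hQ'0, hQ'o⟩ := exists_sep_poly hτ hv' hf
  obtain ⟨w, hw, hDQ⟩ := deriv_aeval (v := v) (c := algebraMap T F τ) D (Q := Q) (fun n => by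
    obtain ⟨y', hy', h1⟩ := hD _ (hQt n)
    exact ⟨algebraMap T F y', (hvm y').1 hy', by rw [h1, map_mul]⟩) hf
  have hP0 : Polynomial.aeval f (Polynomial.derivative Q) * D f ≠ 0 := mul_ne_zero hQ'0 hDf
  have h3 : D (Polynomial.aeval f Q) + -(algebraMap T F τ * w) =
      Polynomial.aeval f (Polynomial.derivative Q) * D f := by
    rw [hDQ]
    ring
  have h4 : 1 ≤ ord v (D (Polynomial.aeval f Q) + -(algebraMap T F τ * w)) := by
    refine HI3_add hvD (fun h5 => ?_) (fun h5 => ?_) (by rw [h3]; exact hP0)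
    · have hQ0 : Polynomial.aeval f Q ≠ 0 := by
        intro h
        rw [h, map_zero] at h5
        exact h5 rfl
      have h6 : 0 < ord v (Polynomial.aeval f Q) := hQg.resolve_left hQ0
      have h7 := log_deriv hτ hv' hpd D (fun x hx => by
        obtain ⟨y', hy', h1⟩ := hD x hx
        exact ⟨τ * y', t.mul_mem hτ.1 hy', h1⟩) (hD τ hτ.1) hQ0 h5
      omega
    · have h6 : w ≠ 0 := by
        rintro rfl
        rw [mul_zero, neg_zero] at h5
        exact h5 rfl
      have h7 : -(algebraMap T F τ * w) = algebraMap T F τ * -w := by ring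
      rw [h7, ord_mul hvD hτ0 (neg_ne_zero.2 h6)]
      have h8 := (mem_iff hvD (neg_ne_zero.2 h6)).1 (v.neg_mem hw)
      omega
  rw [h3, ord_mul hvD hQ'0 hDf, hQ'o] at h4
  omega

end Flip28
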