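import Pool.Agent.FlipB_h28.HI2
import Pool.Agent.FlipB_h28.HI3

/-! # The order of the determinant of the derivatives -/

namespace Flip28

variable {k T F : Type*} [Field k] [CharZero k] [Field T] [Field F] [Algebra k T] [Algebra k F]
  [Algebra T F] [IsScalarTower k T F] [FiniteDimensional T F] {p : ℕ}

omit [CharZero k] [Field T] [Algebra k T] [Algebra T F] [IsScalarTower k T F]
  [FiniteDimensional T F] in
theorem HI4_neg {v : Subalgebra k F} (hv : IsDVR v) {x : F} (hx : x ≠ 0) :
    ord v (-x) = ord v x := by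
  have h1 : ord v (-1 : F) = 0 := by
    rw [ord_eq_zero_iff hv (neg_ne_zero.2 one_ne_zero)]
    refine ⟨v.neg_mem v.one_mem, ?_⟩
    rw [inv_neg, inv_one]
    exact v.neg_mem v.one_mem
  rw [neg_eq_neg_one_mul, ord_mul hv (neg_ne_zero.2 one_ne_zero) hx, h1, zero_add]

omit [CharZero k] [Field T] [Algebra k T] [Algebra T F] [IsScalarTower k T F]
  [FiniteDimensional T F] in
theorem HI4_det {v : Subalgebra k F} (hv : IsDVR v) (N : Matrix (Fin p) (Fin p) F) (i0 : Fin p)
    (h1 : ∀ j, N i0 j ≠ 0 → 0 < ord v (N i0 j)) (h2 : ∀ i j, N i j ∈ v) (h0 : N.det ≠ 0) :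
    0 < ord v N.det := by
  rw [Matrix.det_apply] at h0 ⊢
  have h3 := le_ord_sum hv Finset.univ _ 1 (fun σ _ hσ => ?_) h0
  · omega
  · have h4 : ∏ i, N (σ i) i ≠ 0 := by
      intro h
      exact hσ (by rw [h, smul_zero])
    have h5 : ord v (Equiv.Perm.sign σ • ∏ i, N (σ i) i) = ord v (∏ i, N (σ i) i) := by
      rcases Int.units_eq_one_or (Equiv.Perm.sign σ) with h | h
      · rw [h, one_smul]
      · rw [h, Units.neg_smul, one_smul, HI4_neg hv h4]
    rw [h5, ord_prod hv Finset.univ _ (fun i hi => Finset.prod_ne_zero_iff.1 h4 i hi)]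
    have h6 : ∀ i ∈ Finset.univ, 0 ≤ ord v (N (σ i) i) := fun i hi =>
      (mem_iff hv (Finset.prod_ne_zero_iff.1 h4 i hi)).1 (h2 _ _)
    have h7 := Finset.single_le_sum h6 (Finset.mem_univ (σ⁻¹ i0))
    have h8 := Finset.prod_ne_zero_iff.1 h4 (σ⁻¹ i0) (Finset.mem_univ _)
    have h9 : σ (σ⁻¹ i0) = i0 := σ.apply_symm_apply i0
    rw [h9] at h7 h8
    have h10 := h1 _ h8
    omega

omit [CharZero k] [Field T] [Algebra k T] [Algebra T F] [IsScalarTower k T F]
  [FiniteDimensional T F] [Field k] [Algebra k F] in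
theorem HI4_rows (M : Matrix (Fin p) (Fin p) F) (i0 : Fin p) (s : F) (a : Fin p → F) :
    (Matrix.of fun i j => if i = i0 then s * M i0 j else M i j - a i * M i0 j).det =
      s * M.det := by
  have h1 : (Matrix.of fun i j => M i j + (if i = i0 then 0 else - a i) * M i0 j).det = M.det :=
    Matrix.det_eq_of_forall_row_eq_smul_add_const (fun i => if i = i0 then 0 else - a i) i0
      (by simp) (fun i j => rfl)
  rw [← h1]
  have h2 : (Matrix.of fun i j => if i = i0 then s * M i0 j else M i j - a i * M i0 j) =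
      (Matrix.of fun i j => M i j + (if i = i0 then 0 else - a i) * M i0 j).updateRow i0
        (s • (Matrix.of fun i j => M i j + (if i = i0 then 0 else - a i) * M i0 j) i0) := by
    ext i j
    by_cases h : i = i0
    · subst h
      simp
    · rw [Matrix.updateRow_ne h]
      simp only [Matrix.of_apply, if_neg h]
      ring
  rw [h2, Matrix.det_updateRow_smul, Matrix.updateRow_eq_self]

/-- `P(u) det (D_i c_j)` is in the maximal ideal of `v`.

Proof: let `t = RP u P hP`, `τ = P(u)` (uniformizer, `isUnif_RP`), `i0` with `P ∤ ∂P/∂X_{i0}`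
(`exists_pderiv_not_dvd`), `δ = (∂P/∂X_{i0})(u) = D_{i0} τ` (`dualD_aeval`), a unit of `t`.  Let
`Θ_{i0} = (τ δ⁻¹) • D_{i0}`; it maps `t` into `τ t` (`dualD_RP`), so `Θ_{i0} c_j` is zero or of
positive order (`log_deriv_pos`).  For `i ≠ i0` let `Θ_i = D_i - (D_i τ * δ⁻¹) • D_{i0}`; it maps
`t` into `t` and `τ` to `0`, so `Θ_i c_j ∈ v` (`log_deriv`, `mem_iff`).  The determinant of
`(Θ_i c_j)` is `τ δ⁻¹ det (D_i c_j)`: row operations
(`Matrix.det_eq_of_forall_row_eq_smul_add_const`, `Matrix.det_updateRow_smul`).  Expanding it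
(`Matrix.det_apply`), each product contains exactly one factor from the row `i0`, of positive
order or zero, the other factors are in `v`; hence the determinant is zero or of positive order
(elements which are zero or of positive order form an ideal of `v`: `le_ord_sum`, or use
`y ∈ v ∧ (y = 0 ∨ y⁻¹ ∉ v)`).  Multiply by the unit `δ`. -/
theorem det_pos {u : Fin p → T} (hu : AlgebraicIndependent k u) (hT : IsFr k u)
    {D : Fin p → Derivation k F F} (hD : DualD u D) {P : MvPolynomial (Fin p) k} (hP : Prime P)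
    {v : Subalgebra k F} (hv : v ∈ Ext (F := F) (RP u P hP)) (hpd : IsPrimeDiv v)
    {c : Fin p → F} (hc : ∀ j, c j ∈ v)
    (h0 : (Matrix.of fun i j => D i (c j)).det ≠ 0) :
    0 < ord v (algebraMap T F (MvPolynomial.aeval u P) *
      (Matrix.of fun i j => D i (c j)).det) := by
  classical
  have hτ := isUnif_RP hu hT hP
  obtain ⟨i0, hi0⟩ := exists_pderiv_not_dvd hP
  have hvd := hpd.1
  set τT := MvPolynomial.aeval u P with hτT
  set δT := MvPolynomial.aeval u (MvPolynomial.pderiv i0 P) with hδT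
  have hδ1 : δT ∈ RP u P hP := aeval_mem_RP u P hP _
  have hδ2 : δT⁻¹ ∈ RP u P hP := inv_mem_RP hu hP hi0
  have hδ0 : δT ≠ 0 := by
    intro h
    apply hi0
    have h1 : MvPolynomial.pderiv i0 P = 0 := by
      apply hu
      rw [map_zero]
      exact h
    rw [h1]
    exact dvd_zero P
  have hDτ0 : D i0 (algebraMap T F τT) = algebraMap T F δT := dualD_aeval hD i0 P
  have hRP := fun (i : Fin p) {x : T} (hx : x ∈ RP u P hP) => dualD_RP hu hD hP i hx
  -- the derivations
  have hΘ0 : ∀ f ∈ v, (algebraMap T F (τT * δT⁻¹)) * D i0 f ≠ 0 →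
      0 < ord v ((algebraMap T F (τT * δT⁻¹)) * D i0 f) := by
    intro f hf h1
    have h2 := log_deriv_pos hτ hv hpd ((algebraMap T F (τT * δT⁻¹)) • D i0) ?_ hf h1
    · exact h2
    · intro x hx
      obtain ⟨y, hy, h3⟩ := hRP i0 hx
      refine ⟨δT⁻¹ * y, Subalgebra.mul_mem _ hδ2 hy, ?_⟩
      rw [Derivation.smul_apply, h3, smul_eq_mul, ← map_mul, mul_assoc]
  have hΘ : ∀ i, ∀ f ∈ v, D i f - D i (algebraMap T F τT) * (algebraMap T F δT)⁻¹ * D i0 f ∈ v := by
    intro i f hf
    by_cases h1 : D i f - D i (algebraMap T F τT) * (algebraMap T F δT)⁻¹ * D i0 f = 0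
    · rw [h1]
      exact v.zero_mem
    have hf0 : f ≠ 0 := by
      rintro rfl
      apply h1
      rw [map_zero, map_zero, mul_zero, sub_zero]
    obtain ⟨y1, hy1, h1'⟩ := hRP i hτ.1
    have h2 := log_deriv hτ hv hpd
      (D i - (D i (algebraMap T F τT) * (algebraMap T F δT)⁻¹) • D i0) ?_ ?_ hf0 h1
    · rw [mem_iff hvd h1]
      exact ((mem_iff hvd hf0).1 hf).trans h2
    · intro x hx
      obtain ⟨y2, hy2, h3⟩ := hRP i hx
      obtain ⟨y3, hy3, h4⟩ := hRP i0 hx
      refine ⟨y2 - y1 * δT⁻¹ * y3, Subalgebra.sub_mem _ hy2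
        (Subalgebra.mul_mem _ (Subalgebra.mul_mem _ hy1 hδ2) hy3), ?_⟩
      rw [Derivation.sub_apply, Derivation.smul_apply, h1', h3, h4, smul_eq_mul, map_sub, map_mul,
        map_mul, map_inv₀]
    · refine ⟨0, Subalgebra.zero_mem _, ?_⟩
      rw [Derivation.sub_apply, Derivation.smul_apply, hDτ0, smul_eq_mul, mul_zero, map_zero]
      have h5 : algebraMap T F δT ≠ 0 := by
        rw [Ne, map_eq_zero]
        exact hδ0
      field_simp
      rw [sub_self, mul_zero]
  set M : Matrix (Fin p) (Fin p) F := Matrix.of fun i j => D i (c j) with hM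
  have hdet := HI4_rows M i0 (algebraMap T F (τT * δT⁻¹))
    (fun i => D i (algebraMap T F τT) * (algebraMap T F δT)⁻¹)
  have hτ0 : τT ≠ 0 := hτ.ne_zero
  have h5 : algebraMap T F δT ≠ 0 := by
    rw [Ne, map_eq_zero]
    exact hδ0
  have h6 : algebraMap T F (τT * δT⁻¹) ≠ 0 := by
    rw [Ne, map_eq_zero]
    exact mul_ne_zero hτ0 (inv_ne_zero hδ0)
  have h7 : algebraMap T F (τT * δT⁻¹) * M.det ≠ 0 := mul_ne_zero h6 h0
  have h8 : 0 < ord v (algebraMap T F (τT * δT⁻¹) * M.det) := by
    rw [← hdet] at h7 ⊢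
    refine HI4_det hvd _ i0 (fun j hj => ?_) (fun i j => ?_) h7
    · simp only [Matrix.of_apply, if_true] at hj ⊢
      exact hΘ0 (c j) (hc j) hj
    · simp only [Matrix.of_apply]
      split_ifs with h9
      · by_cases h10 : algebraMap T F (τT * δT⁻¹) * M i0 j = 0
        · rw [h10]
          exact v.zero_mem
        · rw [mem_iff hvd h10]
          exact (hΘ0 (c j) (hc j) h10).le
      · exact hΘ i (c j) (hc j)
  have h9 : algebraMap T F τT * M.det = algebraMap T F δT * (algebraMap T F (τT * δT⁻¹) * M.det) := by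
    rw [map_mul, map_inv₀]
    field_simp
  have h10 : ord v (algebraMap T F δT) = 0 := by
    rw [ord_eq_zero_iff hvd h5]
    refine ⟨(hv.2 _).1 hδ1, ?_⟩
    rw [← map_inv₀]
    exact (hv.2 _).1 hδ2
  rw [h9, ord_mul hvd h5 h7, h10, zero_add]
  exact h8

end Flip28
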