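import Pool.Agent.FlipB_h28.HI0

/-! # The trace of an element of all maximal ideals -/

namespace Flip28

variable {k T F : Type*} [Field k] [CharZero k] [Field T] [Field F] [Algebra k T] [Algebra k F]
  [Algebra T F] [IsScalarTower k T F] [FiniteDimensional T F]

theorem HI5_mem {k T : Type*} [Field k] [Field T] [Algebra k T] {t : Subalgebra k T} {τ : T} (hτ : IsUnif t τ) {a : T}
    (h : a = 0 ∨ a⁻¹ ∉ t) : ∃ y ∈ t, a = τ * y := by
  have hτ0 : τ ≠ 0 := hτ.ne_zero
  by_cases ha0 : a = 0
  · exact ⟨0, t.zero_mem, by rw [ha0, mul_zero]⟩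
  · obtain ⟨n, h1, h2⟩ := hτ.2.2 a ha0
    have hn : 1 ≤ n := by
      by_contra hn
      refine (h.resolve_left ha0) ?_
      have h3 : a⁻¹ = (a * τ ^ (-n))⁻¹ * τ ^ (-n) := by
        rw [mul_inv, mul_assoc, inv_mul_cancel₀ (zpow_ne_zero _ hτ0), mul_one]
      rw [h3]
      exact t.mul_mem h2 (Ord_zpow_mem hτ.1 (by omega))
    refine ⟨a * τ ^ (-n) * τ ^ (n - 1), t.mul_mem h1 (Ord_zpow_mem hτ.1 (by omega)), ?_⟩
    rw [mul_assoc, ← zpow_add₀ hτ0, show -n + (n - 1) = -1 by ring, zpow_neg_one]
    field_simp

/-- Let `x` belong to the maximal ideals of all discrete valuation rings of `F` over `t`.  Then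
the trace of `x` is in the maximal ideal of `t`.

Proof: `S = integralClosure t F`, a Dedekind domain, finite over `t` (as in the proof of
`sum_ext`, DegA.lean); the `w : HeightOneSpectrum S` correspond to the `v ∈ Ext t` (`DegA_bij`,
`DegA_mem_Ext`, `DegA_ord`, `DegA_mem_V`), so `w.valuation F x < 1` for all `w`.  Hence `x` is
(the image of) an element `s` of `S` (`HeightOneSpectrum.mem_integers_of_valuation_le_one`)
which belongs to `w.asIdeal` for all `w` (`valuation_lt_one_iff_mem`).  Let `m` be the maximal
ideal of `t`; a prime of `S` containing `m S` is nonzero, so it is some `w.asIdeal`; so `s` is in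
the radical of `m S` (`Ideal.radical_eq_sInf`) and the class of `s` in `S / m S` is nilpotent,
its trace over `t / m` is nilpotent (`Algebra.isNilpotent_trace_of_isNilpotent`), so it is zero.
It is the class of `Algebra.intTrace t S s` (`Algebra.trace_quotient_eq_of_isDedekindDomain`, see
its use in the proof of `pow_sub_one_dvd_differentIdeal_aux` in Mathlib) and
`algebraMap t T (Algebra.intTrace t S s) = Algebra.trace T F x` (`Algebra.algebraMap_intTrace`).
The elements of `m` are `τ * y`, `y ∈ t`.  (Alternatively `Algebra.trace_quotient_mk` for the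
local ring `t` and the free module `S` together with `Algebra.trace_localization`.) -/
theorem trace_max {t : Subalgebra k T} {τ : T} (hτ : IsUnif t τ) {x : F}
    (hx : ∀ v ∈ Ext (F := F) t, x = 0 ∨ 0 < ord v x) :
    ∃ y ∈ t, Algebra.trace T F x = τ * y := by
  have ht : IsDVR t := ⟨τ, hτ⟩
  obtain ⟨h1, h2⟩ := isDVR_iff.1 ht
  have : CharZero T := charZero_of_injective_algebraMap (algebraMap k T).injective
  have h3 : IsDedekindDomain (integralClosure t F) := integralClosure.isDedekindDomain t T F
  have h4 : IsFractionRing (integralClosure t F) F :=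
    integralClosure.isFractionRing_of_finite_extension T F
  have h5 : Module.Finite t (integralClosure t F) :=
    IsIntegralClosure.finite t T F (integralClosure t F)
  have h6 : Module.IsTorsionFree t (integralClosure t F) := inferInstance
  have hw : ∀ w : IsDedekindDomain.HeightOneSpectrum (integralClosure t F),
      w.valuation F x < 1 := by
    intro w
    by_cases hx0 : x = 0
    · rw [hx0, map_zero]
      exact zero_lt_one
    · have h0 := (hx _ (DegA_mem_Ext (F := F) t ht w)).resolve_left hx0
      rw [DegA_ord _ w hx0] at h0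
      have hv : w.valuation F x ≠ 0 := (Valuation.ne_zero_iff _).2 hx0
      rw [← WithZero.exp_log hv, ← WithZero.exp_zero, WithZero.exp_lt_exp]
      omega
  obtain ⟨s, hs⟩ := IsDedekindDomain.HeightOneSpectrum.mem_integers_of_valuation_le_one F x
    (fun w => (hw w).le)
  have hsw : ∀ w : IsDedekindDomain.HeightOneSpectrum (integralClosure t F), s ∈ w.asIdeal := by
    intro w
    refine (w.valuation_lt_one_iff_mem (K := F) s).1 ?_
    show w.valuation F (algebraMap (integralClosure t F) F s) < 1
    rw [hs]
    exact hw w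
  have hτm : (⟨τ, hτ.1⟩ : t) ∈ IsLocalRing.maximalIdeal t := by
    rw [IsLocalRing.mem_maximalIdeal, mem_nonunits_iff, LocAlg_unit]
    rintro ⟨-, h7⟩
    exact hτ.2.1 h7
  have hrad : s ∈ ((IsLocalRing.maximalIdeal t).map
      (algebraMap t (integralClosure t F))).radical := by
    rw [Ideal.radical_eq_sInf, Submodule.mem_sInf]
    rintro P ⟨hP1, hP2⟩
    have hne : P ≠ ⊥ := by
      rintro rfl
      have h7 := hP1 (Ideal.mem_map_of_mem (algebraMap t (integralClosure t F)) hτm)
      rw [Ideal.mem_bot] at h7
      have h8 : algebraMap T F τ = 0 := by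
        have h9 := congrArg (algebraMap (integralClosure t F) F) h7
        rw [← IsScalarTower.algebraMap_apply t (integralClosure t F) F, map_zero] at h9
        exact h9
      exact hτ.ne_zero ((map_eq_zero _).1 h8)
    exact hsw ⟨P, hP2, hne⟩
  have hnil : IsNilpotent (Ideal.Quotient.mk ((IsLocalRing.maximalIdeal t).map
      (algebraMap t (integralClosure t F))) s) := by
    obtain ⟨n, hn⟩ := hrad
    refine ⟨n, ?_⟩
    rw [← map_pow, Ideal.Quotient.eq_zero_iff_mem]
    exact hn
  have htr : Algebra.intTrace t (integralClosure t F) s ∈ IsLocalRing.maximalIdeal t := by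
    rw [← Ideal.Quotient.eq_zero_iff_mem, ← Algebra.trace_quotient_eq_of_isDedekindDomain]
    let _ : Field (t ⧸ IsLocalRing.maximalIdeal t) := Ideal.Quotient.field _
    exact (Algebra.isNilpotent_trace_of_isNilpotent hnil).eq_zero
  have h7 : algebraMap t T (Algebra.intTrace t (integralClosure t F) s) = Algebra.trace T F x := by
    rw [Algebra.algebraMap_intTrace (K := T) (L := F), hs]
  rw [IsLocalRing.mem_maximalIdeal, mem_nonunits_iff, LocAlg_unit] at htr
  rw [← h7]
  refine HI5_mem hτ ?_
  by_contra hcon
  push Not at hcon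
  exact htr hcon

end Flip28
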