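import Pool.Agent.FlipB_h28.HI1
import Pool.Agent.FlipB_h28.HI4
import Pool.Agent.FlipB_h28.HI5

/-! # Traces of differential forms (III.1), abstract version -/

namespace Flip28

variable {k T F : Type*} [Field k] [CharZero k] [Field T] [Field F] [Algebra k T] [Algebra k F]
  [Algebra T F] [IsScalarTower k T F] [FiniteDimensional T F] {p : ℕ}

/-- `Tr (c₀ det (D_i c_j)) ∈ A = k[u, u_j⁻¹ (j ∈ J)]` for `c₀, c_j` integral over `A`.

Proof: by `mem_AJ_of_RP` it suffices that the trace is in `t = RP u P hP` for every prime `P` not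
dividing the `X j`, `j ∈ J` (if `det = 0` the trace is `0`; the case `c₀ = 0` too).  The elements
`c₀, c_j` are integral over `t` (`AJ_le_RP`), so they belong to every `v ∈ Ext t`
(`DegA_integral_mem`), and `v` is a prime divisor (`isPrimeDiv_RP`, `isPrimeDiv_ext`).  By
`det_pos` the element `τ c₀ det`, `τ = P(u)`, is zero or of positive order along every `v`, so
(`trace_max`) `τ Tr (c₀ det) = Tr (τ c₀ det) = τ y` with `y ∈ t`; `τ ≠ 0`. -/
theorem trace_det_mem {u : Fin p → T} (hu : AlgebraicIndependent k u) (hT : IsFr k u)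
    {D : Fin p → Derivation k F F} (hD : DualD u D) (J : Set (Fin p)) {c0 : F} {c : Fin p → F}
    (hc0 : IsIntegral (AJ k u J) c0) (hc : ∀ j, IsIntegral (AJ k u J) (c j)) :
    Algebra.trace T F (c0 * (Matrix.of fun i j => D i (c j)).det) ∈ AJ k u J := by
  refine mem_AJ_of_RP u hu J (hT _) fun P hP hJ => ?_
  have hunif := isUnif_RP hu hT hP
  have hle : AJ k u J ≤ RP u P hP := AJ_le_RP u hP hJ
  let _ : Algebra (AJ k u J) (RP u P hP) := (Subalgebra.inclusion hle).toRingHom.toAlgebra
  have htow : IsScalarTower (AJ k u J) (RP u P hP) F := IsScalarTower.of_algebraMap_eq fun _ => rfl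
  have hint : ∀ x : F, IsIntegral (AJ k u J) x → ∀ v ∈ Ext (F := F) (RP u P hP), x ∈ v :=
    fun x hx v hv => DegA_integral_mem hv hx.tower_top
  by_cases hdet : (Matrix.of fun i j => D i (c j)).det = 0
  · rw [hdet, mul_zero, map_zero]
    exact (RP u P hP).zero_mem
  by_cases hc00 : c0 = 0
  · rw [hc00, zero_mul, map_zero]
    exact (RP u P hP).zero_mem
  have hτ0 : MvPolynomial.aeval u P ≠ 0 := hunif.ne_zero
  have hτF : algebraMap T F (MvPolynomial.aeval u P) ≠ 0 := by
    rw [Ne, map_eq_zero]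
    exact hτ0
  obtain ⟨y, hy, hty⟩ := trace_max (F := F) hunif
    (x := algebraMap T F (MvPolynomial.aeval u P) *
      (c0 * (Matrix.of fun i j => D i (c j)).det)) (fun v hv => by
    right
    have hpd := isPrimeDiv_ext (RP u P hP) (isPrimeDiv_RP hu hT hP) v hv
    have h1 := det_pos hu hT hD hP hv hpd (fun j => hint (c j) (hc j) v hv) hdet
    have h2 : 0 ≤ ord v c0 := (mem_iff hv.1 hc00).1 (hint c0 hc0 v hv)
    have h3 : algebraMap T F (MvPolynomial.aeval u P) *
        (c0 * (Matrix.of fun i j => D i (c j)).det) =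
        c0 * (algebraMap T F (MvPolynomial.aeval u P) *
          (Matrix.of fun i j => D i (c j)).det) := by ring
    rw [h3, ord_mul hv.1 hc00 (mul_ne_zero hτF hdet)]
    omega)
  rw [← Algebra.smul_def, map_smul, smul_eq_mul] at hty
  rw [mul_left_cancel₀ hτ0 hty]
  exact hy

end Flip28
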