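import Pool.Agent.FlipB_h28.HI6

/-! # Transcendence bases, jacobians and the trace (III.1) -/

open scoped KaehlerDifferential

universe u

namespace Flip28

variable {k κ : Type u} [Field k] [Field κ] [Algebra k κ] {p : ℕ}

/-- derivations dual to `u`, and `jac c = det (D_i c_j) jac u`

Proof: as in `IsCoord.exists_deriv` (CoordB.lean): the `du_j` are a basis of `Ω[κ⁄k]`
(`Module.Basis.is_basis_iff_det`), `D i` is the composition of the coordinate functional with the
universal derivation; `dc_j = ∑ i, D i (c j) • du_i`, so `jac_eq_det`. -/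
theorem exists_dual (bk : Module.Basis (Fin p) κ Ω[κ⁄k]) {u : Fin p → κ} (hu : jac bk u ≠ 0) :
    ∃ D : Fin p → Derivation k κ κ, (∀ i j, D i (u j) = if i = j then 1 else 0) ∧
      ∀ c : Fin p → κ, jac bk c = (Matrix.of fun i j => D i (c j)).det * jac bk u := by
  classical
  have hb := (Module.Basis.is_basis_iff_det bk).2 (IsUnit.mk0 _ hu)
  let B : Module.Basis (Fin p) κ Ω[κ⁄k] := Module.Basis.mk hb.1 hb.2.ge
  have hB : ∀ j, B j = KaehlerDifferential.D k κ (u j) := fun j => by
    simp [B]
  have key : ∀ i j, B.coord i (KaehlerDifferential.D k κ (u j)) = if i = j then 1 else 0 := by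
    intro i j
    rw [← hB j, Module.Basis.coord_apply, Module.Basis.repr_self, Finsupp.single_apply]
    simp [eq_comm]
  refine ⟨fun i => (B.coord i).compDer (KaehlerDifferential.D k κ), fun i j => key i j, ?_⟩
  intro c
  have h1 := jac_eq_det bk u c
    (Matrix.of fun j i => B.coord i (KaehlerDifferential.D k κ (c j))) (fun j => by
      conv_lhs => rw [← B.sum_repr (KaehlerDifferential.D k κ (c j))]
      exact Finset.sum_congr rfl fun i _ => by rw [hB]; rfl)
  rw [h1]
  congr 1
  rw [← Matrix.det_transpose]
  rfl

/-- `jac u ≠ 0` implies that `κ` is finite over `k(u)`.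

Proof: let `T = k(u)`; the map `Ω[κ⁄k] → Ω[κ⁄T]` (`KaehlerDifferential.map k T κ κ`) is surjective
and maps the basis `du_i` to `0`, so `Ω[κ⁄T]` is trivial, `κ/T` is formally unramified and
essentially of finite type, so it is finite (`Algebra.FormallyUnramified.finite_of_free` or
`Algebra.FormallyUnramified.iff_isSeparable` and
`Algebra.finite_of_essFiniteType_of_isAlgebraic`). -/
theorem finite_of_jac [Algebra.EssFiniteType k κ] (bk : Module.Basis (Fin p) κ Ω[κ⁄k])
    {u : Fin p → κ} (hu : jac bk u ≠ 0) :
    FiniteDimensional (IntermediateField.adjoin k (Set.range u)) κ := by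
  have h1 : ∀ x : κ, KaehlerDifferential.D (IntermediateField.adjoin k (Set.range u)) κ x = 0 := by
    intro x
    obtain ⟨a, ha, -⟩ := exists_coeff bk hu x
    have h2 := congrArg (KaehlerDifferential.map k (IntermediateField.adjoin k (Set.range u)) κ κ) ha
    rw [map_sum, KaehlerDifferential.map_D] at h2
    rw [show x = algebraMap κ κ x from rfl, h2]
    refine Finset.sum_eq_zero fun i _ => ?_
    rw [map_smul, KaehlerDifferential.map_D]
    have h3 : algebraMap κ κ (u i) = algebraMap (IntermediateField.adjoin k (Set.range u)) κ
        ⟨u i, IntermediateField.subset_adjoin k _ ⟨i, rfl⟩⟩ := rfl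
    rw [h3, Derivation.map_algebraMap, smul_zero]
  have h4 : Algebra.FormallyUnramified (IntermediateField.adjoin k (Set.range u)) κ := by
    refine ⟨⟨fun x y => ?_⟩⟩
    have h5 : ∀ z : Ω[κ⁄(IntermediateField.adjoin k (Set.range u))], z = 0 := by
      intro z
      have h6 : z ∈ Submodule.span κ (Set.range
          (KaehlerDifferential.D (IntermediateField.adjoin k (Set.range u)) κ)) := by
        rw [KaehlerDifferential.span_range_derivation]
        exact Submodule.mem_top
      have h7 : Submodule.span κ (Set.range
          (KaehlerDifferential.D (IntermediateField.adjoin k (Set.range u)) κ)) ≤ ⊥ := by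
        rw [Submodule.span_le]
        rintro _ ⟨x, rfl⟩
        rw [h1 x]
        exact Submodule.zero_mem _
      exact (Submodule.mem_bot κ).1 (h7 h6)
    rw [h5 x, h5 y]
  have h5 : Algebra.EssFiniteType (IntermediateField.adjoin k (Set.range u)) κ :=
    Algebra.EssFiniteType.of_comp k _ κ
  exact Algebra.FormallyUnramified.finite_of_free _ _

/-- `jac u ≠ 0` implies that `u` is algebraically independent (characteristic 0).

Proof: let `P(u) = 0`; by induction on the total degree of `P` we show `P = 0`.  With `D i` from
`exists_dual`: `(∂P/∂X_i)(u) = D_i (P(u)) = 0`, of smaller total degree (or use strong induction on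
`P.totalDegree`; `MvPolynomial.totalDegree_pderiv_lt` or similar), so `∂P/∂X_i = 0` for all `i` and
`P` is constant (characteristic 0), so `P = 0`. -/
theorem algInd_of_jac [CharZero k] (bk : Module.Basis (Fin p) κ Ω[κ⁄k]) {u : Fin p → κ}
    (hu : jac bk u ≠ 0) : AlgebraicIndependent k u := by
  obtain ⟨D, hD, -⟩ := exists_dual bk hu
  have hD' : DualD (T := κ) (F := κ) u D := hD
  have key : ∀ n : ℕ, ∀ P : MvPolynomial (Fin p) k, P.totalDegree < n →
      MvPolynomial.aeval u P = 0 → P = 0 := by
    intro n
    induction n with
    | zero => intro P h; omega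
    | succ n ih =>
      intro P hPn hP
      have h1 : ∀ i, MvPolynomial.pderiv i P = 0 := by
        intro i
        by_contra hne
        have h2 : MvPolynomial.aeval u (MvPolynomial.pderiv i P) = 0 := by
          have h3 := dualD_aeval (T := κ) (F := κ) hD' i P
          rw [hP, map_zero, map_zero] at h3
          exact h3.symm
        refine hne (ih _ ?_ h2)
        -- the degree
        obtain ⟨m, hm, hmd⟩ : ∃ m ∈ (MvPolynomial.pderiv i P).support,
            (MvPolynomial.pderiv i P).totalDegree = m.sum fun _ e => e := by
          have h4 : (MvPolynomial.pderiv i P).support.Nonempty := by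
            rwa [Finset.nonempty_iff_ne_empty, Ne, MvPolynomial.support_eq_empty]
          obtain ⟨m, hm, hm2⟩ := Finset.exists_mem_eq_sup _ h4 fun s : Fin p →₀ ℕ =>
            s.sum fun _ e => e
          exact ⟨m, hm, hm2⟩
        rw [MvPolynomial.mem_support_iff, MvPolynomial.coeff_pderiv] at hm
        have h5 : m + Finsupp.single i 1 ∈ P.support := by
          rw [MvPolynomial.mem_support_iff]
          exact left_ne_zero_of_mul hm
        have h6 := MvPolynomial.le_totalDegree h5
        rw [Finsupp.sum_add_index' (fun _ => rfl) (fun _ _ _ => rfl),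
          Finsupp.sum_single_index rfl] at h6
        omega
      have h2 : ∀ m : Fin p →₀ ℕ, m ≠ 0 → MvPolynomial.coeff m P = 0 := by
        intro m hm
        obtain ⟨i, hi⟩ : ∃ i, m i ≠ 0 := by
          by_contra h
          push Not at h
          exact hm (Finsupp.ext h)
        have h3 := MvPolynomial.coeff_pderiv (i := i) P (m - Finsupp.single i 1)
        rw [h1 i, MvPolynomial.coeff_zero, tsub_add_cancel_of_le] at h3
        · have h4 : (((m - Finsupp.single i 1 : Fin p →₀ ℕ) i : k) + 1) ≠ 0 :=
            Nat.cast_add_one_ne_zero _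
          exact (mul_eq_zero.1 h3.symm).resolve_right h4
        · rw [Finsupp.single_le_iff]
          omega
      have h3 : P = MvPolynomial.C (MvPolynomial.coeff 0 P) := by
        ext m
        rw [MvPolynomial.coeff_C]
        by_cases hm : 0 = m
        · rw [if_pos hm, hm]
        · rw [if_neg hm, h2 m (Ne.symm hm)]
      rw [h3, MvPolynomial.aeval_C, map_eq_zero] at hP
      rw [h3, hP, map_zero]
  rw [algebraicIndependent_iff]
  intro P hP
  exact key _ P (Nat.lt_succ_self _) hP

/-- If `κ` is the field of fractions of a subalgebra integral over `k[v]` then `jac v ≠ 0`.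

Proof: `T = k(v)`; `κ` is algebraic, hence separable, over `T` (every element of `C` is integral
over `k[v] ⊆ T`, every element of `κ` is a quotient of two such elements), so `Ω[κ⁄T] = 0`.
By the exact sequence `κ ⊗ Ω[T⁄k] → Ω[κ⁄k] → Ω[κ⁄T]` (`KaehlerDifferential.exact_mapBaseChange_map`
or directly: for `x ∈ κ` with minimal polynomial `f` over `T`, `f'(x) dx = - ∑ x^i d(f_i)`) the
differentials `dx`, `x ∈ T`, generate `Ω[κ⁄k]`, and they are in the span of the `dv_i`
(`IntermediateField.adjoin_induction`).  So the `p` elements `dv_i` generate the `p`-dimensional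
space `Ω[κ⁄k]`, they are a basis, and their determinant is nonzero
(`Module.Basis.is_basis_iff_det`). -/
theorem jac_ne_zero_of_int [CharZero k] (bk : Module.Basis (Fin p) κ Ω[κ⁄k]) (v : Fin p → κ)
    (C : Subalgebra k κ) (hfr : IsFractionRing C κ)
    (hint : ∀ x ∈ C, IsIntegral (Algebra.adjoin k (Set.range v)) x) : jac bk v ≠ 0 := by
  have hW : Submodule.span κ (Set.range fun i => KaehlerDifferential.D k κ (v i)) = ⊤ := by
    by_contra hW
    obtain ⟨φ, hφ, hker⟩ := Submodule.exists_le_ker_of_lt_top _ (lt_top_iff_ne_top.2 hW)
    set d : Derivation k κ κ := φ.compDer (KaehlerDifferential.D k κ) with hd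
    have hdv : ∀ i, d (v i) = 0 := by
      intro i
      have h1 : KaehlerDifferential.D k κ (v i) ∈
          Submodule.span κ (Set.range fun i => KaehlerDifferential.D k κ (v i)) :=
        Submodule.subset_span ⟨i, rfl⟩
      exact LinearMap.mem_ker.1 (hker h1)
    have hdT : ∀ x ∈ IntermediateField.adjoin k (Set.range v), d x = 0 := by
      intro x hx
      induction hx using IntermediateField.adjoin_induction with
      | mem x hx =>
        obtain ⟨i, rfl⟩ := hx
        exact hdv i
      | algebraMap x => exact d.map_algebraMap x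
      | add x y _ _ h1 h2 => rw [map_add, h1, h2, add_zero]
      | inv x _ h1 =>
        rw [Derivation.leibniz_inv, h1, smul_zero]
      | mul x y _ _ h1 h2 => rw [Derivation.leibniz, h1, h2, smul_zero, smul_zero, add_zero]
    have hchar : CharZero (IntermediateField.adjoin k (Set.range v)) :=
      charZero_of_injective_algebraMap (algebraMap k _).injective
    have halg : Algebra.IsAlgebraic (IntermediateField.adjoin k (Set.range v)) κ := by
      refine ⟨fun x => ?_⟩
      have hC : ∀ y ∈ C, IsAlgebraic (IntermediateField.adjoin k (Set.range v)) y := by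
        intro y hy
        open IntermediateField.algebraAdjoinAdjoin in
        exact (hint y hy).tower_top.isAlgebraic
      obtain ⟨a, b, -, hab⟩ := IsFractionRing.div_surjective (A := C) x
      rw [← hab, div_eq_mul_inv]
      exact (hC a a.2).mul (hC b b.2).inv
    have hun : Algebra.FormallyUnramified (IntermediateField.adjoin k (Set.range v)) κ :=
      Algebra.FormallyUnramified.of_isSeparable _ _
    have hd0 : ∀ x : κ, d x = 0 := by
      intro x
      let d' : Derivation (IntermediateField.adjoin k (Set.range v)) κ κ :=
        Derivation.mk'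
          { toFun := d
            map_add' := fun x y => d.map_add x y
            map_smul' := fun c x => by
              change d ((c : κ) * x) = (c : κ) * d x
              rw [Derivation.leibniz, hdT c c.2, smul_zero, add_zero, smul_eq_mul] }
          (fun x y => d.leibniz x y)
      have h1 : d' x = d'.liftKaehlerDifferential
          (KaehlerDifferential.D (IntermediateField.adjoin k (Set.range v)) κ x) :=
        (d'.liftKaehlerDifferential_comp_D x).symm
      have h2 : KaehlerDifferential.D (IntermediateField.adjoin k (Set.range v)) κ x = 0 :=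
        Subsingleton.elim _ _
      rw [h2, map_zero] at h1
      exact h1
    apply hφ
    refine LinearMap.ext fun z => ?_
    have h3 : z ∈ Submodule.span κ (Set.range (KaehlerDifferential.D k κ)) := by
      rw [KaehlerDifferential.span_range_derivation]
      exact Submodule.mem_top
    have h4 : Submodule.span κ (Set.range (KaehlerDifferential.D k κ)) ≤ LinearMap.ker φ := by
      rw [Submodule.span_le]
      rintro _ ⟨x, rfl⟩
      exact hd0 x
    exact h4 h3
  have hLI : LinearIndependent κ fun i => KaehlerDifferential.D k κ (v i) := by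
    apply linearIndependent_of_top_le_span_of_card_eq_finrank hW.ge
    rw [Module.finrank_eq_card_basis bk]
  exact ((Module.Basis.is_basis_iff_det bk).1 ⟨hLI, hW⟩).ne_zero

/-- (III.1) `Tr (η / jac u) ∈ k[u, u_j⁻¹ (j ∈ J)]` for `η = ∑ c₀ jac c`, `c₀, c_j` in a subalgebra
`C` integral over `k[u, u_j⁻¹ (j ∈ J)]`.

Proof: `Submodule.span_induction` on `η ∈ WC bk C` (`trK u` is additive and `k`-linear).  For
`η = c₀ jac c`, `η (jac u)⁻¹ = c₀ det (D_i c_j)` (`exists_dual`).  Apply `trace_det_mem` with
`T = IntermediateField.adjoin k (Set.range u)`, `F = κ`, the family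
`u' i = ⟨u i, _⟩ : T`: it is algebraically independent (`algInd_of_jac`, `T → κ` is injective),
`IsFr k u'` by `IntermediateField.mem_adjoin_range_iff` (or `mem_adjoin_iff_div`), `T → κ` finite
by `finite_of_jac`.  `AJ k u J` is the image of `AJ k u' J` under `T → κ`
(`AlgHom.map_adjoin`), which gives the integrality over `AJ k u' J` and the conclusion. -/
theorem trK_mem [CharZero k] [Algebra.EssFiniteType k κ] (bk : Module.Basis (Fin p) κ Ω[κ⁄k])
    {u : Fin p → κ} (hu : jac bk u ≠ 0) (J : Set (Fin p)) {C : Subalgebra k κ}
    (hC : ∀ x ∈ C, IsIntegral (AJ k u J) x) {η : κ} (hη : η ∈ WC bk C) :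
    trK (k := k) u (η * (jac bk u)⁻¹) ∈ AJ k u J := by
  classical
  obtain ⟨D, hD, hjac⟩ := exists_dual bk hu
  have hfin := finite_of_jac bk hu
  have hind := algInd_of_jac bk hu
  set T := IntermediateField.adjoin k (Set.range u) with hT
  set u' : Fin p → T := fun i => ⟨u i, IntermediateField.subset_adjoin k _ ⟨i, rfl⟩⟩ with hu'
  have hcomp : (T.val : T → κ) ∘ u' = u := rfl
  have hind' : AlgebraicIndependent k u' := by
    apply AlgebraicIndependent.of_comp T.val
    rw [hcomp]
    exact hind
  have hval : ∀ a : MvPolynomial (Fin p) k, ((MvPolynomial.aeval u' a : T) : κ) =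
      MvPolynomial.aeval u a := by
    intro a
    have h1 := MvPolynomial.comp_aeval_apply (f := u') T.val a
    exact h1
  have hFr : IsFr k u' := by
    intro x
    obtain ⟨r, s, hrs⟩ := (IntermediateField.mem_adjoin_range_iff k u (x : κ)).1 x.2
    by_cases hs : MvPolynomial.aeval u s = 0
    · refine ⟨0, 1, one_ne_zero, ?_⟩
      rw [hs, div_zero] at hrs
      have hx : x = 0 := Subtype.ext hrs
      rw [hx, zero_mul, map_zero]
    · refine ⟨r, s, ?_, ?_⟩
      · rintro rfl
        rw [map_zero] at hs
        exact hs rfl
      · apply Subtype.ext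
        change (x : κ) * ((MvPolynomial.aeval u' s : T) : κ) = _
        rw [hval, hval, hrs, div_mul_cancel₀ _ hs]
  have hmap : (AJ k u' J).map T.val = AJ k u J := by
    unfold AJ
    rw [AlgHom.map_adjoin]
    congr 1
    rw [Set.image_union]
    congr 1
    · rw [← Set.range_comp]
      rfl
    · rw [Set.image_image]
      refine Set.image_congr fun j _ => ?_
      exact map_inv₀ T.val (u' j)
  have hint : ∀ x ∈ C, IsIntegral (AJ k u' J) x := by
    intro x hx
    have h1 := hC x hx
    rw [← hmap] at h1
    let e := (AJ k u' J).equivMapOfInjective T.val T.val.injective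
    let _ : Algebra ((AJ k u' J).map T.val) (AJ k u' J) := e.symm.toRingHom.toAlgebra
    have htow : IsScalarTower ((AJ k u' J).map T.val) (AJ k u' J) κ := by
      refine IsScalarTower.of_algebraMap_eq fun y => ?_
      change (y : κ) = ((e.symm y : AJ k u' J) : T)
      conv_lhs => rw [← e.apply_symm_apply y]
      rfl
    exact h1.tower_top
  have hadd : ∀ x y : κ, trK (k := k) u (x + y) = trK (k := k) u x + trK (k := k) u y := by
    intro x y
    unfold trK
    rw [map_add]
    rfl
  have hsmul : ∀ (c : k) (x : κ), trK (k := k) u (c • x) = c • trK (k := k) u x := by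
    intro c x
    unfold trK
    have h1 : c • x = (algebraMap k T c) • x := by
      rw [algebraMap_smul]
    change ((Algebra.trace T κ (c • x) : T) : κ) = c • ((Algebra.trace T κ x : T) : κ)
    rw [h1, map_smul, algebraMap_smul]
    rfl
  unfold WC at hη
  induction hη using Submodule.span_induction with
  | mem η hη =>
    obtain ⟨c, hc, a, ha, rfl⟩ := hη
    have h1 : c * jac bk a * (jac bk u)⁻¹ = c * (Matrix.of fun i j => D i (a j)).det := by
      rw [hjac a]
      field_simp
    rw [h1]
    have hD' : DualD u' D := hD
    have h2 := trace_det_mem hind' hFr hD' J (hint c hc) (fun j => hint (a j) (ha j))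
    rw [← hmap]
    exact ⟨_, h2, rfl⟩
  | zero =>
    rw [zero_mul]
    have h1 : trK (k := k) u (0 : κ) = 0 := by
      unfold trK
      rw [map_zero]
      rfl
    rw [h1]
    exact Subalgebra.zero_mem _
  | add x y _ _ h1 h2 =>
    rw [add_mul, hadd]
    exact Subalgebra.add_mem _ h1 h2
  | smul c x _ h1 =>
    rw [smul_mul_assoc, hsmul]
    exact Subalgebra.smul_mem _ h1 c

end Flip28
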