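import Pool.Agent.FlipB_h28.HI0

/-! # Newton identities for the trace, and the trace of an element congruent to an idempotent -/

open scoped KaehlerDifferential

universe u

namespace Flip28

/-- Newton identities: the elementary symmetric functions lie in a subgroup closed under
multiplication and division by integers if the power sums do. -/
theorem HI9_esymm {E : Type*} [Field E] [CharZero E] {S : Type*} [Fintype S] (f : S → E)
    (J : AddSubgroup E) (hJ : ∀ a ∈ J, ∀ b ∈ J, a * b ∈ J)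
    (hQ : ∀ n : ℕ, n ≠ 0 → ∀ a ∈ J, (n : E)⁻¹ * a ∈ J)
    (hp : ∀ m : ℕ, 0 < m → ∑ s, f s ^ m ∈ J) (m : ℕ) (hm : 0 < m) :
    MvPolynomial.aeval f (MvPolynomial.esymm S E m) ∈ J := by
  classical
  induction m using Nat.strong_induction_on with
  | _ m ih =>
    have h1 := congrArg (MvPolynomial.aeval f) (MvPolynomial.mul_esymm_eq_sum S E m)
    have hsgn : ∀ (j : ℕ) (a : E), a ∈ J → (-1) ^ j * a ∈ J := by
      intro j a ha
      rcases neg_one_pow_eq_or E j with h | h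
      · rw [h, one_mul]
        exact ha
      · rw [h, neg_one_mul]
        exact J.neg_mem ha
    have h2 : (m : E) * MvPolynomial.aeval f (MvPolynomial.esymm S E m) ∈ J := by
      have h3 : (m : E) * MvPolynomial.aeval f (MvPolynomial.esymm S E m) =
          (-1) ^ (m + 1) * ∑ a ∈ (Finset.HasAntidiagonal.antidiagonal m : Finset (ℕ × ℕ)) with a.1 < m,
            (-1) ^ a.1 * (MvPolynomial.aeval f (MvPolynomial.esymm S E a.1) *
              ∑ s, f s ^ a.2) := by
        rw [map_mul, map_natCast] at h1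
        rw [h1, map_mul, map_pow, map_neg, map_one, map_sum]
        congr 1
        refine Finset.sum_congr rfl fun a _ => ?_
        rw [map_mul, map_mul, map_pow, map_neg, map_one, MvPolynomial.psum, map_sum, mul_assoc]
        simp only [map_pow, MvPolynomial.aeval_X]
      rw [h3]
      refine hsgn _ _ (J.sum_mem fun a ha => hsgn _ _ ?_)
      rw [Finset.mem_filter, Finset.HasAntidiagonal.mem_antidiagonal] at ha
      have ha2 : 0 < a.2 := by omega
      rcases Nat.eq_zero_or_pos a.1 with h0 | h0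
      · rw [h0, MvPolynomial.esymm_zero, map_one, one_mul]
        exact hp _ ha2
      · exact hJ _ (ih a.1 ha.2 h0) _ (hp _ ha2)
    have h4 := hQ m hm.ne' _ h2
    rwa [inv_mul_cancel_left₀ (Nat.cast_ne_zero.2 hm.ne')] at h4

/-- If the traces of all powers of `x` are in `I`, a subgroup of `T` closed under multiplication
and division by integers, then `x` satisfies an equation `x^r = ∑_{j<r} q_j x^j` with `q_j ∈ I`.

Proof: let `E` be an algebraic closure of `F`, `σ` run through the `T`-embeddings `F → E` (there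
are `r = [F : T]` of them), `x_σ = σ x`.  `Tr (x^m) = ∑_σ x_σ^m` in `E`
(`trace_eq_sum_embeddings`).  Newton's identities (`MvPolynomial.mul_esymm_eq_sum`, evaluated at
`x_σ`): `m e_m = (-1)^(m+1) ∑_{i + j = m, i < m} (-1)^i e_i p_j`, where `e_0 = 1` and
`p_j = Tr (x^j) ∈ I` for `j ≥ 1`; by strong induction `e_m` is the image of an element of `I` for
`m ≥ 1`.  `∏_σ (X - x_σ) = ∑_m (-1)^m e_m X^(r-m)` (`MvPolynomial.prod_C_add_X_eq_sum_esymm` or
`Multiset.prod_X_sub_X_eq_sum_esymm`) has the root `σ x`; `σ` is injective. -/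
theorem pow_of_trace {T F : Type*} [Field T] [Field F] [Algebra T F] [FiniteDimensional T F]
    [CharZero T] (I : AddSubgroup T) (hI : ∀ a ∈ I, ∀ b ∈ I, a * b ∈ I)
    (hQ : ∀ n : ℕ, n ≠ 0 → ∀ a ∈ I, (n : T)⁻¹ * a ∈ I) (x : F)
    (h : ∀ m : ℕ, 0 < m → Algebra.trace T F (x ^ m) ∈ I) :
    ∃ (r : ℕ) (q : Fin r → T), 0 < r ∧ (∀ j, q j ∈ I) ∧
      x ^ r = ∑ j : Fin r, algebraMap T F (q j) * x ^ (j : ℕ) := by
  classical
  set E := AlgebraicClosure F with hE
  have : CharZero E := charZero_of_injective_algebraMap (algebraMap T E).injective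
  set J : AddSubgroup E := I.map ((algebraMap T E : T →+* E) : T →+ E) with hJdef
  have hJmem : ∀ y : E, y ∈ J ↔ ∃ c ∈ I, algebraMap T E c = y := fun y => Iff.rfl
  have hJ : ∀ a ∈ J, ∀ b ∈ J, a * b ∈ J := by
    rintro _ ⟨a, ha, rfl⟩ _ ⟨b, hb, rfl⟩
    exact ⟨a * b, hI a ha b hb, map_mul (algebraMap T E) a b⟩
  have hJQ : ∀ n : ℕ, n ≠ 0 → ∀ a ∈ J, (n : E)⁻¹ * a ∈ J := by
    rintro n hn _ ⟨a, ha, rfl⟩
    refine ⟨(n : T)⁻¹ * a, hQ n hn a ha, ?_⟩
    change algebraMap T E ((n : T)⁻¹ * a) = (n : E)⁻¹ * algebraMap T E a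
    rw [map_mul, map_inv₀, map_natCast]
  set f : (F →ₐ[T] E) → E := fun s => s x with hf
  have hp : ∀ m : ℕ, 0 < m → ∑ s, f s ^ m ∈ J := by
    intro m hm
    refine (hJmem _).2 ⟨Algebra.trace T F (x ^ m), h m hm, ?_⟩
    rw [trace_eq_sum_embeddings E]
    exact Finset.sum_congr rfl fun s _ => map_pow s x m
  have he : ∀ m : ℕ, 0 < m → ∃ c ∈ I, algebraMap T E c =
      MvPolynomial.aeval f (MvPolynomial.esymm (F →ₐ[T] E) E m) := fun m hm =>
    (hJmem _).1 (HI9_esymm f J hJ hJQ hp m hm)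
  choose! c hcI hc using he
  set r : ℕ := Fintype.card (F →ₐ[T] E) with hr
  obtain ⟨s₀⟩ : Nonempty (F →ₐ[T] E) := ⟨IsScalarTower.toAlgHom T F E⟩
  have hr0 : 0 < r := Fintype.card_pos_iff.2 ⟨s₀⟩
  refine ⟨r, fun i => -((-1) ^ (r - (i : ℕ)) * c (r - (i : ℕ))), hr0, fun i => ?_, ?_⟩
  · have hi : 0 < r - (i : ℕ) := by have := i.2; omega
    refine I.neg_mem ?_
    rcases neg_one_pow_eq_or T (r - (i : ℕ)) with h1 | h1
    · rw [h1, one_mul]
      exact hcI _ hi
    · rw [h1, neg_one_mul]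
      exact I.neg_mem (hcI _ hi)
  · apply s₀.toRingHom.injective
    change s₀ (x ^ r) = s₀ (∑ j : Fin r, algebraMap T F (-((-1) ^ (r - (j : ℕ)) * c (r - (j : ℕ)))) *
      x ^ (j : ℕ))
    have h1 := Multiset.prod_X_sub_X_eq_sum_esymm (Finset.univ.val.map f)
    have h2 := congrArg (Polynomial.eval (s₀ x)) h1
    have h3 : Polynomial.eval (s₀ x) ((Multiset.map (fun t => Polynomial.X - Polynomial.C t)
        (Multiset.map f Finset.univ.val)).prod) = 0 := by
      rw [Multiset.map_map]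
      change Polynomial.eval (s₀ x) (∏ s, (Polynomial.X - Polynomial.C (f s))) = 0
      rw [Polynomial.eval_prod]
      exact Finset.prod_eq_zero (Finset.mem_univ s₀) (by simp [hf])
    rw [h3, Polynomial.eval_finsetSum, Multiset.card_map] at h2
    have hcard : Multiset.card (Finset.univ : Finset (F →ₐ[T] E)).val = r := rfl
    rw [hcard, Finset.sum_range_succ'] at h2
    simp only [Polynomial.eval_mul, Polynomial.eval_pow, Polynomial.eval_neg, Polynomial.eval_one,
      Polynomial.eval_C, Polynomial.eval_X, pow_zero, one_mul, Nat.sub_zero] at h2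
    have hz : (Multiset.map f Finset.univ.val).esymm 0 = 1 := by simp [Multiset.esymm]
    rw [hz] at h2
    rw [map_pow]
    have h4 : s₀ x ^ r = -∑ j ∈ Finset.range r, (-1) ^ (j + 1) *
        ((Multiset.map f Finset.univ.val).esymm (j + 1) * s₀ x ^ (r - (j + 1))) := by
      linear_combination -h2
    rw [h4, ← Finset.sum_range_reflect, map_sum, Finset.sum_range, ← Finset.sum_neg_distrib]
    refine Finset.sum_congr rfl fun j _ => ?_
    have hj := j.2
    have e1 : r - 1 - (j : ℕ) + 1 = r - j := by omega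
    have e2 : r - (r - (j : ℕ)) = j := by omega
    rw [e1, e2, map_mul, map_pow, AlgHom.commutes, map_neg, map_mul, map_pow, map_neg, map_one,
      hc _ (by omega), MvPolynomial.aeval_esymm_eq_multiset_esymm]
    ring

variable {k κ : Type u} [Field k] [Field κ] [Algebra k κ] {p : ℕ}

/-- polynomials without constant term in elements of an ideal -/
theorem HI9_aeval_mem (v : Fin p → κ) (C : Subalgebra k κ) (𝔫 : Ideal C)
    (hv : ∀ a : Fin p, v a ∈ C) (hv𝔫 : ∀ (a : Fin p) (w : C), (w : κ) = v a → w ∈ 𝔫)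
    (P : MvPolynomial (Fin p) k) (hP : MvPolynomial.constantCoeff P = 0) (w : C)
    (hw : (w : κ) = MvPolynomial.aeval v P) : w ∈ 𝔫 := by
  have h1 : w = MvPolynomial.aeval (fun a => (⟨v a, hv a⟩ : C)) P := by
    apply Subtype.ext
    rw [hw]
    have h2 := MvPolynomial.aeval_algebraMap_apply κ (fun a => (⟨v a, hv a⟩ : C)) P
    exact h2
  rw [h1, ← Ideal.Quotient.eq_zero_iff_mem]
  have h3 := MvPolynomial.comp_aeval_apply (R := k) (fun a => (⟨v a, hv a⟩ : C))
    (Ideal.Quotient.mkₐ k 𝔫) P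
  have h4 : (fun a => (Ideal.Quotient.mkₐ k 𝔫) (⟨v a, hv a⟩ : C)) = (0 : Fin p → C ⧸ 𝔫) := by
    funext a
    exact Ideal.Quotient.eq_zero_iff_mem.2 (hv𝔫 a _ rfl)
  rw [h4, MvPolynomial.aeval_zero, hP, map_zero] at h3
  exact h3

/-- the elements of `k(v)` which are polynomials in `v` without constant term -/
def HI9_I (v : Fin p → κ) : AddSubgroup (IntermediateField.adjoin k (Set.range v)) where
  carrier := {y | ∃ P : MvPolynomial (Fin p) k, MvPolynomial.constantCoeff P = 0 ∧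
    (y : κ) = MvPolynomial.aeval v P}
  zero_mem' := ⟨0, map_zero _, by rw [map_zero]; rfl⟩
  add_mem' := by
    rintro a b ⟨P, hP, ha⟩ ⟨Q, hQ, hb⟩
    refine ⟨P + Q, by rw [map_add, hP, hQ, add_zero], ?_⟩
    rw [map_add, ← ha, ← hb]
    rfl
  neg_mem' := by
    rintro a ⟨P, hP, ha⟩
    refine ⟨-P, by rw [map_neg, hP, neg_zero], ?_⟩
    rw [map_neg, ← ha]
    rfl

theorem HI9_mem_I {v : Fin p → κ} {y : IntermediateField.adjoin k (Set.range v)} :
    y ∈ HI9_I v ↔ ∃ P : MvPolynomial (Fin p) k, MvPolynomial.constantCoeff P = 0 ∧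
    (y : κ) = MvPolynomial.aeval v P := Iff.rfl

/-- If the traces of all powers of `x ∈ C` are polynomials in `v` without constant term then `x`
belongs to all maximal ideals of `C` containing the `v a`.

Proof: `pow_of_trace` with `T = IntermediateField.adjoin k (Set.range v)`, `F = κ` and
`I = {y : T | ∃ P, constantCoeff P = 0 ∧ (y : κ) = aeval v P}`; `aeval v P ∈ 𝔫` for
`constantCoeff P = 0`, so `x ^ r ∈ 𝔫`. -/
theorem mem_of_trK [CharZero k] (v : Fin p → κ)
    [FiniteDimensional (IntermediateField.adjoin k (Set.range v)) κ] (C : Subalgebra k κ)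
    (𝔫 : Ideal C) (h𝔫 : 𝔫.IsMaximal)
    (hv : ∀ a : Fin p, v a ∈ C) (hv𝔫 : ∀ (a : Fin p) (w : C), (w : κ) = v a → w ∈ 𝔫) (x : C)
    (h : ∀ m : ℕ, 0 < m → ∃ P : MvPolynomial (Fin p) k, MvPolynomial.constantCoeff P = 0 ∧
      trK (k := k) v ((x : κ) ^ m) = MvPolynomial.aeval v P) : x ∈ 𝔫 := by
  haveI : CharZero (IntermediateField.adjoin k (Set.range v)) :=
    charZero_of_injective_algebraMap
      (algebraMap k (IntermediateField.adjoin k (Set.range v))).injective
  obtain ⟨r, q, hr, hq, hx⟩ := pow_of_trace (T := IntermediateField.adjoin k (Set.range v))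
    (F := κ) (HI9_I v) (by
      rintro a ⟨P, hP, ha⟩ b ⟨Q, hQ, hb⟩
      refine ⟨P * Q, by rw [map_mul, hP, zero_mul], ?_⟩
      rw [map_mul, ← ha, ← hb]
      rfl) (by
      rintro n hn a ⟨P, hP, ha⟩
      refine ⟨MvPolynomial.C ((n : k)⁻¹) * P, by rw [map_mul, hP, mul_zero], ?_⟩
      rw [map_mul, ← ha, MvPolynomial.aeval_C, map_inv₀, map_natCast]
      push_cast
      rfl) (x : κ) (fun m hm => by
      obtain ⟨P, hP, h1⟩ := h m hm
      exact ⟨P, hP, h1⟩)
  choose P hP hqP using hq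
  have hPC : ∀ j, MvPolynomial.aeval v (P j) ∈ C := by
    intro j
    have h2 := MvPolynomial.aeval_algebraMap_apply κ (fun a => (⟨v a, hv a⟩ : C)) (P j)
    have h3 : MvPolynomial.aeval v (P j) =
        ((MvPolynomial.aeval (fun a => (⟨v a, hv a⟩ : C)) (P j) : C) : κ) := h2
    rw [h3]
    exact Subtype.property _
  have hmem : x ^ r ∈ 𝔫 := by
    have h1 : x ^ r = ∑ j : Fin r, (⟨MvPolynomial.aeval v (P j), hPC j⟩ : C) * x ^ (j : ℕ) := by
      apply Subtype.ext
      push_cast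
      rw [hx]
      refine Finset.sum_congr rfl fun j _ => ?_
      rw [← hqP j]
      rfl
    rw [h1]
    refine Ideal.sum_mem _ fun j _ => Ideal.mul_mem_right _ _ ?_
    exact HI9_aeval_mem v C 𝔫 hv hv𝔫 (P j) (hP j) _ rfl
  exact h𝔫.isPrime.mem_of_pow_mem r hmem

theorem HI9_mem_NS {W : Submodule k κ} {v : Fin p → κ} {n : κ} : n ∈ NS W v p ↔
    ∃ w : Fin p → κ, (∀ a, w a ∈ W) ∧ n = ∑ a, v a * w a := by
  have h1 : Finset.univ.filter (fun a : Fin p => (a : ℕ) < p) = Finset.univ :=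
    Finset.filter_true_of_mem fun a _ => a.isLt
  constructor
  · rintro ⟨w, hw, hn⟩
    rw [h1] at hn
    exact ⟨w, hw, hn⟩
  · rintro ⟨w, hw, hn⟩
    refine ⟨w, hw, ?_⟩
    rw [h1]
    exact hn

theorem HI9_NS_mul {W : Submodule k κ} {C : Subalgebra k κ} {v : Fin p → κ}
    (hWC : ∀ c ∈ C, ∀ w ∈ W, c * w ∈ W) {c : κ} (hc : c ∈ C) {n : κ} (hn : n ∈ NS W v p) :
    c * n ∈ NS W v p := by
  rw [HI9_mem_NS] at hn ⊢
  obtain ⟨w, hw, rfl⟩ := hn
  refine ⟨fun a => c * w a, fun a => hWC c hc _ (hw a), ?_⟩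
  rw [Finset.mul_sum]
  exact Finset.sum_congr rfl fun a _ => by ring

theorem HI9_v_mul {W : Submodule k κ} {v : Fin p → κ} (a : Fin p) {w : κ} (hw : w ∈ W) :
    v a * w ∈ NS W v p := by
  classical
  rw [HI9_mem_NS]
  refine ⟨Pi.single a w, fun b => ?_, ?_⟩
  · by_cases h : b = a
    · subst h
      rw [Pi.single_eq_same]
      exact hw
    · rw [Pi.single_eq_of_ne h]
      exact W.zero_mem
  · rw [Finset.sum_eq_single a]
    · rw [Pi.single_eq_same]
    · intro b _ hb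
      rw [Pi.single_eq_of_ne hb, mul_zero]
    · intro h
      exact absurd (Finset.mem_univ a) h

theorem HI9_trK_add (v : Fin p → κ) (x y : κ) :
    trK (k := k) v (x + y) = trK (k := k) v x + trK (k := k) v y := by
  unfold trK
  rw [map_add]
  rfl

theorem HI9_trK_zero (v : Fin p → κ) : trK (k := k) v (0 : κ) = 0 := by
  unfold trK
  rw [map_zero]
  rfl

theorem HI9_trK_sum (v : Fin p → κ) {ι : Type*} (s : Finset ι) (f : ι → κ) :
    trK (k := k) v (∑ i ∈ s, f i) = ∑ i ∈ s, trK (k := k) v (f i) := by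
  classical
  induction s using Finset.induction_on with
  | empty => rw [Finset.sum_empty, Finset.sum_empty, HI9_trK_zero]
  | insert a s ha ih => rw [Finset.sum_insert ha, Finset.sum_insert ha, HI9_trK_add, ih]

theorem HI9_trK_mul (v : Fin p → κ) (a : Fin p) (w : κ) :
    trK (k := k) v (v a * w) = v a * trK (k := k) v w := by
  have h1 : v a ∈ IntermediateField.adjoin k (Set.range v) :=
    IntermediateField.subset_adjoin k _ ⟨a, rfl⟩
  have h2 : v a * w = (⟨v a, h1⟩ : IntermediateField.adjoin k (Set.range v)) • w := rfl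
  unfold trK
  rw [h2, map_smul]
  rfl

theorem HI9_tr_NS {W : Submodule k κ} {v : Fin p → κ}
    (hTr : ∀ w ∈ W, ∃ P : MvPolynomial (Fin p) k, trK (k := k) v w = MvPolynomial.aeval v P)
    {n : κ} (hn : n ∈ NS W v p) : ∃ P : MvPolynomial (Fin p) k,
      MvPolynomial.constantCoeff P = 0 ∧ trK (k := k) v n = MvPolynomial.aeval v P := by
  rw [HI9_mem_NS] at hn
  obtain ⟨w, hw, rfl⟩ := hn
  choose P hP using fun a => hTr (w a) (hw a)
  refine ⟨∑ a, MvPolynomial.X a * P a, ?_, ?_⟩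
  · rw [map_sum]
    refine Finset.sum_eq_zero fun a _ => ?_
    rw [map_mul, MvPolynomial.constantCoeff_X, zero_mul]
  · rw [HI9_trK_sum, map_sum]
    refine Finset.sum_congr rfl fun a _ => ?_
    rw [HI9_trK_mul, hP, map_mul, MvPolynomial.aeval_X]


/-- (III.3) `W` is a `C`-module containing `1` whose elements have traces in `k[v]`; `φ ∈ W` is
locally at every maximal ideal of `C` containing the `v a` congruent modulo `(v) W` to `0` or to
`1`, the second case occurring at least once.  Then `Tr φ` has a nonzero constant term.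

Proof: let `N = NS W v p`, a `k`-subspace stable under `C`, contained in `W`.
(1) `trK v n = aeval v P` with `constantCoeff P = 0` for `n ∈ N`: `trK v (v a * w) = v a * trK v w`
(`v a` is in the field `k(v)`).
(2) `Tr φ = P(v)` by `hTr`; suppose `constantCoeff P = 0`.
(3) Let `𝔞 = {s ∈ C | s φ ∈ N}`, `𝔟 = {s ∈ C | s (φ - 1) ∈ N}`, ideals of `C` containing the `v a`
(as `φ, 1 ∈ W`).  `𝔞 ⊔ 𝔟 = ⊤`: otherwise it is contained in a maximal ideal, which contradicts
`hloc`.  So `a + b = 1`, `a ∈ 𝔞`, `b ∈ 𝔟`.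
(4) `φ - b = a φ + b (φ - 1) ∈ N` and `a b = b (a φ) - a (b (φ - 1)) ∈ N`, so
`b ^ (m + 1) - b ^ m = - b ^ (m - 1) (a b) ∈ N` for `m ≥ 1` and `b ^ m - φ ∈ N` for all `m ≥ 1`.
(5) So `Tr (b ^ m)` is a polynomial without constant term for `m ≥ 1` and `b ∈ 𝔫` for the `𝔫` of
`hex` (`mem_of_trK`), so `a ∉ 𝔫`.
(6) Let `s` be as in `hex`, `s ∈ 𝔟`, `s ∉ 𝔫`.  `a s = s (a φ) - a (s (φ - 1)) ∈ N`, so
`(a s) ^ m ∈ N` for `m ≥ 1`, its trace is without constant term by (1), so `a s ∈ 𝔫`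
(`mem_of_trK`), a contradiction. -/
theorem nonkill [CharZero k] (v : Fin p → κ)
    [FiniteDimensional (IntermediateField.adjoin k (Set.range v)) κ] (C : Subalgebra k κ)
    (hvC : ∀ a, v a ∈ C) (W : Submodule k κ) (hWC : ∀ c ∈ C, ∀ w ∈ W, c * w ∈ W)
    (h1 : (1 : κ) ∈ W)
    (hTr : ∀ w ∈ W, ∃ P : MvPolynomial (Fin p) k, trK (k := k) v w = MvPolynomial.aeval v P)
    (φ : κ) (hφ : φ ∈ W)
    (hloc : ∀ 𝔫 : Ideal C, 𝔫.IsMaximal → (∀ (a : Fin p) (w : C), (w : κ) = v a → w ∈ 𝔫) →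
      (∃ s : C, s ∉ 𝔫 ∧ (s : κ) * φ ∈ NS W v p) ∨
      (∃ s : C, s ∉ 𝔫 ∧ (s : κ) * (φ - 1) ∈ NS W v p))
    (hex : ∃ 𝔫 : Ideal C, 𝔫.IsMaximal ∧ (∀ (a : Fin p) (w : C), (w : κ) = v a → w ∈ 𝔫) ∧
      ∃ s : C, s ∉ 𝔫 ∧ (s : κ) * (φ - 1) ∈ NS W v p) :
    ∃ P : MvPolynomial (Fin p) k, MvPolynomial.constantCoeff P ≠ 0 ∧
      trK (k := k) v φ = MvPolynomial.aeval v P := by
  obtain ⟨P₀, hP₀⟩ := hTr φ hφ
  by_contra hcon
  have hP₀0 : MvPolynomial.constantCoeff P₀ = 0 := by
    by_contra h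
    exact hcon ⟨P₀, h, hP₀⟩
  -- the ideals
  let 𝔞 : Ideal C :=
    { carrier := {s : C | (s : κ) * φ ∈ NS W v p}
      add_mem' := fun {s t} hs ht => by
        change ((s + t : C) : κ) * φ ∈ NS W v p
        have h2 : ((s + t : C) : κ) * φ = (s : κ) * φ + (t : κ) * φ := by
          push_cast
          ring
        rw [h2]
        exact Submodule.add_mem _ hs ht
      zero_mem' := by
        change ((0 : C) : κ) * φ ∈ NS W v p
        have h2 : ((0 : C) : κ) * φ = 0 := by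
          push_cast
          ring
        rw [h2]
        exact Submodule.zero_mem _
      smul_mem' := fun c {s} hs => by
        change ((c * s : C) : κ) * φ ∈ NS W v p
        have h2 : ((c * s : C) : κ) * φ = (c : κ) * ((s : κ) * φ) := by
          push_cast
          ring
        rw [h2]
        exact HI9_NS_mul hWC c.2 hs }
  let 𝔟 : Ideal C :=
    { carrier := {s : C | (s : κ) * (φ - 1) ∈ NS W v p}
      add_mem' := fun {s t} hs ht => by
        change ((s + t : C) : κ) * (φ - 1) ∈ NS W v p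
        have h2 : ((s + t : C) : κ) * (φ - 1) = (s : κ) * (φ - 1) + (t : κ) * (φ - 1) := by
          push_cast
          ring
        rw [h2]
        exact Submodule.add_mem _ hs ht
      zero_mem' := by
        change ((0 : C) : κ) * (φ - 1) ∈ NS W v p
        have h2 : ((0 : C) : κ) * (φ - 1) = 0 := by
          push_cast
          ring
        rw [h2]
        exact Submodule.zero_mem _
      smul_mem' := fun c {s} hs => by
        change ((c * s : C) : κ) * (φ - 1) ∈ NS W v p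
        have h2 : ((c * s : C) : κ) * (φ - 1) = (c : κ) * ((s : κ) * (φ - 1)) := by
          push_cast
          ring
        rw [h2]
        exact HI9_NS_mul hWC c.2 hs }
  have h𝔞 : ∀ s : C, s ∈ 𝔞 ↔ (s : κ) * φ ∈ NS W v p := fun s => Iff.rfl
  have h𝔟 : ∀ s : C, s ∈ 𝔟 ↔ (s : κ) * (φ - 1) ∈ NS W v p := fun s => Iff.rfl
  have htop : 𝔞 ⊔ 𝔟 = ⊤ := by
    by_contra hne
    obtain ⟨𝔫, h𝔫, hle⟩ := Ideal.exists_le_maximal _ hne
    have hv𝔫 : ∀ (a : Fin p) (w : C), (w : κ) = v a → w ∈ 𝔫 := by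
      intro a w hw
      refine hle (Ideal.mem_sup_left ?_)
      rw [h𝔞, hw]
      exact HI9_v_mul a hφ
    rcases hloc 𝔫 h𝔫 hv𝔫 with ⟨s, hs, hs2⟩ | ⟨s, hs, hs2⟩
    · exact hs (hle (Ideal.mem_sup_left ((h𝔞 s).2 hs2)))
    · exact hs (hle (Ideal.mem_sup_right ((h𝔟 s).2 hs2)))
  obtain ⟨a, ha, b, hb, hab⟩ := Submodule.mem_sup.1 ((Ideal.eq_top_iff_one _).1 htop)
  rw [h𝔞] at ha
  rw [h𝔟] at hb
  have habκ : (a : κ) + (b : κ) = 1 := by
    have := congrArg (fun c : C => (c : κ)) hab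
    exact_mod_cast this
  -- `a b ∈ N`
  have hab2 : (a : κ) * (b : κ) ∈ NS W v p := by
    have h2 : (a : κ) * (b : κ) = (b : κ) * ((a : κ) * φ) - (a : κ) * ((b : κ) * (φ - 1)) := by
      ring
    rw [h2]
    exact Submodule.sub_mem _ (HI9_NS_mul hWC b.2 ha) (HI9_NS_mul hWC a.2 hb)
  -- `b ^ m - φ ∈ N`
  have hbm : ∀ m : ℕ, (b : κ) ^ (m + 1) - φ ∈ NS W v p := by
    intro m
    induction m with
    | zero =>
      have h2 : (b : κ) ^ (0 + 1) - φ = -((a : κ) * φ + (b : κ) * (φ - 1)) := by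
        linear_combination φ * habκ
      rw [h2]
      exact Submodule.neg_mem _ (Submodule.add_mem _ ha hb)
    | succ m ih =>
      have h2 : (b : κ) ^ (m + 1 + 1) - φ =
          ((b : κ) ^ (m + 1) - φ) - (b : κ) ^ m * ((a : κ) * (b : κ)) := by
        linear_combination (-(b : κ) ^ (m + 1)) * habκ + (2 : κ) * (b : κ) ^ (m + 1) * habκ
      rw [h2]
      exact Submodule.sub_mem _ ih (HI9_NS_mul hWC (pow_mem b.2 m) hab2)
  obtain ⟨𝔫, h𝔫, hv𝔫, s, hs, hs2⟩ := hex
  have hb𝔫 : b ∈ 𝔫 := by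
    refine mem_of_trK v C 𝔫 h𝔫 hvC hv𝔫 b fun m hm => ?_
    obtain ⟨m, rfl⟩ : ∃ m', m = m' + 1 := ⟨m - 1, by omega⟩
    obtain ⟨P, hP, hP2⟩ := HI9_tr_NS hTr (hbm m)
    refine ⟨P + P₀, by rw [map_add, hP, hP₀0, add_zero], ?_⟩
    rw [map_add, ← hP2, ← hP₀, ← HI9_trK_add, sub_add_cancel]
  have ha𝔫 : a ∉ 𝔫 := fun h => h𝔫.ne_top ((Ideal.eq_top_iff_one _).2 (by
    rw [← hab]
    exact 𝔫.add_mem h hb𝔫))
  have has : (a : κ) * (s : κ) ∈ NS W v p := by
    have h2 : (a : κ) * (s : κ) = (s : κ) * ((a : κ) * φ) - (a : κ) * ((s : κ) * (φ - 1)) := by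
      ring
    rw [h2]
    exact Submodule.sub_mem _ (HI9_NS_mul hWC s.2 ha) (HI9_NS_mul hWC a.2 hs2)
  have has𝔫 : a * s ∈ 𝔫 := by
    refine mem_of_trK v C 𝔫 h𝔫 hvC hv𝔫 (a * s) fun m hm => ?_
    obtain ⟨m, rfl⟩ : ∃ m', m = m' + 1 := ⟨m - 1, by omega⟩
    refine HI9_tr_NS hTr ?_
    have h2 : ((a * s : C) : κ) ^ (m + 1) = ((a * s : C) : κ) ^ m * ((a : κ) * (s : κ)) := by
      rw [pow_succ]
      push_cast
      ring
    rw [h2]
    exact HI9_NS_mul hWC (pow_mem (a * s).2 m) has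
  rcases h𝔫.isPrime.mem_or_mem has𝔫 with h | h
  · exact ha𝔫 h
  · exact hs h

end Flip28
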