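import Pool.Agent.FlipB_h28.HE
import Pool.Agent.Flip_h28.Model
import Pool.Agent.Flip_h28.Disc

/-! # Projective models: generators, charts -/

open scoped KaehlerDifferential Pointwise

universe u

namespace Flip28

variable {k K : Type u} [Field k] [Field K] [Algebra k K] {V : Submodule k K}
  {X : Set (Subalgebra k K)} {A B : Subalgebra k K}

theorem Un.mono {z : K} (h : Un V A z) (hAB : A ≤ B) : Un V B z := by
  exact ⟨h.1, h.2.1, fun v hv => hAB (h.2.2 v hv)⟩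

theorem Un.mul_inv_mem {z x : K} (h : Un V A z) (h' : Un V A x) : x * z⁻¹ ∈ A := by
  exact h.2.2 x h'.1

/-- Proof: `(z / x) (x / z) = 1`. -/
theorem un_iff {x z : K} (hx : Un V A x) (hz : z ∈ V) :
    Un V A z ↔ z * x⁻¹ ≠ 0 ∧ (z * x⁻¹)⁻¹ ∈ A := by
  have hx0 := hx.2.1
  constructor
  · intro h
    refine ⟨mul_ne_zero h.2.1 (inv_ne_zero hx0), ?_⟩
    rw [mul_inv, inv_inv, mul_comm]
    exact h.2.2 x hx.1
  · rintro ⟨h1, h2⟩
    have hz0 : z ≠ 0 := fun h0 => h1 (by rw [h0, zero_mul])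
    refine ⟨hz, hz0, fun v hv => ?_⟩
    have e : v * z⁻¹ = (v * x⁻¹) * (z * x⁻¹)⁻¹ := by
      rw [mul_inv, inv_inv]
      field_simp
    rw [e]
    exact A.mul_mem (hx.2.2 v hv) h2

/-- The `z ∈ V` which do not generate form a subspace. -/
theorem exists_NU (hA : IsLocalRing A) {x : K} (hx : Un V A x) :
    ∃ U : Submodule k K, ∀ z ∈ V, z ∈ U ↔ ¬ Un V A z := by
  have hx0 := hx.2.1
  have key : ∀ z ∈ V, ¬ Un V A z ↔ ∃ hzA : z * x⁻¹ ∈ A, ¬ IsUnit (⟨z * x⁻¹, hzA⟩ : A) := by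
    intro z hz
    rw [un_iff hx hz]
    constructor
    · intro h1
      exact ⟨hx.2.2 z hz, fun h2 => h1 ((LocAlg_unit _).1 h2)⟩
    · rintro ⟨hzA, h1⟩ h2
      exact h1 ((LocAlg_unit _).2 h2)
  refine ⟨{
    carrier := {z | z ∈ V ∧ ¬ Un V A z}
    add_mem' := ?_
    zero_mem' := ?_
    smul_mem' := ?_ }, fun z hz => ?_⟩
  · rintro z w ⟨hz, hz'⟩ ⟨hw, hw'⟩
    refine ⟨V.add_mem hz hw, ?_⟩
    obtain ⟨hzA, h1⟩ := (key z hz).1 hz'
    obtain ⟨hwA, h2⟩ := (key w hw).1 hw'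
    rw [key _ (V.add_mem hz hw)]
    refine ⟨hx.2.2 _ (V.add_mem hz hw), ?_⟩
    have h3 : (⟨(z + w) * x⁻¹, hx.2.2 _ (V.add_mem hz hw)⟩ : A) =
        ⟨z * x⁻¹, hzA⟩ + ⟨w * x⁻¹, hwA⟩ := by
      apply Subtype.ext
      exact add_mul z w x⁻¹
    rw [h3]
    exact IsLocalRing.nonunits_add h1 h2
  · exact ⟨V.zero_mem, fun h0 => h0.2.1 rfl⟩
  · rintro c z ⟨hz, hz'⟩
    refine ⟨V.smul_mem c hz, fun h0 => hz' ?_⟩
    have hc : c ≠ 0 := fun hc => h0.2.1 (by rw [hc, zero_smul])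
    refine ⟨hz, fun h1 => h0.2.1 (by rw [h1, smul_zero]), fun v hv => ?_⟩
    have h1 := h0.2.2 (c • v) (V.smul_mem c hv)
    have h2 : c • v * (c • z)⁻¹ = v * z⁻¹ := by
      rw [Algebra.smul_def, Algebra.smul_def, mul_inv]
      have h3 : algebraMap k K c ≠ 0 := by
        rw [Ne, map_eq_zero]
        exact hc
      field_simp
    rwa [h2] at h1
  · exact ⟨fun h1 => h1.2, fun h1 => ⟨hz, h1⟩⟩

theorem Un.pow {z : K} (h : Un V A z) (m : ℕ) : Un (V ^ m) A (z ^ m) := by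
  have hz0 := h.2.1
  refine ⟨Submodule.pow_mem_pow V h.1 m, pow_ne_zero m hz0, ?_⟩
  induction m with
  | zero =>
    intro v hv
    rw [pow_zero, Submodule.mem_one] at hv
    obtain ⟨c, rfl⟩ := hv
    rw [pow_zero, inv_one, mul_one]
    exact A.algebraMap_mem c
  | succ m ih =>
    intro v hv
    rw [pow_succ] at hv
    induction hv using Submodule.mul_induction_on' with
    | mem_mul_mem a ha b hb =>
      have e : a * b * (z ^ (m + 1))⁻¹ = (a * (z ^ m)⁻¹) * (b * z⁻¹) := by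
        rw [pow_succ, mul_inv]
        ring
      rw [e]
      exact A.mul_mem (ih a ha) (h.2.2 b hb)
    | add a ha b hb h1 h2 =>
      rw [add_mul]
      exact A.add_mem h1 h2

/-- Proof: `z` is a sum of products of `m` elements of `V`; divide by `z`: one of the products
divided by `z` is a unit of the local ring `A`; its factors generate `V` at `A`: if
`z₁ ⋯ z_m / z` is a unit and `v ∈ V`, then `v / z₁ = (v z₂ ⋯ z_m / z) / (z₁ ⋯ z_m / z)`. -/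
theorem exists_un_of_pow (hA : IsLocalRing A) {m : ℕ} (hm : 1 ≤ m) {z : K}
    (h : Un (V ^ m) A z) : ∃ x, Un V A x := by
  obtain ⟨U, hU⟩ := exists_NU hA h
  have h1 : ∃ w ∈ (V : Set K) ^ m, Un (V ^ m) A w := by
    by_contra hcon
    push Not at hcon
    have h2 : V ^ m ≤ U := by
      conv_lhs => rw [Submodule.pow_eq_span_pow_set]
      rw [Submodule.span_le]
      intro w hw
      refine (hU w ?_).2 (hcon w hw)
      rw [Submodule.pow_eq_span_pow_set]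
      exact Submodule.subset_span hw
    exact (hU z h.1).1 (h2 h.1) h
  obtain ⟨w, hw, hun⟩ := h1
  obtain ⟨m', rfl⟩ : ∃ m', m = m' + 1 := ⟨m - 1, by omega⟩
  rw [pow_succ, Set.mem_mul] at hw
  obtain ⟨w', hw', v, hv, rfl⟩ := hw
  have hw0 := hun.2.1
  have h3 : w' ≠ 0 := fun h0 => hw0 (by rw [h0, zero_mul])
  have h4 : v ≠ 0 := fun h0 => hw0 (by rw [h0, mul_zero])
  refine ⟨v, hv, h4, fun u hu => ?_⟩
  have h5 : w' * u ∈ V ^ (m' + 1) := by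
    rw [pow_succ]
    refine Submodule.mul_mem_mul ?_ hu
    rw [Submodule.pow_eq_span_pow_set]
    exact Submodule.subset_span hw'
  have h6 := hun.2.2 _ h5
  have h7 : w' * u * (w' * v)⁻¹ = u * v⁻¹ := by
    rw [mul_inv]
    field_simp
  rwa [h7] at h6

theorem CJ_mono {Z Z' : Set K} (h : Z ⊆ Z') : CJ V Z ≤ CJ V Z' := by
  refine Algebra.adjoin_mono ?_
  rintro x ⟨v, hv, z, hz, e⟩
  exact ⟨v, hv, z, h hz, e⟩

theorem CJ_empty : CJ V (∅ : Set K) = ⊥ := by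
  have h1 : {x : K | ∃ v ∈ V, ∃ z ∈ (∅ : Set K), x = v * z⁻¹} = ∅ := by
    ext x
    simp
  unfold CJ
  rw [h1, Algebra.adjoin_empty]

theorem CJ_le_iff {Z : Set K} (hZ : ∀ z ∈ Z, z ∈ V ∧ z ≠ 0) :
    CJ V Z ≤ A ↔ ∀ z ∈ Z, Un V A z := by
  unfold CJ
  rw [Algebra.adjoin_le_iff]
  constructor
  · intro h1 z hz
    exact ⟨(hZ z hz).1, (hZ z hz).2, fun v hv => h1 ⟨v, hv, z, hz, rfl⟩⟩
  · rintro h1 x ⟨v, hv, z, hz, rfl⟩
    exact (h1 z hz).2.2 v hv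

theorem mul_inv_mem_CJ {Z : Set K} {v z : K} (hv : v ∈ V) (hz : z ∈ Z) :
    v * z⁻¹ ∈ CJ V Z := by
  exact Algebra.subset_adjoin ⟨v, hv, z, hz, rfl⟩

/-- Proof: `⊆`: for `m = 0`... (`m ≥ 1`) `v₁ ⋯ v_m / z^m` is a product of elements `v_i / z`;
`⊇`: `v / z = v z^(m-1) / z^m`. -/
theorem CJ_pow {Z : Set K} (hZ : ∀ z ∈ Z, z ∈ V ∧ z ≠ 0) {m : ℕ} (hm : 1 ≤ m) :
    CJ (V ^ m) ((fun z => z ^ m) '' Z) = CJ V Z := by
  refine le_antisymm ?_ ?_
  · refine Algebra.adjoin_le ?_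
    rintro x ⟨v, hv, z', ⟨z, hz, rfl⟩, rfl⟩
    have h1 : Un V (CJ V Z) z := ⟨(hZ z hz).1, (hZ z hz).2, fun v hv => mul_inv_mem_CJ hv hz⟩
    exact (h1.pow m).2.2 v hv
  · refine Algebra.adjoin_le ?_
    rintro x ⟨v, hv, z, hz, rfl⟩
    obtain ⟨m', rfl⟩ : ∃ m', m = m' + 1 := ⟨m - 1, by omega⟩
    have hz0 := (hZ z hz).2
    have e : v * z⁻¹ = (z ^ m' * v) * (z ^ (m' + 1))⁻¹ := by
      rw [pow_succ, mul_inv]
      have h0 : z ^ m' ≠ 0 := pow_ne_zero m' hz0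
      field_simp
    rw [e]
    refine mul_inv_mem_CJ ?_ ⟨z, hz, rfl⟩
    rw [pow_succ]
    exact Submodule.mul_mem_mul (Submodule.pow_mem_pow V (hZ z hz).1 m') hv

/-- the chart `CJ V (insert z' Z)` is the localization of `CJ V Z` at `z' / z` (`z ∈ Z`) -/
theorem exists_pow_mul_mem_CJ {Z : Set K} {z z' : K} (hz : z ∈ Z) (hZ : ∀ w ∈ Z, w ∈ V ∧ w ≠ 0)
    (hz' : z' ∈ V) (hz0 : z' ≠ 0) {x : K} (hx : x ∈ CJ V (insert z' Z)) :
    ∃ t : ℕ, (z' * z⁻¹) ^ t * x ∈ CJ V Z := by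
  have hz0' := (hZ z hz).2
  have hg : z' * z⁻¹ ∈ CJ V Z := mul_inv_mem_CJ hz' hz
  unfold CJ at hx
  induction hx using Algebra.adjoin_induction with
  | mem x hx =>
    obtain ⟨v, hv, w, hw, rfl⟩ := hx
    rcases Set.mem_insert_iff.1 hw with h1 | h1
    · refine ⟨1, ?_⟩
      rw [h1, pow_one]
      have e : z' * z⁻¹ * (v * z'⁻¹) = v * z⁻¹ := by
        field_simp
      rw [e]
      exact mul_inv_mem_CJ hv hz
    · refine ⟨0, ?_⟩
      rw [pow_zero, one_mul]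
      exact mul_inv_mem_CJ hv h1
  | algebraMap c =>
    refine ⟨0, ?_⟩
    rw [pow_zero, one_mul]
    exact Subalgebra.algebraMap_mem _ c
  | add x y _ _ h1 h2 =>
    obtain ⟨t, ht⟩ := h1
    obtain ⟨u, hu⟩ := h2
    refine ⟨t + u, ?_⟩
    have e : (z' * z⁻¹) ^ (t + u) * (x + y) =
        (z' * z⁻¹) ^ u * ((z' * z⁻¹) ^ t * x) + (z' * z⁻¹) ^ t * ((z' * z⁻¹) ^ u * y) := by
      rw [pow_add]
      ring
    rw [e]
    exact Subalgebra.add_mem _ (Subalgebra.mul_mem _ (Subalgebra.pow_mem _ hg u) ht)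
      (Subalgebra.mul_mem _ (Subalgebra.pow_mem _ hg t) hu)
  | mul x y _ _ h1 h2 =>
    obtain ⟨t, ht⟩ := h1
    obtain ⟨u, hu⟩ := h2
    refine ⟨t + u, ?_⟩
    have e : (z' * z⁻¹) ^ (t + u) * (x * y) =
        ((z' * z⁻¹) ^ t * x) * ((z' * z⁻¹) ^ u * y) := by
      rw [pow_add]
      ring
    rw [e]
    exact Subalgebra.mul_mem _ ht hu

theorem CJ_fg (hV : V.FG) {Z : Set K} (hZ : Z.Finite) : (CJ V Z).FG := by
  classical
  obtain ⟨S, hS⟩ := hV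
  refine Subalgebra.fg_def.2 ⟨(fun q : K × K => q.1 * q.2⁻¹) '' ((S : Set K) ×ˢ Z),
    (S.finite_toSet.prod hZ).image _, ?_⟩
  refine le_antisymm (Algebra.adjoin_le ?_) (Algebra.adjoin_le ?_)
  · rintro x ⟨⟨s, z⟩, ⟨hs, hz⟩, rfl⟩
    refine mul_inv_mem_CJ ?_ hz
    rw [← hS]
    exact Submodule.subset_span hs
  · rintro x ⟨v, hv, z, hz, rfl⟩
    rw [← hS] at hv
    show v * z⁻¹ ∈ Algebra.adjoin k ((fun q : K × K => q.1 * q.2⁻¹) '' ((S : Set K) ×ˢ Z))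
    induction hv using Submodule.span_induction with
    | mem s hs => exact Algebra.subset_adjoin ⟨(s, z), ⟨hs, hz⟩, rfl⟩
    | zero =>
      rw [zero_mul]
      exact Subalgebra.zero_mem _
    | add a b _ _ h1 h2 =>
      rw [add_mul]
      exact Subalgebra.add_mem _ h1 h2
    | smul c a _ h1 =>
      rw [smul_mul_assoc]
      exact Subalgebra.smul_mem _ h1 c

/-- for a coherent family `F` -/
theorem QC.exists_pow_smul_mem {E : Type*} [AddCommGroup E] [Module k E] [Module K E]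
    [IsScalarTower k K E] {F : Subalgebra k K → Submodule k E} (hF : QC F) {Z : Set K}
    {z z' : K} (hz : z ∈ Z) (hZ : ∀ w ∈ Z, w ∈ V ∧ w ≠ 0) (hz' : z' ∈ V) (hz0 : z' ≠ 0)
    {v : E} (hv : v ∈ F (CJ V (insert z' Z))) : ∃ t : ℕ, (z' * z⁻¹) ^ t • v ∈ F (CJ V Z) := by
  have hg : z' * z⁻¹ ∈ CJ V Z := mul_inv_mem_CJ hz' hz
  have hg0 : z' * z⁻¹ ≠ 0 := mul_ne_zero hz0 (inv_ne_zero (hZ z hz).2)
  have h2 : ∀ s ∈ Submonoid.powers (z' * z⁻¹), s ∈ CJ V Z ∧ s ≠ 0 := by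
    rintro s ⟨t, rfl⟩
    exact ⟨Subalgebra.pow_mem _ hg t, pow_ne_zero t hg0⟩
  have h3 : ∀ x ∈ CJ V (insert z' Z), ∃ s ∈ Submonoid.powers (z' * z⁻¹), s * x ∈ CJ V Z := by
    intro x hx
    obtain ⟨t, ht⟩ := exists_pow_mul_mem_CJ hz hZ hz' hz0 hx
    exact ⟨(z' * z⁻¹) ^ t, ⟨t, rfl⟩, ht⟩
  obtain ⟨s, hs, h1⟩ := hF.loc (CJ V Z) (CJ V (insert z' Z)) (CJ_mono (Set.subset_insert _ _))
    (Submonoid.powers (z' * z⁻¹)) h2 h3 v hv
  obtain ⟨t, rfl⟩ := hs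
  exact ⟨t, h1⟩

theorem HJ1_den {Z : Set K} {z0 : K} (hz0 : z0 ∈ Z) (hZ : ∀ z ∈ Z, z ∈ V ∧ z ≠ 0) {x : K}
    (hx : x ∈ CJ V Z) :
    ∃ P ∈ CJ V {z0}, P ≠ 0 ∧ P⁻¹ ∈ CJ V Z ∧ P * x ∈ CJ V {z0} := by
  have h0 := (hZ z0 hz0).2
  unfold CJ at hx
  induction hx using Algebra.adjoin_induction with
  | mem x hx =>
    obtain ⟨v, hv, w, hw, rfl⟩ := hx
    have hw0 := (hZ w hw).2
    refine ⟨w * z0⁻¹, mul_inv_mem_CJ (hZ w hw).1 rfl, mul_ne_zero hw0 (inv_ne_zero h0), ?_, ?_⟩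
    · rw [mul_inv, inv_inv, mul_comm]
      exact mul_inv_mem_CJ (hZ z0 hz0).1 hw
    · have e : w * z0⁻¹ * (v * w⁻¹) = v * z0⁻¹ := by
        field_simp
      rw [e]
      exact mul_inv_mem_CJ hv rfl
  | algebraMap c =>
    refine ⟨1, Subalgebra.one_mem _, one_ne_zero, ?_, ?_⟩
    · rw [inv_one]
      exact Subalgebra.one_mem _
    · rw [one_mul]
      exact Subalgebra.algebraMap_mem _ c
  | add x y _ _ h1 h2 =>
    obtain ⟨P, hP, hP0, hPi, hPx⟩ := h1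
    obtain ⟨Q, hQ, hQ0, hQi, hQy⟩ := h2
    refine ⟨P * Q, Subalgebra.mul_mem _ hP hQ, mul_ne_zero hP0 hQ0, ?_, ?_⟩
    · rw [mul_inv]
      exact Subalgebra.mul_mem _ hPi hQi
    · have e : P * Q * (x + y) = Q * (P * x) + P * (Q * y) := by ring
      rw [e]
      exact Subalgebra.add_mem _ (Subalgebra.mul_mem _ hQ hPx) (Subalgebra.mul_mem _ hP hQy)
  | mul x y _ _ h1 h2 =>
    obtain ⟨P, hP, hP0, hPi, hPx⟩ := h1
    obtain ⟨Q, hQ, hQ0, hQi, hQy⟩ := h2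
    refine ⟨P * Q, Subalgebra.mul_mem _ hP hQ, mul_ne_zero hP0 hQ0, ?_, ?_⟩
    · rw [mul_inv]
      exact Subalgebra.mul_mem _ hPi hQi
    · have e : P * Q * (x * y) = (P * x) * (Q * y) := by ring
      rw [e]
      exact Subalgebra.mul_mem _ hPx hQy

theorem HJ1_isLoc {Z : Set K} {z0 : K} (hz0 : z0 ∈ Z) (hZ : ∀ z ∈ Z, z ∈ V ∧ z ≠ 0)
    (hl : IsLoc (CJ V Z) A) : IsLoc (CJ V {z0}) A := by
  refine ⟨(CJ_mono (Set.singleton_subset_iff.2 hz0)).trans hl.1, hl.2.1, fun x hx => ?_⟩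
  obtain ⟨r, hr, s, hs, hsA, rfl⟩ := hl.2.2 x hx
  obtain ⟨P, hP, hP0, hPi, hPr⟩ := HJ1_den hz0 hZ hr
  obtain ⟨Q, hQ, hQ0, hQi, hQs⟩ := HJ1_den hz0 hZ hs
  refine ⟨Q * (P * r), Subalgebra.mul_mem _ hQ hPr, P * (Q * s), Subalgebra.mul_mem _ hP hQs,
    ?_, ?_⟩
  · rw [mul_inv, mul_inv]
    exact A.mul_mem (hl.1 hPi) (A.mul_mem (hl.1 hQi) hsA)
  · rw [mul_inv, mul_inv]
    by_cases hs0 : s = 0
    · rw [hs0]
      simp
    · field_simp

theorem HJ1_isLoc_single {X : Set (Subalgebra k K)} (hX : IsCompleteNormal X) (h : IsPr V X)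
    (hA : A ∈ X) {z0 : K} (hun : Un V A z0) : IsLoc (CJ V {z0}) A := by
  have h1 : CJ V {z0} ≤ A := (CJ_le_iff (by
    intro w hw
    rw [Set.mem_singleton_iff.1 hw]
    exact ⟨hun.1, hun.2.1⟩)).2 (by
    intro w hw
    rw [Set.mem_singleton_iff.1 hw]
    exact hun)
  obtain ⟨A', hA', hd⟩ := exists_cen (CJ V {z0}) A h1 (hX.isLocalRing hA)
  have h2 : A' ∈ X := (h.mem A').2 ⟨z0, hun.1, hun.2.1, hA'⟩
  have h3 := hX.unique h2 hA (hX.isLocalRing hA) hd (Dom.refl A)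
  rw [h3] at hA'
  exact hA'

variable (hX : IsCompleteNormal X) (h : IsPr V X)

include h in
theorem IsPr.exists_un (hA : A ∈ X) : ∃ x, Un V A x := by
  obtain ⟨z, hz, hz0, hl⟩ := (h.mem A).1 hA
  refine ⟨z, (CJ_le_iff ?_).1 hl.1 z rfl⟩
  intro w hw
  rw [Set.mem_singleton_iff.1 hw]
  exact ⟨hz, hz0⟩

include hX h in
/-- Proof: if `A` is a localization of `CJ V {z}` then `A ∈ X` and `V / z ⊆ A`.  Conversely let
`V / z ⊆ A`, let `C = CJ V {z}` and `A'` the localization of `C` at the centre of `A`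
(`exists_cen`); `A' ∈ X`, and a valuation ring dominating `A` dominates `A'`, so `A = A'`.
For a general finite set `Z`: `CJ V Z ≤ A` and `A` is a localization of `CJ V {z}`, hence of the
larger algebra `CJ V Z` (`IsLoc.mid`); conversely if `A` is a localization of `CJ V Z`, it is a
localization of `CJ V {z}` because each element of `CJ V Z` is a quotient of elements of
`CJ V {z}`, the denominators being products of the elements `z' / z`, `z' ∈ Z`. -/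
theorem IsPr.isLoc_iff {Z : Set K} (hZf : Z.Finite) (hne : Z.Nonempty)
    (hZ : ∀ z ∈ Z, z ∈ V ∧ z ≠ 0) : IsLoc (CJ V Z) A ↔ A ∈ X ∧ ∀ z ∈ Z, Un V A z := by
  obtain ⟨z0, hz0⟩ := hne
  constructor
  · intro hl
    refine ⟨?_, (CJ_le_iff hZ).1 hl.1⟩
    exact (h.mem A).2 ⟨z0, (hZ z0 hz0).1, (hZ z0 hz0).2, HJ1_isLoc hz0 hZ hl⟩
  · rintro ⟨hA, hun⟩
    exact (HJ1_isLoc_single hX h hA (hun z0 hz0)).mid
      (CJ_mono (Set.singleton_subset_iff.2 hz0)) ((CJ_le_iff hZ).2 hun)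

include hX h in
theorem IsPr.isFractionRing {Z : Set K} (hZf : Z.Finite) (hne : Z.Nonempty)
    (hZ : ∀ z ∈ Z, z ∈ V ∧ z ≠ 0) : IsFractionRing (CJ V Z) K := by
  have h1 : IsLoc (CJ V Z) (⊤ : Subalgebra k K) :=
    (IsPr.isLoc_iff hX h hZf hne hZ).2 ⟨hX.top_mem, fun z hz =>
      ⟨(hZ z hz).1, (hZ z hz).2, fun _ _ => Algebra.mem_top⟩⟩
  refine IsLoc.isFractionRing_left (LocAlg_frac _ fun z => ?_) h1
  exact ⟨z, Algebra.mem_top, 1, Algebra.mem_top, one_ne_zero, by rw [div_one]⟩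

include hX h in
/-- Proof: `A` is a localization of `CJ (V ^ m) {z}`, `z ∈ V ^ m`, `z ≠ 0`, if and only if
`V ^ m / z ⊆ A` and `A ∈ X`: `exists_un_of_pow`, `CJ_pow`, and the arguments of `isLoc_iff`. -/
theorem IsPr.pow {m : ℕ} (hm : 1 ≤ m) : IsPr (V ^ m) X := by
  refine ⟨h.fg.pow m, fun A => ⟨fun hA => ?_, ?_⟩⟩
  · obtain ⟨x, hx⟩ := IsPr.exists_un h hA
    refine ⟨x ^ m, Submodule.pow_mem_pow V hx.1 m, pow_ne_zero m hx.2.1, ?_⟩
    have h1 := CJ_pow (V := V) (Z := {x}) (m := m) (by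
      intro w hw
      rw [Set.mem_singleton_iff.1 hw]
      exact ⟨hx.1, hx.2.1⟩) hm
    rw [Set.image_singleton] at h1
    rw [h1]
    exact HJ1_isLoc_single hX h hA hx
  · rintro ⟨z, hz, hz0, hl⟩
    have h1 : Un (V ^ m) A z := (CJ_le_iff (by
      intro w hw
      rw [Set.mem_singleton_iff.1 hw]
      exact ⟨hz, hz0⟩)).1 hl.1 z rfl
    obtain ⟨x, hx⟩ := exists_un_of_pow hl.2.1 hm h1
    have h2 : ∀ w ∈ ({x ^ m, z} : Set K), w ∈ V ^ m ∧ w ≠ 0 := by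
      intro w hw
      rcases hw with hw | hw
      · rw [hw]
        exact ⟨Submodule.pow_mem_pow V hx.1 m, pow_ne_zero m hx.2.1⟩
      · rw [Set.mem_singleton_iff.1 hw]
        exact ⟨hz, hz0⟩
    have h3 : IsLoc (CJ (V ^ m) {x ^ m, z}) A := by
      refine hl.mid (CJ_mono (by simp)) ((CJ_le_iff h2).2 ?_)
      intro w hw
      rcases hw with hw | hw
      · rw [hw]
        exact hx.pow m
      · rw [Set.mem_singleton_iff.1 hw]
        exact h1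
    have h4 := HJ1_isLoc (z0 := x ^ m) (by simp) h2 h3
    have h5 := CJ_pow (V := V) (Z := {x}) (m := m) (by
      intro w hw
      rw [Set.mem_singleton_iff.1 hw]
      exact ⟨hx.1, hx.2.1⟩) hm
    rw [Set.image_singleton] at h5
    rw [h5] at h4
    exact (h.mem A).2 ⟨x, hx.1, hx.2.1, h4⟩

include hX h in
/-- local-global principle on the chart `D(Z)` -/
theorem IsPr.mem_iff {E : Type*} [AddCommGroup E] [Module k E] [Module K E]
    [IsScalarTower k K E] {F : Subalgebra k K → Submodule k E} (hF : QC F) {Z : Set K}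
    (hZf : Z.Finite) (hne : Z.Nonempty) (hZ : ∀ z ∈ Z, z ∈ V ∧ z ≠ 0) {v : E} :
    v ∈ F (CJ V Z) ↔ ∀ A ∈ X, (∀ z ∈ Z, Un V A z) → v ∈ F A := by
  rw [hF.mem_iff]
  constructor
  · intro h1 A hA hun
    exact h1 A ((IsPr.isLoc_iff hX h hZf hne hZ).2 ⟨hA, hun⟩)
  · intro h1 A hl
    obtain ⟨hA, hun⟩ := (IsPr.isLoc_iff hX h hZf hne hZ).1 hl
    exact h1 A hA hun

include hX h in
/-- local-global principle on the chart `D(Z)` for `NS` -/
theorem IsPr.mem_NS_iff {E : Type*} [AddCommGroup E] [Module k E] [Module K E]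
    [IsScalarTower k K E] {F : Subalgebra k K → Submodule k E} (hF : QC F) {Z : Set K}
    (hZf : Z.Finite) (hne : Z.Nonempty) (hZ : ∀ z ∈ Z, z ∈ V ∧ z ≠ 0) {p : ℕ} {y : Fin p → K}
    {l : ℕ} {v : E} :
    v ∈ NS (F (CJ V Z)) y l ↔ ∀ A ∈ X, (∀ z ∈ Z, Un V A z) → v ∈ NS (F A) y l := by
  rw [hF.mem_NS_iff]
  constructor
  · intro h1 A hA hun
    exact h1 A ((IsPr.isLoc_iff hX h hZf hne hZ).2 ⟨hA, hun⟩)
  · intro h1 A hl
    obtain ⟨hA, hun⟩ := (IsPr.isLoc_iff hX h hZf hne hZ).1 hl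
    exact h1 A hA hun

end Flip28
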