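import Pool.Agent.FlipB_h28.HJ1
import Pool.Agent.FlipB_h28.HB1
import Pool.Agent.FlipB_h28.HH

/-! # Covers: partitions of unity, acyclicity of the standard families -/

open scoped KaehlerDifferential

universe u

namespace Flip28

variable {k K : Type u} [Field k] [Field K] [Algebra k K] {V : Submodule k K}
  {X : Set (Subalgebra k K)}

/-- avoiding finitely many proper subspaces -/
theorem exists_avoid [Infinite k] {E : Type*} [AddCommGroup E] [Module k E]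
    (J : Submodule k E) {𝒰 : Set (Submodule k E)} (hfin : 𝒰.Finite)
    (h : ∀ U ∈ 𝒰, ¬ J ≤ U) : ∃ z ∈ J, ∀ U ∈ 𝒰, z ∉ U := by
  classical
  have hs : (⊤ : Subspace k J) ∉
      (hfin.toFinset.image (fun U => U.comap J.subtype) : Finset (Subspace k J)) := by
    intro h1
    obtain ⟨U, hU, e⟩ := Finset.mem_image.1 h1
    apply h U (hfin.mem_toFinset.1 hU)
    intro x hx
    have h2 : (⟨x, hx⟩ : J) ∈ U.comap J.subtype := by
      rw [e]
      exact Submodule.mem_top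
    exact h2
  have h2 := Subspace.biUnion_ne_univ_of_top_notMem hs
  obtain ⟨⟨z, hz⟩, hz2⟩ := (Set.ne_univ_iff_exists_notMem _).1 h2
  refine ⟨z, hz, fun U hU hzU => hz2 ?_⟩
  simp only [Set.mem_iUnion]
  exact ⟨_, Finset.mem_image_of_mem _ (hfin.mem_toFinset.2 hU), hzU⟩

theorem HJ2_comb {C : Subalgebra k K} {ι : Type*} (I : Finset ι) (y : ι → C) (t : ℕ)
    (q : Ideal C) (h : ∀ m : Ideal C, m.IsMaximal → q ≤ m → ∃ i ∈ I, y i ∉ m) :
    ∃ a : ι → C, ∃ r ∈ q, ∑ i ∈ I, a i * y i ^ t + r = 1 := by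
  classical
  by_cases hJ : Ideal.span ((fun i => y i ^ t) '' (I : Set ι)) ⊔ q = ⊤
  · have h1 : (1 : C) ∈ Ideal.span ((fun i => y i ^ t) '' (I : Set ι)) ⊔ q := by
      rw [hJ]
      exact Submodule.mem_top
    obtain ⟨s, hs, r, hr, e⟩ := Submodule.mem_sup.1 h1
    obtain ⟨c, hc⟩ := (Submodule.mem_span_image_finset_iff_exists_fun C).1 hs
    refine ⟨fun i => if h : i ∈ I then c ⟨i, h⟩ else 0, r, hr, ?_⟩
    rw [← e, ← hc, ← Finset.sum_coe_sort I]
    congr 1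
    refine Finset.sum_congr rfl fun i _ => ?_
    beta_reduce
    rw [dif_pos i.2]
    rfl
  · exfalso
    obtain ⟨m, hm, hle⟩ := Ideal.exists_le_maximal _ hJ
    obtain ⟨i, hi, hyi⟩ := h m hm (le_sup_right.trans hle)
    apply hyi
    have h1 : y i ^ t ∈ m := by
      apply hle
      apply Ideal.mem_sup_left
      exact Ideal.subset_span ⟨i, hi, rfl⟩
    exact hm.isPrime.mem_of_pow_mem t h1

theorem HJ2_un_max {z w : K} (hw : w ∈ V) (hw0 : w ≠ 0) (h : IsPr V X) (m : Ideal (CJ V {w})) (hm : m.IsMaximal) :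
    ∃ A ∈ X, Un V A w ∧ (∀ x : CJ V {w}, (x : K)⁻¹ ∈ A → x ≠ 0 → x ∉ m) ∧
      IsLoc (CJ V {w}) A ∧
      (∀ hz : z ∈ V, Un V A z → (⟨z * w⁻¹, mul_inv_mem_CJ hz rfl⟩ : CJ V {w}) ∉ m) := by
  have := hm.isPrime
  obtain ⟨A, hA, hA1, -⟩ := exists_isLoc_of_prime (CJ V {w}) m
  have hUn : Un V A w := ⟨hw, hw0, fun v hv => hA.1 (mul_inv_mem_CJ hv rfl)⟩
  refine ⟨A, (h.mem A).2 ⟨w, hw, hw0, hA⟩, hUn, hA1, hA, fun hz hzU => ?_⟩
  obtain ⟨h1, h2⟩ := (un_iff hUn hz).1 hzU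
  apply hA1
  · exact h2
  · intro h3
    exact h1 (congrArg Subtype.val h3)

/-- Proof: otherwise the ideal of `CJ V {w}` generated by the `(z i / w) ^ t`, `i ∈ I`, is
contained in a maximal ideal; the localization `A` there is in `X` and `Un V A w`; some `z i`
generates `V` at `A`, so `z i / w` is a unit of `A`. -/
theorem exists_unit_comb (hX : IsCompleteNormal X) (h : IsPr V X) {ι : Type*} {I : Finset ι}
    {z : ι → K} (hz : ∀ i ∈ I, z i ∈ V) {w : K} (hw : w ∈ V) (hw0 : w ≠ 0)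
    (hcov : ∀ A ∈ X, Un V A w → ∃ i ∈ I, Un V A (z i)) (t : ℕ) :
    ∃ a : ι → K, (∀ i ∈ I, a i ∈ CJ V {w}) ∧ ∑ i ∈ I, a i * (z i * w⁻¹) ^ t = 1 := by
  classical
  obtain ⟨a, r, hr, e⟩ := HJ2_comb (C := CJ V {w}) I
    (fun i => if hi : i ∈ I then ⟨z i * w⁻¹, mul_inv_mem_CJ (hz i hi) rfl⟩ else 0) t ⊥ (by
      intro m hm _
      obtain ⟨A, hA, hUn, hA1, hA2, hA3⟩ := HJ2_un_max (z := w) hw hw0 h m hm
      obtain ⟨i, hi, hUi⟩ := hcov A hA hUn
      refine ⟨i, hi, ?_⟩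
      rw [dif_pos hi]
      obtain ⟨h1, h2⟩ := (un_iff hUn (hz i hi)).1 hUi
      apply hA1
      · exact h2
      · intro h3
        exact h1 (congrArg Subtype.val h3))
  refine ⟨fun i => (a i : K), fun i _ => (a i).2, ?_⟩
  have hr0 : r = 0 := hr
  rw [hr0, add_zero] at e
  have e2 := congrArg (fun x : CJ V {w} => (x : K)) e
  beta_reduce at e2
  rw [AddSubmonoidClass.coe_finsetSum] at e2
  rw [← (show ((1 : CJ V {w}) : K) = 1 from rfl), ← e2]
  refine Finset.sum_congr rfl fun i hi => ?_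
  rw [dif_pos hi]
  rfl

/-- The same on the closure of the point `P` with residue map `π : P → κ`.  Proof: otherwise the
ideal of `CJ V {w}` generated by the `(z i / w) ^ t`, `i ∈ I`, and by the elements which are not
units of `P` (a prime ideal `𝔭`, the kernel of `π`) is contained in a maximal ideal; the
localization `A` there is in `X`, `A ≤ P` (`P` is the localization of `A` at `𝔭`), `Un V A w`. -/
theorem exists_unit_comb_res (hX : IsCompleteNormal X) (h : IsPr V X) {P : Subalgebra k K}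
    (hP : P ∈ X) {κ : Type u} [Field κ] [Algebra k κ] (π : P →ₐ[k] κ)
    (hker : ∀ a : P, π a = 0 ↔ (a : K) = 0 ∨ (a : K)⁻¹ ∉ P)
    {ι : Type*} {I : Finset ι} {z : ι → K} (hz : ∀ i ∈ I, Un V P (z i)) {w : K}
    (hw : Un V P w) (hcov : ∀ A ∈ X, A ≤ P → Un V A w → ∃ i ∈ I, Un V A (z i))
    {y : ι → P} (hy : ∀ i ∈ I, (y i : K) = z i * w⁻¹) (t : ℕ) :
    ∃ a : ι → κ, (∀ i ∈ I, a i ∈ IM π (CJ V {w})) ∧ ∑ i ∈ I, a i * (π (y i)) ^ t = 1 := by
  classical
  have hCP : CJ V {w} ≤ P := by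
    rw [CJ_le_iff (by rintro _ rfl; exact ⟨hw.1, hw.2.1⟩)]
    rintro _ rfl
    exact hw
  obtain ⟨a, r, hr, e⟩ := HJ2_comb (C := CJ V {w}) I
    (fun i => if hi : i ∈ I then ⟨z i * w⁻¹, mul_inv_mem_CJ (hz i hi).1 rfl⟩ else 0) t
    (RingHom.ker (π.comp (Subalgebra.inclusion hCP))) (by
      intro m hm hle
      obtain ⟨A, hA, hUn, hA1, hA2, hA3⟩ := HJ2_un_max (z := w) hw.1 hw.2.1 h m hm
      have hAP : A ≤ P := by
        intro x hx
        obtain ⟨b, hb, s, hs, hsA, rfl⟩ := hA2.2.2 x hx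
        by_cases hs0 : s = 0
        · rw [hs0, inv_zero, mul_zero]
          exact P.zero_mem
        · have h1 : (⟨s, hs⟩ : CJ V {w}) ∉ m := by
            apply hA1
            · exact hsA
            · intro h3
              exact hs0 (congrArg Subtype.val h3)
          have h2 : (⟨s, hs⟩ : CJ V {w}) ∉ RingHom.ker (π.comp (Subalgebra.inclusion hCP)) :=
            fun h3 => h1 (hle h3)
          have h4 : ¬ π (⟨s, hCP hs⟩ : P) = 0 := by
            intro h5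
            exact h2 h5
          rw [hker] at h4
          push Not at h4
          exact P.mul_mem (hCP hb) h4.2
      obtain ⟨i, hi, hUi⟩ := hcov A hA hAP hUn
      refine ⟨i, hi, ?_⟩
      rw [dif_pos hi]
      obtain ⟨h1, h2⟩ := (un_iff hUn (hz i hi).1).1 hUi
      apply hA1
      · exact h2
      · intro h3
        exact h1 (congrArg Subtype.val h3))
  refine ⟨fun i => π (Subalgebra.inclusion hCP (a i)), fun i _ => ?_, ?_⟩
  · exact ⟨Subalgebra.inclusion hCP (a i), (a i).2, rfl⟩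
  · have e2 := congrArg (fun x : CJ V {w} => π (Subalgebra.inclusion hCP x)) e
    beta_reduce at e2
    have hr0 : π (Subalgebra.inclusion hCP r) = 0 := hr
    rw [map_add, map_add, hr0, add_zero, map_one, map_one, map_sum, map_sum] at e2
    rw [← e2]
    refine Finset.sum_congr rfl fun i hi => ?_
    rw [dif_pos hi, map_mul, map_mul, map_pow, map_pow]
    congr 3
    apply Subtype.ext
    rw [hy i hi]
    rfl

variable {ι : Type*} [LinearOrder ι] {p : ℕ}

/-- Proof: `acy_of_cover` with `C = CJ V {z z0}`, `g i = z i / z z0`, `exists_unit_comb` and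
`QC.exists_pow_smul_mem`. -/
theorem acy_QC (hX : IsCompleteNormal X) (h : IsPr V X) {E : Type*} [AddCommGroup E]
    [Module k E] [Module K E] [IsScalarTower k K E] {F : Subalgebra k K → Submodule k E}
    (hF : QC F) {z : ι → K} {I : Finset ι} {z0 : ι} (hz0 : z z0 ∈ V ∧ z z0 ≠ 0)
    (hz : ∀ i ∈ I, z i ∈ V ∧ z i ≠ 0)
    (hcov : ∀ A ∈ X, Un V A (z z0) → ∃ i ∈ I, Un V A (z i)) :
    Acy (fun J : Finset ι => F (CJ V (z '' (insert z0 J : Finset ι)))) I := by
  classical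
  have hins : ∀ J : Finset ι, z z0 ∈ z '' ((insert z0 J : Finset ι) : Set ι) := fun J =>
    ⟨z0, by simp, rfl⟩
  have hle : ∀ J : Finset ι, CJ V {z z0} ≤ CJ V (z '' ((insert z0 J : Finset ι) : Set ι)) :=
    fun J => CJ_mono (Set.singleton_subset_iff.2 (hins J))
  have hZ : ∀ J ⊆ I, ∀ w ∈ z '' ((insert z0 J : Finset ι) : Set ι), w ∈ V ∧ w ≠ 0 := by
    rintro J hJ _ ⟨i, hi, rfl⟩
    rcases Finset.mem_insert.1 (Finset.mem_coe.1 hi) with rfl | hi
    · exact hz0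
    · exact hz i (hJ hi)
  refine acy_of_cover (CJ V {z z0}) _ I (fun i => z i * (z z0)⁻¹) ?_ ?_ ?_ ?_
  · intro i hi
    exact mul_inv_mem_CJ (hz i hi).1 rfl
  · intro J _ a ha v hv
    exact hF.stable _ a (hle J ha) v hv
  · intro i hi J hJ v hv
    have h1 : z '' ((insert z0 (insert i J) : Finset ι) : Set ι) =
        insert (z i) (z '' ((insert z0 J : Finset ι) : Set ι)) := by
      rw [Finset.insert_comm, Finset.coe_insert, Set.image_insert_eq]
    rw [h1] at hv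
    exact hF.exists_pow_smul_mem (hins J) (hZ J hJ) (hz i hi).1 (hz i hi).2 hv
  · intro t
    exact exists_unit_comb hX h (fun i hi => (hz i hi).1) hz0.1 hz0.2 hcov t

theorem HJ2_NS {E : Type*} [AddCommGroup E] [Module k E] [Module K E]
    [IsScalarTower k K E] {F : Subalgebra k K → Submodule k E} (hF : QC F) {Z : Set K}
    {z z' : K} (hz : z ∈ Z) (hZ : ∀ w ∈ Z, w ∈ V ∧ w ≠ 0) (hz' : z' ∈ V) (hz0 : z' ≠ 0)
    {p : ℕ} {y : Fin p → K} {l : ℕ}
    {v : E} (hv : v ∈ NS (F (CJ V (insert z' Z))) y l) :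
    ∀ᶠ t : ℕ in Filter.atTop, (z' * z⁻¹) ^ t • v ∈ NS (F (CJ V Z)) y l := by
  obtain ⟨w, hw, e⟩ := hv
  have hg : z' * z⁻¹ ∈ CJ V Z := mul_inv_mem_CJ hz' hz
  have h1 : ∀ a : Fin p, ∀ᶠ t : ℕ in Filter.atTop, (z' * z⁻¹) ^ t • w a ∈ F (CJ V Z) := by
    intro a
    obtain ⟨t, ht⟩ := hF.exists_pow_smul_mem hz hZ hz' hz0 (hw a)
    filter_upwards [Filter.eventually_ge_atTop t] with s hs
    obtain ⟨d, rfl⟩ := Nat.exists_eq_add_of_le hs
    rw [pow_add, mul_comm, mul_smul]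
    exact hF.stable _ _ ((CJ V Z).pow_mem hg d) _ ht
  filter_upwards [Filter.eventually_all.2 h1] with t ht
  refine ⟨fun a => (z' * z⁻¹) ^ t • w a, ht, ?_⟩
  rw [e, Finset.smul_sum]
  refine Finset.sum_congr rfl fun a _ => ?_
  rw [smul_comm]

/-- the same for the family `TT` -/
theorem acy_TT (hX : IsCompleteNormal X) (h : IsPr V X) {hh : Fin p → K}
    {l : ℕ} {z : ι → K} {I : Finset ι} {z0 : ι} (hz0 : z z0 ∈ V ∧ z z0 ≠ 0)
    (hz : ∀ i ∈ I, z i ∈ V ∧ z i ≠ 0) (hcov : ∀ A ∈ X, Un V A (z z0) → ∃ i ∈ I, Un V A (z i)) :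
    Acy (fun J : Finset ι => TT V hh l (z '' (insert z0 J : Finset ι))) I := by
  classical
  have hins : ∀ J : Finset ι, z z0 ∈ z '' ((insert z0 J : Finset ι) : Set ι) := fun J =>
    ⟨z0, by simp, rfl⟩
  have hle : ∀ J : Finset ι, CJ V {z z0} ≤ CJ V (z '' ((insert z0 J : Finset ι) : Set ι)) :=
    fun J => CJ_mono (Set.singleton_subset_iff.2 (hins J))
  have hZ : ∀ J ⊆ I, ∀ w ∈ z '' ((insert z0 J : Finset ι) : Set ι), w ∈ V ∧ w ≠ 0 := by
    rintro J hJ _ ⟨i, hi, rfl⟩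
    rcases Finset.mem_insert.1 (Finset.mem_coe.1 hi) with rfl | hi
    · exact hz0
    · exact hz i (hJ hi)
  refine acy_of_cover (CJ V {z z0}) _ I (fun i => z i * (z z0)⁻¹) ?_ ?_ ?_ ?_
  · intro i hi
    exact mul_inv_mem_CJ (hz i hi).1 rfl
  · intro J _ a ha v hv x hx
    rw [smul_comm]
    exact NS_stable (C := CJ V (z '' ((insert z0 J : Finset ι) : Set ι)))
      (QC_FC.stable _) _ l a (hle J ha) _ (hv x hx)
  · intro i hi J hJ v hv
    have h1 : z '' ((insert z0 (insert i J) : Finset ι) : Set ι) =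
        insert (z i) (z '' ((insert z0 J : Finset ι) : Set ι)) := by
      rw [Finset.insert_comm, Finset.coe_insert, Set.image_insert_eq]
    rw [h1] at hv
    have h2 : ∀ x ∈ z '' ((insert z0 J : Finset ι) : Set ι), ∀ᶠ t : ℕ in Filter.atTop,
        (z i * (z z0)⁻¹) ^ t • (prl hh x l • v) ∈
          NS (FC p (CJ V (z '' ((insert z0 J : Finset ι) : Set ι)))) (fun a => hh a * x⁻¹) l := by
      intro x hx
      exact HJ2_NS QC_FC (hins J) (hZ J hJ) (hz i hi).1 (hz i hi).2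
        (hv x (Set.mem_insert_of_mem _ hx))
    have hfin : (z '' ((insert z0 J : Finset ι) : Set ι)).Finite :=
      (Finset.finite_toSet _).image z
    obtain ⟨t, ht⟩ := ((Filter.eventually_all_finite hfin).2 h2).exists
    refine ⟨t, fun x hx => ?_⟩
    rw [smul_comm]
    exact ht x hx
  · intro t
    exact exists_unit_comb hX h (fun i hi => (hz i hi).1) hz0.1 hz0.2 hcov t

theorem HJ2_WC {κ : Type u} [Field κ] [Algebra k κ] {p : ℕ}
    (bk : Module.Basis (Fin p) κ Ω[κ⁄k]) : ∃ φ : EE k κ p →ₗ[κ] κ,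
      ∀ C : Subalgebra k κ, WC bk C = (FC p C).map (φ.restrictScalars k) := by
  have h1 : ∀ a : Fin p → κ, (exteriorPower.alternatingMapLinearEquiv bk.det :
      (⋀[κ]^p Ω[κ⁄k]) →ₗ[κ] κ) (exteriorPower.ιMulti κ p
        (fun i => KaehlerDifferential.D k κ (a i))) = jac bk a := by
    intro a
    rw [exteriorPower.alternatingMapLinearEquiv_apply_ιMulti]
    rfl
  obtain ⟨φ, h2⟩ : ∃ φ : EE k κ p →ₗ[κ] κ, ∀ a : Fin p → κ, φ (wf a) = jac bk a :=
    ⟨(exteriorPower.alternatingMapLinearEquiv bk.det : (⋀[κ]^p Ω[κ⁄k]) →ₗ[κ] κ), h1⟩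
  refine ⟨φ, ?_⟩
  intro C
  unfold WC FC
  rw [Submodule.map_span]
  congr 1
  ext v
  constructor
  · rintro ⟨c, hc, a, ha, rfl⟩
    refine ⟨c • wf a, ⟨c, hc, a, ha, rfl⟩, ?_⟩
    rw [LinearMap.restrictScalars_apply, map_smul, h2, smul_eq_mul]
  · rintro ⟨_, ⟨c, hc, a, ha, rfl⟩, rfl⟩
    refine ⟨c, hc, a, ha, ?_⟩
    rw [LinearMap.restrictScalars_apply, map_smul, h2, smul_eq_mul]

/-- the same on the closure of the point `P` -/
theorem acy_WC (hX : IsCompleteNormal X) (h : IsPr V X) {P : Subalgebra k K}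
    (hP : P ∈ X) {κ : Type u} [Field κ] [Algebra k κ] (π : P →ₐ[k] κ)
    (hker : ∀ a : P, π a = 0 ↔ (a : K) = 0 ∨ (a : K)⁻¹ ∉ P)
    (bk : Module.Basis (Fin p) κ Ω[κ⁄k]) {z : ι → K} {I : Finset ι} {z0 : ι}
    (hz0 : Un V P (z z0)) (hz : ∀ i ∈ I, Un V P (z i))
    (hcov : ∀ A ∈ X, A ≤ P → Un V A (z z0) → ∃ i ∈ I, Un V A (z i)) :
    Acy (fun J : Finset ι => WC bk (IM π (CJ V (z '' (insert z0 J : Finset ι))))) I := by
  classical
  have hins : ∀ J : Finset ι, z z0 ∈ z '' ((insert z0 J : Finset ι) : Set ι) := fun J =>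
    ⟨z0, by simp, rfl⟩
  have hle : ∀ J : Finset ι, CJ V {z z0} ≤ CJ V (z '' ((insert z0 J : Finset ι) : Set ι)) :=
    fun J => CJ_mono (Set.singleton_subset_iff.2 (hins J))
  have hUn : ∀ J ⊆ I, ∀ w ∈ z '' ((insert z0 J : Finset ι) : Set ι), Un V P w := by
    rintro J hJ _ ⟨i, hi, rfl⟩
    rcases Finset.mem_insert.1 (Finset.mem_coe.1 hi) with rfl | hi
    · exact hz0
    · exact hz i (hJ hi)
  have hZ : ∀ J ⊆ I, ∀ w ∈ z '' ((insert z0 J : Finset ι) : Set ι), w ∈ V ∧ w ≠ 0 :=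
    fun J hJ w hw => ⟨(hUn J hJ w hw).1, (hUn J hJ w hw).2.1⟩
  have hIM : ∀ C C' : Subalgebra k K, C ≤ C' → IM π C ≤ IM π C' := by
    rintro C C' hCC _ ⟨x, hx, rfl⟩
    exact ⟨x, hCC hx, rfl⟩
  obtain ⟨φ, hφ⟩ := HJ2_WC bk
  obtain ⟨y, hy⟩ : ∃ y : ι → P, ∀ i ∈ I, (y i : K) = z i * (z z0)⁻¹ := by
    refine ⟨fun i => if hi : i ∈ I then ⟨z i * (z z0)⁻¹, hz0.2.2 _ (hz i hi).1⟩ else 0, ?_⟩
    intro i hi
    beta_reduce
    rw [dif_pos hi]
  refine acy_of_cover (IM π (CJ V {z z0})) _ I (fun i => π (y i)) ?_ ?_ ?_ ?_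
  · intro i hi
    refine ⟨y i, ?_, rfl⟩
    show (y i : K) ∈ CJ V {z z0}
    rw [hy i hi]
    exact mul_inv_mem_CJ (hz i hi).1 rfl
  · intro J _ a ha v hv
    rw [hφ] at hv ⊢
    obtain ⟨u, hu, rfl⟩ := hv
    refine ⟨a • u, (QC_FC (k := k) (K := κ) (p := p)).stable _ a (hIM _ _ (hle J) ha) u hu, ?_⟩
    rw [LinearMap.restrictScalars_apply, LinearMap.restrictScalars_apply, map_smul]
  · intro i hi J hJ v hv
    have h1 : z '' ((insert z0 (insert i J) : Finset ι) : Set ι) =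
        insert (z i) (z '' ((insert z0 J : Finset ι) : Set ι)) := by
      rw [Finset.insert_comm, Finset.coe_insert, Set.image_insert_eq]
    rw [h1, hφ] at hv
    rw [hφ]
    obtain ⟨u, hu, rfl⟩ := hv
    have hyi : (y i : K) ∈ CJ V (z '' ((insert z0 J : Finset ι) : Set ι)) := by
      rw [hy i hi]
      exact mul_inv_mem_CJ (hz i hi).1 (hins J)
    have hπ : π (y i) ≠ 0 := by
      intro h0
      rw [hker, hy i hi] at h0
      rcases h0 with h0 | h0
      · exact (mul_ne_zero (hz i hi).2.1 (inv_ne_zero hz0.2.1)) h0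
      · apply h0
        rw [mul_inv, inv_inv, mul_comm]
        exact (hz i hi).2.2 _ hz0.1
    obtain ⟨s, hs, hsu⟩ := (QC_FC (k := k) (K := κ) (p := p)).loc
      (IM π (CJ V (z '' ((insert z0 J : Finset ι) : Set ι))))
      (IM π (CJ V (insert (z i) (z '' ((insert z0 J : Finset ι) : Set ι)))))
      (hIM _ _ (CJ_mono (Set.subset_insert _ _))) (Submonoid.powers (π (y i))) (by
        rintro _ ⟨t, rfl⟩
        refine ⟨?_, pow_ne_zero t hπ⟩
        refine ⟨(y i) ^ t, ?_, map_pow π _ _⟩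
        show ((y i ^ t : P) : K) ∈ CJ V _
        rw [SubmonoidClass.coe_pow]
        exact Subalgebra.pow_mem _ hyi t) (by
        rintro _ ⟨x, hx, rfl⟩
        have hx' : (x : K) ∈ CJ V (insert (z i) (z '' ((insert z0 J : Finset ι) : Set ι))) := hx
        obtain ⟨t, ht⟩ := exists_pow_mul_mem_CJ (hins J) (hZ J hJ) (hz i hi).1 (hz i hi).2.1 hx'
        refine ⟨π (y i) ^ t, ⟨t, rfl⟩, ?_⟩
        refine ⟨(y i) ^ t * x, ?_, ?_⟩
        · show (((y i ^ t * x : P)) : K) ∈ CJ V _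
          rw [MulMemClass.coe_mul, SubmonoidClass.coe_pow, hy i hi]
          exact ht
        · show π (y i ^ t * x) = π (y i) ^ t * π x
          rw [map_mul, map_pow]) u hu
    obtain ⟨t, rfl⟩ := hs
    refine ⟨t, ⟨π (y i) ^ t • u, hsu, ?_⟩⟩
    rw [LinearMap.restrictScalars_apply, LinearMap.restrictScalars_apply, map_smul]
  · intro t
    exact exists_unit_comb_res hX h hP π hker hz hz0 hcov hy t

end Flip28
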