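import Pool.Agent.FlipB_h28.HJ1
import Pool.Agent.Flip_h28.OpenPts

/-! # Open subsets of models -/

open scoped KaehlerDifferential

universe u

namespace Flip28

variable {k K : Type u} [Field k] [Field K] [Algebra k K] {X X' : Set (Subalgebra k K)}

theorem HK_inv_mem {R B : Subalgebra k K} (hRB : R ≤ B) {r s : K} (hs : s ∈ R) (hs0 : s ≠ 0)
    (h : (r * s)⁻¹ ∈ B) : r⁻¹ ∈ B := by
  have e : r⁻¹ = s * (r * s)⁻¹ := by
    rw [mul_inv]
    field_simp
  rw [e]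
  exact B.mul_mem (hRB hs) h

theorem HK_inv_mem' {R B : Subalgebra k K} (hRB : R ≤ B) {r s : K} (hr : r ∈ R) (hr0 : r ≠ 0)
    (h : (r * s)⁻¹ ∈ B) : s⁻¹ ∈ B := by
  rw [mul_comm] at h
  exact HK_inv_mem hRB hr hr0 h

theorem Opn.inter {U U' : Set (Subalgebra k K)} (h : Opn X U) (h' : Opn X U') :
    Opn X (U ∩ U') := by
  intro R hR hK hRX A hA hAU
  obtain ⟨r, hr, hr0, hrA, hall⟩ := h R hR hK hRX A hA hAU.1
  obtain ⟨s, hs, hs0, hsA, hall'⟩ := h' R hR hK hRX A hA hAU.2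
  refine ⟨r * s, R.mul_mem hr hs, mul_ne_zero hr0 hs0, ?_, fun B hB hrB => ⟨?_, ?_⟩⟩
  · rw [mul_inv]
    exact A.mul_mem hrA hsA
  · exact hall B hB (HK_inv_mem hB.1 hs hs0 hrB)
  · exact hall' B hB (HK_inv_mem' hB.1 hr hr0 hrB)

theorem Opn.union {U U' : Set (Subalgebra k K)} (h : Opn X U) (h' : Opn X U') :
    Opn X (U ∪ U') := by
  intro R hR hK hRX A hA hAU
  rcases hAU with hAU | hAU
  · obtain ⟨r, hr, hr0, hrA, hall⟩ := h R hR hK hRX A hA hAU
    exact ⟨r, hr, hr0, hrA, fun B hB hrB => Or.inl (hall B hB hrB)⟩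
  · obtain ⟨r, hr, hr0, hrA, hall⟩ := h' R hR hK hRX A hA hAU
    exact ⟨r, hr, hr0, hrA, fun B hB hrB => Or.inr (hall B hB hrB)⟩

/-- `OpenPts_aux_open` -/
theorem opn_model (hX' : IsCompleteNormal X') : Opn X X' :=
  fun _ hR _ _ _ hA hAX => OpenPts_aux_open hR hA hX' hAX

/-- Proof: `V` is finitely generated; if `v / z = r / s` for the generators `v` of `V`, with
`r, s ∈ R` and `s` a unit of `A`, take the product of the `s`. -/
theorem opn_un {V : Submodule k K} (hV : V.FG) (z : K) : Opn X {A | Un V A z} := by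
  intro R hR hK hRX A hA hun
  obtain ⟨S, hS⟩ := hV
  have hSV : ∀ t ∈ (S : Set K), t ∈ V := fun t ht => by
    rw [← hS]
    exact Submodule.subset_span ht
  obtain ⟨d, hd, hd0, hdA, hdT⟩ := Finite_aux_denom hA z S.finite_toSet
    (fun t ht => hun.2.2 t (hSV t ht))
  refine ⟨d, hd, hd0, hdA, fun B hB hdB => ⟨hun.1, hun.2.1, fun v hv => ?_⟩⟩
  rw [← hS] at hv
  induction hv using Submodule.span_induction with
  | mem t ht =>
    have e : t * z⁻¹ = (d * (t * z⁻¹)) * d⁻¹ := by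
      field_simp
    rw [e]
    exact B.mul_mem (hB.1 (hdT t ht)) hdB
  | zero =>
    rw [zero_mul]
    exact B.zero_mem
  | add a b _ _ h1 h2 =>
    rw [add_mul]
    exact B.add_mem h1 h2
  | smul c a _ h1 =>
    rw [smul_mul_assoc]
    exact B.smul_mem h1 c

/-- Proof: if `a ∈ A \ P`, `a = r / s`, then `a ∈ B` for all localizations `B` of `R` containing
`s⁻¹`. -/
theorem opn_not_le (P : Subalgebra k K) : Opn X {A | ¬ A ≤ P} := by
  intro R hR hK hRX A hA hAP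
  have hAP' : ¬ A ≤ P := hAP
  rw [SetLike.not_le_iff_exists] at hAP'
  obtain ⟨a, ha, haP⟩ := hAP'
  obtain ⟨r, hr, s, hs, hsA, e⟩ := hA.2.2 a ha
  have hs0 : s ≠ 0 := by
    rintro rfl
    rw [inv_zero, mul_zero] at e
    rw [e] at haP
    exact haP P.zero_mem
  refine ⟨s, hs, hs0, hsA, fun B hB hsB hBP => haP ?_⟩
  rw [e]
  exact hBP (B.mul_mem (hB.1 hr) hsB)

theorem HK_smooth_iff {R A : Subalgebra k K} (hA : IsLoc R A) :
    ∃ (p : Ideal R) (hp : p.IsPrime), (∀ x : R, x ∈ p ↔ x = 0 ∨ (x : K)⁻¹ ∉ A) ∧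
      ((⟨p, hp⟩ : PrimeSpectrum R) ∈ Algebra.smoothLocus k R ↔ Algebra.FormallySmooth k A) := by
  let := (Subalgebra.inclusion hA.1).toRingHom.toAlgebra
  obtain ⟨p, hp, hpm, hl⟩ := hA.isLocalization
  have : IsScalarTower k R A := IsScalarTower.of_algebraMap_eq fun _ => rfl
  refine ⟨p, hp, hpm, ?_⟩
  show Algebra.FormallySmooth k (Localization.AtPrime p) ↔ _
  exact Algebra.FormallySmooth.iff_of_equiv
    ((IsLocalization.algEquiv p.primeCompl (Localization.AtPrime p) A).restrictScalars k)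

/-- Proof: `R` is of finite type over `k`; the smooth locus of a finitely presented algebra is
open (`Algebra.isOpen_smoothLocus` or similar), and for a localization `B` of `R` at a prime `𝔮`,
`B` is formally smooth over `k` if and only if `𝔮` is in the smooth locus. -/
theorem opn_smooth : Opn X {A | Algebra.FormallySmooth k A} := by
  intro R hR hK hRX A hA hsm
  have : Algebra.FiniteType k R := R.fg_iff_finiteType.1 hR
  have : Algebra.FinitePresentation k R := Algebra.FinitePresentation.of_finiteType.1 this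
  have hsm' : Algebra.FormallySmooth k A := hsm
  obtain ⟨p, hp, hpm, hpA⟩ := HK_smooth_iff hA
  have hmem : (⟨p, hp⟩ : PrimeSpectrum R) ∈ Algebra.smoothLocus k R := hpA.2 hsm'
  obtain ⟨_, ⟨_, ⟨r, rfl⟩, rfl⟩, hpU, hUs⟩ := PrimeSpectrum.isBasis_basic_opens.exists_subset_of_mem_open
    hmem Algebra.isOpen_smoothLocus
  have hrp : r ∉ p := hpU
  have hr1 : ¬ (r = 0 ∨ (r : K)⁻¹ ∉ A) := fun h => hrp ((hpm r).2 h)
  push Not at hr1
  refine ⟨r, r.2, fun h => hr1.1 (Subtype.ext h), hr1.2, fun B hB hrB => ?_⟩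
  obtain ⟨q, hq, hqm, hqB⟩ := HK_smooth_iff hB
  refine hqB.1 (hUs ?_)
  show r ∉ q
  intro hrq
  rcases (hqm r).1 hrq with h | h
  · exact hr1.1 h
  · exact h hrB

/-- The localization at a prime ideal. -/
theorem HK_loc (R : Subalgebra k K) (q : Ideal R) (hq : q.IsPrime) :
    ∃ B, IsLoc R B ∧ Finite_aux_pr R B = (q : Set R) := by
  obtain ⟨B, hB, hB1, hB2⟩ := exists_isLoc_of_prime R q
  refine ⟨B, hB, ?_⟩
  ext x
  constructor
  · rintro (h | h)
    · rw [h]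
      exact q.zero_mem
    · by_contra hx
      exact h (hB2 x hx)
  · intro hx
    by_cases hx0 : x = 0
    · exact Or.inl hx0
    · right
      intro hxB
      exact hB1 x hxB hx0 hx

theorem HK_chart {R : Subalgebra k K} (hR : R.FG) (hK : IsFractionRing R K)
    (hRX : ∀ B, IsLoc R B → B ∈ X) {U : Set (Subalgebra k K)} (h : Opn X U) :
    ∃ 𝒯 : Set (Subalgebra k K), 𝒯.Finite ∧ 𝒯 ⊆ X ∧ (∀ A ∈ 𝒯, A ∉ U) ∧
      ∀ A, IsLoc R A → A ∉ U → ∃ B ∈ 𝒯, A ≤ B := by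
  have : IsNoetherianRing R := by
    have : Algebra.FiniteType k R := R.fg_iff_finiteType.1 hR
    exact Algebra.FiniteType.isNoetherianRing k R
  obtain ⟨J, hJ⟩ : ∃ J : Ideal R,
      J = Ideal.span {r : R | r ≠ 0 ∧ ∀ B, IsLoc R B → (r : K)⁻¹ ∈ B → B ∈ U} := ⟨_, rfl⟩
  have hfin : (J.minimalPrimes).Finite := J.finite_minimalPrimes_of_isNoetherianRing
  -- the criterion
  have hcrit : ∀ B, IsLoc R B → ∀ q : Ideal R, Finite_aux_pr R B = (q : Set R) →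
      (B ∉ U ↔ J ≤ q) := by
    intro B hB q hq
    constructor
    · intro hBU
      rw [hJ, Ideal.span_le]
      rintro r ⟨hr0, hr⟩
      by_contra hrq
      rw [← hq] at hrq
      have hrq' : ¬ (r = 0 ∨ (r : K)⁻¹ ∉ B) := hrq
      push Not at hrq'
      exact hBU (hr B hB hrq'.2)
    · intro hJq hBU
      obtain ⟨r, hr, hr0, hrB, hall⟩ := h R hR hK hRX B hB hBU
      have h1 : (⟨r, hr⟩ : R) ∈ J := by
        rw [hJ]
        exact Ideal.subset_span ⟨fun h => hr0 (congrArg Subtype.val h), hall⟩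
      have h2 : (⟨r, hr⟩ : R) ∈ (q : Set R) := hJq h1
      rw [← hq] at h2
      rcases h2 with h2 | h2
      · exact hr0 (congrArg Subtype.val h2)
      · exact h2 hrB
  refine ⟨{B | IsLoc R B ∧ ∃ q ∈ J.minimalPrimes, Finite_aux_pr R B = (q : Set R)},
    ?_, fun B hB => hRX B hB.1, ?_, ?_⟩
  · refine Set.Finite.of_finite_image (f := Finite_aux_pr R)
      ((hfin.image (fun q : Ideal R => (q : Set R))).subset ?_)
      ((Finite_aux_inj R).mono (fun A hA => hA.1))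
    rintro _ ⟨A, ⟨hA, q, hq, hAq⟩, rfl⟩
    exact ⟨q, hq, hAq.symm⟩
  · rintro B ⟨hB, q, hq, hBq⟩
    exact (hcrit B hB q hBq).2 hq.1.2
  · intro A hA hAU
    obtain ⟨p, hp, hpm, -⟩ := hA.isLocalization
    have hpA : Finite_aux_pr R A = (p : Set R) := by
      ext x
      exact (hpm x).symm
    have hJp := (hcrit A hA p hpA).1 hAU
    obtain ⟨q, hq, hqp⟩ := Ideal.exists_minimalPrimes_le hJp
    obtain ⟨B, hB, hBq⟩ := HK_loc R q hq.1.1
    refine ⟨B, ⟨hB, q, hq, hBq⟩, Finite_aux_le hA hB ?_⟩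
    rw [hBq, hpA]
    exact hqp

/-- The minimal points of a closed set.  Proof: in each of the finitely many charts `R` of `X` the
points not in `U` are the primes containing the ideal generated by the `r` with
`B ∈ U` for all localizations `B` of `R` with `r⁻¹ ∈ B`; take the minimal primes. -/
theorem Opn.exists_generic (hX : IsCompleteNormal X) {U : Set (Subalgebra k K)} (h : Opn X U) :
    ∃ 𝒯 : Set (Subalgebra k K), 𝒯.Finite ∧ 𝒯 ⊆ X ∧ (∀ A ∈ 𝒯, A ∉ U) ∧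
      ∀ A ∈ X, A ∉ U → ∃ B ∈ 𝒯, A ≤ B := by
  obtain ⟨C, hC, hC2, hX2⟩ := hX.charts
  have hch : ∀ R ∈ C, ∃ 𝒯 : Set (Subalgebra k K), 𝒯.Finite ∧ 𝒯 ⊆ X ∧ (∀ A ∈ 𝒯, A ∉ U) ∧
      ∀ A, IsLoc R A → A ∉ U → ∃ B ∈ 𝒯, A ≤ B := fun R hR =>
    HK_chart (hC2 R hR).1 (hC2 R hR).2 (fun B hB => (hX2 B).2 ⟨R, hR, hB⟩) h
  choose! T hT using hch
  refine ⟨⋃ R ∈ C, T R, hC.biUnion fun R hR => (hT R hR).1, ?_, ?_, ?_⟩
  · intro A hA
    obtain ⟨R, hR, hAR⟩ := Set.mem_iUnion₂.1 hA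
    exact (hT R hR).2.1 hAR
  · intro A hA
    obtain ⟨R, hR, hAR⟩ := Set.mem_iUnion₂.1 hA
    exact (hT R hR).2.2.1 A hAR
  · intro A hA hAU
    obtain ⟨R, hR, hRA⟩ := (hX2 A).1 hA
    obtain ⟨B, hB, hAB⟩ := (hT R hR).2.2.2 A hRA hAU
    exact ⟨B, Set.mem_iUnion₂.2 ⟨R, hR, hB⟩, hAB⟩

/-- the converse: if `T` is a union of finitely many closures of points, it is closed -/
theorem opn_of_generic {U : Set (Subalgebra k K)} {𝒯 : Set (Subalgebra k K)} (hfin : 𝒯.Finite)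
    (h : ∀ A ∈ X, (A ∉ U ↔ ∃ B ∈ 𝒯, A ≤ B)) : Opn X U := by
  have h1 : Opn X {A | ∀ B ∈ 𝒯, ¬ A ≤ B} := by
    refine Set.Finite.induction_on
      (motive := fun (s : Set (Subalgebra k K)) _ => Opn X {A | ∀ B ∈ s, ¬ A ≤ B}) _ hfin ?_ ?_
    · intro R hR hK hRX A hA _
      exact ⟨1, R.one_mem, one_ne_zero, by rw [inv_one]; exact A.one_mem,
        fun B _ _ P hP => absurd hP (Set.notMem_empty P)⟩
    · intro P s _ _ ih
      have h2 : {A : Subalgebra k K | ∀ B ∈ insert P s, ¬ A ≤ B} =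
          {A | ¬ A ≤ P} ∩ {A | ∀ B ∈ s, ¬ A ≤ B} := by
        ext A
        simp only [Set.mem_insert_iff, forall_eq_or_imp, Set.mem_ofPred_eq, Set.mem_inter_iff]
      rw [h2]
      exact (opn_not_le P).inter ih
  intro R hR hK hRX A hA hAU
  have h3 : A ∈ {A | ∀ B ∈ 𝒯, ¬ A ≤ B} := by
    intro B hB hAB
    exact (h A (hRX A hA)).2 ⟨B, hB, hAB⟩ hAU
  obtain ⟨r, hr, hr0, hrA, hall⟩ := h1 R hR hK hRX A hA h3
  refine ⟨r, hr, hr0, hrA, fun B hB hrB => ?_⟩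
  by_contra hBU
  obtain ⟨P, hP, hBP⟩ := (h B (hRX B hB)).1 hBU
  exact hall B hB hrB P hP hBP

theorem HK_qc {R : Subalgebra k K} (hR : R.FG) (hK : IsFractionRing R K)
    (hRX : ∀ B, IsLoc R B → B ∈ X) {U : Set (Subalgebra k K)} {σ : Type*}
    {W : σ → Set (Subalgebra k K)} (hW : ∀ i, Opn X (W i))
    (hWU : ∀ A ∈ X, A ∈ U → ∃ i, A ∈ W i) :
    ∃ S : Finset σ, ∀ A, IsLoc R A → A ∈ U → ∃ i ∈ S, A ∈ W i := by
  classical
  have : IsNoetherianRing R := by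
    have : Algebra.FiniteType k R := R.fg_iff_finiteType.1 hR
    exact Algebra.FiniteType.isNoetherianRing k R
  obtain ⟨G, hG⟩ : ∃ G : Set R, G = {r : R | r ≠ 0 ∧ ∃ i, ∀ B, IsLoc R B → (r : K)⁻¹ ∈ B →
      B ∈ W i} := ⟨_, rfl⟩
  have hfg : (Ideal.span G).FG := IsNoetherian.noetherian _
  obtain ⟨T, hTG, hTs⟩ := (Submodule.fg_span_iff_fg_span_finset_subset G).1 hfg
  have hTi : ∀ t ∈ T, ∃ i, ∀ B, IsLoc R B → (t : K)⁻¹ ∈ B → B ∈ W i := by
    intro t ht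
    have h1 : t ∈ G := hTG ht
    rw [hG] at h1
    exact h1.2
  choose f hf using hTi
  refine ⟨T.attach.image (fun t : {x // x ∈ T} => f t.1 t.2), fun A hA hAU => ?_⟩
  obtain ⟨i, hi⟩ := hWU A (hRX A hA) hAU
  obtain ⟨r, hr, hr0, hrA, hall⟩ := hW i R hR hK hRX A hA hi
  obtain ⟨p, hp, hpm, -⟩ := hA.isLocalization
  have h2 : (⟨r, hr⟩ : R) ∉ p := by
    intro h3
    rcases (hpm _).1 h3 with h4 | h4
    · exact hr0 (congrArg Subtype.val h4)
    · exact h4 hrA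
  have h3 : ∃ t ∈ T, t ∉ p := by
    by_contra hcon
    push Not at hcon
    apply h2
    have h4 : Ideal.span G ≤ p := by
      show Submodule.span R G ≤ p
      rw [hTs, Submodule.span_le]
      exact hcon
    refine h4 (Ideal.subset_span ?_)
    rw [hG]
    exact ⟨fun h5 => hr0 (congrArg Subtype.val h5), i, hall⟩
  obtain ⟨t, ht, htp⟩ := h3
  have h4 : ¬ (t = 0 ∨ (t : K)⁻¹ ∉ A) := fun h => htp ((hpm t).2 h)
  push Not at h4
  exact ⟨f t ht, Finset.mem_image.2 ⟨⟨t, ht⟩, Finset.mem_attach _ _, rfl⟩, hf t ht A hA h4.2⟩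

/-- quasi-compactness: if the open sets `U i` cover the open set `U`, finitely many of them do.
Proof: charts are noetherian. -/
theorem Opn.quasi_compact (hX : IsCompleteNormal X) {U : Set (Subalgebra k K)} {σ : Type*}
    {W : σ → Set (Subalgebra k K)} (hW : ∀ i, Opn X (W i)) (hWU : ∀ A ∈ X, A ∈ U → ∃ i, A ∈ W i)
    (hU : Opn X U) : ∃ S : Finset σ, ∀ A ∈ X, A ∈ U → ∃ i ∈ S, A ∈ W i := by
  classical
  obtain ⟨C, hC, hC2, hX2⟩ := hX.charts
  have hch : ∀ R ∈ C, ∃ S : Finset σ, ∀ A, IsLoc R A → A ∈ U → ∃ i ∈ S, A ∈ W i := fun R hR =>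
    HK_qc (hC2 R hR).1 (hC2 R hR).2 (fun B hB => (hX2 B).2 ⟨R, hR, hB⟩) hW hWU
  choose! T hT using hch
  refine ⟨hC.toFinset.biUnion T, fun A hA hAU => ?_⟩
  obtain ⟨R, hR, hRA⟩ := (hX2 A).1 hA
  obtain ⟨i, hi, hAi⟩ := hT R hR A hRA hAU
  exact ⟨i, Finset.mem_biUnion.2 ⟨R, hC.mem_toFinset.2 hR, hi⟩, hAi⟩

end Flip28
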