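import Pool.Agent.FlipB_h28.HJ1
import Pool.Agent.FlipB_h28.HH
import Pool.Agent.Flip_h28.DegD

/-! # Projections of closed subvarieties; pairs of valuation rings -/

open scoped KaehlerDifferential

universe u

namespace Flip28

variable {k K : Type u} [Field k] [Field K] [Algebra k K] {V : Submodule k K}
  {X : Set (Subalgebra k K)}

/-- the maximal ideal of a valuation ring -/
def HL_M (W : Subalgebra k K) (m : K) : Prop := m = 0 ∨ m⁻¹ ∉ W

theorem HL_M_mem {W : Subalgebra k K} (hW : IsVal W) {m : K} (h : HL_M W m) : m ∈ W := by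
  rcases h with rfl | h
  · exact W.zero_mem
  · exact (hW m).resolve_right h

theorem HL_M_mul {W : Subalgebra k K} {x m : K} (hx : x ∈ W) (h : HL_M W m) :
    HL_M W (x * m) := by
  by_cases h0 : x * m = 0
  · exact Or.inl h0
  · right
    intro h1
    rcases h with rfl | h
    · exact h0 (mul_zero x)
    · apply h
      have hx0 : x ≠ 0 := left_ne_zero_of_mul h0
      have hm0 : m ≠ 0 := right_ne_zero_of_mul h0
      have e : m⁻¹ = x * (x * m)⁻¹ := by
        field_simp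
      rw [e]
      exact W.mul_mem hx h1

theorem HL_M_add {W : Subalgebra k K} (hW : IsVal W) {m m' : K} (h : HL_M W m)
    (h' : HL_M W m') : HL_M W (m + m') := by
  by_cases h0 : m' = 0
  · rw [h0, add_zero]
    exact h
  by_cases h00 : m = 0
  · rw [h00, zero_add]
    exact h'
  rcases hW (m * m'⁻¹) with h1 | h1
  · have e : m + m' = (m * m'⁻¹ + 1) * m' := by
      field_simp
    rw [e]
    exact HL_M_mul (W.add_mem h1 W.one_mem) h'
  · have e : m + m' = (1 + (m * m'⁻¹)⁻¹) * m := by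
      field_simp
    rw [e]
    exact HL_M_mul (W.add_mem W.one_mem h1) h

theorem HL_M_neg {W : Subalgebra k K} {m : K} (h : HL_M W m) : HL_M W (-m) := by
  have h1 := HL_M_mul (W.neg_mem W.one_mem) h
  rwa [neg_one_mul] at h1

theorem HL_not_M {W : Subalgebra k K} {m : K} : ¬ HL_M W m ↔ m ≠ 0 ∧ m⁻¹ ∈ W := by
  unfold HL_M
  rw [not_or, not_not]

/-- the subalgebra `A + m` -/
def HL_A (A W : Subalgebra k K) (hW : IsVal W) (h : A ≤ W) : Subalgebra k K where
  carrier := {x | ∃ a ∈ A, ∃ m, HL_M W m ∧ x = a + m}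
  mul_mem' := by
    rintro _ _ ⟨a, ha, m, hm, rfl⟩ ⟨a', ha', m', hm', rfl⟩
    refine ⟨a * a', A.mul_mem ha ha', a * m' + (a' * m + m * m'), ?_, by ring⟩
    exact HL_M_add hW (HL_M_mul (h ha) hm') (HL_M_add hW (HL_M_mul (h ha') hm)
      (HL_M_mul (HL_M_mem hW hm) hm'))
  add_mem' := by
    rintro _ _ ⟨a, ha, m, hm, rfl⟩ ⟨a', ha', m', hm', rfl⟩
    exact ⟨a + a', A.add_mem ha ha', m + m', HL_M_add hW hm hm', by ring⟩
  algebraMap_mem' := fun c => ⟨algebraMap k K c, A.algebraMap_mem c, 0, Or.inl rfl, by simp⟩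

theorem HL_mem_A {A W : Subalgebra k K} {hW : IsVal W} {h : A ≤ W} {x : K} :
    x ∈ HL_A A W hW h ↔ ∃ a ∈ A, ∃ m, HL_M W m ∧ x = a + m := Iff.rfl

theorem HL_unit {A W : Subalgebra k K} (hW : IsVal W) (h : A ≤ W) {a m : K} (h0 : a ≠ 0)
    (h1 : a⁻¹ ∈ A) (hm : HL_M W m) : a + m ≠ 0 ∧ (a + m)⁻¹ ∈ HL_A A W hW h := by
  have h2 : ¬ HL_M W (a + m) := by
    intro h3
    have h4 := HL_M_add hW h3 (HL_M_neg hm)
    rw [add_neg_cancel_right] at h4
    exact HL_not_M.2 ⟨h0, h h1⟩ h4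
  obtain ⟨h3, h4⟩ := HL_not_M.1 h2
  refine ⟨h3, HL_mem_A.2 ⟨a⁻¹, h1, (-(a⁻¹ * (a + m)⁻¹)) * m, ?_, ?_⟩⟩
  · exact HL_M_mul (W.neg_mem (W.mul_mem (h h1) h4)) hm
  · field_simp
    ring

theorem HL_local {A W : Subalgebra k K} (hA : IsLocalRing A) (hW : IsVal W) (h : A ≤ W) :
    IsLocalRing (HL_A A W hW h) := by
  refine Loc_aux_local _ fun x hx => ?_
  obtain ⟨a, ha, m, hm, rfl⟩ := HL_mem_A.1 hx
  rcases Loc_aux_unit hA ha with ⟨h1, h2⟩ | ⟨h1, h2⟩
  · exact Or.inl (HL_unit hW h h1 h2 hm)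
  · right
    have e : 1 - (a + m) = (1 - a) + -m := by ring
    rw [e]
    exact HL_unit hW h h1 h2 (HL_M_neg hm)

/-- Composite valuations.  Proof: let `W1` be a valuation ring of `K/k` dominating `ξ`
(`exists_val_dom`), `κ` its residue field; the image of `A` in `κ` is a local ring
(`A ≤ ξ ≤ W1`), let `w` be a valuation ring of `κ` dominating it, and `W` its inverse image in
`W1`. -/
theorem exists_val_pair {A ξ : Subalgebra k K} (hA : IsLocalRing A) (hξ : IsLocalRing ξ)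
    (h : A ≤ ξ) : ∃ W W1 : Subalgebra k K, IsVal W ∧ IsVal W1 ∧ W ≤ W1 ∧ Dom A W ∧ Dom ξ W1 := by
  obtain ⟨W1, hW1, hd1⟩ := exists_val_dom ξ hξ
  have hAW : A ≤ W1 := h.trans hd1.1
  obtain ⟨W, hW, hd⟩ := exists_val_dom _ (HL_local hA hW1 hAW)
  have hAA : A ≤ HL_A A W1 hW1 hAW := fun x hx =>
    HL_mem_A.2 ⟨x, hx, 0, Or.inl rfl, (add_zero x).symm⟩
  refine ⟨W, W1, hW, hW1, ?_, ⟨hAA.trans hd.1, ?_⟩, hd1⟩
  · intro x hx
    by_contra hx1
    have hx0 : x ≠ 0 := by
      rintro rfl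
      exact hx1 W1.zero_mem
    have h1 : HL_M W1 x⁻¹ := Or.inr (by rwa [inv_inv])
    have h2 : x⁻¹ ∈ HL_A A W1 hW1 hAW :=
      HL_mem_A.2 ⟨0, A.zero_mem, x⁻¹, h1, (zero_add _).symm⟩
    have h3 := hd.2 x⁻¹ h2 (by rwa [inv_inv])
    rw [inv_inv] at h3
    obtain ⟨a, ha, m, hm, e⟩ := HL_mem_A.1 h3
    apply hx1
    rw [e]
    exact W1.add_mem (hAW ha) (HL_M_mem hW1 hm)
  · intro x hx hxW
    by_cases hx0 : x = 0
    · rw [hx0, inv_zero]
      exact A.zero_mem
    obtain ⟨a, ha, m, hm, e⟩ := HL_mem_A.1 (hd.2 x (hAA hx) hxW)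
    have e1 : 1 - x * a = x * m := by
      have h1 : x * x⁻¹ = 1 := mul_inv_cancel₀ hx0
      rw [e] at h1
      rw [← h1]
      ring
    rcases Loc_aux_unit hA (A.mul_mem hx ha) with ⟨h1, h2⟩ | ⟨h1, h2⟩
    · have ha0 : a ≠ 0 := right_ne_zero_of_mul h1
      have e2 : x⁻¹ = a * (x * a)⁻¹ := by
        field_simp
      rw [e2]
      exact A.mul_mem ha h2
    · exfalso
      rw [e1] at h1 h2
      exact HL_not_M.2 ⟨h1, hAW h2⟩ (HL_M_mul (hAW hx) hm)

/-- an element in all valuation rings containing `B` is integral over `B` -/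
theorem HL_integral {k F : Type*} [Field k] [Field F] [Algebra k F] (B : Subalgebra k F) {x : F}
    (h : ∀ U : Subalgebra k F, IsVal U → B ≤ U → x ∈ U) : IsIntegral B x := by
  have h1 : x ∈ ⨅ U : {U : ValuationSubring F // (B : Set F) ⊆ U.toSubring}, U.1.toSubring := by
    rw [Subring.mem_iInf]
    rintro ⟨U, hU⟩
    exact h { U.toSubring with
      algebraMap_mem' := fun c => hU (B.algebraMap_mem c) } (fun x => U.mem_or_inv_mem x)
      (fun x hx => hU hx)
  rw [iInf_valuationSubring_superset] at h1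
  have h2 : IsIntegral (Subring.closure (B : Set F)) x := h1
  have h3 : Subring.closure (B : Set F) = B.toSubring := by
    rw [← Subalgebra.coe_toSubring]
    exact Subring.closure_eq _
  rw [h3] at h2
  exact h2

/-- valuation rings are integrally closed -/
theorem HL_val_int {k F : Type*} [Field k] [Field F] [Algebra k F] {U : Subalgebra k F}
    (hU : IsVal U) {x : F} (h : IsIntegral U x) : x ∈ U := by
  let VU : ValuationSubring F := { U.toSubring with mem_or_inv_mem' := hU }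
  have h1 : IsIntegrallyClosedIn VU.toSubring F := inferInstanceAs (IsIntegrallyClosedIn VU F)
  have h2 : IsIntegral VU.toSubring x := h
  exact (Subring.isIntegrallyClosedIn_iff).mp h1 h2

/-- Projection from sections without common zeros.  Proof: an element of a field extension of `k`
is integral over a subalgebra `B` if it belongs to all valuation rings containing `B`.
Let `w` be a valuation ring of `κ` containing the `π (z j / z i)`, `j ∈ I`.  Let `W1` be a valuation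
ring of `K` dominating `P`, with residue field `κ1 ⊇ κ`, and let `w1` be a valuation ring of `κ1`
with `w1 ∩ κ = w` (or dominating `w`), `W ⊆ W1` the composite.  Let `A` be the centre of `W` on `X`; then
`A ≤ P`.  Some `z j` generates `V` at `A`, and `z j / z i ∈ W` (its image in `κ1` is in
`w1`), so for `v ∈ V` we have `v / z i = (v / z j) (z j / z i) ∈ W`; hence `CJ V {z i} ≤ W` and
`π x ∈ w` for `x ∈ CJ V {z i}`. -/
theorem integral_of_cover (hX : IsCompleteNormal X) (h : IsPr V X) {P : Subalgebra k K}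
    (hP : P ∈ X) {κ : Type u} [Field κ] [Algebra k κ] (π : P →ₐ[k] κ)
    (hsurj : Function.Surjective π) (hker : ∀ a : P, π a = 0 ↔ (a : K) = 0 ∨ (a : K)⁻¹ ∉ P)
    {ι : Type*} {I : Finset ι} {z : ι → K} (hz : ∀ i ∈ I, Un V P (z i))
    (hcov : ∀ A ∈ X, A ≤ P → ∃ i ∈ I, Un V A (z i)) {i : ι} (hi : i ∈ I) {x : κ}
    (hx : x ∈ IM π (CJ V {z i})) :
    IsIntegral (Algebra.adjoin k {y | ∃ j ∈ I, ∃ w : P, (w : K) = z j * (z i)⁻¹ ∧ y = π w}) x := by
  have _ := h
  have _ := hsurj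
  refine HL_integral _ fun w hw hBw => ?_
  -- the inverse image of `w`
  have hPloc := hX.isLocalRing hP
  have hcomap : ∀ a : K, a ∈ (w.comap π).map P.val ↔ ∃ h : a ∈ P, π ⟨a, h⟩ ∈ w := by
    intro a
    rw [Subalgebra.mem_map]
    constructor
    · rintro ⟨b, hb, rfl⟩
      exact ⟨b.2, hb⟩
    · rintro ⟨h, ha⟩
      exact ⟨⟨a, h⟩, ha, rfl⟩
  set A' : Subalgebra k K := (w.comap π).map P.val with hA'
  have hA'P : A' ≤ P := fun a ha => ((hcomap a).1 ha).1
  -- units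
  have hpi : ∀ (a : K) (ha : a ∈ P), π ⟨a, ha⟩ ≠ 0 →
      ∃ h : a⁻¹ ∈ P, a ≠ 0 ∧ π ⟨a⁻¹, h⟩ = (π ⟨a, ha⟩)⁻¹ := by
    intro a ha hne
    have h1 := (hker ⟨a, ha⟩).not.1 hne
    rw [not_or, not_not] at h1
    refine ⟨h1.2, h1.1, ?_⟩
    refine eq_inv_of_mul_eq_one_left ?_
    rw [← map_mul, ← map_one π]
    congr 1
    apply Subtype.ext
    exact inv_mul_cancel₀ h1.1
  have hunit : ∀ (a : K) (ha : a ∈ P), π ⟨a, ha⟩ ≠ 0 → (π ⟨a, ha⟩)⁻¹ ∈ w →
      a ≠ 0 ∧ a⁻¹ ∈ A' := by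
    intro a ha hne hinv
    obtain ⟨h1, h2, h3⟩ := hpi a ha hne
    exact ⟨h2, (hcomap _).2 ⟨h1, by rw [h3]; exact hinv⟩⟩
  have hA'loc : IsLocalRing A' := by
    refine Loc_aux_local _ fun a ha => ?_
    obtain ⟨haP, haw⟩ := (hcomap a).1 ha
    by_cases h0 : π ⟨a, haP⟩ ≠ 0 ∧ (π ⟨a, haP⟩)⁻¹ ∈ w
    · exact Or.inl (hunit a haP h0.1 h0.2)
    · right
      have h1 : (1 : K) - a ∈ P := P.sub_mem P.one_mem haP
      have h2 : π ⟨1 - a, h1⟩ = 1 - π ⟨a, haP⟩ := by
        rw [← map_one π, ← map_sub]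
        rfl
      have h3 : HL_M w (π ⟨a, haP⟩) := by
        by_contra hcon
        exact h0 (HL_not_M.1 hcon)
      have h4 : ¬ HL_M w (1 - π ⟨a, haP⟩) := by
        intro h5
        have h6 := HL_M_add hw h5 h3
        rw [sub_add_cancel] at h6
        exact HL_not_M.2 ⟨one_ne_zero, by rw [inv_one]; exact w.one_mem⟩ h6
      obtain ⟨h5, h6⟩ := HL_not_M.1 h4
      rw [← h2] at h5 h6
      exact hunit _ h1 h5 h6
  obtain ⟨W, W1, hW, hW1, hWW, hd, hd1⟩ := exists_val_pair hA'loc hPloc hA'P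
  obtain ⟨A, hA, hdA⟩ := hX.exists_centre hW
  have hW1loc : IsLocalRing W1 := by
    refine Loc_aux_local _ fun a ha => ?_
    by_cases h0 : a ≠ 0 ∧ a⁻¹ ∈ W1
    · exact Or.inl h0
    · right
      have h3 : HL_M W1 a := by
        by_contra hcon
        exact h0 (HL_not_M.1 hcon)
      have h4 : ¬ HL_M W1 (1 - a) := by
        intro h5
        have h6 := HL_M_add hW1 h5 h3
        rw [sub_add_cancel] at h6
        exact HL_not_M.2 ⟨one_ne_zero, by rw [inv_one]; exact W1.one_mem⟩ h6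
      exact HL_not_M.1 h4
  have hAP : A ≤ P := (hX.isLoc_centre hA hP hW1loc (hdA.1.trans hWW) hd1).1
  obtain ⟨j, hj, hzj⟩ := hcov A hA hAP
  have hzi := hz i hi
  have hzjV : z j ∈ V := (hz j hj).1
  have hzj0 : z j ≠ 0 := (hz j hj).2.1
  have hzi0 : z i ≠ 0 := hzi.2.1
  have hq : z j * (z i)⁻¹ ∈ P := hzi.2.2 _ hzjV
  have hqA' : z j * (z i)⁻¹ ∈ A' :=
    (hcomap _).2 ⟨hq, hBw (Algebra.subset_adjoin ⟨j, hj, ⟨_, hq⟩, rfl, rfl⟩)⟩
  have hCW : CJ V {z i} ≤ W := by
    unfold CJ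
    refine Algebra.adjoin_le ?_
    rintro _ ⟨v, hv, y, hy, rfl⟩
    rw [Set.mem_singleton_iff.1 hy]
    have e : v * (z i)⁻¹ = (v * (z j)⁻¹) * (z j * (z i)⁻¹) := by
      field_simp
    rw [e]
    exact W.mul_mem (hdA.1 (hzj.2.2 v hv)) (hd.1 hqA')
  -- the element
  unfold IM at hx
  rw [Subalgebra.mem_map] at hx
  obtain ⟨a, ha, rfl⟩ := hx
  have haC : (a : K) ∈ CJ V {z i} := ha
  have haW : (a : K) ∈ W := hCW haC
  by_contra hcon
  have hne : π a ≠ 0 := by
    intro h0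
    exact hcon (by
      change π a ∈ w → False at hcon
      rw [h0] at hcon
      exact absurd w.zero_mem hcon)
  have hinv : (π a)⁻¹ ∈ w := (hw (π a)).resolve_left hcon
  obtain ⟨h0, h1⟩ := hunit (a : K) a.2 hne hinv
  have h2 := hd.2 _ h1 (by rw [inv_inv]; exact haW)
  rw [inv_inv] at h2
  obtain ⟨h3, h4⟩ := (hcomap _).1 h2
  exact hcon h4

/-- `p` sections always have a common zero on a closed subvariety of dimension `≥ p`.  Proof: if
not, let `I` be the set of the indices `i` such that `s i` generates `V` at `P` (the other ones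
generate at no `A ≤ P`); it is not empty (take `A = P`), let `i ∈ I`.  By `integral_of_cover`
`κ`, the fraction field of `IM π (CJ V {s i})`, is algebraic over the field generated by the `p - 1`
elements `π (s j / s i)`, `j ≠ i`. -/
theorem exists_common_zero (hX : IsCompleteNormal X) (h : IsPr V X) {P : Subalgebra k K}
    (hP : P ∈ X) {κ : Type u} [Field κ] [Algebra k κ] (π : P →ₐ[k] κ)
    (hsurj : Function.Surjective π) (hker : ∀ a : P, π a = 0 ↔ (a : K) = 0 ∨ (a : K)⁻¹ ∉ P)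
    {p : ℕ} (hp : (p : Cardinal) ≤ Algebra.trdeg k κ) (s : Fin p → K) :
    ∃ A ∈ X, A ≤ P ∧ ∀ l, ¬ Un V A (s l) := by
  classical
  by_contra hcon
  have hcov0 : ∀ A ∈ X, A ≤ P → ∃ l, Un V A (s l) := by
    intro A hA hAP
    by_contra h1
    push Not at h1
    exact hcon ⟨A, hA, hAP, h1⟩
  set I : Finset (Fin p) := Finset.univ.filter (fun l => Un V P (s l)) with hI
  have hmemI : ∀ l, l ∈ I ↔ Un V P (s l) := fun l => by
    rw [hI, Finset.mem_filter]
    exact ⟨fun h => h.2, fun h => ⟨Finset.mem_univ _, h⟩⟩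
  obtain ⟨i, hi⟩ := hcov0 P hP le_rfl
  have hiI : i ∈ I := (hmemI i).2 hi
  have hcov : ∀ A ∈ X, A ≤ P → ∃ l ∈ I, Un V A (s l) := by
    intro A hA hAP
    obtain ⟨l, hl⟩ := hcov0 A hA hAP
    exact ⟨l, (hmemI l).2 (hl.mono hAP), hl⟩
  have hp0 : 0 < p := lt_of_le_of_lt (Nat.zero_le _) i.2
  -- the generators
  let q : Fin p → κ := fun j => if hj : s j * (s i)⁻¹ ∈ P then π ⟨_, hj⟩ else 0
  set T : Finset κ := (Finset.univ.erase i).image q with hT
  have hle : Algebra.adjoin k {y | ∃ j ∈ I, ∃ w : P, (w : K) = s j * (s i)⁻¹ ∧ y = π w} ≤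
      Algebra.adjoin k (T : Set κ) := by
    refine Algebra.adjoin_le ?_
    rintro _ ⟨j, hj, w, hw, rfl⟩
    by_cases hji : j = i
    · have hw1 : w = 1 := by
        apply Subtype.ext
        rw [hw, hji]
        exact mul_inv_cancel₀ hi.2.1
      rw [hw1, map_one]
      exact Subalgebra.one_mem _
    · refine Algebra.subset_adjoin ?_
      rw [hT, Finset.coe_image]
      refine ⟨j, by simp [hji], ?_⟩
      have hjP : s j * (s i)⁻¹ ∈ P := hw ▸ w.2
      show (if hj : s j * (s i)⁻¹ ∈ P then π ⟨_, hj⟩ else 0) = π w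
      rw [dif_pos hjP]
      congr 1
      exact Subtype.ext hw.symm
  have halg : ∀ x ∈ IM π (CJ V {s i}), IsAlgebraic (Algebra.adjoin k (T : Set κ)) x := by
    intro x hx
    have h1 := integral_of_cover hX h hP π hsurj hker (z := s) (fun l hl => (hmemI l).1 hl) hcov
      hiI hx
    refine DegD_alg _ fun U hU hTU => ?_
    obtain ⟨f, hf, hfx⟩ := h1
    -- integral elements are in the valuation rings
    have h2 : IsIntegral U x := by
      refine ⟨f.map (Subalgebra.inclusion (hle.trans hTU)).toRingHom, hf.map _, ?_⟩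
      rw [Polynomial.eval₂_map]
      exact hfx
    exact HL_val_int hU h2
  have hPC : IsLoc (CJ V {s i}) P := by
    refine (h.isLoc_iff hX (Set.finite_singleton _) (Set.singleton_nonempty _) ?_).2 ⟨hP, ?_⟩
    · intro z hz
      rw [Set.mem_singleton_iff.1 hz]
      exact ⟨hi.1, hi.2.1⟩
    · intro z hz
      rw [Set.mem_singleton_iff.1 hz]
      exact hi
  have hall : Algebra.IsAlgebraic (Algebra.adjoin k (T : Set κ)) κ := by
    refine ⟨fun y => ?_⟩
    obtain ⟨a, rfl⟩ := hsurj y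
    obtain ⟨r, hr, t, ht, htP, e⟩ := hPC.2.2 a a.2
    have hIM : ∀ c (hc : c ∈ CJ V {s i}), π ⟨c, hPC.1 hc⟩ ∈ IM π (CJ V {s i}) := by
      intro c hc
      unfold IM
      rw [Subalgebra.mem_map]
      exact ⟨⟨c, hPC.1 hc⟩, hc, rfl⟩
    by_cases ht0 : t = 0
    · have : a = 0 := by
        apply Subtype.ext
        rw [e, ht0, inv_zero, mul_zero]
        rfl
      rw [this, map_zero]
      exact isAlgebraic_zero
    have h1 : π a * π ⟨t, hPC.1 ht⟩ = π ⟨r, hPC.1 hr⟩ := by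
      rw [← map_mul]
      congr 1
      apply Subtype.ext
      show (a : K) * t = r
      rw [e, inv_mul_cancel_right₀ ht0]
    have h2 : π ⟨t, hPC.1 ht⟩ ≠ 0 := by
      intro h0
      rcases (hker _).1 h0 with h3 | h3
      · exact ht0 h3
      · exact h3 htP
    have h4 : π a = π ⟨r, hPC.1 hr⟩ * (π ⟨t, hPC.1 ht⟩)⁻¹ := by
      rw [← h1, mul_inv_cancel_right₀ h2]
    rw [h4]
    exact (halg _ (hIM r hr)).mul (halg _ (hIM t ht)).inv
  have h1 := Algebra.IsAlgebraic.trdeg_le_cardinalMk k (T : Set κ)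
  have h2 : Cardinal.mk (T : Set κ) ≤ ((p - 1 : ℕ) : Cardinal) := by
    rw [Finset.coe_sort_coe, Cardinal.mk_coe_finset, Nat.cast_le]
    refine Finset.card_image_le.trans ?_
    rw [Finset.card_erase_of_mem (Finset.mem_univ _), Finset.card_univ, Fintype.card_fin]
  have h3 : p ≤ p - 1 := by exact_mod_cast hp.trans (h1.trans h2)
  omega

end Flip28
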