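import Pool.Agent.FlipB_h28.HJ2

/-! # Associated points -/

open scoped KaehlerDifferential

universe u

namespace Flip28

variable {k K : Type u} [Field k] [Field K] [Algebra k K] {V : Submodule k K}
  {X : Set (Subalgebra k K)}

/-- the associated primes which can be reached from a vector whose annihilator is in a given
prime ideal -/
theorem HM_aux1 {C : Type*} [CommRing C] [IsNoetherianRing C] {Q : Type*} [AddCommGroup Q]
    [Module C Q] (P : Ideal C) (hP : P.IsPrime) (v : Q) (hv : ∀ a : C, a • v = 0 → a ∈ P) :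
    ∃ I ∈ associatedPrimes C Q, ∀ a : C, a • v = 0 → a ∈ I := by
  -- the family of annihilators
  let fam : Set (Submodule C C) := {J | J ≤ P ∧ ∃ t : C, ∀ a, a ∈ J ↔ a • (t • v) = 0}
  have hne : fam.Nonempty := by
    refine ⟨Submodule.colon (⊥ : Submodule C Q) {v}, ?_, 1, ?_⟩
    · intro a ha
      rw [Submodule.mem_colon_singleton, Submodule.mem_bot] at ha
      exact hv a ha
    · intro a
      rw [Submodule.mem_colon_singleton, Submodule.mem_bot, one_smul]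
  obtain ⟨I, hI, hmax⟩ := set_has_maximal_iff_noetherian.mpr
    (inferInstance : IsNoetherian C C) fam hne
  obtain ⟨hIP, t, ht⟩ := hI
  have key : ∀ t' : C, (∀ a, a • (t' • v) = 0 → a ∈ P) → (∀ a ∈ I, a • (t' • v) = 0) →
      ∀ a, a • (t' • v) = 0 → a ∈ I := by
    intro t' h1 h2 a ha
    by_contra hcon
    have hJ : Submodule.colon (⊥ : Submodule C Q) {t' • v} ∈ fam := by
      refine ⟨?_, t', ?_⟩
      · intro b hb
        rw [Submodule.mem_colon_singleton, Submodule.mem_bot] at hb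
        exact h1 b hb
      · intro b
        rw [Submodule.mem_colon_singleton, Submodule.mem_bot]
    refine hmax _ hJ ?_
    refine lt_of_le_of_ne ?_ ?_
    · intro b hb
      rw [Submodule.mem_colon_singleton, Submodule.mem_bot]
      exact h2 b hb
    · intro heq
      apply hcon
      rw [heq, Submodule.mem_colon_singleton, Submodule.mem_bot]
      exact ha
  have hprime : Ideal.IsPrime I := by
    refine Ideal.isPrime_iff.2 ⟨fun htop => hP.ne_top (top_le_iff.1 (htop ▸ hIP)), ?_⟩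
    intro a b hab
    by_contra hcon
    rw [not_or] at hcon
    have hab' := (ht _).1 hab
    by_cases h : ∀ c, c • ((b * t) • v) = 0 → c ∈ P
    · refine hcon.1 (key (b * t) h ?_ a ?_)
      · intro c hc
        have h1 := (ht c).1 hc
        rw [mul_smul, smul_comm, h1, smul_zero]
      · rw [mul_smul, ← mul_smul]
        exact hab'
    · push Not at h
      obtain ⟨c, hc1, hc2⟩ := h
      refine hcon.2 (key (c * t) ?_ ?_ b ?_)
      · intro d hd
        have h1 : d * c ∈ I := by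
          rw [ht, mul_smul, ← mul_smul c t v]
          exact hd
        rcases hP.mem_or_mem (hIP h1) with h2 | h2
        · exact h2
        · exact absurd h2 hc2
      · intro d hd
        have h1 := (ht d).1 hd
        rw [mul_smul, smul_comm, h1, smul_zero]
      · rw [smul_smul, show b * (c * t) = c * (b * t) by ring, ← smul_smul]
        exact hc1
  refine ⟨I, ?_, ?_⟩
  · rw [AssociatedPrimes.mem_iff, isAssociatedPrime_iff]
    refine ⟨hprime, t • v, ?_⟩
    ext a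
    rw [ht, Submodule.mem_colon_singleton, Submodule.mem_bot]
  · intro a ha
    rw [ht, smul_comm, ha, smul_zero]

/-- the same for submodules of `E` -/
theorem HM_aux2 {E : Type*} [AddCommGroup E] [Module k E] [Module K E] [IsScalarTower k K E]
    (C : Subalgebra k K) (hC : C.FG) (M N : Submodule k E) (hM : ∀ a ∈ C, ∀ v ∈ M, a • v ∈ M)
    (hN : ∀ a ∈ C, ∀ v ∈ N, a • v ∈ N)
    (hfin : ∃ (m : ℕ) (e : Fin m → E), (∀ i, e i ∈ M) ∧
      ∀ v ∈ M, ∃ c : Fin m → K, (∀ i, c i ∈ C) ∧ v = ∑ i, c i • e i) :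
    ∃ 𝒮 : Set (Ideal C), 𝒮.Finite ∧
      (∀ Q ∈ 𝒮, Q.IsPrime ∧ ∃ v ∈ M, ∀ a : C, a ∈ Q ↔ (a : K) • v ∈ N) ∧
      ∀ P : Ideal C, P.IsPrime → ∀ v ∈ M, (∀ a : C, (a : K) • v ∈ N → a ∈ P) →
        ∃ Q ∈ 𝒮, ∀ a : C, (a : K) • v ∈ N → a ∈ Q := by
  classical
  have : Algebra.FiniteType k C := (Subalgebra.fg_iff_finiteType C).1 hC
  have : IsNoetherianRing C := Algebra.FiniteType.isNoetherianRing k C
  let MM : Submodule C E :=
    { carrier := M
      add_mem' := fun h1 h2 => M.add_mem h1 h2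
      zero_mem' := M.zero_mem
      smul_mem' := fun a v hv => hM a a.2 v hv }
  let NN : Submodule C E :=
    { carrier := N
      add_mem' := fun h1 h2 => N.add_mem h1 h2
      zero_mem' := N.zero_mem
      smul_mem' := fun a v hv => hN a a.2 v hv }
  let N' : Submodule C MM := NN.comap MM.subtype
  have : Module.Finite C MM := by
    obtain ⟨m, e, he, hspan⟩ := hfin
    refine ⟨⟨Finset.univ.image (fun i => (⟨e i, he i⟩ : MM)), ?_⟩⟩
    rw [eq_top_iff]
    rintro ⟨v, hv⟩ _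
    obtain ⟨c, hc, hvc⟩ := hspan v hv
    have h1 : (⟨v, hv⟩ : MM) = ∑ i, (⟨c i, hc i⟩ : C) • (⟨e i, he i⟩ : MM) := by
      apply Subtype.ext
      rw [AddSubmonoidClass.coe_finsetSum]
      exact hvc
    rw [h1]
    refine Submodule.sum_mem _ fun i _ => Submodule.smul_mem _ _ (Submodule.subset_span ?_)
    rw [Finset.coe_image]
    exact ⟨i, Finset.mem_coe.2 (Finset.mem_univ i), rfl⟩
  have hmk : ∀ (a : C) (v : MM), a • (N'.mkQ v) = 0 ↔ (a : K) • (v : E) ∈ N := by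
    intro a v
    rw [← map_smul, Submodule.mkQ_apply, Submodule.Quotient.mk_eq_zero]
    exact Iff.rfl
  refine ⟨associatedPrimes C (MM ⧸ N'), associatedPrimes.finite C (MM ⧸ N'), ?_, ?_⟩
  · intro Q hQ
    rw [AssociatedPrimes.mem_iff, isAssociatedPrime_iff] at hQ
    obtain ⟨h1, x, hx⟩ := hQ
    obtain ⟨v, rfl⟩ := N'.mkQ_surjective x
    refine ⟨h1, v, v.2, fun a => ?_⟩
    rw [hx, Submodule.mem_colon_singleton, Submodule.mem_bot]
    exact hmk a v
  · intro P hP v hv h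
    obtain ⟨I, hI, h1⟩ := HM_aux1 P hP (N'.mkQ ⟨v, hv⟩)
      (fun a ha => h a ((hmk a ⟨v, hv⟩).1 ha))
    exact ⟨I, hI, fun a ha => h1 a ((hmk a ⟨v, hv⟩).2 ha)⟩

/-- `A` is a localization of `C`: the prime ideal -/
theorem HM_aux3 {C A : Subalgebra k K} (h : IsLoc C A) :
    ∃ P : Ideal C, P.IsPrime ∧ ∀ a : C, a ∈ P ↔ ¬ ((a : K) ≠ 0 ∧ (a : K)⁻¹ ∈ A) := by
  have := h.2.1
  refine ⟨Ideal.comap (Subalgebra.inclusion h.le).toRingHom (IsLocalRing.maximalIdeal A),
    inferInstance, fun a => ?_⟩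
  rw [Ideal.mem_comap, IsLocalRing.mem_maximalIdeal, mem_nonunits_iff, LocAlg_unit]
  exact Iff.rfl

/-- There are finitely many points `A ∈ 𝒯` of `X`, the maximal ideal of `A` being associated to
`F A / (h₁, ..., h_l) F A`, such that every `z ∈ V` generating `V` at these points is a regular
element of `F A / (h₁, ..., h_l) F A` for all `A ∈ X`.

Proof: let `x₁, ..., x_r` be generators of `V`, nonzero.  Every `A ∈ X` is a localization of some
`C i = CJ V {x i}` (a noetherian ring).  The module `M i = F (C i) / NS (F (C i)) (h / x i) l` is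
finite over `C i` (`QC.fin`), so it has finitely many associated primes; `𝒯` is the set of the
corresponding localizations of `C i`, for all `i`.  If `𝔮 = ann (v mod NS)` is an associated
prime and `A` the localization, then `v ∉ NS (F A)` (otherwise `s v ∈ NS (F (C i))` with
`s ∉ 𝔮`, `QC.loc_NS`) and `a v ∈ NS (F A)` for the nonunits `a` of `A`.
Last assertion: let `A ∈ X` be a localization of `C i`; changing `x` by a unit of `A` we may assume
`x = x i` (`NS_unit`).  Let `v ∈ F A`, `(z / x i) v ∈ NS (F A)`, `v ∉ NS (F A)`.  Multiply `v` by a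
unit of `A` in `C i`: `v ∈ F (C i)`, `(z / x i) v ∈ NS (F (C i))`, and `v ∉ NS (F A)`.  The
annihilator of `v mod NS (F (C i))` is contained in the prime of `A`; it contains `z / x i`, and some
associated prime `𝔮` of the submodule generated by `v`, contained in the prime of `A`, contains
it (noetherian: `𝔮` associated to the localized module at the prime of `A`); for the corresponding
`B ∈ 𝒯` the element `z / x i` is not a unit of `B`, although `Un V B z`, `Un V B (x i)`. -/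
theorem exists_ass (hX : IsCompleteNormal X) (h : IsPr V X) {E : Type*} [AddCommGroup E]
    [Module k E] [Module K E] [IsScalarTower k K E] {F : Subalgebra k K → Submodule k E}
    (hF : QC F) {m : ℕ} (hh : Fin m → K) (hV : ∀ a, hh a ∈ V) (l : ℕ) :
    ∃ 𝒯 : Set (Subalgebra k K), 𝒯.Finite ∧ 𝒯 ⊆ X ∧
      (∀ A ∈ 𝒯, ∃ (x : K) (v : E), Un V A x ∧ v ∈ F A ∧ v ∉ NS (F A) (fun a => hh a * x⁻¹) l ∧
        ∀ a ∈ A, a⁻¹ ∉ A → a • v ∈ NS (F A) (fun a => hh a * x⁻¹) l) ∧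
      ∀ z ∈ V, (∀ A ∈ 𝒯, Un V A z) → ∀ A ∈ X, ∀ x, Un V A x → ∀ v ∈ F A,
        (z * x⁻¹) • v ∈ NS (F A) (fun a => hh a * x⁻¹) l →
          v ∈ NS (F A) (fun a => hh a * x⁻¹) l := by
  classical
  -- generators
  obtain ⟨s, hs⟩ := h.fg
  have hsV : ∀ x ∈ s, x ∈ V := fun x hx => hs ▸ Submodule.subset_span (Finset.mem_coe.2 hx)
  have hgen : ∀ A ∈ X, ∃ x ∈ s, Un V A x := by
    intro A hA
    obtain ⟨x, hx⟩ := h.exists_un hA
    have hloc : IsLocalRing A := by
      obtain ⟨w, _, _, hw⟩ := (h.mem A).1 hA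
      exact hw.2.1
    obtain ⟨U, hU⟩ := exists_NU hloc hx
    by_contra hcon
    push Not at hcon
    have h1 : V ≤ U := by
      rw [← hs]
      refine Submodule.span_le.2 fun y hy => ?_
      exact (hU y (hsV y (Finset.mem_coe.1 hy))).2 (hcon y (Finset.mem_coe.1 hy))
    exact (hU x hx.1).1 (h1 hx.1) hx
  -- stability
  have hst : ∀ (C : Subalgebra k K) (x : K), ∀ a ∈ C, ∀ v ∈ NS (F C) (fun a => hh a * x⁻¹) l,
      a • v ∈ NS (F C) (fun a => hh a * x⁻¹) l :=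
    fun C x => NS_stable (hF.stable C) _ l
  -- the associated primes for one generator
  have hone : ∀ x : K, x ∈ V → x ≠ 0 → ∃ 𝒯 : Set (Subalgebra k K), 𝒯.Finite ∧
      (∀ A ∈ 𝒯, IsLoc (CJ V {x}) A ∧ ∃ v ∈ F A, v ∉ NS (F A) (fun a => hh a * x⁻¹) l ∧
        ∀ a ∈ A, a⁻¹ ∉ A → a • v ∈ NS (F A) (fun a => hh a * x⁻¹) l) ∧
      ∀ A, IsLoc (CJ V {x}) A → ∀ v ∈ F (CJ V {x}), v ∉ NS (F A) (fun a => hh a * x⁻¹) l →
        ∀ b ∈ CJ V {x}, b • v ∈ NS (F (CJ V {x})) (fun a => hh a * x⁻¹) l →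
          ∃ B ∈ 𝒯, ¬ (b ≠ 0 ∧ b⁻¹ ∈ B) := by
    intro x hxV hx0
    obtain ⟨C, hCdef⟩ : ∃ C, C = CJ V {x} := ⟨_, rfl⟩
    rw [← hCdef]
    have hCfg : C.FG := by
      rw [hCdef]
      exact CJ_fg h.fg (Set.finite_singleton x)
    obtain ⟨𝒮, hfin, hS1, hS2⟩ := HM_aux2 C hCfg (F C) (NS (F C) (fun a => hh a * x⁻¹) l)
      (hF.stable C) (hst C x) (hF.fin C hCfg)
    -- the localizations
    have hex : ∀ Q : Ideal C, ∃ B : Subalgebra k K, Q.IsPrime → IsLoc C B ∧
        (∀ a : C, (a : K)⁻¹ ∈ B → a ≠ 0 → a ∉ Q) ∧ (∀ a : C, a ∉ Q → (a : K)⁻¹ ∈ B) := by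
      intro Q
      by_cases hQ : Q.IsPrime
      · have := hQ
        obtain ⟨B, h1, h2, h3⟩ := exists_isLoc_of_prime C Q
        exact ⟨B, fun _ => ⟨h1, h2, h3⟩⟩
      · exact ⟨⊤, fun h => absurd h hQ⟩
    choose B hB using hex
    refine ⟨B '' 𝒮, hfin.image B, ?_, ?_⟩
    · rintro A ⟨Q, hQ, rfl⟩
      obtain ⟨hQp, v, hv, hva⟩ := hS1 Q hQ
      obtain ⟨hloc, hb1, hb2⟩ := hB Q hQp
      refine ⟨hloc, v, hF.mono _ _ hloc.le hv, ?_, ?_⟩
      · intro hcon
        obtain ⟨t, htC, ht0, htB, ht⟩ := hF.loc_NS hloc hcon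
        have h1 : (⟨t, htC⟩ : C) ∈ Q := (hva ⟨t, htC⟩).2 ht
        refine hb1 ⟨t, htC⟩ htB ?_ h1
        intro h2
        exact ht0 (congrArg Subtype.val h2)
      · intro a ha hainv
        obtain ⟨r, hr, t, ht, htB, hat⟩ := hloc.2.2 a ha
        have hrQ : (⟨r, hr⟩ : C) ∈ Q := by
          by_contra hcon
          have h1 := hb2 ⟨r, hr⟩ hcon
          apply hainv
          rw [hat, mul_inv, inv_inv]
          exact (B Q).mul_mem h1 (hloc.le ht)
        have h2 := (hva ⟨r, hr⟩).1 hrQ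
        have h3 : r • v ∈ NS (F (B Q)) (fun a => hh a * x⁻¹) l :=
          NS_mono (hF.mono _ _ hloc.le) _ _ h2
        rw [hat, mul_comm, mul_smul]
        exact hst _ x _ htB _ h3
    · intro A hA v hv hvn b hb hbv
      obtain ⟨P, hP, hPa⟩ := HM_aux3 hA
      obtain ⟨Q, hQ, h1⟩ := hS2 P hP v hv (by
        intro a ha
        rw [hPa]
        rintro ⟨ha0, hainv⟩
        apply hvn
        have h2 : (a : K) • v ∈ NS (F A) (fun a => hh a * x⁻¹) l :=
          NS_mono (hF.mono _ _ hA.le) _ _ ha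
        have h3 := hst A x _ hainv _ h2
        rwa [← mul_smul, inv_mul_cancel₀ ha0, one_smul] at h3)
      refine ⟨B Q, ⟨Q, hQ, rfl⟩, ?_⟩
      rintro ⟨hb0, hcon⟩
      have h4 : (⟨b, hb⟩ : C) ∈ Q := h1 ⟨b, hb⟩ hbv
      refine (hB Q (hS1 Q hQ).1).2.1 ⟨b, hb⟩ hcon ?_ h4
      intro h2
      exact hb0 (congrArg Subtype.val h2)
  -- the union
  have hone' : ∀ x : K, ∃ 𝒯 : Set (Subalgebra k K), x ∈ V → x ≠ 0 → 𝒯.Finite ∧
      (∀ A ∈ 𝒯, IsLoc (CJ V {x}) A ∧ ∃ v ∈ F A, v ∉ NS (F A) (fun a => hh a * x⁻¹) l ∧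
        ∀ a ∈ A, a⁻¹ ∉ A → a • v ∈ NS (F A) (fun a => hh a * x⁻¹) l) ∧
      ∀ A, IsLoc (CJ V {x}) A → ∀ v ∈ F (CJ V {x}), v ∉ NS (F A) (fun a => hh a * x⁻¹) l →
        ∀ b ∈ CJ V {x}, b • v ∈ NS (F (CJ V {x})) (fun a => hh a * x⁻¹) l →
          ∃ B ∈ 𝒯, ¬ (b ≠ 0 ∧ b⁻¹ ∈ B) := by
    intro x
    by_cases hx : x ∈ V ∧ x ≠ 0
    · obtain ⟨𝒯, h1⟩ := hone x hx.1 hx.2
      exact ⟨𝒯, fun _ _ => h1⟩
    · exact ⟨∅, fun h1 h2 => absurd ⟨h1, h2⟩ hx⟩
  choose T hT using hone'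
  have hun : ∀ x : K, x ∈ V → x ≠ 0 → ∀ A, IsLoc (CJ V {x}) A ↔ A ∈ X ∧ Un V A x := by
    intro x hx hx0 A
    rw [h.isLoc_iff hX (Set.finite_singleton x) (Set.singleton_nonempty x) (by
      intro z hz
      rw [Set.mem_singleton_iff.1 hz]
      exact ⟨hx, hx0⟩)]
    simp
  refine ⟨⋃ x ∈ s.filter (fun x => x ≠ 0), T x, ?_, ?_, ?_, ?_⟩
  · refine Set.Finite.biUnion (Finset.finite_toSet _) fun x hx => ?_
    have hx' := Finset.mem_filter.1 (Finset.mem_coe.1 hx)
    exact (hT x (hsV x hx'.1) hx'.2).1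
  · intro A hA
    simp only [Set.mem_iUnion] at hA
    obtain ⟨x, hx, hA⟩ := hA
    have hx' := Finset.mem_filter.1 hx
    exact ((hun x (hsV x hx'.1) hx'.2 A).1 ((hT x (hsV x hx'.1) hx'.2).2.1 A hA).1).1
  · intro A hA
    simp only [Set.mem_iUnion] at hA
    obtain ⟨x, hx, hA⟩ := hA
    have hx' := Finset.mem_filter.1 hx
    obtain ⟨h1, v, h2, h3, h4⟩ := (hT x (hsV x hx'.1) hx'.2).2.1 A hA
    exact ⟨x, v, ((hun x (hsV x hx'.1) hx'.2 A).1 h1).2, h2, h3, h4⟩
  · intro z hz hzT A hA x' hx' v hv hzv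
    by_contra hvn
    obtain ⟨x, hxs, hx⟩ := hgen A hA
    have hx0 : x ≠ 0 := hx.2.1
    have hx'0 : x' ≠ 0 := hx'.2.1
    have hAloc : IsLoc (CJ V {x}) A := (hun x hx.1 hx0 A).2 ⟨hA, hx⟩
    -- change of the generator
    have hNS : NS (F A) (fun a => hh a * x⁻¹) l = NS (F A) (fun a => hh a * x'⁻¹) l := by
      refine NS_unit (hF.stable A) (θ := x' * x⁻¹) ?_ ?_ ?_ ?_ l
      · exact mul_ne_zero hx'0 (inv_ne_zero hx0)
      · exact hx.mul_inv_mem hx'
      · rw [mul_inv, inv_inv, mul_comm]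
        exact hx'.mul_inv_mem hx
      · intro a
        field_simp
    rw [← hNS] at hvn hzv
    have hzv' : (z * x⁻¹) • v ∈ NS (F A) (fun a => hh a * x⁻¹) l := by
      have h1 := hst A x _ (hx.mul_inv_mem hx') _ hzv
      rw [← mul_smul, show x' * x⁻¹ * (z * x'⁻¹) = z * x⁻¹ by field_simp] at h1
      exact h1
    -- clearing denominators
    obtain ⟨t, htC, ht0, htA, ht⟩ := hF.loc_pt hAloc hv
    have h1 : (z * x⁻¹) • (t • v) ∈ NS (F A) (fun a => hh a * x⁻¹) l := by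
      rw [smul_comm]
      exact hst A x _ (hAloc.le htC) _ hzv'
    obtain ⟨t', htC', ht0', htA', ht'⟩ := hF.loc_NS hAloc h1
    have hb : z * x⁻¹ ∈ CJ V {x} := mul_inv_mem_CJ hz (Set.mem_singleton x)
    have h3 : t' • (t • v) ∈ F (CJ V {x}) := hF.stable _ _ htC' _ ht
    have h4 : t' • (t • v) ∉ NS (F A) (fun a => hh a * x⁻¹) l := by
      intro hcon
      apply hvn
      have h5 := hst A x _ htA _ (hst A x _ htA' _ hcon)
      rwa [inv_smul_smul₀ ht0', inv_smul_smul₀ ht0] at h5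
    have h6 : (z * x⁻¹) • (t' • (t • v)) ∈ NS (F (CJ V {x})) (fun a => hh a * x⁻¹) l := by
      rw [smul_comm]
      exact ht'
    obtain ⟨B, hB, hBn⟩ := (hT x hx.1 hx0).2.2 A hAloc _ h3 h4 _ hb h6
    have hBX : Un V B z := hzT B (by
      simp only [Set.mem_iUnion]
      exact ⟨x, Finset.mem_filter.2 ⟨hxs, hx0⟩, hB⟩)
    have hBx : Un V B x := ((hun x hx.1 hx0 B).1 ((hT x hx.1 hx0).2.1 B hB).1).2
    refine hBn ⟨mul_ne_zero hBX.2.1 (inv_ne_zero hx0), ?_⟩
    rw [mul_inv, inv_inv, mul_comm]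
    exact hBX.mul_inv_mem hBx

end Flip28
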