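import Pool.Agent.FlipB_h28.HDef2
import Pool.Agent.FlipB_h28.HG3
import Pool.Agent.FlipB_h28.HK
import Pool.Agent.FlipB_h28.HL
import Pool.Agent.FlipB_h28.HM
import Pool.Agent.Flip_h28.DimD
import Pool.Agent.Flip_h28.ModelN

/-! # Choice of the sections `s` -/

open scoped KaehlerDifferential

universe u

namespace Flip28

variable {k K : Type u} [Field k] [Field K] [Algebra k K] {X X' : Set (Subalgebra k K)}

/-- Proof: `dim_formula`, `trdeg_eq_finrank`. -/
theorem dim_le_basis [CharZero k] [Algebra.EssFiniteType k K] {n : ℕ}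
    (b : Module.Basis (Fin n) K Ω[K⁄k]) (hX : IsCompleteNormal X) {A : Subalgebra k K}
    (hA : A ∈ X) : ∃ d : ℕ, ringKrullDim A = d ∧ d ≤ n := by
  obtain ⟨R, hR, hK, hRA, -⟩ := hX.exists_chart hA
  obtain ⟨d, e, h1, -, h3⟩ := dim_formula hR hK hRA
  refine ⟨d, h1, ?_⟩
  rw [trdeg_eq_finrank, Module.finrank_eq_card_basis b, Fintype.card_fin] at h3
  have h4 : n = d + e := by exact_mod_cast h3
  omega

/-- Proof: `isLoc_of_le`, `dim_lt_of_lt` -/
theorem dim_lt_of_le_ne (hX : IsCompleteNormal X) {A B : Subalgebra k K} (hA : A ∈ X)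
    (hB : B ∈ X) (h : A ≤ B) (hne : A ≠ B) : ringKrullDim B < ringKrullDim A := by
  obtain ⟨R, hR, hK, hRA, -⟩ := hX.exists_chart hA
  exact dim_lt_of_lt hR hK hRA (hRA.trans (hX.isLoc_of_le hA hB h)) (lt_of_le_of_ne h hne)

/-- Proof: by `Opn.exists_generic` a point `A` of the closed set is contained in one of finitely
many points `B` of it, and `dim B < dim A` if `A ≠ B`. -/
theorem finite_of_opn (hX : IsCompleteNormal X) {U : Set (Subalgebra k K)} (hU : Opn X U)
    {e : ℕ} (he : ∀ A ∈ X, A ∉ U → (e : WithBot ℕ∞) ≤ ringKrullDim A) :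
    {A | A ∈ X ∧ A ∉ U ∧ ringKrullDim A = e}.Finite := by
  obtain ⟨T, hT, hTX, hTU, hgen⟩ := hU.exists_generic hX
  refine hT.subset ?_
  rintro A ⟨hA, hAU, hAe⟩
  obtain ⟨B, hB, hAB⟩ := hgen A hA hAU
  by_cases hne : A = B
  · rw [hne]
    exact hB
  · exfalso
    have h1 := dim_lt_of_le_ne hX hA (hTX hB) hAB hne
    have h2 := he B (hTX hB) (hTU B hB)
    rw [hAe] at h1
    exact absurd h1 (not_lt.2 h2)

/-- Proof: `exists_NU`, `exists_avoid`. -/
theorem exists_un_of_finite [Infinite k] {V J : Submodule k K} (hJ : J ≤ V)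
    {𝒯 : Set (Subalgebra k K)} (hfin : 𝒯.Finite) (hloc : ∀ A ∈ 𝒯, IsLocalRing A)
    (h : ∀ A ∈ 𝒯, ∃ z ∈ J, Un V A z) {𝒰 : Set (Submodule k K)} (h𝒰 : 𝒰.Finite)
    (hU : ∀ U ∈ 𝒰, ¬ J ≤ U) : ∃ z ∈ J, (∀ A ∈ 𝒯, Un V A z) ∧ ∀ U ∈ 𝒰, z ∉ U := by
  classical
  have hex : ∀ A : Subalgebra k K, ∃ U : Submodule k K, A ∈ 𝒯 → ∀ z ∈ V, z ∈ U ↔ ¬ Un V A z := by
    intro A
    by_cases hA : A ∈ 𝒯
    · obtain ⟨z, _, hzU⟩ := h A hA
      obtain ⟨U, hU'⟩ := exists_NU (hloc A hA) hzU
      exact ⟨U, fun _ => hU'⟩
    · exact ⟨⊤, fun h => absurd h hA⟩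
  choose f hf using hex
  obtain ⟨z, hz, hz2⟩ := exists_avoid J (𝒰 := f '' 𝒯 ∪ 𝒰) ((hfin.image f).union h𝒰) (by
    rintro U (⟨A, hA, rfl⟩ | hU')
    · obtain ⟨z, hz, hzU⟩ := h A hA
      intro hle
      exact (hf A hA z (hJ hz)).1 (hle hz) hzU
    · exact hU U hU')
  refine ⟨z, hz, fun A hA => ?_, fun U hU' => hz2 U (Or.inr hU')⟩
  by_contra hcon
  exact hz2 (f A) (Or.inl ⟨A, hA, rfl⟩) ((hf A hA z (hJ hz)).2 hcon)

theorem HN1_opn_empty : Opn X (∅ : Set (Subalgebra k K)) :=
  fun _ _ _ _ _ _ h => absurd h (Set.notMem_empty _)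

theorem HN1_opn_ex {V : Submodule k K} (hV : V.FG) {p : ℕ} (s : Fin p → K)
    (S : Finset (Fin p)) : Opn X {A | ∃ a ∈ S, Un V A (s a)} := by
  classical
  induction S using Finset.induction_on with
  | empty =>
    have h1 : {A : Subalgebra k K | ∃ a ∈ (∅ : Finset (Fin p)), Un V A (s a)} = ∅ := by
      ext A
      simp
    rw [h1]
    exact HN1_opn_empty
  | insert a S _ ih =>
    have h1 : {A : Subalgebra k K | ∃ a' ∈ insert a S, Un V A (s a')} =
        {A | Un V A (s a)} ∪ {A | ∃ a' ∈ S, Un V A (s a')} := by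
      ext A
      constructor
      · rintro ⟨a', ha', h⟩
        rcases Finset.mem_insert.1 ha' with rfl | ha'
        · exact Or.inl h
        · exact Or.inr ⟨a', ha', h⟩
      · rintro (h | ⟨a', ha', h⟩)
        · exact ⟨a, Finset.mem_insert_self _ _, h⟩
        · exact ⟨a', Finset.mem_insert_of_mem ha', h⟩
    rw [h1]
    exact (opn_un hV _).union ih

theorem HN1_NS_congr {E : Type*} [AddCommGroup E] [Module k E] [Module K E]
    [IsScalarTower k K E] {N : Submodule k E} {p : ℕ} {y y' : Fin p → K} {l : ℕ}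
    (h : ∀ a : Fin p, (a : ℕ) < l → y a = y' a) : NS N y l = NS N y' l := by
  ext v
  constructor
  · rintro ⟨w, hw, rfl⟩
    refine ⟨w, hw, Finset.sum_congr rfl fun a ha => ?_⟩
    rw [h a (Finset.mem_filter.1 ha).2]
  · rintro ⟨w, hw, rfl⟩
    refine ⟨w, hw, Finset.sum_congr rfl fun a ha => ?_⟩
    rw [h a (Finset.mem_filter.1 ha).2]

theorem HN1_lt {a b : ℕ} {x : WithBot ℕ∞} (hx : x = b) (h1 : (a : WithBot ℕ∞) ≤ x)
    (h2 : x ≠ a) : ((a + 1 : ℕ) : WithBot ℕ∞) ≤ x := by
  subst hx
  have h3 : a ≤ b := by exact_mod_cast h1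
  have h4 : b ≠ a := by
    rintro rfl
    exact h2 rfl
  have h5 : a + 1 ≤ b := by omega
  exact_mod_cast h5

/-- Choice of `S` ((IV.1) of the paper proof).  By induction on `l ≤ p` there is `s : Fin p → K`
with values in `V'` such that (i) the `A ∈ X'` with `A ∉ X` or `A` not smooth, and
`¬ Un V' A (s a)` for all `a < l`, have dimension at least `d + 1 + l`; (ii) the `A ∈ X'` with
`A ≤ P` and `¬ Un V' A (s a)` for all `a < l` have dimension at least `d + l`; (iii) for all
`A ∈ X'` and `g` with `Un V' A g` the sequence `s / g` is `FReg (Subalgebra.toSubmodule A) _ l`.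
Step: there are finitely many points of dimension exactly `d + 1 + l`, resp. `d + l` in the sets
(i), (ii) (`finite_of_opn` for `X'`; the sets are closed: `opn_model`, `opn_smooth`,
`opn_not_le`, `opn_un`) and finitely many associated points (`exists_ass` for `QC_self`); take
`s l` generating `V'` at all these points (`exists_un_of_finite` with `J = V'`, `IsPr.exists_un`).
For `l = p`: the set (i) is empty since `d + 1 + p > n` (`dim_le_basis`), so the points of `S` are
smooth points of `X`, and the points of `S` contained in `P` have dimension `≥ n`, so `= n`.  The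
existence is `exists_common_zero`, for the residue field of `P` (transcendence degree `n - d`:
`dim_formula`). -/
theorem exists_sections [CharZero k] [Algebra.EssFiniteType k K] {n : ℕ}
    (b : Module.Basis (Fin n) K Ω[K⁄k]) (hX : IsCompleteNormal X) (hX' : IsCompleteNormal X')
    {V' : Submodule k K} (h' : IsPr V' X') {p d : ℕ} (hpd : p + d = n) {P : Subalgebra k K}
    (hP : P ∈ X') (hPd : ringKrullDim P = d)
    (hsm : ∀ A ∈ X', ringKrullDim A ≤ d → A ∈ X ∧ Algebra.FormallySmooth k A) :
    ∃ s : Fin p → K, SData X X' V' n s P := by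
  classical
  have hdim : ∀ A ∈ X', ∃ e : ℕ, ringKrullDim A = e ∧ e ≤ n := fun A hA =>
    dim_le_basis b hX' hA
  have key : ∀ l ≤ p, ∃ s : Fin p → K, (∀ a, s a ∈ V') ∧
      (∀ A ∈ X', ¬ (A ∈ X ∧ Algebra.FormallySmooth k A) →
        (∀ a : Fin p, (a : ℕ) < l → ¬ Un V' A (s a)) →
          ((d + 1 + l : ℕ) : WithBot ℕ∞) ≤ ringKrullDim A) ∧
      (∀ A ∈ X', A ≤ P → (∀ a : Fin p, (a : ℕ) < l → ¬ Un V' A (s a)) →
          ((d + l : ℕ) : WithBot ℕ∞) ≤ ringKrullDim A) ∧
      (∀ A ∈ X', ∀ g, Un V' A g → FReg (Subalgebra.toSubmodule A) (fun a => s a * g⁻¹) l) := by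
    intro l
    induction l with
    | zero =>
      intro _
      refine ⟨fun _ => 0, fun _ => V'.zero_mem, ?_, ?_, ?_⟩
      · intro A hA hAn _
        obtain ⟨e, he, _⟩ := hdim A hA
        rw [he]
        have h1 : ¬ e ≤ d := by
          intro h2
          apply hAn
          apply hsm A hA
          rw [he]
          exact_mod_cast h2
        have h2 : d + 1 + 0 ≤ e := by omega
        exact_mod_cast h2
      · intro A hA hAP _
        by_cases hne : A = P
        · rw [hne, hPd, add_zero]
        · have h1 := dim_lt_of_le_ne hX' hA hP hAP hne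
          rw [hPd] at h1
          rw [add_zero]
          exact h1.le
      · intro A _ g _ i hi
        omega
    | succ l ih =>
      intro hl
      obtain ⟨s, hsV, h1, h2, h3⟩ := ih (by omega)
      -- the closed sets
      have hfil : ∀ A : Subalgebra k K, (∃ a ∈ Finset.univ.filter (fun a : Fin p => (a : ℕ) < l),
          Un V' A (s a)) ↔ ∃ a : Fin p, (a : ℕ) < l ∧ Un V' A (s a) := by
        intro A
        constructor
        · rintro ⟨a, ha, h⟩
          exact ⟨a, (Finset.mem_filter.1 ha).2, h⟩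
        · rintro ⟨a, ha, h⟩
          exact ⟨a, Finset.mem_filter.2 ⟨Finset.mem_univ _, ha⟩, h⟩
      have hT1 := finite_of_opn hX' (e := d + 1 + l)
        (((opn_model (X := X') hX).inter (opn_smooth (k := k) (K := K))).union
          (HN1_opn_ex h'.fg s (Finset.univ.filter (fun a : Fin p => (a : ℕ) < l)))) (by
          intro A hA hAU
          apply h1 A hA
          · intro h4
            exact hAU (Or.inl h4)
          · intro a ha h4
            exact hAU (Or.inr ((hfil A).2 ⟨a, ha, h4⟩)))
      have hT2 := finite_of_opn hX' (e := d + l)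
        ((opn_not_le (X := X') P).union
          (HN1_opn_ex h'.fg s (Finset.univ.filter (fun a : Fin p => (a : ℕ) < l)))) (by
          intro A hA hAU
          apply h2 A hA
          · by_contra h4
            exact hAU (Or.inl h4)
          · intro a ha h4
            exact hAU (Or.inr ((hfil A).2 ⟨a, ha, h4⟩)))
      obtain ⟨T3, hT3, hT3X, -, hT3r⟩ := exists_ass hX' h' (QC_self (k := k) (K := K)) s hsV l
      have hall := (hT1.union hT2).union hT3
      obtain ⟨z, hz, hzT, -⟩ := exists_un_of_finite (J := V') le_rfl hall (by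
        rintro A ((hA | hA) | hA)
        · exact hX'.isLocalRing hA.1
        · exact hX'.isLocalRing hA.1
        · exact hX'.isLocalRing (hT3X hA)) (by
        have hun : ∀ A ∈ X', ∃ z ∈ V', Un V' A z := by
          intro A hA
          obtain ⟨x, hx⟩ := h'.exists_un hA
          exact ⟨x, hx.1, hx⟩
        rintro A ((hA | hA) | hA)
        · exact hun A hA.1
        · exact hun A hA.1
        · exact hun A (hT3X hA)) (𝒰 := ∅) Set.finite_empty (fun U hU => absurd hU (Set.notMem_empty U))
      have hlp : l < p := by omega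
      have hs1 : ∀ a : Fin p, (a : ℕ) < l → Function.update s ⟨l, hlp⟩ z a = s a := by
        intro a ha
        apply Function.update_of_ne
        intro h4
        rw [h4] at ha
        exact lt_irrefl _ ha
      have hs2 : Function.update s ⟨l, hlp⟩ z ⟨l, hlp⟩ = z := Function.update_self _ _ _
      refine ⟨Function.update s ⟨l, hlp⟩ z, ?_, ?_, ?_, ?_⟩
      · intro a
        by_cases ha : a = ⟨l, hlp⟩
        · rw [ha, hs2]
          exact hz
        · rw [Function.update_of_ne ha]
          exact hsV a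
      · intro A hA hAn hAs
        have h4 : ∀ a : Fin p, (a : ℕ) < l → ¬ Un V' A (s a) := by
          intro a ha
          rw [← hs1 a ha]
          exact hAs a (by omega)
        have h5 := h1 A hA hAn h4
        obtain ⟨e, he, _⟩ := hdim A hA
        refine HN1_lt he h5 ?_
        intro h6
        have h7 := hzT A (Or.inl (Or.inl ⟨hA, ?_, h6⟩))
        · apply hAs ⟨l, hlp⟩ (Nat.lt_succ_self l)
          rw [hs2]
          exact h7
        · rintro (h8 | h8)
          · exact hAn h8
          · obtain ⟨a, ha, h9⟩ := (hfil A).1 h8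
            exact h4 a ha h9
      · intro A hA hAP hAs
        have h4 : ∀ a : Fin p, (a : ℕ) < l → ¬ Un V' A (s a) := by
          intro a ha
          rw [← hs1 a ha]
          exact hAs a (by omega)
        have h5 := h2 A hA hAP h4
        obtain ⟨e, he, _⟩ := hdim A hA
        refine HN1_lt he h5 ?_
        intro h6
        have h7 := hzT A (Or.inl (Or.inr ⟨hA, ?_, h6⟩))
        · apply hAs ⟨l, hlp⟩ (Nat.lt_succ_self l)
          rw [hs2]
          exact h7
        · rintro (h8 | h8)
          · exact h8 hAP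
          · obtain ⟨a, ha, h9⟩ := (hfil A).1 h8
            exact h4 a ha h9
      · intro A hA g hg i hi v hv hyv
        have hc : ∀ j : ℕ, j ≤ l → NS (Subalgebra.toSubmodule A)
            (fun a => Function.update s ⟨l, hlp⟩ z a * g⁻¹) j =
            NS (Subalgebra.toSubmodule A) (fun a => s a * g⁻¹) j := by
          intro j hj
          apply HN1_NS_congr
          intro a ha
          beta_reduce
          rw [hs1 a (by omega)]
        rw [hc i (by omega)] at hyv ⊢
        by_cases hil : (i : ℕ) < l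
        · apply h3 A hA g hg i hil v hv
          beta_reduce at hyv ⊢
          rwa [hs1 i hil] at hyv
        · have hie : i = ⟨l, hlp⟩ := Fin.ext (by
            show (i : ℕ) = l
            omega)
          subst hie
          beta_reduce at hyv
          rw [hs2] at hyv
          exact hT3r z hz (fun B hB => hzT B (Or.inr hB)) A hA g hg v hv hyv
  obtain ⟨s, hsV, h1, h2, h3⟩ := key p le_rfl
  have hgood : ∀ A ∈ SS V' X' s, A ∈ X ∧ Algebra.FormallySmooth k A := by
    intro A hA
    by_contra hcon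
    obtain ⟨e, he, hen⟩ := hdim A hA.1
    have h4 := h1 A hA.1 hcon (fun a _ => hA.2 a)
    rw [he] at h4
    have h5 : d + 1 + p ≤ e := by exact_mod_cast h4
    omega
  refine ⟨s, hsV, fun A hA => (hgood A hA).1, fun A hA => (hgood A hA).2, ?_, ?_, ?_⟩
  · intro A hA g hg
    exact h3 A hA.1 g hg
  · have hloc : IsLocalRing P := hX'.isLocalRing hP
    obtain ⟨R, hR, hK, hRP, -⟩ := hX'.exists_chart hP
    obtain ⟨d', e, h4, h5, h6⟩ := dim_formula hR hK hRP
    rw [trdeg_eq_finrank, Module.finrank_eq_card_basis b, Fintype.card_fin] at h6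
    have h7 : n = d' + e := by exact_mod_cast h6
    rw [hPd] at h4
    have h8 : d = d' := by exact_mod_cast h4
    have h9 : p = e := by omega
    obtain ⟨A, hA, hAP, hAs⟩ := exists_common_zero hX' h' hP
      (IsScalarTower.toAlgHom k P (IsLocalRing.ResidueField P))
      IsLocalRing.residue_surjective (by
        intro a
        have h10 : (IsScalarTower.toAlgHom k P (IsLocalRing.ResidueField P)) a = 0 ↔
            a ∈ IsLocalRing.maximalIdeal P := by
          rw [← IsLocalRing.residue_eq_zero_iff]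
          exact Iff.rfl
        rw [h10, IsLocalRing.mem_maximalIdeal, mem_nonunits_iff, LocAlg_unit, not_and_or, not_not])
      (p := p) (by rw [h9]; exact h5.symm.le) s
    exact ⟨A, ⟨hA, hAs⟩, hAP⟩
  · intro A hA hAP
    obtain ⟨e, he, hen⟩ := hdim A hA.1
    have h4 := h2 A hA.1 hAP (fun a _ => hA.2 a)
    rw [he] at h4 ⊢
    have h5 : d + p ≤ e := by exact_mod_cast h4
    have h6 : e = n := by omega
    rw [h6]

end Flip28
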