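import Pool.Agent.FlipB_h28.HDef2
import Pool.Agent.FlipB_h28.HK
import Pool.Agent.FlipB_h28.HL

/-! # Closed subsets and covers by charts -/

open scoped KaehlerDifferential

universe u

namespace Flip28

variable {k K : Type u} [Field k] [Field K] [Algebra k K] {X X' : Set (Subalgebra k K)}
  {V V' : Submodule k K}

theorem HN2_iUnion {σ : Type*} {W : σ → Set (Subalgebra k K)} (hW : ∀ i, Opn X (W i)) :
    Opn X {A | ∃ i, A ∈ W i} := by
  rintro R hR hK hRX A hA ⟨i, hi⟩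
  obtain ⟨r, hr, hr0, hrA, hall⟩ := hW i R hR hK hRX A hA hi
  exact ⟨r, hr, hr0, hrA, fun B hB hrB => ⟨i, hall B hB hrB⟩⟩

theorem HN2_univ : Opn X Set.univ := by
  intro R _ _ _ A _ _
  exact ⟨1, R.one_mem, one_ne_zero, by rw [inv_one]; exact A.one_mem, fun _ _ _ => trivial⟩

/-- `S` is closed in `X` ((IV.2) of the paper proof).  Proof: in `X'` the set `S` is the
complement of the open set of the `A` with `Un V' A (s l)` for some `l`, so (`exists_generic` for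
`X'`) there is a finite set `𝒯 ⊆ S` such that every `A ∈ S` is contained in some `B ∈ 𝒯`; these
`B` are in `X`.  Conversely let `A ∈ X`, `A ≤ B ∈ 𝒯`.  Let `W ≤ W1` be valuation rings
dominating `A` and `B` (`exists_val_pair`), and let `A' ∈ X'` be the centre of `W`.  Then
`A' ≤ W1`, so `IsLoc A' B` (`isLoc_centre`), `A' ≤ B`; hence `A' ∈ S` (`Un.mono`), so
`A' ∈ X` and `A = A'` (`IsCompleteNormal.unique`).  So for `A ∈ X`: `A ∈ S` if and only if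
`A ≤ B` for some `B ∈ 𝒯`; use `opn_of_generic`. -/
theorem opn_compl_SS (hX : IsCompleteNormal X) (hX' : IsCompleteNormal X') (h' : IsPr V' X')
    {p : ℕ} {s : Fin p → K} (hsub : ∀ A ∈ SS V' X' s, A ∈ X) : Opn X (SS V' X' s)ᶜ := by
  have hU : Opn X' {A | ∃ l, A ∈ {B | Un V' B (s l)}} := HN2_iUnion fun l => opn_un h'.fg (s l)
  obtain ⟨𝒯, hfin, hsubT, hTU, hgen⟩ := hU.exists_generic hX'
  refine opn_of_generic hfin fun A hA => ?_
  rw [Set.notMem_compl_iff]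
  constructor
  · rintro ⟨hA', hAs⟩
    exact hgen A hA' fun ⟨l, hl⟩ => hAs l hl
  · rintro ⟨B, hB, hAB⟩
    have hBS : B ∈ SS V' X' s := ⟨hsubT hB, fun l hl => hTU B hB ⟨l, hl⟩⟩
    have hBX := hsub B hBS
    obtain ⟨W, W1, hW, hW1, hWW, hd, hd1⟩ :=
      exists_val_pair (hX.isLocalRing hA) (hX.isLocalRing hBX) hAB
    obtain ⟨A', hA', hdA'⟩ := hX'.exists_centre hW
    have h1 : IsLoc A' B :=
      hX'.isLoc_centre hA' (hsubT hB) hW1.isLocalRing (hdA'.1.trans hWW) hd1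
    have h2 : A' ∈ SS V' X' s := ⟨hA', fun l hl => hBS.2 l (hl.mono h1.1)⟩
    have h3 : A = A' := hX.unique hA (hsub A' h2) hW.isLocalRing hd hdA'
    rw [h3]
    exact h2

/-- if a power of `w` generates then `w` generates -/
theorem un_of_un_pow {A : Subalgebra k K} {w : K} {m : ℕ} (hm : 1 ≤ m) (hw : w ∈ V)
    (h : Un (V ^ m) A (w ^ m)) : Un V A w := by
  obtain ⟨m', rfl⟩ : ∃ m', m = m' + 1 := ⟨m - 1, by omega⟩
  have hw0 : w ≠ 0 := by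
    rintro rfl
    exact h.2.1 (zero_pow (by omega))
  refine ⟨hw, hw0, fun v hv => ?_⟩
  have h1 : w ^ m' * v ∈ V ^ (m' + 1) := by
    rw [pow_succ]
    exact Submodule.mul_mem_mul (Submodule.pow_mem_pow V hw m') hv
  have h2 := h.2.2 _ h1
  have e : w ^ m' * v * (w ^ (m' + 1))⁻¹ = v * w⁻¹ := by
    rw [pow_succ, mul_inv]
    have h0 : w ^ m' ≠ 0 := pow_ne_zero m' hw0
    field_simp
  rwa [e] at h2

/-- `x / w ^ t` with `x ∈ V ^ t` -/
theorem HN2_pow_mul_mem {w : K} (hw : w ∈ V) (hw0 : w ≠ 0) {y : K} (hy : y ∈ CJ V {w}) :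
    ∃ t0 : ℕ, ∀ t, t0 ≤ t → y * w ^ t ∈ V ^ t := by
  have hpw : ∀ t, w ^ t ∈ V ^ t := fun t => Submodule.pow_mem_pow V hw t
  unfold CJ at hy
  induction hy using Algebra.adjoin_induction with
  | mem x hx =>
    obtain ⟨v, hv, z, hz, rfl⟩ := hx
    rw [Set.mem_singleton_iff] at hz
    subst hz
    refine ⟨1, fun t ht => ?_⟩
    obtain ⟨t', rfl⟩ : ∃ t', t = t' + 1 := ⟨t - 1, by omega⟩
    have e : v * z⁻¹ * z ^ (t' + 1) = z ^ t' * v := by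
      rw [pow_succ]
      field_simp
    rw [e, pow_succ]
    exact Submodule.mul_mem_mul (hpw t') hv
  | algebraMap c =>
    refine ⟨0, fun t _ => ?_⟩
    rw [← Algebra.smul_def]
    exact Submodule.smul_mem _ c (hpw t)
  | add x y _ _ h1 h2 =>
    obtain ⟨t0, h3⟩ := h1
    obtain ⟨t1, h4⟩ := h2
    refine ⟨max t0 t1, fun t ht => ?_⟩
    rw [add_mul]
    exact Submodule.add_mem _ (h3 t (le_trans (le_max_left _ _) ht))
      (h4 t (le_trans (le_max_right _ _) ht))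
  | mul x y _ _ h1 h2 =>
    obtain ⟨t0, h3⟩ := h1
    obtain ⟨t1, h4⟩ := h2
    refine ⟨t0 + t1, fun t ht => ?_⟩
    obtain ⟨u, rfl⟩ : ∃ u, t = t0 + u := ⟨t - t0, by omega⟩
    have e : x * y * w ^ (t0 + u) = (x * w ^ t0) * (y * w ^ u) := by
      rw [pow_add]
      ring
    rw [e, pow_add]
    exact Submodule.mul_mem_mul (h3 t0 le_rfl) (h4 u (by omega))

/-- The sets `D(w)`, `w ∈ V ^ m`, are a basis of the topology.  Proof: let `x` generate `V` at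
`A`, `C = CJ V {x}`; `A` is a localization of `C` (`IsPr.isLoc_iff`).  There is `r ∈ C`, `r ≠ 0`,
`r⁻¹ ∈ A` with `B ∈ U` for all localizations `B` of `C` with `r⁻¹ ∈ B`.  Write
`r = w0 / x ^ m'` with `w0 ∈ V ^ m'` and put `w = w0 * x`, `m = m' + 1`.  If `w` generates `V ^ m` at
`B` then `x` generates `V` at `B` (`v / x = v w0 / w`), so `B` is a localization of `C`, `x ^ m`
generates `V ^ m` at `B`, and `w / x ^ m = r` is a unit of `B`. -/
theorem exists_basic (hX : IsCompleteNormal X) (h : IsPr V X) {U : Set (Subalgebra k K)}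
    (hU : Opn X U) {A : Subalgebra k K} (hA : A ∈ X) (hAU : A ∈ U) :
    ∃ m : ℕ, 1 ≤ m ∧ ∃ w, Un (V ^ m) A w ∧ ∀ B ∈ X, Un (V ^ m) B w → B ∈ U := by
  obtain ⟨x, hx⟩ := IsPr.exists_un h hA
  have hZ : ∀ z ∈ ({x} : Set K), z ∈ V ∧ z ≠ 0 := by
    intro z hz
    rw [Set.mem_singleton_iff.1 hz]
    exact ⟨hx.1, hx.2.1⟩
  have hfr := h.isFractionRing hX (Set.finite_singleton x) (Set.singleton_nonempty x) hZ
  have hall : ∀ B, IsLoc (CJ V {x}) B → B ∈ X := fun B hB =>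
    ((h.isLoc_iff hX (Set.finite_singleton x) (Set.singleton_nonempty x) hZ).1 hB).1
  obtain ⟨r, hr, hr0, hrA, hrU⟩ := hU (CJ V {x}) (CJ_fg h.fg (Set.finite_singleton x)) hfr hall A
    (HJ1_isLoc_single hX h hA hx) hAU
  obtain ⟨t0, ht0⟩ := HN2_pow_mul_mem hx.1 hx.2.1 hr
  have hw0 : r * x ^ t0 ∈ V ^ t0 := ht0 t0 le_rfl
  have hx0 := hx.2.1
  have hxm : x ^ (t0 + 1) ≠ 0 := pow_ne_zero _ hx0
  have hwV : r * x ^ (t0 + 1) ∈ V ^ (t0 + 1) := ht0 (t0 + 1) (by omega)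
  have hquot : r * x ^ (t0 + 1) * (x ^ (t0 + 1))⁻¹ = r := by
    field_simp
  refine ⟨t0 + 1, by omega, r * x ^ (t0 + 1), ?_, fun B hB hun => ?_⟩
  · refine (un_iff (hx.pow (t0 + 1)) hwV).2 ?_
    rw [hquot]
    exact ⟨hr0, hrA⟩
  · have hxB : Un V B x := by
      refine ⟨hx.1, hx0, fun v hv => ?_⟩
      have h1 : r * x ^ t0 * v ∈ V ^ (t0 + 1) := by
        rw [pow_succ]
        exact Submodule.mul_mem_mul hw0 hv
      have h2 := hun.2.2 _ h1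
      have e : r * x ^ t0 * v * (r * x ^ (t0 + 1))⁻¹ = v * x⁻¹ := by
        have h3 : x ^ t0 ≠ 0 := pow_ne_zero _ hx0
        rw [pow_succ]
        field_simp
      rwa [e] at h2
    have h4 := ((un_iff (hxB.pow (t0 + 1)) hwV).1 hun).2
    rw [hquot] at h4
    exact hrU B (HJ1_isLoc_single hX h hB hxB) h4

theorem HN2_un_pow {B : Subalgebra k K} {w : K} {a e : ℕ} (he : 1 ≤ e) (hw : w ∈ V ^ a) :
    Un (V ^ (a * e)) B (w ^ e) ↔ Un (V ^ a) B w := by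
  rw [pow_mul]
  exact ⟨fun h => un_of_un_pow he hw h, fun h => h.pow e⟩

/-- Proof: cover `U` by finitely many sets `D(w_i)`, `w_i ∈ V ^ (m_i)` each of them contained in
some `O j` (`exists_basic`, `Opn.quasi_compact`, `opn_un`), let `m = ∏ m_i` and replace `w_i` by
`w_i ^ (m t / m_i)` (`Un.pow`, `un_of_un_pow`). -/
theorem exists_cover (hX : IsCompleteNormal X) (h : IsPr V X) {U : Set (Subalgebra k K)}
    (hU : Opn X U) {σ : Type*} {O : σ → Set (Subalgebra k K)} (hO : ∀ j, Opn X (O j))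
    (hcov : ∀ A ∈ X, A ∈ U → ∃ j, A ∈ O j) :
    ∃ m : ℕ, 1 ≤ m ∧ ∀ t : ℕ, 1 ≤ t → ∃ 𝒲 : Set K, 𝒲.Finite ∧ (∀ w ∈ 𝒲, w ∈ V ^ (m * t)) ∧
      (∀ w ∈ 𝒲, ∃ j, ∀ B ∈ X, Un (V ^ (m * t)) B w → B ∈ O j) ∧
      ∀ A ∈ X, A ∈ U → ∃ w ∈ 𝒲, Un (V ^ (m * t)) A w := by
  classical
  let σ' : Type u := {q : ℕ × K // 1 ≤ q.1 ∧ q.2 ∈ V ^ q.1 ∧
    ∃ j, ∀ B ∈ X, Un (V ^ q.1) B q.2 → B ∈ O j}
  let W : σ' → Set (Subalgebra k K) := fun q => {A | Un (V ^ q.1.1) A q.1.2}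
  have hW : ∀ q, Opn X (W q) := fun q => opn_un (h.fg.pow q.1.1) q.1.2
  have hWU : ∀ A ∈ X, A ∈ U → ∃ q, A ∈ W q := by
    intro A hA hAU
    obtain ⟨j, hj⟩ := hcov A hA hAU
    obtain ⟨m, hm, w, hw, hall⟩ := exists_basic hX h (hO j) hA hj
    exact ⟨⟨(m, w), hm, hw.1, j, hall⟩, hw⟩
  obtain ⟨S, hS⟩ := Opn.quasi_compact hX hW hWU hU
  have hm1 : 1 ≤ ∏ q ∈ S, q.1.1 := Nat.one_le_iff_ne_zero.2
    (Finset.prod_ne_zero_iff.2 fun q _ => Nat.one_le_iff_ne_zero.1 q.2.1)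
  have hfac : ∀ t : ℕ, 1 ≤ t → ∀ q ∈ S, ∃ e : ℕ, 1 ≤ e ∧ (∏ q ∈ S, q.1.1) * t = q.1.1 * e := by
    intro t ht q hq
    obtain ⟨c, hc⟩ := Finset.dvd_prod_of_mem (fun q : σ' => q.1.1) hq
    have hc' : (∏ q ∈ S, q.1.1) = q.1.1 * c := hc
    have hc0 : 1 ≤ c := by
      rcases Nat.eq_zero_or_pos c with h0 | h0
      · rw [h0, mul_zero] at hc'
        omega
      · exact h0
    exact ⟨c * t, Nat.mul_le_mul hc0 ht, by rw [hc', mul_assoc]⟩
  refine ⟨∏ q ∈ S, q.1.1, hm1, fun t ht => ?_⟩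
  choose! e he1 he2 using hfac t ht
  refine ⟨(fun q : σ' => q.1.2 ^ e q) '' (S : Set σ'), S.finite_toSet.image _, ?_, ?_, ?_⟩
  · rintro _ ⟨q, hq, rfl⟩
    have hq' : q ∈ S := hq
    rw [he2 q hq', pow_mul]
    exact Submodule.pow_mem_pow _ q.2.2.1 _
  · rintro _ ⟨q, hq, rfl⟩
    have hq' : q ∈ S := hq
    obtain ⟨j, hj⟩ := q.2.2.2
    refine ⟨j, fun B hB hun => hj B hB ?_⟩
    rw [he2 q hq'] at hun
    exact (HN2_un_pow (he1 q hq') q.2.2.1).1 hun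
  · intro A hA hAU
    obtain ⟨q, hq, hAq⟩ := hS A hA hAU
    refine ⟨_, ⟨q, hq, rfl⟩, ?_⟩
    rw [he2 q hq]
    exact (HN2_un_pow (he1 q hq) q.2.2.1).2 hAq

end Flip28
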