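import Pool.Agent.FlipB_h28.HN2

/-! # The ideal of `S` -/

open scoped KaehlerDifferential

universe u

namespace Flip28

variable {k K : Type u} [Field k] [Field K] [Algebra k K] {X X' : Set (Subalgebra k K)}
  {V V' : Submodule k K}

/-- `NS` version of `QC.exists_pow_smul_mem` -/
theorem QC.exists_pow_smul_mem_NS {E : Type*} [AddCommGroup E] [Module k E] [Module K E]
    [IsScalarTower k K E] {F : Subalgebra k K → Submodule k E} (hF : QC F) {Z : Set K}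
    {z z' : K} (hz : z ∈ Z) (hZ : ∀ w ∈ Z, w ∈ V ∧ w ≠ 0) (hz' : z' ∈ V) (hz0 : z' ≠ 0)
    {p : ℕ} {y : Fin p → K} {l : ℕ} {v : E} (hv : v ∈ NS (F (CJ V (insert z' Z))) y l) :
    ∃ t : ℕ, (z' * z⁻¹) ^ t • v ∈ NS (F (CJ V Z)) y l := by
  obtain ⟨w, hw, rfl⟩ := hv
  have h1 : ∀ a, ∃ t : ℕ, (z' * z⁻¹) ^ t • w a ∈ F (CJ V Z) := fun a =>
    hF.exists_pow_smul_mem hz hZ hz' hz0 (hw a)
  choose t ht using h1
  have hg : z' * z⁻¹ ∈ CJ V Z := mul_inv_mem_CJ hz' hz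
  refine ⟨∑ a, t a, fun a => (z' * z⁻¹) ^ (∑ a, t a) • w a, fun a => ?_, ?_⟩
  · have h2 : t a ≤ ∑ b, t b :=
      Finset.single_le_sum (fun _ _ => Nat.zero_le _) (Finset.mem_univ a)
    obtain ⟨u, hu⟩ := Nat.exists_eq_add_of_le h2
    beta_reduce
    rw [hu, add_comm, pow_add, mul_smul]
    exact hF.stable _ _ (Subalgebra.pow_mem _ hg u) _ (ht a)
  · rw [Finset.smul_sum]
    refine Finset.sum_congr rfl fun a _ => ?_
    rw [smul_comm]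

/-- Proof: `x / w ^ t` with `x ∈ (V ^ m) ^ t`. -/
theorem exists_pow_mul_mem {w : K} (hw : w ∈ V) (hw0 : w ≠ 0) {y : K} (hy : y ∈ CJ V {w}) :
    ∃ t0 : ℕ, ∀ t, t0 ≤ t → y * w ^ t ∈ V ^ t :=
  HN2_pow_mul_mem hw hw0 hy

/-- `f` is the family of generators of the ideal of `S` on the chart `D(w)` -/
def HN3_Typ (X X' : Set (Subalgebra k K)) (V V' : Submodule k K) {p : ℕ} (s : Fin p → K)
    (w : K) (f : Fin p → K) : Prop :=
  ((∀ l, f l = 1) ∧ ∀ B ∈ X, Un V B w → B ∉ SS V' X' s) ∨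
    ∃ g, (∀ l, f l = s l * g⁻¹) ∧ ∀ B ∈ X, Un V B w → B ∈ X' ∧ Un V' B g

section HN3

variable {p : ℕ} {s : Fin p → K}

theorem HN3_mem (hsV : ∀ l, s l ∈ V') {w : K} {f : Fin p → K}
    (hf : HN3_Typ X X' V V' s w f) {B : Subalgebra k K} (hB : B ∈ X) (hun : Un V B w)
    (l : Fin p) : f l ∈ B := by
  rcases hf with ⟨h1, _⟩ | ⟨g, h1, h2⟩
  · rw [h1]
    exact B.one_mem
  · rw [h1]
    exact (h2 B hB hun).2.2.2 _ (hsV l)

theorem HN3_unit (hp : 1 ≤ p) (hsV : ∀ l, s l ∈ V') {w : K} {f : Fin p → K}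
    (hf : HN3_Typ X X' V V' s w f) {B : Subalgebra k K} (hB : B ∈ X) (hun : Un V B w)
    (hBS : B ∉ SS V' X' s) : ∃ l, f l ≠ 0 ∧ (f l)⁻¹ ∈ B := by
  rcases hf with ⟨h1, _⟩ | ⟨g, h1, h2⟩
  · refine ⟨⟨0, hp⟩, ?_⟩
    rw [h1, inv_one]
    exact ⟨one_ne_zero, B.one_mem⟩
  · obtain ⟨h3, h4⟩ := h2 B hB hun
    have h5 : ∃ l, Un V' B (s l) := by
      by_contra hcon
      push Not at hcon
      exact hBS ⟨h3, hcon⟩
    obtain ⟨l, hl⟩ := h5
    refine ⟨l, ?_⟩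
    rw [h1]
    exact (un_iff h4 (hsV l)).1 hl

theorem HN3_S {w : K} {f : Fin p → K} (hf : HN3_Typ X X' V V' s w f) {B : Subalgebra k K}
    (hB : B ∈ X) (hun : Un V B w) (hBS : B ∈ SS V' X' s) :
    ∃ g, (∀ l, f l = s l * g⁻¹) ∧ Un V' B g := by
  rcases hf with ⟨_, h1⟩ | ⟨g, h1, h2⟩
  · exact absurd hBS (h1 B hB hun)
  · exact ⟨g, h1, (h2 B hB hun).2⟩

theorem HN3_NS_S {w : K} {f : Fin p → K} (hf : HN3_Typ X X' V V' s w f) {B : Subalgebra k K}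
    (hB : B ∈ X) (hun : Un V B w) (hBS : B ∈ SS V' X' s) {g0 : K} (hg0 : Un V' B g0) :
    NS (Subalgebra.toSubmodule B) f p =
      NS (Subalgebra.toSubmodule B) (fun l => s l * g0⁻¹) p := by
  obtain ⟨g, h1, h2⟩ := HN3_S hf hB hun hBS
  have hg := h2.2.1
  have hg00 := hg0.2.1
  refine NS_unit (C := B) (fun a ha v hv => B.mul_mem ha hv) (θ := g0 * g⁻¹)
    (mul_ne_zero hg00 (inv_ne_zero hg)) (h2.2.2 _ hg0.1) ?_ (fun l => ?_) p
  · rw [mul_inv, inv_inv, mul_comm]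
    exact hg0.2.2 _ h2.1
  · rw [h1]
    field_simp

theorem HN3_NS_eq (h' : IsPr V' X') (hp : 1 ≤ p) (hsV : ∀ l, s l ∈ V') {w w' : K}
    {f f' : Fin p → K} (hf : HN3_Typ X X' V V' s w f) (hf' : HN3_Typ X X' V V' s w' f')
    {B : Subalgebra k K} (hB : B ∈ X) (hun : Un V B w) (hun' : Un V B w') :
    NS (Subalgebra.toSubmodule B) f p ≤ NS (Subalgebra.toSubmodule B) f' p := by
  by_cases hBS : B ∈ SS V' X' s
  · obtain ⟨g0, hg0⟩ := IsPr.exists_un h' hBS.1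
    rw [HN3_NS_S hf hB hun hBS hg0, HN3_NS_S hf' hB hun' hBS hg0]
  · obtain ⟨l, h0, h1⟩ := HN3_unit hp hsV hf' hB hun' hBS
    intro x hx
    have hx' : x ∈ Subalgebra.toSubmodule B :=
      NS_le (C := B) (fun a ha v hv => B.mul_mem ha hv) (HN3_mem hsV hf hB hun) p hx
    exact NS_of_unit (C := B) (fun a ha v hv => B.mul_mem ha hv) l.2 h0 h1 hx'

theorem HN3_self (C : Subalgebra k K) (y : Fin p → K) (l : Fin p) :
    y l ∈ NS (Subalgebra.toSubmodule C) y p := by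
  classical
  refine ⟨fun b => if b = l then 1 else 0, fun b => ?_, ?_⟩
  · beta_reduce
    split_ifs
    · exact C.one_mem
    · exact C.zero_mem
  · rw [Finset.sum_eq_single l]
    · beta_reduce
      rw [if_pos rfl, smul_eq_mul, mul_one]
    · intro b _ hb
      beta_reduce
      rw [if_neg hb, smul_zero]
    · intro h
      exact absurd (Finset.mem_filter.2 ⟨Finset.mem_univ l, l.2⟩) h

theorem HN3_glob (hX : IsCompleteNormal X) (h : IsPr V X) (h' : IsPr V' X') (hp : 1 ≤ p)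
    (hsV : ∀ l, s l ∈ V') {w w' : K} (hw : w ∈ V ∧ w ≠ 0) (hw' : w' ∈ V ∧ w' ≠ 0)
    {f f' : Fin p → K} (hf : HN3_Typ X X' V V' s w f) (hf' : HN3_Typ X X' V V' s w' f')
    (l : Fin p) : f l ∈ NS (Subalgebra.toSubmodule (CJ V (insert w {w'}))) f' p := by
  have hZ : ∀ z ∈ (insert w {w'} : Set K), z ∈ V ∧ z ≠ 0 := by
    intro z hz
    rcases hz with hz | hz
    · rw [hz]
      exact hw
    · rw [Set.mem_singleton_iff.1 hz]
      exact hw'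
  refine (IsPr.mem_NS_iff hX h QC_self ((Set.finite_singleton w').insert w)
    (Set.insert_nonempty _ _) hZ).2 fun B hB hun => ?_
  have h1 : Un V B w := hun w (Set.mem_insert _ _)
  have h2 : Un V B w' := hun w' (Set.mem_insert_of_mem _ rfl)
  exact HN3_NS_eq h' hp hsV hf hf' hB h1 h2 (HN3_self B f l)

theorem HN3_ev (hX : IsCompleteNormal X) (h : IsPr V X) (hsV : ∀ l, s l ∈ V') {w : K}
    (hw : w ∈ V ∧ w ≠ 0) {f : Fin p → K} (hf : HN3_Typ X X' V V' s w f) (l : Fin p) :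
    ∀ᶠ t : ℕ in Filter.atTop, f l * w ^ t ∈ V ^ t := by
  have hZ : ∀ z ∈ ({w} : Set K), z ∈ V ∧ z ≠ 0 := by
    intro z hz
    rw [Set.mem_singleton_iff.1 hz]
    exact hw
  have h1 : f l ∈ Subalgebra.toSubmodule (CJ V {w}) :=
    (IsPr.mem_iff hX h QC_self (Set.finite_singleton w) (Set.singleton_nonempty w) hZ).2
      fun B hB hun => HN3_mem hsV hf hB (hun w rfl) l
  obtain ⟨t0, ht0⟩ := exists_pow_mul_mem hw.1 hw.2 (y := f l) h1
  exact Filter.eventually_atTop.2 ⟨t0, ht0⟩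

theorem HN3_ev' (hX : IsCompleteNormal X) (h : IsPr V X) (h' : IsPr V' X') (hp : 1 ≤ p)
    (hsV : ∀ l, s l ∈ V') {w w' : K} (hw : w ∈ V ∧ w ≠ 0) (hw' : w' ∈ V ∧ w' ≠ 0)
    {f f' : Fin p → K} (hf : HN3_Typ X X' V V' s w f) (hf' : HN3_Typ X X' V V' s w' f')
    (l : Fin p) : ∀ᶠ t : ℕ in Filter.atTop,
      (w * w'⁻¹) ^ t * f l ∈ NS (Subalgebra.toSubmodule (CJ V {w'})) f' p := by
  have hZ : ∀ z ∈ ({w'} : Set K), z ∈ V ∧ z ≠ 0 := by
    intro z hz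
    rw [Set.mem_singleton_iff.1 hz]
    exact hw'
  have hglob := HN3_glob hX h h' hp hsV hw hw' hf hf' l
  have h0 : ∃ t : ℕ, (w * w'⁻¹) ^ t • f l ∈ NS (Subalgebra.toSubmodule (CJ V {w'})) f' p :=
    QC.exists_pow_smul_mem_NS (V := V) (E := K) (F := fun C => Subalgebra.toSubmodule C)
      (QC_self (k := k) (K := K)) (Z := {w'}) (z := w') (z' := w) (Set.mem_singleton w') hZ hw.1
      hw.2 (y := f') (l := p) (v := f l) hglob
  obtain ⟨t0, ht0⟩ := h0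
  refine Filter.eventually_atTop.2 ⟨t0, fun t ht => ?_⟩
  obtain ⟨u, rfl⟩ : ∃ u, t = u + t0 := ⟨t - t0, by omega⟩
  have h1 : (w * w'⁻¹) ^ u ∈ CJ V {w'} :=
    Subalgebra.pow_mem _ (mul_inv_mem_CJ hw.1 (Set.mem_singleton w')) u
  have h2 := NS_stable (C := CJ V {w'}) (N := Subalgebra.toSubmodule (CJ V {w'}))
    (fun a ha v hv => (CJ V {w'}).mul_mem ha hv) f' p _ h1 _ ht0
  have e : (w * w'⁻¹) ^ (u + t0) * f l = (w * w'⁻¹) ^ u • ((w * w'⁻¹) ^ t0 • f l) := by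
    rw [pow_add, mul_assoc]
    rfl
  rw [e]
  exact h2

/-- the sections of the ideal of `S` -/
def HN3_J (V : Submodule k K) (𝒲 : Set K) (f : K → Fin p → K) (t : ℕ) : Submodule k K where
  carrier := {x | x ∈ V ^ t ∧ ∀ w ∈ 𝒲,
    x * (w ^ t)⁻¹ ∈ NS (Subalgebra.toSubmodule (CJ V {w})) (f w) p}
  add_mem' := by
    rintro x y ⟨hx, hx'⟩ ⟨hy, hy'⟩
    refine ⟨Submodule.add_mem _ hx hy, fun w hw => ?_⟩
    rw [add_mul]
    exact Submodule.add_mem _ (hx' w hw) (hy' w hw)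
  zero_mem' := by
    refine ⟨Submodule.zero_mem _, fun w _ => ?_⟩
    rw [zero_mul]
    exact Submodule.zero_mem _
  smul_mem' := by
    rintro c x ⟨hx, hx'⟩
    refine ⟨Submodule.smul_mem _ c hx, fun w hw => ?_⟩
    rw [smul_mul_assoc]
    exact Submodule.smul_mem _ c (hx' w hw)

theorem HN3_main (hX : IsCompleteNormal X) (h : IsPr V X) (h' : IsPr V' X') (hp : 1 ≤ p)
    (hsV : ∀ l, s l ∈ V') (hsub : ∀ A ∈ SS V' X' s, A ∈ X) {𝒲 : Set K} (hfin : 𝒲.Finite)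
    (hV : ∀ w ∈ 𝒲, w ∈ V ∧ w ≠ 0) (hcov : ∀ A ∈ X, ∃ w ∈ 𝒲, Un V A w) (f : K → Fin p → K)
    (hf : ∀ w ∈ 𝒲, HN3_Typ X X' V V' s w (f w)) :
    ∃ t0, 1 ≤ t0 ∧ ∀ t, t0 ≤ t → JData X X' (V ^ t) V' s (HN3_J V 𝒲 f t) ∧
      CData X X' (V ^ t) V' s ((fun w => w ^ t) '' 𝒲) := by
  have hev1 : ∀ᶠ t : ℕ in Filter.atTop, ∀ w ∈ 𝒲, ∀ l, f w l * w ^ t ∈ V ^ t := by
    rw [Filter.eventually_all_finite hfin]
    intro w hw
    rw [Filter.eventually_all]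
    exact fun l => HN3_ev hX h hsV (hV w hw) (hf w hw) l
  have hev2 : ∀ᶠ t : ℕ in Filter.atTop, ∀ w ∈ 𝒲, ∀ w' ∈ 𝒲, ∀ l,
      (w * w'⁻¹) ^ t * f w l ∈ NS (Subalgebra.toSubmodule (CJ V {w'})) (f w') p := by
    rw [Filter.eventually_all_finite hfin]
    intro w hw
    rw [Filter.eventually_all_finite hfin]
    intro w' hw'
    rw [Filter.eventually_all]
    exact fun l => HN3_ev' hX h h' hp hsV (hV w hw) (hV w' hw') (hf w hw) (hf w' hw') l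
  obtain ⟨t0, ht0⟩ := Filter.eventually_atTop.1 (hev1.and hev2)
  refine ⟨t0 + 1, by omega, fun t ht => ?_⟩
  obtain ⟨h1, h2⟩ := ht0 t (by omega)
  have hJ : ∀ w ∈ 𝒲, ∀ l, f w l * w ^ t ∈ HN3_J V 𝒲 f t := by
    intro w hw l
    refine ⟨h1 w hw l, fun w' hw' => ?_⟩
    have h3 := h2 w hw w' hw' l
    have e : (w * w'⁻¹) ^ t * f w l = f w l * w ^ t * (w' ^ t)⁻¹ := by
      rw [mul_pow, inv_pow]
      ring
    rwa [e] at h3
  refine ⟨⟨fun x hx => hx.1, ?_, ?_, ?_⟩, ⟨hfin.image _, ?_, ?_, ?_⟩⟩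
  · intro A hA hAS
    obtain ⟨w, hw, hun⟩ := hcov A hA
    obtain ⟨l, h3, h4⟩ := HN3_unit hp hsV (hf w hw) hA hun hAS
    refine ⟨f w l * w ^ t, hJ w hw l, (un_iff (hun.pow t) (h1 w hw l)).2 ?_⟩
    have hw0 : w ^ t ≠ 0 := pow_ne_zero t (hV w hw).2
    rw [mul_assoc, mul_inv_cancel₀ hw0, mul_one]
    exact ⟨h3, h4⟩
  · intro A hAS x g hx hg z hz
    have hA := hsub A hAS
    obtain ⟨w, hw, hun⟩ := hcov A hA
    have h3 := hz.2 w hw
    have hCA : CJ V {w} ≤ A := (CJ_le_iff (by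
      intro z hz
      rw [Set.mem_singleton_iff.1 hz]
      exact hV w hw)).2 (by
      intro z hz
      rw [Set.mem_singleton_iff.1 hz]
      exact hun)
    have h4 : z * (w ^ t)⁻¹ ∈ NS (Subalgebra.toSubmodule A) (f w) p :=
      NS_mono (Subalgebra.toSubmodule.monotone hCA) (f w) p h3
    rw [HN3_NS_S (hf w hw) hA hun hAS hg] at h4
    have hw0 : w ^ t ≠ 0 := pow_ne_zero t (hV w hw).2
    have e : z * x⁻¹ = (w ^ t * x⁻¹) * (z * (w ^ t)⁻¹) := by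
      field_simp
    rw [e]
    exact NS_stable (C := A) (fun a ha v hv => A.mul_mem ha hv) _ p _
      (hx.2.2 _ (hun.pow t).1) _ h4
  · intro A hAS x g hx hg l
    have hA := hsub A hAS
    obtain ⟨w, hw, hun⟩ := hcov A hA
    obtain ⟨g', h3, h4⟩ := HN3_S (hf w hw) hA hun hAS
    have hw0 : w ^ t ≠ 0 := pow_ne_zero t (hV w hw).2
    have hx0 := hx.2.1
    have hg0 := hg.2.1
    have hg0' := h4.2.1
    refine ⟨f w l * w ^ t, hJ w hw l, (g' * g⁻¹) * (x * (w ^ t)⁻¹),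
      A.mul_mem (hg.2.2 _ h4.1) ((hun.pow t).2.2 _ hx.1), ?_⟩
    rw [h3]
    field_simp
  · rintro _ ⟨w, hw, rfl⟩
    exact Submodule.pow_mem_pow V (hV w hw).1 t
  · intro A hA
    obtain ⟨w, hw, hun⟩ := hcov A hA
    exact ⟨w ^ t, ⟨w, hw, rfl⟩, hun.pow t⟩
  · rintro _ ⟨w, hw, rfl⟩
    have h5 : ∀ A, Un (V ^ t) A (w ^ t) → Un V A w := fun A hA =>
      un_of_un_pow (by omega) (hV w hw).1 hA
    rcases hf w hw with ⟨_, h6⟩ | ⟨g, _, h6⟩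
    · exact Or.inr fun A hA hun => h6 A hA (h5 A hun)
    · exact Or.inl ⟨g, fun A hA hun => h6 A hA (h5 A hun)⟩

end HN3

/-- (IV.3) of the paper proof.  By `exists_cover` (for the open sets `Sᶜ` (`opn_compl_SS`) and
`{B | B ∈ X' ∧ Un V' B g}`, `g ∈ V'` (`opn_model`, `opn_un`, `Opn.inter`), `U = X`) there are
`m ≥ 1` and (for `t = 1`) finitely many `w_b ∈ V ^ m` covering `X`, each of type N: `D(w_b)` does
not meet `S`, or of type S: there is `g_b` with `B ∈ X'`, `Un V' B g_b` for all `B ∈ X` with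
`Un (V ^ m) B w_b`.  Let `C_b = CJ (V ^ m) {w_b}`, `f^b_l = s_l / g_b` in type S (it is in `C_b` by
`IsPr.mem_iff` for `QC_self`), `f^b_l = 1` in type N, and `𝔞_b = NS C_b f^b p`.  For `b, b'` the
ideals `NS C f^b p` and `NS C f^b' p` of `C = CJ (V ^ m) {w_b, w_b'}` are equal
(`IsPr.mem_NS_iff`: locally at `B ∈ S` both are of type S and `g_b / g_b'` is a unit; at `B ∉ S`
both contain a unit: `NS_of_unit`).  Put `J = {h ∈ V ^ (m t) | h / w_b ^ t ∈ 𝔞_b for all b}`.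
For `t` large `f^b_l w_b ^ t ∈ J` for all `b, l`: it is in `V ^ (m t)` by `exists_pow_mul_mem` (for
`V ^ m`), and `f^b_l (w_b / w_b') ^ t ∈ 𝔞_b'` by `QC.exists_pow_smul_mem_NS`, since
`f^b_l ∈ NS C f^b p = NS C f^b' p`.
`gen`: if `A ∉ S`, let `w_b` generate at `A`; some `f^b_l` is a unit at `A`.
`sub`: if `A ∈ S` and `w_b` generates at `A`, then `b` is of type S, `g_b / g` and `x / w_b ^ t`
are units at `A`, and `h / w_b ^ t ∈ 𝔞_b`.
`gen'`: `s_l / g = (g_b / g) (x / w_b ^ t) (f^b_l w_b ^ t / x)`.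
`CData`: the set of the `w_b ^ t` (`Un.pow`, `un_of_un_pow`). -/
theorem exists_ideal (hX : IsCompleteNormal X) (hX' : IsCompleteNormal X') (h : IsPr V X)
    (h' : IsPr V' X') {p : ℕ} (hp : 1 ≤ p) {s : Fin p → K} (hsV : ∀ l, s l ∈ V')
    (hsub : ∀ A ∈ SS V' X' s, A ∈ X) :
    ∃ m : ℕ, 1 ≤ m ∧ ∃ t0 : ℕ, 1 ≤ t0 ∧ ∀ t : ℕ, t0 ≤ t →
      (∃ J, JData X X' (V ^ (m * t)) V' s J) ∧ ∃ 𝒲, CData X X' (V ^ (m * t)) V' s 𝒲 := by
  let O : Option K → Set (Subalgebra k K) := fun j =>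
    j.elim (SS V' X' s)ᶜ (fun g => X' ∩ {B | Un V' B g})
  have hO : ∀ j, Opn X (O j) := by
    rintro (_ | g)
    · exact opn_compl_SS hX hX' h' hsub
    · exact (opn_model hX').inter (opn_un h'.fg g)
  have hcov : ∀ A ∈ X, A ∈ Set.univ → ∃ j, A ∈ O j := by
    intro A _ _
    by_cases hAS : A ∈ SS V' X' s
    · obtain ⟨g, hg⟩ := IsPr.exists_un h' hAS.1
      exact ⟨some g, hAS.1, hg⟩
    · exact ⟨none, hAS⟩
  obtain ⟨m, hm, hall⟩ := exists_cover hX h HN2_univ hO hcov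
  obtain ⟨𝒲, hfin, hWV, htyp, hcW⟩ := hall 1 le_rfl
  rw [mul_one] at hWV htyp hcW
  choose! j hj using htyp
  let f : K → Fin p → K := fun w => (j w).elim (fun _ => 1) (fun g l => s l * g⁻¹)
  have hf : ∀ w ∈ 𝒲, HN3_Typ X X' (V ^ m) V' s w (f w) := by
    intro w hw
    have h1 := hj w hw
    have h2 : f w = (j w).elim (fun _ => 1) (fun g l => s l * g⁻¹) := rfl
    rw [h2]
    cases hjw : j w with
    | none =>
      rw [hjw] at h1
      exact Or.inl ⟨fun _ => rfl, h1⟩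
    | some g =>
      rw [hjw] at h1
      exact Or.inr ⟨g, fun _ => rfl, h1⟩
  obtain ⟨t0, ht0, h1⟩ := HN3_main hX (h.pow hX hm) h' hp hsV hsub
    (𝒲 := {w | w ∈ 𝒲 ∧ w ≠ 0}) (hfin.subset fun w hw => hw.1)
    (fun w hw => ⟨hWV w hw.1, hw.2⟩) (fun A hA => by
      obtain ⟨w, hw, hun⟩ := hcW A hA (Set.mem_univ A)
      exact ⟨w, ⟨hw, hun.2.1⟩, hun⟩) f (fun w hw => hf w hw.1)
  refine ⟨m, hm, t0, ht0, fun t ht => ?_⟩
  rw [pow_mul]
  exact ⟨⟨_, (h1 t ht).1⟩, _, (h1 t ht).2⟩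

end Flip28
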