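import Mathlib

/-! # Exchange of generators modulo the maximal ideal -/

namespace Flip28

open IsLocalRing

theorem HO1_exch {A : Type*} [CommRing A] {p : ℕ} (g : Fin p → A) (l : Fin p) (x : A)
    (c : Fin p → A) (hx : ∑ j, c j * g j = x) (hc : IsUnit (c l)) :
    Ideal.span (Set.range (Function.update g l x)) = Ideal.span (Set.range g) := by
  apply le_antisymm
  · rw [Ideal.span_le]
    rintro _ ⟨j, rfl⟩
    by_cases hj : j = l
    · subst hj
      rw [Function.update_self, ← hx]
      exact Ideal.sum_mem _ fun i _ => Ideal.mul_mem_left _ _ (Ideal.subset_span ⟨i, rfl⟩)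
    · rw [Function.update_of_ne hj]
      exact Ideal.subset_span ⟨j, rfl⟩
  · rw [Ideal.span_le]
    rintro _ ⟨j, rfl⟩
    by_cases hj : j = l
    · subst hj
      obtain ⟨u, hu⟩ := hc
      have h1 : g j = (↑u⁻¹ : A) * (x - ∑ i ∈ Finset.univ.erase j, c i * g i) := by
        rw [← hx, ← Finset.add_sum_erase _ _ (Finset.mem_univ j), ← hu, add_sub_cancel_right,
          Units.inv_mul_cancel_left]
      rw [h1]
      refine Ideal.mul_mem_left _ _ (Ideal.sub_mem _ ?_ (Ideal.sum_mem _ fun i hi => ?_))
      · exact Ideal.subset_span ⟨j, Function.update_self _ _ _⟩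
      · exact Ideal.mul_mem_left _ _ (Ideal.subset_span
          ⟨i, Function.update_of_ne (Finset.ne_of_mem_erase hi) _ _⟩)
    · exact Ideal.subset_span ⟨j, Function.update_of_ne hj _ _⟩

/-- Proof: by induction on `l ≤ p` the ideal `(f)` is generated by `h_0, ..., h_{l-1}` and `p - l`
of the `f_i` (a subset `S_l` of the indices with `p - l` elements).  Step: write
`h_l = ∑_{i < l} c_i h_i + ∑_{j ∈ S_l} c_j f_j`; by hypothesis some `c_j`, `j ∈ S_l`, is not in the
maximal ideal, so `f_j` is in the ideal generated by `h_0, ..., h_l` and the other `f_i`. -/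
theorem HO1_span_eq {A : Type*} [CommRing A] [IsLocalRing A] {p : ℕ} (f h : Fin p → A)
    (hf : ∀ i, h i ∈ Ideal.span (Set.range f))
    (hl : ∀ l : Fin p, h l ∉ Ideal.span (h '' {i | i < l}) ⊔
      maximalIdeal A * Ideal.span (Set.range f)) :
    Ideal.span (Set.range h) = Ideal.span (Set.range f) := by
  have key : ∀ n : ℕ, n ≤ p → ∃ g : Fin p → A, (∀ i : Fin p, i.val < n → g i = h i) ∧
      Ideal.span (Set.range g) = Ideal.span (Set.range f) := by
    intro n
    induction n with
    | zero =>
      intro _
      exact ⟨f, fun i hi => absurd hi (Nat.not_lt_zero _), rfl⟩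
    | succ n ih =>
      intro hn
      obtain ⟨g, hg1, hg2⟩ := ih (by omega)
      set l : Fin p := ⟨n, by omega⟩ with hl0
      have h1 : h l ∈ Ideal.span (Set.range g) := by
        rw [hg2]
        exact hf l
      rw [Ideal.mem_span_range_iff_exists_fun] at h1
      obtain ⟨c, hc⟩ := h1
      have h2 : ∃ i : Fin p, l ≤ i ∧ IsUnit (c i) := by
        by_contra hcon
        push Not at hcon
        apply hl l
        rw [← hc]
        refine Ideal.sum_mem _ fun i _ => ?_
        rcases lt_or_ge i l with hi | hi
        · refine Ideal.mem_sup_left (Ideal.mul_mem_left _ _ (Ideal.subset_span ⟨i, hi, ?_⟩))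
          exact (hg1 i hi).symm
        · refine Ideal.mem_sup_right (Ideal.mul_mem_mul ?_ ?_)
          · exact (mem_maximalIdeal _).2 (hcon i hi)
          · rw [← hg2]
            exact Ideal.subset_span ⟨i, rfl⟩
      obtain ⟨i, hi, hci⟩ := h2
      have h3 : Ideal.span (Set.range (Function.update (g ∘ Equiv.swap l i) l (h l))) =
          Ideal.span (Set.range (g ∘ Equiv.swap l i)) := by
        refine HO1_exch _ l (h l) (c ∘ Equiv.swap l i) ?_ ?_
        · rw [← hc]
          exact Equiv.sum_comp (Equiv.swap l i) (fun j => c j * g j)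
        · simpa using hci
      refine ⟨Function.update (g ∘ Equiv.swap l i) l (h l), fun j hj => ?_, ?_⟩
      · by_cases hjl : j = l
        · subst hjl
          rw [Function.update_self]
        · rw [Function.update_of_ne hjl, Function.comp_apply]
          have hjn : j.val < n := by
            have : j.val ≠ n := fun h => hjl (Fin.ext h)
            omega
          have hji : j ≠ i := by
            rintro rfl
            have : n ≤ j.val := hi
            omega
          rw [Equiv.swap_apply_of_ne_of_ne hjl hji]
          exact hg1 j hjn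
      · rw [h3, Set.range_comp, Equiv.range_eq_univ, Set.image_univ, hg2]
  obtain ⟨g, hg1, hg2⟩ := key p le_rfl
  have : g = h := funext fun i => hg1 i i.2
  rw [← this, hg2]

/-- Nakayama -/
theorem HO1_nakayama {A : Type*} [CommRing A] [IsLocalRing A] {p : ℕ} (f : Fin p → A)
    (I : Ideal A) (h : ∀ i, f i ∈ I ⊔ maximalIdeal A * Ideal.span (Set.range f)) :
    ∀ i, f i ∈ I := by
  have h1 : Ideal.span (Set.range f) ≤ I := by
    refine Submodule.le_of_le_smul_of_le_jacobson_bot (I := maximalIdeal A)
      (Submodule.fg_span (Set.finite_range f)) (IsLocalRing.maximalIdeal_le_jacobson ⊥) ?_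
    rw [Submodule.span_le]
    rintro _ ⟨i, rfl⟩
    exact h i
  exact fun i => h1 (Ideal.subset_span ⟨i, rfl⟩)

end Flip28
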