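import Pool.Agent.FlipB_h28.HO1
import Pool.Agent.FlipB_h28.HN1
import Pool.Agent.FlipB_h28.HN2

/-! # Choice of the sections `h` -/

open scoped KaehlerDifferential

universe u

namespace Flip28

variable {k K : Type u} [Field k] [Field K] [Algebra k K] [CharZero k]
  [Algebra.EssFiniteType k K] {X X' : Set (Subalgebra k K)} {V V' : Submodule k K} {n p d : ℕ}

set_option linter.unusedSectionVars false

theorem HO2_max {A : Subalgebra k K} [IsLocalRing A] (a : A) :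
    a ∈ IsLocalRing.maximalIdeal A ↔ (a : K) = 0 ∨ (a : K)⁻¹ ∉ A := by
  rw [IsLocalRing.mem_maximalIdeal, mem_nonunits_iff, LocAlg_unit, not_and_or, not_not]

theorem HO2_chart (hX : IsCompleteNormal X) {A : Subalgebra k K} (hA : A ∈ X) :
    ∃ R : Subalgebra k K, R.FG ∧ IsFractionRing R K ∧ IsLoc R A := by
  obtain ⟨C, hC, hC2, hX2⟩ := hX.charts
  obtain ⟨R, hR, hRA⟩ := (hX2 A).1 hA
  exact ⟨R, (hC2 R hR).1, (hC2 R hR).2, hRA⟩

theorem HO2_NS_congr {E : Type*} [AddCommGroup E] [Module k E] [Module K E]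
    [IsScalarTower k K E] {N : Submodule k E} {m : ℕ} {y y' : Fin m → K} {l : ℕ}
    (h : ∀ a : Fin m, (a : ℕ) < l → y a = y' a) : NS N y l = NS N y' l := by
  have key : ∀ {y y' : Fin m → K}, (∀ a : Fin m, (a : ℕ) < l → y a = y' a) →
      NS N y l ≤ NS N y' l := by
    rintro y y' h v ⟨w, hw, e⟩
    refine ⟨w, hw, ?_⟩
    rw [e]
    refine Finset.sum_congr rfl fun a ha => ?_
    rw [h a (Finset.mem_filter.1 ha).2]
  exact le_antisymm (key h) (key fun a ha => (h a ha).symm)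

theorem HO2_NS_span {A : Subalgebra k K} {m : ℕ} (y : Fin m → A) (l : ℕ) (a : A) :
    (a : K) ∈ NS (Subalgebra.toSubmodule A) (fun i => (y i : K)) l ↔
      a ∈ Ideal.span (y '' {i : Fin m | (i : ℕ) < l}) := by
  constructor
  · rintro ⟨w, hw, e⟩
    have e2 : a = ∑ i ∈ Finset.univ.filter (fun i : Fin m => (i : ℕ) < l),
        (⟨w i, hw i⟩ : A) * y i := by
      apply Subtype.ext
      rw [e, AddSubmonoidClass.coe_finsetSum]
      exact Finset.sum_congr rfl fun i _ => mul_comm _ _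
    rw [e2]
    exact Ideal.sum_mem _ fun i hi => Ideal.mul_mem_left _ _
      (Ideal.subset_span ⟨i, (Finset.mem_filter.1 hi).2, rfl⟩)
  · intro h
    have h2 : Ideal.span (y '' {i : Fin m | (i : ℕ) < l}) ≤ HG3_J A (fun i => (y i : K)) l := by
      refine Ideal.span_le.2 ?_
      rintro _ ⟨i, hi, rfl⟩
      have := HG3_smul_mem (y := fun i => (y i : K)) (l := l)
        (N := Subalgebra.toSubmodule A) (w := (1 : K)) A.one_mem i hi
      rw [smul_eq_mul, mul_one] at this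
      exact this
    exact h2 h

/-- the sections `s` at a point of `S` -/
theorem HO2_f (hX : IsCompleteNormal X) {P : Subalgebra k K} {s : Fin p → K}
    (hs : SData X X' V' n s P) {A : Subalgebra k K} (hA : A ∈ SS V' X' s) {g : K}
    (hg : Un V' A g) : (∀ i, s i * g⁻¹ ∈ A) ∧ ∀ i, (s i * g⁻¹)⁻¹ ∉ A := by
  obtain ⟨R, hR, hRK, hRA⟩ := HO2_chart hX (hs.mem A hA)
  have hloc : IsLocalRing A := hRA.2.1
  have h1 : ∀ i, s i * g⁻¹ ∈ A := fun i => hg.2.2 _ (hs.sV i)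
  have h2 : ∀ i, s i * g⁻¹ = 0 ∨ (s i * g⁻¹)⁻¹ ∉ A := by
    intro i
    by_contra hcon
    push Not at hcon
    exact hA.2 i ((un_iff hg (hs.sV i)).2 hcon)
  have h3 : Ideal.span (Set.range fun i => (⟨s i * g⁻¹, h1 i⟩ : A)) ≤
      IsLocalRing.maximalIdeal A := by
    rw [Ideal.span_le]
    rintro _ ⟨i, rfl⟩
    exact (HO2_max _).2 (h2 i)
  refine ⟨h1, fun i hi => ?_⟩
  rcases h2 i with h4 | h4
  · have h5 := hs.reg A hA g hg i i.2 1 A.one_mem (by
      show (s i * g⁻¹) • (1 : K) ∈ _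
      rw [h4, zero_smul]
      exact Submodule.zero_mem _)
    have h6 := NS_le_of_le (fun l => s l * g⁻¹) i.2.le h5
    have h7 := (mem_NS_iff_span (A := A) (fun i => ⟨s i * g⁻¹, h1 i⟩) 1).1 h6
    exact (Ideal.ne_top_iff_one _).1 (IsLocalRing.maximalIdeal.isMaximal A).ne_top (h3 h7)
  · exact h4 hi

/-- There are finitely many points `A ≤ P` of `S`.  Proof: `finite_of_opn` for the open set of
the `A` with `A ∉ S` or `¬ A ≤ P` (`opn_compl_SS`, `opn_not_le`); all these points have dimension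
`n`. -/
theorem HO2_finite (b : Module.Basis (Fin n) K Ω[K⁄k]) (hX : IsCompleteNormal X)
    (hX' : IsCompleteNormal X') (h' : IsPr V' X') {P : Subalgebra k K} {s : Fin p → K}
    (hs : SData X X' V' n s P) : {A | A ∈ SS V' X' s ∧ A ≤ P}.Finite := by
  have h1 : Opn X ((SS V' X' s)ᶜ ∪ {A | ¬ A ≤ P}) :=
    (opn_compl_SS hX hX' h' hs.mem).union (opn_not_le P)
  have h2 : ∀ A, A ∉ ((SS V' X' s)ᶜ ∪ {A | ¬ A ≤ P} : Set (Subalgebra k K)) ↔
      A ∈ SS V' X' s ∧ A ≤ P := by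
    intro A
    rw [Set.mem_union, not_or, Set.mem_compl_iff, not_not]
    exact and_congr_right fun _ => not_not
  refine (finite_of_opn hX h1 (e := n) fun A _ hA => ?_).subset fun A hA => ?_
  · rw [h2] at hA
    exact (hs.dim A hA.1 hA.2).ge
  · exact ⟨hs.mem A hA.1, (h2 A).2 hA, hs.dim A hA.1 hA.2⟩

/-- At a point `A ∈ S`: if `h₁, ..., h_l` (`l < p`) are in `J` and regular for `FC p A`, then there is
a proper subspace `U` of `J` containing all `z ∈ J` with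
`z / x ∈ (h₁ / x, ..., h_l / x) A + 𝔪 (s / g) A`.  Proof: if every `z ∈ J` has this property then
by `JData.gen'` every `s_j / g` is in `(h₁ / x, ..., h_l / x) + 𝔪 (s / g)`, so in
`(h₁ / x, ..., h_l / x)` by `HO1_nakayama`; this contradicts `not_gen` (`IsCoord.freg_iff` for the
regularity in `A`, `exists_coord`). -/
theorem HO2_proper (b : Module.Basis (Fin n) K Ω[K⁄k]) (hX : IsCompleteNormal X)
    (hpd : p + d = n) {P : Subalgebra k K} {s : Fin p → K}
    (hs : SData X X' V' n s P) {J : Submodule k K} (hJ : JData X X' V V' s J)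
    {A : Subalgebra k K} (hA : A ∈ SS V' X' s) {x g : K} (hx : Un V A x) (hg : Un V' A g)
    {hh : Fin p → K} (hhJ : ∀ a, hh a ∈ J) {l : ℕ} (hl : l < p)
    (hreg : FReg (FC p A) (fun a => hh a * x⁻¹) l) :
    ∃ U : Submodule k K, ¬ J ≤ U ∧ ∀ z ∈ J, ∀ (hz : z * x⁻¹ ∈ A) (hha : ∀ a, hh a * x⁻¹ ∈ A)
      (hsa : ∀ a, s a * g⁻¹ ∈ A) (hloc : IsLocalRing A),
      (⟨z * x⁻¹, hz⟩ : A) ∈ Ideal.span ((fun a => (⟨hh a * x⁻¹, hha a⟩ : A)) ''
        {a : Fin p | (a : ℕ) < l}) ⊔ IsLocalRing.maximalIdeal A *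
        Ideal.span (Set.range (fun a => (⟨s a * g⁻¹, hsa a⟩ : A))) → z ∈ U := by
  obtain ⟨R, hR, hRK, hRA⟩ := HO2_chart hX (hs.mem A hA)
  have hloc : IsLocalRing A := hRA.2.1
  obtain ⟨hsa, hsa'⟩ := HO2_f hX hs hA hg
  have hha : ∀ a, hh a * x⁻¹ ∈ A := fun a => hx.2.2 _ (hJ.le (hhJ a))
  obtain ⟨I, hI⟩ : ∃ I : Ideal A, I = Ideal.span ((fun a => (⟨hh a * x⁻¹, hha a⟩ : A)) ''
        {a : Fin p | (a : ℕ) < l}) ⊔ IsLocalRing.maximalIdeal A *
        Ideal.span (Set.range (fun a => (⟨s a * g⁻¹, hsa a⟩ : A))) := ⟨_, rfl⟩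
  let U : Submodule k K :=
    { carrier := {z | ∃ hz : z * x⁻¹ ∈ A, (⟨z * x⁻¹, hz⟩ : A) ∈ I}
      add_mem' := by
        rintro z z' ⟨h1, h2⟩ ⟨h1', h2'⟩
        have e : (z + z') * x⁻¹ = z * x⁻¹ + z' * x⁻¹ := add_mul _ _ _
        refine ⟨by rw [e]; exact A.add_mem h1 h1', ?_⟩
        have e2 : (⟨(z + z') * x⁻¹, by rw [e]; exact A.add_mem h1 h1'⟩ : A) =
            ⟨z * x⁻¹, h1⟩ + ⟨z' * x⁻¹, h1'⟩ := Subtype.ext e
        rw [e2]
        exact I.add_mem h2 h2'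
      zero_mem' := by
        have e : (0 : K) * x⁻¹ = 0 := zero_mul _
        refine ⟨by rw [e]; exact A.zero_mem, ?_⟩
        have e2 : (⟨(0 : K) * x⁻¹, by rw [e]; exact A.zero_mem⟩ : A) = 0 := Subtype.ext e
        rw [e2]
        exact I.zero_mem
      smul_mem' := by
        rintro c z ⟨h1, h2⟩
        have e : (c • z) * x⁻¹ = algebraMap k K c * (z * x⁻¹) := by
          rw [Algebra.smul_def, mul_assoc]
        refine ⟨by rw [e]; exact A.mul_mem (A.algebraMap_mem c) h1, ?_⟩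
        have e2 : (⟨(c • z) * x⁻¹, by rw [e]; exact A.mul_mem (A.algebraMap_mem c) h1⟩ : A) =
            (⟨algebraMap k K c, A.algebraMap_mem c⟩ : A) * ⟨z * x⁻¹, h1⟩ := Subtype.ext e
        rw [e2]
        exact I.mul_mem_left _ h2 }
  refine ⟨U, ?_, fun z _ hz1 hha1 hsa1 hloc1 hmem => ⟨hz1, ?_⟩⟩
  · intro hle
    have hfa : ∀ i, (⟨s i * g⁻¹, hsa i⟩ : A) ∈ I := by
      intro i
      obtain ⟨z, hz, a, ha, e⟩ := hJ.gen' A hA x g hx hg i
      obtain ⟨hz1, hz2⟩ := hle hz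
      have e2 : (⟨s i * g⁻¹, hsa i⟩ : A) = ⟨a, ha⟩ * ⟨z * x⁻¹, hz1⟩ := Subtype.ext e
      rw [e2]
      exact Ideal.mul_mem_left _ _ hz2
    rw [hI] at hfa
    have h1 := HO1_nakayama (fun i => (⟨s i * g⁻¹, hsa i⟩ : A)) _ hfa
    obtain ⟨dd, xx, hxx⟩ := exists_coord (b := b) hR hRK hRA (hs.smooth A hA)
    refine not_gen hR hRA hsa hsa' (hs.reg A hA g hg)
      (fun i => hJ.sub A hA x g hx hg _ (hhJ i)) hl
      ((IsCoord.freg_iff b hxx (by omega) hha l).1 hreg) ?_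
    intro i
    exact (HO2_NS_span (A := A) (fun a => ⟨hh a * x⁻¹, hha a⟩) l ⟨s i * g⁻¹, hsa i⟩).2 (h1 i)
  · rw [hI]
    exact hmem

/-- `c` is in `(y_a : a < l) + 𝔪 (f)` -/
def HO2_Q (A : Subalgebra k K) {p : ℕ} (y f : Fin p → K) (l : ℕ) (c : K) : Prop :=
  ∃ u ∈ NS (Subalgebra.toSubmodule A) y l, ∃ (m : K) (hm : m ∈ A) (hf : ∀ a, f a ∈ A)
    (_ : IsLocalRing A), (⟨m, hm⟩ : A) ∈ IsLocalRing.maximalIdeal A *
      Ideal.span (Set.range (fun a => (⟨f a, hf a⟩ : A))) ∧ c = u + m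

theorem HO2_Q_iff {A : Subalgebra k K} {p : ℕ} {y f : Fin p → K} {l : ℕ} {c : K}
    (hy : ∀ a, y a ∈ A) (hf : ∀ a, f a ∈ A) (hloc : IsLocalRing A) (hc : c ∈ A) :
    HO2_Q A y f l c ↔ (⟨c, hc⟩ : A) ∈ Ideal.span ((fun a => (⟨y a, hy a⟩ : A)) ''
      {a : Fin p | (a : ℕ) < l}) ⊔ IsLocalRing.maximalIdeal A *
        Ideal.span (Set.range (fun a => (⟨f a, hf a⟩ : A))) := by
  rw [Submodule.mem_sup]
  constructor
  · rintro ⟨u, hu, m, hm, hf', hl', hmem, e⟩
    have huA : u ∈ A := NS_le (C := A) (N := Subalgebra.toSubmodule A)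
      (fun _ h _ h' => A.mul_mem h h') hy l hu
    refine ⟨⟨u, huA⟩, ?_, ⟨m, hm⟩, hmem, Subtype.ext e.symm⟩
    exact (HO2_NS_span (A := A) (fun a => ⟨y a, hy a⟩) l ⟨u, huA⟩).1 hu
  · rintro ⟨u, hu, m, hm, e⟩
    refine ⟨u, (HO2_NS_span (A := A) (fun a => ⟨y a, hy a⟩) l u).2 hu, m, m.2, hf, hloc, hm,
      (congrArg Subtype.val e).symm⟩

theorem HO2_Q_congr {A : Subalgebra k K} {p : ℕ} {y y' f : Fin p → K} {l : ℕ} {c : K}
    (h : ∀ a : Fin p, (a : ℕ) < l → y a = y' a) : HO2_Q A y f l c ↔ HO2_Q A y' f l c := by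
  unfold HO2_Q
  rw [HO2_NS_congr h]

/-- the induction statement -/
structure HO2_I (X X' : Set (Subalgebra k K)) (V V' : Submodule k K) (d : ℕ) {p : ℕ}
    (s : Fin p → K) (P : Subalgebra k K) (J : Submodule k K) (xx gg : Subalgebra k K → K)
    (l : ℕ) (hh : Fin p → K) : Prop where
  J : ∀ a, hh a ∈ J
  reg : ∀ A ∈ X, ∀ x, Un V A x → FReg (FC p A) (fun a => hh a * x⁻¹) l
  unP : ∀ a : Fin p, (a : ℕ) < l → Un V P (hh a)
  dim : ∀ A ∈ X, A ≤ P → (∀ a : Fin p, (a : ℕ) < l → ¬ Un V A (hh a)) →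
    ((d + l : ℕ) : WithBot ℕ∞) ≤ ringKrullDim A
  cond : ∀ A ∈ SS V' X' s, A ≤ P → ∀ i : Fin p, (i : ℕ) < l →
    ¬ HO2_Q A (fun a => hh a * (xx A)⁻¹) (fun a => s a * (gg A)⁻¹) i (hh i * (xx A)⁻¹)

theorem HO2_opn_ex (hX : IsCompleteNormal X) (h : IsPr V X) {hh : Fin p → K} (l : ℕ) :
    Opn X {A | ∃ a : Fin p, (a : ℕ) < l ∧ Un V A (hh a)} := by
  intro R hR hK hRX A hA hAU
  obtain ⟨a, hal, ha⟩ := hAU
  obtain ⟨r, hr, hr0, hrA, hall⟩ := opn_un (X := X) h.fg (hh a) R hR hK hRX A hA ha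
  exact ⟨r, hr, hr0, hrA, fun B hB hrB => ⟨a, hal, hall B hB hrB⟩⟩

theorem HO2_step (b : Module.Basis (Fin n) K Ω[K⁄k]) (hX : IsCompleteNormal X)
    (hX' : IsCompleteNormal X') (h : IsPr V X) (h' : IsPr V' X') (hp : 1 ≤ p)
    (hpd : p + d = n) {P : Subalgebra k K} (hP : P ∈ X) (hPd : ringKrullDim P = d)
    {s : Fin p → K} (hs : SData X X' V' n s P) {J : Submodule k K}
    (hJ : JData X X' V V' s J) {xx gg : Subalgebra k K → K}
    (hxx : ∀ A ∈ SS V' X' s, Un V A (xx A)) (hgg : ∀ A ∈ SS V' X' s, Un V' A (gg A))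
    {l : ℕ} (hl : l < p) {hh : Fin p → K} (H : HO2_I X X' V V' d s P J xx gg l hh) :
    ∃ hh' : Fin p → K, HO2_I X X' V V' d s P J xx gg (l + 1) hh' := by
  classical
  have : Infinite k := CharZero.infinite k
  have hdimSS : ∀ A ∈ SS V' X' s, A ≤ P → ∀ e : ℕ, ringKrullDim A = e → e = n := by
    intro A hA hAP e he
    have h1 := hs.dim A hA hAP
    rw [he] at h1
    exact_mod_cast h1
  -- the point `P`
  have hPS : P ∉ SS V' X' s := fun hPS => by
    have := hdimSS P hPS le_rfl d hPd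
    omega
  -- the points of small dimension
  have hopn : Opn X ({A | ¬ A ≤ P} ∪ {A | ∃ a : Fin p, (a : ℕ) < l ∧ Un V A (hh a)}) :=
    (opn_not_le P).union (HO2_opn_ex hX h l)
  have hcl : ∀ A, A ∉ ({A | ¬ A ≤ P} ∪ {A | ∃ a : Fin p, (a : ℕ) < l ∧ Un V A (hh a)} :
      Set (Subalgebra k K)) ↔ A ≤ P ∧ ∀ a : Fin p, (a : ℕ) < l → ¬ Un V A (hh a) := by
    intro A
    rw [Set.mem_union, not_or]
    refine and_congr not_not ?_
    show ¬ (∃ a : Fin p, (a : ℕ) < l ∧ Un V A (hh a)) ↔ _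
    push Not
    rfl
  have hT1 := finite_of_opn hX hopn (e := d + l)
    (fun A hA hAU => H.dim A hA ((hcl A).1 hAU).1 ((hcl A).1 hAU).2)
  -- the associated points
  obtain ⟨T2, hT2f, hT2X, hT2a, hT2⟩ := exists_ass hX h (QC_FC (k := k) (K := K) (p := p)) hh
    (fun a => hJ.le (H.J a)) l
  have hT2S : ∀ A ∈ T2, A ∉ SS V' X' s := by
    intro A hA hAS
    obtain ⟨x, v, hx, hv, hvn, hvm⟩ := hT2a A hA
    obtain ⟨R, hR, hRK, hRA⟩ := HO2_chart hX (hs.mem A hAS)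
    have hloc : IsLocalRing A := hRA.2.1
    have hg := hgg A hAS
    obtain ⟨hsa, hsa'⟩ := HO2_f hX hs hAS hg
    have hha : ∀ a, hh a * x⁻¹ ∈ A := fun a => hx.2.2 _ (hJ.le (H.J a))
    obtain ⟨dd, yy, hyy⟩ := exists_coord (b := b) hR hRK hRA (hs.smooth A hAS)
    refine hvn (not_assoc hR hRA hyy (by omega) hsa hsa' (hs.reg A hAS _ hg) hha hl ?_
      (H.reg A (hs.mem A hAS) x hx) hv hvm)
    intro i _
    have h1 := hJ.sub A hAS x _ hx hg _ (H.J i)
    have h2 := (mem_NS_iff_span (A := A) (fun i => ⟨s i * (gg A)⁻¹, hsa i⟩)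
      ⟨hh i * x⁻¹, hha i⟩).1 h1
    have h3 : Ideal.span (Set.range fun i => (⟨s i * (gg A)⁻¹, hsa i⟩ : A)) ≤
        IsLocalRing.maximalIdeal A := by
      rw [Ideal.span_le]
      rintro _ ⟨i, rfl⟩
      exact (HO2_max _).2 (Or.inr (hsa' i))
    exact (HO2_max _).1 (h3 h2)
  -- the subspaces
  have hU : ∀ A : Subalgebra k K, ∃ U : Submodule k K, A ∈ SS V' X' s → A ≤ P → ¬ J ≤ U ∧
      ∀ z ∈ J, z ∉ U → ¬ HO2_Q A (fun a => hh a * (xx A)⁻¹) (fun a => s a * (gg A)⁻¹) l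
        (z * (xx A)⁻¹) := by
    intro A
    by_cases hA : A ∈ SS V' X' s
    · obtain ⟨U, hU1, hU2⟩ := HO2_proper b hX hpd hs hJ hA (hxx A hA) (hgg A hA) H.J hl
        (H.reg A (hs.mem A hA) _ (hxx A hA))
      refine ⟨U, fun _ _ => ⟨hU1, fun z hz hzU hQ => hzU ?_⟩⟩
      have hha : ∀ a, hh a * (xx A)⁻¹ ∈ A := fun a => (hxx A hA).2.2 _ (hJ.le (H.J a))
      have hsa : ∀ a, s a * (gg A)⁻¹ ∈ A := (HO2_f hX hs hA (hgg A hA)).1
      have hzA : z * (xx A)⁻¹ ∈ A := (hxx A hA).2.2 _ (hJ.le hz)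
      obtain ⟨R, hR, hRK, hRA⟩ := HO2_chart hX (hs.mem A hA)
      exact hU2 z hz hzA hha hsa hRA.2.1 ((HO2_Q_iff hha hsa hRA.2.1 hzA).1 hQ)
    · exact ⟨⊥, fun h => absurd h hA⟩
  choose UU0 hUU0 using hU
  obtain ⟨z, hzJ, hzT, hzU⟩ := exists_un_of_finite hJ.le
    (𝒯 := {P} ∪ ({A | A ∈ X ∧ A ∉ ({A | ¬ A ≤ P} ∪
      {A | ∃ a : Fin p, (a : ℕ) < l ∧ Un V A (hh a)} : Set (Subalgebra k K)) ∧
        ringKrullDim A = ((d + l : ℕ) : WithBot ℕ∞)} ∪ T2))
    ((Set.finite_singleton P).union (hT1.union hT2f))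
    (by
      intro A hA
      have hAX : A ∈ X := by
        rcases hA with hA | hA | hA
        · rw [hA]; exact hP
        · exact hA.1
        · exact hT2X hA
      obtain ⟨R, hR, hRK, hRA⟩ := HO2_chart hX hAX
      exact hRA.2.1)
    (by
      intro A hA
      rcases hA with hA | hA | hA
      · rw [hA]
        exact hJ.gen P hP hPS
      · refine hJ.gen A hA.1 fun hAS => ?_
        have := hdimSS A hAS ((hcl A).1 hA.2.1).1 (d + l) hA.2.2
        omega
      · exact hJ.gen A (hT2X hA) (hT2S A hA))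
    (𝒰 := UU0 '' {A | A ∈ SS V' X' s ∧ A ≤ P})
    ((HO2_finite b hX hX' h' hs).image _)
    (by
      rintro _ ⟨A, hA, rfl⟩
      exact (hUU0 A hA.1 hA.2).1)
  obtain ⟨hh', e1, e2⟩ : ∃ hh' : Fin p → K, (∀ a : Fin p, (a : ℕ) < l → hh' a = hh a) ∧
      (∀ a : Fin p, (a : ℕ) = l → hh' a = z) ∧ ∀ a, hh' a ∈ J := by
    refine ⟨Function.update hh ⟨l, hl⟩ z, fun a ha => ?_, fun a ha => ?_, fun a => ?_⟩
    · rw [Function.update_of_ne]
      intro h1
      rw [h1] at ha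
      exact lt_irrefl _ ha
    · have h1 : a = ⟨l, hl⟩ := Fin.ext ha
      rw [h1, Function.update_self]
    · by_cases h1 : a = ⟨l, hl⟩
      · rw [h1, Function.update_self]
        exact hzJ
      · rw [Function.update_of_ne h1]
        exact H.J a
  obtain ⟨e2, e3⟩ := e2
  refine ⟨hh', e3, ?_, ?_, ?_, ?_⟩
  · -- regularity
    intro A hA x hx i hi v hv hyv
    have e4 : NS (FC p A) (fun a => hh' a * x⁻¹) i = NS (FC p A) (fun a => hh a * x⁻¹) i :=
      HO2_NS_congr fun a ha => by rw [e1 a (by omega)]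
    rw [e4] at hyv ⊢
    change (hh' i * x⁻¹) • v ∈ _ at hyv
    by_cases hil : (i : ℕ) < l
    · rw [e1 i hil] at hyv
      exact H.reg A hA x hx i hil v hv hyv
    · have hil' : (i : ℕ) = l := by omega
      rw [e2 i hil', hil'] at hyv
      rw [hil']
      exact hT2 z (hJ.le hzJ) (fun B hB => hzT B (Or.inr (Or.inr hB))) A hA x hx v hv hyv
  · intro a ha
    by_cases hal : (a : ℕ) < l
    · rw [e1 a hal]
      exact H.unP a hal
    · rw [e2 a (by omega)]
      exact hzT P (Or.inl rfl)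
  · intro A hA hAP hAU
    have h1 : ∀ a : Fin p, (a : ℕ) < l → ¬ Un V A (hh a) := fun a ha => by
      rw [← e1 a ha]
      exact hAU a (by omega)
    have h2 := H.dim A hA hAP h1
    obtain ⟨d', hd', -⟩ := dim_le_basis b hX hA
    rw [hd'] at h2 ⊢
    have h3 : d + l ≤ d' := by exact_mod_cast h2
    have h4 : d + l ≠ d' := by
      intro h5
      have h6 := hzT A (Or.inr (Or.inl ⟨hA, (hcl A).2 ⟨hAP, h1⟩, by rw [hd', h5]⟩))
      have h7 := hAU ⟨l, hl⟩ (Nat.lt_succ_self l)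
      rw [e2 ⟨l, hl⟩ rfl] at h7
      exact h7 h6
    have h5 : d + (l + 1) ≤ d' := by omega
    exact_mod_cast h5
  · intro A hA hAP i hi
    have e4 : ∀ a : Fin p, (a : ℕ) < i → (fun a => hh' a * (xx A)⁻¹) a =
        (fun a => hh a * (xx A)⁻¹) a := fun a ha => by
      show hh' a * (xx A)⁻¹ = hh a * (xx A)⁻¹
      rw [e1 a (by omega)]
    rw [HO2_Q_congr e4]
    by_cases hil : (i : ℕ) < l
    · rw [e1 i hil]
      exact H.cond A hA hAP i hil
    · have hil' : (i : ℕ) = l := by omega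
      rw [e2 i hil', hil']
      exact (hUU0 A hA hAP).2 z hzJ (hzU _ ⟨A, ⟨hA, hAP⟩, rfl⟩)

/-- (IV.4) of the paper proof.  By induction on `l ≤ p` there is `hh : Fin p → K` with values in `J`
such that `FReg (FC p A) (hh / x) l` for all `A ∈ X`, `Un V A x`; `Un V P (hh a)` for `a < l`; the
`A ∈ X` with `A ≤ P` and `¬ Un V A (hh a)` for all `a < l` have dimension `≥ d + l`; and at the
finitely many (`HO2_finite`) points `A ≤ P` of `S` the condition of `HO1_span_eq` holds for the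
indices less than `l`.  Step: `hh l ∈ J` generates `V` at finitely many points of `X` not in `S`, and
avoids finitely many proper subspaces of `J` (`exists_un_of_finite`, `JData.gen`), namely: at the
point `P` (`P ∉ S` because `dim P = d < n`); at the points of dimension exactly `d + l < n` of the
closed set above (`finite_of_opn`; not in `S` because the points `A ≤ P` of `S` have dimension `n`);
at the points of `exists_ass` for `QC_FC` (not in `S` by `not_assoc`); the subspaces of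
`HO2_proper` at the finitely many points `A ≤ P` of `S`.
For `l = p`: `gen` by `HO1_span_eq` (`mem_NS_iff_span`); the points `A ≤ P` at which no `hh a`
generates have dimension `n`, so they are finitely many, let `h0 ∈ V` generate at these points and
at `P`. -/
theorem exists_h (b : Module.Basis (Fin n) K Ω[K⁄k]) (hX : IsCompleteNormal X)
    (hX' : IsCompleteNormal X') (h : IsPr V X) (h' : IsPr V' X') (hp : 1 ≤ p)
    (hpd : p + d = n) {P : Subalgebra k K} (hP : P ∈ X) (hPd : ringKrullDim P = d)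
    {s : Fin p → K} (hs : SData X X' V' n s P) {J : Submodule k K}
    (hJ : JData X X' V V' s J) : ∃ hh h0, HData X X' V V' s P hh h0 := by
  classical
  have : Infinite k := CharZero.infinite k
  -- generators at the points of `S`
  have hxg : ∀ A : Subalgebra k K, ∃ x g : K, A ∈ SS V' X' s → Un V A x ∧ Un V' A g := by
    intro A
    by_cases hA : A ∈ SS V' X' s
    · obtain ⟨x, hx⟩ := h.exists_un (hs.mem A hA)
      obtain ⟨g, hg⟩ := h'.exists_un hA.1
      exact ⟨x, g, fun _ => ⟨hx, hg⟩⟩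
    · exact ⟨0, 0, fun h => absurd h hA⟩
  choose xx gg hxg using hxg
  have hxx : ∀ A ∈ SS V' X' s, Un V A (xx A) := fun A hA => (hxg A hA).1
  have hgg : ∀ A ∈ SS V' X' s, Un V' A (gg A) := fun A hA => (hxg A hA).2
  have hind : ∀ l : ℕ, l ≤ p → ∃ hh : Fin p → K, HO2_I X X' V V' d s P J xx gg l hh := by
    intro l
    induction l with
    | zero =>
      intro _
      refine ⟨fun _ => 0, fun _ => J.zero_mem, ?_, ?_, ?_, ?_⟩
      · intro A _ x _ i hi
        exact absurd hi (Nat.not_lt_zero _)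
      · intro a ha
        exact absurd ha (Nat.not_lt_zero _)
      · intro A hA hAP _
        rw [add_zero, ← hPd]
        by_cases hAe : A = P
        · rw [hAe]
        · exact (dim_lt_of_le_ne hX hA hP hAP hAe).le
      · intro A _ _ i hi
        exact absurd hi (Nat.not_lt_zero _)
    | succ l ih =>
      intro hl
      obtain ⟨hh, H⟩ := ih (by omega)
      exact HO2_step b hX hX' h h' hp hpd hP hPd hs hJ hxx hgg (by omega) H
  obtain ⟨hh, H⟩ := hind p le_rfl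
  have hopn : Opn X ({A | ¬ A ≤ P} ∪ {A | ∃ a : Fin p, (a : ℕ) < p ∧ Un V A (hh a)}) :=
    (opn_not_le P).union (HO2_opn_ex hX h p)
  have hcl : ∀ A, A ∉ ({A | ¬ A ≤ P} ∪ {A | ∃ a : Fin p, (a : ℕ) < p ∧ Un V A (hh a)} :
      Set (Subalgebra k K)) ↔ A ≤ P ∧ ∀ a : Fin p, (a : ℕ) < p → ¬ Un V A (hh a) := by
    intro A
    rw [Set.mem_union, not_or]
    refine and_congr not_not ?_
    show ¬ (∃ a : Fin p, (a : ℕ) < p ∧ Un V A (hh a)) ↔ _
    push Not
    rfl
  have hT1 := finite_of_opn hX hopn (e := d + p)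
    (fun A hA hAU => H.dim A hA ((hcl A).1 hAU).1 ((hcl A).1 hAU).2)
  obtain ⟨h0, h0V, h0T, -⟩ := exists_un_of_finite (le_refl V)
    (𝒯 := {P} ∪ {A | A ∈ X ∧ A ∉ ({A | ¬ A ≤ P} ∪
      {A | ∃ a : Fin p, (a : ℕ) < p ∧ Un V A (hh a)} : Set (Subalgebra k K)) ∧
        ringKrullDim A = ((d + p : ℕ) : WithBot ℕ∞)})
    ((Set.finite_singleton P).union hT1)
    (by
      intro A hA
      have hAX : A ∈ X := by
        rcases hA with hA | hA
        · rw [hA]; exact hP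
        · exact hA.1
      obtain ⟨R, hR, hRK, hRA⟩ := HO2_chart hX hAX
      exact hRA.2.1)
    (by
      intro A hA
      have hAX : A ∈ X := by
        rcases hA with hA | hA
        · rw [hA]; exact hP
        · exact hA.1
      obtain ⟨x, hx⟩ := h.exists_un hAX
      exact ⟨x, hx.1, hx⟩)
    (𝒰 := ∅) Set.finite_empty (fun U hU => absurd hU (Set.notMem_empty U))
  refine ⟨hh, h0, fun a => hJ.le (H.J a), fun a => (H.unP a a.2).2.1, h0V, ?_, H.reg, ?_, ?_,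
    h0T P (Or.inl rfl), fun a => H.unP a a.2⟩
  · intro A hA x g hx hg a
    exact hJ.sub A hA x g hx hg _ (H.J a)
  · intro A hA hAP x g hx hg i
    obtain ⟨R, hR, hRK, hRA⟩ := HO2_chart hX (hs.mem A hA)
    have hloc : IsLocalRing A := hRA.2.1
    have hsa : ∀ a, s a * (gg A)⁻¹ ∈ A := (HO2_f hX hs hA (hgg A hA)).1
    have hha : ∀ a, hh a * (xx A)⁻¹ ∈ A := fun a => (hxx A hA).2.2 _ (hJ.le (H.J a))
    have h1 := HO1_span_eq (fun a => (⟨s a * (gg A)⁻¹, hsa a⟩ : A))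
      (fun a => (⟨hh a * (xx A)⁻¹, hha a⟩ : A))
      (fun a => (mem_NS_iff_span (A := A) (fun i => ⟨s i * (gg A)⁻¹, hsa i⟩)
        ⟨hh a * (xx A)⁻¹, hha a⟩).1 (hJ.sub A hA _ _ (hxx A hA) (hgg A hA) _ (H.J a)))
      (fun a hmem => H.cond A hA hAP a a.2 ((HO2_Q_iff hha hsa hloc (hha a)).2 hmem))
    have h2 : (⟨s i * (gg A)⁻¹, hsa i⟩ : A) ∈
        Ideal.span (Set.range fun a => (⟨hh a * (xx A)⁻¹, hha a⟩ : A)) := by
      rw [h1]
      exact Ideal.subset_span ⟨i, rfl⟩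
    have h3 : s i * (gg A)⁻¹ ∈ NS (Subalgebra.toSubmodule A) (fun a => hh a * (xx A)⁻¹) p :=
      (mem_NS_iff_span (A := A) (fun a => ⟨hh a * (xx A)⁻¹, hha a⟩)
        ⟨s i * (gg A)⁻¹, hsa i⟩).2 h2
    have hst : ∀ a ∈ A, ∀ v ∈ Subalgebra.toSubmodule A, a • v ∈ Subalgebra.toSubmodule A :=
      fun _ h _ h' => A.mul_mem h h'
    have hx0 := hx.2.1
    have hxx0 := (hxx A hA).2.1
    have hg0 := hg.2.1
    have hgg0 := (hgg A hA).2.1
    have e1 : NS (Subalgebra.toSubmodule A) (fun a => hh a * x⁻¹) p =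
        NS (Subalgebra.toSubmodule A) (fun a => hh a * (xx A)⁻¹) p := by
      refine NS_unit (θ := xx A * x⁻¹) hst (mul_ne_zero hxx0 (inv_ne_zero hx0))
        (hx.2.2 _ (hxx A hA).1) ?_ ?_ p
      · have e2 : (xx A * x⁻¹)⁻¹ = x * (xx A)⁻¹ := by
          field_simp
        rw [e2]
        exact (hxx A hA).2.2 _ hx.1
      · intro a
        field_simp
    rw [e1]
    have e3 : s i * g⁻¹ = (gg A * g⁻¹) • (s i * (gg A)⁻¹) := by
      rw [smul_eq_mul]
      field_simp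
    rw [e3]
    exact NS_stable (C := A) hst _ _ _ (hg.2.2 _ (hgg A hA).1) _ h3
  · intro A hA hAP
    by_cases hex : ∃ a, Un V A (hh a)
    · exact Or.inr hex
    · left
      push Not at hex
      have h1 := H.dim A hA hAP fun a _ => hex a
      obtain ⟨d', hd', hd'n⟩ := dim_le_basis b hX hA
      rw [hd'] at h1
      have h2 : d + p ≤ d' := by exact_mod_cast h1
      have h3 : d' = d + p := by omega
      refine h0T A (Or.inr ⟨hA, (hcl A).2 ⟨hAP, fun a _ => hex a⟩, ?_⟩)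
      rw [hd', h3]

end Flip28
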