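import Pool.Agent.FlipB_h28.HJ1

/-! # The systems `GG`, `UU`, `TT` -/

open scoped KaehlerDifferential

universe u

namespace Flip28

variable {k K : Type u} [Field k] [Field K] [Algebra k K] {X : Set (Subalgebra k K)}
  {V : Submodule k K} {p : ℕ} {hh : Fin p → K} {Z Z' : Set K} {l : ℕ}

/-- multiplying `x` by a unit -/
theorem prl_change {x x' : K} (hx : x ≠ 0) (hx' : x' ≠ 0) (l : ℕ) :
    prl hh x' l = (x * x'⁻¹) ^ (Finset.univ.filter (fun a : Fin p => (a : ℕ) < l)).card *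
      prl hh x l := by
  unfold prl
  rw [← Finset.prod_const, ← Finset.prod_mul_distrib]
  refine Finset.prod_congr rfl fun a _ => ?_
  field_simp

theorem prl_ne_zero (hne : ∀ a, hh a ≠ 0) {x : K} (hx : x ≠ 0) (l : ℕ) : prl hh x l ≠ 0 := by
  unfold prl
  exact Finset.prod_ne_zero_iff.2 fun a _ => mul_ne_zero (hne a) (inv_ne_zero hx)

theorem prl_succ {x : K} (l : Fin p) : prl hh x (l + 1) = (hh l * x⁻¹) * prl hh x l := by
  classical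
  have hf : Finset.univ.filter (fun a : Fin p => (a : ℕ) < (l : ℕ) + 1) =
      insert l (Finset.univ.filter (fun a : Fin p => (a : ℕ) < l)) := by
    ext a
    simp only [Finset.mem_filter, Finset.mem_univ, true_and, Finset.mem_insert, Fin.ext_iff]
    omega
  have hn : l ∉ Finset.univ.filter (fun a : Fin p => (a : ℕ) < l) := by
    simp
  unfold prl
  rw [hf, Finset.prod_insert hn]

theorem prl_mem {C : Subalgebra k K} {x : K} (hC : ∀ a, hh a * x⁻¹ ∈ C) (l : ℕ) :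
    prl hh x l ∈ C := by
  unfold prl
  exact C.prod_mem fun a _ => hC a

theorem HP1_prl_zero {x : K} : prl hh x 0 = 1 := by
  unfold prl
  rw [Finset.filter_false_of_mem (fun a _ => Nat.not_lt_zero _), Finset.prod_empty]

/-- Proof: for two elements `x`, `x'` of `Z` the quotient `x / x'` is a unit of `CJ V Z`
(`prl_change`). -/
theorem mem_GG_iff (hZ : ∀ z ∈ Z, z ∈ V ∧ z ≠ 0) {z : K} (hz : z ∈ Z) {v : EE k K p} :
    v ∈ GG V hh l Z ↔ prl hh z l • v ∈ FC p (CJ V Z) := by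
  constructor
  · intro h
    exact h z hz
  · intro h z' hz'
    rw [prl_change (hZ z hz).2 (hZ z' hz').2 l, mul_smul]
    exact QC_FC.stable _ _ (Subalgebra.pow_mem _ (mul_inv_mem_CJ (hZ z hz).1 hz') _) _ h

theorem HP1_NS (hZ : ∀ z ∈ Z, z ∈ V ∧ z ≠ 0) {z z' : K} (hz : z ∈ Z) (hz' : z' ∈ Z) (m l : ℕ)
    {v : EE k K p} (h : prl hh z m • v ∈ NS (FC p (CJ V Z)) (fun a => hh a * z⁻¹) l) :
    prl hh z' m • v ∈ NS (FC p (CJ V Z)) (fun a => hh a * z'⁻¹) l := by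
  have hz0 := (hZ z hz).2
  have hz0' := (hZ z' hz').2
  have hθ : z * z'⁻¹ ∈ CJ V Z := mul_inv_mem_CJ (hZ z hz).1 hz'
  have hθ' : (z * z'⁻¹)⁻¹ ∈ CJ V Z := by
    rw [mul_inv, inv_inv, mul_comm]
    exact mul_inv_mem_CJ (hZ z' hz').1 hz
  rw [NS_unit (QC_FC.stable (CJ V Z)) (mul_ne_zero hz0 (inv_ne_zero hz0')) hθ hθ'
    (y := fun a => hh a * z⁻¹) (fun a => by field_simp) l, prl_change hz0 hz0' m, mul_smul]
  exact NS_stable (QC_FC.stable (CJ V Z)) _ _ _ (Subalgebra.pow_mem _ hθ _) _ h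

theorem mem_TT_iff (hZ : ∀ z ∈ Z, z ∈ V ∧ z ≠ 0) {z : K} (hz : z ∈ Z) {v : EE k K p} :
    v ∈ TT V hh l Z ↔ prl hh z l • v ∈ NS (FC p (CJ V Z)) (fun a => hh a * z⁻¹) l :=
  ⟨fun h => h z hz, fun h _ hz' => HP1_NS hZ hz hz' l l h⟩

theorem mem_UU_iff (hZ : ∀ z ∈ Z, z ∈ V ∧ z ≠ 0) {z : K} (hz : z ∈ Z) {v : EE k K p} :
    v ∈ UU V hh l Z ↔
      prl hh z (l + 1) • v ∈ NS (FC p (CJ V Z)) (fun a => hh a * z⁻¹) l :=
  ⟨fun h => h z hz, fun h _ hz' => HP1_NS hZ hz hz' (l + 1) l h⟩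

theorem GG_zero (hne : Z.Nonempty) : GG V hh 0 Z = FC p (CJ V Z) := by
  obtain ⟨z, hz⟩ := hne
  apply le_antisymm
  · intro v hv
    have h1 := hv z hz
    rwa [HP1_prl_zero, one_smul] at h1
  · intro v hv z _
    rw [HP1_prl_zero, one_smul]
    exact hv

theorem TT_zero (hne : Z.Nonempty) : TT V hh 0 Z = ⊥ := by
  obtain ⟨z, hz⟩ := hne
  rw [eq_bot_iff]
  intro v hv
  have h1 := hv z hz
  rw [HP1_prl_zero, one_smul, NS_zero] at h1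
  exact h1

theorem GG_mono (hZ : ∀ z ∈ Z', z ∈ V ∧ z ≠ 0) (h : Z ⊆ Z') (hne : Z.Nonempty) :
    GG V hh l Z ≤ GG V hh l Z' := by
  obtain ⟨z, hz⟩ := hne
  intro v hv
  rw [mem_GG_iff hZ (h hz)]
  exact QC_FC.mono _ _ (CJ_mono h) (hv z hz)

theorem UU_mono (hZ : ∀ z ∈ Z', z ∈ V ∧ z ≠ 0) (h : Z ⊆ Z') (hne : Z.Nonempty) :
    UU V hh l Z ≤ UU V hh l Z' := by
  obtain ⟨z, hz⟩ := hne
  intro v hv
  rw [mem_UU_iff hZ (h hz)]
  exact NS_mono (QC_FC.mono _ _ (CJ_mono h)) _ _ (hv z hz)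

/-- Proof: with `z = hh l` in `mem_GG_iff`: `prl hh z (l + 1) = prl hh z l`. -/
theorem GG_le_GG (hne : ∀ a, hh a ≠ 0) (hZ : ∀ z ∈ Z, z ∈ V ∧ z ≠ 0) (l : Fin p)
    (h : hh l ∈ Z) : GG V hh (l + 1) Z ≤ GG V hh l Z := by
  intro v hv
  rw [mem_GG_iff hZ h] at hv ⊢
  rwa [prl_succ, mul_inv_cancel₀ (hne l), one_mul] at hv

/-- Proof: with `z = hh a` in `mem_GG_iff`: `hh a / z = 1`. -/
theorem GG_le_UU (hne : ∀ a, hh a ≠ 0) (hZ : ∀ z ∈ Z, z ∈ V ∧ z ≠ 0) {a l : Fin p}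
    (hal : a < l) (h : hh a ∈ Z) : GG V hh (l + 1) Z ≤ UU V hh l Z := by
  intro v hv
  rw [mem_GG_iff hZ h] at hv
  rw [mem_UU_iff hZ h]
  refine NS_of_unit (QC_FC.stable (CJ V Z)) (a := a) (Fin.lt_def.1 hal) ?_ ?_ hv
  · exact mul_ne_zero (hne a) (inv_ne_zero (hne a))
  · change (hh a * (hh a)⁻¹)⁻¹ ∈ CJ V Z
    rw [mul_inv_cancel₀ (hne a), inv_one]
    exact Subalgebra.one_mem _

/-- Proof: if `prl (l + 1) v = y_l w + w'`, `w ∈ FC`, `w' ∈ NS FC y l` (`NS_succ`), then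
`v = (prl l)⁻¹ w + (prl (l + 1))⁻¹ w'` (`prl_succ`). -/
theorem TT_succ (hV : ∀ a, hh a ∈ V) (hne : ∀ a, hh a ≠ 0) (hZ : ∀ z ∈ Z, z ∈ V ∧ z ≠ 0)
    (h0 : Z.Nonempty) (l : Fin p) :
    TT V hh (l + 1) Z = GG V hh l Z ⊔ UU V hh l Z := by
  obtain ⟨z, hz⟩ := h0
  have hz0 := (hZ z hz).2
  have hy : hh l * z⁻¹ ≠ 0 := mul_ne_zero (hne l) (inv_ne_zero hz0)
  have hp0 : prl hh z l ≠ 0 := prl_ne_zero hne hz0 l
  have hl0 := hne l
  apply le_antisymm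
  · intro v hv
    rw [mem_TT_iff hZ hz] at hv
    obtain ⟨w, hw, w', hw', e⟩ := (NS_succ _ l).1 hv
    rw [prl_succ] at e
    have e2 : v = (prl hh z l)⁻¹ • w + ((hh l * z⁻¹) * prl hh z l)⁻¹ • w' := by
      have e3 : v = ((hh l * z⁻¹) * prl hh z l)⁻¹ • (((hh l * z⁻¹) * prl hh z l) • v) := by
        rw [smul_smul, inv_mul_cancel₀ (mul_ne_zero hy hp0), one_smul]
      rw [e3, e, smul_add, smul_smul]
      congr 2
      field_simp
    rw [e2]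
    refine Submodule.add_mem_sup ?_ ?_
    · rw [mem_GG_iff hZ hz, smul_smul, mul_inv_cancel₀ hp0, one_smul]
      exact hw
    · rw [mem_UU_iff hZ hz, smul_smul, prl_succ, mul_inv_cancel₀ (mul_ne_zero hy hp0), one_smul]
      exact hw'
  · refine sup_le ?_ ?_
    · intro v hv
      rw [mem_GG_iff hZ hz] at hv
      rw [mem_TT_iff hZ hz, NS_succ]
      refine ⟨_, hv, 0, Submodule.zero_mem _, ?_⟩
      rw [prl_succ, mul_smul, add_zero]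
    · intro v hv
      rw [mem_UU_iff hZ hz] at hv
      rw [mem_TT_iff hZ hz]
      exact NS_le_of_le _ (Nat.le_succ _) hv

/-- local characterizations: `IsPr.mem_iff`, `IsPr.mem_NS_iff` for `QC_FC` -/
theorem mem_GG_iff_loc (hX : IsCompleteNormal X) (h : IsPr V X) (hZf : Z.Finite)
    (hZ : ∀ z ∈ Z, z ∈ V ∧ z ≠ 0) {z : K} (hz : z ∈ Z) {v : EE k K p} :
    v ∈ GG V hh l Z ↔ ∀ A ∈ X, (∀ z ∈ Z, Un V A z) → prl hh z l • v ∈ FC p A := by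
  rw [mem_GG_iff hZ hz]
  exact IsPr.mem_iff hX h (F := fun C => FC p C) QC_FC hZf ⟨z, hz⟩ hZ

theorem mem_TT_iff_loc (hX : IsCompleteNormal X) (h : IsPr V X) (hZf : Z.Finite)
    (hZ : ∀ z ∈ Z, z ∈ V ∧ z ≠ 0) {z : K} (hz : z ∈ Z) {v : EE k K p} :
    v ∈ TT V hh l Z ↔ ∀ A ∈ X, (∀ z ∈ Z, Un V A z) →
      prl hh z l • v ∈ NS (FC p A) (fun a => hh a * z⁻¹) l := by
  rw [mem_TT_iff hZ hz]
  exact IsPr.mem_NS_iff hX h (F := fun C => FC p C) QC_FC hZf ⟨z, hz⟩ hZ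

/-- Proof: let `w = prl l v ∈ FC`; then `y_l w ∈ NS FC y l`, so `w ∈ NS FC y l` locally, by the
regularity of the sequence. -/
theorem GG_inf_UU (hX : IsCompleteNormal X) (h : IsPr V X)
    (hreg : ∀ A ∈ X, ∀ x, Un V A x → FReg (FC p A) (fun a => hh a * x⁻¹) p) (hZf : Z.Finite)
    (hZ : ∀ z ∈ Z, z ∈ V ∧ z ≠ 0) (h0 : Z.Nonempty) (l : Fin p) :
    GG V hh l Z ⊓ UU V hh l Z ≤ TT V hh l Z := by
  obtain ⟨z, hz⟩ := h0
  rintro v ⟨hv1, hv2⟩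
  have hv1' := (mem_GG_iff hZ hz).1 hv1
  have hv2' := (mem_UU_iff hZ hz).1 hv2
  rw [mem_TT_iff_loc hX h hZf hZ hz]
  intro A hA hun
  have hCA : CJ V Z ≤ A := (CJ_le_iff hZ).2 hun
  have h1 : prl hh z l • v ∈ FC p A := QC_FC.mono _ _ hCA hv1'
  have h2 := NS_mono ((QC_FC (p := p)).mono _ _ hCA) (fun a => hh a * z⁻¹) l hv2'
  rw [prl_succ, mul_smul] at h2
  exact hreg A hA z (hun z hz) l l.2 _ h1 h2

theorem zigData {ι : Type*} [LinearOrder ι] (hX : IsCompleteNormal X) (h : IsPr V X)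
    (hV : ∀ a, hh a ∈ V) (hne : ∀ a, hh a ≠ 0)
    (hreg : ∀ A ∈ X, ∀ x, Un V A x → FReg (FC p A) (fun a => hh a * x⁻¹) p) {z : ι → K}
    {I : Finset ι} (hz : ∀ i ∈ I, z i ∈ V ∧ z i ≠ 0) :
    ZigData p (fun l (J : Finset ι) => GG V hh l (z '' (J : Set ι)))
      (fun l (J : Finset ι) => UU V hh l (z '' (J : Set ι)))
      (fun l (J : Finset ι) => TT V hh l (z '' (J : Set ι))) I := by
  have hz' : ∀ J ⊆ I, ∀ w ∈ z '' (J : Set ι), w ∈ V ∧ w ≠ 0 := by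
    rintro J hJ _ ⟨i, hi, rfl⟩
    exact hz i (hJ hi)
  have hfin : ∀ J : Finset ι, (z '' (J : Set ι)).Finite := fun J => J.finite_toSet.image z
  have hne' : ∀ J : Finset ι, J.Nonempty → (z '' (J : Set ι)).Nonempty := fun J hJ =>
    (Finset.coe_nonempty.2 hJ).image z
  refine ⟨?_, ?_, ?_, ?_, ?_⟩
  · intro J _ hJn
    exact TT_zero (hne' J hJn)
  · intro l hl J hJ hJn
    exact TT_succ hV hne (hz' J hJ) (hne' J hJn) ⟨l, hl⟩
  · intro l hl J hJ hJn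
    exact GG_inf_UU hX h hreg (hfin J) (hz' J hJ) (hne' J hJn) ⟨l, hl⟩
  · intro l _ J J' hJJ hJ' hJn
    exact GG_mono (hz' J' hJ') (Set.image_mono (Finset.coe_subset.2 hJJ)) (hne' J hJn)
  · intro l _ J J' hJJ hJ' hJn
    exact UU_mono (hz' J' hJ') (Set.image_mono (Finset.coe_subset.2 hJJ)) (hne' J hJn)

end Flip28
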