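import Pool.Agent.FlipB_h28.HP1
import Pool.Agent.FlipB_h28.HJ2
import Pool.Agent.FlipB_h28.HG3
import Pool.Agent.FlipB_h28.HDef2

/-! # Good representatives -/

open scoped KaehlerDifferential

universe u

namespace Flip28

variable {k K : Type u} [Field k] [Field K] [Algebra k K] {X X' : Set (Subalgebra k K)}
  {V V' : Submodule k K} {n p : ℕ} {s hh : Fin p → K} {h0 : K} {A P : Subalgebra k K}
  {ε ε' δ : EE k K p}

theorem HP2_unit {x x0 : K} (hx : Un V A x) (hx0 : Un V A x0) :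
    x0 * x⁻¹ ≠ 0 ∧ x0 * x⁻¹ ∈ A ∧ (x0 * x⁻¹)⁻¹ ∈ A := by
  refine ⟨mul_ne_zero hx0.2.1 (inv_ne_zero hx.2.1), hx.2.2 x0 hx0.1, ?_⟩
  rw [mul_inv, inv_inv, mul_comm]
  exact hx0.2.2 x hx.1

theorem HP2_prl {x x0 : K} (hx : x ≠ 0) (hx0 : x0 ≠ 0) :
    prl hh x p = (x0 * x⁻¹) ^ p * prl hh x0 p := by
  have h1 := prl_change (hh := hh) hx0 hx p
  have h2 : (Finset.univ.filter (fun a : Fin p => (a : ℕ) < p)).card = p := by
    rw [Finset.filter_true_of_mem (fun a _ => a.2), Finset.card_univ, Fintype.card_fin]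
  rw [h2] at h1
  exact h1

theorem HP2_NS {x x0 : K} (hx : Un V A x) (hx0 : Un V A x0) {v : EE k K p}
    (hv : v ∈ NS (FC p A) (fun a => hh a * x0⁻¹) p) :
    (x0 * x⁻¹) ^ p • v ∈ NS (FC p A) (fun a => hh a * x⁻¹) p := by
  obtain ⟨h0, h1, h2⟩ := HP2_unit hx hx0
  have h3 : NS (FC p A) (fun a => hh a * x⁻¹) p = NS (FC p A) (fun a => hh a * x0⁻¹) p := by
    refine NS_unit (C := A) (HE_stable A) h0 h1 h2 (fun a => ?_) p
    have := hx0.2.1
    field_simp
  rw [h3]
  exact NS_stable (HE_stable A) _ _ _ (A.pow_mem h1 p) _ hv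

/-- change of `x`: multiply the matrix by the unit `x' / x` (`prl_change` is here
`prl hh x p = (x' / x) ^ p * prl hh x' p`) -/
theorem GoodAt.exists_matrix (hA : A ∈ SS V' X' s) (hε : GoodAt V V' X' s hh A ε) {x : K}
    (hx : Un V A x) : ∃ (g : K) (M : Matrix (Fin p) (Fin p) K), Un V' A g ∧
      (∀ i j, M i j ∈ A) ∧ (∀ a, hh a * x⁻¹ = ∑ l, M a l * (s l * g⁻¹)) ∧
      prl hh x p • ε - M.det • wf (fun l => s l * g⁻¹) ∈
        NS (FC p A) (fun a => hh a * x⁻¹) p := by
  obtain ⟨x0, g, M, hx0, hg, hM, hMy, hmem⟩ := hε.1 hA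
  obtain ⟨h0, h1, h2⟩ := HP2_unit hx hx0
  refine ⟨g, (x0 * x⁻¹) • M, hg, fun i j => ?_, fun a => ?_, ?_⟩
  · rw [Matrix.smul_apply, smul_eq_mul]
    exact A.mul_mem h1 (hM i j)
  · have e : hh a * x⁻¹ = (x0 * x⁻¹) * (hh a * x0⁻¹) := by
      have := hx0.2.1
      field_simp
    rw [e, hMy a, Finset.mul_sum]
    refine Finset.sum_congr rfl fun l _ => ?_
    rw [Matrix.smul_apply, smul_eq_mul]
    ring
  · have h3 := HP2_NS (hh := hh) hx hx0 hmem
    rw [smul_sub, ← mul_smul, ← mul_smul, ← HP2_prl hx.2.1 hx0.2.1] at h3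
    rw [Matrix.det_smul, Fintype.card_fin]
    exact h3

theorem GoodAt.mem_NS (hA : A ∉ SS V' X' s) (hε : GoodAt V V' X' s hh A ε) {x : K}
    (hx : Un V A x) : prl hh x p • ε ∈ NS (FC p A) (fun a => hh a * x⁻¹) p := by
  obtain ⟨x0, hx0, hmem⟩ := hε.2 hA
  have h3 := HP2_NS (hh := hh) hx hx0 hmem
  rwa [← mul_smul, ← HP2_prl hx.2.1 hx0.2.1] at h3

/-- Proof: `fund` and `exists_matrix`, `mem_NS` -/
theorem GoodAt.sub (hs : SData X X' V' n s P) (hε : GoodAt V V' X' s hh A ε)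
    (hε' : GoodAt V V' X' s hh A ε') {x : K} (hx : Un V A x) :
    prl hh x p • (ε - ε') ∈ NS (FC p A) (fun a => hh a * x⁻¹) p := by
  by_cases hA : A ∈ SS V' X' s
  · obtain ⟨g, M, hg, hM, hMy, h1⟩ := hε.exists_matrix hA hx
    obtain ⟨g', M', hg', hM', hMy', h1'⟩ := hε'.exists_matrix hA hx
    obtain ⟨h2, h3, h4⟩ := HP2_unit hg hg'
    have h5 := fund (k := k) (f := fun l => s l * g⁻¹) (f' := fun l => s l * g'⁻¹)
      (y := fun a => hh a * x⁻¹) h2 h3 h4 (fun i => hg'.2.2 _ (hs.sV i)) (fun i => by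
        have := hg'.2.1
        field_simp) hM hM' hMy hMy' (hs.reg A hA g' hg')
    have e : prl hh x p • (ε - ε') =
        (prl hh x p • ε - M.det • wf (fun l => s l * g⁻¹)) -
        (prl hh x p • ε' - M'.det • wf (fun l => s l * g'⁻¹)) +
        (M.det • wf (fun l => s l * g⁻¹) - M'.det • wf (fun l => s l * g'⁻¹)) := by
      rw [smul_sub]
      abel
    rw [e]
    exact Submodule.add_mem _ (Submodule.sub_mem _ h1 h1') h5
  · rw [smul_sub]
    exact Submodule.sub_mem _ (hε.mem_NS hA hx) (hε'.mem_NS hA hx)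

theorem GoodAt.add (hε : GoodAt V V' X' s hh A ε) {x : K} (hx : Un V A x)
    (hδ : prl hh x p • δ ∈ NS (FC p A) (fun a => hh a * x⁻¹) p) :
    GoodAt V V' X' s hh A (ε + δ) := by
  refine ⟨fun hA => ?_, fun hA => ?_⟩
  · obtain ⟨g, M, hg, hM, hMy, h1⟩ := hε.exists_matrix hA hx
    refine ⟨x, g, M, hx, hg, hM, hMy, ?_⟩
    rw [smul_add, add_sub_right_comm]
    exact Submodule.add_mem _ h1 hδ
  · refine ⟨x, hx, ?_⟩
    rw [smul_add]
    exact Submodule.add_mem _ (hε.mem_NS hA hx) hδ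

theorem GoodAt.mem_FC (hs : SData X X' V' n s P) (hV : ∀ a, hh a ∈ V)
    (hε : GoodAt V V' X' s hh A ε) {x : K} (hx : Un V A x) :
    prl hh x p • ε ∈ FC p A := by
  have hle : NS (FC p A) (fun a => hh a * x⁻¹) p ≤ FC p A :=
    NS_le (C := A) (HE_stable A) (fun a => hx.2.2 _ (hV a)) p
  by_cases hA : A ∈ SS V' X' s
  · obtain ⟨g, M, hg, hM, hMy, h1⟩ := hε.exists_matrix hA hx
    have h2 : M.det • wf (k := k) (fun l => s l * g⁻¹) ∈ FC p A :=
      HE_stable A _ (HF_det_mem hM) _ (wf_mem fun i => hg.2.2 _ (hs.sV i))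
    have h3 := Submodule.add_mem _ (hle h1) h2
    rwa [sub_add_cancel] at h3
  · exact hle (hε.mem_NS hA hx)

/-- Good representatives on the charts of the cover.  Proof: type N: `ε = 0`.  Type S, with
`g`: `f = s / g` is in `C = CJ V {w}` and `hh / w ∈ NS C f p` (`IsPr.mem_iff`,
`IsPr.mem_NS_iff` for `QC_self`; at the points of `S` by `HData.mem`, at the other ones some `f_l`
is a unit); so `hh / w = M f` with a matrix `M` over `C`.  Take
`ε = (prl hh w p)⁻¹ • det M • wf f`; at `A ∉ S` use `fund_unit` with `v = wf f`. -/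
theorem exists_good_chart (hX : IsCompleteNormal X) (h : IsPr V X) (hp : 1 ≤ p)
    (hs : SData X X' V' n s P) (hH : HData X X' V V' s P hh h0) {𝒲 : Set K}
    (hC : CData X X' V V' s 𝒲) {w : K} (hw : w ∈ 𝒲) (hw0 : w ≠ 0) :
    ∃ ε : EE k K p, ∀ A ∈ X, Un V A w → GoodAt V V' X' s hh A ε := by
  rcases hC.typ w hw with ⟨g, hg⟩ | hN
  · have hwV := hC.mem w hw
    have hZ : ∀ z ∈ ({w} : Set K), z ∈ V ∧ z ≠ 0 := by
      intro z hz
      rw [Set.mem_singleton_iff.1 hz]
      exact ⟨hwV, hw0⟩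
    have hy : ∀ a, hh a * w⁻¹ ∈ NS (Subalgebra.toSubmodule (CJ V {w}))
        (fun l => s l * g⁻¹) p := by
      intro a
      refine (IsPr.mem_NS_iff hX h (QC_self (k := k) (K := K)) (Set.finite_singleton w)
        (Set.singleton_nonempty w) hZ).2 fun A hA hun => ?_
      have hAw : Un V A w := hun w rfl
      obtain ⟨hAX', hAg⟩ := hg A hA hAw
      by_cases hAS : A ∈ SS V' X' s
      · exact hH.mem A hAS w g hAw hAg a
      · have h1 : ∃ l, Un V' A (s l) := by
          by_contra hcon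
          push Not at hcon
          exact hAS ⟨hAX', hcon⟩
        obtain ⟨l, hl⟩ := h1
        obtain ⟨h2, h3, h4⟩ := HP2_unit hAg hl
        exact NS_of_unit (C := A) (fun a ha v hv => A.mul_mem ha hv) l.2 h2 h4
          (hAw.2.2 _ (hH.hV a))
    choose M hM hMy using hy
    have hfil : Finset.univ.filter (fun a : Fin p => (a : ℕ) < p) = Finset.univ :=
      Finset.filter_true_of_mem (fun a _ => a.2)
    have hMy' : ∀ a, hh a * w⁻¹ = ∑ l, (Matrix.of M) a l * (s l * g⁻¹) := by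
      intro a
      rw [hMy a, hfil]
      refine Finset.sum_congr rfl fun l _ => ?_
      rw [smul_eq_mul, mul_comm, Matrix.of_apply]
    have hprl : prl hh w p ≠ 0 := prl_ne_zero hH.ne hw0 p
    refine ⟨(prl hh w p)⁻¹ • ((Matrix.of M).det • wf (fun l => s l * g⁻¹)), fun A hA hAw => ?_⟩
    obtain ⟨hAX', hAg⟩ := hg A hA hAw
    have hCA : CJ V {w} ≤ A := (CJ_le_iff hZ).2 (by
      intro z hz
      rw [Set.mem_singleton_iff.1 hz]
      exact hAw)
    have hMA : ∀ i j, (Matrix.of M) i j ∈ A := fun i j => hCA (hM i j)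
    refine ⟨fun hAS => ?_, fun hAS => ?_⟩
    · refine ⟨w, g, Matrix.of M, hAw, hAg, hMA, hMy', ?_⟩
      rw [← mul_smul, mul_inv_cancel₀ hprl, one_smul, sub_self]
      exact Submodule.zero_mem _
    · refine ⟨w, hAw, ?_⟩
      rw [← mul_smul, mul_inv_cancel₀ hprl, one_smul]
      have h1 : ∃ l, Un V' A (s l) := by
        by_contra hcon
        push Not at hcon
        exact hAS ⟨hAX', hcon⟩
      obtain ⟨l, hl⟩ := h1
      obtain ⟨h2, h3, h4⟩ := HP2_unit hAg hl
      have hfA : ∀ i, s i * g⁻¹ ∈ A := fun i => hAg.2.2 _ (hs.sV i)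
      exact fund_unit (f := fun l => s l * g⁻¹) (l := l) hfA h2 h4 hMA hMy' (wf_mem hfA)
  · refine ⟨0, fun A hA hAw => ⟨fun hAS => absurd hAS (hN A hA hAw), fun _ => ⟨w, hAw, ?_⟩⟩⟩
    rw [smul_zero]
    exact Submodule.zero_mem _

theorem HP2_cd_pair {ι E : Type*} [LinearOrder ι] [AddCommGroup E] (c : Finset ι → E) {i j : ι}
    (hij : i < j) : cd c {i, j} = c {j} - c {i} := by
  have hne : i ≠ j := ne_of_lt hij
  have h1 : ({i, j} : Finset ι).erase i = {j} := by
    ext x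
    simp only [Finset.mem_erase, Finset.mem_insert, Finset.mem_singleton]
    constructor
    · rintro ⟨h1, h2 | h2⟩
      · exact absurd h2 h1
      · exact h2
    · rintro rfl
      exact ⟨hne.symm, Or.inr rfl⟩
  have h2 : ({i, j} : Finset ι).erase j = {i} := by
    ext x
    simp only [Finset.mem_erase, Finset.mem_insert, Finset.mem_singleton]
    constructor
    · rintro ⟨h1, h2 | h2⟩
      · exact h2
      · exact absurd h2 h1
    · rintro rfl
      exact ⟨hne, Or.inl rfl⟩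
  have h3 : sg i ({i, j} : Finset ι) = 1 := by
    have : ({i, j} : Finset ι).filter (· < i) = ∅ := by
      ext x
      simp only [Finset.mem_filter, Finset.mem_insert, Finset.mem_singleton,
        Finset.notMem_empty, iff_false]
      rintro ⟨rfl | rfl, h⟩
      · exact lt_irrefl _ h
      · exact lt_asymm h hij
    unfold sg
    rw [this]
    simp
  have h4 : sg j ({i, j} : Finset ι) = -1 := by
    have : ({i, j} : Finset ι).filter (· < j) = {i} := by
      ext x
      simp only [Finset.mem_filter, Finset.mem_insert, Finset.mem_singleton]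
      constructor
      · rintro ⟨rfl | rfl, h⟩
        · rfl
        · exact absurd h (lt_irrefl _)
      · rintro rfl
        exact ⟨Or.inl rfl, hij⟩
    unfold sg
    rw [this]
    simp
  unfold cd
  rw [Finset.sum_pair hne, h1, h2, h3, h4]
  simp [sub_eq_add_neg]

theorem HP2_pair {ι : Type*} [LinearOrder ι] {J : Finset ι} (hJ : J.card = 2) :
    ∃ i j, i < j ∧ J = {i, j} := by
  obtain ⟨x, y, hxy, rfl⟩ := Finset.card_eq_two.1 hJ
  rcases lt_or_gt_of_ne hxy with h | h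
  · exact ⟨x, y, h, rfl⟩
  · exact ⟨y, x, h, Finset.pair_comm x y⟩

/-- (V.1) of the paper proof.  Let `w_1, ..., w_r` be the nonzero elements of `𝒲` and
`ε_i` as in `exists_good_chart`.  The cochain `e J = ε_i` for `J = {i}` has
`cd e J ∈ TT V hh p {z, w_i, w_j}` for `J = {i, j}` (`GoodAt.sub`, `mem_TT_iff_loc`), and
`cd (cd e) = 0`; by `acy_TT` (index type `Fin r ⊕ₗ Unit` or `Fin (r + 1)`) `cd e = cd β` on the sets
with two elements, `β {i} ∈ TT V hh p {z, w_i}`; so `ε = ε_i - β {i}` does not depend on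
`i`, and it is good at the `A ∈ X` with `Un V A z` (take `i` with `Un V A (w_i)`, `GoodAt.add`). -/
theorem exists_good (hX : IsCompleteNormal X) (h : IsPr V X) (hp : 1 ≤ p)
    (hs : SData X X' V' n s P) (hH : HData X X' V V' s P hh h0) {𝒲 : Set K}
    (hC : CData X X' V V' s 𝒲) {z : K} (hz : z ∈ V) (hz0 : z ≠ 0) :
    ∃ ε : EE k K p, ∀ A ∈ X, Un V A z → GoodAt V V' X' s hh A ε := by
  classical
  obtain ⟨oK⟩ : Nonempty (LinearOrder K) :=
    ⟨linearOrderOfSTO (WellOrderingRel (α := K))⟩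
  have hch : ∀ w, ∃ ε : EE k K p, w ∈ 𝒲 → w ≠ 0 →
      ∀ A ∈ X, Un V A w → GoodAt V V' X' s hh A ε := by
    intro w
    by_cases hw : w ∈ 𝒲 ∧ w ≠ 0
    · obtain ⟨ε, hε⟩ := exists_good_chart hX h hp hs hH hC hw.1 hw.2
      exact ⟨ε, fun _ _ => hε⟩
    · exact ⟨0, fun h1 h2 => absurd ⟨h1, h2⟩ hw⟩
  choose ef hef using hch
  set I : Finset K := hC.fin.toFinset.filter (fun w => w ≠ 0) with hI
  have hIm : ∀ w, w ∈ I ↔ w ∈ 𝒲 ∧ w ≠ 0 := by
    intro w
    rw [hI, Finset.mem_filter, Set.Finite.mem_toFinset]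
  have hcov : ∀ A ∈ X, ∃ w ∈ I, Un V A w := by
    intro A hA
    obtain ⟨w, hw, hun⟩ := hC.cov A hA
    exact ⟨w, (hIm w).2 ⟨hw, hun.2.1⟩, hun⟩
  have hIV : ∀ w ∈ I, w ∈ V ∧ w ≠ 0 := fun w hw =>
    ⟨hC.mem w ((hIm w).1 hw).1, ((hIm w).1 hw).2⟩
  set e : Finset K → EE k K p := fun J => if h : ∃ i, J = {i} then ef h.choose else 0 with he
  have he1 : ∀ i, e {i} = ef i := by
    intro i
    have h1 : ∃ j, ({i} : Finset K) = {j} := ⟨i, rfl⟩
    have h2 : i = h1.choose := Finset.singleton_injective h1.choose_spec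
    rw [he]
    dsimp only
    rw [dif_pos h1, ← h2]
  have hacy := acy_TT (p := p) hX h (hh := hh) (l := p) (z := fun w : K => w) (I := I) (z0 := z)
    ⟨hz, hz0⟩ hIV (fun A hA _ => hcov A hA)
  have hval : Val (fun J : Finset K => TT V hh p ((fun w : K => w) '' (insert z J : Finset K))) I 2
      (cd e) := by
    intro J hJ hcard
    obtain ⟨i, j, hij, rfl⟩ := HP2_pair hcard
    have hiI : i ∈ I := hJ (by simp)
    have hjI : j ∈ I := hJ (by simp)
    beta_reduce
    rw [Set.image_id']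
    have hZ : ∀ x ∈ ((insert z {i, j} : Finset K) : Set K), x ∈ V ∧ x ≠ 0 := by
      intro x hx
      have hx' : x ∈ (insert z {i, j} : Finset K) := hx
      simp only [Finset.mem_insert, Finset.mem_singleton] at hx'
      rcases hx' with rfl | rfl | rfl
      · exact ⟨hz, hz0⟩
      · exact hIV _ hiI
      · exact hIV _ hjI
    have hjZ : j ∈ ((insert z {i, j} : Finset K) : Set K) := by
      show j ∈ (insert z {i, j} : Finset K)
      simp
    have hiZ : i ∈ ((insert z {i, j} : Finset K) : Set K) := by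
      show i ∈ (insert z {i, j} : Finset K)
      simp
    refine (mem_TT_iff_loc hX h (Finset.finite_toSet _) hZ hjZ).2 fun A hA hun => ?_
    rw [HP2_cd_pair e hij, he1, he1]
    exact GoodAt.sub hs
      (hef j ((hIm j).1 hjI).1 ((hIm j).1 hjI).2 A hA (hun j hjZ))
      (hef i ((hIm i).1 hiI).1 ((hIm i).1 hiI).2 A hA (hun i hiZ)) (hun j hjZ)
  obtain ⟨b, hb1, hb2⟩ := hacy 2 (cd e) hval (fun J _ _ => cd_cd e J)
  have hconst : ∀ i ∈ I, ∀ j ∈ I, i < j → ef i - b {i} = ef j - b {j} := by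
    intro i hi j hj hij
    have h1 := hb2 {i, j} (by
      intro x hx
      simp only [Finset.mem_insert, Finset.mem_singleton] at hx
      rcases hx with rfl | rfl
      · exact hi
      · exact hj) (Finset.card_pair (ne_of_lt hij))
    rw [HP2_cd_pair e hij, HP2_cd_pair b hij, he1, he1] at h1
    have h2 : ef j = b {j} - b {i} + ef i := by
      rw [← h1]
      abel
    rw [h2]
    abel
  have hconst' : ∀ i ∈ I, ∀ j ∈ I, ef i - b {i} = ef j - b {j} := by
    intro i hi j hj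
    rcases lt_trichotomy i j with h1 | h1 | h1
    · exact hconst i hi j hj h1
    · rw [h1]
    · exact (hconst j hj i hi h1).symm
  obtain ⟨i0, hi0, -⟩ := hcov ⊤ hX.top_mem
  refine ⟨ef i0 - b {i0}, fun A hA hAz => ?_⟩
  obtain ⟨w, hw, hAw⟩ := hcov A hA
  rw [hconst' i0 hi0 w hw, sub_eq_add_neg]
  refine GoodAt.add (hef w ((hIm w).1 hw).1 ((hIm w).1 hw).2 A hA hAw) hAw ?_
  rw [smul_neg]
  refine Submodule.neg_mem _ ?_
  have h1 := hb1 {w} (by
    intro x hx
    rw [Finset.mem_singleton.1 hx]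
    exact hw) rfl
  beta_reduce at h1
  rw [Set.image_id'] at h1
  have hZ : ∀ x ∈ ((insert z {w} : Finset K) : Set K), x ∈ V ∧ x ≠ 0 := by
    intro x hx
    have hx' : x ∈ (insert z {w} : Finset K) := hx
    simp only [Finset.mem_insert, Finset.mem_singleton] at hx'
    rcases hx' with rfl | rfl
    · exact ⟨hz, hz0⟩
    · exact hIV _ hw
  have hwZ : w ∈ ((insert z {w} : Finset K) : Set K) := by
    show w ∈ (insert z {w} : Finset K)
    simp
  refine (mem_TT_iff_loc hX h (Finset.finite_toSet _) hZ hwZ).1 h1 A hA fun x hx => ?_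
  have hx' : x ∈ (insert z {w} : Finset K) := hx
  simp only [Finset.mem_insert, Finset.mem_singleton] at hx'
  rcases hx' with rfl | rfl
  · exact hAz
  · exact hAw

end Flip28
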