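import Pool.Agent.FlipB_h28.HP2
import Pool.Agent.FlipB_h28.HC2

/-! # The class of `S` -/

open scoped KaehlerDifferential

universe u

namespace Flip28

variable {k K : Type u} [Field k] [Field K] [Algebra k K] {X X' : Set (Subalgebra k K)}
  {V V' : Submodule k K} {n p : ℕ} {s hh : Fin p → K} {h0 : K} {P : Subalgebra k K}

theorem HQ_cd_pair {ι E : Type*} [LinearOrder ι] [AddCommGroup E] (c : Finset ι → E) {i j : ι}
    (hij : i < j) : cd c {i, j} = c {j} - c {i} := by
  have hne : i ≠ j := ne_of_lt hij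
  have h1 : ({i, j} : Finset ι).erase i = {j} := by
    ext x
    simp only [Finset.mem_erase, Finset.mem_insert, Finset.mem_singleton]
    constructor
    · rintro ⟨h1, h2 | h2⟩
      · exact absurd h2 h1
      · exact h2
    · rintro rfl
      exact ⟨hne.symm, Or.inr rfl⟩
  have h2 : ({i, j} : Finset ι).erase j = {i} := by
    ext x
    simp only [Finset.mem_erase, Finset.mem_insert, Finset.mem_singleton]
    constructor
    · rintro ⟨h1, h2 | h2⟩
      · exact h2
      · exact absurd h2 h1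
    · rintro rfl
      exact ⟨hne, Or.inl rfl⟩
  have h3 : ({i, j} : Finset ι).filter (· < i) = ∅ := by
    ext x
    simp only [Finset.mem_filter, Finset.mem_insert, Finset.mem_singleton, Finset.notMem_empty,
      iff_false, not_and, not_lt]
    rintro (h | h)
    · exact h.ge
    · rw [h]
      exact hij.le
  have h4 : ({i, j} : Finset ι).filter (· < j) = {i} := by
    ext x
    simp only [Finset.mem_filter, Finset.mem_insert, Finset.mem_singleton]
    constructor
    · rintro ⟨h | h, h'⟩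
      · exact h
      · rw [h] at h'
        exact absurd h' (lt_irrefl _)
    · rintro rfl
      exact ⟨Or.inl rfl, hij⟩
  unfold cd
  rw [Finset.sum_pair hne, h1, h2]
  unfold sg
  rw [h3, h4, Finset.card_empty, Finset.card_singleton, pow_zero, pow_one, one_smul, neg_smul,
    one_smul, ← sub_eq_add_neg]

/-- (V.2), (V.3) of the paper proof -/
theorem exists_class {ι : Type*} [LinearOrder ι] (hX : IsCompleteNormal X) (h : IsPr V X)
    (hp : 1 ≤ p) (hs : SData X X' V' n s P) (hH : HData X X' V V' s P hh h0) {𝒲 : Set K}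
    (hC : CData X X' V V' s 𝒲) {z : ι → K} {I : Finset ι} (hz : ∀ i ∈ I, z i ∈ V ∧ z i ≠ 0) :
    ∃ c : Finset ι → EE k K p,
      Val (fun J : Finset ι => FC p (CJ V (z '' (J : Set ι)))) I (p + 1) c ∧
      Coc I (p + 1) c ∧
      (∀ I' ⊆ I, (∀ i ∈ I', ∀ A ∈ X, Un V A (z i) → A ∉ SS V' X' s) →
        Cob (fun J : Finset ι => FC p (CJ V (z '' (J : Set ι)))) I' (p + 1) c) ∧
      (∀ e : Fin (p + 1) → ι, Function.Injective e → (∀ a, e a ∈ I) →
        (∀ a : Fin p, z (e a.succ) = hh a) →
        ∃ (σ : ℤ) (φ : Fin (p + 1) → EE k K p) (ε : EE k K p), (σ = 1 ∨ σ = -1) ∧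
          (∀ a, φ a ∈ FC p (CJ V (z '' (((Finset.univ.image e).erase (e a) : Finset ι) :
            Set ι)))) ∧
          c (Finset.univ.image e) = σ • ε + ∑ a, φ a ∧
          ∀ A ∈ X, Un V A (z (e 0)) → GoodAt V V' X' s hh A ε) := by
  classical
  have hgood : ∀ i : ι, ∃ ε : EE k K p, i ∈ I → ∀ A ∈ X, Un V A (z i) →
      GoodAt V V' X' s hh A ε := by
    intro i
    by_cases hi : i ∈ I
    · obtain ⟨ε, hε⟩ := exists_good hX h hp hs hH hC (hz i hi).1 (hz i hi).2
      exact ⟨ε, fun _ => hε⟩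
    · exact ⟨0, fun h' => absurd h' hi⟩
  choose εi hεi using hgood
  let ε : Finset ι → EE k K p := fun J => ∑ i ∈ J, εi i
  have hε1 : ∀ i, ε {i} = εi i := fun i => Finset.sum_singleton _ _
  let G : ℕ → Finset ι → Submodule k (EE k K p) := fun l J => GG V hh l (z '' (J : Set ι))
  let U : ℕ → Finset ι → Submodule k (EE k K p) := fun l J => UU V hh l (z '' (J : Set ι))
  let T : ℕ → Finset ι → Submodule k (EE k K p) := fun l J => TT V hh l (z '' (J : Set ι))
  have hzig : ∀ I' ⊆ I, ZigData p G U T I' := fun I' hI' =>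
    zigData hX h hH.hV hH.ne hH.reg fun i hi => hz i (hI' hi)
  have hG0 : ∀ J : Finset ι, J.Nonempty → G 0 J = FC p (CJ V (z '' (J : Set ι))) :=
    fun J hJ => GG_zero ((Finset.coe_nonempty.2 hJ).image z)
  have hzJ : ∀ J ⊆ I, ∀ w ∈ z '' (J : Set ι), w ∈ V ∧ w ≠ 0 := by
    rintro J hJ _ ⟨i, hi, rfl⟩
    exact hz i (hJ hi)
  have hfin : ∀ J : Finset ι, (z '' (J : Set ι)).Finite := fun J => J.finite_toSet.image z
  have h1 : Val (G p) I 1 ε := by
    intro J hJ hq
    obtain ⟨i, rfl⟩ := Finset.card_eq_one.1 hq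
    have hi : i ∈ I := hJ (Finset.mem_singleton_self i)
    have hzi : z i ∈ z '' (({i} : Finset ι) : Set ι) :=
      Set.mem_image_of_mem z (Finset.mem_coe.2 (Finset.mem_singleton_self i))
    rw [hε1]
    refine (mem_GG_iff_loc hX h (hfin _) (hzJ _ hJ) hzi).2 fun A hA hun => ?_
    exact (hεi i hi A hA (hun _ hzi)).mem_FC hs hH.hV (hun _ hzi)
  have h2 : ∀ J ⊆ I, J.card = 2 → cd ε J ∈ T p J := by
    have key : ∀ i j, i < j → ({i, j} : Finset ι) ⊆ I → cd ε {i, j} ∈ T p {i, j} := by
      intro i j hij hJ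
      have hi : i ∈ I := hJ (Finset.mem_insert_self _ _)
      have hj : j ∈ I := hJ (Finset.mem_insert_of_mem (Finset.mem_singleton_self _))
      have hzi : z i ∈ z '' (({i, j} : Finset ι) : Set ι) :=
        Set.mem_image_of_mem z (Finset.mem_coe.2 (Finset.mem_insert_self _ _))
      have hzj : z j ∈ z '' (({i, j} : Finset ι) : Set ι) :=
        Set.mem_image_of_mem z (Finset.mem_coe.2
          (Finset.mem_insert_of_mem (Finset.mem_singleton_self _)))
      rw [HQ_cd_pair ε hij, hε1, hε1]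
      refine (mem_TT_iff_loc hX h (hfin _) (hzJ _ hJ) hzi).2 fun A hA hun => ?_
      exact (hεi j hj A hA (hun _ hzj)).sub hs (hεi i hi A hA (hun _ hzi)) (hun _ hzi)
    intro J hJ hq
    obtain ⟨i, j, hij, rfl⟩ := Finset.card_eq_two.1 hq
    rcases lt_or_gt_of_ne hij with h' | h'
    · exact key i j h' hJ
    · rw [Finset.pair_comm] at hJ ⊢
      exact key j i h' hJ
  obtain ⟨c, hc⟩ := Zig.exists_zero (hzig I (Finset.Subset.refl I)) h1 h2
  obtain ⟨hc1, hc2⟩ := Zig.coc (hzig I (Finset.Subset.refl I)) h1 h2 hc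
  refine ⟨c, ?_, hc2, ?_, ?_⟩
  · intro J hJ hq
    have := hc1 J hJ hq
    rwa [hG0 J (Finset.card_pos.1 (by omega))] at this
  · intro I' hI' hns
    obtain ⟨b, hb1, hb2⟩ := Zig.cob (hzig I' hI') (ε := ε) (c := c) (by
      intro J hJ hq
      obtain ⟨i, rfl⟩ := Finset.card_eq_one.1 hq
      have hi' : i ∈ I' := hJ (Finset.mem_singleton_self i)
      have hi : i ∈ I := hI' hi'
      have hzi : z i ∈ z '' (({i} : Finset ι) : Set ι) :=
        Set.mem_image_of_mem z (Finset.mem_coe.2 (Finset.mem_singleton_self i))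
      rw [hε1]
      refine (mem_TT_iff_loc hX h (hfin _) (hzJ _ (hJ.trans hI')) hzi).2 fun A hA hun => ?_
      exact (hεi i hi A hA (hun _ hzi)).mem_NS (hns i hi' A hA (hun _ hzi)) (hun _ hzi))
      (hc.mono hI')
    refine ⟨b, fun J hJ hq => ?_, hb2⟩
    have := hb1 J hJ hq
    rwa [hG0 J (Finset.card_pos.1 (by omega))] at this
  · intro e he heI hze
    have hI' : Finset.univ.image e ⊆ I := by
      intro i hi
      obtain ⟨a, _, rfl⟩ := Finset.mem_image.1 hi
      exact heI a
    have hmem : ∀ (J : Finset ι) (a : Fin p), e a.succ ∈ J → hh a ∈ z '' (J : Set ι) := by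
      intro J a ha
      rw [← hze a]
      exact Set.mem_image_of_mem z (Finset.mem_coe.2 ha)
    obtain ⟨σ, φ, hσ, hφ, hcφ⟩ := Zig.special he (hzig _ hI') (ε := ε) (c := c) (by
        intro l J hJ hl
        exact GG_le_GG hH.ne (hzJ J (hJ.trans hI')) l (hmem J l hl)) (by
        intro l a hal J hJ ha
        exact GG_le_UU hH.ne (hzJ J (hJ.trans hI')) hal (hmem J a ha))
        (fun J hJ hq => h1 J (hJ.trans hI') hq) (hc.mono hI')
    refine ⟨σ, φ, εi (e 0), hσ, fun a => ?_, ?_, hεi (e 0) (heI 0)⟩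
    · have h3 := hφ a
      have h4 : ((Finset.univ.image e).erase (e a)).card = p := by
        rw [Finset.card_erase_of_mem (Finset.mem_image_of_mem e (Finset.mem_univ a)),
          Finset.card_image_of_injective _ he, Finset.card_univ, Fintype.card_fin]
        rfl
      rwa [hG0 _ (Finset.card_pos.1 (by omega))] at h3
    · rw [hcφ, hε1]

end Flip28
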