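import Pool.Agent.FlipB_h28.HJ1
import Pool.Agent.FlipB_h28.HD4

/-! # Finiteness of the Cech cohomology of the forms -/

open scoped KaehlerDifferential

universe u

namespace Flip28

variable {k K : Type u} [Field k] [Field K] [Algebra k K] {X : Set (Subalgebra k K)}
  {V : Submodule k K} {p : ℕ}

/-- the homomorphism `T_i ↦ x_i` -/
theorem HR_exists_hom {r : ℕ} (x : Fin r → K) (hx : ∀ i, x i ≠ 0) :
    ∃ φ : Lau k r →ₐ[k] K, ∀ α : Fin r → ℤ,
      φ (AddMonoidAlgebra.single α 1) = ∏ i, x i ^ α i := by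
  let F : Multiplicative (Fin r → ℤ) →* K :=
    { toFun := fun α => ∏ i, x i ^ (Multiplicative.toAdd α i)
      map_one' := by simp
      map_mul' := fun α β => by
        rw [← Finset.prod_mul_distrib]
        refine Finset.prod_congr rfl fun i _ => ?_
        rw [toAdd_mul, Pi.add_apply, zpow_add₀ (hx i)] }
  refine ⟨AddMonoidAlgebra.lift k K (Fin r → ℤ) F, fun α => ?_⟩
  rw [AddMonoidAlgebra.lift_single, one_smul]
  rfl

theorem HR_single {r : ℕ} {J : Finset (Fin r)} {l : ℤ} {α : Fin r → ℤ} (h1 : ∑ i, α i = l)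
    (h2 : ∀ i ∉ J, 0 ≤ α i) (c : k) : (AddMonoidAlgebra.single α c : Lau k r) ∈ LJ k J l := by
  classical
  intro β hβ
  rw [AddMonoidAlgebra.coeff_single, Finsupp.single_apply] at hβ
  by_cases h : α = β
  · subst h
    exact ⟨h1, h2⟩
  · rw [if_neg h] at hβ
    exact absurd rfl hβ

/-- the Laurent polynomials of degree zero -/
def HR_D (k : Type u) [Field k] {r : ℕ} (J : Finset (Fin r)) : Subalgebra k (Lau k r) where
  carrier := {f | f ∈ LJ k J 0}
  mul_mem' := by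
    intro f g hf hg
    have := HD3_mul_mem (Finset.Subset.refl J) hf hg
    rwa [add_zero] at this
  add_mem' := by
    intro f g hf hg
    exact (LJ k J 0).add_mem hf hg
  algebraMap_mem' := by
    intro c
    rw [AddMonoidAlgebra.coe_algebraMap]
    exact HR_single (by simp) (fun i _ => le_rfl) c

theorem HR_prod_single {r : ℕ} (x : Fin r → K) (i : Fin r) (n : ℤ) :
    ∏ m, x m ^ (Pi.single i n : Fin r → ℤ) m = x i ^ n := by
  classical
  rw [Finset.prod_eq_single i]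
  · rw [Pi.single_eq_same]
  · intro m _ hm
    rw [Pi.single_eq_of_ne hm, zpow_zero]
  · intro h
    exact absurd (Finset.mem_univ _) h

theorem HR_sum_single {r : ℕ} (i : Fin r) (n : ℤ) :
    ∑ m, (Pi.single i n : Fin r → ℤ) m = n := by
  classical
  rw [Finset.sum_eq_single i]
  · rw [Pi.single_eq_same]
  · intro m _ hm
    rw [Pi.single_eq_of_ne hm]
  · intro h
    exact absurd (Finset.mem_univ _) h

theorem HR_CJ_le {r : ℕ} {x : Fin r → K} (hx : ∀ i, x i ∈ V ∧ x i ≠ 0)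
    (hspan : V ≤ Submodule.span k (Set.range x)) {φ : Lau k r →ₐ[k] K}
    (hφ : ∀ α : Fin r → ℤ, φ (AddMonoidAlgebra.single α 1) = ∏ i, x i ^ α i)
    (J : Finset (Fin r)) : CJ V (x '' (J : Set (Fin r))) ≤ (HR_D k J).map φ := by
  classical
  refine Algebra.adjoin_le ?_
  rintro _ ⟨v, hv, _, ⟨j, hj, rfl⟩, rfl⟩
  have hv' := hspan hv
  show v * (x j)⁻¹ ∈ (HR_D k J).map φ
  clear hv
  induction hv' using Submodule.span_induction with
  | mem v hv =>
    obtain ⟨i, rfl⟩ := hv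
    refine ⟨AddMonoidAlgebra.single (Pi.single i 1 - Pi.single j 1) 1, ?_, ?_⟩
    · refine HR_single ?_ ?_ 1
      · simp only [Pi.sub_apply, Finset.sum_sub_distrib, HR_sum_single, sub_self]
      · intro m hm
        have h1 : m ≠ j := fun h => hm (h ▸ hj)
        rw [Pi.sub_apply, Pi.single_eq_of_ne h1, sub_zero]
        by_cases h2 : m = i
        · rw [h2, Pi.single_eq_same]
          exact zero_le_one
        · rw [Pi.single_eq_of_ne h2]
    · change φ (AddMonoidAlgebra.single (Pi.single i 1 - Pi.single j 1) 1) = _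
      rw [hφ]
      have h1 : ∀ m, x m ^ ((Pi.single i 1 - Pi.single j 1 : Fin r → ℤ) m) =
          x m ^ ((Pi.single i 1 : Fin r → ℤ) m) * (x m ^ ((Pi.single j 1 : Fin r → ℤ) m))⁻¹ := by
        intro m
        rw [Pi.sub_apply, zpow_sub₀ (hx m).2, div_eq_mul_inv]
      rw [Finset.prod_congr rfl fun m _ => h1 m, Finset.prod_mul_distrib, HR_prod_single,
        Finset.prod_inv_distrib, HR_prod_single, zpow_one, zpow_one]
  | zero =>
    rw [zero_mul]
    exact Subalgebra.zero_mem _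
  | add a b _ _ h1 h2 =>
    rw [add_mul]
    exact Subalgebra.add_mem _ h1 h2
  | smul c a _ h1 =>
    rw [smul_mul_assoc]
    exact Subalgebra.smul_mem _ h1 c

theorem HR_zpow {C : Subalgebra k K} {z : K} (h : z ∈ C) {n : ℤ} (h' : n < 0 → z⁻¹ ∈ C) :
    z ^ n ∈ C := by
  rcases le_or_gt 0 n with hn | hn
  · obtain ⟨m, rfl⟩ := Int.eq_ofNat_of_zero_le hn
    rw [zpow_natCast]
    exact C.pow_mem h m
  · obtain ⟨m, hm⟩ := Int.eq_ofNat_of_zero_le (show 0 ≤ -n by omega)
    have h1 : n = -(m : ℤ) := by omega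
    rw [h1, zpow_neg, zpow_natCast, ← inv_pow]
    exact C.pow_mem (h' hn) m

theorem HR_zpow_sum {ι : Type*} {z : K} (hz : z ≠ 0) (S : Finset ι) (α : ι → ℤ) :
    ∏ m ∈ S, z ^ α m = z ^ ∑ m ∈ S, α m := by
  classical
  induction S using Finset.induction_on with
  | empty => rw [Finset.prod_empty, Finset.sum_empty, zpow_zero]
  | insert i S hi ih => rw [Finset.prod_insert hi, Finset.sum_insert hi, ih, zpow_add₀ hz]

theorem HR_coeff {r : ℕ} {x : Fin r → K} (hx : ∀ i, x i ∈ V ∧ x i ≠ 0)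
    {φ : Lau k r →ₐ[k] K}
    (hφ : ∀ α : Fin r → ℤ, φ (AddMonoidAlgebra.single α 1) = ∏ i, x i ^ α i)
    {J : Finset (Fin r)} {i : Fin r} (hi : i ∈ J) {l : ℕ} {f : Lau k r}
    (hf : f ∈ LJ k J (-(l : ℤ))) : φ f * x i ^ l ∈ CJ V (x '' (J : Set (Fin r))) := by
  classical
  rw [← AddMonoidAlgebra.sum_coeff_single f, map_finsuppSum, Finsupp.sum, Finset.sum_mul]
  refine Subalgebra.sum_mem _ fun α hα => ?_
  rw [Finsupp.mem_support_iff] at hα
  obtain ⟨h1, h2⟩ := hf α hα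
  have h3 : φ (AddMonoidAlgebra.single α (f.coeff α)) = f.coeff α • ∏ i, x i ^ α i := by
    rw [← hφ, ← map_smul]
    congr 1
    simp
  have h4 : (∏ m, x m ^ α m) * x i ^ l = ∏ m, (x m * (x i)⁻¹) ^ α m := by
    have h5 : ∏ m, ((x i)⁻¹) ^ α m = x i ^ l := by
      rw [HR_zpow_sum (inv_ne_zero (hx i).2), h1, inv_zpow, zpow_neg, inv_inv, zpow_natCast]
    rw [← h5, ← Finset.prod_mul_distrib]
    exact Finset.prod_congr rfl fun m _ => (mul_zpow _ _ _).symm
  rw [h3, smul_mul_assoc, h4]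
  refine Subalgebra.smul_mem _ (Subalgebra.prod_mem _ fun m _ => ?_) _
  refine HR_zpow (mul_inv_mem_CJ (hx m).1 (Set.mem_image_of_mem x (Finset.mem_coe.2 hi))) fun hneg => ?_
  have hm : m ∈ J := by
    by_contra hm
    have := h2 m hm
    omega
  rw [mul_inv, inv_inv, mul_comm]
  exact mul_inv_mem_CJ (hx i).1 (Set.mem_image_of_mem x (Finset.mem_coe.2 hm))

theorem HR_iter {r : ℕ} {x : Fin r → K} (hx : ∀ i, x i ∈ V ∧ x i ≠ 0) (j : Fin r)
    (S : Finset (Fin r)) : ∀ {v : EE k K p},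
    v ∈ FC p (CJ V (insert (x j) (x '' (S : Set (Fin r))))) →
    ∃ u : K, u ≠ 0 ∧ u⁻¹ ∈ CJ V (insert (x j) (x '' (S : Set (Fin r)))) ∧
      u • v ∈ FC p (CJ V {x j}) := by
  classical
  induction S using Finset.induction_on with
  | empty =>
    intro v hv
    refine ⟨1, one_ne_zero, ?_, ?_⟩
    · rw [inv_one]
      exact Subalgebra.one_mem _
    · rw [one_smul]
      have h1 : insert (x j) (x '' ((∅ : Finset (Fin r)) : Set (Fin r))) = {x j} := by
        simp
      rwa [h1] at hv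
  | insert i S hiS ih =>
    intro v hv
    have h1 : insert (x j) (x '' ((insert i S : Finset (Fin r)) : Set (Fin r))) =
        insert (x i) (insert (x j) (x '' (S : Set (Fin r)))) := by
      rw [Finset.coe_insert, Set.image_insert_eq, Set.insert_comm]
    rw [h1] at hv ⊢
    obtain ⟨t, ht⟩ := QC.exists_pow_smul_mem (V := V) QC_FC
      (Z := insert (x j) (x '' (S : Set (Fin r)))) (z := x j) (z' := x i)
      (Set.mem_insert _ _) (by
        intro w hw
        rcases Set.mem_insert_iff.1 hw with hw | ⟨m, _, rfl⟩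
        · rw [hw]
          exact hx j
        · exact hx m) (hx i).1 (hx i).2 hv
    obtain ⟨u, hu0, hu1, hu2⟩ := ih ht
    refine ⟨u * (x i * (x j)⁻¹) ^ t, mul_ne_zero hu0 (pow_ne_zero _
      (mul_ne_zero (hx i).2 (inv_ne_zero (hx j).2))), ?_, ?_⟩
    · rw [mul_inv, ← inv_pow, mul_inv, inv_inv, mul_comm (x i)⁻¹]
      refine Subalgebra.mul_mem _ (CJ_mono (Set.subset_insert _ _) hu1)
        (Subalgebra.pow_mem _ (mul_inv_mem_CJ (hx j).1 (Set.mem_insert _ _)) _)
    · rw [mul_smul]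
      exact hu2

theorem HR_mem_MJ {r : ℕ} {φ : Lau k r →ₐ[k] K} {N : ℕ} {a : Fin N → ℤ} {m : Fin N → EE k K p}
    {J : Finset (Fin r)} {i : Fin N} {f : Lau k r} (hf : f ∈ LJ k J (-(a i))) :
    φ f • m i ∈ MJ φ a m J := by
  classical
  refine ⟨Pi.single i f, fun j => ?_, ?_⟩
  · by_cases hj : j = i
    · subst hj
      rw [Pi.single_eq_same]
      exact hf
    · rw [Pi.single_eq_of_ne hj]
      exact Submodule.zero_mem _
  · rw [Finset.sum_eq_single i]
    · rw [Pi.single_eq_same]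
    · intro j _ hj
      rw [Pi.single_eq_of_ne hj, map_zero, zero_smul]
    · intro h
      exact absurd (Finset.mem_univ _) h

/-- Proof: let `e_{j,s}` generate `FC p (CJ V {x j})` over `CJ V {x j}` (`QC.fin` for `QC_FC`), and
let `l` be so large that `(x j / x i) ^ l • e_{j,s} ∈ FC p (CJ V {x i})` for all `i, j, s`
(`QC.exists_pow_smul_mem`).  Put `m_{j,s} = x j ^ l • e_{j,s}`, `a_{j,s} = l`.  For `J` nonempty
`FC p (CJ V (x '' J)) = MJ φ a m J`.
`⊇`: let `i ∈ J`; a monomial `T ^ α` with `∑ α = - l`, `α_j ≥ 0` for `j ∉ J` is mapped to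
`x i ^ (-l)` times an element of `CJ V (x '' J)`, and `(x j / x i) ^ l • e_{j,s}` is in
`FC p (CJ V {x i})`.
`⊆`: let `v ∈ FC p (CJ V (x '' J))`, `j ∈ J`; for some `t` we have
`(∏_{i ∈ J} x i / x j) ^ t • v ∈ FC p (CJ V {x j})` (iterate `QC.exists_pow_smul_mem`), so
`v = ∑ c_s (∏_{i ∈ J} x j / x i) ^ t x j ^ (-l) • m_{j,s}` with `c_s ∈ CJ V {x j}`, a polynomial in
the `x i / x j`. -/
theorem HR_rep (hX : IsCompleteNormal X) (h : IsPr V X) {r : ℕ} {x : Fin r → K}
    (hx : ∀ i, x i ∈ V ∧ x i ≠ 0) (hspan : V ≤ Submodule.span k (Set.range x))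
    {φ : Lau k r →ₐ[k] K} (hφ : ∀ α : Fin r → ℤ,
      φ (AddMonoidAlgebra.single α 1) = ∏ i, x i ^ α i) :
    ∃ (s' : ℕ) (a : Fin s' → ℤ) (m : Fin s' → EE k K p), ∀ J : Finset (Fin r), J.Nonempty →
      FC p (CJ V (x '' (J : Set (Fin r)))) = MJ φ a m J := by
  classical
  have hfg : ∀ j, (CJ V {x j}).FG := fun j => CJ_fg h.fg (Set.finite_singleton _)
  choose mm e he hspan' using fun j => (QC_FC (p := p)).fin (CJ V {x j}) (hfg j)
  have hex : ∀ (i j : Fin r) (s : Fin (mm j)), ∃ t : ℕ,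
      (x j * (x i)⁻¹) ^ t • e j s ∈ FC p (CJ V {x i}) := by
    intro i j s
    refine QC.exists_pow_smul_mem QC_FC (Set.mem_singleton _) ?_ (hx j).1 (hx j).2 ?_
    · intro w hw
      rw [Set.mem_singleton_iff.1 hw]
      exact hx i
    · exact (QC_FC (p := p)).mono _ _
        (CJ_mono (Set.singleton_subset_iff.2 (Set.mem_insert _ _))) (he j s)
  choose t ht using hex
  obtain ⟨l, hl⟩ : ∃ l : ℕ, ∀ i j s, t i j s ≤ l :=
    ⟨Finset.univ.sup fun q : (_ : Fin r) × (j : Fin r) × Fin (mm j) => t q.1 q.2.1 q.2.2,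
      fun i j s => Finset.le_sup
        (f := fun q : (_ : Fin r) × (j : Fin r) × Fin (mm j) => t q.1 q.2.1 q.2.2)
        (Finset.mem_univ ⟨i, j, s⟩)⟩
  have ht' : ∀ i j s, (x j * (x i)⁻¹) ^ l • e j s ∈ FC p (CJ V {x i}) := by
    intro i j s
    have h1 : l = (l - t i j s) + t i j s := (Nat.sub_add_cancel (hl i j s)).symm
    rw [h1, pow_add, mul_smul]
    exact (QC_FC (p := p)).stable _ _ (Subalgebra.pow_mem _
      (mul_inv_mem_CJ (hx j).1 (Set.mem_singleton _)) _) _ (ht i j s)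
  let σ := (j : Fin r) × Fin (mm j)
  let eq : Fin (Fintype.card σ) ≃ σ := (Fintype.equivFin σ).symm
  let g : σ → EE k K p := fun q => x q.1 ^ l • e q.1 q.2
  refine ⟨Fintype.card σ, fun _ => (l : ℤ), fun i => g (eq i), fun J hJ => le_antisymm ?_ ?_⟩
  · intro v hv
    obtain ⟨j, hj⟩ := hJ
    have h1 : insert (x j) (x '' (J : Set (Fin r))) = x '' (J : Set (Fin r)) :=
      Set.insert_eq_of_mem ⟨j, hj, rfl⟩
    obtain ⟨u, hu0, hu1, hu2⟩ := HR_iter (p := p) hx j J (v := v) (by rw [h1]; exact hv)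
    rw [h1] at hu1
    obtain ⟨c, hc, hcv⟩ := hspan' j _ hu2
    have h2 : v = ∑ s, (u⁻¹ * c s) • e j s := by
      have h3 : v = u⁻¹ • (u • v) := by
        rw [smul_smul, inv_mul_cancel₀ hu0, one_smul]
      rw [h3, hcv, Finset.smul_sum]
      exact Finset.sum_congr rfl fun s _ => smul_smul _ _ _
    rw [h2]
    refine Submodule.sum_mem _ fun s _ => ?_
    have h3 : u⁻¹ * c s ∈ CJ V (x '' (J : Set (Fin r))) :=
      Subalgebra.mul_mem _ hu1 (CJ_mono (Set.singleton_subset_iff.2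
        (Set.mem_image_of_mem x (Finset.mem_coe.2 hj))) (hc s))
    obtain ⟨f, hf, hfφ⟩ := HR_CJ_le hx hspan hφ J h3
    have hfφ' : φ f = u⁻¹ * c s := hfφ
    have h4 : (u⁻¹ * c s) • e j s =
        φ (f * AddMonoidAlgebra.single (Pi.single j (-(l : ℤ))) 1) • g (eq (eq.symm ⟨j, s⟩)) := by
      rw [Equiv.apply_symm_apply, map_mul, hφ, HR_prod_single, hfφ', smul_smul]
      congr 1
      have h5 := (hx j).2
      rw [zpow_neg, zpow_natCast, mul_assoc, inv_mul_cancel₀ (pow_ne_zero _ h5), mul_one]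
    rw [h4]
    refine HR_mem_MJ (m := fun i => g (eq i)) (i := eq.symm ⟨j, s⟩) ?_
    have h6 : (AddMonoidAlgebra.single (Pi.single j (-(l : ℤ))) 1 : Lau k r) ∈
        LJ k J (-(l : ℤ)) := by
      refine HR_single (HR_sum_single _ _) (fun m hm => ?_) 1
      have h7 : m ≠ j := fun h7 => hm (h7 ▸ hj)
      rw [Pi.single_eq_of_ne h7]
    have h8 := HD3_mul_mem (Finset.Subset.refl J) hf h6
    rwa [zero_add] at h8
  · rintro _ ⟨f, hf, rfl⟩
    obtain ⟨i₀, hi₀⟩ := hJ
    refine Submodule.sum_mem _ fun i _ => ?_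
    have h1 : φ (f i) • g (eq i) = (φ (f i) * x i₀ ^ l) •
        ((x (eq i).1 * (x i₀)⁻¹) ^ l • e (eq i).1 (eq i).2) := by
      change φ (f i) • (x (eq i).1 ^ l • e (eq i).1 (eq i).2) = _
      rw [smul_smul, smul_smul, mul_pow, inv_pow]
      congr 1
      have h5 := pow_ne_zero l (hx i₀).2
      field_simp
    rw [h1]
    exact (QC_FC (p := p)).stable _ _ (HR_coeff hx hφ hi₀ (hf i)) _
      ((QC_FC (p := p)).mono _ _ (CJ_mono (Set.singleton_subset_iff.2
        (Set.mem_image_of_mem x (Finset.mem_coe.2 hi₀))))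
        (ht' i₀ (eq i).1 (eq i).2))

/-- Proof: `HR_rep`, `serre_finite`, `finH_congr`. -/
theorem finH_FC (hX : IsCompleteNormal X) (h : IsPr V X) {r : ℕ} {x : Fin r → K}
    (hx : ∀ i, x i ∈ V ∧ x i ≠ 0) (hspan : V ≤ Submodule.span k (Set.range x)) {q : ℕ}
    (hq : 2 ≤ q) :
    FinH (fun J : Finset (Fin r) => FC p (CJ V (x '' (J : Set (Fin r))))) Finset.univ q := by
  obtain ⟨φ, hφ⟩ := HR_exists_hom (k := k) x (fun i => (hx i).2)
  obtain ⟨s', a, m, hm⟩ := HR_rep (p := p) hX h hx hspan hφ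
  exact finH_congr hq (fun J _ hJ => (hm J hJ).symm) (serre_finite φ a m q)

end Flip28
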