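import Pool.Agent.FlipB_h28.HA

/-! # Transfer of cochains along an embedding of the index sets; linear relations -/

universe u

namespace Flip28

variable {ι ι' : Type*} [LinearOrder ι] [LinearOrder ι'] {E : Type*} [AddCommGroup E]

theorem HS1_add {k : Type*} [Ring k] [Module k E] {F : Finset ι → Submodule k E}
    {I : Finset ι} {q : ℕ} {c c' : Finset ι → E} (h : Cob F I q c) (h' : Cob F I q c') :
    Cob F I q (c + c') := by
  obtain ⟨b, hb, hc⟩ := h
  obtain ⟨b', hb', hc'⟩ := h'
  refine ⟨b + b', fun J hJ hJq => (F J).add_mem (hb J hJ hJq) (hb' J hJ hJq), fun J hJ hJq => ?_⟩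
  rw [Pi.add_apply, hc J hJ hJq, hc' J hJ hJq, cd_add]

theorem HS1_smul {k : Type*} [Field k] [Module k E] {F : Finset ι → Submodule k E}
    {I : Finset ι} {q : ℕ} {c : Finset ι → E} (a : k) (h : Cob F I q c) :
    Cob F I q (a • c) := by
  obtain ⟨b, hb, hc⟩ := h
  refine ⟨a • b, fun J hJ hJq => (F J).smul_mem a (hb J hJ hJq), fun J hJ hJq => ?_⟩
  rw [Pi.smul_apply, hc J hJ hJq, cd_smul]

theorem HS1_sum {k : Type*} [Field k] [Module k E] {F : Finset ι → Submodule k E}
    {I : Finset ι} {q : ℕ} {σ : Type*} {S : Finset σ} {c : σ → Finset ι → E}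
    (h : ∀ i ∈ S, Cob F I q (c i)) : Cob F I q (∑ i ∈ S, c i) := by
  classical
  induction S using Finset.induction_on with
  | empty =>
    refine ⟨0, fun J _ _ => (F J).zero_mem, fun J _ _ => ?_⟩
    rw [Finset.sum_empty, cd_zero, Pi.zero_apply]
  | insert a S ha ih =>
    rw [Finset.sum_insert ha]
    exact HS1_add (h a (Finset.mem_insert_self _ _))
      (ih fun i hi => h i (Finset.mem_insert_of_mem hi))

/-- Proof: `b' J' = b J` if `J' = J.map e` (`J = J'.preimage e`), `0` otherwise; `cd_map_emb`. -/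
theorem cob_map {k : Type*} [Ring k] [Module k E] (e : ι ↪o ι') {F : Finset ι' → Submodule k E}
    {I : Finset ι} {q : ℕ} {c : Finset ι' → E}
    (h : Cob (fun J : Finset ι => F (J.map e.toEmbedding)) I q
      (fun J => c (J.map e.toEmbedding))) : Cob F (I.map e.toEmbedding) q c := by
  classical
  obtain ⟨b, hb, hc⟩ := h
  refine ⟨fun J' => b (J'.preimage e e.injective.injOn), fun J' hJ' hq => ?_, fun J' hJ' hq => ?_⟩
  · obtain ⟨J, hJ, rfl⟩ := Finset.subset_map_iff.1 hJ'
    have h1 : (J.map e.toEmbedding).preimage e e.injective.injOn = J :=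
      Finset.preimage_map e.toEmbedding J
    change b ((J.map e.toEmbedding).preimage e e.injective.injOn) ∈ F (J.map e.toEmbedding)
    rw [h1]
    exact hb J hJ (by simpa using hq)
  · obtain ⟨J, hJ, rfl⟩ := Finset.subset_map_iff.1 hJ'
    rw [cd_map_emb]
    have h1 : (fun J : Finset ι => b ((J.map e.toEmbedding).preimage e e.injective.injOn)) = b :=
      funext fun J => congrArg b (Finset.preimage_map e.toEmbedding J)
    rw [h1]
    exact hc J hJ (by simpa using hq)

/-- If `FinH F I q` with the finite dimensional space `W` and there are more than `dim W` cocycles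
then some nontrivial linear combination of them is a coboundary. -/
theorem exists_relation {k : Type*} [Field k] [Module k E] {F : Finset ι → Submodule k E}
    {I : Finset ι} {q : ℕ} (h : FinH F I q) : ∃ v : ℕ, ∀ (N : ℕ) (c : Fin N → Finset ι → E),
      (∀ i, Val F I q (c i) ∧ Coc I q (c i)) → v < N →
      ∃ a : Fin N → k, a ≠ 0 ∧ Cob F I q (∑ i, a i • c i) := by
  obtain ⟨W, hW, h⟩ := h
  refine ⟨Module.finrank k W, fun N c hc hN => ?_⟩
  have h1 : ∀ i, ∃ w : W, Cob F I q (c i - (w : Finset ι → E)) := by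
    intro i
    obtain ⟨w, hw, hw'⟩ := h (c i) (hc i).1 (hc i).2
    exact ⟨⟨w, hw⟩, hw'⟩
  choose w hw using h1
  obtain ⟨a, ha, ha0⟩ := (Submodule.ne_bot_iff _).1
    (LinearMap.ker_ne_bot_of_finrank_lt (f := Fintype.linearCombination k w) (by simpa using hN))
  refine ⟨a, ha0, ?_⟩
  have h2 : ∑ i, a i • w i = 0 := by
    rw [LinearMap.mem_ker, Fintype.linearCombination_apply] at ha
    exact ha
  have h3 : ∑ i, a i • (w i : Finset ι → E) = 0 := by
    have h4 := congrArg (fun y : W => (y : Finset ι → E)) h2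
    simpa using h4
  have h5 : ∑ i, a i • c i = ∑ i, a i • (c i - (w i : Finset ι → E)) := by
    simp only [smul_sub, Finset.sum_sub_distrib, h3, sub_zero]
  rw [h5]
  exact HS1_sum fun i _ => HS1_smul _ (hw i)

/-- images of cochains under a map which is linear on the values -/
theorem cob_image {k : Type*} [Field k] [Module k E] {E' : Type*} [AddCommGroup E'] [Module k E']
    (ρ : E →ₗ[k] E') {F : Finset ι → Submodule k E} {F' : Finset ι → Submodule k E'}
    {I : Finset ι} (hF : ∀ J ⊆ I, ∀ v ∈ F J, ρ v ∈ F' J) {q : ℕ} {c : Finset ι → E}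
    (h : Cob F I q c) : Cob F' I q (fun J => ρ (c J)) := by
  obtain ⟨b, hb, hc⟩ := h
  refine ⟨fun J => ρ (b J), fun J hJ hq => hF J hJ _ (hb J hJ hq), fun J hJ hq => ?_⟩
  have h1 := cd_map ρ.toAddMonoidHom b J
  change ρ (c J) = _
  rw [hc J hJ hq]
  exact h1.symm

theorem val_image {k : Type*} [Field k] [Module k E] {E' : Type*} [AddCommGroup E'] [Module k E']
    (ρ : E →ₗ[k] E') {F : Finset ι → Submodule k E} {F' : Finset ι → Submodule k E'}
    {I : Finset ι} (hF : ∀ J ⊆ I, ∀ v ∈ F J, ρ v ∈ F' J) {q : ℕ} {c : Finset ι → E}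
    (h : Val F I q c) : Val F' I q (fun J => ρ (c J)) := by
  exact fun J hJ hq => hF J hJ _ (h J hJ hq)

theorem coc_image {k : Type*} [Field k] [Module k E] {E' : Type*} [AddCommGroup E'] [Module k E']
    (ρ : E →ₗ[k] E') {I : Finset ι} {q : ℕ} {c : Finset ι → E}
    (h : Coc I q c) : Coc I q (fun J => ρ (c J)) := by
  intro J hJ hq
  have h1 := cd_map ρ.toAddMonoidHom c J
  rw [h J hJ hq, map_zero] at h1
  exact h1

theorem Cob.mono {k : Type*} [Ring k] [Module k E] {F : Finset ι → Submodule k E}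
    {I I' : Finset ι} {q : ℕ} {c : Finset ι → E} (hI : I' ⊆ I) (h : Cob F I q c) :
    Cob F I' q c := by
  obtain ⟨b, hb, hc⟩ := h
  exact ⟨b, fun J hJ => hb J (hJ.trans hI), fun J hJ => hc J (hJ.trans hI)⟩

theorem Cob.add {k : Type*} [Ring k] [Module k E] {F : Finset ι → Submodule k E}
    {I : Finset ι} {q : ℕ} {c c' : Finset ι → E} (h : Cob F I q c) (h' : Cob F I q c') :
    Cob F I q (c + c') := by
  exact HS1_add h h'

theorem Cob.smul {k : Type*} [Field k] [Module k E] {F : Finset ι → Submodule k E}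
    {I : Finset ι} {q : ℕ} {c : Finset ι → E} (a : k) (h : Cob F I q c) :
    Cob F I q (a • c) := by
  exact HS1_smul a h

theorem Cob.sum {k : Type*} [Field k] [Module k E] {F : Finset ι → Submodule k E}
    {I : Finset ι} {q : ℕ} {σ : Type*} {S : Finset σ} {c : σ → Finset ι → E}
    (h : ∀ i ∈ S, Cob F I q (c i)) : Cob F I q (∑ i ∈ S, c i) := by
  exact HS1_sum h

theorem Coc.smul {k : Type*} [Field k] [Module k E] {I : Finset ι} {q : ℕ} {c : Finset ι → E}
    (a : k) (h : Coc I q c) : Coc I q (a • c) := by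
  intro J hJ hq
  rw [cd_smul, h J hJ hq, smul_zero]

theorem Coc.sum {I : Finset ι} {q : ℕ} {σ : Type*} {S : Finset σ} {c : σ → Finset ι → E}
    (h : ∀ i ∈ S, Coc I q (c i)) : Coc I q (∑ i ∈ S, c i) := by
  intro J hJ hq
  rw [cd_sum]
  exact Finset.sum_eq_zero fun i hi => h i hi J hJ hq

/-- evaluation of a coboundary at the image of an injective map -/
theorem Cob.eval {k : Type*} [Ring k] [Module k E] {F : Finset ι → Submodule k E}
    {I : Finset ι} {p : ℕ} {c : Finset ι → E} (h : Cob F I (p + 1) c) {e : Fin (p + 1) → ι}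
    (he : Function.Injective e) (heI : ∀ a, e a ∈ I) :
    ∃ φ : Fin (p + 1) → E, (∀ a, φ a ∈ F ((Finset.univ.image e).erase (e a))) ∧
      c (Finset.univ.image e) = ∑ a, φ a := by
  obtain ⟨b, hb, hc⟩ := h
  have hJI : Finset.univ.image e ⊆ I := by
    intro j hj
    obtain ⟨a, _, rfl⟩ := Finset.mem_image.1 hj
    exact heI a
  have hcard : (Finset.univ.image e).card = p + 1 := by
    rw [Finset.card_image_of_injective _ he, Finset.card_univ, Fintype.card_fin]
  refine ⟨fun a => sg (e a) (Finset.univ.image e) • b ((Finset.univ.image e).erase (e a)),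
    fun a => ?_, ?_⟩
  · refine (F _).toAddSubgroup.zsmul_mem (hb _ ((Finset.erase_subset _ _).trans hJI) ?_) _
    rw [Finset.card_erase_add_one (Finset.mem_image_of_mem e (Finset.mem_univ a)), hcard]
  · rw [hc _ hJI hcard]
    unfold cd
    rw [Finset.sum_image fun a _ b _ h => he h]

end Flip28
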