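import Pool.Agent.FlipB_h28.HN1
import Pool.Agent.FlipB_h28.HP2
import Pool.Agent.FlipB_h28.HI

/-! # The restriction of the class of `S` to the closure of `P` -/

open scoped KaehlerDifferential

universe u

namespace Flip28

variable {k K : Type u} [Field k] [Field K] [Algebra k K] {X X' : Set (Subalgebra k K)}
  {V V' : Submodule k K} {n p : ℕ} {s hh : Fin p → K} {h0 : K} {P A : Subalgebra k K}
  {ε : EE k K p}

theorem IM_mono {κ : Type u} [Field κ] [Algebra k κ] (π : P →ₐ[k] κ) {C C' : Subalgebra k K}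
    (h : C ≤ C') : IM π C ≤ IM π C' := by
  rintro _ ⟨a, ha, rfl⟩
  exact ⟨a, h ha, rfl⟩

/-- Proof: `CJ V Z` is generated by the `CJ V {z}`, `z ∈ Z`, and all algebras are contained in
`P`. -/
theorem IM_CJ_le {κ : Type u} [Field κ] [Algebra k κ] (π : P →ₐ[k] κ) {Z : Set K}
    (hZ : ∀ z ∈ Z, Un V P z) : IM π (CJ V Z) ≤ ⨆ z ∈ Z, IM π (CJ V {z}) := by
  have h1 : CJ V Z ≤ ((⨆ z ∈ Z, IM π (CJ V {z})).comap π).map P.val := by
    refine Algebra.adjoin_le ?_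
    rintro _ ⟨v, hv, z, hz, rfl⟩
    have hm : v * z⁻¹ ∈ P := (hZ z hz).2.2 v hv
    refine ⟨⟨v * z⁻¹, hm⟩, ?_, rfl⟩
    exact (le_iSup₂ (f := fun z (_ : z ∈ Z) => IM π (CJ V {z})) z hz)
      ⟨⟨v * z⁻¹, hm⟩, mul_inv_mem_CJ hv rfl, rfl⟩
  rintro _ ⟨a, ha, rfl⟩
  obtain ⟨a', ha', e⟩ := h1 ha
  have h2 : a' = a := Subtype.ext e
  rw [← h2]
  exact ha'

theorem IM_fg {κ : Type u} [Field κ] [Algebra k κ] (π : P →ₐ[k] κ) {C : Subalgebra k K}
    (hC : C.FG) (hCP : C ≤ P) : (IM π C).FG := by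
  obtain ⟨S, hS⟩ := hC
  have hSC : ∀ x ∈ (S : Set K), x ∈ C := fun x hx => by
    rw [← hS]
    exact Algebra.subset_adjoin hx
  have hT : (P.val ⁻¹' (S : Set K)).Finite :=
    S.finite_toSet.preimage (Subtype.val_injective.injOn)
  have h1 : C.comap P.val = Algebra.adjoin k (P.val ⁻¹' (S : Set K)) := by
    apply le_antisymm
    · intro a ha
      have h2 : (Algebra.adjoin k (P.val ⁻¹' (S : Set K))).map P.val = C := by
        rw [AlgHom.map_adjoin, Set.image_preimage_eq_of_subset, hS]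
        intro x hx
        exact ⟨⟨x, hCP (hSC x hx)⟩, rfl⟩
      have h3 : (a : K) ∈ (Algebra.adjoin k (P.val ⁻¹' (S : Set K))).map P.val := by
        rw [h2]
        exact ha
      obtain ⟨a', ha', e⟩ := h3
      have h4 : a' = a := Subtype.ext e
      rw [← h4]
      exact ha'
    · refine Algebra.adjoin_le ?_
      intro a ha
      exact hSC _ ha
  unfold IM
  rw [h1, AlgHom.map_adjoin]
  exact Subalgebra.fg_def.2 ⟨_, hT.image _, rfl⟩

/-- Proof: `P` is the localization of `C` at a prime and `π` is surjective. -/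
theorem IM_frac {κ : Type u} [Field κ] [Algebra k κ] (π : P →ₐ[k] κ)
    (hsurj : Function.Surjective π)
    (hker : ∀ a : P, π a = 0 ↔ (a : K) = 0 ∨ (a : K)⁻¹ ∉ P) {C : Subalgebra k K}
    (hC : IsLoc C P) : IsFractionRing (IM π C) κ := by
  refine LocAlg_frac (k := k) (K := κ) (IM π C) ?_
  intro z
  obtain ⟨a, rfl⟩ := hsurj z
  obtain ⟨r, hr, t, ht, htP, e⟩ := hC.2.2 a a.2
  by_cases ht0 : t = 0
  · have ha : a = 0 := by
      apply Subtype.ext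
      rw [e, ht0, inv_zero, mul_zero]
      rfl
    refine ⟨0, Subalgebra.zero_mem _, 1, Subalgebra.one_mem _, one_ne_zero, ?_⟩
    rw [ha, map_zero, zero_div]
  · have ht1 : π ⟨t, hC.1 ht⟩ ≠ 0 := by
      intro h
      rcases (hker _).1 h with h | h
      · exact ht0 h
      · exact h htP
    refine ⟨π ⟨r, hC.1 hr⟩, ⟨_, hr, rfl⟩, π ⟨t, hC.1 ht⟩, ⟨_, ht, rfl⟩, ht1, ?_⟩
    rw [eq_div_iff ht1, ← map_mul]
    congr 1
    apply Subtype.ext
    show (a : K) * t = r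
    rw [e]
    field_simp

/-- the restriction of `π` -/
theorem HS2_hom {κ : Type u} [Field κ] [Algebra k κ] (π : P →ₐ[k] κ) {C : Subalgebra k K}
    (hC : C ≤ P) : ∃ φ : C →+* IM π C, ∀ c : C, ((φ c : IM π C) : κ) = π ⟨c, hC c.2⟩ :=
  ⟨((π.comp (Subalgebra.inclusion hC)).codRestrict (IM π C)
    (fun c => ⟨⟨c, hC c.2⟩, c.2, rfl⟩)).toRingHom, fun _ => rfl⟩

/-- A maximal ideal of `IM π C` comes from a point `A ≤ P`, a localization of `C`.  Proof: the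
localization of `C` at the inverse image of `𝔫`. -/
theorem IM_exists_point {κ : Type u} [Field κ] [Algebra k κ] (π : P →ₐ[k] κ)
    (hker : ∀ a : P, π a = 0 ↔ (a : K) = 0 ∨ (a : K)⁻¹ ∉ P) {C : Subalgebra k K}
    (hC : IsLoc C P) (𝔫 : Ideal (IM π C)) (h𝔫 : 𝔫.IsPrime) :
    ∃ A, IsLoc C A ∧ A ≤ P ∧ ∀ (c : P) (hc : (c : K) ∈ C) (y : IM π C), (y : κ) = π c →
      (y ∈ 𝔫 ↔ (c : K) = 0 ∨ (c : K)⁻¹ ∉ A) := by
  obtain ⟨φ, hφ⟩ := HS2_hom π hC.1
  have hq : (𝔫.comap φ).IsPrime := Ideal.comap_isPrime φ 𝔫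
  obtain ⟨A, hA, h1, h2⟩ := exists_isLoc_of_prime C (𝔫.comap φ)
  refine ⟨A, hA, ?_, ?_⟩
  · intro x hx
    obtain ⟨r, hr, t, ht, htA, rfl⟩ := hA.2.2 x hx
    by_cases ht0 : t = 0
    · rw [ht0, inv_zero, mul_zero]
      exact P.zero_mem
    · refine P.mul_mem (hC.1 hr) ?_
      by_contra htP
      have h3 : π ⟨t, hC.1 ht⟩ = 0 := (hker _).2 (Or.inr htP)
      refine h1 ⟨t, ht⟩ htA (fun h => ht0 (congrArg Subtype.val h)) ?_
      rw [Ideal.mem_comap]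
      have h4 : φ ⟨t, ht⟩ = 0 := by
        apply Subtype.ext
        rw [hφ]
        exact h3
      rw [h4]
      exact 𝔫.zero_mem
  · intro c hc y hy
    have h3 : φ ⟨c, hc⟩ = y := by
      apply Subtype.ext
      rw [hφ, hy]
    have h4 : y ∈ 𝔫 ↔ (⟨(c : K), hc⟩ : C) ∈ 𝔫.comap φ := by
      rw [Ideal.mem_comap, h3]
    rw [h4]
    constructor
    · intro h5
      by_cases hc0 : (c : K) = 0
      · exact Or.inl hc0
      · right
        intro h6
        exact h1 ⟨c, hc⟩ h6 (fun h => hc0 (congrArg Subtype.val h)) h5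
    · rintro (h5 | h5)
      · have h6 : (⟨(c : K), hc⟩ : C) = 0 := Subtype.ext h5
        rw [h6]
        exact Ideal.zero_mem _
      · by_contra h6
        exact h5 (h2 _ h6)

/-- Conversely a point `A ≤ P` of dimension `n`, a localization of `C`, gives a maximal ideal.
Proof: the prime `𝔮` of `C` defined by `A` is maximal: otherwise a localization at a maximal
ideal containing it would have a dimension `> n`. -/
theorem IM_exists_max {κ : Type u} [Field κ] [Algebra k κ] [CharZero k]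
    [Algebra.EssFiniteType k K] (b : Module.Basis (Fin n) K Ω[K⁄k]) (hX : IsCompleteNormal X)
    (π : P →ₐ[k] κ) (hker : ∀ a : P, π a = 0 ↔ (a : K) = 0 ∨ (a : K)⁻¹ ∉ P)
    {C : Subalgebra k K} (hCX : ∀ B, IsLoc C B → B ∈ X) (hC : IsLoc C P) (hA : IsLoc C A)
    (hAP : A ≤ P) (hd : ringKrullDim A = n) :
    ∃ 𝔫 : Ideal (IM π C), 𝔫.IsMaximal ∧ ∀ (c : P) (hc : (c : K) ∈ C) (y : IM π C),
      (y : κ) = π c → (y ∈ 𝔫 ↔ (c : K) = 0 ∨ (c : K)⁻¹ ∉ A) := by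
  obtain ⟨φ, hφ⟩ := HS2_hom π hC.1
  have hsurj : Function.Surjective φ := by
    rintro ⟨_, a, ha, rfl⟩
    refine ⟨⟨a, ha⟩, ?_⟩
    apply Subtype.ext
    rw [hφ]
    rfl
  have hloc : IsLocalRing A := hA.2.1
  -- the prime of `C` defined by `A`
  let 𝔮 : Ideal C := (IsLocalRing.maximalIdeal A).comap (Subalgebra.inclusion hA.1).toRingHom
  have h𝔮 : ∀ c : C, c ∈ 𝔮 ↔ (c : K) = 0 ∨ (c : K)⁻¹ ∉ A := by
    intro c
    show (Subalgebra.inclusion hA.1) c ∈ IsLocalRing.maximalIdeal A ↔ _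
    rw [IsLocalRing.mem_maximalIdeal, mem_nonunits_iff, LocAlg_unit, not_and_or, not_not]
    rfl
  have h𝔮p : 𝔮.IsPrime := Ideal.comap_isPrime _ _
  have h𝔮m : 𝔮.IsMaximal := by
    obtain ⟨𝔪, h𝔪, hle⟩ := Ideal.exists_le_maximal 𝔮 h𝔮p.ne_top
    obtain ⟨B, hB, h1, h2⟩ := exists_isLoc_of_prime C 𝔪
    have hBA : B ≤ A := by
      intro x hx
      obtain ⟨r, hr, t, ht, htB, rfl⟩ := hB.2.2 x hx
      by_cases ht0 : t = 0
      · rw [ht0, inv_zero, mul_zero]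
        exact A.zero_mem
      · refine A.mul_mem (hA.1 hr) ?_
        by_contra htA
        exact h1 ⟨t, ht⟩ htB (fun h => ht0 (congrArg Subtype.val h))
          (hle ((h𝔮 ⟨t, ht⟩).2 (Or.inr htA)))
    have hBeq : B = A := by
      by_contra hne
      have h3 := dim_lt_of_le_ne hX (hCX B hB) (hCX A hA) hBA hne
      obtain ⟨d, hd1, hd2⟩ := dim_le_basis b hX (hCX B hB)
      rw [hd, hd1] at h3
      have h4 : n < d := by exact_mod_cast h3
      omega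
    have h5 : 𝔪 ≤ 𝔮 := by
      intro c hc
      rw [h𝔮]
      by_cases hc0 : (c : K) = 0
      · exact Or.inl hc0
      · right
        intro h6
        rw [← hBeq] at h6
        exact h1 c h6 (fun h => hc0 (congrArg Subtype.val h)) hc
    have h6 : 𝔪 = 𝔮 := le_antisymm h5 hle
    rw [← h6]
    exact h𝔪
  have hkerφ : RingHom.ker φ ≤ 𝔮 := by
    intro c hc
    rw [RingHom.mem_ker] at hc
    have h1 : π ⟨c, hC.1 c.2⟩ = 0 := by
      rw [← hφ, hc]
      rfl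
    rw [h𝔮]
    rcases (hker _).1 h1 with h2 | h2
    · exact Or.inl h2
    · exact Or.inr fun h3 => h2 (hAP h3)
  have hcm : (𝔮.map φ).comap φ = 𝔮 := by
    rw [Ideal.comap_map_of_surjective φ hsurj]
    exact sup_eq_left.2 hkerφ
  have hmax : (𝔮.map φ).IsMaximal := by
    rcases Ideal.map_eq_top_or_isMaximal_of_surjective φ hsurj h𝔮m with h1 | h1
    · exfalso
      rw [h1, Ideal.comap_top] at hcm
      exact h𝔮p.ne_top hcm.symm
    · exact h1
  refine ⟨𝔮.map φ, hmax, ?_⟩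
  intro c hc y hy
  have h3 : φ ⟨c, hc⟩ = y := by
    apply Subtype.ext
    rw [hφ, hy]
  rw [← h3, ← Ideal.mem_comap, hcm, h𝔮]

/-- At a point `A ≤ P` of `S`, if `ε` is good at `A` and `h0` generates `V` at `A`.  Proof: by
`exists_matrix` with `x = h0`: `prl • ε - det M • wf f` is in `NS (FC p A) y p`, and
`wf y - det M • wf f` is in `NS (FC p A) f p` (`wf_expand`), contained in `NS (FC p A) y p` by
`HData.gen`. -/
theorem GoodAt.sub_wf (hs : SData X X' V' n s P) (hH : HData X X' V V' s P hh h0)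
    (hA : A ∈ SS V' X' s) (hAP : A ≤ P) (hε : GoodAt V V' X' s hh A ε) (hx : Un V A h0) :
    prl hh h0 p • ε - wf (fun a => hh a * h0⁻¹) ∈ NS (FC p A) (fun a => hh a * h0⁻¹) p := by
  obtain ⟨g, M, hg, hM, hy, h1⟩ := GoodAt.exists_matrix hA hε hx
  have hfA : ∀ l, s l * g⁻¹ ∈ A := fun l => hg.2.2 _ (hs.sV l)
  have h2 := wf_expand hfA hM (y := fun a => hh a * h0⁻¹) hy
  have h3 : NS (FC p A) (fun l => s l * g⁻¹) p ≤ NS (FC p A) (fun a => hh a * h0⁻¹) p := by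
    rintro _ ⟨w, hw, rfl⟩
    exact Submodule.sum_mem _ fun l _ =>
      HG3_smul_NS (hH.gen A hA hAP h0 g hx hg l) (hw l)
  have h4 := Submodule.sub_mem _ h1 (h3 h2)
  have h5 : prl hh h0 p • ε - M.det • wf (fun l => s l * g⁻¹) -
      (wf (fun a => hh a * h0⁻¹) - M.det • wf (fun l => s l * g⁻¹)) =
      prl hh h0 p • ε - wf (fun a => hh a * h0⁻¹) := by abel
  rw [h5] at h4
  exact h4

/-- sums of multiples of nonunits are not equal to `1` -/
theorem HS2_nonunit (hA : IsLocalRing A) (f : Fin p → K) (hf : ∀ l, f l ∈ A)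
    (hf' : ∀ l, (f l)⁻¹ ∈ A → f l = 0) (h1 : (1 : K) ∈ NS (Subalgebra.toSubmodule A) f p) :
    False := by
  obtain ⟨w, hw, e⟩ := h1
  have h2 : (1 : A) ∈ IsLocalRing.maximalIdeal A := by
    have h3 : (1 : A) = ∑ a : Fin p, (⟨f a, hf a⟩ : A) * ⟨w a, hw a⟩ := by
      apply Subtype.ext
      rw [Finset.filter_true_of_mem (fun a _ => a.2)] at e
      show (1 : K) = A.val (∑ a : Fin p, (⟨f a, hf a⟩ : A) * ⟨w a, hw a⟩)
      rw [map_sum, e]
      exact Finset.sum_congr rfl fun a _ => rfl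
    rw [h3]
    refine Ideal.sum_mem _ fun a _ => Ideal.mul_mem_right _ _ ?_
    rw [IsLocalRing.mem_maximalIdeal, mem_nonunits_iff, LocAlg_unit]
    rintro ⟨h4, h5⟩
    exact h4 (hf' a h5)
  exact (Ideal.ne_top_iff_one _).1 (IsLocalRing.maximalIdeal.isMaximal A).ne_top h2

theorem HS2_WC_mono {κ : Type u} [Field κ] [Algebra k κ] (bk : Module.Basis (Fin p) κ Ω[κ⁄k])
    {C C' : Subalgebra k κ} (h : C ≤ C') : WC bk C ≤ WC bk C' := by
  refine Submodule.span_mono ?_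
  rintro _ ⟨c, hc, a, ha, rfl⟩
  exact ⟨c, h hc, a, fun i => h (ha i), rfl⟩

/-- the local statement -/
theorem HS2_local [CharZero k] [Algebra.EssFiniteType k K] {κ : Type u} [Field κ] [Algebra k κ]
    {π : P →ₐ[k] κ} {bk : Module.Basis (Fin p) κ Ω[κ⁄k]} {ρ : EE k K p →ₗ[k] κ}
    (h1 : ∀ (a : P), ∀ v ∈ FC p P, ρ ((a : K) • v) = π a * ρ v)
    (h2 : ∀ a : Fin p → P, ρ (wf (fun i => (a i : K))) = jac bk (fun i => π (a i)))
    {C : Subalgebra k K} (hCP : C ≤ P) (hA : IsLoc C A) (y : Fin p → P) {v : EE k K p}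
    (hvP : v ∈ FC p P) (hv : v ∈ NS (FC p A) (fun i => (y i : K)) p) :
    ∃ (c : K) (hc : c ∈ C), c ≠ 0 ∧ c⁻¹ ∈ A ∧
      π ⟨c, hCP hc⟩ * ρ v ∈ NS (WC bk (IM π C)) (fun i => π (y i)) p := by
  obtain ⟨c, hc, hc0, hcA, h3⟩ := (QC_FC (k := k) (K := K) (p := p)).loc_NS hA hv
  have h4 := residue_NS h1 h2 hCP y h3
  rw [h1 ⟨c, hCP hc⟩ v hvP] at h4
  exact ⟨c, hc, hc0, hcA, h4⟩

/-- The residue argument.  Proof: `residue_contra` with `y a = π (z a / z 0)`,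
`z = Fin.cons h0 hh`, `C b = IM π (CJ V {z b})`, `η0 = ρ ε`.  `hint`: `integral_of_cover` and
`HData.cov`.  `h0`: `ρ (prl hh h0 p • ε) = (∏ v) * ρ ε` (`prl hh h0 p` is a unit of `P`, so
`ε ∈ FC p P`).  `hloc`: let `A` be the point of `IM_exists_point` for `𝔫`; if `A ∉ S`:
`prl • ε ∈ NS (FC p A) y p` (`GoodAt.mem_NS`), so `c • (prl • ε) ∈ NS (FC p C) y p` for some
`c ∈ C`, `c⁻¹ ∈ A` (`QC.loc_NS`), and apply `ρ` (`residue_NS`); if `A ∈ S` the same with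
`GoodAt.sub_wf`, `ρ (wf y) = jac bk v`.  `hex`: the point `A ≤ P` of `S` of `SData.ex`: no `hh a`
generates `V` at `A` (`HData.mem`; the `s l / g` are nonunits), so `h0` does (`HData.cov`), and
`dim A = n`: `IM_exists_max`. -/
theorem final_contra [CharZero k] [Algebra.EssFiniteType k K]
    (b : Module.Basis (Fin n) K Ω[K⁄k]) (hX : IsCompleteNormal X) (h : IsPr V X)
    (h' : IsPr V' X') (hp : 1 ≤ p) (hP : P ∈ X) (hs : SData X X' V' n s P)
    (hH : HData X X' V V' s P hh h0) (hε : ∀ A ∈ X, Un V A h0 → GoodAt V V' X' s hh A ε)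
    {κ : Type u} [Field κ] [Algebra k κ] [Algebra.EssFiniteType k κ] {π : P →ₐ[k] κ}
    {bk : Module.Basis (Fin p) κ Ω[κ⁄k]} {ρ : EE k K p →ₗ[k] κ}
    (hsurj : Function.Surjective π)
    (hker : ∀ a : P, π a = 0 ↔ (a : K) = 0 ∨ (a : K)⁻¹ ∉ P)
    (h1 : ∀ (a : P), ∀ v ∈ FC p P, ρ ((a : K) • v) = π a * ρ v)
    (h2 : ∀ a : Fin p → P, ρ (wf (fun i => (a i : K))) = jac bk (fun i => π (a i)))
    (a0 : k) (η : Fin (p + 1) → κ)
    (hη : ∀ a, η a ∈ WC bk (IM π (CJ V ((Fin.cons h0 hh : Fin (p + 1) → K) '' {b | b ≠ a}))))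
    (hsum : a0 • ρ ε = ∑ a, η a) : a0 = 0 := by
  set z : Fin (p + 1) → K := Fin.cons h0 hh with hzdef
  have hz0 : z 0 = h0 := rfl
  have hzs : ∀ a : Fin p, z a.succ = hh a := fun _ => rfl
  have hz : ∀ a, Un V P (z a) := by
    intro a
    refine Fin.cases ?_ (fun a' => ?_) a
    · exact hH.un0
    · exact hH.unP a'
  have hcov : ∀ A ∈ X, A ≤ P → ∃ i ∈ (Finset.univ : Finset (Fin (p + 1))), Un V A (z i) := by
    intro A hA hAP
    rcases hH.cov A hA hAP with h3 | ⟨a, h3⟩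
    · exact ⟨0, Finset.mem_univ _, h3⟩
    · exact ⟨a.succ, Finset.mem_univ _, h3⟩
  have hrP : ∀ a b, z a * (z b)⁻¹ ∈ P := fun a b => (hz b).2.2 _ (hz a).1
  let y : Fin (p + 1) → κ := fun a => π ⟨z a * h0⁻¹, hrP a 0⟩
  have hyne : ∀ a, y a ≠ 0 := by
    intro a h3
    rcases (hker _).1 h3 with h4 | h4
    · exact mul_ne_zero (hz a).2.1 (inv_ne_zero hH.un0.2.1) h4
    · apply h4
      show (z a * h0⁻¹)⁻¹ ∈ P
      rw [mul_inv, inv_inv, mul_comm]
      exact (hz a).2.2 _ hH.h0V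
  have hratio : ∀ a b, y a * (y b)⁻¹ = π ⟨z a * (z b)⁻¹, hrP a b⟩ := by
    intro a b
    rw [← div_eq_mul_inv, div_eq_iff (hyne b), ← map_mul]
    show π ⟨z a * h0⁻¹, hrP a 0⟩ = π _
    congr 1
    apply Subtype.ext
    show z a * h0⁻¹ = z a * (z b)⁻¹ * (z b * h0⁻¹)
    have := (hz b).2.1
    field_simp
  have hloc0 : ∀ b, IsLoc (CJ V {z b}) P := fun b => HJ1_isLoc_single hX h hP (hz b)
  have hC0 : IsLoc (CJ V {h0}) P := hloc0 0
  let yP : Fin p → P := fun a => ⟨hh a * h0⁻¹, hrP a.succ 0⟩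
  let v : Fin p → κ := fun a => π (yP a)
  have hv : ∀ a : Fin p, v a = y a.succ * (y 0)⁻¹ := by
    intro a
    rw [hratio]
    rfl
  -- the element `prl`
  have hprl : ((∏ a, yP a : P) : K) = prl hh h0 p := by
    unfold prl
    rw [Finset.filter_true_of_mem (fun a _ => a.2)]
    exact map_prod P.val yP Finset.univ
  have hprl0 : prl hh h0 p ≠ 0 := prl_ne_zero hH.ne hH.un0.2.1 p
  have hprlinv : (prl hh h0 p)⁻¹ ∈ P := by
    unfold prl
    rw [← Finset.prod_inv_distrib]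
    refine Subalgebra.prod_mem _ fun a _ => ?_
    rw [mul_inv, inv_inv, mul_comm]
    exact (hH.unP a).2.2 _ hH.h0V
  have hFCA : ∀ A ∈ X, Un V A h0 → prl hh h0 p • ε ∈ FC p A := fun A hA hun =>
    GoodAt.mem_FC hs hH.hV (hε A hA hun) hun
  have hFCC : prl hh h0 p • ε ∈ FC p (CJ V {h0}) := by
    refine (IsPr.mem_iff hX h (F := fun C => FC p C) QC_FC (Set.finite_singleton h0)
      (Set.singleton_nonempty h0) ?_).2 ?_
    · intro w hw
      rw [Set.mem_singleton_iff.1 hw]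
      exact ⟨hH.h0V, hH.un0.2.1⟩
    · intro A hA hun
      exact hFCA A hA (hun h0 rfl)
  have hFCP : prl hh h0 p • ε ∈ FC p P := hFCA P hP hH.un0
  have hεP : ε ∈ FC p P := by
    have h3 := HE_stable P _ hprlinv _ hFCP
    rw [smul_smul, inv_mul_cancel₀ hprl0, one_smul] at h3
    exact h3
  have hρ : ρ (prl hh h0 p • ε) = (∏ a, v a) * ρ ε := by
    rw [← hprl, h1 _ ε hεP, map_prod]
  have hwfP : wf (k := k) (fun a => hh a * h0⁻¹) ∈ FC p P := wf_mem fun a => (yP a).2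
  have hρwf : ρ (wf (fun a => hh a * h0⁻¹)) = jac bk v := h2 yP
  have hinX : ∀ B, IsLoc (CJ V {h0}) B → B ∈ X ∧ Un V B h0 := by
    intro B hB
    have h3 := (IsPr.isLoc_iff hX h (Set.finite_singleton h0) (Set.singleton_nonempty h0) (by
      intro w hw
      rw [Set.mem_singleton_iff.1 hw]
      exact ⟨hH.h0V, hH.un0.2.1⟩)).1 hB
    exact ⟨h3.1, h3.2 h0 rfl⟩
  have hlocS : ∀ A, IsLoc (CJ V {h0}) A → A ≤ P → A ∈ SS V' X' s →
      ∃ (c : K) (hc : c ∈ CJ V {h0}), c ≠ 0 ∧ c⁻¹ ∈ A ∧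
        π ⟨c, hC0.1 hc⟩ * ((∏ a, v a) * ρ ε - jac bk v) ∈
          NS (WC bk (IM π (CJ V {h0}))) v p := by
    intro A hA hAP hAS
    obtain ⟨hAX, hun⟩ := hinX A hA
    have h3 := GoodAt.sub_wf hs hH hAS hAP (hε A hAX hun) hun
    obtain ⟨c, hc, hc0, hcA, h4⟩ := HS2_local h1 h2 hC0.1 hA yP
      (Submodule.sub_mem _ hFCP hwfP) h3
    rw [map_sub, hρ, hρwf] at h4
    exact ⟨c, hc, hc0, hcA, h4⟩
  refine residue_contra hp bk y hyne (fun b => IM π (CJ V {z b})) ?_ ?_ ?_ ?_ v hv (ρ ε) ?_ ?_ ?_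
    a0 η ?_ hsum
  · intro b
    exact IM_fg π (CJ_fg h.fg (Set.finite_singleton _)) (hloc0 b).1
  · exact IM_frac π hsurj hker (hloc0 0)
  · intro a b
    rw [hratio]
    exact ⟨⟨z a * (z b)⁻¹, hrP a b⟩, mul_inv_mem_CJ (hz a).1 rfl, rfl⟩
  · intro b x hx
    have h3 := integral_of_cover hX h hP π hsurj hker (I := Finset.univ) (z := z)
      (fun i _ => hz i) hcov (Finset.mem_univ b) hx
    have hset : {t : κ | ∃ j ∈ (Finset.univ : Finset (Fin (p + 1))), ∃ w : P,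
        (w : K) = z j * (z b)⁻¹ ∧ t = π w} = Set.range fun a => y a * (y b)⁻¹ := by
      ext t
      constructor
      · rintro ⟨j, -, w, hw, rfl⟩
        refine ⟨j, ?_⟩
        show y j * (y b)⁻¹ = π w
        rw [hratio]
        congr 1
        exact Subtype.ext hw.symm
      · rintro ⟨j, rfl⟩
        exact ⟨j, Finset.mem_univ _, ⟨z j * (z b)⁻¹, hrP j b⟩, rfl, hratio j b⟩
    rw [hset] at h3
    exact h3
  · rw [← hρ]
    exact residue_mem h1 h2 hC0.1 hFCC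
  · intro 𝔫 h𝔫 _
    obtain ⟨A, hA, hAP, h3⟩ := IM_exists_point π hker hC0 𝔫 h𝔫.isPrime
    have hnot : ∀ (c : K) (hc : c ∈ CJ V {h0}), c ≠ 0 → c⁻¹ ∈ A →
        (⟨π ⟨c, hC0.1 hc⟩, ⟨c, hC0.1 hc⟩, hc, rfl⟩ : IM π (CJ V {h0})) ∉ 𝔫 := by
      intro c hc hc0 hcA h4
      rcases (h3 ⟨c, hC0.1 hc⟩ hc _ rfl).1 h4 with h5 | h5
      · exact hc0 h5
      · exact h5 hcA
    by_cases hAS : A ∈ SS V' X' s
    · right
      obtain ⟨c, hc, hc0, hcA, h4⟩ := hlocS A hA hAP hAS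
      exact ⟨⟨π ⟨c, hC0.1 hc⟩, ⟨c, hC0.1 hc⟩, hc, rfl⟩, hnot c hc hc0 hcA, h4⟩
    · left
      obtain ⟨hAX, hun⟩ := hinX A hA
      have h4 := GoodAt.mem_NS hAS (hε A hAX hun) hun
      obtain ⟨c, hc, hc0, hcA, h5⟩ := HS2_local h1 h2 hC0.1 hA yP hFCP h4
      rw [hρ] at h5
      exact ⟨⟨π ⟨c, hC0.1 hc⟩, ⟨c, hC0.1 hc⟩, hc, rfl⟩, hnot c hc hc0 hcA, h5⟩
  · obtain ⟨A, hAS, hAP⟩ := hs.ex
    have hAX := hs.mem A hAS
    have hAloc : IsLocalRing A := hX.isLocalRing hAX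
    obtain ⟨g, hg⟩ := h'.exists_un hAS.1
    have hnun : ∀ a, ¬ Un V A (hh a) := by
      intro a hun
      have h3 := hH.mem A hAS (hh a) g hun hg a
      rw [mul_inv_cancel₀ (hH.ne a)] at h3
      exact HS2_nonunit hAloc (fun l => s l * g⁻¹) (fun l => hg.2.2 _ (hs.sV l)) (fun l => by
        intro h4
        by_cases h5 : s l * g⁻¹ = 0
        · exact h5
        · exact absurd ((un_iff hg (hs.sV l)).2 ⟨h5, h4⟩) (hAS.2 l)) h3
    have hun : Un V A h0 := by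
      rcases hH.cov A hAX hAP with h3 | ⟨a, h3⟩
      · exact h3
      · exact absurd h3 (hnun a)
    have hA : IsLoc (CJ V {h0}) A := HJ1_isLoc_single hX h hAX hun
    obtain ⟨𝔫, h𝔫, h3⟩ := IM_exists_max b hX π hker (fun B hB => (hinX B hB).1) hC0 hA hAP
      (hs.dim A hAS hAP)
    refine ⟨𝔫, h𝔫, ?_, ?_⟩
    · intro a w hw
      refine (h3 (yP a) (mul_inv_mem_CJ (hH.hV a) rfl) w hw).2 (Or.inr ?_)
      intro h4
      exact hnun a ((un_iff hun (hH.hV a)).2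
        ⟨mul_ne_zero (hH.ne a) (inv_ne_zero hun.2.1), h4⟩)
    · obtain ⟨c, hc, hc0, hcA, h4⟩ := hlocS A hA hAP hAS
      refine ⟨⟨π ⟨c, hC0.1 hc⟩, ⟨c, hC0.1 hc⟩, hc, rfl⟩, ?_, h4⟩
      intro h5
      rcases (h3 ⟨c, hC0.1 hc⟩ hc _ rfl).1 h5 with h6 | h6
      · exact hc0 h6
      · exact h6 hcA
  · intro a
    refine HS2_WC_mono bk ?_ (hη a)
    refine (IM_CJ_le π ?_).trans ?_
    · rintro _ ⟨b', _, rfl⟩
      exact hz b'
    · rw [iSup_image]

end Flip28
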