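import Pool.Agent.FlipB_h28.HN3
import Pool.Agent.FlipB_h28.HO2
import Pool.Agent.FlipB_h28.HQ
import Pool.Agent.FlipB_h28.HR
import Pool.Agent.FlipB_h28.HS1
import Pool.Agent.FlipB_h28.HS2
import Pool.Agent.FlipB_h28.HB2

/-! # The bound by the dimension of the Cech cohomology of the forms -/

open scoped KaehlerDifferential

set_option linter.unusedSectionVars false

universe u

namespace Flip28

variable {k K : Type u} [Field k] [Field K] [Algebra k K] {X X' : Set (Subalgebra k K)}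

theorem exists_isPr (h : IsProj X) : ∃ V : Submodule k K, IsPr V X := by
  obtain ⟨V, hV, hX⟩ := h
  refine ⟨V, hV, fun A => ?_⟩
  rw [hX]
  have h1 : ∀ z : K, CJ V {z} = Algebra.adjoin k {x | ∃ v ∈ V, x = v * z⁻¹} := by
    intro z
    unfold CJ
    congr 1
    ext x
    simp
  simp only [h1]

theorem opn_univ : Opn X Set.univ := fun _ _ _ _ A _ _ =>
  ⟨1, Subalgebra.one_mem _, one_ne_zero, by rw [inv_one]; exact Subalgebra.one_mem _,
    fun _ _ _ => Set.mem_univ _⟩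

theorem opn_biInter {σ : Type*} [DecidableEq σ] (S : Finset σ) {O : σ → Set (Subalgebra k K)}
    (h : ∀ i ∈ S, Opn X (O i)) : Opn X (⋂ i ∈ S, O i) := by
  induction S using Finset.induction_on with
  | empty =>
    simp only [Finset.notMem_empty, Set.iInter_of_empty, Set.iInter_univ]
    exact opn_univ
  | insert a S ha ih =>
    rw [Finset.set_biInter_insert]
    exact (h a (Finset.mem_insert_self a S)).inter
      (ih fun i hi => h i (Finset.mem_insert_of_mem hi))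

/-- all data for one model -/
theorem exists_datum [CharZero k] [Algebra.EssFiniteType k K] {n : ℕ}
    (b : Module.Basis (Fin n) K Ω[K⁄k]) (hX : IsCompleteNormal X) {V : Submodule k K}
    (h : IsPr V X) (hX' : IsCompleteNormal X') (hpr : IsProj X') {p d : ℕ} (hp : 1 ≤ p)
    (hpd : p + d = n) {P : Subalgebra k K} (hP : P ∈ X') (hPd : ringKrullDim P = d)
    (hsm : ∀ A ∈ X', ringKrullDim A ≤ d → A ∈ X ∧ Algebra.FormallySmooth k A) :
    ∃ (V' : Submodule k K) (s : Fin p → K), IsPr V' X' ∧ SData X X' V' n s P ∧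
      ∃ m : ℕ, 1 ≤ m ∧ ∃ t0 : ℕ, 1 ≤ t0 ∧ ∀ t : ℕ, t0 ≤ t → ∃ (hh : Fin p → K) (h0 : K)
        (𝒲 : Set K), HData X X' (V ^ (m * t)) V' s P hh h0 ∧ CData X X' (V ^ (m * t)) V' s 𝒲 := by
  obtain ⟨V', h'⟩ := exists_isPr hpr
  obtain ⟨s, hs⟩ := exists_sections b hX hX' h' hpd hP hPd hsm
  obtain ⟨m, hm, t0, ht0, H⟩ := exists_ideal hX hX' h h' hp hs.sV hs.mem
  refine ⟨V', s, h', hs, m, hm, t0, ht0, fun t ht => ?_⟩
  obtain ⟨⟨J, hJ⟩, 𝒲, hC⟩ := H t ht
  have hmt : 1 ≤ m * t := Nat.one_le_iff_ne_zero.2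
    (Nat.mul_ne_zero (by omega) (by omega))
  obtain ⟨hh, h0, hH⟩ := exists_h b hX hX' (h.pow hX hmt) h' hp hpd
    (hsm P hP hPd.le).1 hPd hs hJ
  exact ⟨hh, h0, 𝒲, hH, hC⟩

/-- separation of the points outside a closed set -/
theorem exists_sep (hX : IsCompleteNormal X) {V : Submodule k K} (h : IsPr V X)
    {T : Set (Subalgebra k K)} (hT : Opn X Tᶜ) : ∃ m : ℕ, 1 ≤ m ∧ ∀ t : ℕ, 1 ≤ t →
      ∃ 𝒲 : Set K, 𝒲.Finite ∧ (∀ w ∈ 𝒲, w ∈ V ^ (m * t)) ∧
      (∀ w ∈ 𝒲, ∀ B ∈ X, Un (V ^ (m * t)) B w → B ∉ T) ∧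
      ∀ A ∈ X, A ∉ T → ∃ w ∈ 𝒲, Un (V ^ (m * t)) A w := by
  obtain ⟨m, hm, H⟩ := exists_cover hX h hT (O := fun _ : Unit => Tᶜ) (fun _ => hT)
    (fun A _ hA => ⟨(), hA⟩)
  refine ⟨m, hm, fun t ht => ?_⟩
  obtain ⟨𝒲, h1, h2, h3, h4⟩ := H t ht
  refine ⟨𝒲, h1, h2, fun w hw B hB hu => ?_, fun A hA hAT => h4 A hA hAT⟩
  obtain ⟨_, h5⟩ := h3 w hw
  exact h5 B hB hu

theorem exists_un_of_span [Infinite k] {V : Submodule k K} (h : IsPr V X)
    (hX : IsCompleteNormal X) {r : ℕ}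
    {x : Fin r → K} (hspan : V ≤ Submodule.span k (Set.range x)) (hx : ∀ i, x i ∈ V)
    {A : Subalgebra k K} (hA : A ∈ X) : ∃ i, Un V A (x i) := by
  obtain ⟨z, hz⟩ := h.exists_un hA
  obtain ⟨U, hU⟩ := exists_NU (hX.isLocalRing hA) hz
  by_contra hcon
  push Not at hcon
  have h1 : V ≤ U := hspan.trans (Submodule.span_le.2 (by
    rintro _ ⟨i, rfl⟩
    exact (hU _ (hx i)).2 (hcon i)))
  exact (hU z hz.1).1 (h1 hz.1) hz

theorem WC_mono {κ : Type u} [Field κ] [Algebra k κ] {p : ℕ}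
    (bk : Module.Basis (Fin p) κ Ω[κ⁄k]) {C C' : Subalgebra k κ} (h : C ≤ C') :
    WC bk C ≤ WC bk C' := by
  refine Submodule.span_mono ?_
  rintro _ ⟨c, hc, a, ha, rfl⟩
  exact ⟨c, h hc, a, fun i => h (ha i), rfl⟩

theorem FC_mono {p : ℕ} {C C' : Subalgebra k K} (h : C ≤ C') : FC p C ≤ FC p C' :=
  QC_FC.mono C C' h

/-- The linear relation between the classes. -/
theorem exists_relation_FC [Infinite k] (hX : IsCompleteNormal X) {V0 : Submodule k K}
    (h0 : IsPr V0 X) {p : ℕ} (hp : 1 ≤ p) {r : ℕ} {x : Fin r → K}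
    (hx : ∀ i, x i ∈ V0 ∧ x i ≠ 0) (hspan : V0 ≤ Submodule.span k (Set.range x)) :
    ∃ v : ℕ, ∀ (M : ℕ), 1 ≤ M → ∀ {ι : Type} [LinearOrder ι] [Fintype ι] (e : Fin r ↪o ι)
      (z : ι → K), (∀ i, z i ∈ V0 ^ M ∧ z i ≠ 0) → (∀ i, z (e i) = x i ^ M) →
      ∀ (N : ℕ) (c : Fin N → Finset ι → EE k K p),
      (∀ i, Val (fun J : Finset ι => FC p (CJ (V0 ^ M) (z '' (J : Set ι)))) Finset.univ (p + 1)
        (c i) ∧ Coc Finset.univ (p + 1) (c i)) → v < N →
      ∃ a : Fin N → k, a ≠ 0 ∧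
        Cob (fun J : Finset ι => FC p (CJ (V0 ^ M) (z '' (J : Set ι)))) Finset.univ (p + 1)
          (∑ i, a i • c i) := by
  classical
  obtain ⟨v, hv⟩ := exists_relation (finH_FC (p := p) hX h0 hx hspan (q := p + 1) (by omega))
  refine ⟨v, fun M hM ι _ _ e z hz hze N c hc hN => ?_⟩
  set F : Finset ι → Submodule k (EE k K p) :=
    fun J => FC p (CJ (V0 ^ M) (z '' (J : Set ι))) with hF
  have hFe : ∀ J : Finset (Fin r), F (J.map e.toEmbedding) =
      FC p (CJ V0 (x '' (J : Set (Fin r)))) := by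
    intro J
    have h1 : z '' ((J.map e.toEmbedding : Finset ι) : Set ι) =
        (fun y => y ^ M) '' (x '' (J : Set (Fin r))) := by
      rw [Finset.coe_map, Set.image_image, Set.image_image]
      exact Set.image_congr fun i _ => hze i
    rw [hF]
    dsimp only
    rw [h1, CJ_pow (fun y hy => ?_) hM]
    obtain ⟨i, -, rfl⟩ := hy
    exact hx i
  have hval : ∀ i, Val (fun J : Finset (Fin r) => FC p (CJ V0 (x '' (J : Set (Fin r)))))
      Finset.univ (p + 1) (fun J => c i (J.map e.toEmbedding)) ∧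
      Coc Finset.univ (p + 1) (fun J : Finset (Fin r) => c i (J.map e.toEmbedding)) := by
    intro i
    constructor
    · intro J _ hJ
      have h1 := (hc i).1 (J.map e.toEmbedding) (Finset.subset_univ _)
        (by rw [Finset.card_map, hJ])
      have h2 := hFe J
      rw [hF] at h2
      dsimp only at h2 ⊢
      rw [← h2]
      exact h1
    · intro J _ hJ
      have h1 := (hc i).2 (J.map e.toEmbedding) (Finset.subset_univ _)
        (by rw [Finset.card_map, hJ])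
      rw [cd_map_emb] at h1
      exact h1
  obtain ⟨a, ha0, ha⟩ := hv N (fun i J => c i (J.map e.toEmbedding)) hval hN
  refine ⟨a, ha0, ?_⟩
  have h1 : Cob F (Finset.univ.map e.toEmbedding) (p + 1) (∑ i, a i • c i) := by
    refine cob_map e ?_
    have h2 : (fun J : Finset (Fin r) => F (J.map e.toEmbedding)) =
        fun J : Finset (Fin r) => FC p (CJ V0 (x '' (J : Set (Fin r)))) := funext hFe
    have h3 : (fun J : Finset (Fin r) => (∑ i, a i • c i) (J.map e.toEmbedding)) =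
        ∑ i, a i • fun J : Finset (Fin r) => c i (J.map e.toEmbedding) := by
      funext J
      simp only [Finset.sum_apply, Pi.smul_apply]
    rw [h2, h3]
    exact ha
  refine cob_of_sub (F := F) (fun J J' hJ => FC_mono (CJ_mono (Set.image_mono
    (by exact_mod_cast hJ)))) (Finset.subset_univ _) ?_ ?_ ?_ h1
  · intro z0 _ I1 hI1 _ _
    refine acy_QC (V := V0 ^ M) hX (h0.pow hX hM) QC_FC (z := z) (I := I1) (z0 := z0) (hz z0)
      (fun i _ => hz i) ?_
    intro A hA _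
    obtain ⟨i, hi⟩ := exists_un_of_span h0 hX hspan (fun i => (hx i).1) hA
    refine ⟨e i, hI1 (Finset.mem_map.2 ⟨i, Finset.mem_univ i, rfl⟩), ?_⟩
    rw [hze i]
    exact hi.pow M
  · intro J hJ hcard
    rw [Finset.sum_apply]
    refine Submodule.sum_mem _ fun i _ => ?_
    rw [Pi.smul_apply]
    exact Submodule.smul_mem _ _ ((hc i).1 J hJ hcard)
  · exact Coc.sum fun i _ => Coc.smul (a i) (hc i).2

/-- The restriction of the relation to the closure of `P`. -/
theorem kill_coeff [CharZero k] [Algebra.EssFiniteType k K] {n : ℕ}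
    (b : Module.Basis (Fin n) K Ω[K⁄k]) (hX : IsCompleteNormal X) {V V' : Submodule k K}
    (h : IsPr V X) (h' : IsPr V' X') {p d : ℕ} (hp : 1 ≤ p)
    (hpd : p + d = n) {P : Subalgebra k K} (hP : P ∈ X) (hPd : ringKrullDim P = d)
    (hsmP : Algebra.FormallySmooth k P) {s hh : Fin p → K} {h0 : K}
    (hs : SData X X' V' n s P) (hH : HData X X' V V' s P hh h0)
    {ι : Type} [LinearOrder ι] [Fintype ι] {z : ι → K} (hz : ∀ i, z i ∈ V ∧ z i ≠ 0)
    {e : Fin (p + 1) → ι} (he : Function.Injective e)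
    (hze : ∀ a, z (e a) = (Fin.cons h0 hh : Fin (p + 1) → K) a)
    {c c' : Finset ι → EE k K p}
    (hval : Val (fun J : Finset ι => FC p (CJ V (z '' (J : Set ι)))) Finset.univ (p + 1) c)
    (hcoc : Coc Finset.univ (p + 1) c)
    (hcl : ∃ (σ : ℤ) (φ : Fin (p + 1) → EE k K p) (ε : EE k K p), (σ = 1 ∨ σ = -1) ∧
      (∀ a, φ a ∈ FC p (CJ V (z '' (((Finset.univ.image e).erase (e a) : Finset ι) :
        Set ι)))) ∧
      c (Finset.univ.image e) = σ • ε + ∑ a, φ a ∧
      ∀ A ∈ X, Un V A (z (e 0)) → GoodAt V V' X' s hh A ε)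
    {S : Finset ι} (hS : ∀ A ∈ X, A ≤ P → ∃ i ∈ S, Un V A (z i))
    (hc' : Cob (fun J : Finset ι => FC p (CJ V (z '' (J : Set ι)))) S (p + 1) c')
    {a0 : k} (hrel : Cob (fun J : Finset ι => FC p (CJ V (z '' (J : Set ι)))) Finset.univ
      (p + 1) (a0 • c + c')) : a0 = 0 := by
  classical
  obtain ⟨R, hR, hK, hRP, -⟩ := hX.exists_chart hP
  obtain ⟨d', x', hx'⟩ := exists_coord b hR hK hRP hsmP
  have hdd : d' = d := by
    have h1 := hx'.dim
    rw [hPd] at h1
    exact_mod_cast h1.symm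
  subst hdd
  obtain ⟨κ, _, _, π, bk, ρ, hess, hsurj, hker, h1, h2⟩ := exists_residue hR hK hRP hx' hpd
  set F : Finset ι → Submodule k (EE k K p) :=
    fun J => FC p (CJ V (z '' (J : Set ι))) with hF
  set IP : Finset ι := Finset.univ.filter (fun i => Un V P (z i)) with hIP
  have hmemIP : ∀ i, i ∈ IP ↔ Un V P (z i) := by
    intro i
    rw [hIP, Finset.mem_filter]
    exact ⟨fun h => h.2, fun h => ⟨Finset.mem_univ i, h⟩⟩
  set G : Finset ι → Submodule k κ :=
    fun J => WC bk (IM π (CJ V (z '' (J : Set ι)))) with hG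
  have hCJP : ∀ J ⊆ IP, CJ V (z '' (J : Set ι)) ≤ P := by
    intro J hJ
    refine (CJ_le_iff ?_).2 ?_
    · rintro _ ⟨i, -, rfl⟩
      exact hz i
    · rintro _ ⟨i, hi, rfl⟩
      exact (hmemIP i).1 (hJ hi)
  have hFG : ∀ J ⊆ IP, ∀ v ∈ F J, ρ v ∈ G J := fun J hJ v hv =>
    residue_mem h1 h2 (hCJP J hJ) hv
  have hGmono : ∀ J J', J ⊆ J' → G J ≤ G J' := fun J J' hJ =>
    WC_mono bk (IM_mono π (CJ_mono (Set.image_mono (by exact_mod_cast hJ))))
  have hsub : S ∩ IP ⊆ IP := Finset.inter_subset_right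
  have hA : Cob F (S ∩ IP) (p + 1) (a0 • c + c') := hrel.mono (Finset.subset_univ _)
  have hB : Cob F (S ∩ IP) (p + 1) c' := hc'.mono Finset.inter_subset_left
  have hC : Cob F (S ∩ IP) (p + 1) (a0 • c) := by
    have h3 := hA.add (hB.smul (-1 : k))
    have h4 : a0 • c + c' + (-1 : k) • c' = a0 • c := by
      rw [neg_one_smul]
      abel
    rwa [h4] at h3
  have hD : Cob G (S ∩ IP) (p + 1) (fun J => ρ ((a0 • c) J)) :=
    cob_image ρ (fun J hJ => hFG J (hJ.trans hsub)) hC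
  have hvalIP : Val F IP (p + 1) (a0 • c) := by
    intro J _ hcard
    rw [Pi.smul_apply]
    exact Submodule.smul_mem _ _ (hval J (Finset.subset_univ _) hcard)
  have hcocIP : Coc IP (p + 1) (a0 • c) :=
    Coc.smul a0 (fun J _ hcard => hcoc J (Finset.subset_univ _) hcard)
  have hE : Cob G IP (p + 1) (fun J => ρ ((a0 • c) J)) := by
    refine cob_of_sub hGmono hsub ?_ (val_image ρ hFG hvalIP) (coc_image ρ hcocIP) hD
    intro z0 hz0 I1 hI1 hI1' _
    refine acy_WC hX h hP π hker bk (z := z) (I := I1) (z0 := z0) ((hmemIP z0).1 hz0)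
      (fun i hi => (hmemIP i).1 (hI1' hi)) ?_
    intro A hA hAP _
    obtain ⟨i, hiS, hi⟩ := hS A hA hAP
    refine ⟨i, hI1 (Finset.mem_inter.2 ⟨hiS, (hmemIP i).2 (hi.mono hAP)⟩), hi⟩
  have heIP : ∀ a, e a ∈ IP := by
    intro a
    rw [hmemIP, hze]
    refine Fin.cases ?_ (fun a => ?_) a
    · rw [Fin.cons_zero]
      exact hH.un0
    · rw [Fin.cons_succ]
      exact hH.unP a
  obtain ⟨φ', hφ', hsum'⟩ := Cob.eval hE he heIP
  obtain ⟨σ, φ, ε, hσ, hφ, hcJ, hε⟩ := hcl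
  have himg : ∀ a, z '' (((Finset.univ.image e).erase (e a) : Finset ι) : Set ι) =
      (Fin.cons h0 hh : Fin (p + 1) → K) '' {b | b ≠ a} := by
    intro a
    ext y
    constructor
    · rintro ⟨i, hi, rfl⟩
      rw [Finset.mem_coe, Finset.mem_erase, Finset.mem_image] at hi
      obtain ⟨hia, b', -, rfl⟩ := hi
      refine ⟨b', fun hb => hia (by rw [hb]), ?_⟩
      rw [hze]
    · rintro ⟨b', hb', rfl⟩
      refine ⟨e b', ?_, hze b'⟩
      rw [Finset.mem_coe, Finset.mem_erase, Finset.mem_image]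
      exact ⟨fun h => hb' (he h), b', Finset.mem_univ _, rfl⟩
  have hε' : ∀ A ∈ X, Un V A h0 → GoodAt V V' X' s hh A ε := by
    intro A hA hu
    refine hε A hA ?_
    rw [hze, Fin.cons_zero]
    exact hu
  have key := final_contra b hX h h' hp hP hs hH hε' hsurj hker h1 h2 (a0 * (σ : k))
    (fun a => φ' a - a0 • ρ (φ a)) ?_ ?_
  · rcases hσ with rfl | rfl
    · simpa using key
    · simpa using key
  · intro a
    refine Submodule.sub_mem _ ?_ (Submodule.smul_mem _ _ ?_)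
    · have h3 := hφ' a
      rw [hG] at h3
      dsimp only at h3
      rwa [himg] at h3
    · have h3 := hFG ((Finset.univ.image e).erase (e a)) (by
        intro i hi
        rw [Finset.mem_erase, Finset.mem_image] at hi
        obtain ⟨-, b', -, rfl⟩ := hi
        exact heIP b') (φ a) (hφ a)
      rw [hG] at h3
      dsimp only at h3
      rwa [himg] at h3
  · have h3 : ρ ((a0 • c) (Finset.univ.image e)) = ∑ a, φ' a := hsum'
    rw [Pi.smul_apply, map_smul, hcJ, map_add, map_zsmul, map_sum, smul_add,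
      Finset.smul_sum, ← Int.cast_smul_eq_zsmul k, smul_smul] at h3
    rw [Finset.sum_sub_distrib, ← h3]
    abel

end Flip28
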