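import Pool.Agent.FlipB_h28.HS3

/-! # The bound by the dimension of the Cech cohomology of the forms: conclusion -/

open scoped KaehlerDifferential

set_option linter.unusedSectionVars false

universe u

namespace Flip28

variable {k K : Type u} [Field k] [Field K] [Algebra k K] {X : Set (Subalgebra k K)}

/-- the index set of the family of charts -/
abbrev HS4_I (r N p R : ℕ) : Type := Fin r ⊕ₗ ((Fin N ×ₗ Fin (p + 1)) ⊕ₗ Fin R)

/-- the family of charts -/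
noncomputable def HS4_z {r N p R : ℕ} (x : Fin r → K) (g : Fin N → Fin (p + 1) → K)
    (u : Fin R → K) : HS4_I r N p R → K :=
  fun i => Sum.elim x (fun y => Sum.elim (fun q => g (ofLex q).1 (ofLex q).2) u (ofLex y))
    (ofLex i)

theorem HS4_z_inl {r N p R : ℕ} (x : Fin r → K) (g : Fin N → Fin (p + 1) → K)
    (u : Fin R → K) (i : Fin r) : HS4_z x g u (toLex (Sum.inl i)) = x i := rfl

theorem HS4_z_mid {r N p R : ℕ} (x : Fin r → K) (g : Fin N → Fin (p + 1) → K)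
    (u : Fin R → K) (j : Fin N) (a : Fin (p + 1)) :
    HS4_z x g u (toLex (Sum.inr (toLex (Sum.inl (toLex (j, a)))))) = g j a := rfl

theorem HS4_z_inr {r N p R : ℕ} (x : Fin r → K) (g : Fin N → Fin (p + 1) → K)
    (u : Fin R → K) (i : Fin R) :
    HS4_z x g u (toLex (Sum.inr (toLex (Sum.inr i)))) = u i := rfl

theorem HS4_z_cases {r N p R : ℕ} (x : Fin r → K) (g : Fin N → Fin (p + 1) → K)
    (u : Fin R → K) {Q : K → Prop} (h1 : ∀ i, Q (x i)) (h2 : ∀ j a, Q (g j a))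
    (h3 : ∀ i, Q (u i)) (i : HS4_I r N p R) : Q (HS4_z x g u i) := by
  obtain ⟨i, rfl⟩ : ∃ i', i = toLex i' := ⟨ofLex i, rfl⟩
  rcases i with i | i
  · exact h1 i
  · obtain ⟨i, rfl⟩ : ∃ i', i = toLex i' := ⟨ofLex i, rfl⟩
    rcases i with i | i
    · exact h2 _ _
    · exact h3 i

/-- Theorem Bd of the paper proof (proofs row 277). -/
theorem bound_Bd [CharZero k] [Algebra.EssFiniteType k K] {n : ℕ}
    (b : Module.Basis (Fin n) K Ω[K⁄k]) (hX : IsCompleteNormal X) (hpr : IsProj X) {p d : ℕ}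
    (hp : 1 ≤ p) (hpd : p + d = n) :
    ∃ v : ℕ, ∀ (N : ℕ) (X' : Fin N → Set (Subalgebra k K)) (P : Fin N → Subalgebra k K),
      (∀ i, IsCompleteNormal (X' i)) → (∀ i, IsProj (X' i)) →
      (∀ i, P i ∈ X' i ∧ ringKrullDim (P i) = d) →
      (∀ i, ∀ A ∈ X' i, ringKrullDim A ≤ d → A ∈ X ∧ Algebra.FormallySmooth k A) →
      (∀ i j, j < i → P j ∉ X' i) → N ≤ v := by
  classical
  obtain ⟨V0, h0⟩ := exists_isPr hpr
  -- generators of `V0`
  obtain ⟨r, x, hx, hspan⟩ : ∃ (r : ℕ) (x : Fin r → K), (∀ i, x i ∈ V0 ∧ x i ≠ 0) ∧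
      V0 ≤ Submodule.span k (Set.range x) := by
    have : Module.Finite k V0 := Module.Finite.iff_fg.2 h0.fg
    refine ⟨Module.finrank k V0, fun i => (Module.finBasis k V0 i : K), fun i => ⟨?_, ?_⟩, ?_⟩
    · exact (Module.finBasis k V0 i).2
    · intro h
      exact (Module.finBasis k V0).ne_zero i (Subtype.ext h)
    · intro y hy
      have h1 := (Module.finBasis k V0).sum_repr ⟨y, hy⟩
      have h2 : y = ∑ i, (Module.finBasis k V0).repr ⟨y, hy⟩ i • (Module.finBasis k V0 i : K) := by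
        have h3 := congrArg (Subtype.val) h1
        have h4 : y = ((∑ i, (Module.finBasis k V0).repr ⟨y, hy⟩ i • Module.finBasis k V0 i :
          V0) : K) := h3.symm
        refine h4.trans ?_
        rw [Submodule.coe_sum]
        rfl
      rw [h2]
      exact Submodule.sum_mem _ fun i _ => Submodule.smul_mem _ _
        (Submodule.subset_span ⟨i, rfl⟩)
  obtain ⟨v, hv⟩ := exists_relation_FC hX h0 hp hx hspan
  refine ⟨v, fun N X' P hX' hpr' hP hsm hord => ?_⟩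
  by_contra hcon
  push Not at hcon
  have hPX : ∀ i, P i ∈ X ∧ Algebra.FormallySmooth k (P i) := fun i =>
    hsm i (P i) (hP i).1 (hP i).2.le
  have hdat := fun i => exists_datum b hX h0 (hX' i) (hpr' i) hp hpd (hP i).1 (hP i).2 (hsm i)
  choose V' s h' hs m hm t0 ht0 H using hdat
  let T : Fin N → Set (Subalgebra k K) := fun j =>
    {A | ∃ i, j < i ∧ A ∈ SS (V' i) (X' i) (s i)}
  have hT : ∀ j, Opn X (T j)ᶜ := by
    intro j
    have h1 : (T j)ᶜ = ⋂ i ∈ Finset.univ.filter (fun i => j < i),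
        (SS (V' i) (X' i) (s i))ᶜ := by
      ext A
      simp only [Set.mem_compl_iff, Set.mem_iInter, Finset.mem_filter, Finset.mem_univ,
        true_and]
      constructor
      · intro h i hi hA
        exact h ⟨i, hi, hA⟩
      · rintro h ⟨i, hi, hA⟩
        exact h i hi hA
    rw [h1]
    exact opn_biInter _ fun i _ => opn_compl_SS hX (hX' i) (h' i) (hs i).mem
  choose m' hm' H' using fun j => exists_sep hX h0 (hT j)
  -- the common exponent
  obtain ⟨M, hM1, hM2, hM3⟩ : ∃ M : ℕ, 1 ≤ M ∧ (∀ i, ∃ t, t0 i ≤ t ∧ M = m i * t) ∧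
      ∀ j, ∃ t, 1 ≤ t ∧ M = m' j * t := by
    have hD1 : ∀ i, m i ∣ (∏ i, m i) := fun i => Finset.dvd_prod_of_mem m (Finset.mem_univ i)
    have hD2 : ∀ i, m' i ∣ (∏ i, m' i) := fun i => Finset.dvd_prod_of_mem m' (Finset.mem_univ i)
    have hp1 : 1 ≤ ∏ i, m i := Finset.one_le_prod' fun i _ => hm i
    have hp2 : 1 ≤ ∏ i, m' i := Finset.one_le_prod' fun i _ => hm' i
    refine ⟨(∏ i, m i) * (∏ i, m' i) * (∑ i, t0 i + 1), ?_, fun i => ?_, fun j => ?_⟩
    · exact Nat.mul_pos (Nat.mul_pos hp1 hp2) (by omega)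
    · obtain ⟨c, hc⟩ := hD1 i
      have hc1 : 1 ≤ c := by
        rcases Nat.eq_zero_or_pos c with h | h
        · rw [h, mul_zero] at hc
          omega
        · exact h
      refine ⟨c * (∏ i, m' i) * (∑ i, t0 i + 1), ?_, ?_⟩
      · have h1 : t0 i ≤ ∑ i, t0 i := Finset.single_le_sum (fun _ _ => Nat.zero_le _)
          (Finset.mem_univ i)
        have h2 : 1 ≤ c * (∏ i, m' i) := Nat.mul_pos hc1 hp2
        calc t0 i ≤ 1 * (∑ i, t0 i + 1) := by omega
          _ ≤ _ := Nat.mul_le_mul_right _ h2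
      · rw [hc]
        ring
    · obtain ⟨c, hc⟩ := hD2 j
      have hc1 : 1 ≤ c := by
        rcases Nat.eq_zero_or_pos c with h | h
        · rw [h, mul_zero] at hc
          omega
        · exact h
      refine ⟨(∏ i, m i) * c * (∑ i, t0 i + 1), ?_, ?_⟩
      · exact Nat.mul_pos (Nat.mul_pos hp1 hc1) (by omega)
      · rw [hc]
        ring
  have H2 : ∀ i, ∃ (hh : Fin p → K) (g0 : K) (𝒲 : Set K),
      HData X (X' i) (V0 ^ M) (V' i) (s i) (P i) hh g0 ∧
      CData X (X' i) (V0 ^ M) (V' i) (s i) 𝒲 := by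
    intro i
    obtain ⟨t, ht, hMt⟩ := hM2 i
    rw [hMt]
    exact H i t ht
  have H3 : ∀ j, ∃ 𝒲 : Set K, 𝒲.Finite ∧ (∀ w ∈ 𝒲, w ∈ V0 ^ M) ∧
      (∀ w ∈ 𝒲, ∀ B ∈ X, Un (V0 ^ M) B w → B ∉ T j) ∧
      ∀ A ∈ X, A ∉ T j → ∃ w ∈ 𝒲, Un (V0 ^ M) A w := by
    intro j
    obtain ⟨t, ht, hMt⟩ := hM3 j
    rw [hMt]
    exact H' j t ht
  clear H H' hM2 hM3
  choose hh g0 𝒲 hH hC using H2
  choose 𝒰 hU1 hU2 hU3 hU4 using H3
  have hV : IsPr (V0 ^ M) X := h0.pow hX hM1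
  -- the finite set of all `w`
  obtain ⟨R, u, hu1, hu2⟩ : ∃ (R : ℕ) (u : Fin R → K), (∀ i, u i ∈ V0 ^ M ∧ u i ≠ 0) ∧
      ∀ j, ∀ w ∈ 𝒰 j, w ≠ 0 → ∃ i, u i = w := by
    have hfin : (⋃ j, 𝒰 j).Finite := Set.finite_iUnion hU1
    let Φ : Finset K := hfin.toFinset.filter (fun w => w ≠ 0)
    have hΦ : ∀ w, w ∈ Φ ↔ (∃ j, w ∈ 𝒰 j) ∧ w ≠ 0 := by
      intro w
      simp only [Φ, Finset.mem_filter, Set.Finite.mem_toFinset, Set.mem_iUnion]
    refine ⟨Φ.card, fun i => (Φ.equivFin.symm i : K), fun i => ?_, fun j w hw hw0 => ?_⟩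
    · obtain ⟨⟨j, hj⟩, h2⟩ := (hΦ _).1 (Φ.equivFin.symm i).2
      exact ⟨hU2 j _ hj, h2⟩
    · refine ⟨Φ.equivFin ⟨w, (hΦ w).2 ⟨⟨j, hw⟩, hw0⟩⟩, ?_⟩
      simp
  -- the family
  let gg : Fin N → Fin (p + 1) → K := fun j => Fin.cons (g0 j) (hh j)
  let z : HS4_I r N p R → K := HS4_z (fun i => x i ^ M) gg u
  have hz : ∀ i, z i ∈ V0 ^ M ∧ z i ≠ 0 := by
    refine HS4_z_cases (Q := fun y => y ∈ V0 ^ M ∧ y ≠ 0) _ _ _ (fun i => ?_) (fun j a => ?_) hu1
    · exact ⟨Submodule.pow_mem_pow _ (hx i).1 M, pow_ne_zero M (hx i).2⟩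
    · refine Fin.cases ?_ (fun a => ?_) a
      · exact ⟨(hH j).h0V, (hH j).un0.2.1⟩
      · exact ⟨(hH j).hV a, (hH j).ne a⟩
  have hcl := fun i => exists_class (z := z) (I := Finset.univ) hX hV hp (hs i) (hH i) (hC i)
    (fun i _ => hz i)
  choose c hc1 hc2 hc3 hc4 using hcl
  let er : Fin r ↪o HS4_I r N p R := OrderEmbedding.ofStrictMono
    (fun i => (toLex (Sum.inl i) : HS4_I r N p R)) (fun i j hij => Sum.Lex.inl_lt_inl_iff.2 hij)
  obtain ⟨a, ha0, hrel⟩ := hv M hM1 er z hz (fun i => rfl) N c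
    (fun i => ⟨hc1 i, hc2 i⟩) hcon
  -- the least index with nonzero coefficient
  obtain ⟨j, hj, hjmin⟩ : ∃ j, a j ≠ 0 ∧ ∀ i, i < j → a i = 0 := by
    have h1 : ∃ j, a j ≠ 0 := by
      by_contra h
      push Not at h
      exact ha0 (funext h)
    obtain ⟨j, hj, hmin⟩ := WellFounded.has_min (wellFounded_lt (α := Fin N)) {j | a j ≠ 0} h1
    refine ⟨j, hj, fun i hi => ?_⟩
    by_contra h
    exact hmin i h hi
  apply hj
  have hLT : ∀ A ∈ X, A ≤ P j → A ∉ T j := by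
    rintro A hA hAP ⟨i, hji, hAS⟩
    apply hord i j hji
    have h1 : IsLoc A (P j) := hX.isLoc_of_le hA (hPX j).1 hAP
    exact (hX' i).loc hAS.1 h1
  have he : Function.Injective (fun a : Fin (p + 1) =>
      (toLex (Sum.inr (toLex (Sum.inl (toLex (j, a))))) : HS4_I r N p R)) := by
    intro a a' h
    have h1 := congrArg ofLex h
    simpa using h1
  have hsum : ∑ i, a i • c i = a j • c j +
      ∑ i ∈ Finset.univ.filter (fun i => j < i), a i • c i := by
    rw [← Finset.sum_erase_add _ _ (Finset.mem_univ j), add_comm]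
    congr 1
    symm
    refine Finset.sum_subset ?_ ?_
    · intro i hi
      rw [Finset.mem_filter] at hi
      exact Finset.mem_erase.2 ⟨hi.2.ne', Finset.mem_univ i⟩
    · intro i hi hi'
      rw [Finset.mem_erase] at hi
      rw [Finset.mem_filter] at hi'
      have h1 : i < j := lt_of_le_of_ne (not_lt.1 fun h => hi' ⟨Finset.mem_univ i, h⟩) hi.1
      rw [hjmin i h1, zero_smul]
  rw [hsum] at hrel
  refine kill_coeff b hX hV (h' j) hp hpd (hPX j).1 (hP j).2 (hPX j).2 (hs j) (hH j) hz he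
    (fun a => rfl) (hc1 j) (hc2 j) ?_ (S := Finset.univ.filter (fun i => z i ∈ 𝒰 j)) ?_ ?_ hrel
  · exact hc4 j _ he (fun a => Finset.mem_univ _) (fun a => rfl)
  · intro A hA hAP
    obtain ⟨w, hw, hwu⟩ := hU4 j A hA (hLT A hA hAP)
    obtain ⟨i, rfl⟩ := hu2 j w hw hwu.2.1
    exact ⟨(toLex (Sum.inr (toLex (Sum.inr i))) : HS4_I r N p R),
      Finset.mem_filter.2 ⟨Finset.mem_univ _, hw⟩, hwu⟩
  · refine Cob.sum fun i hi => Cob.smul (a i) ?_
    refine hc3 i _ (Finset.subset_univ _) ?_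
    intro i' hi' A hA hu hAS
    exact hU3 j (z i') (Finset.mem_filter.1 hi').2 A hA hu
      ⟨i, (Finset.mem_filter.1 hi).2, hAS⟩

end Flip28
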