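import Pool.Agent.FlipB_h28.HS4
import Pool.Agent.Flip_h28.Main2

/-! # Flips of smooth varieties -/

open scoped KaehlerDifferential

set_option linter.unusedSectionVars false

universe u

namespace Flip28

variable {k K : Type u} [Field k] [Field K] [Algebra k K] [CharZero k]
  [Algebra.EssFiniteType k K] {n : ℕ} (b : Module.Basis (Fin n) K Ω[K⁄k])
  {X Y : ℕ → Set (Subalgebra k K)}

include b in
/-- Only finitely many steps remove a point of dimension `d`, if no new points of dimension at most
`d` are created and those of `X i0` are smooth. -/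
theorem finite_removal (i0 : ℕ) (hcn : ∀ i, i0 ≤ i → IsCompleteNormal (X i))
    (hP : ∀ i, i0 ≤ i → IsProj (X i)) {p d : ℕ} (hp : 1 ≤ p) (hpd : p + d = n)
    (hsub : ∀ i, i0 ≤ i → ∀ A ∈ X (i + 1), ringKrullDim A ≤ d → A ∈ X i)
    (hsm : ∀ A ∈ X i0, ringKrullDim A ≤ d → Algebra.FormallySmooth k A) :
    {i | i0 ≤ i ∧ ∃ P ∈ X i, P ∉ X (i + 1) ∧ ringKrullDim P = d}.Finite := by
  classical
  obtain ⟨v, hv⟩ := bound_Bd b (hcn i0 le_rfl) (hP i0 le_rfl) hp hpd
  by_contra hinf
  rw [Set.not_finite] at hinf
  set S : Set ℕ := {i | i0 ≤ i ∧ ∃ P ∈ X i, P ∉ X (i + 1) ∧ ringKrullDim P = d} with hS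
  have hinf' : Infinite S := hinf.to_subtype
  have hmem : ∀ l, Nat.orderEmbeddingOfSet S l ∈ S := fun l => by
    have h1 : Set.range (Nat.orderEmbeddingOfSet S) ⊆ S :=
      (Nat.orderEmbeddingOfSet_range S).subset
    exact h1 (Set.mem_range_self l)
  have hdesc : ∀ i j, i0 ≤ i → i ≤ j → ∀ A ∈ X j, ringKrullDim A ≤ d → A ∈ X i := by
    intro i j hi hij
    induction j, hij using Nat.le_induction with
    | base => exact fun A hA _ => hA
    | succ j hij ih => exact fun A hA hd => ih A (hsub j (hi.trans hij) A hA hd) hd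
  choose f hf using fun l => (hmem l).2
  have h1 := hv (v + 1) (fun l => X (Nat.orderEmbeddingOfSet S l)) (fun l => f l)
    (fun l => hcn _ (hmem l).1) (fun l => hP _ (hmem l).1)
    (fun l => ⟨(hf l).1, (hf l).2.2⟩)
    (fun l A hA hd => by
      have h2 := hdesc i0 _ le_rfl (hmem l).1 A hA hd
      exact ⟨h2, hsm A h2 hd⟩)
    (fun i j hji hmem' => by
      have h3 : Nat.orderEmbeddingOfSet S j < Nat.orderEmbeddingOfSet S i :=
        (Nat.orderEmbeddingOfSet S).lt_iff_lt.2 hji
      refine (hf j).2.1 (hdesc _ _ ?_ h3 _ hmem' (hf j).2.2.le)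
      exact (hmem j).1.trans (Nat.le_succ _))
  omega

include b in
/-- a curve has only one complete normal model -/
theorem mem_of_dvr_curve {X Y : Set (Subalgebra k K)} (hX : IsCompleteNormal X)
    (hY : IsCompleteNormal Y) (hn : n ≤ 1) {P : Subalgebra k K} (hP : P ∈ X) (hd : IsDVR P) :
    P ∈ Y := by
  have hval := hd.isVal
  obtain ⟨A, hA, hAP⟩ := hY.exists_centre hval
  have hAt : A ≠ ⊤ := by
    rintro rfl
    have h1 : P = ⊤ := top_le_iff.1 hAP.1
    have h2 := (hX.isDVR_iff hP).1 hd
    rw [(hX.eq_top_iff hP).1 h1] at h2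
    exact absurd h2 (by norm_num)
  obtain ⟨e, he, hen⟩ := dim_le_basis b hY hA
  have he0 : e ≠ 0 := by
    rintro rfl
    exact hAt ((hY.eq_top_iff hA).2 (by simpa using he))
  have he1 : e = 1 := by omega
  subst he1
  have hAd : IsDVR A := (hY.isDVR_iff hA).2 (by simpa using he)
  have hAval := hAd.isVal
  have hAP' : A = P := by
    refine le_antisymm hAP.1 fun x hx => ?_
    rcases hAval x with h | h
    · exact h
    · by_cases hx0 : x = 0
      · rw [hx0]
        exact A.zero_mem
      · have h2 := hAP.2 x⁻¹ h (by rw [inv_inv]; exact hx)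
        rwa [inv_inv] at h2
  rw [← hAP']
  exact hA

/-- Theorem S: there is no infinite sequence of flips of smooth projective varieties. -/
theorem smooth_flips (hX : IsCompleteNormal (X 0)) (hP : ∀ i, IsProj (X i))
    (hf : ∀ i, IsFlip b (X i) (Y i) (X (i + 1)))
    (hs : ∀ i, ∀ A ∈ X i, Algebra.FormallySmooth k A) : False := by
  have hcn : ∀ i, IsCompleteNormal (X i) := by
    intro i
    rcases i with _ | i
    · exact hX
    · exact (hf i).mX'
  have htr : Algebra.trdeg k K = n := by
    rw [trdeg_eq_finrank, Module.finrank_eq_card_basis b, Fintype.card_fin]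
  have hcoord : ∀ i, ∀ A ∈ X i, ∃ (d : ℕ) (x : Fin n → K), IsCoord b A d x := by
    intro i A hA
    obtain ⟨R, hR, hK, hRA, -⟩ := (hcn i).exists_chart hA
    exact exists_coord b hR hK hRA (hs i A hA)
  rcases Nat.lt_or_ge 1 n with hn | hn
  · -- `n ≥ 2`
    have key : ∀ d : ℕ, d < n → ∃ i0, ∀ i, i0 ≤ i → ∀ A : Subalgebra k K,
        ringKrullDim A ≤ d → (A ∈ X i ↔ A ∈ X (i + 1)) := by
      intro d
      induction d with
      | zero =>
        intro _
        have h0 : ∀ i, ∀ A ∈ X i, ringKrullDim A ≤ ((0 : ℕ) : WithBot ℕ∞) → A = ⊤ := by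
          intro i A hA hd
          obtain ⟨e, he, -⟩ := dim_le_basis b (hcn i) hA
          rw [he] at hd
          have h1 : e ≤ 0 := by exact_mod_cast hd
          have h2 : e = 0 := by omega
          subst h2
          exact ((hcn i).eq_top_iff hA).2 (by simpa using he)
        refine ⟨0, fun i _ A hd => ⟨fun hA => ?_, fun hA => ?_⟩⟩
        · rw [h0 i A hA hd]
          exact (hcn (i + 1)).top_mem
        · rw [h0 (i + 1) A hA hd]
          exact (hcn i).top_mem
      | succ d ih =>
        intro hdn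
        obtain ⟨i0, hi0⟩ := ih (by omega)
        have hsub : ∀ i, i0 ≤ i → ∀ A ∈ X (i + 1),
            ringKrullDim A ≤ ((d + 1 : ℕ) : WithBot ℕ∞) → A ∈ X i := by
          intro i hi F hF hd
          by_contra hF'
          obtain ⟨e, x, hx⟩ := hcoord (i + 1) F hF
          have he : e ≤ d + 1 := by
            rw [hx.dim] at hd
            exact_mod_cast hd
          have he0 : 0 < e := by
            rcases Nat.eq_zero_or_pos e with h0 | h0
            · exfalso
              subst h0
              have h1 : F = ⊤ := ((hcn (i + 1)).eq_top_iff hF).2 (by simpa using hx.dim)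
              exact hF' (h1 ▸ (hcn i).top_mem)
            · exact h0
          obtain ⟨E, hE, hFE, hdisc⟩ := hx.exists_blow b (hcn (i + 1)) hF he0
          have hEval : IsVal E := hE.1.isVal
          obtain ⟨A1, hA1, hA1E⟩ := (hcn i).exists_centre hEval
          have hlt := disc_lt b (hcn i) (hf i) hE hA1 hF hA1E hFE (fun he => hF' (he ▸ hA1))
          obtain ⟨e1, x1, hx1⟩ := hcoord i A1 hA1
          have hge := hx1.disc_ge_dim b (hcn i) hA1 hE hA1E
          rw [hdisc] at hlt
          have h2 : (e1 : ℚ) < e := by linarith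
          have h3 : e1 < e := by exact_mod_cast h2
          have h4 : A1 ∈ X (i + 1) := by
            refine (hi0 i hi A1 ?_).1 hA1
            rw [hx1.dim]
            exact_mod_cast (by omega : e1 ≤ d)
          have h5 : A1 = F := (hcn (i + 1)).unique h4 hF hEval.isLocalRing hA1E hFE
          exact hF' (h5 ▸ hA1)
        have hfin := finite_removal b i0 (fun i _ => hcn i) (fun i _ => hP i)
          (p := n - (d + 1)) (d := d + 1) (by omega) (by omega) hsub
          (fun A hA _ => hs i0 A hA)
        obtain ⟨M, hM⟩ := hfin.bddAbove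
        refine ⟨max i0 (M + 1), fun i hi A hd => ⟨fun hA => ?_, fun hA => ?_⟩⟩
        · by_contra hcon
          obtain ⟨e, he, -⟩ := dim_le_basis b (hcn i) hA
          rcases Nat.lt_or_ge e (d + 1) with h1 | h1
          · refine hcon ((hi0 i (le_trans (le_max_left _ _) hi) A ?_).1 hA)
            rw [he]
            exact_mod_cast (by omega : e ≤ d)
          · have h2 : e = d + 1 := by
              rw [he] at hd
              have h3 : e ≤ d + 1 := by exact_mod_cast hd
              omega
            have h3 : i ≤ M := hM ⟨le_trans (le_max_left _ _) hi, A, hA, hcon, by rw [he, h2]⟩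
            have h4 : M + 1 ≤ i := le_trans (le_max_right _ _) hi
            omega
        · exact hsub i (le_trans (le_max_left _ _) hi) A hA hd
    obtain ⟨i0, hi0⟩ := key (n - 1) (by omega)
    have hsmall : ∀ P ∈ X i0, IsDVR P → P ∈ Y i0 := by
      intro P hP' hd
      refine (hf i0).small' P ((hi0 i0 le_rfl P ?_).1 hP') hd
      rw [((hcn i0).isDVR_iff hP').1 hd]
      exact_mod_cast (by omega : 1 ≤ n - 1)
    obtain ⟨A, hA, A', hA', hAX, hAX', hdim⟩ := exists_big b (hcn i0) (hf i0) hsmall htr
    obtain ⟨e, he, -⟩ := dim_le_basis b (hcn i0) hA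
    obtain ⟨e', he', -⟩ := dim_le_basis b (hcn (i0 + 1)) hA'
    have h1 : n ≤ e := by
      by_contra hcon
      refine hAX ((hi0 i0 le_rfl A ?_).1 hA)
      rw [he]
      exact_mod_cast (by omega : e ≤ n - 1)
    have h2 : n ≤ e' := by
      by_contra hcon
      refine hAX' ((hi0 i0 le_rfl A' ?_).2 hA')
      rw [he']
      exact_mod_cast (by omega : e' ≤ n - 1)
    rw [he, he'] at hdim
    have h3 : e + e' ≤ n + 1 := by exact_mod_cast hdim
    omega
  · -- `n ≤ 1`
    have hsmall : ∀ P ∈ X 0, IsDVR P → P ∈ Y 0 := fun P hP' hd =>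
      mem_of_dvr_curve b (hcn 0) (hf 0).mY hn hP' hd
    obtain ⟨A, hA, A', hA', hAX, hAX', hdim⟩ := exists_big b (hcn 0) (hf 0) hsmall htr
    obtain ⟨e, he, hen⟩ := dim_le_basis b (hcn 0) hA
    rcases Nat.eq_zero_or_pos e with h0 | h0
    · subst h0
      have h1 : A = ⊤ := ((hcn 0).eq_top_iff hA).2 (by simpa using he)
      exact hAX (h1 ▸ (hcn (0 + 1)).top_mem)
    · have h1 : e = 1 := by omega
      subst h1
      exact hAX (mem_of_dvr_curve b (hcn 0) (hcn (0 + 1)) hn hA
        (((hcn 0).isDVR_iff hA).2 (by simpa using he)))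

end Flip28
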