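import Pool.Agent.FlipB_h28.HT1

/-! # Flips of varieties which are smooth in low codimension -/

open scoped KaehlerDifferential

set_option linter.unusedSectionVars false

universe u

namespace Flip28

variable {k K : Type u} [Field k] [Field K] [Algebra k K] [CharZero k]
  [Algebra.EssFiniteType k K] {n : ℕ} (b : Module.Basis (Fin n) K Ω[K⁄k])
  {X Y : ℕ → Set (Subalgebra k K)}

include b in
theorem stable_zero (hcn : ∀ i, IsCompleteNormal (X i)) (i : ℕ) (A : Subalgebra k K)
    (hd : ringKrullDim A ≤ ((0 : ℕ) : WithBot ℕ∞)) : A ∈ X i ↔ A ∈ X (i + 1) := by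
  have h0 : ∀ i, A ∈ X i → A = ⊤ := by
    intro i hA
    obtain ⟨e, he, -⟩ := dim_le_basis b (hcn i) hA
    rw [he] at hd
    have h1 : e ≤ 0 := by exact_mod_cast hd
    have h2 : e = 0 := by omega
    subst h2
    exact ((hcn i).eq_top_iff hA).2 (by simpa using he)
  constructor
  · intro hA
    rw [h0 i hA]
    exact (hcn (i + 1)).top_mem
  · intro hA
    rw [h0 (i + 1) hA]
    exact (hcn i).top_mem

/-- if the points of dimension at most `d` are stable they persist -/
theorem stable_persist {d i0 : ℕ} (hst : ∀ i, i0 ≤ i → ∀ A : Subalgebra k K,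
    ringKrullDim A ≤ d → (A ∈ X i ↔ A ∈ X (i + 1))) {A : Subalgebra k K}
    (hd : ringKrullDim A ≤ d) {i j : ℕ} (hi : i0 ≤ i) (hij : i ≤ j) : A ∈ X i ↔ A ∈ X j := by
  induction j, hij using Nat.le_induction with
  | base => exact Iff.rfl
  | succ j hij ih => exact ih.trans (hst j (hi.trans hij) A hd)

include b in
/-- One step of the stabilization. -/
theorem stage_step (hcn : ∀ i, IsCompleteNormal (X i)) (hP : ∀ i, IsProj (X i)) {d : ℕ}
    (hdn : d + 1 < n) (i0 : ℕ) (hst : ∀ i, i0 ≤ i → ∀ A : Subalgebra k K,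
      ringKrullDim A ≤ d → (A ∈ X i ↔ A ∈ X (i + 1)))
    (hsm : ∀ i, i0 ≤ i → ∀ A ∈ X i, ringKrullDim A ≤ ((d + 1 : ℕ) : WithBot ℕ∞) →
      Algebra.FormallySmooth k A)
    (hfin : {i | i0 ≤ i ∧ ∃ F ∈ X (i + 1), F ∉ X i ∧
      ringKrullDim F = ((d + 1 : ℕ) : WithBot ℕ∞)}.Finite) :
    ∃ i1, i0 ≤ i1 ∧ ∀ i, i1 ≤ i → ∀ A : Subalgebra k K,
      ringKrullDim A ≤ ((d + 1 : ℕ) : WithBot ℕ∞) → (A ∈ X i ↔ A ∈ X (i + 1)) := by
  obtain ⟨M, hM⟩ := hfin.bddAbove
  have hsub : ∀ i, max i0 (M + 1) ≤ i → ∀ A ∈ X (i + 1),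
      ringKrullDim A ≤ ((d + 1 : ℕ) : WithBot ℕ∞) → A ∈ X i := by
    intro i hi A hA hd
    obtain ⟨e, he, -⟩ := dim_le_basis b (hcn (i + 1)) hA
    by_contra hcon
    rcases Nat.lt_or_ge e (d + 1) with h1 | h1
    · refine hcon ((hst i (le_trans (le_max_left _ _) hi) A ?_).2 hA)
      rw [he]
      exact_mod_cast (by omega : e ≤ d)
    · have h2 : e = d + 1 := by
        rw [he] at hd
        have h3 : e ≤ d + 1 := by exact_mod_cast hd
        omega
      have h3 : i ≤ M := hM ⟨le_trans (le_max_left _ _) hi, A, hA, hcon, by rw [he, h2]⟩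
      have h4 : M + 1 ≤ i := le_trans (le_max_right _ _) hi
      omega
  have hfin2 := finite_removal b (max i0 (M + 1)) (fun i _ => hcn i) (fun i _ => hP i)
    (p := n - (d + 1)) (d := d + 1) (by omega) (by omega) hsub
    (fun A hA hd => hsm _ (le_max_left _ _) A hA hd)
  obtain ⟨M2, hM2⟩ := hfin2.bddAbove
  refine ⟨max (max i0 (M + 1)) (M2 + 1), (le_max_left _ _).trans (le_max_left _ _),
    fun i hi A hd => ⟨fun hA => ?_, fun hA => ?_⟩⟩
  · by_contra hcon
    obtain ⟨e, he, -⟩ := dim_le_basis b (hcn i) hA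
    have hi1 : max i0 (M + 1) ≤ i := le_trans (le_max_left _ _) hi
    rcases Nat.lt_or_ge e (d + 1) with h1 | h1
    · refine hcon ((hst i (le_trans (le_max_left _ _) hi1) A ?_).1 hA)
      rw [he]
      exact_mod_cast (by omega : e ≤ d)
    · have h2 : e = d + 1 := by
        rw [he] at hd
        have h3 : e ≤ d + 1 := by exact_mod_cast hd
        omega
      have h3 : i ≤ M2 := hM2 ⟨hi1, A, hA, hcon, by rw [he, h2]⟩
      have h4 : M2 + 1 ≤ i := le_trans (le_max_right _ _) hi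
      omega
  · exact hsub i (le_trans (le_max_left _ _) hi) A hA hd

/-- The blow up of a smooth flipped point. -/
theorem exists_blow_flip (hcn : ∀ i, IsCompleteNormal (X i))
    (hf : ∀ i, IsFlip b (X i) (Y i) (X (i + 1))) {i : ℕ} {F : Subalgebra k K}
    (hF : F ∈ X (i + 1)) (hF' : F ∉ X i) (hs : Algebra.FormallySmooth k F) {d : ℕ}
    (hd : ringKrullDim F = d) :
    ∃ E, IsPrimeDiv E ∧ Dom F E ∧ disc b (X (i + 1)) E = (d : ℚ) - 1 ∧
      disc b (X i) E < (d : ℚ) - 1 := by
  obtain ⟨R, hR, hK, hRF, -⟩ := (hcn (i + 1)).exists_chart hF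
  obtain ⟨e, x, hx⟩ := exists_coord b hR hK hRF hs
  have hed : e = d := by
    have h1 := hx.dim
    rw [hd] at h1
    exact_mod_cast h1.symm
  subst hed
  have he0 : 0 < e := by
    rcases Nat.eq_zero_or_pos e with h0 | h0
    · exfalso
      subst h0
      have h1 : F = ⊤ := ((hcn (i + 1)).eq_top_iff hF).2 (by simpa using hd)
      exact hF' (h1 ▸ (hcn i).top_mem)
    · exact h0
  obtain ⟨E, hE, hFE, hdisc⟩ := hx.exists_blow b (hcn (i + 1)) hF he0
  obtain ⟨A1, hA1, hA1E⟩ := (hcn i).exists_centre hE.1.isVal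
  have hlt := disc_lt b (hcn i) (hf i) hE hA1 hF hA1E hFE (fun he => hF' (he ▸ hA1))
  rw [hdisc] at hlt
  exact ⟨E, hE, hFE, hdisc, hlt⟩

/-- discrepancies over a smooth point -/
theorem disc_ge_of_smooth {Z : Set (Subalgebra k K)} (hZ : IsCompleteNormal Z)
    {A E : Subalgebra k K} (hA : A ∈ Z) (hs : Algebra.FormallySmooth k A) (hE : IsPrimeDiv E)
    (hAE : Dom A E) {d : ℕ} (hd : ringKrullDim A = d) : (d : ℚ) - 1 ≤ disc b Z E := by
  obtain ⟨R, hR, hK, hRA, -⟩ := hZ.exists_chart hA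
  obtain ⟨e, x, hx⟩ := exists_coord b hR hK hRA hs
  have hed : e = d := by
    have h1 := hx.dim
    rw [hd] at h1
    exact_mod_cast h1.symm
  subst hed
  exact hx.disc_ge_dim b hZ hA hE hAE

theorem disc_mono_flips (hcn : ∀ i, IsCompleteNormal (X i))
    (hf : ∀ i, IsFlip b (X i) (Y i) (X (i + 1))) {E : Subalgebra k K} (hE : IsPrimeDiv E)
    {i : ℕ} : ∀ j, i ≤ j → disc b (X i) E ≤ disc b (X j) E := by
  intro j hij
  induction j, hij using Nat.le_induction with
  | base => exact le_rfl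
  | succ j hij ih => exact ih.trans (disc_le b (hcn j) (hf j) hE)

/-- steps at which the discrepancy of a divisor of a finite set passes from `< a` to `≥ a` are
finitely many -/
theorem finite_pass (hcn : ∀ i, IsCompleteNormal (X i))
    (hf : ∀ i, IsFlip b (X i) (Y i) (X (i + 1))) {S : Set (Subalgebra k K)} (hS : S.Finite)
    {a : ℚ} {T : Set ℕ} (hT : ∀ i ∈ T, ∃ E ∈ S, IsPrimeDiv E ∧ disc b (X i) E < a ∧
      a ≤ disc b (X (i + 1)) E) : T.Finite := by
  classical
  choose! f hf1 hf2 hf3 hf4 using hT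
  refine Set.Finite.of_injOn (f := f) (t := S) (fun i hi => hf1 i hi) ?_ hS
  have key : ∀ i ∈ T, ∀ j ∈ T, i < j → f i ≠ f j := by
    intro i hi j hj hij he
    have h3 := disc_mono_flips b hcn hf (hf2 i hi) (i := i + 1) j (by omega)
    have h4 := hf3 j hj
    rw [← he] at h4
    exact absurd h4 (not_lt.2 ((hf4 i hi).trans h3))
  intro i hi j hj he
  rcases lt_trichotomy i j with hlt | heq | hgt
  · exact absurd he (key i hi j hj hlt)
  · exact heq
  · exact absurd he.symm (key j hj i hi hgt)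

/-- Let all points of codimension at most `c + 1` of the projective varieties `X i` be smooth, and
let the discrepancies of the prime divisors with singular centre be at least `c - 1`, only finitely
many being less than `c`.  Then all but finitely many flips touch only points of codimension at
least `c + 2`, and the dimension is at least `2 c + 3`. -/
theorem flips_smooth_codim {c : ℕ} (hX : IsCompleteNormal (X 0)) (hP : ∀ i, IsProj (X i))
    (hf : ∀ i, IsFlip b (X i) (Y i) (X (i + 1)))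
    (h0 : ∀ A ∈ X 0, ringKrullDim A ≤ ((c + 1 : ℕ) : WithBot ℕ∞) → Algebra.FormallySmooth k A)
    (h1 : ∀ i, ∀ F ∈ X (i + 1), F ∉ X i → ringKrullDim F ≤ ((c + 1 : ℕ) : WithBot ℕ∞) →
      Algebra.FormallySmooth k F)
    (h2 : ∀ i, ∀ E, IsPrimeDiv E → ∀ A ∈ X i, Dom A E → ¬ Algebra.FormallySmooth k A →
      (c : ℚ) - 1 ≤ disc b (X i) E)
    (h3 : ∀ i, {E | IsPrimeDiv E ∧ (∃ A ∈ X i, Dom A E ∧ ¬ Algebra.FormallySmooth k A) ∧
      disc b (X i) E < c}.Finite) :
    2 * c + 3 ≤ n ∧ ∃ i1, ∀ i, i1 ≤ i → ∀ A : Subalgebra k K,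
      ringKrullDim A ≤ ((c + 1 : ℕ) : WithBot ℕ∞) → (A ∈ X i ↔ A ∈ X (i + 1)) := by
  have hcn : ∀ i, IsCompleteNormal (X i) := by
    intro i
    rcases i with _ | i
    · exact hX
    · exact (hf i).mX'
  have htr : Algebra.trdeg k K = n := by
    rw [trdeg_eq_finrank, Module.finrank_eq_card_basis b, Fintype.card_fin]
  have hsm : ∀ i, ∀ A ∈ X i, ringKrullDim A ≤ ((c + 1 : ℕ) : WithBot ℕ∞) →
      Algebra.FormallySmooth k A := by
    intro i
    induction i with
    | zero => exact h0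
    | succ i ih =>
      intro A hA hd
      by_cases hA' : A ∈ X i
      · exact ih A hA' hd
      · exact h1 i A hA hA' hd
  -- the case of smooth varieties
  rcases Nat.lt_or_ge n (c + 2) with hnc | hnc
  · exfalso
    refine smooth_flips b hX hP hf fun i A hA => hsm i A hA ?_
    obtain ⟨e, he, hen⟩ := dim_le_basis b (hcn i) hA
    rw [he]
    exact_mod_cast (by omega : e ≤ c + 1)
  -- a lower bound for discrepancies
  have hge : ∀ i, ∀ E, IsPrimeDiv E → ∀ A ∈ X i, Dom A E → ∀ d : ℕ, d ≤ c →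
      ¬ ringKrullDim A ≤ d → (d : ℚ) ≤ disc b (X i) E ∨
        (¬ Algebra.FormallySmooth k A ∧ (c : ℚ) - 1 ≤ disc b (X i) E) := by
    intro i E hE A hA hAE d hdc hd
    by_cases hs : Algebra.FormallySmooth k A
    · left
      obtain ⟨e, he, -⟩ := dim_le_basis b (hcn i) hA
      have h4 := disc_ge_of_smooth b (hcn i) hA hs hE hAE he
      rw [he] at hd
      have h5 : d < e := by
        by_contra hcon
        exact hd (by exact_mod_cast not_lt.1 hcon)
      have h6 : (d : ℚ) + 1 ≤ e := by exact_mod_cast h5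
      linarith
    · exact Or.inr ⟨hs, h2 i E hE A hA hAE hs⟩
  have key : ∀ d : ℕ, d ≤ c → ∃ i0, ∀ i, i0 ≤ i → ∀ A : Subalgebra k K,
      ringKrullDim A ≤ d → (A ∈ X i ↔ A ∈ X (i + 1)) := by
    intro d
    induction d with
    | zero => exact fun _ => ⟨0, fun i _ A hd => stable_zero b hcn i A hd⟩
    | succ d ih =>
      intro hdc
      obtain ⟨i0, hi0⟩ := ih (by omega)
      obtain ⟨i1, -, hi1⟩ := stage_step b hcn hP (d := d) (by omega) i0 hi0
        (fun i _ A hA hd => hsm i A hA (hd.trans (by exact_mod_cast (by omega : d + 1 ≤ c + 1))))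
        (by
          convert Set.finite_empty
          rw [Set.eq_empty_iff_forall_notMem]
          rintro i ⟨hi, F, hF, hF', hd⟩
          have hs := h1 i F hF hF' (by
            rw [hd]
            exact_mod_cast (by omega : d + 1 ≤ c + 1))
          obtain ⟨E, hE, hFE, hE1, hE2⟩ := exists_blow_flip b hcn hf hF hF' hs hd
          obtain ⟨A1, hA1, hA1E⟩ := (hcn i).exists_centre hE.1.isVal
          have hnot : ¬ ringKrullDim A1 ≤ (d : WithBot ℕ∞) := by
            intro h4
            have h5 := (hi0 i hi A1 h4).1 hA1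
            have h6 : A1 = F :=
              (hcn (i + 1)).unique h5 hF hE.1.isVal.isLocalRing hA1E hFE
            exact hF' (h6 ▸ hA1)
          have h7 : (((d + 1 : ℕ) : ℚ)) - 1 = d := by push_cast; ring
          rw [h7] at hE2
          rcases hge i E hE A1 hA1 hA1E d (by omega) hnot with h8 | ⟨-, h8⟩
          · linarith
          · have h9 : (d : ℚ) + 1 ≤ c := by exact_mod_cast hdc
            linarith)
      exact ⟨i1, hi1⟩
  obtain ⟨i0, hi0⟩ := key c le_rfl
  obtain ⟨i1, -, hi1⟩ := stage_step b hcn hP (d := c) (by omega) i0 hi0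
    (fun i _ A hA hd => hsm i A hA hd) (by
      refine finite_pass b hcn hf (h3 i0) (a := c) ?_
      rintro i ⟨hi, F, hF, hF', hd⟩
      have hs := h1 i F hF hF' hd.le
      obtain ⟨E, hE, hFE, hE1, hE2⟩ := exists_blow_flip b hcn hf hF hF' hs hd
      have h7 : (((c + 1 : ℕ) : ℚ)) - 1 = c := by push_cast; ring
      rw [h7] at hE1 hE2
      obtain ⟨A1, hA1, hA1E⟩ := (hcn i0).exists_centre hE.1.isVal
      have hmono := disc_mono_flips b hcn hf hE (i := i0) i hi
      have hnot : ¬ ringKrullDim A1 ≤ (c : WithBot ℕ∞) := by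
        intro h4
        have h5 := (stable_persist hi0 h4 le_rfl (hi.trans (Nat.le_succ i))).1 hA1
        have h5' := (stable_persist hi0 h4 le_rfl hi).1 hA1
        have h6 : A1 = F :=
          (hcn (i + 1)).unique h5 hF hE.1.isVal.isLocalRing hA1E hFE
        exact hF' (h6 ▸ h5')
      refine ⟨E, ⟨hE, ⟨A1, hA1, hA1E, ?_⟩, lt_of_le_of_lt hmono hE2⟩, hE, hE2, hE1.ge⟩
      rcases hge i0 E hE A1 hA1 hA1E c le_rfl hnot with h8 | ⟨h8, -⟩
      · linarith
      · exact h8)
  refine ⟨?_, i1, hi1⟩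
  have hsmall : ∀ P ∈ X i1, IsDVR P → P ∈ Y i1 := by
    intro P hP' hd
    refine (hf i1).small' P ((hi1 i1 le_rfl P ?_).1 hP') hd
    rw [((hcn i1).isDVR_iff hP').1 hd]
    exact_mod_cast (by omega : 1 ≤ c + 1)
  obtain ⟨A, hA, A', hA', hAX, hAX', hdim⟩ := exists_big b (hcn i1) (hf i1) hsmall htr
  obtain ⟨e, he, -⟩ := dim_le_basis b (hcn i1) hA
  obtain ⟨e', he', -⟩ := dim_le_basis b (hcn (i1 + 1)) hA'
  have h4 : c + 2 ≤ e := by
    by_contra hcon
    refine hAX ((hi1 i1 le_rfl A ?_).1 hA)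
    rw [he]
    exact_mod_cast (by omega : e ≤ c + 1)
  have h5 : c + 2 ≤ e' := by
    by_contra hcon
    refine hAX' ((hi1 i1 le_rfl A' ?_).2 hA')
    rw [he']
    exact_mod_cast (by omega : e' ≤ c + 1)
  rw [he, he'] at hdim
  have h6 : e + e' ≤ n + 1 := by exact_mod_cast hdim
  omega

end Flip28
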