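import Pool.Agent.Flip_h28.AlgDefs

/-! # Good varieties, resolutions -/

open scoped KaehlerDifferential

universe u

namespace Flip28

variable {k K : Type u} [Field k] [Field K] [Algebra k K] {n : ℕ}
  (b : Module.Basis (Fin n) K Ω[K⁄k])

/-- `X` is smooth in codimension at most `c`, and the discrepancies of the prime divisors whose
centre is a singular point of `X` are at least `c - 1`, finitely many being less than `c`. -/
structure Good (c : ℕ) (X : Set (Subalgebra k K)) : Prop where
  smooth : ∀ A ∈ X, ringKrullDim A ≤ c → Algebra.FormallySmooth k A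
  disc : ∀ E, IsPrimeDiv E → ∀ A ∈ X, Dom A E → ¬ Algebra.FormallySmooth k A →
    (c : ℚ) - 1 ≤ disc b X E
  fin : {E | IsPrimeDiv E ∧ (∃ A ∈ X, Dom A E ∧ ¬ Algebra.FormallySmooth k A) ∧
    Flip28.disc b X E < c}.Finite

/-- `X` has a smooth projective resolution which is an isomorphism over the smooth points. -/
def HasRes (X : Set (Subalgebra k K)) : Prop :=
  ∃ Z : Set (Subalgebra k K), IsCompleteNormal Z ∧ IsProj Z ∧
    (∀ A ∈ Z, Algebra.FormallySmooth k A) ∧ (∀ A ∈ Z, ∃ x ∈ X, Dom x A) ∧
    ∀ A ∈ X, Algebra.FormallySmooth k A → A ∈ Z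

end Flip28
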