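import Pool.Agent.FlipB_h28.HT2
import Pool.Agent.FlipB_h28.RS4
import Pool.Agent.FlipB_h28.HTDef

/-! # Flips starting from a variety with discrepancies at least `c - 1` -/

open scoped KaehlerDifferential

set_option linter.unusedSectionVars false

universe u

namespace Flip28

variable {k K : Type u} [Field k] [Field K] [Algebra k K] [CharZero k]
  [Algebra.EssFiniteType k K] {n : ℕ} (b : Module.Basis (Fin n) K Ω[K⁄k])
  {X Y : ℕ → Set (Subalgebra k K)}

/-- descending induction -/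
theorem descend {i0 d : ℕ} (hsub : ∀ i, i0 ≤ i → ∀ A ∈ X (i + 1), ringKrullDim A ≤ d → A ∈ X i)
    {i j : ℕ} (hi : i0 ≤ i) (hij : i ≤ j) {A : Subalgebra k K} (hA : A ∈ X j)
    (hd : ringKrullDim A ≤ d) : A ∈ X i := by
  induction j, hij using Nat.le_induction with
  | base => exact hA
  | succ j hij ih => exact ih (hsub j (hi.trans hij) A hA hd)

include b in
/-- the relative version of `finite_removal` -/
theorem finite_removal_rel (i0 : ℕ) (hcn : ∀ i, i0 ≤ i → IsCompleteNormal (X i))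
    (hP : ∀ i, i0 ≤ i → IsProj (X i)) {Z : Set (Subalgebra k K)} (hZ : IsCompleteNormal Z)
    (hZp : IsProj Z) (hZX : ∀ A ∈ Z, ∃ x ∈ X i0, Dom x A)
    (hZs : ∀ A ∈ Z, Algebra.FormallySmooth k A) {p d : ℕ} (hp : 1 ≤ p) (hpd : p + d = n)
    (hsub : ∀ i, i0 ≤ i → ∀ A ∈ X (i + 1), ringKrullDim A ≤ d → A ∈ X i) :
    {i | i0 ≤ i ∧ ∃ P ∈ X i, P ∉ X (i + 1) ∧ ringKrullDim P = d ∧ P ∈ Z}.Finite := by
  classical
  obtain ⟨v, hv⟩ := bound_Bd_rel b hZ hZp (hcn i0 le_rfl) hZX (U := Set.univ) opn_univ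
    (fun A hA _ _ _ _ => hZs A hA) hp hpd
  by_contra hinf
  rw [Set.not_finite] at hinf
  set S : Set ℕ := {i | i0 ≤ i ∧ ∃ P ∈ X i, P ∉ X (i + 1) ∧ ringKrullDim P = d ∧ P ∈ Z} with hS
  have hinf' : Infinite S := hinf.to_subtype
  have hmem : ∀ l, Nat.orderEmbeddingOfSet S l ∈ S := fun l => by
    have h1 : Set.range (Nat.orderEmbeddingOfSet S) ⊆ S :=
      (Nat.orderEmbeddingOfSet_range S).subset
    exact h1 (Set.mem_range_self l)
  choose f hf using fun l => (hmem l).2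
  have h1 := hv (v + 1) (fun l => X (Nat.orderEmbeddingOfSet S l)) (fun l => f l)
    (fun l => hcn _ (hmem l).1) (fun l => hP _ (hmem l).1)
    (fun l => ⟨(hf l).1, (hf l).2.2.2, (hf l).2.2.1⟩)
    (fun l A hA hd => ⟨descend hsub le_rfl (hmem l).1 hA hd, Set.mem_univ _⟩)
    (fun i j hji hmem' => by
      have h3 : Nat.orderEmbeddingOfSet S j < Nat.orderEmbeddingOfSet S i :=
        (Nat.orderEmbeddingOfSet S).lt_iff_lt.2 hji
      refine (hf j).2.1 (descend hsub ?_ h3 hmem' (hf j).2.2.1.le)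
      exact (hmem j).1.trans (Nat.le_succ _))
  omega

include b in
/-- Removal of points of dimension `d` when the points of smaller dimension are smooth and a
resolution exists. -/
theorem finite_removal_res (i0 : ℕ) (hcn : ∀ i, i0 ≤ i → IsCompleteNormal (X i))
    (hP : ∀ i, i0 ≤ i → IsProj (X i)) {Z : Set (Subalgebra k K)} (hZ : IsCompleteNormal Z)
    (hZp : IsProj Z) (hZX : ∀ A ∈ Z, ∃ x ∈ X i0, Dom x A)
    (hZs : ∀ A ∈ Z, Algebra.FormallySmooth k A)
    (hXZ : ∀ A ∈ X i0, Algebra.FormallySmooth k A → A ∈ Z) {p d : ℕ} (hp : 1 ≤ p)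
    (hpd : p + d = n)
    (hsub : ∀ i, i0 ≤ i → ∀ A ∈ X (i + 1), ringKrullDim A ≤ d → A ∈ X i)
    (hlow : ∀ A ∈ X i0, ¬ Algebra.FormallySmooth k A → (d : WithBot ℕ∞) ≤ ringKrullDim A) :
    {i | i0 ≤ i ∧ ∃ P ∈ X i, P ∉ X (i + 1) ∧ ringKrullDim P = d}.Finite := by
  classical
  have h1 := finite_removal_rel b i0 hcn hP hZ hZp hZX hZs hp hpd hsub
  have h2 : {A | A ∈ X i0 ∧ A ∉ {A : Subalgebra k K | Algebra.FormallySmooth k A} ∧
      ringKrullDim A = d}.Finite :=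
    finite_of_opn (hcn i0 le_rfl) opn_smooth fun A hA hs => hlow A hA hs
  have h3 : {i | i0 ≤ i ∧ ∃ P ∈ X i, P ∉ X (i + 1) ∧ ringKrullDim P = d ∧
      ¬ Algebra.FormallySmooth k P}.Finite := by
    have hch : ∀ i ∈ {i | i0 ≤ i ∧ ∃ P ∈ X i, P ∉ X (i + 1) ∧ ringKrullDim P = d ∧
      ¬ Algebra.FormallySmooth k P}, ∃ P, P ∈ X i ∧ P ∉ X (i + 1) ∧ ringKrullDim P = d ∧
      ¬ Algebra.FormallySmooth k P := fun i hi => hi.2
    choose! f hf1 hf2 hf3 hf4 using hch
    refine Set.Finite.of_injOn (f := f) (fun i hi => ?_) ?_ h2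
    · exact ⟨descend hsub le_rfl hi.1 (hf1 i hi) (hf3 i hi).le, hf4 i hi, hf3 i hi⟩
    · have key : ∀ i ∈ {i | i0 ≤ i ∧ ∃ P ∈ X i, P ∉ X (i + 1) ∧ ringKrullDim P = d ∧
          ¬ Algebra.FormallySmooth k P}, ∀ j ∈ {i | i0 ≤ i ∧ ∃ P ∈ X i, P ∉ X (i + 1) ∧
          ringKrullDim P = d ∧ ¬ Algebra.FormallySmooth k P}, i < j → f i ≠ f j := by
        intro i hi j hj hij he
        refine hf2 i hi (descend hsub (hi.1.trans (Nat.le_succ i)) hij ?_ (hf3 i hi).le)
        rw [he]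
        exact hf1 j hj
      intro i hi j hj he
      rcases lt_trichotomy i j with hlt | heq | hgt
      · exact absurd he (key i hi j hj hlt)
      · exact heq
      · exact absurd he.symm (key j hj i hi hgt)
  refine (h1.union h3).subset ?_
  rintro i ⟨hi, P, hPi, hPi', hd⟩
  by_cases hs : Algebra.FormallySmooth k P
  · exact Or.inl ⟨hi, P, hPi, hPi', hd, hXZ P (descend hsub le_rfl hi hPi hd.le) hs⟩
  · exact Or.inr ⟨hi, P, hPi, hPi', hd, hs⟩

include b in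
/-- From `no new points` and finiteness of removals to stability. -/
theorem stage_gen (hcn : ∀ i, IsCompleteNormal (X i)) {d i0 : ℕ}
    (hst : ∀ i, i0 ≤ i → ∀ A : Subalgebra k K,
      ringKrullDim A ≤ d → (A ∈ X i ↔ A ∈ X (i + 1)))
    (hsub : ∀ i, i0 ≤ i → ∀ A ∈ X (i + 1), ringKrullDim A ≤ ((d + 1 : ℕ) : WithBot ℕ∞) → A ∈ X i)
    (hfin : {i | i0 ≤ i ∧ ∃ P ∈ X i, P ∉ X (i + 1) ∧
      ringKrullDim P = ((d + 1 : ℕ) : WithBot ℕ∞)}.Finite) :
    ∃ i1, i0 ≤ i1 ∧ ∀ i, i1 ≤ i → ∀ A : Subalgebra k K,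
      ringKrullDim A ≤ ((d + 1 : ℕ) : WithBot ℕ∞) → (A ∈ X i ↔ A ∈ X (i + 1)) := by
  obtain ⟨M2, hM2⟩ := hfin.bddAbove
  refine ⟨max i0 (M2 + 1), le_max_left _ _, fun i hi A hd => ⟨fun hA => ?_, fun hA => ?_⟩⟩
  · by_contra hcon
    obtain ⟨e, he, -⟩ := dim_le_basis b (hcn i) hA
    have hi1 : i0 ≤ i := le_trans (le_max_left _ _) hi
    rcases Nat.lt_or_ge e (d + 1) with h1 | h1
    · refine hcon ((hst i hi1 A ?_).1 hA)
      rw [he]
      exact_mod_cast (by omega : e ≤ d)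
    · have h2 : e = d + 1 := by
        rw [he] at hd
        have h3 : e ≤ d + 1 := by exact_mod_cast hd
        omega
      have h3 : i ≤ M2 := hM2 ⟨hi1, A, hA, hcon, by rw [he, h2]⟩
      have h4 : M2 + 1 ≤ i := le_trans (le_max_right _ _) hi
      omega
  · exact hsub i (le_trans (le_max_left _ _) hi) A hA hd

/-- There are no flips of curves. -/
theorem two_le_of_flip {X Y X' : Set (Subalgebra k K)} (hX : IsCompleteNormal X)
    (hf : IsFlip b X Y X') : 2 ≤ n := by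
  by_contra hcon
  have hn : n ≤ 1 := by omega
  have htr : Algebra.trdeg k K = n := by
    rw [trdeg_eq_finrank, Module.finrank_eq_card_basis b, Fintype.card_fin]
  have hsmall : ∀ P ∈ X, IsDVR P → P ∈ Y := fun P hP' hd =>
    mem_of_dvr_curve b hX hf.mY hn hP' hd
  obtain ⟨A, hA, A', hA', hAX, hAX', hdim⟩ := exists_big b hX hf hsmall htr
  obtain ⟨e, he, hen⟩ := dim_le_basis b hX hA
  rcases Nat.eq_zero_or_pos e with h0 | h0
  · subst h0
    have h1 : A = ⊤ := (hX.eq_top_iff hA).2 (by simpa using he)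
    exact hAX (h1 ▸ hf.mX'.top_mem)
  · have h1 : e = 1 := by omega
    subst h1
    exact hAX (mem_of_dvr_curve b hX hf.mX' hn hA ((hX.isDVR_iff hA).2 (by simpa using he)))

/-- If the points of codimension `≤ d` are stable, `d ≥ 1`, and no points of codimension `≤ d'`
are created, `d' ≥ d`, then `n ≥ d + d' + 1`. -/
theorem n_ge_of_stable (hcn : ∀ i, IsCompleteNormal (X i))
    (hf : ∀ i, IsFlip b (X i) (Y i) (X (i + 1))) {i0 d d' : ℕ} (hd1 : 1 ≤ d)
    (hst : ∀ i, i0 ≤ i → ∀ A : Subalgebra k K, ringKrullDim A ≤ d → (A ∈ X i ↔ A ∈ X (i + 1)))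
    (hsub : ∀ i, i0 ≤ i → ∀ A ∈ X (i + 1), ringKrullDim A ≤ d' → A ∈ X i) :
    d + d' + 1 ≤ n := by
  have htr : Algebra.trdeg k K = n := by
    rw [trdeg_eq_finrank, Module.finrank_eq_card_basis b, Fintype.card_fin]
  have hsmall : ∀ P ∈ X i0, IsDVR P → P ∈ Y i0 := by
    intro P hP' hd
    refine (hf i0).small' P ((hst i0 le_rfl P ?_).1 hP') hd
    rw [((hcn i0).isDVR_iff hP').1 hd]
    exact_mod_cast hd1
  obtain ⟨A, hA, A', hA', hAX, hAX', hdim⟩ := exists_big b (hcn i0) (hf i0) hsmall htr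
  obtain ⟨e, he, -⟩ := dim_le_basis b (hcn i0) hA
  obtain ⟨e', he', -⟩ := dim_le_basis b (hcn (i0 + 1)) hA'
  have h1 : d + 1 ≤ e := by
    by_contra hcon
    refine hAX ((hst i0 le_rfl A ?_).1 hA)
    rw [he]
    exact_mod_cast (by omega : e ≤ d)
  have h2 : d' + 1 ≤ e' := by
    by_contra hcon
    refine hAX' (hsub i0 le_rfl A' hA' ?_)
    rw [he']
    exact_mod_cast (by omega : e' ≤ d')
  rw [he, he'] at hdim
  have h3 : e + e' ≤ n + 1 := by exact_mod_cast hdim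
  omega

/-- the standing assumptions -/
structure Setup3 (c : ℕ) (X Y : ℕ → Set (Subalgebra k K)) : Prop where
  hX : IsCompleteNormal (X 0)
  hP : ∀ i, IsProj (X i)
  hf : ∀ i, IsFlip b (X i) (Y i) (X (i + 1))
  hg : Good b c (X 0)
  hper : ∀ i, ∀ A ∈ X i, ringKrullDim A < c → A ∈ X (i + 1)
  h3 : ∀ i, ∀ F ∈ X (i + 1), F ∉ X i → ringKrullDim F ≤ ((c + 1 : ℕ) : WithBot ℕ∞) →
    (∀ E, IsPrimeDiv E → Dom F E → (c : ℚ) - 1 < disc b (X (i + 1)) E) →
    Algebra.FormallySmooth k F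

variable {b}
variable {c : ℕ}

theorem Setup3.cn (h : Setup3 b c X Y) (i : ℕ) : IsCompleteNormal (X i) := by
  rcases i with _ | i
  · exact h.hX
  · exact (h.hf i).mX'

theorem Setup3.trdeg (_h : Setup3 b c X Y) : Algebra.trdeg k K = n := by
  rw [trdeg_eq_finrank, Module.finrank_eq_card_basis b, Fintype.card_fin]

theorem Setup3.persist (h : Setup3 b c X Y) {A : Subalgebra k K} {i : ℕ} (hA : A ∈ X i)
    (hd : ringKrullDim A < c) : ∀ j, i ≤ j → A ∈ X j := by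
  intro j hij
  induction j, hij using Nat.le_induction with
  | base => exact hA
  | succ j hij ih => exact h.hper j A ih hd

/-- discrepancies over flipped points -/
theorem Setup3.disc_gt (h : Setup3 b c X Y) {i : ℕ} {F E : Subalgebra k K}
    (hF : F ∈ X (i + 1)) (hF' : F ∉ X i) (hE : IsPrimeDiv E) (hFE : Dom F E) :
    (c : ℚ) - 1 < disc b (X (i + 1)) E := by
  obtain ⟨A1, hA1, hA1E⟩ := (h.cn i).exists_centre hE.1.isVal
  have hlt := disc_lt b (h.cn i) (h.hf i) hE hA1 hF hA1E hFE (fun he => hF' (he ▸ hA1))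
  have hmono := disc_mono_flips b h.cn h.hf hE (i := 0) i (Nat.zero_le _)
  obtain ⟨A0, hA0, hA0E⟩ := h.hX.exists_centre hE.1.isVal
  have hcA : ¬ ringKrullDim A0 < c := by
    intro hcon
    have h1 := h.persist (i := 0) hA0 hcon (i + 1) (by omega)
    have h2 := h.persist (i := 0) hA0 hcon i (by omega)
    have h3 : A0 = F := (h.cn (i + 1)).unique h1 hF hE.1.isVal.isLocalRing hA0E hFE
    exact hF' (h3 ▸ h2)
  have hge : (c : ℚ) - 1 ≤ disc b (X 0) E := by
    by_cases hs : Algebra.FormallySmooth k A0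
    · obtain ⟨e, he, -⟩ := dim_le_basis b h.hX hA0
      have h4 := disc_ge_of_smooth b h.hX hA0 hs hE hA0E he
      rw [he, not_lt] at hcA
      have h5 : c ≤ e := by exact_mod_cast hcA
      have h6 : (c : ℚ) ≤ e := by exact_mod_cast h5
      linarith
    · exact h.hg.disc E hE A0 hA0 hA0E hs
  linarith

theorem Setup3.flipped_smooth (h : Setup3 b c X Y) {i : ℕ} {F : Subalgebra k K}
    (hF : F ∈ X (i + 1)) (hF' : F ∉ X i)
    (hd : ringKrullDim F ≤ ((c + 1 : ℕ) : WithBot ℕ∞)) : Algebra.FormallySmooth k F :=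
  h.h3 i F hF hF' hd fun _ hE hFE => h.disc_gt hF hF' hE hFE

theorem Setup3.flipped_dim (h : Setup3 b c X Y) {i : ℕ} {F : Subalgebra k K}
    (hF : F ∈ X (i + 1)) (hF' : F ∉ X i) {d : ℕ} (hd : ringKrullDim F = d) : c + 1 ≤ d := by
  by_contra hcon
  push Not at hcon
  have hs := h.flipped_smooth hF hF' (by rw [hd]; exact_mod_cast hcon.le)
  obtain ⟨E, hE, hFE, hE1, -⟩ := exists_blow_flip b h.cn h.hf hF hF' hs hd
  have h1 := h.disc_gt hF hF' hE hFE
  rw [hE1] at h1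
  have h2 : (d : ℚ) ≤ c := by exact_mod_cast (by omega : d ≤ c)
  linarith

theorem Setup3.sub_c (h : Setup3 b c X Y) : ∀ i, 0 ≤ i → ∀ A ∈ X (i + 1),
    ringKrullDim A ≤ c → A ∈ X i := by
  intro i _ A hA hd
  by_contra hcon
  obtain ⟨e, he, -⟩ := dim_le_basis b (h.cn (i + 1)) hA
  have h1 := h.flipped_dim hA hcon he
  rw [he] at hd
  have h2 : e ≤ c := by exact_mod_cast hd
  omega

theorem Setup3.smooth_c (h : Setup3 b c X Y) (i : ℕ) : ∀ A ∈ X i, ringKrullDim A ≤ c →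
    Algebra.FormallySmooth k A := fun A hA hd =>
  h.hg.smooth A (descend h.sub_c le_rfl (Nat.zero_le i) hA hd) hd

theorem Setup3.stable_lt (h : Setup3 b c X Y) {d : ℕ} (hd : d < c) :
    ∀ i, 0 ≤ i → ∀ A : Subalgebra k K, ringKrullDim A ≤ d → (A ∈ X i ↔ A ∈ X (i + 1)) :=
  fun i _ A hAd => ⟨fun hA => h.hper i A hA (lt_of_le_of_lt hAd (by exact_mod_cast hd)),
    fun hA => h.sub_c i (Nat.zero_le _) A hA (hAd.trans (by exact_mod_cast hd.le))⟩

theorem Setup3.c_lt (h : Setup3 b c X Y) : c < n := by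
  have h2 := two_le_of_flip b h.hX (h.hf 0)
  rcases Nat.lt_or_ge c 2 with hc | hc
  · omega
  · have h3 := n_ge_of_stable b h.cn h.hf (d := c - 1) (d' := c) (i0 := 0) (by omega)
      (h.stable_lt (by omega)) h.sub_c
    omega

/-- the points of codimension at most `c` are stable from some step on -/
theorem Setup3.stable_c (h : Setup3 b c X Y) : ∃ i1, ∀ i, i1 ≤ i → ∀ A : Subalgebra k K,
    ringKrullDim A ≤ c → (A ∈ X i ↔ A ∈ X (i + 1)) := by
  have hn := h.c_lt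
  rcases Nat.eq_zero_or_pos c with rfl | hc
  · exact ⟨0, fun i _ A hd => stable_zero b h.cn i A hd⟩
  · obtain ⟨d, rfl⟩ : ∃ d, c = d + 1 := ⟨c - 1, by omega⟩
    obtain ⟨i1, -, hi1⟩ := stage_step b h.cn h.hP (d := d) (by omega) 0
      (h.stable_lt (Nat.lt_succ_self d))
      (fun i _ A hA hd => h.smooth_c i A hA hd) (by
        convert Set.finite_empty
        rw [Set.eq_empty_iff_forall_notMem]
        rintro i ⟨-, F, hF, hF', hd⟩
        exact hF' (h.sub_c i (Nat.zero_le _) F hF hd.le))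
    exact ⟨i1, hi1⟩

/-- finitely many steps create points of codimension `c + 1` -/
theorem Setup3.finite_new (h : Setup3 b c X Y) {i1 : ℕ}
    (hi1 : ∀ i, i1 ≤ i → ∀ A : Subalgebra k K, ringKrullDim A ≤ c → (A ∈ X i ↔ A ∈ X (i + 1))) :
    {i | i1 ≤ i ∧ ∃ F ∈ X (i + 1), F ∉ X i ∧
      ringKrullDim F = ((c + 1 : ℕ) : WithBot ℕ∞)}.Finite := by
  classical
  -- the removed points of codimension `c`
  have hrem : {A | A ∈ X 0 ∧ A ∉ X i1 ∧ ringKrullDim A = c}.Finite := by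
    refine finite_removed (h.cn 0) (h.cn i1) fun A hA hA' => ?_
    by_contra hcon
    rw [not_le] at hcon
    exact hA' (h.persist hA hcon i1 (Nat.zero_le _))
  let SM : Set (Subalgebra k K) := {E | IsPrimeDiv E ∧ (∃ A ∈ X 0, A ∉ X i1 ∧
    ringKrullDim A = c ∧ Dom A E) ∧ disc b (X 0) E < c}
  have hSM : SM.Finite := by
    have hch : ∀ E ∈ SM, ∃ A ∈ X 0, A ∉ X i1 ∧ ringKrullDim A = c ∧ Dom A E :=
      fun E hE => hE.2.1
    choose! f hf1 hf2 hf3 hf4 using hch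
    refine Set.Finite.of_injOn (f := f) (s := SM) (t := {A | A ∈ X 0 ∧ A ∉ X i1 ∧
      ringKrullDim A = c}) (fun E hE => ⟨hf1 E hE, hf2 E hE, hf3 E hE⟩) ?_ hrem
    intro E hE E' hE' he
    obtain ⟨R, hR, hK, hRA, -⟩ := h.hX.exists_chart (hf1 E hE)
    obtain ⟨d, x, hx⟩ := exists_coord b hR hK hRA (h.hg.smooth _ (hf1 E hE) (hf3 E hE).le)
    have hd : d = c := by
      have h1 := hx.dim
      rw [hf3 E hE] at h1
      exact_mod_cast h1.symm
    subst hd
    exact hx.unique b h.hX (hf1 E hE) hE.1 (hf4 E hE) hE.2.2 hE'.1 (he ▸ hf4 E' hE') hE'.2.2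
  refine finite_pass b h.cn h.hf (hSM.union h.hg.fin) (a := c) ?_
  rintro i ⟨hi, F, hF, hF', hd⟩
  have hs := h.flipped_smooth hF hF' hd.le
  obtain ⟨E, hE, hFE, hE1, hE2⟩ := exists_blow_flip b h.cn h.hf hF hF' hs hd
  have h7 : (((c + 1 : ℕ) : ℚ)) - 1 = c := by push_cast; ring
  rw [h7] at hE1 hE2
  refine ⟨E, ?_, hE, hE2, hE1.ge⟩
  have hlt0 : disc b (X 0) E < c :=
    lt_of_le_of_lt (disc_mono_flips b h.cn h.hf hE (i := 0) i (Nat.zero_le _)) hE2
  have hlt1 : disc b (X i1) E < c := lt_of_le_of_lt (disc_mono_flips b h.cn h.hf hE i hi) hE2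
  obtain ⟨A0, hA0, hA0E⟩ := h.hX.exists_centre hE.1.isVal
  by_cases hs0 : Algebra.FormallySmooth k A0
  · left
    obtain ⟨e, he, -⟩ := dim_le_basis b h.hX hA0
    have h8 := disc_ge_of_smooth b h.hX hA0 hs0 hE hA0E he
    have h9 : e ≤ c := by
      have h10 : (e : ℚ) < c + 1 := by linarith
      have h11 : e < c + 1 := by exact_mod_cast h10
      omega
    have hnot : A0 ∉ X i1 := by
      intro hA1
      have hdc : ringKrullDim A0 ≤ (c : WithBot ℕ∞) := by rw [he]; exact_mod_cast h9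
      have h5 := (stable_persist hi1 hdc le_rfl (hi.trans (Nat.le_succ i))).1 hA1
      have h5' := (stable_persist hi1 hdc le_rfl hi).1 hA1
      have h6 : A0 = F :=
        (h.cn (i + 1)).unique h5 hF hE.1.isVal.isLocalRing hA0E hFE
      exact hF' (h6 ▸ h5')
    have hec : e = c := by
      by_contra hcon
      refine hnot (h.persist hA0 ?_ i1 (Nat.zero_le _))
      rw [he]
      exact_mod_cast (by omega : e < c)
    exact ⟨hE, ⟨A0, hA0, hnot, by rw [he, hec], hA0E⟩, hlt0⟩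
  · exact Or.inr ⟨hE, ⟨A0, hA0, hA0E, hs0⟩, hlt0⟩

/-- from some step on the points of codimension at most `c` are stable and no points of codimension
`c + 1` are created -/
theorem Setup3.main_A (h : Setup3 b c X Y) : ∃ i1, (∀ i, i1 ≤ i → ∀ A : Subalgebra k K,
    ringKrullDim A ≤ c → (A ∈ X i ↔ A ∈ X (i + 1))) ∧
    ∀ i, i1 ≤ i → ∀ A ∈ X (i + 1), ringKrullDim A ≤ ((c + 1 : ℕ) : WithBot ℕ∞) → A ∈ X i := by
  obtain ⟨i1, hi1⟩ := h.stable_c
  obtain ⟨M, hM⟩ := (h.finite_new hi1).bddAbove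
  refine ⟨max i1 (M + 1), fun i hi A hd => hi1 i (le_trans (le_max_left _ _) hi) A hd,
    fun i hi A hA hd => ?_⟩
  by_contra hcon
  obtain ⟨e, he, -⟩ := dim_le_basis b (h.cn (i + 1)) hA
  have h1 := h.flipped_dim hA hcon he
  have h2 : e = c + 1 := by
    rw [he] at hd
    have h3 : e ≤ c + 1 := by exact_mod_cast hd
    omega
  have h3 : i ≤ M := hM ⟨le_trans (le_max_left _ _) hi, A, hA, hcon, by rw [he, h2]⟩
  have h4 : M + 1 ≤ i := le_trans (le_max_right _ _) hi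
  omega

theorem Setup3.n_ge_A (h : Setup3 b c X Y) : 2 * c + 2 ≤ n := by
  rcases Nat.eq_zero_or_pos c with rfl | hc
  · exact two_le_of_flip b h.hX (h.hf 0)
  · obtain ⟨i1, hi1, hi2⟩ := h.main_A
    have := n_ge_of_stable b h.cn h.hf (d := c) (d' := c + 1) hc hi1 hi2
    omega

/-- the points of codimension at most `c + 1` are stable from some step on -/
theorem Setup3.main_B (h : Setup3 b c X Y)
    (h5 : (∀ i, ∀ A ∈ X i, ringKrullDim A ≤ ((c + 1 : ℕ) : WithBot ℕ∞) →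
      Algebra.FormallySmooth k A) ∨ ∀ i, HasRes (X i)) :
    2 * c + 3 ≤ n ∧ ∃ i1, ∀ i, i1 ≤ i → ∀ A : Subalgebra k K,
      ringKrullDim A ≤ ((c + 1 : ℕ) : WithBot ℕ∞) → (A ∈ X i ↔ A ∈ X (i + 1)) := by
  have hn := h.n_ge_A
  obtain ⟨i1, hi1, hi2⟩ := h.main_A
  have hfin : {i | i1 ≤ i ∧ ∃ P ∈ X i, P ∉ X (i + 1) ∧
      ringKrullDim P = ((c + 1 : ℕ) : WithBot ℕ∞)}.Finite := by
    rcases h5 with h5 | h5
    · exact finite_removal b i1 (fun i _ => h.cn i) (fun i _ => h.hP i)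
        (p := n - (c + 1)) (d := c + 1) (by omega) (by omega) hi2
        (fun A hA hd => h5 i1 A hA hd)
    · obtain ⟨Z, hZ, hZp, hZs, hZX, hXZ⟩ := h5 i1
      refine finite_removal_res b i1 (fun i _ => h.cn i) (fun i _ => h.hP i) hZ hZp hZX hZs hXZ
        (p := n - (c + 1)) (d := c + 1) (by omega) (by omega) hi2 ?_
      intro A hA hs
      obtain ⟨e, he, -⟩ := dim_le_basis b (h.cn i1) hA
      by_contra hcon
      refine hs (h.smooth_c i1 A hA ?_)
      rw [he] at hcon ⊢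
      have h6 : e < c + 1 := by exact_mod_cast not_le.1 hcon
      exact_mod_cast (by omega : e ≤ c)
  obtain ⟨i2, hi12, hi3⟩ := stage_gen b h.cn hi1 hi2 hfin
  refine ⟨?_, i2, hi3⟩
  have := n_ge_of_stable b h.cn h.hf (d := c + 1) (d' := c + 1) (by omega) hi3
    (fun i hi A hA hd => (hi3 i hi A hd).2 hA)
  omega

end Flip28
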