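import Pool.Agent.FlipB_h28.HT3

/-! # The two main theorems on infinite sequences of flips -/

open scoped KaehlerDifferential

set_option linter.unusedSectionVars false

universe u

namespace Flip28

variable {k K : Type u} [Field k] [Field K] [Algebra k K] [CharZero k]
  [Algebra.EssFiniteType k K] {n : ℕ} (b : Module.Basis (Fin n) K Ω[K⁄k])
  {X Y : ℕ → Set (Subalgebra k K)} {c : ℕ}

theorem cn_of_flips (hX : IsCompleteNormal (X 0))
    (hf : ∀ i, IsFlip b (X i) (Y i) (X (i + 1))) (i : ℕ) : IsCompleteNormal (X i) := by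
  rcases i with _ | i
  · exact hX
  · exact (hf i).mX'

/-- Let all `X i` be smooth in codimension at most `c` with discrepancies at least `c - 1` at the
singular points.  Then the points of codimension at most `c` are stable from some step on. -/
theorem stable_of_good (hX : IsCompleteNormal (X 0)) (hP : ∀ i, IsProj (X i))
    (hf : ∀ i, IsFlip b (X i) (Y i) (X (i + 1))) (hg : ∀ i, Good b c (X i)) :
    ∀ d : ℕ, d ≤ c → d < n → ∃ i0, ∀ i, i0 ≤ i → ∀ A : Subalgebra k K,
      ringKrullDim A ≤ d → (A ∈ X i ↔ A ∈ X (i + 1)) := by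
  have hcn := cn_of_flips b hX hf
  intro d
  induction d with
  | zero => exact fun _ _ => ⟨0, fun i _ A hd => stable_zero b hcn i A hd⟩
  | succ d ih =>
    intro hdc hdn
    obtain ⟨i0, hi0⟩ := ih (by omega) (by omega)
    obtain ⟨i1, -, hi1⟩ := stage_step b hcn hP (d := d) hdn i0 hi0
      (fun i _ A hA hd => (hg i).smooth A hA (hd.trans (by exact_mod_cast hdc)))
      (by
        convert Set.finite_empty
        rw [Set.eq_empty_iff_forall_notMem]
        rintro i ⟨hi, F, hF, hF', hd⟩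
        have hs := (hg (i + 1)).smooth F hF (by
          rw [hd]
          exact_mod_cast hdc)
        obtain ⟨E, hE, hFE, hE1, hE2⟩ := exists_blow_flip b hcn hf hF hF' hs hd
        obtain ⟨A1, hA1, hA1E⟩ := (hcn i).exists_centre hE.1.isVal
        have hnot : ¬ ringKrullDim A1 ≤ (d : WithBot ℕ∞) := by
          intro h4
          have h5 := (hi0 i hi A1 h4).1 hA1
          have h6 : A1 = F :=
            (hcn (i + 1)).unique h5 hF hE.1.isVal.isLocalRing hA1E hFE
          exact hF' (h6 ▸ hA1)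
        have h7 : (((d + 1 : ℕ) : ℚ)) - 1 = d := by push_cast; ring
        rw [h7] at hE2
        by_cases hs1 : Algebra.FormallySmooth k A1
        · obtain ⟨e, he, -⟩ := dim_le_basis b (hcn i) hA1
          have h4 := disc_ge_of_smooth b (hcn i) hA1 hs1 hE hA1E he
          rw [he] at hnot
          have h5 : d < e := by
            by_contra hcon
            exact hnot (by exact_mod_cast not_lt.1 hcon)
          have h6 : (d : ℚ) + 1 ≤ e := by exact_mod_cast h5
          linarith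
        · have h8 := (hg i).disc E hE A1 hA1 hA1E hs1
          have h9 : (d : ℚ) + 1 ≤ c := by exact_mod_cast hdc
          linarith)
    exact ⟨i1, hi1⟩

/-- shifting the sequence -/
theorem setup3_shift (hX : IsCompleteNormal (X 0)) (hP : ∀ i, IsProj (X i))
    (hf : ∀ i, IsFlip b (X i) (Y i) (X (i + 1))) {i0 : ℕ} (hg : Good b c (X i0))
    (hper : ∀ i, i0 ≤ i → ∀ A ∈ X i, ringKrullDim A < c → A ∈ X (i + 1))
    (h3 : ∀ i, ∀ F ∈ X (i + 1), F ∉ X i → ringKrullDim F ≤ ((c + 1 : ℕ) : WithBot ℕ∞) →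
      (∀ E, IsPrimeDiv E → Dom F E → (c : ℚ) - 1 < disc b (X (i + 1)) E) →
      Algebra.FormallySmooth k F) :
    Setup3 b c (fun i => X (i0 + i)) (fun i => Y (i0 + i)) where
  hX := cn_of_flips b hX hf i0
  hP := fun i => hP _
  hf := fun i => hf _
  hg := hg
  hper := fun i => hper (i0 + i) (Nat.le_add_right _ _)
  h3 := fun i => h3 (i0 + i)

/-- the conclusion for the sequence shifted by `i0` -/
theorem conclusion_shift {i0 : ℕ} {d : ℕ}
    (h : ∃ i1, ∀ i, i1 ≤ i → ∀ A : Subalgebra k K,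
      ringKrullDim A ≤ d → (A ∈ X (i0 + i) ↔ A ∈ X (i0 + (i + 1)))) :
    ∃ i1, ∀ i, i1 ≤ i → ∀ A : Subalgebra k K, ringKrullDim A ≤ d → (A ∈ X i ↔ A ∈ X (i + 1)) := by
  obtain ⟨i1, hi1⟩ := h
  refine ⟨i0 + i1, fun i hi A hd => ?_⟩
  obtain ⟨j, rfl⟩ : ∃ j, i = i0 + j := ⟨i - i0, by omega⟩
  exact hi1 j (by omega) A hd

/-- The general theorem: from some step `i0` on the flips touch only points of codimension at
least `c`, and `X i0` is good. -/
theorem flips_main (hX : IsCompleteNormal (X 0)) (hP : ∀ i, IsProj (X i))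
    (hf : ∀ i, IsFlip b (X i) (Y i) (X (i + 1))) {i0 : ℕ} (hg : Good b c (X i0))
    (hper : ∀ i, i0 ≤ i → ∀ A ∈ X i, ringKrullDim A < c → A ∈ X (i + 1))
    (h3 : ∀ i, ∀ F ∈ X (i + 1), F ∉ X i → ringKrullDim F ≤ ((c + 1 : ℕ) : WithBot ℕ∞) →
      (∀ E, IsPrimeDiv E → Dom F E → (c : ℚ) - 1 < disc b (X (i + 1)) E) →
      Algebra.FormallySmooth k F)
    (h5 : 2 * c + 2 ≤ n → (∀ i, ∀ A ∈ X i, ringKrullDim A ≤ ((c + 1 : ℕ) : WithBot ℕ∞) →
      Algebra.FormallySmooth k A) ∨ ∀ i, HasRes (X i)) :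
    2 * c + 3 ≤ n ∧ ∃ i1, ∀ i, i1 ≤ i → ∀ A : Subalgebra k K,
      ringKrullDim A ≤ ((c + 1 : ℕ) : WithBot ℕ∞) → (A ∈ X i ↔ A ∈ X (i + 1)) := by
  have h := setup3_shift b hX hP hf hg hper h3
  have h6 := h.main_B (by
    rcases h5 h.n_ge_A with h7 | h7
    · exact Or.inl fun i => h7 _
    · exact Or.inr fun i => h7 _)
  exact ⟨h6.1, conclusion_shift h6.2⟩

/-- Theorem U: all `X i` are smooth in codimension at most `c` with discrepancies at least
`c - 1` at the singular points. -/
theorem flips_all_good (hX : IsCompleteNormal (X 0)) (hP : ∀ i, IsProj (X i))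
    (hf : ∀ i, IsFlip b (X i) (Y i) (X (i + 1))) (hg : ∀ i, Good b c (X i))
    (h3 : ∀ i, ∀ F ∈ X (i + 1), F ∉ X i → ringKrullDim F = ((c + 1 : ℕ) : WithBot ℕ∞) →
      (∀ E, IsPrimeDiv E → Dom F E → (c : ℚ) - 1 < disc b (X (i + 1)) E) →
      Algebra.FormallySmooth k F)
    (h5 : 2 * c + 2 ≤ n → (∀ i, ∀ A ∈ X i, ringKrullDim A ≤ ((c + 1 : ℕ) : WithBot ℕ∞) →
      Algebra.FormallySmooth k A) ∨ ∀ i, HasRes (X i)) :
    2 * c + 3 ≤ n ∧ ∃ i1, ∀ i, i1 ≤ i → ∀ A : Subalgebra k K,
      ringKrullDim A ≤ ((c + 1 : ℕ) : WithBot ℕ∞) → (A ∈ X i ↔ A ∈ X (i + 1)) := by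
  have hcn := cn_of_flips b hX hf
  have h2 := two_le_of_flip b hX (hf 0)
  have hst := stable_of_good b hX hP hf hg
  have hcn' : c < n := by
    by_contra hcon
    obtain ⟨i0, hi0⟩ := hst (n - 1) (by omega) (by omega)
    have := n_ge_of_stable b hcn hf (d := n - 1) (d' := n - 1) (by omega) hi0
      (fun i hi A hA hd => (hi0 i hi A hd).2 hA)
    omega
  obtain ⟨i0, hi0⟩ := hst c le_rfl hcn'
  refine flips_main b hX hP hf (hg i0)
    (fun i hi A hA hd => (hi0 i hi A hd.le).1 hA) ?_ h5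
  intro i F hF hF' hd hdisc
  obtain ⟨e, he, -⟩ := dim_le_basis b (hcn (i + 1)) hF
  rcases Nat.lt_or_ge e (c + 1) with h6 | h6
  · refine (hg (i + 1)).smooth F hF ?_
    rw [he]
    exact_mod_cast (by omega : e ≤ c)
  · refine h3 i F hF hF' ?_ hdisc
    rw [he] at hd ⊢
    have h7 : e ≤ c + 1 := by exact_mod_cast hd
    exact_mod_cast (by omega : e = c + 1)

/-- Theorem G: `X 0` is good and the flips touch only points of codimension at least `c`, or
`c ≤ 2` and infinitely many `X i` are good. -/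
theorem flips_good (hX : IsCompleteNormal (X 0)) (hP : ∀ i, IsProj (X i))
    (hf : ∀ i, IsFlip b (X i) (Y i) (X (i + 1)))
    (hg : (Good b c (X 0) ∧ ∀ i, ∀ A ∈ X i, ringKrullDim A < c → A ∈ X (i + 1)) ∨
      (c ≤ 2 ∧ ∀ j, ∃ i, j ≤ i ∧ Good b c (X i)))
    (h3 : ∀ i, ∀ F ∈ X (i + 1), F ∉ X i → ringKrullDim F ≤ ((c + 1 : ℕ) : WithBot ℕ∞) →
      (∀ E, IsPrimeDiv E → Dom F E → (c : ℚ) - 1 < disc b (X (i + 1)) E) →
      Algebra.FormallySmooth k F)
    (h5 : 2 * c + 2 ≤ n → (∀ i, ∀ A ∈ X i, ringKrullDim A ≤ ((c + 1 : ℕ) : WithBot ℕ∞) →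
      Algebra.FormallySmooth k A) ∨ ∀ i, HasRes (X i)) :
    2 * c + 3 ≤ n ∧ ∃ i1, ∀ i, i1 ≤ i → ∀ A : Subalgebra k K,
      ringKrullDim A ≤ ((c + 1 : ℕ) : WithBot ℕ∞) → (A ∈ X i ↔ A ∈ X (i + 1)) := by
  have hcn := cn_of_flips b hX hf
  rcases hg with ⟨hg, hper⟩ | ⟨hc, hg⟩
  · exact flips_main b hX hP hf (i0 := 0) hg (fun i _ => hper i) h3 h5
  · have hn2 := two_le_of_flip b hX (hf 0)
    -- from some step on points of codimension less than `c` are not touched
    obtain ⟨i1, hi1⟩ : ∃ i1, ∀ i, i1 ≤ i → ∀ A ∈ X i, ringKrullDim A < c → A ∈ X (i + 1) := by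
      have htop : ∀ i, ∀ A ∈ X i, ringKrullDim A ≤ ((0 : ℕ) : WithBot ℕ∞) → A ∈ X (i + 1) :=
        fun i A hA hd => (stable_zero b hcn i A hd).1 hA
      rcases Nat.lt_or_ge c 2 with hc2 | hc2
      · refine ⟨0, fun i _ A hA hd => htop i A hA ?_⟩
        obtain ⟨e, he, -⟩ := dim_le_basis b (hcn i) hA
        rw [he] at hd ⊢
        have h6 : e < c := by exact_mod_cast hd
        exact_mod_cast (by omega : e ≤ 0)
      · have hc' : c = 2 := by omega
        subst hc'
        obtain ⟨i0, -, hi0⟩ := hg 0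
        obtain ⟨i1, -, hi1⟩ := stage_gen b hcn (d := 0) (i0 := i0)
          (fun i _ A hd => stable_zero b hcn i A hd) (fun i _ A hA hd => by
            obtain ⟨e, he, -⟩ := dim_le_basis b (hcn (i + 1)) hA
            rw [he] at hd
            have h6 : e ≤ 0 + 1 := by exact_mod_cast hd
            rcases Nat.eq_zero_or_pos e with h7 | h7
            · refine (stable_zero b hcn i A ?_).2 hA
              rw [he]
              exact_mod_cast h7.le
            · have h8 : e = 1 := by omega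
              subst h8
              have h9 : IsDVR A := ((hcn (i + 1)).isDVR_iff hA).2 (by simpa using he)
              exact dvr_up (hcn i) (hf i).mY (hf i).down ((hf i).small' A hA h9) h9)
          (finite_removal b i0 (fun i _ => hcn i) (fun i _ => hP i) (p := n - 1) (d := 0 + 1)
            (by omega) (by omega) (fun i _ A hA hd => by
              obtain ⟨e, he, -⟩ := dim_le_basis b (hcn (i + 1)) hA
              rw [he] at hd
              have h6 : e ≤ 0 + 1 := by exact_mod_cast hd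
              rcases Nat.eq_zero_or_pos e with h7 | h7
              · refine (stable_zero b hcn i A ?_).2 hA
                rw [he]
                exact_mod_cast h7.le
              · have h8 : e = 1 := by omega
                subst h8
                have h9 : IsDVR A := ((hcn (i + 1)).isDVR_iff hA).2 (by simpa using he)
                exact dvr_up (hcn i) (hf i).mY (hf i).down ((hf i).small' A hA h9) h9)
            (fun A hA hd => hi0.smooth A hA (hd.trans (by exact_mod_cast (by omega : 0 + 1 ≤ 2)))))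
        refine ⟨i1, fun i hi A hA hd => (hi1 i hi A ?_).1 hA⟩
        obtain ⟨e, he, -⟩ := dim_le_basis b (hcn i) hA
        rw [he] at hd ⊢
        have h6 : e < 2 := by exact_mod_cast hd
        exact_mod_cast (by omega : e ≤ 0 + 1)
    obtain ⟨i2, hi2, hg2⟩ := hg i1
    exact flips_main b hX hP hf hg2 (fun i hi => hi1 i (hi2.trans hi)) h3 h5

end Flip28
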