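import Pool.Agent.FlipB_h28.HT4

/-! # A uniform bound for the number of flips removing points of codimension `c` -/

open scoped KaehlerDifferential

set_option linter.unusedSectionVars false

universe u

namespace Flip28

variable {k K : Type u} [Field k] [Field K] [Algebra k K] [CharZero k]
  [Algebra.EssFiniteType k K] {n : ℕ} (b : Module.Basis (Fin n) K Ω[K⁄k]) {c : ℕ}

/-- The bound depends only on the first variety. -/
theorem flips_uniform {X0 : Set (Subalgebra k K)} (hX0 : IsCompleteNormal X0) (hX0p : IsProj X0)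
    (hg : Good b c X0) (hcn : c < n) :
    ∃ v : ℕ, ∀ (N : ℕ) (X Y : ℕ → Set (Subalgebra k K)), X 0 = X0 →
      (∀ i ≤ N, IsProj (X i)) → (∀ i < N, IsFlip b (X i) (Y i) (X (i + 1))) →
      (∀ i < N, ∀ A ∈ X i, ringKrullDim A < c → A ∈ X (i + 1)) →
      (∀ i ≤ N, ∀ A ∈ X i, ringKrullDim A ≤ c → Algebra.FormallySmooth k A) →
      {i | i < N ∧ ∃ P ∈ X i, P ∉ X (i + 1) ∧ ringKrullDim P = c}.ncard ≤ v ∧
        (n ≤ 2 * c → N ≤ v) := by
  classical
  obtain ⟨v, hv⟩ := bound_Bd b hX0 hX0p (p := n - c) (d := c) (by omega) (by omega)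
  refine ⟨v, fun N X Y hX00 hP hf hper hsm => ?_⟩
  have hcn' : ∀ i ≤ N, IsCompleteNormal (X i) := by
    intro i hi
    rcases i with _ | i
    · rw [hX00]
      exact hX0
    · exact (hf i hi).mX'
  have hpersist : ∀ A : Subalgebra k K, ringKrullDim A < c → A ∈ X 0 → ∀ j ≤ N, A ∈ X j := by
    intro A hd hA j
    induction j with
    | zero => exact fun _ => hA
    | succ j ih => exact fun hj => hper j hj A (ih (by omega)) hd
  have hmono : ∀ E, IsPrimeDiv E → ∀ j ≤ N, disc b (X 0) E ≤ disc b (X j) E := by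
    intro E hE j
    induction j with
    | zero => exact fun _ => le_rfl
    | succ j ih =>
      exact fun hj => (ih (by omega)).trans (disc_le b (hcn' j (by omega)) (hf j hj) hE)
  have hg0 : Good b c (X 0) := by rw [hX00]; exact hg
  have hsub : ∀ i < N, ∀ F ∈ X (i + 1), ringKrullDim F ≤ c → F ∈ X i := by
    intro i hi F hF hd
    by_contra hF'
    have hs := hsm (i + 1) hi F hF hd
    obtain ⟨R, hR, hK, hRF, -⟩ := (hcn' (i + 1) hi).exists_chart hF
    obtain ⟨e, x, hx⟩ := exists_coord b hR hK hRF hs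
    have he0 : 0 < e := by
      rcases Nat.eq_zero_or_pos e with h0 | h0
      · exfalso
        subst h0
        have h1 : F = ⊤ := ((hcn' (i + 1) hi).eq_top_iff hF).2 (by simpa using hx.dim)
        exact hF' (h1 ▸ (hcn' i hi.le).top_mem)
      · exact h0
    have hec : e ≤ c := by
      rw [hx.dim] at hd
      exact_mod_cast hd
    obtain ⟨E, hE, hFE, hdisc⟩ := hx.exists_blow b (hcn' (i + 1) hi) hF he0
    have hEval : IsVal E := hE.1.isVal
    obtain ⟨A1, hA1, hA1E⟩ := (hcn' i hi.le).exists_centre hEval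
    have hlt := disc_lt b (hcn' i hi.le) (hf i hi) hE hA1 hF hA1E hFE (fun he => hF' (he ▸ hA1))
    have h1 := hmono E hE i hi.le
    obtain ⟨A0, hA0, hA0E⟩ := (hcn' 0 (Nat.zero_le _)).exists_centre hEval
    have hcA : ¬ ringKrullDim A0 < c := by
      intro hcon
      have h2 := hpersist A0 hcon hA0 (i + 1) hi
      have h3 := hpersist A0 hcon hA0 i hi.le
      have h4 : A0 = F := (hcn' (i + 1) hi).unique h2 hF hEval.isLocalRing hA0E hFE
      exact hF' (h4 ▸ h3)
    have hge : (c : ℚ) - 1 ≤ disc b (X 0) E := by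
      by_cases hs : Algebra.FormallySmooth k A0
      · obtain ⟨e', he', -⟩ := dim_le_basis b (hcn' 0 (Nat.zero_le _)) hA0
        have h4 := disc_ge_of_smooth b (hcn' 0 (Nat.zero_le _)) hA0 hs hE hA0E he'
        rw [he', not_lt] at hcA
        have h5 : c ≤ e' := by exact_mod_cast hcA
        have h6 : (c : ℚ) ≤ e' := by exact_mod_cast h5
        linarith
      · exact hg0.disc E hE A0 hA0 hA0E hs
    rw [hdisc] at hlt
    have h7 : (e : ℚ) ≤ c := by exact_mod_cast hec
    linarith
  have hdesc : ∀ i j, i ≤ j → j ≤ N → ∀ A ∈ X j, ringKrullDim A ≤ c → A ∈ X i := by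
    intro i j hij
    induction j, hij using Nat.le_induction with
    | base => exact fun _ A hA _ => hA
    | succ j hij ih => exact fun hj A hA hd => ih (by omega) A (hsub j hj A hA hd) hd
  set S : Set ℕ := {i | i < N ∧ ∃ P ∈ X i, P ∉ X (i + 1) ∧ ringKrullDim P = c} with hS
  have hSfin : S.Finite := (Set.finite_lt_nat N).subset fun i hi => hi.1
  have hbound : S.ncard ≤ v := by
    rw [Set.ncard_eq_toFinset_card S hSfin]
    set T := hSfin.toFinset with hT
    have hmem : ∀ l : Fin T.card, T.orderEmbOfFin rfl l ∈ S := fun l =>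
      hSfin.mem_toFinset.1 (T.orderEmbOfFin_mem rfl l)
    choose f hf1 hf2 hf3 using fun l => (hmem l).2
    refine hv T.card (fun l => X (T.orderEmbOfFin rfl l)) f
      (fun l => hcn' _ (hmem l).1.le) (fun l => hP _ (hmem l).1.le)
      (fun l => ⟨hf1 l, hf3 l⟩) (fun l A hA hd => ⟨?_, hsm _ (hmem l).1.le A hA hd⟩) ?_
    · rw [← hX00]
      exact hdesc 0 _ (Nat.zero_le _) (hmem l).1.le A hA hd
    · intro i j hji hmem'
      have h3 : T.orderEmbOfFin rfl j < T.orderEmbOfFin rfl i :=
        (T.orderEmbOfFin rfl).lt_iff_lt.2 hji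
      exact hf2 j (hdesc _ _ h3 (hmem i).1.le _ hmem' (hf3 j).le)
  refine ⟨hbound, fun hn => ?_⟩
  have hall : S = {i | i < N} := by
    ext i
    constructor
    · exact fun hi => hi.1
    · intro hi
      refine ⟨hi, ?_⟩
      by_contra hcon
      push Not at hcon
      have hno : ∀ A ∈ X i, ringKrullDim A ≤ c → A ∈ X (i + 1) := by
        intro A hA hd
        obtain ⟨e, he, -⟩ := dim_le_basis b (hcn' i hi.le) hA
        rcases Nat.lt_or_ge e c with h1 | h1
        · refine hper i hi A hA ?_
          rw [he]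
          exact_mod_cast h1
        · by_contra h2
          refine hcon A hA h2 ?_
          rw [he] at hd ⊢
          have h3 : e ≤ c := by exact_mod_cast hd
          exact_mod_cast (by omega : e = c)
      have hsmall : ∀ P ∈ X i, IsDVR P → P ∈ Y i := by
        intro P hP' hd
        refine (hf i hi).small' P (hno P hP' ?_) hd
        rw [((hcn' i hi.le).isDVR_iff hP').1 hd]
        exact_mod_cast (by omega : 1 ≤ c)
      have htr : Algebra.trdeg k K = n := by
        rw [trdeg_eq_finrank, Module.finrank_eq_card_basis b, Fintype.card_fin]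
      obtain ⟨A, hA, A', hA', hAX, hAX', hdim⟩ :=
        exists_big b (hcn' i hi.le) (hf i hi) hsmall htr
      obtain ⟨e, he, -⟩ := dim_le_basis b (hcn' i hi.le) hA
      obtain ⟨e', he', -⟩ := dim_le_basis b (hcn' (i + 1) hi) hA'
      have h1 : c + 1 ≤ e := by
        by_contra hcon2
        refine hAX (hno A hA ?_)
        rw [he]
        exact_mod_cast (by omega : e ≤ c)
      have h2 : c + 1 ≤ e' := by
        by_contra hcon2
        refine hAX' (hsub i hi A' hA' ?_)
        rw [he']
        exact_mod_cast (by omega : e' ≤ c)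
      rw [he, he'] at hdim
      have h3 : e + e' ≤ n + 1 := by exact_mod_cast hdim
      omega
  rw [hall] at hbound
  have h4 : {i | i < N}.ncard = N := by
    rw [Set.ncard_eq_toFinset_card' {i | i < N}]
    simp
  omega

end Flip28
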