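import Pool.Agent.FlipB_h28.HT4

/-! # A uniform bound for the number of flips removing points of codimension `c`, and for the
number of all flips in dimension at most `2 c + 1` if there are no discrepancies between `c - 1`
and `c` -/

open scoped KaehlerDifferential

set_option linter.unusedSectionVars false

universe u

namespace Flip28

variable {k K : Type u} [Field k] [Field K] [Algebra k K] [CharZero k]
  [Algebra.EssFiniteType k K] {n : ℕ} (b : Module.Basis (Fin n) K Ω[K⁄k]) {c : ℕ}

/-- The bounds depend only on the first variety. -/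
theorem flips_uniform2 {X0 : Set (Subalgebra k K)} (hX0 : IsCompleteNormal X0)
    (hX0p : IsProj X0) (hg : Good b c X0) (hcn : c < n) :
    ∃ v : ℕ, ∀ (N : ℕ) (X Y : ℕ → Set (Subalgebra k K)), X 0 = X0 →
      (∀ i ≤ N, IsProj (X i)) → (∀ i < N, IsFlip b (X i) (Y i) (X (i + 1))) →
      (∀ i < N, ∀ A ∈ X i, ringKrullDim A < c → A ∈ X (i + 1)) →
      (∀ i ≤ N, ∀ A ∈ X i, ringKrullDim A ≤ c → Algebra.FormallySmooth k A) →
      {i | i < N ∧ ∃ P ∈ X i, P ∉ X (i + 1) ∧ ringKrullDim P = c}.ncard ≤ v ∧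
        (n ≤ 2 * c → N ≤ v) ∧
        (1 ≤ c → n ≤ 2 * c + 1 →
          (∀ i < N, ∀ E, IsPrimeDiv E →
            disc b (X i) E ≤ (c : ℚ) - 1 ∨ (c : ℚ) ≤ disc b (X i) E) →
          (∀ i < N, ∀ F ∈ X (i + 1), F ∉ X i → ringKrullDim F = (c : WithBot ℕ∞) + 1 →
            Algebra.FormallySmooth k F ∨
              ∃ E, IsPrimeDiv E ∧ Dom F E ∧ disc b (X (i + 1)) E ≤ c) →
          N ≤ v + {E | IsPrimeDiv E ∧ (∃ A ∈ X0, Dom A E ∧ ¬ Algebra.FormallySmooth k A) ∧
            disc b X0 E < c}.ncard) := by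
  classical
  obtain ⟨v, hv⟩ := bound_Bd b hX0 hX0p (p := n - c) (d := c) (by omega) (by omega)
  refine ⟨v, fun N X Y hX00 hP hf hper hsm => ?_⟩
  have hcn' : ∀ i ≤ N, IsCompleteNormal (X i) := by
    intro i hi
    rcases i with _ | i
    · rw [hX00]
      exact hX0
    · exact (hf i hi).mX'
  have hpersist : ∀ A : Subalgebra k K, ringKrullDim A < c → A ∈ X 0 → ∀ j ≤ N, A ∈ X j := by
    intro A hd hA j
    induction j with
    | zero => exact fun _ => hA
    | succ j ih => exact fun hj => hper j hj A (ih (by omega)) hd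
  have hmono2 : ∀ E, IsPrimeDiv E → ∀ i j, i ≤ j → j ≤ N → disc b (X i) E ≤ disc b (X j) E := by
    intro E hE i j hij
    induction j, hij using Nat.le_induction with
    | base => exact fun _ => le_rfl
    | succ j hij ih =>
      exact fun hj => (ih (by omega)).trans (disc_le b (hcn' j (by omega)) (hf j hj) hE)
  have hmono : ∀ E, IsPrimeDiv E → ∀ j ≤ N, disc b (X 0) E ≤ disc b (X j) E :=
    fun E hE j hj => hmono2 E hE 0 j (Nat.zero_le _) hj
  have hg0 : Good b c (X 0) := by rw [hX00]; exact hg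
  -- the centres on `X 0` of the prime divisors over flipped points
  have hcent : ∀ i < N, ∀ F ∈ X (i + 1), F ∉ X i → ∀ E, IsPrimeDiv E → Dom F E →
      ∀ A0 ∈ X 0, Dom A0 E → ¬ ringKrullDim A0 < c := by
    intro i hi F hF hF' E hE hFE A0 hA0 hA0E hcon
    have h2 := hpersist A0 hcon hA0 (i + 1) hi
    have h3 := hpersist A0 hcon hA0 i hi.le
    have h4 : A0 = F := (hcn' (i + 1) hi).unique h2 hF hE.1.isVal.isLocalRing hA0E hFE
    exact hF' (h4 ▸ h3)
  have hlow : ∀ i < N, ∀ F ∈ X (i + 1), F ∉ X i → ∀ E, IsPrimeDiv E → Dom F E →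
      (c : ℚ) - 1 ≤ disc b (X 0) E := by
    intro i hi F hF hF' E hE hFE
    obtain ⟨A0, hA0, hA0E⟩ := (hcn' 0 (Nat.zero_le _)).exists_centre hE.1.isVal
    have hcA := hcent i hi F hF hF' E hE hFE A0 hA0 hA0E
    by_cases hs : Algebra.FormallySmooth k A0
    · obtain ⟨e', he', -⟩ := dim_le_basis b (hcn' 0 (Nat.zero_le _)) hA0
      have h4 := disc_ge_of_smooth b (hcn' 0 (Nat.zero_le _)) hA0 hs hE hA0E he'
      rw [he', not_lt] at hcA
      have h5 : c ≤ e' := by exact_mod_cast hcA
      have h6 : (c : ℚ) ≤ e' := by exact_mod_cast h5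
      linarith
    · exact hg0.disc E hE A0 hA0 hA0E hs
  have hlt : ∀ i < N, ∀ F ∈ X (i + 1), F ∉ X i → ∀ E, IsPrimeDiv E → Dom F E →
      disc b (X i) E < disc b (X (i + 1)) E := by
    intro i hi F hF hF' E hE hFE
    obtain ⟨A1, hA1, hA1E⟩ := (hcn' i hi.le).exists_centre hE.1.isVal
    exact disc_lt b (hcn' i hi.le) (hf i hi) hE hA1 hF hA1E hFE (fun he => hF' (he ▸ hA1))
  have hblow : ∀ i < N, ∀ F ∈ X (i + 1), F ∉ X i → Algebra.FormallySmooth k F → ∀ e : ℕ,
      ringKrullDim F = e → ∃ E, IsPrimeDiv E ∧ Dom F E ∧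
        disc b (X (i + 1)) E = (e : ℚ) - 1 := by
    intro i hi F hF hF' hs e hde
    obtain ⟨R, hR, hK, hRF, -⟩ := (hcn' (i + 1) hi).exists_chart hF
    obtain ⟨e', x, hx⟩ := exists_coord b hR hK hRF hs
    have hee : e' = e := by
      have h1 := hx.dim
      rw [hde] at h1
      exact_mod_cast h1.symm
    subst hee
    have he0 : 0 < e' := by
      rcases Nat.eq_zero_or_pos e' with h0 | h0
      · exfalso
        subst h0
        have h1 : F = ⊤ := ((hcn' (i + 1) hi).eq_top_iff hF).2 (by simpa using hx.dim)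
        exact hF' (h1 ▸ (hcn' i hi.le).top_mem)
      · exact h0
    exact hx.exists_blow b (hcn' (i + 1) hi) hF he0
  have hsub : ∀ i < N, ∀ F ∈ X (i + 1), ringKrullDim F ≤ c → F ∈ X i := by
    intro i hi F hF hd
    by_contra hF'
    obtain ⟨e, he, -⟩ := dim_le_basis b (hcn' (i + 1) hi) hF
    obtain ⟨E, hE, hFE, hdisc⟩ := hblow i hi F hF hF' (hsm (i + 1) hi F hF hd) e he
    have hlt' := hlt i hi F hF hF' E hE hFE
    have h1 := hmono E hE i hi.le
    have hge := hlow i hi F hF hF' E hE hFE
    rw [hdisc] at hlt'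
    rw [he] at hd
    have hec : e ≤ c := by exact_mod_cast hd
    have h7 : (e : ℚ) ≤ c := by exact_mod_cast hec
    linarith
  have hdesc : ∀ i j, i ≤ j → j ≤ N → ∀ A ∈ X j, ringKrullDim A ≤ c → A ∈ X i := by
    intro i j hij
    induction j, hij using Nat.le_induction with
    | base => exact fun _ A hA _ => hA
    | succ j hij ih => exact fun hj A hA hd => ih (by omega) A (hsub j hj A hA hd) hd
  set S : Set ℕ := {i | i < N ∧ ∃ P ∈ X i, P ∉ X (i + 1) ∧ ringKrullDim P = c} with hS
  have hSfin : S.Finite := (Set.finite_lt_nat N).subset fun i hi => hi.1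
  have hbound : S.ncard ≤ v := by
    rw [Set.ncard_eq_toFinset_card S hSfin]
    set T := hSfin.toFinset with hT
    have hmem : ∀ l : Fin T.card, T.orderEmbOfFin rfl l ∈ S := fun l =>
      hSfin.mem_toFinset.1 (T.orderEmbOfFin_mem rfl l)
    choose f hf1 hf2 hf3 using fun l => (hmem l).2
    refine hv T.card (fun l => X (T.orderEmbOfFin rfl l)) f
      (fun l => hcn' _ (hmem l).1.le) (fun l => hP _ (hmem l).1.le)
      (fun l => ⟨hf1 l, hf3 l⟩) (fun l A hA hd => ⟨?_, hsm _ (hmem l).1.le A hA hd⟩) ?_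
    · rw [← hX00]
      exact hdesc 0 _ (Nat.zero_le _) (hmem l).1.le A hA hd
    · intro i j hji hmem'
      have h3 : T.orderEmbOfFin rfl j < T.orderEmbOfFin rfl i :=
        (T.orderEmbOfFin rfl).lt_iff_lt.2 hji
      exact hf2 j (hdesc _ _ h3 (hmem i).1.le _ hmem' (hf3 j).le)
  -- the flips which do not remove a point of codimension `c`
  have hbig : 1 ≤ c → ∀ i < N, i ∉ S → ∃ A ∈ X i, ∃ A' ∈ X (i + 1), A ∉ X (i + 1) ∧ A' ∉ X i ∧
      ∃ e e' : ℕ, ringKrullDim A = e ∧ ringKrullDim A' = e' ∧ c + 1 ≤ e ∧ c + 1 ≤ e' ∧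
        e + e' ≤ n + 1 := by
    intro hc1 i hi hiS
    have hcon : ∀ P ∈ X i, P ∉ X (i + 1) → ringKrullDim P ≠ c := by
      intro P hP1 hP2 hP3
      exact hiS ⟨hi, P, hP1, hP2, hP3⟩
    have hno : ∀ A ∈ X i, ringKrullDim A ≤ c → A ∈ X (i + 1) := by
      intro A hA hd
      obtain ⟨e, he, -⟩ := dim_le_basis b (hcn' i hi.le) hA
      rcases Nat.lt_or_ge e c with h1 | h1
      · refine hper i hi A hA ?_
        rw [he]
        exact_mod_cast h1
      · by_contra h2
        refine hcon A hA h2 ?_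
        rw [he] at hd ⊢
        have h3 : e ≤ c := by exact_mod_cast hd
        exact_mod_cast (by omega : e = c)
    have hsmall : ∀ P ∈ X i, IsDVR P → P ∈ Y i := by
      intro P hP' hd
      refine (hf i hi).small' P (hno P hP' ?_) hd
      rw [((hcn' i hi.le).isDVR_iff hP').1 hd]
      exact_mod_cast hc1
    have htr : Algebra.trdeg k K = n := by
      rw [trdeg_eq_finrank, Module.finrank_eq_card_basis b, Fintype.card_fin]
    obtain ⟨A, hA, A', hA', hAX, hAX', hdim⟩ :=
      exists_big b (hcn' i hi.le) (hf i hi) hsmall htr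
    obtain ⟨e, he, -⟩ := dim_le_basis b (hcn' i hi.le) hA
    obtain ⟨e', he', -⟩ := dim_le_basis b (hcn' (i + 1) hi) hA'
    have h1 : c + 1 ≤ e := by
      by_contra hcon2
      refine hAX (hno A hA ?_)
      rw [he]
      exact_mod_cast (by omega : e ≤ c)
    have h2 : c + 1 ≤ e' := by
      by_contra hcon2
      refine hAX' (hsub i hi A' hA' ?_)
      rw [he']
      exact_mod_cast (by omega : e' ≤ c)
    rw [he, he'] at hdim
    have h3 : e + e' ≤ n + 1 := by exact_mod_cast hdim
    exact ⟨A, hA, A', hA', hAX, hAX', e, e', he, he', h1, h2, h3⟩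
  refine ⟨hbound, fun hn => ?_, fun hc1 hn hgap hM => ?_⟩
  · have hall : S = {i | i < N} := by
      ext i
      constructor
      · exact fun hi => hi.1
      · intro hi
        by_contra hcon
        obtain ⟨A, -, A', -, -, -, e, e', -, -, h1, h2, h3⟩ := hbig (by omega) i hi hcon
        omega
    rw [hall] at hbound
    have h4 : {i | i < N}.ncard = N := by
      rw [Set.ncard_eq_toFinset_card' {i | i < N}]
      simp
    omega
  · set SS := {E | IsPrimeDiv E ∧ (∃ A ∈ X0, Dom A E ∧ ¬ Algebra.FormallySmooth k A) ∧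
      disc b X0 E < c} with hSS
    have hSSfin : SS.Finite := hg.fin
    let T2 : Finset ℕ := (Finset.range N).filter (fun i => i ∉ S)
    have hch : ∀ i ∈ T2, ∃ E ∈ SS, disc b (X i) E ≤ (c : ℚ) - 1 ∧
        (c : ℚ) - 1 < disc b (X (i + 1)) E := by
      intro i hi2
      have hi : i < N := Finset.mem_range.1 (Finset.mem_filter.1 hi2).1
      have hiS : i ∉ S := (Finset.mem_filter.1 hi2).2
      obtain ⟨A, -, F, hF, -, hF', e, e', -, he', h1, h2, h3⟩ := hbig hc1 i hi hiS
      have hec : e' = c + 1 := by omega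
      have hdF : ringKrullDim F = (c : WithBot ℕ∞) + 1 := by
        rw [he', hec]
        push_cast
        rfl
      obtain ⟨E, hE, hFE, hE1⟩ : ∃ E, IsPrimeDiv E ∧ Dom F E ∧ disc b (X (i + 1)) E ≤ c := by
        rcases hM i hi F hF hF' hdF with hs | hM'
        · obtain ⟨E, hE, hFE, hdisc⟩ := hblow i hi F hF hF' hs e' he'
          refine ⟨E, hE, hFE, le_of_eq ?_⟩
          rw [hdisc, hec]
          push_cast
          ring
        · exact hM'
      have h6 := hlt i hi F hF hF' E hE hFE
      have h7 : disc b (X i) E ≤ (c : ℚ) - 1 := by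
        rcases hgap i hi E hE with h8 | h8
        · exact h8
        · exact absurd (lt_of_lt_of_le h6 hE1) (not_lt.2 h8)
      have h9 := hlow i hi F hF hF' E hE hFE
      have h10 := hmono E hE i hi.le
      obtain ⟨A0, hA0, hA0E⟩ := (hcn' 0 (Nat.zero_le _)).exists_centre hE.1.isVal
      have hns : ¬ Algebra.FormallySmooth k A0 := by
        intro hs0
        have hcA := hcent i hi F hF hF' E hE hFE A0 hA0 hA0E
        obtain ⟨e0, he0, -⟩ := dim_le_basis b (hcn' 0 (Nat.zero_le _)) hA0
        have h11 := disc_ge_of_smooth b (hcn' 0 (Nat.zero_le _)) hA0 hs0 hE hA0E he0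
        rw [he0, not_lt] at hcA
        have h12 : c ≤ e0 := by exact_mod_cast hcA
        have h13 : (e0 : ℚ) ≤ c := by linarith
        have h14 : e0 ≤ c := by exact_mod_cast h13
        have h15 : e0 = c := by omega
        have hst : ∀ j ≤ i, A0 ∈ X j := by
          intro j
          induction j with
          | zero => exact fun _ => hA0
          | succ j ih =>
            intro hj
            by_contra hcon
            obtain ⟨A2, hA2, hA2E⟩ := (hcn' (j + 1) (by omega)).exists_centre hE.1.isVal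
            have h16 := disc_lt b (hcn' j (by omega)) (hf j (by omega)) hE (ih (by omega)) hA2
              hA0E hA2E (fun he => hcon (he ▸ hA2))
            have h17 := hmono E hE j (by omega)
            have h18 := hmono2 E hE (j + 1) i (by omega) hi.le
            linarith
        have h19 := hst i le_rfl
        have h20 : A0 ∈ X (i + 1) := by
          by_contra hcon
          exact hiS ⟨hi, A0, h19, hcon, by rw [he0, h15]⟩
        have h21 : A0 = F := (hcn' (i + 1) hi).unique h20 hF hE.1.isVal.isLocalRing hA0E hFE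
        exact hF' (h21 ▸ h19)
      refine ⟨E, ⟨hE, ⟨A0, by rw [← hX00]; exact hA0, hA0E, hns⟩, ?_⟩, h7, by linarith⟩
      rw [← hX00]
      linarith
    have hcard2 : T2.card ≤ SS.ncard := by
      rw [Set.ncard_eq_toFinset_card SS hSSfin]
      choose! f hf1 hf2 hf3 using hch
      refine Finset.card_le_card_of_injOn f (fun i hi => by
        simpa using hf1 i hi) ?_
      have key : ∀ i ∈ T2, ∀ j ∈ T2, i < j → f i ≠ f j := by
        intro i hi j hj hij he
        have hjN : j < N := Finset.mem_range.1 (Finset.mem_filter.1 hj).1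
        have h3 := hmono2 (f i) (hf1 i hi).1 (i + 1) j (by omega) hjN.le
        have h4 := hf3 i hi
        have h5 := hf2 j hj
        rw [← he] at h5
        linarith
      intro i hi j hj he
      rcases lt_trichotomy i j with hlt | heq | hgt
      · exact absurd he (key i hi j hj hlt)
      · exact heq
      · exact absurd he.symm (key j hj i hi hgt)
    have hcov : Finset.range N ⊆ hSfin.toFinset ∪ T2 := by
      intro i hi
      rw [Finset.mem_union]
      by_cases hiS : i ∈ S
      · exact Or.inl (hSfin.mem_toFinset.2 hiS)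
      · exact Or.inr (Finset.mem_filter.2 ⟨hi, hiS⟩)
    have hcard1 : hSfin.toFinset.card ≤ v := by
      rw [← Set.ncard_eq_toFinset_card S hSfin]
      exact hbound
    calc N = (Finset.range N).card := (Finset.card_range N).symm
      _ ≤ (hSfin.toFinset ∪ T2).card := Finset.card_le_card hcov
      _ ≤ hSfin.toFinset.card + T2.card := Finset.card_union_le _ _
      _ ≤ _ := Nat.add_le_add hcard1 hcard2

end Flip28
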