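import Pool.Agent.FlipB_h28.HK

/-! # Open subsets and dominated points -/

open scoped KaehlerDifferential

universe u

namespace Flip28

variable {k K : Type u} [Field k] [Field K] [Algebra k K] {X X' Z : Set (Subalgebra k K)}

/-- the points dominating a point of `X` which belongs to `O` -/
def Pre (X O : Set (Subalgebra k K)) : Set (Subalgebra k K) :=
  {A | ∃ x ∈ X, Dom x A ∧ x ∈ O}

theorem mem_Pre_iff (hX : IsCompleteNormal X) {O : Set (Subalgebra k K)} {A x : Subalgebra k K}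
    (hA : IsLocalRing A) (hx : x ∈ X) (hd : Dom x A) : A ∈ Pre X O ↔ x ∈ O := by
  constructor
  · rintro ⟨y, hy, hyd, hyO⟩
    rw [hX.unique hx hy hA hd hyd]
    exact hyO
  · intro h
    exact ⟨x, hx, hd, h⟩

theorem mem_Pre_self (hX : IsCompleteNormal X) {O : Set (Subalgebra k K)} {A : Subalgebra k K}
    (hA : A ∈ X) : A ∈ Pre X O ↔ A ∈ O :=
  mem_Pre_iff hX (hX.isLocalRing hA) hA (Dom.refl A)

theorem Opn.congr {U U' : Set (Subalgebra k K)} (hU : Opn X U)
    (h : ∀ A ∈ X, (A ∈ U ↔ A ∈ U')) : Opn X U' := by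
  intro R hR hK hRX A hA hAU
  obtain ⟨r, hr, hr0, hrA, hall⟩ := hU R hR hK hRX A hA ((h A (hRX A hA)).2 hAU)
  exact ⟨r, hr, hr0, hrA, fun B hB hrB => (h B (hRX B hB)).1 (hall B hB hrB)⟩

/-- the map of a model onto a model dominated by it is continuous -/
theorem Opn.pre (hX : IsCompleteNormal X) {O : Set (Subalgebra k K)} (hO : Opn X O) :
    Opn Z (Pre X O) := by
  rintro S hS hSK hSZ A hA ⟨x, hx, hd, hxO⟩
  obtain ⟨R, hR, hK, hRx, hall⟩ := hX.exists_chart hx
  obtain ⟨r, hr, hr0, hrx, hrO⟩ := hO R hR hK hall x hRx hxO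
  obtain ⟨T, hT⟩ := hR
  have hTR : ∀ t ∈ (T : Set K), t ∈ R := fun t ht => by
    rw [← hT]
    exact Algebra.subset_adjoin ht
  obtain ⟨c, hc, hc0, hcA, hcT⟩ := Finite_aux_denom hA 1 (T.finite_toSet.insert r⁻¹)
    (by
      intro t ht
      rw [inv_one, mul_one]
      rcases ht with rfl | ht
      · exact hd.1 hrx
      · exact hd.1 (hRx.1 (hTR t ht)))
  simp only [inv_one, mul_one] at hcT
  refine ⟨c, hc, hc0, hcA, fun B hB hcB => ?_⟩
  have hTB : ∀ t ∈ insert r⁻¹ (T : Set K), t ∈ B := by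
    intro t ht
    have e : t = (c * t) * c⁻¹ := by
      field_simp
    rw [e]
    exact B.mul_mem (hB.1 (hcT t ht)) hcB
  have hRB : R ≤ B := by
    rw [← hT]
    exact Algebra.adjoin_le fun t ht => hTB t (Set.mem_insert_of_mem _ ht)
  obtain ⟨y, hy, hyd⟩ := exists_cen R B hRB hB.2.1
  exact ⟨y, hall y hy, hyd, hrO y hy (hyd.2 r (hy.1 hr) (hTB _ (Set.mem_insert _ _)))⟩

/-- the common points of two models in an open subset of the first one form an open subset of the
second one -/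
theorem Opn.sub (hX : IsCompleteNormal X) {U : Set (Subalgebra k K)} (hU : Opn X U) :
    Opn X' (X ∩ U) := by
  have h1 : Opn X' (X ∩ Pre X U) := (opn_model hX).inter (Opn.pre hX hU)
  refine h1.congr fun A _ => ?_
  constructor
  · rintro ⟨h2, h3⟩
    exact ⟨h2, (mem_Pre_self hX h2).1 h3⟩
  · rintro ⟨h2, h3⟩
    exact ⟨h2, (mem_Pre_self hX h2).2 h3⟩

end Flip28
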