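import Pool.Agent.FlipB_h28.HM
import Pool.Agent.Flip_h28.Finite

/-! # Associated points, for a space `V'` which does not define the model -/

open scoped KaehlerDifferential

universe u

namespace Flip28

variable {k K : Type u} [Field k] [Field K] [Algebra k K] {Z : Set (Subalgebra k K)}

/-- `HM_aux1` with the additional assertion `I ≤ P` -/
theorem RM_aux1 {C : Type*} [CommRing C] [IsNoetherianRing C] {Q : Type*} [AddCommGroup Q]
    [Module C Q] (P : Ideal C) (hP : P.IsPrime) (v : Q) (hv : ∀ a : C, a • v = 0 → a ∈ P) :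
    ∃ I ∈ associatedPrimes C Q, I ≤ P ∧ ∀ a : C, a • v = 0 → a ∈ I := by
  -- the family of annihilators
  let fam : Set (Submodule C C) := {J | J ≤ P ∧ ∃ t : C, ∀ a, a ∈ J ↔ a • (t • v) = 0}
  have hne : fam.Nonempty := by
    refine ⟨Submodule.colon (⊥ : Submodule C Q) {v}, ?_, 1, ?_⟩
    · intro a ha
      rw [Submodule.mem_colon_singleton, Submodule.mem_bot] at ha
      exact hv a ha
    · intro a
      rw [Submodule.mem_colon_singleton, Submodule.mem_bot, one_smul]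
  obtain ⟨I, hI, hmax⟩ := set_has_maximal_iff_noetherian.mpr
    (inferInstance : IsNoetherian C C) fam hne
  obtain ⟨hIP, t, ht⟩ := hI
  have key : ∀ t' : C, (∀ a, a • (t' • v) = 0 → a ∈ P) → (∀ a ∈ I, a • (t' • v) = 0) →
      ∀ a, a • (t' • v) = 0 → a ∈ I := by
    intro t' h1 h2 a ha
    by_contra hcon
    have hJ : Submodule.colon (⊥ : Submodule C Q) {t' • v} ∈ fam := by
      refine ⟨?_, t', ?_⟩
      · intro b hb
        rw [Submodule.mem_colon_singleton, Submodule.mem_bot] at hb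
        exact h1 b hb
      · intro b
        rw [Submodule.mem_colon_singleton, Submodule.mem_bot]
    refine hmax _ hJ ?_
    refine lt_of_le_of_ne ?_ ?_
    · intro b hb
      rw [Submodule.mem_colon_singleton, Submodule.mem_bot]
      exact h2 b hb
    · intro heq
      apply hcon
      rw [heq, Submodule.mem_colon_singleton, Submodule.mem_bot]
      exact ha
  have hprime : Ideal.IsPrime I := by
    refine Ideal.isPrime_iff.2 ⟨fun htop => hP.ne_top (top_le_iff.1 (htop ▸ hIP)), ?_⟩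
    intro a b hab
    by_contra hcon
    rw [not_or] at hcon
    have hab' := (ht _).1 hab
    by_cases h : ∀ c, c • ((b * t) • v) = 0 → c ∈ P
    · refine hcon.1 (key (b * t) h ?_ a ?_)
      · intro c hc
        have h1 := (ht c).1 hc
        rw [mul_smul, smul_comm, h1, smul_zero]
      · rw [mul_smul, ← mul_smul]
        exact hab'
    · push Not at h
      obtain ⟨c, hc1, hc2⟩ := h
      refine hcon.2 (key (c * t) ?_ ?_ b ?_)
      · intro d hd
        have h1 : d * c ∈ I := by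
          rw [ht, mul_smul, ← mul_smul c t v]
          exact hd
        rcases hP.mem_or_mem (hIP h1) with h2 | h2
        · exact h2
        · exact absurd h2 hc2
      · intro d hd
        have h1 := (ht d).1 hd
        rw [mul_smul, smul_comm, h1, smul_zero]
      · rw [smul_smul, show b * (c * t) = c * (b * t) by ring, ← smul_smul]
        exact hc1
  refine ⟨I, ?_, hIP, ?_⟩
  · rw [AssociatedPrimes.mem_iff, isAssociatedPrime_iff]
    refine ⟨hprime, t • v, ?_⟩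
    ext a
    rw [ht, Submodule.mem_colon_singleton, Submodule.mem_bot]
  · intro a ha
    rw [ht, smul_comm, ha, smul_zero]

/-- the same for submodules of `E` -/
theorem RM_aux2 {E : Type*} [AddCommGroup E] [Module k E] [Module K E] [IsScalarTower k K E]
    (C : Subalgebra k K) (hC : C.FG) (M N : Submodule k E) (hM : ∀ a ∈ C, ∀ v ∈ M, a • v ∈ M)
    (hN : ∀ a ∈ C, ∀ v ∈ N, a • v ∈ N)
    (hfin : ∃ (m : ℕ) (e : Fin m → E), (∀ i, e i ∈ M) ∧
      ∀ v ∈ M, ∃ c : Fin m → K, (∀ i, c i ∈ C) ∧ v = ∑ i, c i • e i) :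
    ∃ 𝒮 : Set (Ideal C), 𝒮.Finite ∧ (∀ Q ∈ 𝒮, Q.IsPrime) ∧
      ∀ P : Ideal C, P.IsPrime → ∀ v ∈ M, (∀ a : C, (a : K) • v ∈ N → a ∈ P) →
        ∃ Q ∈ 𝒮, Q ≤ P ∧ ∀ a : C, (a : K) • v ∈ N → a ∈ Q := by
  classical
  have : Algebra.FiniteType k C := (Subalgebra.fg_iff_finiteType C).1 hC
  have : IsNoetherianRing C := Algebra.FiniteType.isNoetherianRing k C
  let MM : Submodule C E :=
    { carrier := M
      add_mem' := fun h1 h2 => M.add_mem h1 h2
      zero_mem' := M.zero_mem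
      smul_mem' := fun a v hv => hM a a.2 v hv }
  let NN : Submodule C E :=
    { carrier := N
      add_mem' := fun h1 h2 => N.add_mem h1 h2
      zero_mem' := N.zero_mem
      smul_mem' := fun a v hv => hN a a.2 v hv }
  let N' : Submodule C MM := NN.comap MM.subtype
  have : Module.Finite C MM := by
    obtain ⟨m, e, he, hspan⟩ := hfin
    refine ⟨⟨Finset.univ.image (fun i => (⟨e i, he i⟩ : MM)), ?_⟩⟩
    rw [eq_top_iff]
    rintro ⟨v, hv⟩ _
    obtain ⟨c, hc, hvc⟩ := hspan v hv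
    have h1 : (⟨v, hv⟩ : MM) = ∑ i, (⟨c i, hc i⟩ : C) • (⟨e i, he i⟩ : MM) := by
      apply Subtype.ext
      rw [AddSubmonoidClass.coe_finsetSum]
      exact hvc
    rw [h1]
    refine Submodule.sum_mem _ fun i _ => Submodule.smul_mem _ _ (Submodule.subset_span ?_)
    rw [Finset.coe_image]
    exact ⟨i, Finset.mem_coe.2 (Finset.mem_univ i), rfl⟩
  have hmk : ∀ (a : C) (v : MM), a • (N'.mkQ v) = 0 ↔ (a : K) • (v : E) ∈ N := by
    intro a v
    rw [← map_smul, Submodule.mkQ_apply, Submodule.Quotient.mk_eq_zero]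
    exact Iff.rfl
  refine ⟨associatedPrimes C (MM ⧸ N'), associatedPrimes.finite C (MM ⧸ N'), ?_, ?_⟩
  · intro Q hQ
    rw [AssociatedPrimes.mem_iff, isAssociatedPrime_iff] at hQ
    exact hQ.1
  · intro P hP v hv h
    obtain ⟨I, hI, hIP, h1⟩ := RM_aux1 P hP (N'.mkQ ⟨v, hv⟩)
      (fun a ha => h a ((hmk a ⟨v, hv⟩).1 ha))
    exact ⟨I, hI, hIP, fun a ha => h1 a ((hmk a ⟨v, hv⟩).2 ha)⟩

/-- the associated points on one chart -/
theorem RM_chart {E : Type*} [AddCommGroup E]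
    [Module k E] [Module K E] [IsScalarTower k K E] {F : Subalgebra k K → Submodule k E}
    (hF : QC F) {m : ℕ} (y : Fin m → K) (l : ℕ) {C : Subalgebra k K} (hC : C.FG) :
    ∃ 𝒯 : Set (Subalgebra k K), 𝒯.Finite ∧
      ∀ A, IsLoc C A → ∀ v ∈ F C, v ∉ NS (F A) y l → ∀ b ∈ C, b • v ∈ NS (F C) y l →
        ∃ B ∈ 𝒯, IsLoc C B ∧ A ≤ B ∧ ¬ (b ≠ 0 ∧ b⁻¹ ∈ B) := by
  classical
  have hst : ∀ (C : Subalgebra k K), ∀ a ∈ C, ∀ v ∈ NS (F C) y l, a • v ∈ NS (F C) y l :=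
    fun C => NS_stable (hF.stable C) _ l
  obtain ⟨𝒮, hfin, hS1, hS2⟩ := RM_aux2 C hC (F C) (NS (F C) y l) (hF.stable C) (hst C)
    (hF.fin C hC)
  have hex : ∀ Q : Ideal C, ∃ B : Subalgebra k K, Q.IsPrime → IsLoc C B ∧
      (∀ a : C, (a : K)⁻¹ ∈ B → a ≠ 0 → a ∉ Q) ∧ (∀ a : C, a ∉ Q → (a : K)⁻¹ ∈ B) := by
    intro Q
    by_cases hQ : Q.IsPrime
    · have := hQ
      obtain ⟨B, h1, h2, h3⟩ := exists_isLoc_of_prime C Q
      exact ⟨B, fun _ => ⟨h1, h2, h3⟩⟩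
    · exact ⟨⊤, fun h => absurd h hQ⟩
  choose B hB using hex
  refine ⟨B '' 𝒮, hfin.image B, ?_⟩
  intro A hA v hv hvn b hb hbv
  obtain ⟨P, hP, hPa⟩ := HM_aux3 hA
  obtain ⟨Q, hQ, hQP, h1⟩ := hS2 P hP v hv (by
    intro a ha
    rw [hPa]
    rintro ⟨ha0, hainv⟩
    apply hvn
    have h2 : (a : K) • v ∈ NS (F A) y l := NS_mono (hF.mono _ _ hA.le) _ _ ha
    have h3 := hst A _ hainv _ h2
    rwa [← mul_smul, inv_mul_cancel₀ ha0, one_smul] at h3)
  obtain ⟨hBloc, hB1, hB2⟩ := hB Q (hS1 Q hQ)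
  refine ⟨B Q, ⟨Q, hQ, rfl⟩, hBloc, ?_, ?_⟩
  · intro x hx
    obtain ⟨r, hr, s, hs, hsA, rfl⟩ := hA.2.2 x hx
    by_cases hs0 : s = 0
    · rw [hs0, inv_zero, mul_zero]
      exact (B Q).zero_mem
    · refine (B Q).mul_mem (hBloc.1 hr) (hB2 ⟨s, hs⟩ fun hsQ => ?_)
      exact (hPa ⟨s, hs⟩).1 (hQP hsQ) ⟨hs0, hsA⟩
  · rintro ⟨hb0, hcon⟩
    have h4 : (⟨b, hb⟩ : C) ∈ Q := h1 ⟨b, hb⟩ hbv
    refine hB1 ⟨b, hb⟩ hcon ?_ h4
    intro h2
    exact hb0 (congrArg Subtype.val h2)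

/-- At a local ring at which `V` is generated by one element, it is generated by one of the
generators of the space `V`. -/
theorem RM_gen {V : Submodule k K} {s : Finset K} (hs : Submodule.span k (s : Set K) = V)
    {A : Subalgebra k K} (hA : IsLocalRing A) {x : K} (hx : Un V A x) : ∃ y ∈ s, Un V A y := by
  have hsV : ∀ x ∈ s, x ∈ V := fun x hx => hs ▸ Submodule.subset_span (Finset.mem_coe.2 hx)
  obtain ⟨U, hU⟩ := exists_NU hA hx
  by_contra hcon
  push Not at hcon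
  have h1 : V ≤ U := by
    rw [← hs]
    refine Submodule.span_le.2 fun y hy => ?_
    exact (hU y (hsV y (Finset.mem_coe.1 hy))).2 (hcon y (Finset.mem_coe.1 hy))
  exact (hU x hx.1).1 (h1 hx.1) hx

/-- Associated points of `F A / (h₁, ..., h_l) F A`, for the points `A` of `Z` at which the space
`V'` is generated by one element. -/
theorem exists_ass_rel (hZ : IsCompleteNormal Z) {V' : Submodule k K} (hV' : V'.FG)
    {E : Type*} [AddCommGroup E]
    [Module k E] [Module K E] [IsScalarTower k K E] {F : Subalgebra k K → Submodule k E}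
    (hF : QC F) {m : ℕ} (hh : Fin m → K) (l : ℕ) :
    ∃ 𝒯 : Set (Subalgebra k K), 𝒯.Finite ∧ 𝒯 ⊆ Z ∧ (∀ A ∈ 𝒯, ∃ x, Un V' A x) ∧
      ∀ z ∈ V', (∀ A ∈ 𝒯, Un V' A z) → ∀ A ∈ Z, ∀ x, Un V' A x → ∀ v ∈ F A,
        (z * x⁻¹) • v ∈ NS (F A) (fun a => hh a * x⁻¹) l →
          v ∈ NS (F A) (fun a => hh a * x⁻¹) l := by
  classical
  obtain ⟨s, hs⟩ := hV'
  have hsV : ∀ x ∈ s, x ∈ V' := fun x hx => hs ▸ Submodule.subset_span (Finset.mem_coe.2 hx)
  obtain ⟨𝒞, h𝒞, h𝒞2, hmem⟩ := hZ.charts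
  have hst : ∀ (C : Subalgebra k K) (x : K), ∀ a ∈ C, ∀ v ∈ NS (F C) (fun a => hh a * x⁻¹) l,
      a • v ∈ NS (F C) (fun a => hh a * x⁻¹) l :=
    fun C x => NS_stable (hF.stable C) _ l
  have hCJ : ∀ x : K, (CJ V' {x}).FG := fun x => CJ_fg ⟨s, hs⟩ (Set.finite_singleton x)
  have hex : ∀ (R : Subalgebra k K) (x : K), ∃ 𝒯 : Set (Subalgebra k K), R ∈ 𝒞 → 𝒯.Finite ∧
      ∀ A, IsLoc (R ⊔ CJ V' {x}) A → ∀ v ∈ F (R ⊔ CJ V' {x}),
        v ∉ NS (F A) (fun a => hh a * x⁻¹) l → ∀ b ∈ R ⊔ CJ V' {x},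
        b • v ∈ NS (F (R ⊔ CJ V' {x})) (fun a => hh a * x⁻¹) l →
        ∃ B ∈ 𝒯, IsLoc (R ⊔ CJ V' {x}) B ∧ A ≤ B ∧ ¬ (b ≠ 0 ∧ b⁻¹ ∈ B) := by
    intro R x
    by_cases hR : R ∈ 𝒞
    · obtain ⟨𝒯, h1, h2⟩ := RM_chart hF (fun a => hh a * x⁻¹) l
        (((h𝒞2 R hR).1).sup (hCJ x))
      exact ⟨𝒯, fun _ => ⟨h1, h2⟩⟩
    · exact ⟨∅, fun h => absurd h hR⟩
  choose T hT using hex
  refine ⟨(⋃ R ∈ 𝒞, ⋃ x ∈ s, T R x) ∩ {B | B ∈ Z ∧ ∃ x, Un V' B x}, ?_,
    fun B hB => hB.2.1, fun B hB => hB.2.2, ?_⟩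
  · refine Set.Finite.inter_of_left ?_ _
    refine h𝒞.biUnion fun R hR => ?_
    exact Set.Finite.biUnion (Finset.finite_toSet s) fun x _ => (hT R x hR).1
  · intro z hz hzT A hA x' hx' v hv hzv
    by_contra hvn
    obtain ⟨R, hR, hRA⟩ := (hmem A).1 hA
    obtain ⟨x, hxs, hx⟩ := RM_gen hs hRA.2.1 hx'
    have hx0 : x ≠ 0 := hx.2.1
    have hx'0 : x' ≠ 0 := hx'.2.1
    have hCA : CJ V' {x} ≤ A := (CJ_le_iff (by
      intro z hz
      rw [Set.mem_singleton_iff.1 hz]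
      exact ⟨hx.1, hx0⟩)).2 (by
      intro z hz
      rw [Set.mem_singleton_iff.1 hz]
      exact hx)
    obtain ⟨C, hCdef⟩ : ∃ C, C = R ⊔ CJ V' {x} := ⟨_, rfl⟩
    have hTR := (hT R x hR).2
    rw [← hCdef] at hTR
    have hRC : R ≤ C := hCdef ▸ le_sup_left
    have hJC : CJ V' {x} ≤ C := hCdef ▸ le_sup_right
    have hCleA : C ≤ A := by
      rw [hCdef]
      exact sup_le hRA.1 hCA
    have hAloc : IsLoc C A := hRA.mid hRC hCleA
    -- change of the generator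
    have hNS : NS (F A) (fun a => hh a * x⁻¹) l = NS (F A) (fun a => hh a * x'⁻¹) l := by
      refine NS_unit (hF.stable A) (θ := x' * x⁻¹) ?_ ?_ ?_ ?_ l
      · exact mul_ne_zero hx'0 (inv_ne_zero hx0)
      · exact hx.mul_inv_mem hx'
      · rw [mul_inv, inv_inv, mul_comm]
        exact hx'.mul_inv_mem hx
      · intro a
        field_simp
    rw [← hNS] at hvn hzv
    have hzv' : (z * x⁻¹) • v ∈ NS (F A) (fun a => hh a * x⁻¹) l := by
      have h1 := hst A x _ (hx.mul_inv_mem hx') _ hzv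
      rw [← mul_smul, show x' * x⁻¹ * (z * x'⁻¹) = z * x⁻¹ by field_simp] at h1
      exact h1
    -- clearing denominators
    obtain ⟨t, htC, ht0, htA, ht⟩ := hF.loc_pt hAloc hv
    have h1 : (z * x⁻¹) • (t • v) ∈ NS (F A) (fun a => hh a * x⁻¹) l := by
      rw [smul_comm]
      exact hst A x _ (hAloc.le htC) _ hzv'
    obtain ⟨t', htC', ht0', htA', ht'⟩ := hF.loc_NS hAloc h1
    have hb : z * x⁻¹ ∈ C := hJC (mul_inv_mem_CJ hz (Set.mem_singleton x))
    have h3 : t' • (t • v) ∈ F C := hF.stable _ _ htC' _ ht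
    have h4 : t' • (t • v) ∉ NS (F A) (fun a => hh a * x⁻¹) l := by
      intro hcon
      apply hvn
      have h5 := hst A x _ htA _ (hst A x _ htA' _ hcon)
      rwa [inv_smul_smul₀ ht0', inv_smul_smul₀ ht0] at h5
    have h6 : (z * x⁻¹) • (t' • (t • v)) ∈ NS (F C) (fun a => hh a * x⁻¹) l := by
      rw [smul_comm]
      exact ht'
    obtain ⟨B, hB, hBloc, hAB, hBn⟩ := hTR A hAloc _ h3 h4 _ hb h6
    have hBx : Un V' B x := hx.mono hAB
    have hBZ : B ∈ Z := hZ.loc hA (hAloc.of_le hBloc hAB)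
    have hBX : Un V' B z := hzT B ⟨by
      simp only [Set.mem_iUnion]
      exact ⟨R, hR, x, hxs, hB⟩, hBZ, x, hBx⟩
    refine hBn ⟨mul_ne_zero hBX.2.1 (inv_ne_zero hx0), ?_⟩
    rw [mul_inv, inv_inv, mul_comm]
    exact hBX.mul_inv_mem hBx

end Flip28
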