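import Pool.Agent.FlipB_h28.HN1
import Pool.Agent.FlipB_h28.RA
import Pool.Agent.FlipB_h28.RM

/-! # Choice of the sections `s`, relative form -/

open scoped KaehlerDifferential

universe u

namespace Flip28

variable {k K : Type u} [Field k] [Field K] [Algebra k K] {X X' Z : Set (Subalgebra k K)}

theorem RN1_ex_iff {V' : Submodule k K} {p : ℕ} {s : Fin p → K} {l : ℕ} {A : Subalgebra k K} :
    (∃ a ∈ Finset.univ.filter (fun a : Fin p => (a : ℕ) < l), Un V' A (s a)) ↔
      ∃ a : Fin p, (a : ℕ) < l ∧ Un V' A (s a) := by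
  constructor
  · rintro ⟨a, ha, h⟩
    exact ⟨a, (Finset.mem_filter.1 ha).2, h⟩
  · rintro ⟨a, ha, h⟩
    exact ⟨a, Finset.mem_filter.2 ⟨Finset.mem_univ _, ha⟩, h⟩

/-- the induction: (i) the `A ∈ X'` not in `U`, and not generated by the first `l` sections,
have dimension `≥ d + 1 + l`; (ii) the same for the points `A ≤ P` of `Z` at which `V'` is
generated by one element, with `d + l`; (iii) regularity on `Z`. -/
structure RN1_I (X' Z U : Set (Subalgebra k K)) (V' : Submodule k K) (d : ℕ)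
    (P : Subalgebra k K) {p : ℕ} (l : ℕ) (s : Fin p → K) : Prop where
  V : ∀ a, s a ∈ V'
  out : ∀ A ∈ X', A ∉ U → (∀ a : Fin p, (a : ℕ) < l → ¬ Un V' A (s a)) →
    ((d + 1 + l : ℕ) : WithBot ℕ∞) ≤ ringKrullDim A
  dim : ∀ A ∈ Z, A ≤ P → (∃ g, Un V' A g) → (∀ a : Fin p, (a : ℕ) < l → ¬ Un V' A (s a)) →
    ((d + l : ℕ) : WithBot ℕ∞) ≤ ringKrullDim A
  reg : ∀ A ∈ Z, ∀ g, Un V' A g → FReg (Subalgebra.toSubmodule A) (fun a => s a * g⁻¹) l

theorem RN1_step [CharZero k] [Algebra.EssFiniteType k K] {n : ℕ}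
    (b : Module.Basis (Fin n) K Ω[K⁄k]) (hZ : IsCompleteNormal Z) (hX' : IsCompleteNormal X')
    {V' : Submodule k K} (h' : IsPr V' X') {p d : ℕ} {P : Subalgebra k K}
    {U : Set (Subalgebra k K)} (hU : Opn X' U) {l : ℕ} (hlp : l < p) {s : Fin p → K}
    (H : RN1_I X' Z U V' d P l s) : ∃ s' : Fin p → K, RN1_I X' Z U V' d P (l + 1) s' := by
  classical
  have : Infinite k := CharZero.infinite k
  have hopn1 : ∀ Y : Set (Subalgebra k K),
      Opn Y {A | ∃ a ∈ Finset.univ.filter (fun a : Fin p => (a : ℕ) < l), Un V' A (s a)} :=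
    fun Y => HN1_opn_ex h'.fg s _
  have hT1 := finite_of_opn hX' (e := d + 1 + l) (hU.union (hopn1 X')) (by
      intro A hA hAU
      apply H.out A hA
      · intro h4
        exact hAU (Or.inl h4)
      · intro a ha h4
        exact hAU (Or.inr (RN1_ex_iff.2 ⟨a, ha, h4⟩)))
  obtain ⟨T2, hT2, hT2Z, hT2n, hT2g⟩ := ((opn_not_le (X := Z) P).union (hopn1 Z)).exists_generic
    hZ
  obtain ⟨T3, hT3, hT3Z, hT3u, hT3r⟩ := exists_ass_rel hZ h'.fg
    (QC_self (k := k) (K := K)) s l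
  have hall : ({A | A ∈ X' ∧ A ∉ U ∪ {A | ∃ a ∈ Finset.univ.filter
      (fun a : Fin p => (a : ℕ) < l), Un V' A (s a)} ∧
      ringKrullDim A = ((d + 1 + l : ℕ) : WithBot ℕ∞)} ∪
      (T2 ∩ {A | ∃ g, Un V' A g}) ∪ T3).Finite :=
    (hT1.union (hT2.inter_of_left _)).union hT3
  obtain ⟨z, hz, hzT, -⟩ := exists_un_of_finite (J := V') le_rfl hall (by
    rintro A ((hA | hA) | hA)
    · exact hX'.isLocalRing hA.1
    · exact hZ.isLocalRing (hT2Z hA.1)
    · exact hZ.isLocalRing (hT3Z hA)) (by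
    rintro A ((hA | hA) | hA)
    · obtain ⟨x, hx⟩ := h'.exists_un hA.1
      exact ⟨x, hx.1, hx⟩
    · obtain ⟨x, hx⟩ := hA.2
      exact ⟨x, hx.1, hx⟩
    · obtain ⟨x, hx⟩ := hT3u A hA
      exact ⟨x, hx.1, hx⟩) (𝒰 := ∅) Set.finite_empty
      (fun U hU => absurd hU (Set.notMem_empty U))
  have hs1 : ∀ a : Fin p, (a : ℕ) < l → Function.update s ⟨l, hlp⟩ z a = s a := by
    intro a ha
    apply Function.update_of_ne
    intro h4
    rw [h4] at ha
    exact lt_irrefl _ ha
  have hs2 : Function.update s ⟨l, hlp⟩ z ⟨l, hlp⟩ = z := Function.update_self _ _ _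
  refine ⟨Function.update s ⟨l, hlp⟩ z, ?_, ?_, ?_, ?_⟩
  · intro a
    by_cases ha : a = ⟨l, hlp⟩
    · rw [ha, hs2]
      exact hz
    · rw [Function.update_of_ne ha]
      exact H.V a
  · intro A hA hAn hAs
    have h4 : ∀ a : Fin p, (a : ℕ) < l → ¬ Un V' A (s a) := by
      intro a ha
      rw [← hs1 a ha]
      exact hAs a (by omega)
    have h5 := H.out A hA hAn h4
    obtain ⟨e, he, _⟩ := dim_le_basis b hX' hA
    refine HN1_lt he h5 ?_
    intro h6
    have h7 := hzT A (Or.inl (Or.inl ⟨hA, ?_, h6⟩))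
    · apply hAs ⟨l, hlp⟩ (Nat.lt_succ_self l)
      rw [hs2]
      exact h7
    · rintro (h8 | h8)
      · exact hAn h8
      · obtain ⟨a, ha, h9⟩ := RN1_ex_iff.1 h8
        exact h4 a ha h9
  · intro A hA hAP hAg hAs
    have h4 : ∀ a : Fin p, (a : ℕ) < l → ¬ Un V' A (s a) := by
      intro a ha
      rw [← hs1 a ha]
      exact hAs a (by omega)
    have h5 := H.dim A hA hAP hAg h4
    obtain ⟨e, he, _⟩ := dim_le_basis b hZ hA
    refine HN1_lt he h5 ?_
    intro h6
    have hAn : A ∉ ({A | ¬ A ≤ P} ∪ {A | ∃ a ∈ Finset.univ.filter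
        (fun a : Fin p => (a : ℕ) < l), Un V' A (s a)} : Set (Subalgebra k K)) := by
      rintro (h8 | h8)
      · exact h8 hAP
      · obtain ⟨a, ha, h9⟩ := RN1_ex_iff.1 h8
        exact h4 a ha h9
    obtain ⟨B, hB, hAB⟩ := hT2g A hA hAn
    obtain ⟨g, hg⟩ := hAg
    have hBg : Un V' B g := hg.mono hAB
    have hBP : B ≤ P := by
      by_contra hcon
      exact hT2n B hB (Or.inl hcon)
    have hBs : ∀ a : Fin p, (a : ℕ) < l → ¬ Un V' B (s a) := by
      intro a ha hcon
      exact hT2n B hB (Or.inr (RN1_ex_iff.2 ⟨a, ha, hcon⟩))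
    have hAB' : A = B := by
      by_contra hne
      have h8 := dim_lt_of_le_ne hZ hA (hT2Z hB) hAB hne
      have h9 := H.dim B (hT2Z hB) hBP ⟨g, hBg⟩ hBs
      rw [h6] at h8
      exact absurd h8 (not_lt.2 h9)
    have h7 := hzT A (Or.inl (Or.inr ⟨hAB' ▸ hB, g, hg⟩))
    apply hAs ⟨l, hlp⟩ (Nat.lt_succ_self l)
    rw [hs2]
    exact h7
  · intro A hA g hg i hi v hv hyv
    have hc : ∀ j : ℕ, j ≤ l → NS (Subalgebra.toSubmodule A)
        (fun a => Function.update s ⟨l, hlp⟩ z a * g⁻¹) j =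
        NS (Subalgebra.toSubmodule A) (fun a => s a * g⁻¹) j := by
      intro j hj
      apply HN1_NS_congr
      intro a ha
      beta_reduce
      rw [hs1 a (by omega)]
    rw [hc i (by omega)] at hyv ⊢
    by_cases hil : (i : ℕ) < l
    · apply H.reg A hA g hg i hil v hv
      beta_reduce at hyv ⊢
      rwa [hs1 i hil] at hyv
    · have hie : i = ⟨l, hlp⟩ := Fin.ext (by
        show (i : ℕ) = l
        omega)
      subst hie
      beta_reduce at hyv
      rw [hs2] at hyv
      exact hT3r z hz (fun B hB => hzT B (Or.inr hB)) A hA g hg v hv hyv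

/-- Choice of `S` (relative form). -/
theorem exists_sections_rel [CharZero k] [Algebra.EssFiniteType k K] {n : ℕ}
    (b : Module.Basis (Fin n) K Ω[K⁄k]) (hZ : IsCompleteNormal Z) (hX : IsCompleteNormal X)
    (hX' : IsCompleteNormal X') {U : Set (Subalgebra k K)} (hU : Opn X U)
    {V' : Submodule k K} (h' : IsPr V' X') {p d : ℕ} (hpd : p + d = n) {P : Subalgebra k K}
    (hP : P ∈ X') (hPZ : P ∈ Z) (hPd : ringKrullDim P = d)
    (hsm : ∀ A ∈ X', ringKrullDim A ≤ d → A ∈ X ∧ A ∈ U) :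
    ∃ s : Fin p → K, (∀ l, s l ∈ V') ∧ (∀ A ∈ SS V' X' s, A ∈ X ∧ A ∈ U) ∧
      (∀ A ∈ Z, ∀ g, Un V' A g → FReg (Subalgebra.toSubmodule A) (fun l => s l * g⁻¹) p) ∧
      (∃ A ∈ SS V' X' s, A ≤ P) ∧
      ∀ A ∈ Z, A ≤ P → (∃ g, Un V' A g) → (∀ l, ¬ Un V' A (s l)) → ringKrullDim A = n := by
  classical
  have hdim : ∀ A ∈ X', ∃ e : ℕ, ringKrullDim A = e ∧ e ≤ n := fun A hA =>
    dim_le_basis b hX' hA
  have key : ∀ l ≤ p, ∃ s : Fin p → K, RN1_I X' Z (X ∩ U) V' d P l s := by
    intro l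
    induction l with
    | zero =>
      intro _
      refine ⟨fun _ => 0, fun _ => V'.zero_mem, ?_, ?_, ?_⟩
      · intro A hA hAn _
        obtain ⟨e, he, _⟩ := hdim A hA
        rw [he]
        have h1 : ¬ e ≤ d := by
          intro h2
          apply hAn
          apply hsm A hA
          rw [he]
          exact_mod_cast h2
        have h2 : d + 1 + 0 ≤ e := by omega
        exact_mod_cast h2
      · intro A hA hAP _ _
        by_cases hne : A = P
        · rw [hne, hPd, add_zero]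
        · have h1 := dim_lt_of_le_ne hZ hA hPZ hAP hne
          rw [hPd] at h1
          rw [add_zero]
          exact h1.le
      · intro A _ g _ i hi
        omega
    | succ l ih =>
      intro hl
      obtain ⟨s, H⟩ := ih (by omega)
      exact RN1_step b hZ hX' h' (Opn.sub hX hU) (by omega) H
  obtain ⟨s, H⟩ := key p le_rfl
  refine ⟨s, H.V, ?_, ?_, ?_, ?_⟩
  · intro A hA
    by_contra hcon
    obtain ⟨e, he, hen⟩ := hdim A hA.1
    have h4 := H.out A hA.1 hcon (fun a _ => hA.2 a)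
    rw [he] at h4
    have h5 : d + 1 + p ≤ e := by exact_mod_cast h4
    omega
  · exact H.reg
  · have hloc : IsLocalRing P := hX'.isLocalRing hP
    obtain ⟨R, hR, hK, hRP, -⟩ := hX'.exists_chart hP
    obtain ⟨d', e, h4, h5, h6⟩ := dim_formula hR hK hRP
    rw [trdeg_eq_finrank, Module.finrank_eq_card_basis b, Fintype.card_fin] at h6
    have h7 : n = d' + e := by exact_mod_cast h6
    rw [hPd] at h4
    have h8 : d = d' := by exact_mod_cast h4
    have h9 : p = e := by omega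
    obtain ⟨A, hA, hAP, hAs⟩ := exists_common_zero hX' h' hP
      (IsScalarTower.toAlgHom k P (IsLocalRing.ResidueField P))
      IsLocalRing.residue_surjective (by
        intro a
        have h10 : (IsScalarTower.toAlgHom k P (IsLocalRing.ResidueField P)) a = 0 ↔
            a ∈ IsLocalRing.maximalIdeal P := by
          rw [← IsLocalRing.residue_eq_zero_iff]
          exact Iff.rfl
        rw [h10, IsLocalRing.mem_maximalIdeal, mem_nonunits_iff, LocAlg_unit, not_and_or, not_not])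
      (p := p) (by rw [h9]; exact h5.symm.le) s
    exact ⟨A, ⟨hA, hAs⟩, hAP⟩
  · intro A hA hAP hAg hAs
    obtain ⟨e, he, hen⟩ := dim_le_basis b hZ hA
    have h4 := H.dim A hA hAP hAg (fun a _ => hAs a)
    rw [he] at h4 ⊢
    have h5 : d + p ≤ e := by exact_mod_cast h4
    have h6 : e = n := by omega
    rw [h6]

end Flip28
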