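import Pool.Agent.FlipB_h28.RN1
import Pool.Agent.FlipB_h28.HN2

/-! # The common zeros of the sections, relative form -/

open scoped KaehlerDifferential

universe u

namespace Flip28

variable {k K : Type u} [Field k] [Field K] [Algebra k K] {X X' Z : Set (Subalgebra k K)}
  {V' : Submodule k K} {p : ℕ} {s : Fin p → K}

/-- the points of `Z` above the common zeros of the sections `s` on `X'` -/
def SZ (V' : Submodule k K) (X' Z : Set (Subalgebra k K)) {p : ℕ} (s : Fin p → K) :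
    Set (Subalgebra k K) := {A | A ∈ Z ∧ ∃ x ∈ SS V' X' s, Dom x A}

/-- a set of points such that `SZ` is the set of its elements at which no `s l` generates `V'` -/
def YZ (V' : Submodule k K) (X' Z : Set (Subalgebra k K)) {p : ℕ} (s : Fin p → K) :
    Set (Subalgebra k K) := {A | (∀ l, ¬ Un V' A (s l)) → A ∈ SZ V' X' Z s}

theorem SZ_not_un (h' : IsPr V' X') (hsV : ∀ l, s l ∈ V') {A : Subalgebra k K}
    (hA : A ∈ SZ V' X' Z s) (l : Fin p) : ¬ Un V' A (s l) := by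
  obtain ⟨-, x, hx, hd⟩ := hA
  intro hun
  obtain ⟨g, hg⟩ := h'.exists_un hx.1
  refine hx.2 l ((un_iff hg (hsV l)).2 ?_)
  have hgA : Un V' A g := hg.mono hd.1
  obtain ⟨h1, h2⟩ := (un_iff hgA (hsV l)).1 hun
  exact ⟨h1, hd.2 _ (hg.2.2 _ (hsV l)) h2⟩

theorem SS_YZ (h' : IsPr V' X') (hsV : ∀ l, s l ∈ V') : SS V' (YZ V' X' Z s) s = SZ V' X' Z s := by
  ext A
  constructor
  · rintro ⟨h1, h2⟩
    exact h1 h2
  · intro hA
    exact ⟨fun _ => hA, fun l => SZ_not_un h' hsV hA l⟩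

theorem mem_SZ_iff (hX : IsCompleteNormal X) (hZ : IsCompleteNormal Z)
    (hsub : ∀ A ∈ SS V' X' s, A ∈ X) {A x : Subalgebra k K} (hA : A ∈ Z) (hx : x ∈ X)
    (hd : Dom x A) : A ∈ SZ V' X' Z s ↔ x ∈ SS V' X' s := by
  constructor
  · rintro ⟨-, y, hy, hyd⟩
    rw [hX.unique hx (hsub y hy) (hZ.isLocalRing hA) hd hyd]
    exact hy
  · intro h
    exact ⟨hA, x, h, hd⟩

/-- `SZ` is closed in `Z` -/
theorem opn_compl_SZ (hX : IsCompleteNormal X) (hZ : IsCompleteNormal Z)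
    (hZX : ∀ A ∈ Z, ∃ x ∈ X, Dom x A) (hX' : IsCompleteNormal X') (h' : IsPr V' X')
    (hsub : ∀ A ∈ SS V' X' s, A ∈ X) : Opn Z (SZ V' X' Z s)ᶜ := by
  have h1 : Opn Z (Pre X (SS V' X' s)ᶜ) := Opn.pre hX (opn_compl_SS hX hX' h' hsub)
  refine h1.congr fun A hA => ?_
  obtain ⟨x, hx, hd⟩ := hZX A hA
  rw [mem_Pre_iff hX (hZ.isLocalRing hA) hx hd, Set.mem_compl_iff, Set.mem_compl_iff,
    mem_SZ_iff hX hZ hsub hA hx hd]

/-- charts around the points of `SZ` -/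
theorem exists_chart_SZ (hX : IsCompleteNormal X) (hZ : IsCompleteNormal Z)
    (hX' : IsCompleteNormal X') (h' : IsPr V' X') (hsub : ∀ A ∈ SS V' X' s, A ∈ X)
    {A : Subalgebra k K} (hA : A ∈ SZ V' X' Z s) : ∃ (O : Set (Subalgebra k K)) (g : K),
      Opn Z O ∧ A ∈ O ∧ ∀ B ∈ Z, B ∈ O → B ∈ YZ V' X' Z s ∧ Un V' B g := by
  obtain ⟨hAZ, x, hx, hd⟩ := hA
  obtain ⟨g, hg⟩ := h'.exists_un hx.1
  refine ⟨Pre X (X' ∩ {B | Un V' B g}), g, Opn.pre hX ((opn_model hX').inter (opn_un h'.fg g)),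
    ⟨x, hsub x hx, hd, hx.1, hg⟩, ?_⟩
  rintro B hB ⟨y, hy, hyd, hyX', hyg⟩
  have hyg' : Un V' y g := hyg
  refine ⟨fun hns => ⟨hB, y, ⟨hyX', fun l hl => hns l (hl.mono hyd.1)⟩, hyd⟩, hyg'.mono hyd.1⟩

/-- the data for one model, relative form: here `Y` is only a set of local rings -/
theorem exists_SData_rel [CharZero k] [Algebra.EssFiniteType k K] {n : ℕ}
    (b : Module.Basis (Fin n) K Ω[K⁄k]) (hZ : IsCompleteNormal Z) (hX : IsCompleteNormal X)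
    (hZX : ∀ A ∈ Z, ∃ x ∈ X, Dom x A) {U : Set (Subalgebra k K)} (hU : Opn X U)
    (hUs : ∀ A ∈ Z, ∀ x ∈ X, x ∈ U → Dom x A → Algebra.FormallySmooth k A)
    (hX' : IsCompleteNormal X') (h' : IsPr V' X') {d : ℕ} (hpd : p + d = n)
    {P : Subalgebra k K} (hP : P ∈ X') (hPZ : P ∈ Z) (hPd : ringKrullDim P = d)
    (hsm : ∀ A ∈ X', ringKrullDim A ≤ d → A ∈ X ∧ A ∈ U) :
    ∃ (s : Fin p → K) (Y : Set (Subalgebra k K)), SData Z Y V' n s P ∧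
      (∀ A ∈ SS V' Y s, ∃ g, Un V' A g) ∧ Opn Z (SS V' Y s)ᶜ ∧
      (∀ A ∈ SS V' Y s, ∃ (O : Set (Subalgebra k K)) (g : K),
        Opn Z O ∧ A ∈ O ∧ ∀ B ∈ Z, B ∈ O → B ∈ Y ∧ Un V' B g) ∧
      ∀ A ∈ SS V' Y s, ∃ x ∈ X', x ∈ X ∧ Dom x A := by
  obtain ⟨s, hsV, hsub, hreg, ⟨A0, hA0, hA0P⟩, hdim⟩ :=
    exists_sections_rel (p := p) b hZ hX hX' hU h' hpd hP hPZ hPd hsm
  have hun : ∀ A ∈ SZ V' X' Z s, ∃ g, Un V' A g := by
    rintro A ⟨-, x, hx, hd⟩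
    obtain ⟨g, hg⟩ := h'.exists_un hx.1
    exact ⟨g, hg.mono hd.1⟩
  refine ⟨s, YZ V' X' Z s, ⟨hsV, ?_, ?_, ?_, ?_, ?_⟩, ?_, ?_, ?_, ?_⟩
  · rw [SS_YZ h' hsV]
    exact fun A hA => hA.1
  · rw [SS_YZ h' hsV]
    rintro A ⟨hA, x, hx, hd⟩
    exact hUs A hA x (hsub x hx).1 (hsub x hx).2 hd
  · rw [SS_YZ h' hsV]
    rintro A hA g hg
    exact hreg A hA.1 g hg
  · rw [SS_YZ h' hsV]
    obtain ⟨W, W1, hW, hW1, hWW, hd, hd1⟩ :=
      exists_val_pair (hX'.isLocalRing hA0.1) (hZ.isLocalRing hPZ) hA0P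
    obtain ⟨A, hA, hdA⟩ := hZ.exists_centre hW
    have h1 : IsLoc A P := hZ.isLoc_centre hA hPZ hW1.isLocalRing (hdA.1.trans hWW) hd1
    obtain ⟨x, hx, hxd⟩ := hZX A hA
    have h2 : x = A0 := hX.unique hx (hsub A0 hA0).1 hW.isLocalRing (hxd.trans hdA) hd
    exact ⟨A, ⟨hA, A0, hA0, h2 ▸ hxd⟩, h1.1⟩
  · rw [SS_YZ h' hsV]
    intro A hA hAP
    exact hdim A hA.1 hAP (hun A hA) (fun l => SZ_not_un h' hsV hA l)
  · rw [SS_YZ h' hsV]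
    exact hun
  · rw [SS_YZ h' hsV]
    exact opn_compl_SZ hX hZ hZX hX' h' (fun A hA => (hsub A hA).1)
  · rw [SS_YZ h' hsV]
    exact fun A hA => exists_chart_SZ hX hZ hX' h' (fun A hA => (hsub A hA).1) hA
  · rw [SS_YZ h' hsV]
    rintro A ⟨-, x, hx, hd⟩
    exact ⟨x, hx.1, (hsub x hx).1, hd⟩

end Flip28
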