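import Pool.Agent.FlipB_h28.HN3

/-! # The ideal of `S`, relative form: `X'` is only a set of local rings -/

open scoped KaehlerDifferential

universe u

namespace Flip28

variable {k K : Type u} [Field k] [Field K] [Algebra k K] {X X' : Set (Subalgebra k K)}
  {V V' : Submodule k K}

section RN3

variable {p : ℕ} {s : Fin p → K}

theorem RN3_NS_eq (hS : ∀ A ∈ SS V' X' s, ∃ g, Un V' A g) (hp : 1 ≤ p) (hsV : ∀ l, s l ∈ V') {w w' : K}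
    {f f' : Fin p → K} (hf : HN3_Typ X X' V V' s w f) (hf' : HN3_Typ X X' V V' s w' f')
    {B : Subalgebra k K} (hB : B ∈ X) (hun : Un V B w) (hun' : Un V B w') :
    NS (Subalgebra.toSubmodule B) f p ≤ NS (Subalgebra.toSubmodule B) f' p := by
  by_cases hBS : B ∈ SS V' X' s
  · obtain ⟨g0, hg0⟩ := hS B hBS
    rw [HN3_NS_S hf hB hun hBS hg0, HN3_NS_S hf' hB hun' hBS hg0]
  · obtain ⟨l, h0, h1⟩ := HN3_unit hp hsV hf' hB hun' hBS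
    intro x hx
    have hx' : x ∈ Subalgebra.toSubmodule B :=
      NS_le (C := B) (fun a ha v hv => B.mul_mem ha hv) (HN3_mem hsV hf hB hun) p hx
    exact NS_of_unit (C := B) (fun a ha v hv => B.mul_mem ha hv) l.2 h0 h1 hx'

theorem RN3_glob (hX : IsCompleteNormal X) (h : IsPr V X) (hS : ∀ A ∈ SS V' X' s, ∃ g, Un V' A g) (hp : 1 ≤ p)
    (hsV : ∀ l, s l ∈ V') {w w' : K} (hw : w ∈ V ∧ w ≠ 0) (hw' : w' ∈ V ∧ w' ≠ 0)
    {f f' : Fin p → K} (hf : HN3_Typ X X' V V' s w f) (hf' : HN3_Typ X X' V V' s w' f')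
    (l : Fin p) : f l ∈ NS (Subalgebra.toSubmodule (CJ V (insert w {w'}))) f' p := by
  have hZ : ∀ z ∈ (insert w {w'} : Set K), z ∈ V ∧ z ≠ 0 := by
    intro z hz
    rcases hz with hz | hz
    · rw [hz]
      exact hw
    · rw [Set.mem_singleton_iff.1 hz]
      exact hw'
  refine (IsPr.mem_NS_iff hX h QC_self ((Set.finite_singleton w').insert w)
    (Set.insert_nonempty _ _) hZ).2 fun B hB hun => ?_
  have h1 : Un V B w := hun w (Set.mem_insert _ _)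
  have h2 : Un V B w' := hun w' (Set.mem_insert_of_mem _ rfl)
  exact RN3_NS_eq hS hp hsV hf hf' hB h1 h2 (HN3_self B f l)

theorem RN3_ev' (hX : IsCompleteNormal X) (h : IsPr V X) (hS : ∀ A ∈ SS V' X' s, ∃ g, Un V' A g) (hp : 1 ≤ p)
    (hsV : ∀ l, s l ∈ V') {w w' : K} (hw : w ∈ V ∧ w ≠ 0) (hw' : w' ∈ V ∧ w' ≠ 0)
    {f f' : Fin p → K} (hf : HN3_Typ X X' V V' s w f) (hf' : HN3_Typ X X' V V' s w' f')
    (l : Fin p) : ∀ᶠ t : ℕ in Filter.atTop,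
      (w * w'⁻¹) ^ t * f l ∈ NS (Subalgebra.toSubmodule (CJ V {w'})) f' p := by
  have hZ : ∀ z ∈ ({w'} : Set K), z ∈ V ∧ z ≠ 0 := by
    intro z hz
    rw [Set.mem_singleton_iff.1 hz]
    exact hw'
  have hglob := RN3_glob hX h hS hp hsV hw hw' hf hf' l
  have h0 : ∃ t : ℕ, (w * w'⁻¹) ^ t • f l ∈ NS (Subalgebra.toSubmodule (CJ V {w'})) f' p :=
    QC.exists_pow_smul_mem_NS (V := V) (E := K) (F := fun C => Subalgebra.toSubmodule C)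
      (QC_self (k := k) (K := K)) (Z := {w'}) (z := w') (z' := w) (Set.mem_singleton w') hZ hw.1
      hw.2 (y := f') (l := p) (v := f l) hglob
  obtain ⟨t0, ht0⟩ := h0
  refine Filter.eventually_atTop.2 ⟨t0, fun t ht => ?_⟩
  obtain ⟨u, rfl⟩ : ∃ u, t = u + t0 := ⟨t - t0, by omega⟩
  have h1 : (w * w'⁻¹) ^ u ∈ CJ V {w'} :=
    Subalgebra.pow_mem _ (mul_inv_mem_CJ hw.1 (Set.mem_singleton w')) u
  have h2 := NS_stable (C := CJ V {w'}) (N := Subalgebra.toSubmodule (CJ V {w'}))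
    (fun a ha v hv => (CJ V {w'}).mul_mem ha hv) f' p _ h1 _ ht0
  have e : (w * w'⁻¹) ^ (u + t0) * f l = (w * w'⁻¹) ^ u • ((w * w'⁻¹) ^ t0 • f l) := by
    rw [pow_add, mul_assoc]
    rfl
  rw [e]
  exact h2

theorem RN3_main (hX : IsCompleteNormal X) (h : IsPr V X) (hS : ∀ A ∈ SS V' X' s, ∃ g, Un V' A g) (hp : 1 ≤ p)
    (hsV : ∀ l, s l ∈ V') (hsub : ∀ A ∈ SS V' X' s, A ∈ X) {𝒲 : Set K} (hfin : 𝒲.Finite)
    (hV : ∀ w ∈ 𝒲, w ∈ V ∧ w ≠ 0) (hcov : ∀ A ∈ X, ∃ w ∈ 𝒲, Un V A w) (f : K → Fin p → K)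
    (hf : ∀ w ∈ 𝒲, HN3_Typ X X' V V' s w (f w)) :
    ∃ t0, 1 ≤ t0 ∧ ∀ t, t0 ≤ t → JData X X' (V ^ t) V' s (HN3_J V 𝒲 f t) ∧
      CData X X' (V ^ t) V' s ((fun w => w ^ t) '' 𝒲) := by
  have hev1 : ∀ᶠ t : ℕ in Filter.atTop, ∀ w ∈ 𝒲, ∀ l, f w l * w ^ t ∈ V ^ t := by
    rw [Filter.eventually_all_finite hfin]
    intro w hw
    rw [Filter.eventually_all]
    exact fun l => HN3_ev hX h hsV (hV w hw) (hf w hw) l
  have hev2 : ∀ᶠ t : ℕ in Filter.atTop, ∀ w ∈ 𝒲, ∀ w' ∈ 𝒲, ∀ l,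
      (w * w'⁻¹) ^ t * f w l ∈ NS (Subalgebra.toSubmodule (CJ V {w'})) (f w') p := by
    rw [Filter.eventually_all_finite hfin]
    intro w hw
    rw [Filter.eventually_all_finite hfin]
    intro w' hw'
    rw [Filter.eventually_all]
    exact fun l => RN3_ev' hX h hS hp hsV (hV w hw) (hV w' hw') (hf w hw) (hf w' hw') l
  obtain ⟨t0, ht0⟩ := Filter.eventually_atTop.1 (hev1.and hev2)
  refine ⟨t0 + 1, by omega, fun t ht => ?_⟩
  obtain ⟨h1, h2⟩ := ht0 t (by omega)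
  have hJ : ∀ w ∈ 𝒲, ∀ l, f w l * w ^ t ∈ HN3_J V 𝒲 f t := by
    intro w hw l
    refine ⟨h1 w hw l, fun w' hw' => ?_⟩
    have h3 := h2 w hw w' hw' l
    have e : (w * w'⁻¹) ^ t * f w l = f w l * w ^ t * (w' ^ t)⁻¹ := by
      rw [mul_pow, inv_pow]
      ring
    rwa [e] at h3
  refine ⟨⟨fun x hx => hx.1, ?_, ?_, ?_⟩, ⟨hfin.image _, ?_, ?_, ?_⟩⟩
  · intro A hA hAS
    obtain ⟨w, hw, hun⟩ := hcov A hA
    obtain ⟨l, h3, h4⟩ := HN3_unit hp hsV (hf w hw) hA hun hAS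
    refine ⟨f w l * w ^ t, hJ w hw l, (un_iff (hun.pow t) (h1 w hw l)).2 ?_⟩
    have hw0 : w ^ t ≠ 0 := pow_ne_zero t (hV w hw).2
    rw [mul_assoc, mul_inv_cancel₀ hw0, mul_one]
    exact ⟨h3, h4⟩
  · intro A hAS x g hx hg z hz
    have hA := hsub A hAS
    obtain ⟨w, hw, hun⟩ := hcov A hA
    have h3 := hz.2 w hw
    have hCA : CJ V {w} ≤ A := (CJ_le_iff (by
      intro z hz
      rw [Set.mem_singleton_iff.1 hz]
      exact hV w hw)).2 (by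
      intro z hz
      rw [Set.mem_singleton_iff.1 hz]
      exact hun)
    have h4 : z * (w ^ t)⁻¹ ∈ NS (Subalgebra.toSubmodule A) (f w) p :=
      NS_mono (Subalgebra.toSubmodule.monotone hCA) (f w) p h3
    rw [HN3_NS_S (hf w hw) hA hun hAS hg] at h4
    have hw0 : w ^ t ≠ 0 := pow_ne_zero t (hV w hw).2
    have e : z * x⁻¹ = (w ^ t * x⁻¹) * (z * (w ^ t)⁻¹) := by
      field_simp
    rw [e]
    exact NS_stable (C := A) (fun a ha v hv => A.mul_mem ha hv) _ p _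
      (hx.2.2 _ (hun.pow t).1) _ h4
  · intro A hAS x g hx hg l
    have hA := hsub A hAS
    obtain ⟨w, hw, hun⟩ := hcov A hA
    obtain ⟨g', h3, h4⟩ := HN3_S (hf w hw) hA hun hAS
    have hw0 : w ^ t ≠ 0 := pow_ne_zero t (hV w hw).2
    have hx0 := hx.2.1
    have hg0 := hg.2.1
    have hg0' := h4.2.1
    refine ⟨f w l * w ^ t, hJ w hw l, (g' * g⁻¹) * (x * (w ^ t)⁻¹),
      A.mul_mem (hg.2.2 _ h4.1) ((hun.pow t).2.2 _ hx.1), ?_⟩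
    rw [h3]
    field_simp
  · rintro _ ⟨w, hw, rfl⟩
    exact Submodule.pow_mem_pow V (hV w hw).1 t
  · intro A hA
    obtain ⟨w, hw, hun⟩ := hcov A hA
    exact ⟨w ^ t, ⟨w, hw, rfl⟩, hun.pow t⟩
  · rintro _ ⟨w, hw, rfl⟩
    have h5 : ∀ A, Un (V ^ t) A (w ^ t) → Un V A w := fun A hA =>
      un_of_un_pow (by omega) (hV w hw).1 hA
    rcases hf w hw with ⟨_, h6⟩ | ⟨g, _, h6⟩
    · exact Or.inr fun A hA hun => h6 A hA (h5 A hun)
    · exact Or.inl ⟨g, fun A hA hun => h6 A hA (h5 A hun)⟩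

end RN3

/-- (IV.3) of the paper proof, relative form -/
theorem exists_ideal_rel (hX : IsCompleteNormal X) (h : IsPr V X) {p : ℕ} (hp : 1 ≤ p)
    {s : Fin p → K} (hsV : ∀ l, s l ∈ V') (hsub : ∀ A ∈ SS V' X' s, A ∈ X)
    (hS : ∀ A ∈ SS V' X' s, ∃ g, Un V' A g) (hcl : Opn X (SS V' X' s)ᶜ)
    (hch : ∀ A ∈ SS V' X' s, ∃ (O : Set (Subalgebra k K)) (g : K),
      Opn X O ∧ A ∈ O ∧ ∀ B ∈ X, B ∈ O → B ∈ X' ∧ Un V' B g) :
    ∃ m : ℕ, 1 ≤ m ∧ ∃ t0 : ℕ, 1 ≤ t0 ∧ ∀ t : ℕ, t0 ≤ t →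
      (∃ J, JData X X' (V ^ (m * t)) V' s J) ∧ ∃ 𝒲, CData X X' (V ^ (m * t)) V' s 𝒲 := by
  classical
  let σ : Type u := {q : Set (Subalgebra k K) × K //
    Opn X q.1 ∧ ∀ B ∈ X, B ∈ q.1 → B ∈ X' ∧ Un V' B q.2}
  let O : Option σ → Set (Subalgebra k K) := fun j =>
    j.elim (SS V' X' s)ᶜ (fun q => q.1.1)
  have hO : ∀ j, Opn X (O j) := by
    rintro (_ | q)
    · exact hcl
    · exact q.2.1
  have hcov : ∀ A ∈ X, A ∈ Set.univ → ∃ j, A ∈ O j := by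
    intro A _ _
    by_cases hAS : A ∈ SS V' X' s
    · obtain ⟨W, g, hW, hAW, hall⟩ := hch A hAS
      exact ⟨some ⟨(W, g), hW, hall⟩, hAW⟩
    · exact ⟨none, hAS⟩
  obtain ⟨m, hm, hall⟩ := exists_cover hX h HN2_univ hO hcov
  obtain ⟨𝒲, hfin, hWV, htyp, hcW⟩ := hall 1 le_rfl
  rw [mul_one] at hWV htyp hcW
  choose! j hj using htyp
  let f : K → Fin p → K := fun w => (j w).elim (fun _ => 1) (fun q l => s l * (q.1.2)⁻¹)
  have hf : ∀ w ∈ 𝒲, HN3_Typ X X' (V ^ m) V' s w (f w) := by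
    intro w hw
    have h1 := hj w hw
    have h2 : f w = (j w).elim (fun _ => 1) (fun q l => s l * (q.1.2)⁻¹) := rfl
    rw [h2]
    cases hjw : j w with
    | none =>
      rw [hjw] at h1
      exact Or.inl ⟨fun _ => rfl, h1⟩
    | some q =>
      rw [hjw] at h1
      exact Or.inr ⟨q.1.2, fun _ => rfl, fun B hB hun => q.2.2 B hB (h1 B hB hun)⟩
  obtain ⟨t0, ht0, h1⟩ := RN3_main hX (h.pow hX hm) hS hp hsV hsub
    (𝒲 := {w | w ∈ 𝒲 ∧ w ≠ 0}) (hfin.subset fun w hw => hw.1)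
    (fun w hw => ⟨hWV w hw.1, hw.2⟩) (fun A hA => by
      obtain ⟨w, hw, hun⟩ := hcW A hA (Set.mem_univ A)
      exact ⟨w, ⟨hw, hun.2.1⟩, hun⟩) f (fun w hw => hf w hw.1)
  refine ⟨m, hm, t0, ht0, fun t ht => ?_⟩
  rw [pow_mul]
  exact ⟨⟨_, (h1 t ht).1⟩, _, (h1 t ht).2⟩

end Flip28
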