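import Pool.Agent.FlipB_h28.HO2

/-! # Choice of the sections `h`, relative form: `X'` is only a set of local rings -/

open scoped KaehlerDifferential

universe u

namespace Flip28

variable {k K : Type u} [Field k] [Field K] [Algebra k K] [CharZero k]
  [Algebra.EssFiniteType k K] {X X' : Set (Subalgebra k K)} {V V' : Submodule k K} {n p d : ℕ}

set_option linter.unusedSectionVars false

/-- There are finitely many points `A ≤ P` of `S`.  Proof: `finite_of_opn` for the open set of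
the `A` with `A ∉ S` or `¬ A ≤ P` (`opn_compl_SS`, `opn_not_le`); all these points have dimension
`n`. -/
theorem RO2_finite (b : Module.Basis (Fin n) K Ω[K⁄k]) (hX : IsCompleteNormal X)
    {s : Fin p → K} (hcS : Opn X (SS V' X' s)ᶜ) {P : Subalgebra k K}
    (hs : SData X X' V' n s P) : {A | A ∈ SS V' X' s ∧ A ≤ P}.Finite := by
  have h1 : Opn X ((SS V' X' s)ᶜ ∪ {A | ¬ A ≤ P}) :=
    hcS.union (opn_not_le P)
  have h2 : ∀ A, A ∉ ((SS V' X' s)ᶜ ∪ {A | ¬ A ≤ P} : Set (Subalgebra k K)) ↔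
      A ∈ SS V' X' s ∧ A ≤ P := by
    intro A
    rw [Set.mem_union, not_or, Set.mem_compl_iff, not_not]
    exact and_congr_right fun _ => not_not
  refine (finite_of_opn hX h1 (e := n) fun A _ hA => ?_).subset fun A hA => ?_
  · rw [h2] at hA
    exact (hs.dim A hA.1 hA.2).ge
  · exact ⟨hs.mem A hA.1, (h2 A).2 hA, hs.dim A hA.1 hA.2⟩

theorem RO2_step (b : Module.Basis (Fin n) K Ω[K⁄k]) (hX : IsCompleteNormal X)
    (h : IsPr V X) {s : Fin p → K} (hcS : Opn X (SS V' X' s)ᶜ) (hp : 1 ≤ p)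
    (hpd : p + d = n) {P : Subalgebra k K} (hP : P ∈ X) (hPd : ringKrullDim P = d)
    (hs : SData X X' V' n s P) {J : Submodule k K}
    (hJ : JData X X' V V' s J) {xx gg : Subalgebra k K → K}
    (hxx : ∀ A ∈ SS V' X' s, Un V A (xx A)) (hgg : ∀ A ∈ SS V' X' s, Un V' A (gg A))
    {l : ℕ} (hl : l < p) {hh : Fin p → K} (H : HO2_I X X' V V' d s P J xx gg l hh) :
    ∃ hh' : Fin p → K, HO2_I X X' V V' d s P J xx gg (l + 1) hh' := by
  classical
  have : Infinite k := CharZero.infinite k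
  have hdimSS : ∀ A ∈ SS V' X' s, A ≤ P → ∀ e : ℕ, ringKrullDim A = e → e = n := by
    intro A hA hAP e he
    have h1 := hs.dim A hA hAP
    rw [he] at h1
    exact_mod_cast h1
  -- the point `P`
  have hPS : P ∉ SS V' X' s := fun hPS => by
    have := hdimSS P hPS le_rfl d hPd
    omega
  -- the points of small dimension
  have hopn : Opn X ({A | ¬ A ≤ P} ∪ {A | ∃ a : Fin p, (a : ℕ) < l ∧ Un V A (hh a)}) :=
    (opn_not_le P).union (HO2_opn_ex hX h l)
  have hcl : ∀ A, A ∉ ({A | ¬ A ≤ P} ∪ {A | ∃ a : Fin p, (a : ℕ) < l ∧ Un V A (hh a)} :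
      Set (Subalgebra k K)) ↔ A ≤ P ∧ ∀ a : Fin p, (a : ℕ) < l → ¬ Un V A (hh a) := by
    intro A
    rw [Set.mem_union, not_or]
    refine and_congr not_not ?_
    show ¬ (∃ a : Fin p, (a : ℕ) < l ∧ Un V A (hh a)) ↔ _
    push Not
    rfl
  have hT1 := finite_of_opn hX hopn (e := d + l)
    (fun A hA hAU => H.dim A hA ((hcl A).1 hAU).1 ((hcl A).1 hAU).2)
  -- the associated points
  obtain ⟨T2, hT2f, hT2X, hT2a, hT2⟩ := exists_ass hX h (QC_FC (k := k) (K := K) (p := p)) hh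
    (fun a => hJ.le (H.J a)) l
  have hT2S : ∀ A ∈ T2, A ∉ SS V' X' s := by
    intro A hA hAS
    obtain ⟨x, v, hx, hv, hvn, hvm⟩ := hT2a A hA
    obtain ⟨R, hR, hRK, hRA⟩ := HO2_chart hX (hs.mem A hAS)
    have hloc : IsLocalRing A := hRA.2.1
    have hg := hgg A hAS
    obtain ⟨hsa, hsa'⟩ := HO2_f hX hs hAS hg
    have hha : ∀ a, hh a * x⁻¹ ∈ A := fun a => hx.2.2 _ (hJ.le (H.J a))
    obtain ⟨dd, yy, hyy⟩ := exists_coord (b := b) hR hRK hRA (hs.smooth A hAS)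
    refine hvn (not_assoc hR hRA hyy (by omega) hsa hsa' (hs.reg A hAS _ hg) hha hl ?_
      (H.reg A (hs.mem A hAS) x hx) hv hvm)
    intro i _
    have h1 := hJ.sub A hAS x _ hx hg _ (H.J i)
    have h2 := (mem_NS_iff_span (A := A) (fun i => ⟨s i * (gg A)⁻¹, hsa i⟩)
      ⟨hh i * x⁻¹, hha i⟩).1 h1
    have h3 : Ideal.span (Set.range fun i => (⟨s i * (gg A)⁻¹, hsa i⟩ : A)) ≤
        IsLocalRing.maximalIdeal A := by
      rw [Ideal.span_le]
      rintro _ ⟨i, rfl⟩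
      exact (HO2_max _).2 (Or.inr (hsa' i))
    exact (HO2_max _).1 (h3 h2)
  -- the subspaces
  have hU : ∀ A : Subalgebra k K, ∃ U : Submodule k K, A ∈ SS V' X' s → A ≤ P → ¬ J ≤ U ∧
      ∀ z ∈ J, z ∉ U → ¬ HO2_Q A (fun a => hh a * (xx A)⁻¹) (fun a => s a * (gg A)⁻¹) l
        (z * (xx A)⁻¹) := by
    intro A
    by_cases hA : A ∈ SS V' X' s
    · obtain ⟨U, hU1, hU2⟩ := HO2_proper b hX hpd hs hJ hA (hxx A hA) (hgg A hA) H.J hl
        (H.reg A (hs.mem A hA) _ (hxx A hA))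
      refine ⟨U, fun _ _ => ⟨hU1, fun z hz hzU hQ => hzU ?_⟩⟩
      have hha : ∀ a, hh a * (xx A)⁻¹ ∈ A := fun a => (hxx A hA).2.2 _ (hJ.le (H.J a))
      have hsa : ∀ a, s a * (gg A)⁻¹ ∈ A := (HO2_f hX hs hA (hgg A hA)).1
      have hzA : z * (xx A)⁻¹ ∈ A := (hxx A hA).2.2 _ (hJ.le hz)
      obtain ⟨R, hR, hRK, hRA⟩ := HO2_chart hX (hs.mem A hA)
      exact hU2 z hz hzA hha hsa hRA.2.1 ((HO2_Q_iff hha hsa hRA.2.1 hzA).1 hQ)
    · exact ⟨⊥, fun h => absurd h hA⟩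
  choose UU0 hUU0 using hU
  obtain ⟨z, hzJ, hzT, hzU⟩ := exists_un_of_finite hJ.le
    (𝒯 := {P} ∪ ({A | A ∈ X ∧ A ∉ ({A | ¬ A ≤ P} ∪
      {A | ∃ a : Fin p, (a : ℕ) < l ∧ Un V A (hh a)} : Set (Subalgebra k K)) ∧
        ringKrullDim A = ((d + l : ℕ) : WithBot ℕ∞)} ∪ T2))
    ((Set.finite_singleton P).union (hT1.union hT2f))
    (by
      intro A hA
      have hAX : A ∈ X := by
        rcases hA with hA | hA | hA
        · rw [hA]; exact hP
        · exact hA.1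
        · exact hT2X hA
      obtain ⟨R, hR, hRK, hRA⟩ := HO2_chart hX hAX
      exact hRA.2.1)
    (by
      intro A hA
      rcases hA with hA | hA | hA
      · rw [hA]
        exact hJ.gen P hP hPS
      · refine hJ.gen A hA.1 fun hAS => ?_
        have := hdimSS A hAS ((hcl A).1 hA.2.1).1 (d + l) hA.2.2
        omega
      · exact hJ.gen A (hT2X hA) (hT2S A hA))
    (𝒰 := UU0 '' {A | A ∈ SS V' X' s ∧ A ≤ P})
    ((RO2_finite b hX hcS hs).image _)
    (by
      rintro _ ⟨A, hA, rfl⟩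
      exact (hUU0 A hA.1 hA.2).1)
  obtain ⟨hh', e1, e2⟩ : ∃ hh' : Fin p → K, (∀ a : Fin p, (a : ℕ) < l → hh' a = hh a) ∧
      (∀ a : Fin p, (a : ℕ) = l → hh' a = z) ∧ ∀ a, hh' a ∈ J := by
    refine ⟨Function.update hh ⟨l, hl⟩ z, fun a ha => ?_, fun a ha => ?_, fun a => ?_⟩
    · rw [Function.update_of_ne]
      intro h1
      rw [h1] at ha
      exact lt_irrefl _ ha
    · have h1 : a = ⟨l, hl⟩ := Fin.ext ha
      rw [h1, Function.update_self]
    · by_cases h1 : a = ⟨l, hl⟩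
      · rw [h1, Function.update_self]
        exact hzJ
      · rw [Function.update_of_ne h1]
        exact H.J a
  obtain ⟨e2, e3⟩ := e2
  refine ⟨hh', e3, ?_, ?_, ?_, ?_⟩
  · -- regularity
    intro A hA x hx i hi v hv hyv
    have e4 : NS (FC p A) (fun a => hh' a * x⁻¹) i = NS (FC p A) (fun a => hh a * x⁻¹) i :=
      HO2_NS_congr fun a ha => by rw [e1 a (by omega)]
    rw [e4] at hyv ⊢
    change (hh' i * x⁻¹) • v ∈ _ at hyv
    by_cases hil : (i : ℕ) < l
    · rw [e1 i hil] at hyv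
      exact H.reg A hA x hx i hil v hv hyv
    · have hil' : (i : ℕ) = l := by omega
      rw [e2 i hil', hil'] at hyv
      rw [hil']
      exact hT2 z (hJ.le hzJ) (fun B hB => hzT B (Or.inr (Or.inr hB))) A hA x hx v hv hyv
  · intro a ha
    by_cases hal : (a : ℕ) < l
    · rw [e1 a hal]
      exact H.unP a hal
    · rw [e2 a (by omega)]
      exact hzT P (Or.inl rfl)
  · intro A hA hAP hAU
    have h1 : ∀ a : Fin p, (a : ℕ) < l → ¬ Un V A (hh a) := fun a ha => by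
      rw [← e1 a ha]
      exact hAU a (by omega)
    have h2 := H.dim A hA hAP h1
    obtain ⟨d', hd', -⟩ := dim_le_basis b hX hA
    rw [hd'] at h2 ⊢
    have h3 : d + l ≤ d' := by exact_mod_cast h2
    have h4 : d + l ≠ d' := by
      intro h5
      have h6 := hzT A (Or.inr (Or.inl ⟨hA, (hcl A).2 ⟨hAP, h1⟩, by rw [hd', h5]⟩))
      have h7 := hAU ⟨l, hl⟩ (Nat.lt_succ_self l)
      rw [e2 ⟨l, hl⟩ rfl] at h7
      exact h7 h6
    have h5 : d + (l + 1) ≤ d' := by omega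
    exact_mod_cast h5
  · intro A hA hAP i hi
    have e4 : ∀ a : Fin p, (a : ℕ) < i → (fun a => hh' a * (xx A)⁻¹) a =
        (fun a => hh a * (xx A)⁻¹) a := fun a ha => by
      show hh' a * (xx A)⁻¹ = hh a * (xx A)⁻¹
      rw [e1 a (by omega)]
    rw [HO2_Q_congr e4]
    by_cases hil : (i : ℕ) < l
    · rw [e1 i hil]
      exact H.cond A hA hAP i hil
    · have hil' : (i : ℕ) = l := by omega
      rw [e2 i hil', hil']
      exact (hUU0 A hA hAP).2 z hzJ (hzU _ ⟨A, ⟨hA, hAP⟩, rfl⟩)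

/-- (IV.4) of the paper proof, relative form -/
theorem exists_h_rel (b : Module.Basis (Fin n) K Ω[K⁄k]) (hX : IsCompleteNormal X)
    (h : IsPr V X) {s : Fin p → K} (hS : ∀ A ∈ SS V' X' s, ∃ g, Un V' A g)
    (hcS : Opn X (SS V' X' s)ᶜ) (hp : 1 ≤ p)
    (hpd : p + d = n) {P : Subalgebra k K} (hP : P ∈ X) (hPd : ringKrullDim P = d)
    (hs : SData X X' V' n s P) {J : Submodule k K}
    (hJ : JData X X' V V' s J) : ∃ hh h0, HData X X' V V' s P hh h0 := by
  classical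
  have : Infinite k := CharZero.infinite k
  -- generators at the points of `S`
  have hxg : ∀ A : Subalgebra k K, ∃ x g : K, A ∈ SS V' X' s → Un V A x ∧ Un V' A g := by
    intro A
    by_cases hA : A ∈ SS V' X' s
    · obtain ⟨x, hx⟩ := h.exists_un (hs.mem A hA)
      obtain ⟨g, hg⟩ := hS A hA
      exact ⟨x, g, fun _ => ⟨hx, hg⟩⟩
    · exact ⟨0, 0, fun h => absurd h hA⟩
  choose xx gg hxg using hxg
  have hxx : ∀ A ∈ SS V' X' s, Un V A (xx A) := fun A hA => (hxg A hA).1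
  have hgg : ∀ A ∈ SS V' X' s, Un V' A (gg A) := fun A hA => (hxg A hA).2
  have hind : ∀ l : ℕ, l ≤ p → ∃ hh : Fin p → K, HO2_I X X' V V' d s P J xx gg l hh := by
    intro l
    induction l with
    | zero =>
      intro _
      refine ⟨fun _ => 0, fun _ => J.zero_mem, ?_, ?_, ?_, ?_⟩
      · intro A _ x _ i hi
        exact absurd hi (Nat.not_lt_zero _)
      · intro a ha
        exact absurd ha (Nat.not_lt_zero _)
      · intro A hA hAP _
        rw [add_zero, ← hPd]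
        by_cases hAe : A = P
        · rw [hAe]
        · exact (dim_lt_of_le_ne hX hA hP hAP hAe).le
      · intro A _ _ i hi
        exact absurd hi (Nat.not_lt_zero _)
    | succ l ih =>
      intro hl
      obtain ⟨hh, H⟩ := ih (by omega)
      exact RO2_step b hX h hcS hp hpd hP hPd hs hJ hxx hgg (by omega) H
  obtain ⟨hh, H⟩ := hind p le_rfl
  have hopn : Opn X ({A | ¬ A ≤ P} ∪ {A | ∃ a : Fin p, (a : ℕ) < p ∧ Un V A (hh a)}) :=
    (opn_not_le P).union (HO2_opn_ex hX h p)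
  have hcl : ∀ A, A ∉ ({A | ¬ A ≤ P} ∪ {A | ∃ a : Fin p, (a : ℕ) < p ∧ Un V A (hh a)} :
      Set (Subalgebra k K)) ↔ A ≤ P ∧ ∀ a : Fin p, (a : ℕ) < p → ¬ Un V A (hh a) := by
    intro A
    rw [Set.mem_union, not_or]
    refine and_congr not_not ?_
    show ¬ (∃ a : Fin p, (a : ℕ) < p ∧ Un V A (hh a)) ↔ _
    push Not
    rfl
  have hT1 := finite_of_opn hX hopn (e := d + p)
    (fun A hA hAU => H.dim A hA ((hcl A).1 hAU).1 ((hcl A).1 hAU).2)
  obtain ⟨h0, h0V, h0T, -⟩ := exists_un_of_finite (le_refl V)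
    (𝒯 := {P} ∪ {A | A ∈ X ∧ A ∉ ({A | ¬ A ≤ P} ∪
      {A | ∃ a : Fin p, (a : ℕ) < p ∧ Un V A (hh a)} : Set (Subalgebra k K)) ∧
        ringKrullDim A = ((d + p : ℕ) : WithBot ℕ∞)})
    ((Set.finite_singleton P).union hT1)
    (by
      intro A hA
      have hAX : A ∈ X := by
        rcases hA with hA | hA
        · rw [hA]; exact hP
        · exact hA.1
      obtain ⟨R, hR, hRK, hRA⟩ := HO2_chart hX hAX
      exact hRA.2.1)
    (by
      intro A hA
      have hAX : A ∈ X := by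
        rcases hA with hA | hA
        · rw [hA]; exact hP
        · exact hA.1
      obtain ⟨x, hx⟩ := h.exists_un hAX
      exact ⟨x, hx.1, hx⟩)
    (𝒰 := ∅) Set.finite_empty (fun U hU => absurd hU (Set.notMem_empty U))
  refine ⟨hh, h0, fun a => hJ.le (H.J a), fun a => (H.unP a a.2).2.1, h0V, ?_, H.reg, ?_, ?_,
    h0T P (Or.inl rfl), fun a => H.unP a a.2⟩
  · intro A hA x g hx hg a
    exact hJ.sub A hA x g hx hg _ (H.J a)
  · intro A hA hAP x g hx hg i
    obtain ⟨R, hR, hRK, hRA⟩ := HO2_chart hX (hs.mem A hA)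
    have hloc : IsLocalRing A := hRA.2.1
    have hsa : ∀ a, s a * (gg A)⁻¹ ∈ A := (HO2_f hX hs hA (hgg A hA)).1
    have hha : ∀ a, hh a * (xx A)⁻¹ ∈ A := fun a => (hxx A hA).2.2 _ (hJ.le (H.J a))
    have h1 := HO1_span_eq (fun a => (⟨s a * (gg A)⁻¹, hsa a⟩ : A))
      (fun a => (⟨hh a * (xx A)⁻¹, hha a⟩ : A))
      (fun a => (mem_NS_iff_span (A := A) (fun i => ⟨s i * (gg A)⁻¹, hsa i⟩)
        ⟨hh a * (xx A)⁻¹, hha a⟩).1 (hJ.sub A hA _ _ (hxx A hA) (hgg A hA) _ (H.J a)))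
      (fun a hmem => H.cond A hA hAP a a.2 ((HO2_Q_iff hha hsa hloc (hha a)).2 hmem))
    have h2 : (⟨s i * (gg A)⁻¹, hsa i⟩ : A) ∈
        Ideal.span (Set.range fun a => (⟨hh a * (xx A)⁻¹, hha a⟩ : A)) := by
      rw [h1]
      exact Ideal.subset_span ⟨i, rfl⟩
    have h3 : s i * (gg A)⁻¹ ∈ NS (Subalgebra.toSubmodule A) (fun a => hh a * (xx A)⁻¹) p :=
      (mem_NS_iff_span (A := A) (fun a => ⟨hh a * (xx A)⁻¹, hha a⟩)
        ⟨s i * (gg A)⁻¹, hsa i⟩).2 h2
    have hst : ∀ a ∈ A, ∀ v ∈ Subalgebra.toSubmodule A, a • v ∈ Subalgebra.toSubmodule A :=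
      fun _ h _ h' => A.mul_mem h h'
    have hx0 := hx.2.1
    have hxx0 := (hxx A hA).2.1
    have hg0 := hg.2.1
    have hgg0 := (hgg A hA).2.1
    have e1 : NS (Subalgebra.toSubmodule A) (fun a => hh a * x⁻¹) p =
        NS (Subalgebra.toSubmodule A) (fun a => hh a * (xx A)⁻¹) p := by
      refine NS_unit (θ := xx A * x⁻¹) hst (mul_ne_zero hxx0 (inv_ne_zero hx0))
        (hx.2.2 _ (hxx A hA).1) ?_ ?_ p
      · have e2 : (xx A * x⁻¹)⁻¹ = x * (xx A)⁻¹ := by
          field_simp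
        rw [e2]
        exact (hxx A hA).2.2 _ hx.1
      · intro a
        field_simp
    rw [e1]
    have e3 : s i * g⁻¹ = (gg A * g⁻¹) • (s i * (gg A)⁻¹) := by
      rw [smul_eq_mul]
      field_simp
    rw [e3]
    exact NS_stable (C := A) hst _ _ _ (hg.2.2 _ (hgg A hA).1) _ h3
  · intro A hA hAP
    by_cases hex : ∃ a, Un V A (hh a)
    · exact Or.inr hex
    · left
      push Not at hex
      have h1 := H.dim A hA hAP fun a _ => hex a
      obtain ⟨d', hd', hd'n⟩ := dim_le_basis b hX hA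
      rw [hd'] at h1
      have h2 : d + p ≤ d' := by exact_mod_cast h1
      have h3 : d' = d + p := by omega
      refine h0T A (Or.inr ⟨hA, (hcl A).2 ⟨hAP, fun a _ => hex a⟩, ?_⟩)
      rw [hd', h3]

end Flip28
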