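import Pool.Agent.FlipB_h28.HS2

/-! # The residue argument, relative form: `X'` is only a set of local rings -/

open scoped KaehlerDifferential

universe u

namespace Flip28

variable {k K : Type u} [Field k] [Field K] [Algebra k K] {X X' : Set (Subalgebra k K)}
  {V V' : Submodule k K} {n p : ℕ} {s hh : Fin p → K} {h0 : K} {P A : Subalgebra k K}
  {ε : EE k K p}

/-- The residue argument, see `final_contra`. -/
theorem final_contra_rel [CharZero k] [Algebra.EssFiniteType k K]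
    (b : Module.Basis (Fin n) K Ω[K⁄k]) (hX : IsCompleteNormal X) (h : IsPr V X)
    (hS : ∀ A ∈ SS V' X' s, ∃ g, Un V' A g) (hp : 1 ≤ p) (hP : P ∈ X) (hs : SData X X' V' n s P)
    (hH : HData X X' V V' s P hh h0) (hε : ∀ A ∈ X, Un V A h0 → GoodAt V V' X' s hh A ε)
    {κ : Type u} [Field κ] [Algebra k κ] [Algebra.EssFiniteType k κ] {π : P →ₐ[k] κ}
    {bk : Module.Basis (Fin p) κ Ω[κ⁄k]} {ρ : EE k K p →ₗ[k] κ}
    (hsurj : Function.Surjective π)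
    (hker : ∀ a : P, π a = 0 ↔ (a : K) = 0 ∨ (a : K)⁻¹ ∉ P)
    (h1 : ∀ (a : P), ∀ v ∈ FC p P, ρ ((a : K) • v) = π a * ρ v)
    (h2 : ∀ a : Fin p → P, ρ (wf (fun i => (a i : K))) = jac bk (fun i => π (a i)))
    (a0 : k) (η : Fin (p + 1) → κ)
    (hη : ∀ a, η a ∈ WC bk (IM π (CJ V ((Fin.cons h0 hh : Fin (p + 1) → K) '' {b | b ≠ a}))))
    (hsum : a0 • ρ ε = ∑ a, η a) : a0 = 0 := by
  set z : Fin (p + 1) → K := Fin.cons h0 hh with hzdef
  have hz0 : z 0 = h0 := rfl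
  have hzs : ∀ a : Fin p, z a.succ = hh a := fun _ => rfl
  have hz : ∀ a, Un V P (z a) := by
    intro a
    refine Fin.cases ?_ (fun a' => ?_) a
    · exact hH.un0
    · exact hH.unP a'
  have hcov : ∀ A ∈ X, A ≤ P → ∃ i ∈ (Finset.univ : Finset (Fin (p + 1))), Un V A (z i) := by
    intro A hA hAP
    rcases hH.cov A hA hAP with h3 | ⟨a, h3⟩
    · exact ⟨0, Finset.mem_univ _, h3⟩
    · exact ⟨a.succ, Finset.mem_univ _, h3⟩
  have hrP : ∀ a b, z a * (z b)⁻¹ ∈ P := fun a b => (hz b).2.2 _ (hz a).1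
  let y : Fin (p + 1) → κ := fun a => π ⟨z a * h0⁻¹, hrP a 0⟩
  have hyne : ∀ a, y a ≠ 0 := by
    intro a h3
    rcases (hker _).1 h3 with h4 | h4
    · exact mul_ne_zero (hz a).2.1 (inv_ne_zero hH.un0.2.1) h4
    · apply h4
      show (z a * h0⁻¹)⁻¹ ∈ P
      rw [mul_inv, inv_inv, mul_comm]
      exact (hz a).2.2 _ hH.h0V
  have hratio : ∀ a b, y a * (y b)⁻¹ = π ⟨z a * (z b)⁻¹, hrP a b⟩ := by
    intro a b
    rw [← div_eq_mul_inv, div_eq_iff (hyne b), ← map_mul]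
    show π ⟨z a * h0⁻¹, hrP a 0⟩ = π _
    congr 1
    apply Subtype.ext
    show z a * h0⁻¹ = z a * (z b)⁻¹ * (z b * h0⁻¹)
    have := (hz b).2.1
    field_simp
  have hloc0 : ∀ b, IsLoc (CJ V {z b}) P := fun b => HJ1_isLoc_single hX h hP (hz b)
  have hC0 : IsLoc (CJ V {h0}) P := hloc0 0
  let yP : Fin p → P := fun a => ⟨hh a * h0⁻¹, hrP a.succ 0⟩
  let v : Fin p → κ := fun a => π (yP a)
  have hv : ∀ a : Fin p, v a = y a.succ * (y 0)⁻¹ := by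
    intro a
    rw [hratio]
    rfl
  -- the element `prl`
  have hprl : ((∏ a, yP a : P) : K) = prl hh h0 p := by
    unfold prl
    rw [Finset.filter_true_of_mem (fun a _ => a.2)]
    exact map_prod P.val yP Finset.univ
  have hprl0 : prl hh h0 p ≠ 0 := prl_ne_zero hH.ne hH.un0.2.1 p
  have hprlinv : (prl hh h0 p)⁻¹ ∈ P := by
    unfold prl
    rw [← Finset.prod_inv_distrib]
    refine Subalgebra.prod_mem _ fun a _ => ?_
    rw [mul_inv, inv_inv, mul_comm]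
    exact (hH.unP a).2.2 _ hH.h0V
  have hFCA : ∀ A ∈ X, Un V A h0 → prl hh h0 p • ε ∈ FC p A := fun A hA hun =>
    GoodAt.mem_FC hs hH.hV (hε A hA hun) hun
  have hFCC : prl hh h0 p • ε ∈ FC p (CJ V {h0}) := by
    refine (IsPr.mem_iff hX h (F := fun C => FC p C) QC_FC (Set.finite_singleton h0)
      (Set.singleton_nonempty h0) ?_).2 ?_
    · intro w hw
      rw [Set.mem_singleton_iff.1 hw]
      exact ⟨hH.h0V, hH.un0.2.1⟩
    · intro A hA hun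
      exact hFCA A hA (hun h0 rfl)
  have hFCP : prl hh h0 p • ε ∈ FC p P := hFCA P hP hH.un0
  have hεP : ε ∈ FC p P := by
    have h3 := HE_stable P _ hprlinv _ hFCP
    rw [smul_smul, inv_mul_cancel₀ hprl0, one_smul] at h3
    exact h3
  have hρ : ρ (prl hh h0 p • ε) = (∏ a, v a) * ρ ε := by
    rw [← hprl, h1 _ ε hεP, map_prod]
  have hwfP : wf (k := k) (fun a => hh a * h0⁻¹) ∈ FC p P := wf_mem fun a => (yP a).2
  have hρwf : ρ (wf (fun a => hh a * h0⁻¹)) = jac bk v := h2 yP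
  have hinX : ∀ B, IsLoc (CJ V {h0}) B → B ∈ X ∧ Un V B h0 := by
    intro B hB
    have h3 := (IsPr.isLoc_iff hX h (Set.finite_singleton h0) (Set.singleton_nonempty h0) (by
      intro w hw
      rw [Set.mem_singleton_iff.1 hw]
      exact ⟨hH.h0V, hH.un0.2.1⟩)).1 hB
    exact ⟨h3.1, h3.2 h0 rfl⟩
  have hlocS : ∀ A, IsLoc (CJ V {h0}) A → A ≤ P → A ∈ SS V' X' s →
      ∃ (c : K) (hc : c ∈ CJ V {h0}), c ≠ 0 ∧ c⁻¹ ∈ A ∧
        π ⟨c, hC0.1 hc⟩ * ((∏ a, v a) * ρ ε - jac bk v) ∈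
          NS (WC bk (IM π (CJ V {h0}))) v p := by
    intro A hA hAP hAS
    obtain ⟨hAX, hun⟩ := hinX A hA
    have h3 := GoodAt.sub_wf hs hH hAS hAP (hε A hAX hun) hun
    obtain ⟨c, hc, hc0, hcA, h4⟩ := HS2_local h1 h2 hC0.1 hA yP
      (Submodule.sub_mem _ hFCP hwfP) h3
    rw [map_sub, hρ, hρwf] at h4
    exact ⟨c, hc, hc0, hcA, h4⟩
  refine residue_contra hp bk y hyne (fun b => IM π (CJ V {z b})) ?_ ?_ ?_ ?_ v hv (ρ ε) ?_ ?_ ?_
    a0 η ?_ hsum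
  · intro b
    exact IM_fg π (CJ_fg h.fg (Set.finite_singleton _)) (hloc0 b).1
  · exact IM_frac π hsurj hker (hloc0 0)
  · intro a b
    rw [hratio]
    exact ⟨⟨z a * (z b)⁻¹, hrP a b⟩, mul_inv_mem_CJ (hz a).1 rfl, rfl⟩
  · intro b x hx
    have h3 := integral_of_cover hX h hP π hsurj hker (I := Finset.univ) (z := z)
      (fun i _ => hz i) hcov (Finset.mem_univ b) hx
    have hset : {t : κ | ∃ j ∈ (Finset.univ : Finset (Fin (p + 1))), ∃ w : P,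
        (w : K) = z j * (z b)⁻¹ ∧ t = π w} = Set.range fun a => y a * (y b)⁻¹ := by
      ext t
      constructor
      · rintro ⟨j, -, w, hw, rfl⟩
        refine ⟨j, ?_⟩
        show y j * (y b)⁻¹ = π w
        rw [hratio]
        congr 1
        exact Subtype.ext hw.symm
      · rintro ⟨j, rfl⟩
        exact ⟨j, Finset.mem_univ _, ⟨z j * (z b)⁻¹, hrP j b⟩, rfl, hratio j b⟩
    rw [hset] at h3
    exact h3
  · rw [← hρ]
    exact residue_mem h1 h2 hC0.1 hFCC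
  · intro 𝔫 h𝔫 _
    obtain ⟨A, hA, hAP, h3⟩ := IM_exists_point π hker hC0 𝔫 h𝔫.isPrime
    have hnot : ∀ (c : K) (hc : c ∈ CJ V {h0}), c ≠ 0 → c⁻¹ ∈ A →
        (⟨π ⟨c, hC0.1 hc⟩, ⟨c, hC0.1 hc⟩, hc, rfl⟩ : IM π (CJ V {h0})) ∉ 𝔫 := by
      intro c hc hc0 hcA h4
      rcases (h3 ⟨c, hC0.1 hc⟩ hc _ rfl).1 h4 with h5 | h5
      · exact hc0 h5
      · exact h5 hcA
    by_cases hAS : A ∈ SS V' X' s
    · right
      obtain ⟨c, hc, hc0, hcA, h4⟩ := hlocS A hA hAP hAS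
      exact ⟨⟨π ⟨c, hC0.1 hc⟩, ⟨c, hC0.1 hc⟩, hc, rfl⟩, hnot c hc hc0 hcA, h4⟩
    · left
      obtain ⟨hAX, hun⟩ := hinX A hA
      have h4 := GoodAt.mem_NS hAS (hε A hAX hun) hun
      obtain ⟨c, hc, hc0, hcA, h5⟩ := HS2_local h1 h2 hC0.1 hA yP hFCP h4
      rw [hρ] at h5
      exact ⟨⟨π ⟨c, hC0.1 hc⟩, ⟨c, hC0.1 hc⟩, hc, rfl⟩, hnot c hc hc0 hcA, h5⟩
  · obtain ⟨A, hAS, hAP⟩ := hs.ex
    have hAX := hs.mem A hAS
    have hAloc : IsLocalRing A := hX.isLocalRing hAX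
    obtain ⟨g, hg⟩ := hS A hAS
    have hnun : ∀ a, ¬ Un V A (hh a) := by
      intro a hun
      have h3 := hH.mem A hAS (hh a) g hun hg a
      rw [mul_inv_cancel₀ (hH.ne a)] at h3
      exact HS2_nonunit hAloc (fun l => s l * g⁻¹) (fun l => hg.2.2 _ (hs.sV l)) (fun l => by
        intro h4
        by_cases h5 : s l * g⁻¹ = 0
        · exact h5
        · exact absurd ((un_iff hg (hs.sV l)).2 ⟨h5, h4⟩) (hAS.2 l)) h3
    have hun : Un V A h0 := by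
      rcases hH.cov A hAX hAP with h3 | ⟨a, h3⟩
      · exact h3
      · exact absurd h3 (hnun a)
    have hA : IsLoc (CJ V {h0}) A := HJ1_isLoc_single hX h hAX hun
    obtain ⟨𝔫, h𝔫, h3⟩ := IM_exists_max b hX π hker (fun B hB => (hinX B hB).1) hC0 hA hAP
      (hs.dim A hAS hAP)
    refine ⟨𝔫, h𝔫, ?_, ?_⟩
    · intro a w hw
      refine (h3 (yP a) (mul_inv_mem_CJ (hH.hV a) rfl) w hw).2 (Or.inr ?_)
      intro h4
      exact hnun a ((un_iff hun (hH.hV a)).2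
        ⟨mul_ne_zero (hH.ne a) (inv_ne_zero hun.2.1), h4⟩)
    · obtain ⟨c, hc, hc0, hcA, h4⟩ := hlocS A hA hAP hAS
      refine ⟨⟨π ⟨c, hC0.1 hc⟩, ⟨c, hC0.1 hc⟩, hc, rfl⟩, ?_, h4⟩
      intro h5
      rcases (h3 ⟨c, hC0.1 hc⟩ hc _ rfl).1 h5 with h6 | h6
      · exact hc0 h6
      · exact h6 hcA
  · intro a
    refine HS2_WC_mono bk ?_ (hη a)
    refine (IM_CJ_le π ?_).trans ?_
    · rintro _ ⟨b', _, rfl⟩
      exact hz b'
    · rw [iSup_image]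

end Flip28
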