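import Pool.Agent.FlipB_h28.HS3
import Pool.Agent.FlipB_h28.RN2
import Pool.Agent.FlipB_h28.RN3
import Pool.Agent.FlipB_h28.RO2
import Pool.Agent.FlipB_h28.RS2

/-! # The bound by the dimension of the Cech cohomology of the forms, relative form -/

open scoped KaehlerDifferential

set_option linter.unusedSectionVars false

universe u

namespace Flip28

variable {k K : Type u} [Field k] [Field K] [Algebra k K] {X X' Z : Set (Subalgebra k K)}

/-- all data for one model, relative form -/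
theorem exists_datum_rel [CharZero k] [Algebra.EssFiniteType k K] {n : ℕ}
    (b : Module.Basis (Fin n) K Ω[K⁄k]) (hZ : IsCompleteNormal Z) {V : Submodule k K}
    (h : IsPr V Z) (hX : IsCompleteNormal X)
    (hZX : ∀ A ∈ Z, ∃ x ∈ X, Dom x A) {U : Set (Subalgebra k K)} (hU : Opn X U)
    (hUs : ∀ A ∈ Z, ∀ x ∈ X, x ∈ U → Dom x A → Algebra.FormallySmooth k A)
    (hX' : IsCompleteNormal X') (hpr : IsProj X') {p d : ℕ} (hp : 1 ≤ p)
    (hpd : p + d = n) {P : Subalgebra k K} (hP : P ∈ X') (hPZ : P ∈ Z)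
    (hPd : ringKrullDim P = d) (hsm : ∀ A ∈ X', ringKrullDim A ≤ d → A ∈ X ∧ A ∈ U) :
    ∃ (V' : Submodule k K) (s : Fin p → K) (Y : Set (Subalgebra k K)),
      SData Z Y V' n s P ∧ (∀ A ∈ SS V' Y s, ∃ g, Un V' A g) ∧ Opn Z (SS V' Y s)ᶜ ∧
      (∀ A ∈ SS V' Y s, ∃ x ∈ X', x ∈ X ∧ Dom x A) ∧
      ∃ m : ℕ, 1 ≤ m ∧ ∃ t0 : ℕ, 1 ≤ t0 ∧ ∀ t : ℕ, t0 ≤ t → ∃ (hh : Fin p → K) (h0 : K)
        (𝒲 : Set K), HData Z Y (V ^ (m * t)) V' s P hh h0 ∧ CData Z Y (V ^ (m * t)) V' s 𝒲 := by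
  obtain ⟨V', h'⟩ := exists_isPr hpr
  obtain ⟨s, Y, hs, hun, hcl, hch, hdown⟩ := exists_SData_rel b hZ hX hZX hU hUs hX' h' hpd hP
    hPZ hPd hsm
  obtain ⟨m, hm, t0, ht0, H⟩ := exists_ideal_rel hZ h hp hs.sV hs.mem hun hcl hch
  refine ⟨V', s, Y, hs, hun, hcl, hdown, m, hm, t0, ht0, fun t ht => ?_⟩
  obtain ⟨⟨J, hJ⟩, 𝒲, hC⟩ := H t ht
  have hmt : 1 ≤ m * t := Nat.one_le_iff_ne_zero.2
    (Nat.mul_ne_zero (by omega) (by omega))
  obtain ⟨hh, h0, hH⟩ := exists_h_rel b hZ (h.pow hZ hmt) hun hcl hp hpd hPZ hPd hs hJ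
  exact ⟨hh, h0, 𝒲, hH, hC⟩

/-- The restriction of the relation to the closure of `P`, relative form. -/
theorem kill_coeff_rel [CharZero k] [Algebra.EssFiniteType k K] {n : ℕ}
    (b : Module.Basis (Fin n) K Ω[K⁄k]) (hX : IsCompleteNormal X) {V V' : Submodule k K}
    (h : IsPr V X) {p d : ℕ} {s hh : Fin p → K} (hun : ∀ A ∈ SS V' X' s, ∃ g, Un V' A g)
    (hp : 1 ≤ p) (hpd : p + d = n) {P : Subalgebra k K} (hP : P ∈ X) (hPd : ringKrullDim P = d)
    (hsmP : Algebra.FormallySmooth k P) {h0 : K}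
    (hs : SData X X' V' n s P) (hH : HData X X' V V' s P hh h0)
    {ι : Type} [LinearOrder ι] [Fintype ι] {z : ι → K} (hz : ∀ i, z i ∈ V ∧ z i ≠ 0)
    {e : Fin (p + 1) → ι} (he : Function.Injective e)
    (hze : ∀ a, z (e a) = (Fin.cons h0 hh : Fin (p + 1) → K) a)
    {c c' : Finset ι → EE k K p}
    (hval : Val (fun J : Finset ι => FC p (CJ V (z '' (J : Set ι)))) Finset.univ (p + 1) c)
    (hcoc : Coc Finset.univ (p + 1) c)
    (hcl : ∃ (σ : ℤ) (φ : Fin (p + 1) → EE k K p) (ε : EE k K p), (σ = 1 ∨ σ = -1) ∧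
      (∀ a, φ a ∈ FC p (CJ V (z '' (((Finset.univ.image e).erase (e a) : Finset ι) :
        Set ι)))) ∧
      c (Finset.univ.image e) = σ • ε + ∑ a, φ a ∧
      ∀ A ∈ X, Un V A (z (e 0)) → GoodAt V V' X' s hh A ε)
    {S : Finset ι} (hS : ∀ A ∈ X, A ≤ P → ∃ i ∈ S, Un V A (z i))
    (hc' : Cob (fun J : Finset ι => FC p (CJ V (z '' (J : Set ι)))) S (p + 1) c')
    {a0 : k} (hrel : Cob (fun J : Finset ι => FC p (CJ V (z '' (J : Set ι)))) Finset.univ
      (p + 1) (a0 • c + c')) : a0 = 0 := by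
  classical
  obtain ⟨R, hR, hK, hRP, -⟩ := hX.exists_chart hP
  obtain ⟨d', x', hx'⟩ := exists_coord b hR hK hRP hsmP
  have hdd : d' = d := by
    have h1 := hx'.dim
    rw [hPd] at h1
    exact_mod_cast h1.symm
  subst hdd
  obtain ⟨κ, _, _, π, bk, ρ, hess, hsurj, hker, h1, h2⟩ := exists_residue hR hK hRP hx' hpd
  set F : Finset ι → Submodule k (EE k K p) :=
    fun J => FC p (CJ V (z '' (J : Set ι))) with hF
  set IP : Finset ι := Finset.univ.filter (fun i => Un V P (z i)) with hIP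
  have hmemIP : ∀ i, i ∈ IP ↔ Un V P (z i) := by
    intro i
    rw [hIP, Finset.mem_filter]
    exact ⟨fun h => h.2, fun h => ⟨Finset.mem_univ i, h⟩⟩
  set G : Finset ι → Submodule k κ :=
    fun J => WC bk (IM π (CJ V (z '' (J : Set ι)))) with hG
  have hCJP : ∀ J ⊆ IP, CJ V (z '' (J : Set ι)) ≤ P := by
    intro J hJ
    refine (CJ_le_iff ?_).2 ?_
    · rintro _ ⟨i, -, rfl⟩
      exact hz i
    · rintro _ ⟨i, hi, rfl⟩
      exact (hmemIP i).1 (hJ hi)
  have hFG : ∀ J ⊆ IP, ∀ v ∈ F J, ρ v ∈ G J := fun J hJ v hv =>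
    residue_mem h1 h2 (hCJP J hJ) hv
  have hGmono : ∀ J J', J ⊆ J' → G J ≤ G J' := fun J J' hJ =>
    WC_mono bk (IM_mono π (CJ_mono (Set.image_mono (by exact_mod_cast hJ))))
  have hsub : S ∩ IP ⊆ IP := Finset.inter_subset_right
  have hA : Cob F (S ∩ IP) (p + 1) (a0 • c + c') := hrel.mono (Finset.subset_univ _)
  have hB : Cob F (S ∩ IP) (p + 1) c' := hc'.mono Finset.inter_subset_left
  have hC : Cob F (S ∩ IP) (p + 1) (a0 • c) := by
    have h3 := hA.add (hB.smul (-1 : k))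
    have h4 : a0 • c + c' + (-1 : k) • c' = a0 • c := by
      rw [neg_one_smul]
      abel
    rwa [h4] at h3
  have hD : Cob G (S ∩ IP) (p + 1) (fun J => ρ ((a0 • c) J)) :=
    cob_image ρ (fun J hJ => hFG J (hJ.trans hsub)) hC
  have hvalIP : Val F IP (p + 1) (a0 • c) := by
    intro J _ hcard
    rw [Pi.smul_apply]
    exact Submodule.smul_mem _ _ (hval J (Finset.subset_univ _) hcard)
  have hcocIP : Coc IP (p + 1) (a0 • c) :=
    Coc.smul a0 (fun J _ hcard => hcoc J (Finset.subset_univ _) hcard)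
  have hE : Cob G IP (p + 1) (fun J => ρ ((a0 • c) J)) := by
    refine cob_of_sub hGmono hsub ?_ (val_image ρ hFG hvalIP) (coc_image ρ hcocIP) hD
    intro z0 hz0 I1 hI1 hI1' _
    refine acy_WC hX h hP π hker bk (z := z) (I := I1) (z0 := z0) ((hmemIP z0).1 hz0)
      (fun i hi => (hmemIP i).1 (hI1' hi)) ?_
    intro A hA hAP _
    obtain ⟨i, hiS, hi⟩ := hS A hA hAP
    refine ⟨i, hI1 (Finset.mem_inter.2 ⟨hiS, (hmemIP i).2 (hi.mono hAP)⟩), hi⟩
  have heIP : ∀ a, e a ∈ IP := by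
    intro a
    rw [hmemIP, hze]
    refine Fin.cases ?_ (fun a => ?_) a
    · rw [Fin.cons_zero]
      exact hH.un0
    · rw [Fin.cons_succ]
      exact hH.unP a
  obtain ⟨φ', hφ', hsum'⟩ := Cob.eval hE he heIP
  obtain ⟨σ, φ, ε, hσ, hφ, hcJ, hε⟩ := hcl
  have himg : ∀ a, z '' (((Finset.univ.image e).erase (e a) : Finset ι) : Set ι) =
      (Fin.cons h0 hh : Fin (p + 1) → K) '' {b | b ≠ a} := by
    intro a
    ext y
    constructor
    · rintro ⟨i, hi, rfl⟩
      rw [Finset.mem_coe, Finset.mem_erase, Finset.mem_image] at hi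
      obtain ⟨hia, b', -, rfl⟩ := hi
      refine ⟨b', fun hb => hia (by rw [hb]), ?_⟩
      rw [hze]
    · rintro ⟨b', hb', rfl⟩
      refine ⟨e b', ?_, hze b'⟩
      rw [Finset.mem_coe, Finset.mem_erase, Finset.mem_image]
      exact ⟨fun h => hb' (he h), b', Finset.mem_univ _, rfl⟩
  have hε' : ∀ A ∈ X, Un V A h0 → GoodAt V V' X' s hh A ε := by
    intro A hA hu
    refine hε A hA ?_
    rw [hze, Fin.cons_zero]
    exact hu
  have key := final_contra_rel b hX h hun hp hP hs hH hε' hsurj hker h1 h2 (a0 * (σ : k))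
    (fun a => φ' a - a0 • ρ (φ a)) ?_ ?_
  · rcases hσ with rfl | rfl
    · simpa using key
    · simpa using key
  · intro a
    refine Submodule.sub_mem _ ?_ (Submodule.smul_mem _ _ ?_)
    · have h3 := hφ' a
      rw [hG] at h3
      dsimp only at h3
      rwa [himg] at h3
    · have h3 := hFG ((Finset.univ.image e).erase (e a)) (by
        intro i hi
        rw [Finset.mem_erase, Finset.mem_image] at hi
        obtain ⟨-, b', -, rfl⟩ := hi
        exact heIP b') (φ a) (hφ a)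
      rw [hG] at h3
      dsimp only at h3
      rwa [himg] at h3
  · have h3 : ρ ((a0 • c) (Finset.univ.image e)) = ∑ a, φ' a := hsum'
    rw [Pi.smul_apply, map_smul, hcJ, map_add, map_zsmul, map_sum, smul_add,
      Finset.smul_sum, ← Int.cast_smul_eq_zsmul k, smul_smul] at h3
    rw [Finset.sum_sub_distrib, ← h3]
    abel

end Flip28
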